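import Pool.Agent.Helper38.BN.Words

/-!
# Project BN, pieces `BN-BR1` to `BN-BR5`: identities in the groups of type `B`
-/

namespace Pool.Agent.Helper38.BN

variable {K : Type*} [Group K] {k : ℕ} {a : ℕ → K} {d : K}

private lemma kap_comm_aux (h : RelBr k a) {j : ℕ} (hk : j < k) :
    ∀ p : ℕ, p < j → kap a p * a j = a j * kap a p := by
  intro p
  induction p with
  | zero => intro _; simp [kap]
  | succ p ih =>
    intro hp
    have e := ih (by omega)
    have c := h.comm p j (by omega) hk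
    simp only [kap]
    rw [mul_assoc, c, ← mul_assoc, e, mul_assoc]

/-- piece `BN-BR1`: `κ a_j = a_{j+1} κ` for the initial products `κ = a_0 ⋯ a_{p-1}`, `j + 1 < p`;
and `κ a_j = a_j κ` for `j > p`.
Proof. `a_i` commutes with `kap a p` for `p < i < k` (induction on `p` with `comm`).
`kap a p = kap a j * a j * a (j+1) * tail`; prove the claim by induction on `p ≥ j + 2`:
for `p = j + 2`: `kap a (j+2) = kap a j * a j * a (j+1)`, and
`a j * a (j+1) * a j = a (j+1) * a j * a (j+1)`, and `a (j+1)` commutes with `kap a j`.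
Step: `kap a (p+1) * a j = kap a p * a p * a j = kap a p * a j * a p`. -/
theorem kap_shift (h : RelBr k a) {p j : ℕ} (hp : p ≤ k) (hj : j + 1 < p) :
    kap a p * a j = a (j + 1) * kap a p := by
  induction p with
  | zero => omega
  | succ p ih =>
    rcases Nat.lt_or_ge (j + 1) p with hlt | hge
    · have e := ih (by omega) hlt
      have c := h.comm j p (by omega) (by omega)
      simp only [kap]
      rw [mul_assoc, ← c, ← mul_assoc, e, mul_assoc]
    · have hpj : p = j + 1 := by omega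
      subst hpj
      have c := kap_comm_aux h (j := j + 1) (by omega) j (by omega)
      have b := h.braid j (by omega)
      simp only [kap]
      calc kap a j * a j * a (j + 1) * a j = kap a j * (a j * a (j + 1) * a j) := by
            simp only [mul_assoc]
        _ = kap a j * (a (j + 1) * a j * a (j + 1)) := by rw [b]
        _ = (kap a j * a (j + 1)) * a j * a (j + 1) := by simp only [mul_assoc]
        _ = a (j + 1) * (kap a j * a j * a (j + 1)) := by rw [c]; simp only [mul_assoc]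

/-- piece `BN-BR1` -/
theorem kap_comm (h : RelBr k a) {p j : ℕ} (hj : p < j) (hk : j < k) :
    kap a p * a j = a j * kap a p := kap_comm_aux h hk p hj

private lemma K2_kap_succ (a : ℕ → K) (p : ℕ) :
    kap a (p + 1) = a 0 * kap (fun i => a (i + 1)) p := by
  induction p with
  | zero => simp [kap]
  | succ p ih =>
    have e1 : kap a (p + 1 + 1) = kap a (p + 1) * a (p + 1) := rfl
    have e2 : kap (fun i => a (i + 1)) (p + 1) = kap (fun i => a (i + 1)) p * a (p + 1) := rfl
    rw [e1, ih, e2, mul_assoc]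

private lemma K2_kap_kap {n : ℕ} (h : RelBr (n + 1) a) : ∀ p : ℕ, p ≤ n →
    kap a (n + 1) * kap a p = kap (fun i => a (i + 1)) p * kap a (n + 1) := by
  intro p
  induction p with
  | zero => intro _; simp [kap]
  | succ p ih =>
    intro hp
    have e1 : kap a (p + 1) = kap a p * a p := rfl
    have e2 : kap (fun i => a (i + 1)) (p + 1) = kap (fun i => a (i + 1)) p * a (p + 1) := rfl
    have e3 := kap_shift h (p := n + 1) (j := p) le_rfl (by omega)
    rw [e1, ← mul_assoc, ih (by omega), mul_assoc, e3, e2, mul_assoc]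

private lemma K2_s_d {n : ℕ} (h : RelB (n + 1) a d) : ∀ p : ℕ, p ≤ n →
    kap (fun i => a (i + 1)) p * d = d * kap (fun i => a (i + 1)) p := by
  intro p
  induction p with
  | zero => intro _; simp [kap]
  | succ p ih =>
    intro hp
    have e2 : kap (fun i => a (i + 1)) (p + 1) = kap (fun i => a (i + 1)) p * a (p + 1) := rfl
    have e3 := h.dcomm (p + 1) (by omega) (by omega)
    rw [e2, mul_assoc, e3, ← mul_assoc, ih (by omega), mul_assoc]

/-- piece `BN-BR2`: `d` commutes with `a_j`, `j ≥ 1`; `ρ a_j = a_{j+1} ρ`; and the rule for the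
last generator `ρ² a_{k-1} = a_0 ρ²`.
Proof. The first from `kap_shift` and `dcomm`. For the second, write
`ρ = d κ`, `κ = a_0 ⋯ a_{k-1}`. We have `ρ² a_{k-1} ρ⁻² = ρ κ' ρ⁻¹`...; a direct computation:
put `t = kap a (k-1)`, so `κ = t a_{k-1}` and `ρ = d t a_{k-1}`.
Let `s = a_1 ⋯ a_{k-1}`, so `κ = a_0 s`; by `kap_shift` (applied to all letters)
`κ t = s κ`, as `t = a_0 ⋯ a_{k-2}` and `s = a_1 ⋯ a_{k-1}`. Then
`ρ² = d κ d κ = d a_0 s d κ = d a_0 d s κ` (`s` commutes with `d`) `= d a_0 d κ t`, hence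
`ρ² a_{k-1} = d a_0 d κ t a_{k-1} = d a_0 d κ κ = d a_0 d a_0 s κ`, and
`a_0 ρ² = a_0 d a_0 d s κ`. These are equal by the relation `four`. -/
theorem rho_shift (h : RelB k a d) {j : ℕ} (hj : j + 1 < k) :
    rho k a d * a j = a (j + 1) * rho k a d := by
  have e1 := kap_shift h.toRelBr (p := k) (j := j) le_rfl hj
  have e2 := h.dcomm (j + 1) (by omega) hj
  unfold rho
  rw [mul_assoc, e1, ← mul_assoc, ← e2, mul_assoc]

/-- piece `BN-BR2` -/
theorem rho_last (h : RelB k a d) (hk : 0 < k) :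
    rho k a d ^ 2 * a (k - 1) = a 0 * rho k a d ^ 2 := by
  obtain ⟨n, rfl⟩ : ∃ n, k = n + 1 := ⟨k - 1, by omega⟩
  rw [Nat.add_sub_cancel]
  have e1 : kap a (n + 1) = kap a n * a n := rfl
  have e2 := K2_kap_succ a n
  have e3 := K2_kap_kap h.toRelBr n le_rfl
  have e4 := K2_s_d h n le_rfl
  have e5 := h.four hk
  unfold rho
  generalize kap (fun i => a (i + 1)) n = s at e2 e3 e4
  generalize kap a n = t at e1 e3
  generalize kap a (n + 1) = c at e1 e2 e3
  calc (d * c) ^ 2 * a n = d * c * d * c * a n := by simp only [pow_two, mul_assoc]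
    _ = d * a 0 * (s * d) * c * a n := by rw [e2]; simp only [mul_assoc]
    _ = d * a 0 * d * (s * c) * a n := by rw [e4]; simp only [mul_assoc]
    _ = d * a 0 * d * c * (t * a n) := by rw [← e3]; simp only [mul_assoc]
    _ = d * a 0 * d * (a 0 * s) * c := by rw [← e1, ← e2]
    _ = (d * a 0 * d * a 0) * s * c := by simp only [mul_assoc]
    _ = (a 0 * d * a 0 * d) * s * c := by rw [e5]
    _ = a 0 * d * a 0 * (d * s) * c := by simp only [mul_assoc]
    _ = a 0 * d * (a 0 * s) * d * c := by rw [← e4]; simp only [mul_assoc]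
    _ = a 0 * d * c * d * c := by rw [← e2]
    _ = a 0 * (d * c) ^ 2 := by simp only [pow_two, mul_assoc]

private lemma rho_pow_shift (h : RelB k a d) : ∀ i j : ℕ, j + i < k →
    rho k a d ^ i * a j = a (j + i) * rho k a d ^ i := by
  intro i
  induction i with
  | zero => intro j _; simp
  | succ i ih =>
    intro j hj
    have e := ih (j + 1) (by omega)
    rw [pow_succ, mul_assoc, rho_shift h (by omega), ← mul_assoc, e, mul_assoc,
      show j + (i + 1) = j + 1 + i by omega]

/-- piece `BN-BR3`: `ζ = ρ^(k+1)` commutes with all `a_j` and with `d`.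
Proof. `ρ^i a_j = a_{j+i} ρ^i` for `j + i < k` (`rho_shift`, induction). So
`ρ^(k+1) a_j = ρ^(j) ρ^2 ρ^(k-1-j) a_j = ρ^j ρ^2 a_{k-1} ρ^(k-1-j) = ρ^j a_0 ρ^2 ρ^(k-1-j)
= a_j ρ^(k+1)`. As `ζ` is a power of `ρ`, it commutes with `ρ = d κ`, and `κ` is a product of
`a_j`; so it commutes with `d = ρ κ⁻¹`. -/
theorem zeta_comm_a (h : RelB k a d) {j : ℕ} (hj : j < k) :
    zeta k a d * a j = a j * zeta k a d := by
  obtain ⟨r, hr⟩ := Nat.exists_eq_add_of_lt hj
  have e1 := rho_pow_shift h r j (by omega)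
  have e2 := rho_last h (show 0 < k by omega)
  have e3 := rho_pow_shift h j 0 (by omega)
  rw [show k - 1 = j + r by omega] at e2
  rw [zero_add] at e3
  unfold zeta
  rw [show k + 1 = j + 2 + r by omega, pow_add, pow_add, mul_assoc, e1,
    mul_assoc (rho k a d ^ j), ← mul_assoc (rho k a d ^ 2), e2, mul_assoc (a 0),
    ← mul_assoc (rho k a d ^ j), e3]
  simp only [mul_assoc]

private lemma zeta_comm_kap (h : RelB k a d) : ∀ p : ℕ, p ≤ k →
    zeta k a d * kap a p = kap a p * zeta k a d := by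
  intro p
  induction p with
  | zero => intro _; simp [kap]
  | succ p ih =>
    intro hp
    simp only [kap]
    rw [← mul_assoc, ih (by omega), mul_assoc, zeta_comm_a h (by omega), mul_assoc]

/-- piece `BN-BR3` -/
theorem zeta_comm_d (h : RelB k a d) : zeta k a d * d = d * zeta k a d := by
  have e1 : Commute (zeta k a d) (kap a k) := zeta_comm_kap h k le_rfl
  have e2 : Commute (zeta k a d) (rho k a d) := (Commute.refl (rho k a d)).pow_left (k + 1)
  have e3 : d = rho k a d * (kap a k)⁻¹ := by unfold rho; group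
  have e4 : Commute (zeta k a d) (rho k a d * (kap a k)⁻¹) := e2.mul_right e1.inv_right
  rw [← e3] at e4
  exact e4

/-- piece `BN-BR4`: the commutation rules for `z_j = zz a d j`:
`a_i z_j = z_j a_i` for `i ≠ j, j-1`, `a_j z_{j+1} = z_j a_j`, `a_j z_j a_j⁻¹ = z_j⁻¹ z_{j+1} z_j`.
Proof. The second is the definition. First, `i > j`: induction on `j` (for `j = 0` it is `dcomm`;
`z_{j+1} = a_j⁻¹ z_j a_j` and `i > j + 1`). First, `i + 1 < j`: induction on `j`; for
`j = i + 2`: `z_{i+2} = a_{i+1}⁻¹ a_i⁻¹ z_i a_i a_{i+1}`, `a_i` and `a_i a_{i+1}`: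
`(a_i a_{i+1}) a_i = a_{i+1} (a_i a_{i+1})` and `a_{i+1}` commutes with `z_i`; for `j > i + 2` use
that `a_{j-1}` commutes with `a_i`.
Third: for `j = 0`: `a_0 d a_0⁻¹ = d⁻¹ (a_0⁻¹ d a_0) d` is the relation `four`. Step `j → j + 1`:
put `g = a_j a_{j+1}`: `g⁻¹ z_j g = z_{j+1}` (as `a_{j+1}` commutes with ... NO: use
`g = a_j * a_{j+1}`; `g⁻¹ a_j g = a_{j+1}`? from `a_j a_{j+1} a_j = a_{j+1} a_j a_{j+1}` one has
`(a_{j+1} a_j) a_{j+1} (a_{j+1} a_j)⁻¹ = a_j`.) Let `g = (a_{j+1} a_j)⁻¹`. Then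
`g a_j g⁻¹ = a_{j+1}`, `g z_j g⁻¹ = a_j⁻¹ a_{j+1}⁻¹ z_j a_{j+1} a_j = a_j⁻¹ z_j a_j = z_{j+1}` and
`g z_{j+1} g⁻¹ = a_j⁻¹ (a_{j+1}⁻¹ z_{j+1} a_{j+1}) a_j = a_j⁻¹ z_{j+2} a_j = z_{j+2}` (first rule).
Conjugating the identity for `j` with `g` gives the one for `j + 1`. -/
theorem az_comm (h : RelB k a d) {i j : ℕ} (hi : i < k) (hj : j ≤ k) (h1 : i ≠ j)
    (h2 : i + 1 ≠ j) : a i * zz a d j = zz a d j * a i := by
  have hup : ∀ j i : ℕ, j < i → i < k → Commute (a i) (zz a d j) := by
    intro j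
    induction j with
    | zero =>
      intro i h0 hi
      exact h.dcomm i h0 hi
    | succ j ih =>
      intro i h0 hi
      have h3 : Commute (a i) (a j) := (h.comm j i (by omega) hi).symm
      exact (h3.inv_right.mul_right (ih i (by omega) hi)).mul_right h3
  have hdn : ∀ n : ℕ, i + 2 + n ≤ k → Commute (a i) (zz a d (i + 2 + n)) := by
    intro n
    induction n with
    | zero =>
      intro hn
      have h3 : Commute (a (i + 1)) (zz a d i) := hup i (i + 1) (by omega) (by omega)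
      have h4 : a i * (a i * a (i + 1))⁻¹ = (a i * a (i + 1))⁻¹ * a (i + 1) := by
        rw [mul_inv_eq_iff_eq_mul, mul_assoc, eq_inv_mul_iff_mul_eq]
        have h5 := h.braid i (by omega)
        rw [← mul_assoc (a (i + 1))]
        exact h5
      have h6 : zz a d (i + 2 + 0) = (a i * a (i + 1))⁻¹ * zz a d i * (a i * a (i + 1)) := by
        change (a (i + 1))⁻¹ * ((a i)⁻¹ * zz a d i * a i) * a (i + 1) = _
        group
      rw [h6]
      change a i * ((a i * a (i + 1))⁻¹ * zz a d i * (a i * a (i + 1))) =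
        (a i * a (i + 1))⁻¹ * zz a d i * (a i * a (i + 1)) * a i
      have h7 : a i * a (i + 1) * a i = a (i + 1) * (a i * a (i + 1)) := by
        rw [h.braid i (by omega), mul_assoc]
      generalize a i * a (i + 1) = g at h4 h7 ⊢
      calc a i * (g⁻¹ * zz a d i * g) = (a i * g⁻¹) * zz a d i * g := by simp only [mul_assoc]
        _ = g⁻¹ * (a (i + 1) * zz a d i) * g := by rw [h4]; simp only [mul_assoc]
        _ = g⁻¹ * (zz a d i * a (i + 1)) * g := by rw [h3.eq]
        _ = g⁻¹ * zz a d i * (a (i + 1) * g) := by simp only [mul_assoc]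
        _ = g⁻¹ * zz a d i * g * a i := by rw [← h7]; simp only [mul_assoc]
    | succ n ih =>
      intro hn
      have h3 : Commute (a i) (a (i + 2 + n)) := h.comm i (i + 2 + n) (by omega) (by omega)
      exact (h3.inv_right.mul_right (ih (by omega))).mul_right h3
  rcases lt_or_gt_of_ne h1 with h3 | h3
  · obtain ⟨n, rfl⟩ := Nat.exists_eq_add_of_le (show i + 2 ≤ j by omega)
    exact hdn n hj
  · exact hup j i h3 hi

/-- piece `BN-BR4` -/
theorem az_succ (a : ℕ → K) (d : K) (j : ℕ) : a j * zz a d (j + 1) = zz a d j * a j := by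
  rw [zz]
  group

/-- piece `BN-BR4` -/
theorem az_self (h : RelB k a d) {j : ℕ} (hj : j < k) :
    a j * zz a d j * (a j)⁻¹ = (zz a d j)⁻¹ * zz a d (j + 1) * zz a d j := by
  induction j with
  | zero =>
    have h4 := h.four hj
    have e1 : a 0 * d * (a 0 * d * (a 0)⁻¹) * a 0 = a 0 * d * a 0 * d := by group
    have e2 : a 0 * d * (d⁻¹ * ((a 0)⁻¹ * d * a 0) * d) * a 0 = d * a 0 * d * a 0 := by group
    have e3 : a 0 * d * (a 0 * d * (a 0)⁻¹) * a 0 =
        a 0 * d * (d⁻¹ * ((a 0)⁻¹ * d * a 0) * d) * a 0 := by rw [e1, e2, h4]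
    exact mul_left_cancel (mul_right_cancel e3)
  | succ j ih =>
    have ih' := ih (by omega)
    have hb := h.braid j hj
    have c1 := az_comm h (i := j + 1) (j := j) hj (by omega) (by omega) (by omega)
    have c2 := az_comm h (i := j) (j := j + 2) (by omega) (by omega) (by omega) (by omega)
    have s1 := az_succ a d j
    have s2 := az_succ a d (j + 1)
    set g : K := (a (j + 1) * a j)⁻¹ with hg
    have f1 : g * a j * g⁻¹ = a (j + 1) := by
      have e1 : a j * (a (j + 1) * a j) = a (j + 1) * a j * a (j + 1) := by rw [← mul_assoc, hb]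
      rw [hg, inv_inv, mul_assoc, e1]
      group
    have f2 : g * zz a d j * g⁻¹ = zz a d (j + 1) := by
      have : zz a d j * (a (j + 1) * a j) = a (j + 1) * a j * zz a d (j + 1) := by
        rw [← mul_assoc, ← c1, mul_assoc, ← s1, ← mul_assoc]
      rw [hg, inv_inv, mul_assoc, this]
      group
    have f3 : g * zz a d (j + 1) * g⁻¹ = zz a d (j + 1 + 1) := by
      have : zz a d (j + 1) * (a (j + 1) * a j) = a (j + 1) * a j * zz a d (j + 1 + 1) := by
        rw [← mul_assoc, ← s2, mul_assoc, ← c2, ← mul_assoc]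
      rw [hg, inv_inv, mul_assoc, this]
      group
    have key := congrArg (fun x => g * x * g⁻¹) ih'
    have k1 : g * (a j * zz a d j * (a j)⁻¹) * g⁻¹
        = (g * a j * g⁻¹) * (g * zz a d j * g⁻¹) * (g * a j * g⁻¹)⁻¹ := by group
    have k2 : g * ((zz a d j)⁻¹ * zz a d (j + 1) * zz a d j) * g⁻¹
        = (g * zz a d j * g⁻¹)⁻¹ * (g * zz a d (j + 1) * g⁻¹) * (g * zz a d j * g⁻¹) := by group
    rw [← f1, ← f2, ← f3, ← k1, ← k2]
    exact key

private lemma K6_kap_zz (a : ℕ → K) (d : K) : ∀ j : ℕ,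
    kap a j * zz a d j = zz a d 0 * kap a j := by
  intro j
  induction j with
  | zero => simp [kap]
  | succ j ih =>
    have e1 : kap a (j + 1) = kap a j * a j := rfl
    rw [e1, mul_assoc, az_succ, ← mul_assoc, ih, mul_assoc]

private lemma K6_kap_comm_zz (h : RelB k a d) {j : ℕ} (hj : j + 1 ≤ k) : ∀ p : ℕ, p ≤ j →
    kap a p * zz a d (j + 1) = zz a d (j + 1) * kap a p := by
  intro p
  induction p with
  | zero => intro _; simp [kap]
  | succ p ih =>
    intro hp
    have e1 : kap a (p + 1) = kap a p * a p := rfl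
    rw [e1, mul_assoc, az_comm h (by omega) hj (by omega) (by omega), ← mul_assoc,
      ih (by omega), mul_assoc]

private lemma K6_kap_z_aux (h : RelB k a d) {j : ℕ} (hj : j < k) : ∀ p : ℕ, j + 1 ≤ p → p ≤ k →
    kap a p * zz a d j * (kap a p)⁻¹ = (zz a d 0)⁻¹ * zz a d (j + 1) * zz a d 0 := by
  intro p hp
  induction p, hp using Nat.le_induction with
  | base =>
    intro _
    have e0 : kap a (j + 1) = kap a j * a j := rfl
    have e1 := az_self h hj
    have e2 := K6_kap_zz a d j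
    have e3 := K6_kap_comm_zz h (j := j) (by omega) j le_rfl
    have f2 : kap a j * zz a d j * (kap a j)⁻¹ = zz a d 0 := by rw [e2]; group
    have f3 : kap a j * zz a d (j + 1) * (kap a j)⁻¹ = zz a d (j + 1) := by rw [e3]; group
    calc kap a (j + 1) * zz a d j * (kap a (j + 1))⁻¹
        = kap a j * (a j * zz a d j * (a j)⁻¹) * (kap a j)⁻¹ := by rw [e0]; group
      _ = (kap a j * zz a d j * (kap a j)⁻¹)⁻¹ * (kap a j * zz a d (j + 1) * (kap a j)⁻¹)
          * (kap a j * zz a d j * (kap a j)⁻¹) := by rw [e1]; group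
      _ = _ := by rw [f2, f3]
  | succ p hp ih =>
    intro hpk
    have e0 : kap a (p + 1) = kap a p * a p := rfl
    have e1 := az_comm h (i := p) (j := j) (by omega) (by omega) (by omega) (by omega)
    have f1 : a p * zz a d j * (a p)⁻¹ = zz a d j := by rw [e1]; group
    calc kap a (p + 1) * zz a d j * (kap a (p + 1))⁻¹
        = kap a p * (a p * zz a d j * (a p)⁻¹) * (kap a p)⁻¹ := by rw [e0]; group
      _ = _ := by rw [f1]; exact ih (by omega)

private lemma K6_kap_wz (h : RelB k a d) : ∀ i : ℕ, i < k →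
    kap a k * wz a d i * (kap a k)⁻¹ = (zz a d 0)⁻¹ * wz a d (i + 1) := by
  intro i
  induction i with
  | zero =>
    intro hi
    have e1 := K6_kap_z_aux h hi k (by omega) le_rfl
    have e2 : wz a d 0 = zz a d 0 := rfl
    have e3 : wz a d (0 + 1) = zz a d (0 + 1) * wz a d 0 := rfl
    rw [e3, e2, e1, mul_assoc]
  | succ i ih =>
    intro hi
    have e1 := K6_kap_z_aux h hi k (by omega) le_rfl
    have e2 := ih (by omega)
    have e3 : wz a d (i + 1) = zz a d (i + 1) * wz a d i := rfl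
    have e4 : wz a d (i + 1 + 1) = zz a d (i + 1 + 1) * wz a d (i + 1) := rfl
    calc kap a k * wz a d (i + 1) * (kap a k)⁻¹
        = (kap a k * zz a d (i + 1) * (kap a k)⁻¹) * (kap a k * wz a d i * (kap a k)⁻¹) := by
          rw [e3]; group
      _ = (zz a d 0)⁻¹ * (zz a d (i + 1 + 1) * wz a d (i + 1)) := by rw [e1, e2]; group
      _ = _ := by rw [← e4]

/-- piece `BN-BR5`: `ζ = w Ω` with `w = z_k ⋯ z_0` and `Ω = κ^(k+1)`.
Proof. `(d κ)^(i+1) = (z_i ⋯ z_0) κ^(i+1)` for `i ≤ k`, by induction on `i`. Step: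
`(dκ)^(i+2) = (dκ)(dκ)^(i+1) = d κ (z_i ⋯ z_0) κ^(i+1)`. By `BN-BR4`, for `j < k`:
`κ z_j κ⁻¹ = z_0⁻¹ z_{j+1} z_0` (`κ = a_0 ⋯ a_{k-1}`; `a_i` with `i > j` commutes with `z_j`;
`a_j z_j a_j⁻¹ = z_j⁻¹ z_{j+1} z_j`; then `a_{i} z_{i+1} a_{i}⁻¹ = z_{i}` for `i = j-1, …, 0`, and
these commute with `z_{j+1}`). Hence `κ (z_i ⋯ z_0) κ⁻¹ = z_0⁻¹ (z_{i+1} ⋯ z_1) z_0` and
`d κ (z_i ⋯ z_0) κ^(i+1) = z_{i+1} ⋯ z_1 z_0 κ^(i+2)`, as `d = z_0`. -/
theorem kap_z (h : RelB k a d) {j : ℕ} (hj : j < k) :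
    kap a k * zz a d j * (kap a k)⁻¹ = (zz a d 0)⁻¹ * zz a d (j + 1) * zz a d 0 :=
  K6_kap_z_aux h hj k (by omega) le_rfl

/-- piece `BN-BR5` -/
theorem zeta_eq (h : RelB k a d) : zeta k a d = wz a d k * Om k a := by
  have key : ∀ i : ℕ, i ≤ k → (d * kap a k) ^ (i + 1) = wz a d i * kap a k ^ (i + 1) := by
    intro i
    induction i with
    | zero => intro _; simp [wz, zz]
    | succ i ih =>
      intro hi
      have e1 := K6_kap_wz h i (by omega)
      have e2 : kap a k * wz a d i = (zz a d 0)⁻¹ * wz a d (i + 1) * kap a k := by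
        rw [← e1]; group
      have e3 : zz a d 0 = d := rfl
      calc (d * kap a k) ^ (i + 1 + 1) = d * kap a k * (d * kap a k) ^ (i + 1) := pow_succ' _ _
        _ = d * (kap a k * wz a d i) * kap a k ^ (i + 1) := by
          rw [ih (by omega)]; simp only [mul_assoc]
        _ = d * ((zz a d 0)⁻¹ * wz a d (i + 1) * kap a k) * kap a k ^ (i + 1) := by rw [e2]
        _ = wz a d (i + 1) * (kap a k * kap a k ^ (i + 1)) := by rw [e3]; group
        _ = wz a d (i + 1) * kap a k ^ (i + 1 + 1) := by rw [← pow_succ']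
  exact key k le_rfl

end Pool.Agent.Helper38.BN
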