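import Pool.Agent.Helper38.BN.Rels
import Pool.Agent.Helper38.BN.Br1

/-!
# Project BN: the basic homomorphisms
-/

namespace Pool.Agent.Helper38.BN

/-- the permutation of the strands -/
def piA (m : ℕ) : A m →* Equiv.Perm ℕ := liftA (perm_relA m)
/-- the permutation of the strands -/
def piH (k : ℕ) : HB k →* Equiv.Perm ℕ := liftH (perm_relB k)

/-- the pure subgroup of `A m` -/
def P (m : ℕ) : Subgroup (A m) := (piA m).ker
/-- the pure subgroup of `HB k` -/
def PH (k : ℕ) : Subgroup (HB k) := (piH k).ker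

/-- the inclusion of the group of type `B` -/
def inc (m : ℕ) : HB (m + 2) →* A m := liftH (relA m).toRelB
/-- the fold `b ↦ a_{k-1}` -/
def fold (m : ℕ) : A m →* HB (m + 2) := liftA (fold_rel (relH (m + 2)))

/-- the homomorphism `HB k → HB (k+1)`, `a_j ↦ a_{j+1}`, `d ↦ a_0²` -/
def iota (k : ℕ) : HB k →* HB (k + 1) := liftH (iota_rel (relH (k + 1)).toRelBr)

/-- the endomorphism `S` of `HB k`: `a_j ↦ a_j⁻¹`, `d ↦ D` -/
def Sp (k : ℕ) : HB k →* HB k := liftH (sp_rel (relH k))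

/-- the transvection `a_j ↦ a_j ζ^l`, `d ↦ d ζ^(-k l)` of `HB k` -/
def Tr (k : ℕ) (l : ℤ) : HB k →* HB k :=
  liftH (tr_rel (relH k) (z := zeH k) (fun _ hj => zeta_comm_a (relH k) hj)
    (zeta_comm_d (relH k)) l (-(k : ℤ) * l))

/-- the action of `HB k` on the free group `F k` -/
def Chi (k : ℕ) : HB k →* MulAut (F k) := liftH (chi_rel k)

/-- the embedding `z_j ↦ z_j` of `F k` into `HB k` -/
def zH (k : ℕ) : F k →* HB k := liftF (zz aH dH)

/-- the action of `HB k` on `G k` -/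
def actH (k : ℕ) : HB k →* MulAut (G k) := liftH (g_rel k)

/-- the action of `A m` on `G (m+2)` -/
def actA (m : ℕ) : A m →* MulAut (G (m + 2)) := liftA (gB_rel m)

/-- the parity `G k → {1, -1}`: `x_i ↦ -1`, `y ↦ (-1)^(k+1)` -/
def par (k : ℕ) : G k →* ℤˣ :=
  liftG (fun _ => -1) (fun _ _ => by simp) ((-1) ^ (k + 1))

/-- the even subgroup `N` of `G k` -/
def N (k : ℕ) : Subgroup (G k) := (par k).ker

/-- the product `x_0 x_1 ⋯ x_j` -/
def xw {k : ℕ} : ℕ → G k
  | 0 => xG 0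
  | j + 1 => xw j * xG (j + 1)

/-- the element `r = y x_0 ⋯ x_k` -/
def rG (k : ℕ) : G k := yG * xw k

/-- the exponents: `A m → ℤ²`, `a_j, b ↦ (1,0)`, `d ↦ (0,1)` -/
def ab (m : ℕ) : A m →* Multiplicative (ℤ × ℤ) := liftA (ab_rel m)

/-- the homomorphism `ε`: the generators go to their inverses -/
def epsHom (m : ℕ) : A m →* A m := liftA (inv_relA (relA m))
/-- the homomorphism `τ`: the leaves are exchanged -/
def tauHom (m : ℕ) : A m →* A m := liftA (tau_rel (relA m))

end Pool.Agent.Helper38.BN
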