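import Pool.Agent.Helper38.BN.B6G
import Pool.Agent.Helper38.BN.Core

/-!
# Project BN, block B6, pieces B6-F1, B6-F2: the free group `F k`
-/

namespace Pool.Agent.Helper38.BN

open Monoid

/-- the factors for the free group -/
abbrev MF (k : ℕ) : Fin (k + 1) → Type := fun _ => Multiplicative ℤ

/-- the generators of the factors -/
def γF (k : ℕ) : ∀ o : Fin (k + 1), MF k o := fun _ => Multiplicative.ofAdd 1

/-- the enumeration of the factors: `t` is the factor of `z_{k-t}` -/
def eF (k : ℕ) (t : ℕ) : Fin (k + 1) := ⟨k - t, by omega⟩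
/-- the index of a factor -/
def ixF (k : ℕ) (o : Fin (k + 1)) : ℕ := k - o.val

/-- `F k → CoprodI` -/
def homFC (k : ℕ) : F k →* CoprodI (MF k) :=
  liftF fun i => if h : i < k + 1 then CoprodI.of (M := MF k) (i := ⟨i, h⟩) (Multiplicative.ofAdd 1)
    else 1
/-- `CoprodI → F k` -/
def homCF (k : ℕ) : CoprodI (MF k) →* F k :=
  CoprodI.lift fun o => (zpowersHom (F k) (zF o.val) : Multiplicative ℤ →* F k)

section
variable {k : ℕ}

/-- piece `B6-F1`. Proof. `omega`, `Fin.ext`. -/
theorem enumF (k : ℕ) : Enum k (eF k) (ixF k) where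
  le o := Nat.sub_le _ _
  e_ix o := by
    apply Fin.ext
    simp only [eF, ixF]
    have := o.isLt
    omega
  ix_e t ht := by
    simp only [eF, ixF]
    omega

private lemma homFC_zF {i : ℕ} (h : i < k + 1) :
    homFC k (zF i) = CoprodI.of (M := MF k) (i := ⟨i, h⟩) (Multiplicative.ofAdd 1) := by
  rw [homFC, liftF_z _ (by omega), dif_pos h]

private lemma homCF_of (o : Fin (k + 1)) :
    homCF k (CoprodI.of (M := MF k) (i := o) (Multiplicative.ofAdd 1)) = zF o.val := by
  rw [homCF, CoprodI.lift_of]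
  simp

/-- piece `B6-F1`. Proof. `homF_ext`. -/
theorem homCF_homFC (v : F k) : homCF k (homFC k v) = v := by
  have h : (homCF k).comp (homFC k) = MonoidHom.id (F k) := by
    refine homF_ext fun i hi => ?_
    rw [MonoidHom.comp_apply, homFC_zF (by omega), homCF_of, MonoidHom.id_apply]
  exact DFunLike.congr_fun h v

/-- piece `B6-F1`. Proof. `CoprodI.ext_hom`, and two homomorphisms from `Multiplicative ℤ` are equal if
they agree at `ofAdd 1`. -/
theorem homFC_homCF (v : CoprodI (MF k)) : homFC k (homCF k v) = v := by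
  have h : (homFC k).comp (homCF k) = MonoidHom.id (CoprodI (MF k)) := by
    refine CoprodI.ext_hom _ _ fun o => ?_
    refine MonoidHom.ext_mint ?_
    rw [MonoidHom.comp_apply, MonoidHom.comp_apply, homCF_of, homFC_zF o.isLt]
    rfl
  exact DFunLike.congr_fun h v

/-- piece `B6-F1`: `gs (γF k) (eF k) t` is the image of `z_{k-t}`. -/
theorem homFC_z {t : ℕ} (ht : t ≤ k) : homFC k (zF (k - t)) = gs (γF k) (eF k) t := by
  rw [homFC_zF (show k - t < k + 1 by omega)]
  rfl

private lemma homCF_gs (t : ℕ) : homCF k (gs (γF k) (eF k) t) = zF (k - t) :=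
  homCF_of (eF k t)

private lemma wF_eq_gseg (t : ℕ) (ht : t < k) :
    (wF k : F k) = homCF k (gseg (γF k) (eF k) 0 t) * wF (k - t - 1) := by
  induction t with
  | zero =>
    obtain ⟨k, rfl⟩ : ∃ k', k = k' + 1 := ⟨k - 1, by omega⟩
    rw [gseg, homCF_gs]
    rfl
  | succ t ih =>
    rw [ih (by omega), gseg, map_mul, homCF_gs, mul_assoc]
    have e1 : k - t - 1 = (k - (t + 1) - 1) + 1 := by omega
    have e2 : k - (0 + t + 1) = (k - (t + 1) - 1) + 1 := by omega
    rw [e1, e2, wF]

/-- piece `B6-F1`: Proof. `homCF (gseg γF eF 0 t) = z_k z_{k-1} ⋯ z_{k-t}`; and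
`wF k = z_k ⋯ z_{k-t} * wF (k-t-1)` for `t < k` (inductions); for `t = k`: `wF k`. -/
theorem homCF_gseg (k : ℕ) : homCF k (gseg (γF k) (eF k) 0 k) = (wF k : F k) := by
  rcases k with _ | k
  · rw [gseg, homCF_gs]
    rfl
  · rw [gseg, map_mul, homCF_gs, wF_eq_gseg (k := k + 1) k (by omega)]
    have e1 : k + 1 - (0 + k + 1) = 0 := by omega
    have e2 : k + 1 - k - 1 = 0 := by omega
    rw [e1, e2, wF]

/-- the square of the `j`-th half twist, transported to the free product -/
noncomputable def TF (k i : ℕ) : CoprodI (MF k) →* CoprodI (MF k) :=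
  (homFC k).comp (((chiA (k - 1 - i) * chiA (k - 1 - i) : MulAut (F k)).toMonoidHom).comp (homCF k))

private lemma TwF_of1 (o : Fin (k + 1)) :
    (CoprodI.of (M := MF k) (i := o) (Multiplicative.ofAdd 1)) = homFC k (zF o.val) := by
  unfold homFC
  rw [liftF_z _ (by omega), dif_pos o.isLt]

private lemma TwF_of (o : Fin (k + 1)) (x : MF k o) :
    (CoprodI.of x : CoprodI (MF k)) = homFC k (zF o.val) ^ (Multiplicative.toAdd x) := by
  rw [← TwF_of1, ← map_zpow]
  congr 1
  apply Multiplicative.toAdd.injective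
  simp [toAdd_zpow]

private lemma TwF_TF (i : ℕ) (v : F k) :
    TF k i (homFC k v) = homFC k (chiA (k - 1 - i) (chiA (k - 1 - i) v)) := by
  simp only [TF, MonoidHom.comp_apply, homCF_homFC]
  rfl

private lemma TwF_sq1 {j : ℕ} (hj : j < k) :
    (chiA j (chiA j (zF (j + 1))) : F k) =
      (zF (j + 1) * zF j)⁻¹ * zF (j + 1) * (zF (j + 1) * zF j) := by
  have h1 : (chiA j (zF (j + 1)) : F k) = zF j := by
    rw [chiA_z hj (by omega)]; simp [chiC]
  have h2 : (chiA j (zF j) : F k) = (zF j)⁻¹ * zF (j + 1) * zF j := by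
    rw [chiA_z hj (by omega)]; simp [chiC]
  rw [h1, h2]
  group

private lemma TwF_sq2 {j : ℕ} (hj : j < k) :
    (chiA j (chiA j (zF j)) : F k) =
      (zF (j + 1) * zF j)⁻¹ * zF j * (zF (j + 1) * zF j) := by
  have h1 : (chiA j (zF (j + 1)) : F k) = zF j := by
    rw [chiA_z hj (by omega)]; simp [chiC]
  have h2 : (chiA j (zF j) : F k) = (zF j)⁻¹ * zF (j + 1) * zF j := by
    rw [chiA_z hj (by omega)]; simp [chiC]
  rw [h2, map_mul, map_mul, map_inv, h1, h2]
  group

private lemma TwF_sq3 {j l : ℕ} (hj : j < k) (hl : l ≤ k) (h1 : l ≠ j) (h2 : l ≠ j + 1) :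
    (chiA j (chiA j (zF l)) : F k) = zF l := by
  have h : (chiA j (zF l) : F k) = zF l := by
    rw [chiA_z hj hl]; simp [chiC, h1, h2]
  rw [h, h]

/-- piece `B6-F2`: Proof. `q = -1`. With `j = k - 1 - i` (so `k - i = j + 1`, `k - (i+1) = j`),
`s = z_{j+1} z_j`: `chiA j (chiA j z) = s⁻¹ z s` for `z = z_j`, `z_{j+1}` (`chiA_z`, `chiC`) and
`chiA j (chiA j z_l) = z_l` for the other `l`. The factor `o` with `ixF k o = i` is that of `z_{j+1}`,
with `ixF k o = i + 1` that of `z_j`. Both sides are homomorphisms in `x : Multiplicative ℤ`: check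
`x = ofAdd 1`. -/
theorem Tw_F {i : ℕ} (hi : i < k) : Tw (γF k) (eF k) (ixF k) i (TF k i) := by
  have hj : k - 1 - i < k := by omega
  have e1 : k - i = (k - 1 - i) + 1 := by omega
  have e2 : k - (i + 1) = k - 1 - i := by omega
  have hg : gs (γF k) (eF k) i * gs (γF k) (eF k) (i + 1) =
      homFC k (zF (k - 1 - i + 1) * zF (k - 1 - i)) := by
    rw [← homFC_z (show i ≤ k by omega), ← homFC_z (show i + 1 ≤ k by omega), e1, e2, map_mul]
  refine ⟨-1, by decide, ?_, ?_⟩
  · intro o ho x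
    have hsq : (chiA (k - 1 - i) (chiA (k - 1 - i) (zF o.val)) : F k) =
        (zF (k - 1 - i + 1) * zF (k - 1 - i))⁻¹ * zF o.val *
          (zF (k - 1 - i + 1) * zF (k - 1 - i)) := by
      unfold ixF at ho
      rcases ho with ho | ho
      · have : o.val = k - 1 - i + 1 := by omega
        rw [this]
        exact TwF_sq1 hj
      · have : o.val = k - 1 - i := by omega
        rw [this]
        exact TwF_sq2 hj
    rw [TwF_of, map_zpow, TwF_TF, hsq, hg, zpow_neg_one, ← map_inv]
    rw [map_mul, map_mul, ← conj_zpow, ← map_inv, inv_inv]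
  · intro o ho x
    unfold ixF at ho
    rw [TwF_of, map_zpow, TwF_TF, TwF_sq3 hj (by omega) (by omega) (by omega)]

/-- piece `B6-F2`: THE CLASS LEMMA FOR `F k`.
Proof. `class_gen` with `m = k`, `T i = TF k i` and `homFC k v`: for `i < k`,
`TF k i (homFC k v) = homFC k (chiA j (chiA j v))`, `j = k - 1 - i < k`, and it is conjugate to
`homFC k v`. Apply `homCF k` to the result: `homCF (of x) = zF o ^ n` for `x = ofAdd n`. -/
theorem fclA (hk : 2 ≤ k) {v : F k} (h : ∀ i, i < k → ∃ g, g * v * g⁻¹ = chiA i (chiA i v)) :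
    (∃ (g : F k) (j : ℕ) (n : ℤ), j ≤ k ∧ v = g * zF j ^ n * g⁻¹) ∨
      ∃ (g : F k) (n : ℤ), v = g * wF k ^ n * g⁻¹ := by
  have hγ : ∀ o, γF k o ≠ 1 := by
    intro o h1
    have h2 : (Multiplicative.ofAdd (1 : ℤ)) = Multiplicative.ofAdd 0 := h1
    have h3 : (1 : ℤ) = 0 := Multiplicative.ofAdd.injective h2
    omega
  have key : ∀ i, i < k → ∃ g, g * homFC k v * g⁻¹ = TF k i (homFC k v) := by
    intro i hi
    obtain ⟨g, hg⟩ := h (k - 1 - i) (by omega)
    refine ⟨homFC k g, ?_⟩
    have e1 : TF k i (homFC k v) =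
        homFC k (chiA (k - 1 - i) (chiA (k - 1 - i) (homCF k (homFC k v)))) := rfl
    rw [e1, homCF_homFC, ← hg, map_mul, map_mul, map_inv]
  rcases class_gen (enumF k) hk hγ (T := TF k) (fun i hi => Tw_F hi) key with
    ⟨g, o, x, hx⟩ | ⟨g, n, hx⟩
  · left
    refine ⟨homCF k g, o.val, Multiplicative.toAdd x, by omega, ?_⟩
    have e1 := congrArg (homCF k) hx
    rw [homCF_homFC, map_mul, map_mul, map_inv] at e1
    have e2 : homCF k (CoprodI.of x) = (zF o.val : F k) ^ Multiplicative.toAdd x := by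
      unfold homCF
      rw [CoprodI.lift_of]
      rfl
    rw [e2] at e1
    exact e1
  · right
    refine ⟨homCF k g, n, ?_⟩
    have e1 := congrArg (homCF k) hx
    rw [homCF_homFC, map_mul, map_mul, map_inv, map_zpow, homCF_gseg] at e1
    exact e1

end

end Pool.Agent.Helper38.BN
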