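import Pool.Agent.Helper38.BN.B6G
import Pool.Agent.Helper38.BN.Core

/-!
# Project BN, block B6, pieces B6-H1, B6-H2: the group `G k`
-/

namespace Pool.Agent.Helper38.BN

open Monoid

/-- the generators of the factors of `G k` -/
def γG (k : ℕ) : ∀ o : Option (Fin (k + 1)), GK k o
  | none => (Multiplicative.ofAdd (1 : ℤ) : Multiplicative ℤ)
  | some _ => (-1 : ℤˣ)

/-- the enumeration of the factors: `y, x_0, x_1, …, x_k` -/
def eG (k : ℕ) : ℕ → Option (Fin (k + 1))
  | 0 => none
  | t + 1 => some ⟨min t k, by omega⟩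
/-- the index of a factor -/
def ixG (k : ℕ) : Option (Fin (k + 1)) → ℕ
  | none => 0
  | some j => j.val + 1

/-- the twists of `G k` -/
noncomputable def TG (k : ℕ) : ℕ → G k →* G k
  | 0 => (gD : MulAut (G k)).toMonoidHom
  | i + 1 => (gA i * gA i : MulAut (G k)).toMonoidHom

section
variable {k : ℕ}

/-- piece `B6-H1`. -/
theorem enumG (k : ℕ) : Enum (k + 1) (eG k) (ixG k) := by
  refine ⟨?_, ?_, ?_⟩
  · intro o
    cases o with
    | none => exact Nat.zero_le _
    | some j => have := j.isLt; show j.val + 1 ≤ k + 1; omega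
  · intro o
    cases o with
    | none => rfl
    | some j =>
      have := j.isLt
      show some (⟨min j.val k, _⟩ : Fin (k + 1)) = some j
      congr 1
      apply Fin.ext
      show min j.val k = j.val
      omega
  · intro t ht
    cases t with
    | zero => rfl
    | succ t => show min t k + 1 = t + 1; omega

/-- piece `B6-H1` -/
theorem γG_ne (k : ℕ) (o) : γG k o ≠ 1 := by
  cases o with
  | none =>
    intro h
    have h' : (Multiplicative.ofAdd (1 : ℤ) : Multiplicative ℤ) = 1 := h
    have h2 : (1 : ℤ) = 0 := Multiplicative.ofAdd.injective h'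
    exact absurd h2 (by norm_num)
  | some j =>
    intro h
    have h' : (-1 : ℤˣ) = 1 := h
    exact absurd h' (by decide)

/-- piece `B6-H1`: `gs (γG k) (eG k) 0 = y`, `gs (γG k) (eG k) (t+1) = x_t`. -/
theorem gsG_zero (k : ℕ) : gs (γG k) (eG k) 0 = (yG : G k) := rfl

/-- piece `B6-H1` -/
theorem gsG_succ {t : ℕ} (ht : t ≤ k) : gs (γG k) (eG k) (t + 1) = (xG t : G k) := by
  rw [xG_of (show t < k + 1 by omega)]
  have h : (⟨min t k, by omega⟩ : Fin (k + 1)) = ⟨t, by omega⟩ := Fin.ext (by simp [ht])
  show CoprodI.of (M := GK k) (i := some ⟨min t k, by omega⟩)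
    (show GK k (some ⟨min t k, by omega⟩) from (-1 : ℤˣ)) = _
  rw [h]

/-- piece `B6-H1`. Proof. Induction on `t`. -/
theorem gsegG {t : ℕ} (ht : t ≤ k) : gseg (γG k) (eG k) 0 (t + 1) = yG * (xw t : G k) := by
  induction t with
  | zero =>
    have h1 : gseg (γG k) (eG k) 0 (0 + 1) =
      gseg (γG k) (eG k) 0 0 * gs (γG k) (eG k) (0 + 0 + 1) := rfl
    have h2 : gseg (γG k) (eG k) 0 0 = gs (γG k) (eG k) 0 := rfl
    rw [h1, h2, gsG_zero, show 0 + 0 + 1 = 0 + 1 from rfl, gsG_succ (Nat.zero_le k)]
    rfl
  | succ t ih =>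
    have h1 : gseg (γG k) (eG k) 0 (t + 1 + 1) =
      gseg (γG k) (eG k) 0 (t + 1) * gs (γG k) (eG k) (0 + (t + 1) + 1) := rfl
    rw [h1, ih (by omega), show 0 + (t + 1) + 1 = (t + 1) + 1 by omega, gsG_succ ht, mul_assoc]
    rfl

/-- the generator of the factor `none` -/
private theorem G_gen_none : (CoprodI.of (γG k none) : G k) = yG := rfl

/-- the generator of the factor `some j` -/
private theorem G_gen_some (j : Fin (k + 1)) :
    (CoprodI.of (γG k (some j)) : G k) = xG j.val := by
  rw [xG_of j.isLt]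
  rfl

/-- homomorphisms which agree at the generator of a factor agree on this factor -/
private theorem G_factor_ext {K : Type} [Group K] (f g : G k →* K) {o : Option (Fin (k + 1))}
    (h : f (CoprodI.of (γG k o)) = g (CoprodI.of (γG k o))) (x : GK k o) :
    f (CoprodI.of x) = g (CoprodI.of x) := by
  cases o with
  | none =>
    have h2 : (f.comp (Monoid.CoprodI.of (M := GK k) (i := none)) :
        Multiplicative ℤ →* K) = (g.comp (Monoid.CoprodI.of (M := GK k) (i := none)) :
        Multiplicative ℤ →* K) := by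
      ext
      exact h
    exact DFunLike.congr_fun h2 x
  | some j =>
    have h2 : (f.comp (Monoid.CoprodI.of (M := GK k) (i := some j)) : ℤˣ →* K) =
        (g.comp (Monoid.CoprodI.of (M := GK k) (i := some j)) : ℤˣ →* K) := by
      apply homC2_ext
      exact h
    exact DFunLike.congr_fun h2 x

/-- piece `B6-H1`: Proof. `q = 1` (`s = y x_0` for `i = 0`, `s = x_j x_{j+1}` for `i = j + 1`).
`gD z = (y x_0) z (y x_0)⁻¹` for `z = y`, `x_0` (`gD_y`, `gD_x`, `gDC`) and `gD x_l = x_l` for `l > 0`;
`gA j (gA j z) = (x_j x_{j+1}) z (x_j x_{j+1})⁻¹` for `z = x_j`, `x_{j+1}` (`gA_x`, `gC`) and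
`gA j (gA j z) = z` for `y` and the other `x_l`. Every element of a factor is a power of the generator
(`Multiplicative ℤ`, `ℤˣ`), and both sides are homomorphisms in `x`. -/
theorem Tw_G {i : ℕ} (hi : i < k + 1) : Tw (γG k) (eG k) (ixG k) i (TG k i) := by
  refine ⟨1, one_ne_zero, ?_, ?_⟩
  · intro o ho x
    rw [zpow_one]
    have key := G_factor_ext (TG k i)
      (MulAut.conj (gs (γG k) (eG k) i * gs (γG k) (eG k) (i + 1))).toMonoidHom (o := o) ?_ x
    · exact key
    · cases i with
      | zero =>
        rw [gsG_zero, gsG_succ (Nat.zero_le k)]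
        cases o with
        | none =>
          rw [G_gen_none]
          change gD (yG : G k) = MulAut.conj (yG * xG 0 : G k) yG
          rw [gD_y, MulAut.conj_apply]
          simp [mul_assoc]
        | some j =>
          have hj : j.val = 0 := by simp only [ixG] at ho; omega
          rw [G_gen_some, hj]
          change gD (xG 0 : G k) = MulAut.conj (yG * xG 0 : G k) (xG 0)
          rw [gD_x (Nat.zero_le k), MulAut.conj_apply]
          simp [gDC, mul_assoc]
      | succ l =>
        have hl : l < k := by omega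
        rw [gsG_succ (by omega), gsG_succ (by omega)]
        cases o with
        | none => simp only [ixG] at ho; omega
        | some j =>
          rw [G_gen_some]
          change gA l (gA l (xG j.val : G k)) =
            MulAut.conj (xG l * xG (l + 1) : G k) (xG j.val)
          have hj : j.val = l ∨ j.val = l + 1 := by simp only [ixG] at ho; omega
          rw [MulAut.conj_apply]
          rcases hj with hj | hj
          · rw [hj, gA_x hl (by omega)]
            have e1 : (gC l l : G k) = xG l * xG (l + 1) * xG l := by simp [gC]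
            rw [e1, map_mul, map_mul, gA_x hl (by omega), gA_x hl (by omega)]
            have e2 : (gC l (l + 1) : G k) = xG l := by simp [gC]
            rw [e1, e2]
            simp [mul_assoc]
          · rw [hj, gA_x hl (by omega)]
            have e2 : (gC l (l + 1) : G k) = xG l := by simp [gC]
            rw [e2, gA_x hl (by omega)]
            simp [gC, mul_assoc]
  · intro o ho x
    have key := G_factor_ext (TG k i) (MonoidHom.id (G k)) (o := o) ?_ x
    · simpa using key
    · rw [MonoidHom.id_apply]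
      cases i with
      | zero =>
        cases o with
        | none => exact absurd (Or.inl rfl) ho
        | some j =>
          have hj : j.val ≠ 0 := by
            intro h; apply ho; right; simp only [ixG]; omega
          rw [G_gen_some]
          change gD (xG j.val : G k) = xG j.val
          rw [gD_x (by omega)]
          simp [gDC, hj]
      | succ l =>
        have hl : l < k := by omega
        cases o with
        | none =>
          rw [G_gen_none]
          change gA l (gA l (yG : G k)) = yG
          rw [gA_y, gA_y]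
        | some j =>
          have hj1 : j.val ≠ l := by
            intro h; apply ho; left; simp only [ixG]; omega
          have hj2 : j.val ≠ l + 1 := by
            intro h; apply ho; right; simp only [ixG]; omega
          rw [G_gen_some]
          change gA l (gA l (xG j.val : G k)) = xG j.val
          have e1 : (gC l j.val : G k) = xG j.val := by simp [gC, hj1, hj2]
          rw [gA_x hl (by omega), e1, gA_x hl (by omega), e1]

private lemma of_cases (o : Option (Fin (k + 1))) (x : GK k o) :
    (∃ n : ℤ, (CoprodI.of x : G k) = yG ^ n) ∨ (CoprodI.of x : G k) = 1 ∨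
      ∃ j : ℕ, j ≤ k ∧ (CoprodI.of x : G k) = xG j := by
  cases o with
  | none =>
    refine Or.inl ⟨Multiplicative.toAdd (show Multiplicative ℤ from x), ?_⟩
    unfold yG
    rw [← map_zpow]
    have key : ∀ y : Multiplicative ℤ,
        y = (Multiplicative.ofAdd (1 : ℤ)) ^ (Multiplicative.toAdd y) := fun y => by
      rw [← ofAdd_zsmul]
      simp
    exact congrArg (CoprodI.of (M := GK k) (i := none)) (key x)
  | some j =>
    rcases Int.units_eq_one_or (show ℤˣ from x) with hx | hx
    · refine Or.inr (Or.inl ?_)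
      have : x = 1 := hx
      rw [this, map_one]
    · refine Or.inr (Or.inr ⟨j.val, by omega, ?_⟩)
      rw [xG_of j.isLt]
      congr 1

/-- piece `B6-H2`: THE CLASS LEMMA FOR `G k`.
Proof. `class_gen` with `m = k + 1`, `T = TG k`; `gseg (γG k) (eG k) 0 (k+1) = rG k` (`gsegG`,
`rG`). First alternative: `o = none`: `of x = yG ^ n`; `o = some j`: `x = 1` (then `v = 1 = g y^0 g⁻¹`) or
`x = -1`, `of x = xG j`. -/
theorem gclA (hk : 1 ≤ k) {v : G k} (h : ∀ i, i < k → ∃ g, g * v * g⁻¹ = gA i (gA i v))
    (hd : ∃ g, g * v * g⁻¹ = gD v) :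
    (∃ (g : G k) (j : ℕ), j ≤ k ∧ v = g * xG j * g⁻¹) ∨
      (∃ (g : G k) (n : ℤ), v = g * yG ^ n * g⁻¹) ∨
      ∃ (g : G k) (n : ℤ), v = g * rG k ^ n * g⁻¹ := by
  have h' : ∀ i, i < k + 1 → ∃ g, g * v * g⁻¹ = TG k i v := by
    intro i hi
    cases i with
    | zero => exact hd
    | succ j => exact h j (by omega)
  rcases class_gen (enumG k) (by omega : 2 ≤ k + 1) (γG_ne k) (T := TG k)
    (fun i hi => Tw_G hi) h' with ⟨g, o, x, hx⟩ | ⟨g, n, hn⟩
  · rcases of_cases o x with ⟨n, hn⟩ | hn | ⟨j, hj, hn⟩
    · exact Or.inr (Or.inl ⟨g, n, by rw [hx, hn]⟩)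
    · exact Or.inr (Or.inl ⟨g, 0, by rw [hx, hn, zpow_zero]⟩)
    · exact Or.inl ⟨g, j, hj, by rw [hx, hn]⟩
  · refine Or.inr (Or.inr ⟨g, n, ?_⟩)
    rw [hn, gsegG (le_refl k)]
    rfl

/-- piece `B6-H2`: THE LEMMA ON FIXED ELEMENTS FOR `G k`.
Proof. `fix_gen` with `m = k + 1 ≥ 3`: the twist `0` is `gD`; the twist `j + 1`, `j + 1 + 2 ≠ k + 1`, is
`gA j ∘ gA j`, `j + 2 ≠ k`. `gseg (γG k) (eG k) 0 (k - 1) = yG * xw (k - 2)` (`gsegG`),
`gs .. k * gs .. (k+1) = x_{k-1} x_k`. -/
theorem gfix (hk : 2 ≤ k) {v : G k} (h : ∀ i, i < k → i + 2 ≠ k → gA i (gA i v) = v)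
    (hd : gD v = v) :
    v ∈ Subgroup.closure {yG * xw (k - 2), (xG (k - 1) * xG k : G k)} := by
  have h' : ∀ i, i < k + 1 → i + 2 ≠ k + 1 → TG k i v = v := by
    intro i hi hi2
    cases i with
    | zero => exact hd
    | succ j => exact h j (by omega) (by omega)
  have hf := fix_gen (enumG k) (by omega : 3 ≤ k + 1) (γG_ne k) (T := TG k)
    (fun i hi => Tw_G hi) h'
  have e1 : gseg (γG k) (eG k) 0 (k + 1 - 2) = yG * (xw (k - 2) : G k) := by
    rw [show k + 1 - 2 = (k - 2) + 1 by omega]
    exact gsegG (by omega)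
  have e2 : gs (γG k) (eG k) (k + 1 - 1) = (xG (k - 1) : G k) := by
    rw [show k + 1 - 1 = (k - 1) + 1 by omega]
    exact gsG_succ (by omega)
  rw [e1, e2, gsG_succ (le_refl k)] at hf
  exact hf

/-- piece `B6-H2`: `rG k = (y x_0 ⋯ x_{k-2}) (x_{k-1} x_k)`, so the two closures are equal. -/
theorem gfix' (hk : 2 ≤ k) {v : G k} (h : ∀ i, i < k → i + 2 ≠ k → gA i (gA i v) = v)
    (hd : gD v = v) :
    v ∈ Subgroup.closure {rG k, (xG (k - 1) * xG k : G k)} := by
  have hle : Subgroup.closure {yG * xw (k - 2), (xG (k - 1) * xG k : G k)} ≤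
      Subgroup.closure {rG k, (xG (k - 1) * xG k : G k)} := by
    rw [Subgroup.closure_le]
    intro z hz
    have m1 : rG k ∈ Subgroup.closure {rG k, (xG (k - 1) * xG k : G k)} :=
      Subgroup.subset_closure (Or.inl rfl)
    have m2 : (xG (k - 1) * xG k : G k) ∈ Subgroup.closure {rG k, (xG (k - 1) * xG k : G k)} :=
      Subgroup.subset_closure (Or.inr rfl)
    rcases hz with rfl | hz
    · have e : rG k = yG * xw (k - 2) * (xG (k - 1) * xG k : G k) := by
        obtain ⟨t, rfl⟩ : ∃ t, k = t + 2 := ⟨k - 2, by omega⟩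
        have a1 : t + 2 - 2 = t := by omega
        have a2 : t + 2 - 1 = t + 1 := by omega
        rw [a1, a2]
        change yG * (xw t * xG (t + 1) * xG (t + 2)) = _
        simp only [mul_assoc]
      have e' : yG * xw (k - 2) = rG k * (xG (k - 1) * xG k : G k)⁻¹ := by
        rw [e]; group
      have h3 := mul_mem m1 (inv_mem m2)
      rw [← e'] at h3
      exact h3
    · rw [Set.mem_singleton_iff] at hz
      rw [hz]
      exact m2
  exact hle (gfix hk h hd)

end

end Pool.Agent.Helper38.BN
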