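import Pool.Agent.Helper38.BN.H6

/-!
# Project BN, block B2: piece B2-10: trivially acting elements are pure
-/

namespace Pool.Agent.Helper38.BN.BTwo

variable {k : ℕ}

private lemma swap_le {j l : ℕ} (hj : j < k) (hl : l ≤ k) : Equiv.swap j (j + 1) l ≤ k := by
  rw [Equiv.swap_apply_def]
  split_ifs <;> omega

/-- `chiA j` maps `z_l` to a conjugate of `z_(swap l)` -/
private lemma chiA_conj {j l : ℕ} (hj : j < k) (hl : l ≤ k) :
    ∃ g : F k, chiA j (zF l : F k) = g * zF (Equiv.swap j (j + 1) l) * g⁻¹ := by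
  rw [chiA_z hj hl]
  unfold chiC
  rw [Equiv.swap_apply_def]
  by_cases h1 : l = j
  · rw [if_pos h1, if_pos h1]
    exact ⟨(zF j)⁻¹, by rw [inv_inv]⟩
  · rw [if_neg h1, if_neg h1]
    by_cases h2 : l = j + 1
    · rw [if_pos h2, if_pos h2]
      exact ⟨1, by simp⟩
    · rw [if_neg h2, if_neg h2]
      exact ⟨1, by simp⟩

/-- the same for the inverse -/
private lemma chiA_inv_conj {j l : ℕ} (hj : j < k) (hl : l ≤ k) :
    ∃ g : F k, (chiA j : MulAut (F k))⁻¹ (zF l) = g * zF (Equiv.swap j (j + 1) l) * g⁻¹ := by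
  obtain ⟨g, hg⟩ := chiA_conj hj (swap_le hj hl)
  rw [Equiv.swap_apply_self] at hg
  refine ⟨(chiA j : MulAut (F k))⁻¹ g⁻¹, ?_⟩
  have h1 : (zF l : F k) = g⁻¹ * chiA j (zF (Equiv.swap j (j + 1) l)) * g := by
    rw [hg]; group
  conv_lhs => rw [h1]
  rw [map_mul, map_mul, MulAut.inv_apply_self, map_inv, inv_inv]

/-- piece B2-10: the images of the generators.
Proof. `HB_induct` with the claim for all `i ≤ k` (`piH_le`). If `Chi y (z_i) = g z_l g⁻¹`,
`l = piH y i`, then `Chi (a_j y) (z_i) = chiA j g * chiA j z_l * (chiA j g)⁻¹` and `chiA j z_l`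
is a conjugate of `zF (swap j (j + 1) l)` (`chiA_z`, `chiC`). For `a_j⁻¹`: `(chiA j)⁻¹ z_l` is a
conjugate of `zF (swap j (j + 1) l)`, because `chiA j` maps the latter to a conjugate of `z_l`.
`d`: `chiD` is conjugation with `zF 0`. -/
theorem chi_z (h : HB k) {i : ℕ} (hi : i ≤ k) :
    ∃ g : F k, Chi k h (zF i) = g * zF (piH k h i) * g⁻¹ := by
  have key : ∀ h : HB k, ∀ i, i ≤ k → ∃ g : F k, Chi k h (zF i) = g * zF (piH k h i) * g⁻¹ := by
    intro h
    induction h using HB_induct with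
    | one =>
      intro i hi
      refine ⟨1, ?_⟩
      rw [map_one, map_one]; simp
    | ha j hj y hy =>
      intro i hi
      obtain ⟨g, hg⟩ := hy i hi
      obtain ⟨g', hg'⟩ := chiA_conj hj (piH_le y hi)
      refine ⟨chiA j g * g', ?_⟩
      rw [map_mul, MulAut.mul_apply, hg, Chi_a hj, map_mul, map_mul, map_inv, hg', map_mul,
        piH_a hj, Equiv.Perm.mul_apply]
      group
    | ha' j hj y hy =>
      intro i hi
      obtain ⟨g, hg⟩ := hy i hi
      obtain ⟨g', hg'⟩ := chiA_inv_conj hj (piH_le y hi)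
      refine ⟨(chiA j : MulAut (F k))⁻¹ g * g', ?_⟩
      rw [map_mul, MulAut.mul_apply, hg, map_inv, Chi_a hj, map_mul, map_mul, map_inv, hg', map_mul,
        map_inv, piH_a hj, Equiv.swap_inv, Equiv.Perm.mul_apply]
      group
    | hd y hy =>
      intro i hi
      obtain ⟨g, hg⟩ := hy i hi
      refine ⟨zF 0 * g, ?_⟩
      have h1 : piH k (dH * y) = piH k y := by rw [map_mul, piH_d, one_mul]
      rw [map_mul, MulAut.mul_apply, hg, Chi_d, h1]
      unfold chiD
      rw [MulAut.conj_apply]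
      group
    | hd' y hy =>
      intro i hi
      obtain ⟨g, hg⟩ := hy i hi
      refine ⟨(zF 0)⁻¹ * g, ?_⟩
      have h1 : piH k (dH⁻¹ * y) = piH k y := by rw [map_mul, map_inv, piH_d, inv_one, one_mul]
      rw [map_mul, MulAut.mul_apply, hg, map_inv, Chi_d, h1]
      unfold chiD
      rw [← map_inv, MulAut.conj_apply]
      group
  exact key h i hi

/-- piece B2-10: different generators of `F k` are not conjugate. Proof: the homomorphism
`liftF (fun l => if l = i then ofAdd 1 else 1)` to `Multiplicative ℤ`. -/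
theorem zF_conj_inj {i j : ℕ} (hi : i ≤ k) (hj : j ≤ k) {g : F k}
    (h : zF i = g * zF j * g⁻¹) : i = j := by
  by_contra hne
  have h1 := congrArg
    (liftF (k := k) (fun l => if l = i then (Multiplicative.ofAdd (1 : ℤ)) else 1)) h
  rw [map_mul, map_mul, map_inv, liftF_z _ hi, liftF_z _ hj, if_pos rfl, if_neg (Ne.symm hne),
    mul_one, mul_inv_cancel, ← ofAdd_zero] at h1
  have h2 := Multiplicative.ofAdd.injective h1
  omega

/-- piece B2-10. Proof: `chi_z`, `zF_conj_inj`, `piH_le`, `piH_gt`. -/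
theorem mem_PH_of_chi {h : HB k} (hh : Chi k h = 1) : h ∈ PH k := by
  change piH k h = 1
  ext i
  rw [Equiv.Perm.one_apply]
  rcases Nat.lt_or_ge k i with hi | hi
  · exact piH_gt h hi
  · obtain ⟨g, hg⟩ := chi_z h hi
    rw [hh, MulAut.one_apply] at hg
    exact (zF_conj_inj hi (piH_le h hi) hg).symm

end Pool.Agent.Helper38.BN.BTwo
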