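import Pool.Agent.Helper38.BN.H0

/-!
# Project BN, block B2: piece B2-4: `ι(ζ) = Ω`
-/

namespace Pool.Agent.Helper38.BN.BTwo

variable {k : ℕ}

/-- piece B2-4: a power in the braid group.
Proof. Put `κ = kap a p`. By `kap_shift` for all letters, `κ * kap a i = kap (fun j => a (j + 1)) i * κ`
for `i < p` (induction on `i`), so `a 0 * κ * kap a i = kap a (i + 1) * κ` (`kap_succ'`) for `i < p`.
Hence `(a 0 * κ) ^ i = kap a i * κ ^ i` for `i ≤ p` by induction on `i` (`pow_succ'`). For
`i = p`: `(a 0 * κ) ^ p = κ * κ ^ p`. -/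
theorem pow_shift {K : Type*} [Group K] {p : ℕ} {a : ℕ → K} (h : RelBr p a) :
    (a 0 * kap a p) ^ p = kap a p ^ (p + 1) := by
  have h1 : ∀ i, i < p → kap a p * kap a i = kap (fun j => a (j + 1)) i * kap a p := by
    intro i
    induction i with
    | zero => intro _; change kap a p * 1 = 1 * kap a p; rw [mul_one, one_mul]
    | succ i ih =>
      intro hi
      change kap a p * (kap a i * a i) = kap (fun j => a (j + 1)) i * a (i + 1) * kap a p
      rw [← mul_assoc, ih (by omega), mul_assoc, kap_shift h le_rfl hi, mul_assoc]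
  have h2 : ∀ i, i < p → a 0 * kap a p * kap a i = kap a (i + 1) * kap a p := by
    intro i hi
    rw [kap_succ', mul_assoc, h1 i hi, mul_assoc]
  have h3 : ∀ i, i ≤ p → (a 0 * kap a p) ^ i = kap a i * kap a p ^ i := by
    intro i
    induction i with
    | zero => intro _; change (a 0 * kap a p) ^ 0 = 1 * kap a p ^ 0; simp
    | succ i ih =>
      intro hi
      rw [pow_succ', ih (by omega), ← mul_assoc, h2 i (by omega), mul_assoc, ← pow_succ']
  rw [h3 p le_rfl, ← pow_succ']

/-- piece B2-4: `ι(ζ_k) = Ω_{k+1}`.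
Proof. `iota k (rho k aH dH) = a_0² * (a_1 ⋯ a_k) = a_0 * kap aH (k + 1)` (`map_kap`, `kap_congr` and
`iota_a`, then `kap_succ'`), so the claim is `pow_shift` for `p = k + 1`, `a = aH`,
`(relH (k + 1)).toRelBr`. -/
theorem iota_zeta (k : ℕ) : iota k (zeH k) = Om (k + 1) aH := by
  have h1 : iota k (rho k aH dH) = aH 0 * kap aH (k + 1) := by
    unfold rho
    rw [map_mul, iota_d, map_kap, kap_congr (a' := fun i => aH (i + 1)) fun i hi => iota_a hi,
      kap_succ', mul_assoc]
  unfold zeH zeta Om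
  rw [map_pow, h1]
  exact pow_shift (relH (k + 1)).toRelBr

end Pool.Agent.Helper38.BN.BTwo
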