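import Pool.Agent.Helper38.BN.H8

/-!
# Project BN, block B2: piece B2-9: the pure subgroup
-/

namespace Pool.Agent.Helper38.BN.BTwo

variable {k : ℕ}

/-- piece B2-9: Proof: `HB_decomp`: `h = zH x * b`; `piH h = 1` and `piH_zH` give `piH b = 1`, so
`b = iota k h'` (`Br_stab`), and `piH k h' = 1` by `piH_iota`. -/
theorem PH_decomp {h : HB (k + 1)} (hh : h ∈ PH (k + 1)) :
    ∃ x : F (k + 1), ∃ h' ∈ PH k, h = zH (k + 1) x * iota k h' := by
  obtain ⟨x, b, hb, rfl⟩ := HB_decomp h
  have h1 : piH (k + 1) b = 1 := by
    have h2 : piH (k + 1) (zH (k + 1) x * b) = 1 := hh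
    rwa [map_mul, piH_zH, one_mul] at h2
  obtain ⟨h', rfl⟩ := Br_stab hb (by rw [h1]; rfl)
  refine ⟨x, h', ?_, rfl⟩
  change piH k h' = 1
  ext i
  have h3 := piH_iota h' i
  rw [h1] at h3
  change i + 1 = _ at h3
  change piH k h' i = i
  omega

/-- piece B2-9: the conjugates `z_i` of `d`.
Proof. `zz aH dH i` is a conjugate of `d` (induction on `i`); the preimage of the normal closure
under `zH k` contains all generators `zF i` of `F k`, so it is everything (for example: the
composition of `zH k` with the quotient map is trivial, `homF_ext`). -/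
theorem zH_mem (x : F k) : zH k x ∈ Subgroup.normalClosure ({aH 0 * aH 0, dH} : Set (HB k)) := by
  have hz : ∀ i, zz aH dH i ∈ Subgroup.normalClosure ({aH 0 * aH 0, dH} : Set (HB k)) := by
    intro i
    induction i with
    | zero => exact Subgroup.subset_normalClosure (by simp [zz])
    | succ i ih =>
      have h1 := Subgroup.normalClosure_normal.conj_mem _ ih (aH i)⁻¹
      rwa [inv_inv] at h1
  have h1 : (QuotientGroup.mk' (Subgroup.normalClosure ({aH 0 * aH 0, dH} : Set (HB k)))).comp
      (zH k) = 1 := by
    apply homF_ext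
    intro i hi
    change QuotientGroup.mk' _ (zH k (zF i)) = 1
    rw [zH_z hi]
    exact (QuotientGroup.eq_one_iff _).2 (hz i)
  have h2 := DFunLike.congr_fun h1 x
  exact (QuotientGroup.eq_one_iff _).1 h2

/-- piece B2-9: generation of the pure subgroup (for `k = 0` read `aH 0 = 1`).
Proof. `⊇`: `PH k` is normal and contains `aH 0 * aH 0`, `dH` (`piH_a`, `aH_ge` for `k = 0`).
`⊆`: induction on `k`. `k = 0`: everything is in the normal closure of `dH` (`HB_le`). Step:
`PH_decomp`: `h = zH x * iota k h'`; `zH_mem`; and `iota k h'` is in the normal closure, because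
`h'` is in the normal closure of `{aH 0 * aH 0, dH}` by induction, which is contained in the
preimage of the normal closure under `iota k` (`Subgroup.normalClosure_le_normal`): `iota k dH =
aH 0 * aH 0`, and `iota k (aH 0 * aH 0) = aH 1 * aH 1` (if `k ≥ 1`) is conjugate to `aH 0 * aH 0`
(`aH 1 = (aH 0 * aH 1) * aH 0 * (aH 0 * aH 1)⁻¹`). -/
theorem PH_gen (k : ℕ) : PH k = Subgroup.normalClosure ({aH 0 * aH 0, dH} : Set (HB k)) := by
  apply le_antisymm
  · induction k with
    | zero =>
      intro h _
      apply HB_le
      · intro j hj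
        omega
      · exact Subgroup.subset_normalClosure (by simp)
    | succ k ih =>
      intro h hh
      obtain ⟨x, h', hh', rfl⟩ := PH_decomp hh
      apply mul_mem (zH_mem x)
      have h1 : Subgroup.normalClosure ({aH 0 * aH 0, dH} : Set (HB k)) ≤
          (Subgroup.normalClosure ({aH 0 * aH 0, dH} : Set (HB (k + 1)))).comap (iota k) := by
        apply Subgroup.normalClosure_le_normal
        rintro y (rfl | hy)
        · change iota k (aH 0 * aH 0) ∈ Subgroup.normalClosure _
          rcases Nat.eq_zero_or_pos k with rfl | hk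
          · rw [aH_ge le_rfl, one_mul, map_one]
            exact one_mem _
          · rw [map_mul, iota_a hk]
            have hb : (aH 0 * aH 1 * aH 0 : HB (k + 1)) = aH 1 * aH 0 * aH 1 :=
              (relH (k + 1)).braid 0 (by omega)
            have e1 : (aH (0 + 1) : HB (k + 1)) = (aH 0 * aH 1) * aH 0 * (aH 0 * aH 1)⁻¹ := by
              rw [eq_mul_inv_iff_mul_eq, hb]
              change aH 1 * (aH 0 * aH 1) = _
              rw [mul_assoc]
            have e2 : (aH (0 + 1) * aH (0 + 1) : HB (k + 1)) =
                (aH 0 * aH 1) * (aH 0 * aH 0) * (aH 0 * aH 1)⁻¹ := by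
              generalize (aH 1 : HB (k + 1)) = b at e1 ⊢
              calc (b * b : HB (k + 1)) =
                    ((aH 0 * b) * aH 0 * (aH 0 * b)⁻¹) * ((aH 0 * b) * aH 0 * (aH 0 * b)⁻¹) :=
                      congrArg₂ (· * ·) e1 e1
                _ = _ := by group
            rw [e2]
            exact Subgroup.normalClosure_normal.conj_mem _
              (Subgroup.subset_normalClosure (by simp)) _
        · rw [Set.mem_singleton_iff.1 hy]
          change iota k dH ∈ Subgroup.normalClosure _
          rw [iota_d]
          exact Subgroup.subset_normalClosure (by simp)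
      exact h1 (ih hh')
  · have : (PH k).Normal := MonoidHom.normal_ker _
    apply Subgroup.normalClosure_le_normal
    rintro y (rfl | hy)
    · change piH k (aH 0 * aH 0) = 1
      rcases Nat.eq_zero_or_pos k with rfl | hk
      · rw [aH_ge le_rfl, one_mul, map_one]
      · rw [map_mul, piH_a hk, Equiv.swap_mul_self]
    · rw [Set.mem_singleton_iff.1 hy]
      exact piH_d

end Pool.Agent.Helper38.BN.BTwo
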