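import Pool.Agent.Helper38.BN.H3
import Pool.Agent.Helper38.BN.H4
import Pool.Agent.Helper38.BN.H9
import Pool.Agent.Helper38.BN.H10
import Pool.Agent.Helper22.BNP.P5

/-!
# Project BN, block B2: piece B2-11: faithfulness
-/

namespace Pool.Agent.Helper38.BN.BTwo

variable {k : ℕ}

private theorem faithful_step (ih : ∀ h' : HB k, Chi k h' = 1 → h' ∈ Subgroup.zpowers (zeH k))
    {h : HB (k + 1)} (hh : Chi (k + 1) h = 1) : h ∈ Subgroup.zpowers (zeH (k + 1)) := by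
  have hP : h ∈ PH (k + 1) := mem_PH_of_chi hh
  obtain ⟨x, h', _, hx⟩ := PH_decomp hP
  have p1 : zH (k + 1) x ∈ PH (k + 1) := MonoidHom.mem_ker.2 (piH_zH x)
  have p2 : iota k h' ∈ PH (k + 1) := by
    have e : iota k h' = (zH (k + 1) x)⁻¹ * h := by rw [hx]; group
    rw [e]
    exact (PH (k + 1)).mul_mem ((PH (k + 1)).inv_mem p1) hP
  have h12 : cP (k + 1) ⟨zH (k + 1) x, p1⟩ * cP (k + 1) ⟨iota k h', p2⟩ = 1 := by
    apply Subtype.ext
    change Chi (k + 1) (zH (k + 1) x) * Chi (k + 1) (iota k h') = 1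
    rw [← map_mul, ← hx, hh]
  have hT1 : Th k (cP (k + 1) ⟨zH (k + 1) x, p1⟩) = 1 := Th_conj (x := x) (chi_zH x)
  have hT2 : Th k (cP (k + 1) ⟨iota k h', p2⟩) = 1 := by
    have e := congrArg (Th k) h12
    rwa [map_mul, hT1, one_mul, map_one] at e
  have hC : Chi k h' = 1 := by
    have e := Th_iota (h := h') (α := cP (k + 1) ⟨iota k h', p2⟩) rfl
    rw [hT2] at e
    exact e.symm
  obtain ⟨n, hn⟩ := Subgroup.mem_zpowers_iff.1 (ih h' hC)
  have hOm : (Om (k + 1) aH : HB (k + 1)) = (zH (k + 1) (wF (k + 1)))⁻¹ * zeH (k + 1) := by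
    rw [zeH_eq (k + 1)]; group
  have hi : iota k h' = zH (k + 1) ((wF (k + 1))⁻¹ ^ n) * zeH (k + 1) ^ n := by
    have hcm : Commute (zH (k + 1) (wF (k + 1)))⁻¹ (zeH (k + 1)) := zeH_comm _
    rw [← hn, map_zpow, iota_zeta, hOm, hcm.mul_zpow, map_zpow, map_inv]
  have hy : h = zH (k + 1) (x * (wF (k + 1))⁻¹ ^ n) * zeH (k + 1) ^ n := by
    rw [hx, hi, map_mul, mul_assoc]
  have hcj : MulAut.conj (x * (wF (k + 1))⁻¹ ^ n) = 1 := by
    have e := hh
    rw [hy, map_mul (Chi (k + 1)), map_zpow (Chi (k + 1)), chi_zeta, one_zpow, mul_one,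
      chi_zH] at e
    exact e
  have h1 : x * (wF (k + 1))⁻¹ ^ n = 1 := by
    apply F_center
    intro y
    have e := DFunLike.congr_fun hcj y
    rw [MulAut.conj_apply, MulAut.one_apply] at e
    exact mul_inv_eq_iff_eq_mul.1 e
  rw [hy, h1, map_one, one_mul]
  exact Subgroup.zpow_mem_zpowers _ n

/-- piece B2-11: the action is faithful modulo `ζ`.
Proof. Induction on `k`. `k = 0`: `zeH 0 = dH` (`zeta`, `rho`, `kap aH 0 = 1`) and every element is
a power of `dH` (`HB_le`). Step: `h ∈ PH (k + 1)` (`mem_PH_of_chi`), so `h = zH x * iota k h'` with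
`h' ∈ PH k` (`PH_decomp`). `zH x` and `iota k h'` are in `PH (k + 1)` (`piH_zH`). Let
`α₁ = cP (k + 1) ⟨zH x, _⟩`, `α₂ = cP (k + 1) ⟨iota k h', _⟩` (IntP.lean); `α₁ * α₂ = 1`, so
`Th k α₁ * Th k α₂ = 1`, `Th k α₁ = 1` (`Th_conj`, `chi_zH`), so `Chi k h' = (Th k α₂).1 = 1`
(`Th_iota`) and `h' = zeH k ^ n` by induction. So `iota k h' = Om (k + 1) aH ^ n` (`iota_zeta`).
`Om (k + 1) aH = (zH w)⁻¹ * ζ` with `ζ = zeH (k + 1)` central (`zeH_eq`, `zeH_comm`), so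
`h = zH (x * w⁻ⁿ) * ζⁿ`. `1 = Chi h = MulAut.conj (x * w⁻ⁿ)` (`chi_zH`, `chi_zeta`), so
`x * w⁻ⁿ` is central, `= 1` by `F_center`, and `h = ζⁿ`. -/
theorem faithful {h : HB k} (hh : Chi k h = 1) : h ∈ Subgroup.zpowers (zeH k) := by
  induction k with
  | zero =>
    have h0 : (zeH 0 : HB 0) = dH := by
      change (dH * 1 : HB 0) ^ (0 + 1) = dH
      rw [mul_one]
      exact pow_one _
    refine HB_le (fun j hj => absurd hj (Nat.not_lt_zero j)) ?_ h
    rw [h0]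
    exact Subgroup.mem_zpowers _
  | succ k ih => exact faithful_step (fun h' e => ih e) hh

end Pool.Agent.Helper38.BN.BTwo
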