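import Pool.Agent.Helper38.BN.IntH0
import Pool.Agent.Helper38.BN.H11

/-!
# Project BN, block B2: the groups of type `B` (interface); the other statements of the block are
in `IntH0.lean`
-/

namespace Pool.Agent.Helper38.BN

variable {k : ℕ}

/-- block B2: the action is faithful modulo `ζ` -/
theorem faithful {h : HB k} (hh : Chi k h = 1) : h ∈ Subgroup.zpowers (zeH k) := BTwo.faithful hh

end Pool.Agent.Helper38.BN
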