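import Pool.Agent.Helper38.BN.Core
import Pool.Agent.Helper38.BN.IntH
import Pool.Agent.Helper38.BN.B6F
import Pool.Agent.Helper38.BN.B6H
import Pool.Agent.Helper38.BT.CentP
import Pool.Agent.Helper7.AG.Fmal

/-!
# Project BN, block B6: free splittings and invariant conjugacy classes (interface)
-/

namespace Pool.Agent.Helper38.BN

open Pool.Agent.Helper7.AG (FreeProd)
open Monoid

private def oneZ (k : ℕ) : GK k none := (Multiplicative.ofAdd (1 : ℤ) : Multiplicative ℤ)

private lemma zpow_ex {k : ℕ} (x : GK k none) : ∃ m : ℤ, x = oneZ k ^ m := by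
  have key : ∀ y : Multiplicative ℤ, ∃ m : ℤ, y = (Multiplicative.ofAdd (1 : ℤ)) ^ m := fun y =>
    ⟨Multiplicative.toAdd y, by rw [← ofAdd_zsmul]; simp⟩
  exact key x

private def yS (k : ℕ) : AS (GK k) (fun o => o = none) :=
  CoprodI.of (M := fun o : {o : Option (Fin (k + 1)) // o = none} => GK k o.1) (i := ⟨none, rfl⟩) (oneZ k)

private lemma yS_eq (k : ℕ) : iS (GK k) (fun o => o = none) (yS k) = yG :=
  iS_of (M := GK k) (fun o => o = none) ⟨none, rfl⟩ _

private lemma exists_xw (k : ℕ) (j : ℕ) :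
    ∃ b : AS (GK k) (fun o => ¬ o = none), iS (GK k) (fun o => ¬ o = none) b = xw j := by
  have key : ∀ i : ℕ, ∃ b : AS (GK k) (fun o => ¬ o = none),
      iS (GK k) (fun o => ¬ o = none) b = xG i := by
    intro i
    by_cases h : i < k + 1
    · have h1 : ¬ (some (⟨i, h⟩ : Fin (k + 1)) = none) := by simp
      refine ⟨CoprodI.of (M := fun o : {o : Option (Fin (k + 1)) // ¬ o = none} => GK k o.1)
        (i := ⟨some ⟨i, h⟩, h1⟩) (show GK k (some ⟨i, h⟩) from (-1 : ℤˣ)), ?_⟩
      rw [xG_of h]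
      exact iS_of (M := GK k) (fun o => ¬ o = none) ⟨some ⟨i, h⟩, h1⟩ _
    · exact ⟨1, by rw [map_one, xG_ge (by omega)]⟩
  induction j with
  | zero => exact key 0
  | succ j ih =>
    obtain ⟨b, hb⟩ := ih
    obtain ⟨c, hc⟩ := key (j + 1)
    exact ⟨b * c, by rw [map_mul, hb, hc]; rfl⟩

private lemma xw_ne_one (k : ℕ) (j : ℕ) : (xw j : G k) ≠ 1 := by
  have h : ∀ j, liftG (k := k) (fun i => if i = 0 then (-1 : ℤˣ) else 1)
      (fun i _ => by split_ifs <;> simp) 1 (xw j) = -1 := by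
    intro j
    induction j with
    | zero => exact liftG_x _ _ _ (Nat.zero_le k)
    | succ j ih =>
      have h2 : liftG (k := k) (fun i => if i = 0 then (-1 : ℤˣ) else 1)
          (fun i _ => by split_ifs <;> simp) 1 (xG (j + 1)) = 1 := by
        by_cases h : j + 1 ≤ k
        · rw [liftG_x _ _ _ h]; simp
        · rw [xG_ge (by omega), map_one]
      change liftG (k := k) _ _ _ (xw j * xG (j + 1)) = -1
      rw [map_mul, ih, h2, mul_one]
  intro h1
  have h2 := h j
  rw [h1, map_one] at h2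
  exact absurd h2 (by decide)

private lemma yG_pow (k : ℕ) {n : ℤ} (h : (yG : G k) ^ n = 1) : n = 0 := by
  have h1 := congrArg (liftG (k := k) (fun _ => (1 : Multiplicative ℤ)) (fun _ _ => by simp)
    (Multiplicative.ofAdd (1 : ℤ))) h
  rw [map_zpow, liftG_y, MonoidHom.map_one] at h1
  have h2 := congrArg Multiplicative.toAdd h1
  simpa using h2

/-- block B6: the centralizer of a power of `r` -/
theorem cent_r {k : ℕ} (hk : 1 ≤ k) {n : ℕ} (hn : 0 < n) {g : G k}
    (h : g * rG k ^ n = rG k ^ n * g) : g ∈ Subgroup.zpowers (rG k) := by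
  obtain ⟨b, hb⟩ := exists_xw k k
  have hb1 : b ≠ 1 := by
    rintro rfl
    rw [map_one] at hb
    exact xw_ne_one k k hb.symm
  have ha1 : (yS k) ≠ 1 := by
    intro h1
    have h2 := yS_eq k
    rw [h1, map_one] at h2
    have h3 := yG_pow k (n := 1) (by rw [← h2]; simp)
    omega
  have hr : rG k = iS (GK k) (fun o => o = none) (yS k) *
      iS (GK k) (fun o => ¬ o = none) b := by
    rw [hb, yS_eq]; rfl
  rw [hr] at h ⊢
  obtain ⟨m, hm⟩ := Pool.Agent.Helper38.BT.cent_pow (split (M := GK k) fun o => o = none)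
    ha1 hb1 hn h
  exact ⟨m, hm.symm⟩

/-- block B6: the centralizer of a power of `y` -/
theorem cent_y {k : ℕ} {n : ℕ} (hn : 0 < n) {g : G k}
    (h : g * yG ^ n = yG ^ n * g) : g ∈ Subgroup.zpowers (yG : G k) := by
  have hmem : ∀ a : AS (GK k) (fun o => o = none),
      iS (GK k) (fun o => o = none) a ∈ Subgroup.zpowers (yG : G k) := by
    intro a
    induction a using CoprodI.induction_on with
    | one => rw [map_one]; exact one_mem _
    | of i x =>
      obtain ⟨i, rfl⟩ := i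
      have h1 := iS_of (M := GK k) (fun o => o = none) ⟨none, rfl⟩ x
      rw [show iS (GK k) (fun o => o = none) (CoprodI.of x) =
        CoprodI.of (M := GK k) (i := none) x from h1]
      obtain ⟨m, hm⟩ : ∃ m : ℤ, x = oneZ k ^ m := zpow_ex x
      exact ⟨m, by rw [hm, map_zpow]; rfl⟩
    | mul x y hx hy => rw [map_mul]; exact mul_mem hx hy
  have ha : (yS k) ^ n ≠ 1 := by
    intro h1
    have h2 := congrArg (iS (GK k) (fun o => o = none)) h1
    rw [map_pow, yS_eq, map_one] at h2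
    have h3 := yG_pow k (n := (n : ℤ)) (by rw [zpow_natCast]; exact h2)
    omega
  have hc : g * iS (GK k) (fun o => o = none) ((yS k) ^ n) * g⁻¹ =
      iS (GK k) (fun o => o = none) ((yS k) ^ n) := by
    rw [map_pow, yS_eq, h, mul_inv_cancel_right]
  obtain ⟨a₀, ha₀⟩ := (split (M := GK k) fun o => o = none).malnormal_left ha hc
  rw [ha₀]
  exact hmem a₀

/-- block B6 -/
theorem rG_pow {k : ℕ} {n : ℤ} (h : rG k ^ n = 1) : n = 0 := by
  have hx : ∀ j, liftG (k := k) (fun _ => (1 : Multiplicative ℤ)) (fun _ _ => by simp)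
    (Multiplicative.ofAdd (1 : ℤ)) (xw j) = 1 := by
    intro j
    have h2 : ∀ i, liftG (k := k) (fun _ => (1 : Multiplicative ℤ)) (fun _ _ => by simp)
        (Multiplicative.ofAdd (1 : ℤ)) (xG i) = 1 := by
      intro i
      by_cases h : i ≤ k
      · rw [liftG_x _ _ _ h]
      · rw [xG_ge (by omega), map_one]
    induction j with
    | zero => exact h2 0
    | succ j ih =>
      change liftG (k := k) _ _ _ (xw j * xG (j + 1)) = 1
      rw [map_mul, ih, h2, mul_one]
  have h1 := congrArg (liftG (k := k) (fun _ => (1 : Multiplicative ℤ)) (fun _ _ => by simp)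
    (Multiplicative.ofAdd (1 : ℤ))) h
  unfold rG at h1
  rw [map_zpow, map_mul, liftG_y, hx, mul_one, MonoidHom.map_one] at h1
  have h2 := congrArg Multiplicative.toAdd h1
  simpa using h2

/-- block B6: the classes of `F k` which are invariant under the pure subgroup -/
theorem fcl {k : ℕ} (hk : 2 ≤ k) {x : F k} (h : ∀ h ∈ PH k, ∃ y, y * x * y⁻¹ = Chi k h x) :
    ∃ (y : F k) (n : ℤ), (∃ i, i ≤ k ∧ y * x * y⁻¹ = zF i ^ n) ∨ y * x * y⁻¹ = wF k ^ n := by
  have h' : ∀ i, i < k → ∃ g, g * x * g⁻¹ = chiA i (chiA i x) := by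
    intro i hi
    have h1 : (aH i * aH i : HB k) ∈ PH k := by
      unfold PH
      rw [MonoidHom.mem_ker, map_mul]
      unfold piH
      rw [liftH_a _ hi, Equiv.swap_mul_self]
    obtain ⟨y, hy⟩ := h _ h1
    refine ⟨y, ?_⟩
    rw [hy, map_mul, MulAut.mul_apply]
    unfold Chi
    rw [liftH_a _ hi]
  rcases fclA hk h' with ⟨g, j, n, hj, hx⟩ | ⟨g, n, hx⟩
  · exact ⟨g⁻¹, n, Or.inl ⟨j, hj, by rw [hx]; group⟩⟩
  · exact ⟨g⁻¹, n, Or.inr (by rw [hx]; group)⟩

/-- block B6: the classes of even elements of `G k` which are invariant under `HB k` -/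
theorem gcl {k : ℕ} (hk : 2 ≤ k) {g : G k} (hp : par k g = 1)
    (h : ∀ h : HB k, ∃ y, y * g * y⁻¹ = actH k h g) :
    ∃ (y : G k) (n : ℤ), y * g * y⁻¹ = rG k ^ n ∨ y * g * y⁻¹ = yG ^ n := by
  have h' : ∀ i, i < k → ∃ y, y * g * y⁻¹ = gA i (gA i g) := by
    intro i hi
    obtain ⟨y, hy⟩ := h (aH i * aH i)
    refine ⟨y, ?_⟩
    rw [hy, map_mul, MulAut.mul_apply]
    unfold actH
    rw [liftH_a _ hi]
  have hd : ∃ y, y * g * y⁻¹ = gD g := by
    obtain ⟨y, hy⟩ := h dH
    refine ⟨y, ?_⟩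
    rw [hy]
    unfold actH
    rw [liftH_d]
  rcases gclA (by omega) h' hd with ⟨y, j, hj, hx⟩ | ⟨y, n, hx⟩ | ⟨y, n, hx⟩
  · exfalso
    have h1 := congrArg (par k) hx
    rw [hp, map_mul, map_mul, map_inv, mul_right_comm, mul_inv_cancel, one_mul] at h1
    unfold par at h1
    rw [liftG_x _ _ _ hj] at h1
    exact absurd h1 (by decide)
  · exact ⟨y⁻¹, n, Or.inr (by rw [hx]; group)⟩
  · exact ⟨y⁻¹, n, Or.inl (by rw [hx]; group)⟩

end Pool.Agent.Helper38.BN
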