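import Pool.Agent.Helper22.BNP.P9

/-!
# Project BN, block B5: pure automorphisms (interface)

The statements of this block are in `Helper22/BNP/P0.lean` to `P9.lean`: `PAc`, `PA`, `kf`, `k01`
(P0), `exists_Th`, `Th`, `Th_spec` (P1), `exists_f01`, `f01`, `f01_spec` (P3), `chi_PA`, `cP` (P4),
`Th_conj`, `f01_conj`, `Th_iota` (P5), `Q`, `claim` (P8), `fF`, `fF_z`, `fF_iota`, `fF_a1` (P9).
-/
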