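import Pool.Agent.Helper38.BN.B3P2

/-!
# Project BN, block B3, piece B3-11: the induction
-/

namespace Pool.Agent.Helper38.BN

open Equiv

/-- piece B3-11: the induction step.
Proof. Let `s = a 0` and `b i = a (i + 2)`, `i < p - 2` (`RelBr.shift`), commuting with `s`;
`lift_Ce`: `b'`. `s ≠ 1` (`RelBr.conj_zero`), so the support has at least two elements. Restriction
to the support: `resS s (b' 0) = resS s (b' 1)` by `key` for `resS s (selfC s)` with `q = p - 2`
(the support has at most `p + 1 ≤ 2 q + 1` elements, as `q ≥ 4`). If there are at most `p - 2`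
fixed points, then `resF s (b' 0) = resF s (b' 1)` by `hC`, hence `b' 0 = b' 1` (`res_ext`),
`a 2 = a 3`, contradiction (`all_eq`). So at least `p - 1` fixed points, and `card_supp_fix`
gives the claim. -/
theorem stepP {p : ℕ} (hp : 6 ≤ p) (hC : CC (p - 2)) {α : Type} [Finite α]
    (hα : Nat.card α ≤ p + 1) {a : ℕ → Perm α} (h : RelBr p a) (hne : a 0 ≠ a 1) :
    Nat.card α = p + 1 ∧ Nat.card {x // a 0 x ≠ x} = 2 := by
  have hb : RelBr (p - 2) (fun i => a (i + 2)) := h.shift 2 (p - 2) (by omega)
  have hbc : ∀ i, i < p - 2 → a 0 * a (i + 2) = a (i + 2) * a 0 :=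
    fun i hi => h.comm 0 (i + 2) (by omega) (by omega)
  obtain ⟨b', hb', hb'v⟩ := lift_Ce hb hbc
  have hs1 : a 0 ≠ 1 := by
    intro h1
    obtain ⟨g, hg⟩ := h.conj_zero (i := 1) (by omega)
    apply hne
    rw [hg, h1, mul_one, mul_inv_cancel]
  have hsupp := two_le_supp hs1
  have hcard := card_supp_fix (a 0)
  have hS : resS (a 0) (b' 0) = resS (a 0) (b' 1) :=
    key (q := p - 2) (by omega) hC (s := resS (a 0) (selfC (a 0))) (by omega)
      (resS_self (a 0)) (hb'.map (resS (a 0))) (fun i _ => resS_comm (a 0) (b' i))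
  by_contra hcon
  have hF : Nat.card {x // a 0 x = x} ≤ p - 2 := by
    by_contra hF
    apply hcon
    constructor <;> omega
  have hF' : resF (a 0) (b' 0) = resF (a 0) (b' 1) := hC _ hF _ (hb'.map (resF (a 0)))
  have h01 : b' 0 = b' 1 := res_ext hS hF'
  have h23 : a 2 = a 3 := by
    have h2 := congrArg Subtype.val h01
    rwa [hb'v 0 (by omega), hb'v 1 (by omega)] at h2
  exact hne (all_eq (by omega) h (i := 2) (j := 3) (by omega) (by omega) h23 1 (by omega)).symm

/-- piece B3-11: Proof: strong induction: `c4`, `c5`, `stepP` (with at most `p` points there is no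
such sequence with `a 0 ≠ a 1`). -/
theorem cc {p : ℕ} (hp : 4 ≤ p) : CC p := by
  induction p using Nat.strong_induction_on with
  | _ p ih =>
    rcases Nat.lt_or_ge p 6 with h6 | h6
    · rcases Nat.lt_or_ge p 5 with h5 | h5
      · obtain rfl : p = 4 := by omega
        exact c4
      · obtain rfl : p = 5 := by omega
        exact c5
    · intro γ _ hγ a ha
      by_contra hne
      have h1 := (stepP h6 (ih (p - 2) (by omega) (by omega)) (by omega) ha hne).1
      omega

/-- piece B3-11: Proof: `step4` and `stepP`. -/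
theorem ll {p : ℕ} (hp : 4 ≤ p) (hp5 : p ≠ 5) {α : Type} [Finite α]
    (hα : Nat.card α ≤ p + 1) {a : ℕ → Perm α} (h : RelBr p a) (hne : a 0 ≠ a 1) :
    Nat.card α = p + 1 ∧ Nat.card {x // a 0 x ≠ x} = 2 := by
  rcases Nat.lt_or_ge p 6 with h6 | h6
  · obtain rfl : p = 4 := by omega
    exact step4 hα h hne
  · exact stepP h6 (cc (by omega)) hα h hne

end Pool.Agent.Helper38.BN
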