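import Pool.Agent.Helper38.BN.B3F1
import Pool.Agent.Helper38.BN.B3P3

/-!
# Project BN, block B3: surjections to the symmetric groups, the main theorem
-/

namespace Pool.Agent.Helper38.BN

open Equiv

variable {m : ℕ}

/-- homomorphisms with noncommuting values and a transposition as value of `a_0` are standard -/
theorem std_core (hm : 2 ≤ m) (f : A m →* Perm (Fin (m + 3)))
    (hf : ∃ x y, f x * f y ≠ f y * f x) (hs : (f (aA 0)).IsSwap) :
    ∃ g, ∀ x, f x = g * piF m x * g⁻¹ := by
  have hne := ne_of_noncomm f hf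
  have hr := (relA m).toRelB.toRelBr.map f
  have hd : ∀ i j, i < j → j < m + 2 → f (aA i) ≠ f (aA j) := by
    intro i j hij hj e
    have h1 := all_eq (by omega) hr hij hj e
    exact hne (h1 1 (by omega)).symm
  exact std_of_swap (by omega) f hs hd (f_b hm f hs hd)

/-- homomorphisms with noncommuting values are standard -/
theorem x2_core (hm : 2 ≤ m) (hm3 : m ≠ 3) (f : A m →* Perm (Fin (m + 3)))
    (hf : ∃ x y, f x * f y ≠ f y * f x) : ∃ g, ∀ x, f x = g * piF m x * g⁻¹ := by
  have hne := ne_of_noncomm f hf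
  have hr := (relA m).toRelB.toRelBr.map f
  have h2 := (ll (p := m + 2) (by omega) (by omega) (α := Fin (m + 3)) (by simp) hr hne).2
  exact std_core hm f hf (isSwap_of_card h2)

/-- automorphisms followed by the permutation of the strands have noncommuting values -/
theorem noncomm_aut (φ : MulAut (A m)) :
    ∃ x y, ((piF m).comp φ.toMonoidHom) x * ((piF m).comp φ.toMonoidHom) y ≠
      ((piF m).comp φ.toMonoidHom) y * ((piF m).comp φ.toMonoidHom) x := by
  obtain ⟨x, hx⟩ := piF_surj (m := m) (swap (⟨0, by omega⟩ : Fin (m + 3)) ⟨1, by omega⟩)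
  obtain ⟨y, hy⟩ := piF_surj (m := m) (swap (⟨1, by omega⟩ : Fin (m + 3)) ⟨2, by omega⟩)
  refine ⟨φ.symm x, φ.symm y, ?_⟩
  simp only [MonoidHom.comp_apply, MulEquiv.coe_toMonoidHom, MulEquiv.apply_symm_apply]
  rw [hx, hy]
  intro e
  have := congrArg (fun t : Perm (Fin (m + 3)) => t ⟨0, by omega⟩) e
  simp [Perm.mul_apply, swap_apply_def, Fin.ext_iff] at this

/-- automorphisms with a transposition as image of `a_0` -/
theorem x2_of_swap (hm : 2 ≤ m) (φ : MulAut (A m)) (hs : (piF m (φ (aA 0))).IsSwap) :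
    ∃ s : A m, ∀ x, piA m (φ x) = piA m (s * x * s⁻¹) := by
  obtain ⟨g, hg⟩ := std_core hm ((piF m).comp φ.toMonoidHom) (noncomm_aut φ) hs
  exact x2_of_piF (φ := φ.toMonoidHom) hg

/-- block B3: every automorphism induces an inner automorphism of the symmetric group of the
strands (`n = m + 3 ≥ 5`, `n ≠ 6`) -/
theorem x2_general' (hm : 2 ≤ m) (hm3 : m ≠ 3) (φ : MulAut (A m)) :
    ∃ s : A m, ∀ x, piA m (φ x) = piA m (s * x * s⁻¹) := by
  obtain ⟨g, hg⟩ := x2_core hm hm3 ((piF m).comp φ.toMonoidHom) (noncomm_aut φ)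
  exact x2_of_piF (φ := φ.toMonoidHom) hg

end Pool.Agent.Helper38.BN
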