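import Pool.Agent.Helper38.BN.B3D5

/-!
# Project BN, block B3, piece B3-6: six points
-/

namespace Pool.Agent.Helper38.BN

open Equiv

variable {β : Type} [Finite β] {s : Perm β}

/-- piece B3-6: the same with six points: then `x = y` or `s² = 1`, if `s³ = 1` implies `x³ = 1`.
Proof. If `card (Qs s) ≥ 3`: `sq_of_card`. Otherwise `card (Qs s) ≤ 2`; take `x, y` in `Ce s`. If
`orbHom s x = 1`: `eq_of_orb`. Otherwise `swap_orbits`: `card β = 2 l`, `l ≤ 3`, `s ^ l = 1`. If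
`l ≤ 2`, the claim follows from `eq_small`. If `l = 3`: `x ^ 3 = 1`, but `orbHom s x ^ 2 = 1`
(`sq_of_card_two`), so `orbHom s x = 1`, contradiction. -/
theorem eq_six (hβ : Nat.card β ≤ 6) (hs : ∀ x, s x ≠ x) {x y : Perm β}
    (hx : s * x = x * s) (hy : s * y = y * s) (h : x * y * x = y * x * y)
    (h3 : s ^ 3 = 1 → x ^ 3 = 1) : x = y ∨ s * s = 1 := by
  by_cases hq3 : 3 ≤ Nat.card (Qs s)
  · exact Or.inr (sq_of_card hs (by omega))
  have hq : Nat.card (Qs s) ≤ 2 := by omega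
  obtain ⟨X, hX⟩ : ∃ X : Ce s, (X : Perm β) = x := ⟨⟨x, mem_Ce.2 hx⟩, rfl⟩
  obtain ⟨Y, hY⟩ : ∃ Y : Ce s, (Y : Perm β) = y := ⟨⟨y, mem_Ce.2 hy⟩, rfl⟩
  have H : X * Y * X = Y * X * Y := by
    apply Subtype.ext
    simp only [Subgroup.coe_mul, hX, hY]
    exact h
  left
  by_cases hx1 : orbHom s X = 1
  · have hXY := eq_of_orb hq H hx1
    rw [← hX, ← hY, hXY]
  · obtain ⟨l, hl, hsl⟩ := swap_orbits hq hx1
    by_cases hl3 : l = 3
    · exfalso
      apply hx1
      rw [hl3] at hsl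
      have h4 : X ^ 3 = 1 := by
        apply Subtype.ext
        rw [Subgroup.coe_pow, hX, h3 hsl, Subgroup.coe_one]
      have h5 : orbHom s X ^ 3 = 1 := by rw [← map_pow, h4, map_one]
      have h6 := sq_of_card_two hq (orbHom s X)
      rwa [pow_succ, pow_two, h6, one_mul] at h5
    · exact eq_small (by omega) hs hx hy h

end Pool.Agent.Helper38.BN
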