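import Pool.Agent.Helper38.BN.B3P2
import Pool.Agent.Helper38.BN.B3D6

/-!
# Project BN, block B3, piece B3-12: five generators on six points
-/

namespace Pool.Agent.Helper38.BN

open Equiv

/-- piece B3-12: five generators on at most six points.
Proof. Let `s = a 0`, `x = a 2`, `y = a 3`, `z = a 4`, in `Ce s`. `s ≠ 1` (`RelBr.conj_zero`).
Suppose that the support has not exactly two elements; then at least three, and at most three
fixed points: `resF s x = resF s z` (`eq_of_card_three`). If there is a fixed point of `s`, the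
support has at most five elements and `resS s x = resS s y = resS s z` by `eq_small`; so `x = z`
(`res_ext`) and `all_eq` gives a contradiction. So `s` has no fixed points. Apply `eq_six` to
`s, x, y` in `Perm α` (`s ^ 3 = 1` implies `x ^ 3 = 1`, as `x` is conjugate to `s`,
`RelBr.conj_zero`): `x = y` contradicts `all_eq`, so `s * s = 1`. -/
theorem l5 {α : Type} [Finite α] (hα : Nat.card α ≤ 6) {a : ℕ → Perm α} (h : RelBr 5 a)
    (hne : a 0 ≠ a 1) : Nat.card {x // a 0 x ≠ x} = 2 ∨ (a 0 * a 0 = 1 ∧ ∀ x, a 0 x ≠ x) := by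
  have hs1 : a 0 ≠ 1 := by
    intro h0
    obtain ⟨g, hg⟩ := h.conj_zero (i := 1) (by omega)
    apply hne
    rw [hg, h0]
    group
  have hall : ∀ i j, i < j → j < 5 → a i ≠ a j := by
    intro i j hij hj he
    exact hne (all_eq (by omega) h hij hj he 1 (by omega)).symm
  obtain ⟨b', hb, hbe⟩ := lift_Ce (q := 3) (s := a 0) (b := fun i => a (i + 2))
    (h.shift 2 3 (by omega)) (fun i hi => h.comm 0 (i + 2) (by omega) (by omega))
  have e0 : (b' 0 : Perm α) = a 2 := hbe 0 (by omega)
  have e1 : (b' 1 : Perm α) = a 3 := hbe 1 (by omega)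
  have e2 : (b' 2 : Perm α) = a 4 := hbe 2 (by omega)
  have c02 : b' 0 * b' 2 = b' 2 * b' 0 := hb.comm 0 2 (by omega) (by omega)
  have b01 : b' 0 * b' 1 * b' 0 = b' 1 * b' 0 * b' 1 := hb.braid 0 (by omega)
  have b12 : b' 1 * b' 2 * b' 1 = b' 2 * b' 1 * b' 2 := hb.braid 1 (by omega)
  by_contra hcon
  rw [not_or] at hcon
  obtain ⟨hc1, hc2⟩ := hcon
  have h2 := two_le_supp hs1
  have hsum := card_supp_fix (a 0)
  have hF : resF (a 0) (b' 0) = resF (a 0) (b' 2) := by
    refine eq_of_card_three (x := resF (a 0) (b' 0)) (y := resF (a 0) (b' 1))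
      (z := resF (a 0) (b' 2)) (by omega) ?_ ?_ ?_
    · rw [← map_mul, ← map_mul, c02]
    · simp only [← map_mul]
      rw [b01]
    · simp only [← map_mul]
      rw [b12]
  rcases Nat.eq_zero_or_pos (Nat.card {x // a 0 x = x}) with hz | hp
  · have hfix : ∀ x, a 0 x ≠ x := by
      intro x hx
      have hpos : 0 < Nat.card {x // a 0 x = x} := by
        have : Nonempty {x // a 0 x = x} := ⟨⟨x, hx⟩⟩
        exact Nat.card_pos
      omega
    have h02 : a 0 * a 2 = a 2 * a 0 := h.comm 0 2 (by omega) (by omega)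
    have h03 : a 0 * a 3 = a 3 * a 0 := h.comm 0 3 (by omega) (by omega)
    have h23 : a 2 * a 3 * a 2 = a 3 * a 2 * a 3 := h.braid 2 (by omega)
    have h3 : a 0 ^ 3 = 1 → a 2 ^ 3 = 1 := by
      intro h0
      obtain ⟨g, hg⟩ := h.conj_zero (i := 2) (by omega)
      rw [hg, conj_pow, h0]
      group
    rcases eq_six hα hfix h02 h03 h23 h3 with h5 | h5
    · exact hall 2 3 (by omega) (by omega) h5
    · exact hc2 ⟨h5, hfix⟩
  · have hS1 : resS (a 0) (b' 0) = resS (a 0) (b' 1) := by
      refine eq_small (s := resS (a 0) (selfC (a 0))) (by omega) (resS_self (a 0))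
        (resS_comm _ _) (resS_comm _ _) ?_
      simp only [← map_mul]
      rw [b01]
    have hS2 : resS (a 0) (b' 1) = resS (a 0) (b' 2) := by
      refine eq_small (s := resS (a 0) (selfC (a 0))) (by omega) (resS_self (a 0))
        (resS_comm _ _) (resS_comm _ _) ?_
      simp only [← map_mul]
      rw [b12]
    have hxz : b' 0 = b' 2 := res_ext (hS1.trans hS2) hF
    apply hall 2 4 (by omega) (by omega)
    rw [← e0, ← e2, hxz]

end Pool.Agent.Helper38.BN
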