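import Pool.Agent.Helper38.BN.Hat
import Pool.Agent.Helper38.BN.B3F2
import Pool.Agent.Helper88.BN.FourM
import Pool.Agent.Helper22.BNS.SixM

/-!
# Project BN, block B3: surjections to the symmetric groups (interface)
-/

namespace Pool.Agent.Helper38.BN

variable {m : ℕ}

/-- block B3: every automorphism induces an inner automorphism of the symmetric group of the
strands (`n = m + 3 ≥ 5`, `n ≠ 6`) -/
theorem x2_general (hm : 2 ≤ m) (hm3 : m ≠ 3) (φ : MulAut (A m)) :
    ∃ s : A m, ∀ x, piA m (φ x) = piA m (s * x * s⁻¹) := x2_general' hm hm3 φ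

/-- block B3b: the case `n = 6` -/
theorem x2_six (φ : MulAut (A 3)) : ∃ s : A 3, ∀ x, piA 3 (φ x) = piA 3 (s * x * s⁻¹) :=
  Pool.Agent.Helper22.BNS.x2_six φ

/-- block B3b: the case `n = 4` -/
theorem x2_four (φ : MulAut (A 1)) : ∃ s : A 1, ∀ x, piA 1 (φ x) = piA 1 (s * x * s⁻¹) :=
  Pool.Agent.Helper88.BN.x2_four φ

theorem x2 (hm : 1 ≤ m) (φ : MulAut (A m)) :
    ∃ s : A m, ∀ x, piA m (φ x) = piA m (s * x * s⁻¹) := by
  by_cases h1 : m = 1
  · subst h1; exact x2_four φ
  · by_cases h3 : m = 3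
    · subst h3; exact x2_six φ
    · exact x2_general (by omega) h3 φ

end Pool.Agent.Helper38.BN
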