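import Pool.Agent.Helper38.BN.IntK
import Pool.Agent.Helper38.BN.IntP
import Pool.Agent.Helper38.BN.IntC
import Pool.Agent.Helper38.BN.IntS

/-!
# Project BN, block B9a: `N` is characteristic; the centralizer and the image of `ζ`
-/

namespace Pool.Agent.Helper38.BN

variable {m : ℕ}

private lemma gfg_top (k : ℕ) :
    Subgroup.closure (insert (yG : G k) ((fun i : ℕ => (xG i : G k)) '' Set.Iic k)) = ⊤ := by
  have hx : ∀ i, i ≤ k → (xG i : G k) ∈
      Subgroup.closure (insert (yG : G k) ((fun i : ℕ => (xG i : G k)) '' Set.Iic k)) :=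
    fun i hi => Subgroup.subset_closure (Set.mem_insert_of_mem _ ⟨i, hi, rfl⟩)
  have hx' : ∀ i, (xG i : G k) ∈
      Subgroup.closure (insert (yG : G k) ((fun i : ℕ => (xG i : G k)) '' Set.Iic k)) := by
    intro i
    rcases Nat.lt_or_ge k i with h | h
    · rw [xG_ge (by omega)]
      exact one_mem _
    · exact hx i h
  have hy : (yG : G k) ∈
      Subgroup.closure (insert (yG : G k) ((fun i : ℕ => (xG i : G k)) '' Set.Iic k)) :=
    Subgroup.subset_closure (Set.mem_insert _ _)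
  let f : G k →* Subgroup.closure (insert (yG : G k) ((fun i : ℕ => (xG i : G k)) '' Set.Iic k)) :=
    liftG (fun i => ⟨xG i, hx' i⟩) (fun i _ => Subtype.ext (xG_sq i)) ⟨yG, hy⟩
  have hf : (Subgroup.subtype _).comp f = MonoidHom.id (G k) := by
    apply homG_ext
    · intro i hi
      rw [MonoidHom.comp_apply, liftG_x _ _ _ hi]
      rfl
    · rw [MonoidHom.comp_apply, liftG_y]
      rfl
  rw [eq_top_iff]
  intro g _
  have h := DFunLike.congr_fun hf g
  rw [MonoidHom.comp_apply, MonoidHom.id_apply] at h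
  rw [← h]
  exact (f g).2

/-- piece `BN-B9a-1`: `G k` is finitely generated: by the finitely many `xG i` (`i ≤ k`) and `yG`
(`G k = Monoid.CoprodI (GK k)`; FG.lean; or `homG_ext` with the quotient... the closure of the generators is
everything since every element of `CoprodI` is a product of `CoprodI.of`'s). -/
theorem G_fg (k : ℕ) : Group.FG (G k) :=
  Group.fg_iff.2 ⟨_, gfg_top k, ((Set.finite_Iic k).image _).insert _⟩

/-- piece `BN-B9a-1`: `N k` is the kernel of `par k : G k →* ℤˣ`, so it has finite index, and a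
subgroup of finite index in a finitely generated group is finitely generated (Mathlib: Schreier,
`Subgroup.fg_of_index_ne_zero`). -/
theorem N_fg (k : ℕ) : Group.FG (N k) := by
  have h1 : Group.FG (G k) := G_fg k
  have h2 : (N k).FiniteIndex := by
    unfold N
    infer_instance
  exact Subgroup.fg_of_index_ne_zero (N k)

/-- the image of `φ (N)` in the automorphism group of `F` -/
def MN (φ : MulAut (A m)) : Subgroup (MulAut (F (m + 2))) :=
  (nA m).range.map ((Chi (m + 2)).comp ((fold m).comp φ.toMonoidHom))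

/-- piece `BN-B9a-1`: the image of a finitely generated group is finitely generated. -/
theorem MN_fg (φ : MulAut (A m)) : (MN φ).FG := by
  have h1 : Group.FG (N (m + 2)) := N_fg (m + 2)
  have h2 : MN φ = (((Chi (m + 2)).comp ((fold m).comp φ.toMonoidHom)).comp (nA m)).range := by
    unfold MN
    rw [MonoidHom.map_range]
  rw [h2, ← Group.fg_iff_subgroup_fg]
  exact Group.fg_range _

/-- piece `BN-B9a-2`: `nA n ∈ P m` (`nA_mem_P`), so `φ (nA n) ∈ P m` (`P m = ker (piA m)` and `hπ`),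
`fold (φ (nA n)) ∈ PH (m+2)` (`fold_mem_PH`). `Q k = (PH k).map (Chi k)`. -/
theorem MN_le {φ : MulAut (A m)} (hπ : ∀ x, piA m (φ x) = piA m x) : MN φ ≤ Q (m + 2) := by
  rintro _ ⟨_, ⟨n, rfl⟩, rfl⟩
  refine ⟨fold m (φ (nA m n)), fold_mem_PH.2 ?_, rfl⟩
  change piA m (φ (nA m n)) = 1
  rw [hπ]
  exact nA_mem_P n

/-- piece `BN-B9a-2`: `q = Chi h`, `h = fold (inc h)` (`fold_inc`), `inc h = φ x`; the range of `nA` is
normal in `A m` (`nA_equiv`). -/
theorem MN_norm (φ : MulAut (A m)) : ∀ q ∈ Q (m + 2), ∀ x ∈ MN φ, q * x * q⁻¹ ∈ MN φ := by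
  rintro _ ⟨h, -, rfl⟩ _ ⟨_, ⟨n, rfl⟩, rfl⟩
  obtain ⟨x, hx⟩ := φ.surjective (inc m h)
  refine ⟨nA m (actN m x n), ⟨_, rfl⟩, ?_⟩
  change Chi (m + 2) (fold m (φ (nA m (actN m x n)))) =
    Chi (m + 2) h * Chi (m + 2) (fold m (φ (nA m n))) * (Chi (m + 2) h)⁻¹
  rw [← nA_equiv]
  simp only [map_mul, map_inv]
  rw [hx, fold_inc]

/-- piece `BN-B9a-3`: `M` is killed by every surjection `g : Q (m+2) → F_2`.
Proof. The homomorphism `g ∘ Chi ∘ fold ∘ φ : P m → F_2` is defined (`hπ`, `fold_mem_PH`) and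
surjective: for `h ∈ PH (m+2)`: `h = fold (φ x)` with `φ x = inc h`, `x ∈ P m` (`inc_mem_P`, `hπ`). So it
kills `nA n` by `kills_N`. -/
theorem MN_kill (hm : 1 ≤ m) {φ : MulAut (A m)} (hπ : ∀ x, piA m (φ x) = piA m x)
    (g : Q (m + 2) →* FreeGroup (Fin 2)) (hg : Function.Surjective g)
    (x : MulAut (F (m + 2))) (hx : x ∈ MN φ) : g ⟨x, MN_le hπ hx⟩ = 1 := by
  have hP : ∀ y : A m, y ∈ P m → φ y ∈ P m := by
    intro y hy
    have hy1 : piA m y = 1 := hy
    change piA m (φ y) = 1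
    rw [hπ, hy1]
  let f : P m →* Q (m + 2) :=
    { toFun := fun y => ⟨Chi (m + 2) (fold m (φ y.1)),
        Subgroup.mem_map_of_mem _ (fold_mem_PH.2 (hP y.1 y.2))⟩
      map_one' := Subtype.ext (by
        change Chi (m + 2) (fold m (φ 1)) = 1
        rw [map_one, map_one, map_one])
      map_mul' := fun y z => Subtype.ext (by
        change Chi (m + 2) (fold m (φ (y.1 * z.1))) =
          Chi (m + 2) (fold m (φ y.1)) * Chi (m + 2) (fold m (φ z.1))
        rw [map_mul, map_mul, map_mul]) }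
  have hf : Function.Surjective f := by
    rintro ⟨q, h, hh, rfl⟩
    have h1 : φ.symm (inc m h) ∈ P m := by
      change piA m (φ.symm (inc m h)) = 1
      rw [← hπ, MulEquiv.apply_symm_apply]
      exact inc_mem_P.2 hh
    refine ⟨⟨φ.symm (inc m h), h1⟩, Subtype.ext ?_⟩
    change Chi (m + 2) (fold m (φ (φ.symm (inc m h)))) = Chi (m + 2) h
    rw [MulEquiv.apply_symm_apply, fold_inc]
  obtain ⟨_, ⟨n, rfl⟩, hn⟩ := id hx
  have h1 := kills_N hm (g.comp f) (hg.comp hf) n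
  have h2 : f ⟨nA m n, nA_mem_P n⟩ = ⟨x, MN_le hπ hx⟩ := Subtype.ext hn
  rw [← h2]
  exact h1

/-- piece `BN-B9a-4`: `N` is preserved by the automorphisms with `π φ = π`.
Proof. `claim (m+2) (MN φ)` gives `MN φ = ⊥`, so `Chi (fold (φ (nA n))) = 1`, `faithful`,
`mem_range_nA`. -/
theorem N_char_pure (hm : 1 ≤ m) {φ : MulAut (A m)} (hπ : ∀ x, piA m (φ x) = piA m x)
    (n : N (m + 2)) : ∃ n' : N (m + 2), φ (nA m n) = nA m n' := by
  have hM : MN φ = ⊥ := claim (m + 2) (MN φ) (MN_le hπ) (MN_norm φ) (MN_fg φ) (MN_kill hm hπ)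
  have h1 : Chi (m + 2) (fold m (φ (nA m n))) ∈ MN φ := ⟨nA m n, ⟨n, rfl⟩, rfl⟩
  rw [hM, Subgroup.mem_bot] at h1
  have h2 : φ (nA m n) ∈ (nA m).range := mem_range_nA.2 (faithful h1)
  obtain ⟨n', hn'⟩ := h2
  exact ⟨n', hn'.symm⟩

/-- piece `BN-B9a-4`: `x2` gives `s` with `π (φ x) = π (s x s⁻¹)`; apply `N_char_pure` to
`MulAut.conj s⁻¹ * φ`, and the range of `nA` is normal (`nA_equiv`). -/
theorem N_char' (hm : 1 ≤ m) (φ : MulAut (A m)) (n : N (m + 2)) :
    ∃ n' : N (m + 2), φ (nA m n) = nA m n' := by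
  obtain ⟨s, hs⟩ := x2 hm φ
  have hπ : ∀ x, piA m ((MulAut.conj s⁻¹ * φ) x) = piA m x := by
    intro x
    rw [MulAut.mul_apply, MulAut.conj_apply, map_mul, map_mul, hs x]
    simp only [map_mul, map_inv]
    group
  obtain ⟨n', hn'⟩ := N_char_pure hm hπ n
  refine ⟨actN m s n', ?_⟩
  rw [← nA_equiv, ← hn', MulAut.mul_apply, MulAut.conj_apply]
  group

/-- piece `BN-B9a-4`: the induced automorphism of `N` (`N_char'` for `φ` and `φ⁻¹`, `nA_inj`). -/
theorem exists_phiN (hm : 1 ≤ m) (φ : MulAut (A m)) :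
    ∃ ψ : MulAut (N (m + 2)), ∀ n, φ (nA m n) = nA m (ψ n) := by
  choose f hf using fun n => N_char' hm φ n
  choose g hg using fun n => N_char' hm φ⁻¹ n
  have hfg : ∀ n, f (g n) = n := by
    intro n
    apply nA_inj
    rw [← hf, ← hg]
    exact MulAut.apply_inv_self (A m) φ (nA m n)
  have hgf : ∀ n, g (f n) = n := by
    intro n
    apply nA_inj
    rw [← hg, ← hf]
    exact MulAut.inv_apply_self (A m) φ (nA m n)
  refine ⟨{ toFun := f, invFun := g, left_inv := hgf, right_inv := hfg, map_mul' := ?_ }, hf⟩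
  intro x y
  apply nA_inj
  rw [← hf, map_mul, map_mul, map_mul, hf, hf]

/-- piece `BN-B9a-5`: the centralizer of `ζ`. Proof. `x = nA n inc h` (`A_decomp`); `inc h` commutes with
`ζ = inc ζ` (`zeH_comm`, `inc_zeta`), so `nA n` commutes with `ζ = nA r` (`nA_r`): `n` commutes with `r`
(`nA_inj`), `n.1 ∈ ⟨r⟩` (`cent_r` with `n = 1`), `nA n` is a power of `ζ = inc ζ`. -/
theorem cent_zeta' {x : A m} (h : x * zeA m = zeA m * x) : ∃ y, x = inc m y := by
  obtain ⟨n, y, rfl⟩ := A_decomp x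
  have hy : inc m y * zeA m = zeA m * inc m y := by
    rw [← inc_zeta, ← map_mul, ← map_mul, zeH_comm]
  have hn : nA m n * zeA m = zeA m * nA m n := by
    rw [mul_assoc, hy, ← mul_assoc, ← mul_assoc] at h
    exact mul_right_cancel h
  rw [← nA_r, ← map_mul, ← map_mul] at hn
  have hn' : n * rN m = rN m * n := nA_inj hn
  have hr : n.1 * rG (m + 2) ^ 1 = rG (m + 2) ^ 1 * n.1 := by
    rw [pow_one]
    exact congrArg Subtype.val hn'
  obtain ⟨e, he⟩ := cent_r (by omega) one_pos hr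
  have he' : rN m ^ e = n := Subtype.ext he
  refine ⟨zeH (m + 2) ^ e * y, ?_⟩
  rw [map_mul, map_zpow, inc_zeta, ← nA_r, ← map_zpow, he']

/-- piece `BN-B9a-6`: `homH_ext` (`inc (aH j) = aA j`, `inc dH = dA`). -/
theorem actA_inc (h : HB (m + 2)) : actA m (inc m h) = actH (m + 2) h := by
  have h1 : (actA m).comp (inc m) = actH (m + 2) := by
    apply homH_ext
    · intro j hj
      have e1 : inc m (aH j) = aA j := liftH_a _ hj
      have e2 : actA m (aA j) = gA j := liftA_a _ hj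
      have e3 : actH (m + 2) (aH j) = gA j := liftH_a _ hj
      rw [MonoidHom.comp_apply, e1, e2, e3]
    · have e1 : inc m dH = dA := liftH_d _
      have e2 : actA m dA = gD := liftA_d _
      have e3 : actH (m + 2) dH = gD := liftH_d _
      rw [MonoidHom.comp_apply, e1, e2, e3]
  exact DFunLike.congr_fun h1 h

/-- piece `BN-B9a-6`: if `φ ζ = nA g` then every `x ∈ A m` maps `g` to an `N`-conjugate of `g`.
Proof. `x = φ x'`, `x' = nA n inc h` (`A_decomp`). `nA (x • g) = x (nA g) x⁻¹ = φ (x' ζ x'⁻¹)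
= φ (nA n ζ (nA n)⁻¹)` (`inc h` commutes with `ζ`) `= nA n' (nA g) (nA n')⁻¹` with `φ (nA n) = nA n'`
(`N_char'`); `nA_inj`, `nA_equiv`. -/
theorem conj_image (hm : 1 ≤ m) (φ : MulAut (A m)) {g : N (m + 2)} (hg : φ (zeA m) = nA m g)
    (x : A m) : ∃ n : N (m + 2), actN m x g = n * g * n⁻¹ := by
  obtain ⟨x', hx'⟩ := φ.surjective x
  obtain ⟨n, h, hn⟩ := A_decomp x'
  obtain ⟨n', hn'⟩ := N_char' hm φ n
  refine ⟨n', nA_inj ?_⟩
  have hc : inc m h * zeA m = zeA m * inc m h := by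
    rw [← inc_zeta, ← map_mul, zeH_comm, map_mul]
  have e1 : x' * zeA m * x'⁻¹ = nA m n * zeA m * (nA m n)⁻¹ := by
    rw [hn, mul_assoc (nA m n) (inc m h), hc]
    group
  rw [← nA_equiv, ← hx', ← hg, ← map_mul, ← map_inv, ← map_mul, e1, map_mul, map_mul, map_inv,
    hn', hg, map_mul, map_mul, map_inv]

private lemma n9_aJ {K : Type*} [CommGroup K] (ψ : A m →* K) {j : ℕ} (hj : j < m + 2) :
    ψ (aA j) = ψ (aA 0) := by
  induction j with
  | zero => rfl
  | succ j ih =>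
    rw [← ih (by omega)]
    have h := congrArg ψ ((relA m).braid j hj)
    simp only [map_mul] at h
    have h2 : ψ (aA j) * ψ (aA (j + 1)) * ψ (aA j) =
        ψ (aA j) * ψ (aA (j + 1)) * ψ (aA (j + 1)) := by
      rw [h, mul_comm (ψ (aA (j + 1))) (ψ (aA j))]
    exact (mul_left_cancel h2).symm

private lemma n9_b {K : Type*} [CommGroup K] (ψ : A m →* K) : ψ bA = ψ (aA 0) := by
  rw [← n9_aJ ψ (show m < m + 2 by omega)]
  have h := congrArg ψ (relA m).bb
  simp only [map_mul] at h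
  have h2 : ψ bA * ψ (aA m) * ψ bA = ψ bA * ψ (aA m) * ψ (aA m) := by
    rw [h, mul_comm (ψ (aA m)) (ψ bA)]
  exact mul_left_cancel h2

private lemma n9_ab_a {j : ℕ} (hj : j < m + 2) :
    ab m (aA j) = Multiplicative.ofAdd ((1, 0) : ℤ × ℤ) := by
  unfold ab
  exact liftA_a _ hj

private lemma n9_ab_b : ab m bA = Multiplicative.ofAdd ((1, 0) : ℤ × ℤ) := by
  unfold ab
  exact liftA_b _

private lemma n9_ab_d : ab m dA = Multiplicative.ofAdd ((0, 1) : ℤ × ℤ) := by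
  unfold ab
  exact liftA_d _

private lemma n9_kap (j : ℕ) (hj : j ≤ m + 2) :
    ab m (kap aA j) = (Multiplicative.ofAdd ((1, 0) : ℤ × ℤ)) ^ j := by
  induction j with
  | zero => exact map_one _
  | succ j ih =>
    change ab m (kap aA j * aA j) = _
    rw [map_mul, ih (by omega), pow_succ, n9_ab_a (by omega)]

private lemma n9_ab_ze (m : ℕ) : ab m (zeA m) =
    Multiplicative.ofAdd (((m : ℤ) + 3) • (((m : ℤ) + 2, 1) : ℤ × ℤ)) := by
  unfold zeA zeta rho
  rw [map_pow, map_mul, n9_kap _ le_rfl, n9_ab_d, ← ofAdd_nsmul, ← ofAdd_add, ← ofAdd_nsmul]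
  congr 1
  ext
  · simp
    ring_nf
    try simp
  · simp
    try ring

private def n9_alpha {K : Type*} [CommGroup K] (x y : K) : Multiplicative (ℤ × ℤ) →* K where
  toFun t := x ^ t.toAdd.1 * y ^ t.toAdd.2
  map_one' := by simp
  map_mul' := by
    intro s t
    rw [toAdd_mul, Prod.fst_add, Prod.snd_add, zpow_add, zpow_add]
    exact mul_mul_mul_comm _ _ _ _

/-- piece `BN-B9a-7`: `ab` is the abelianization. For every automorphism `φ` there is an endomorphism
`α` of `ℤ²` with `ab ∘ φ = α ∘ ab`: `homA_ext`; the values of a homomorphism to a commutative group at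
`a_j` (`j < m + 2`) and `b` all agree (`a_j`, `a_{j+1}` are conjugate; `b` and `a_{k-1}` too: both braid
with `a_{k-2}`). -/
theorem exists_ab (φ : MulAut (A m)) :
    ∃ α : Multiplicative (ℤ × ℤ) →* Multiplicative (ℤ × ℤ), ∀ x, ab m (φ x) = α (ab m x) := by
  obtain ⟨ψ, hψ⟩ : ∃ ψ : A m →* Multiplicative (ℤ × ℤ), ψ = (ab m).comp φ.toMonoidHom := ⟨_, rfl⟩
  refine ⟨n9_alpha (ψ (aA 0)) (ψ dA), ?_⟩
  have h : ψ = (n9_alpha (ψ (aA 0)) (ψ dA)).comp (ab m) := by
    apply homA_ext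
    · intro j hj
      rw [MonoidHom.comp_apply, n9_ab_a hj, n9_aJ ψ hj]
      simp [n9_alpha]
    · rw [MonoidHom.comp_apply, n9_ab_b, n9_b ψ]
      simp [n9_alpha]
    · rw [MonoidHom.comp_apply, n9_ab_d]
      simp [n9_alpha]
  intro x
  have h1 := DFunLike.congr_fun h x
  rw [MonoidHom.comp_apply] at h1
  rw [← h1, hψ]
  rfl

/-- piece `BN-B9a-7`: `ab ζ = (k+1) (k, 1)`, `k = m + 2` (`nA_r` and `ab_nA`, or directly). If
`ab (φ ζ) = (ab ζ)^e` then `e = ± 1`.
Proof. `α` and `β` for `φ` and `φ⁻¹`; `β ∘ α = id` (`ab` is surjective). `v = (k, 1)`: `α v = e v`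
(torsion-free), so `v = e β v`, and the second coordinate of `v` is `1`. -/
theorem ab_image (φ : MulAut (A m)) {e : ℤ} (h : ab m (φ (zeA m)) = ab m (zeA m) ^ e) :
    e = 1 ∨ e = -1 := by
  obtain ⟨α, hα⟩ := exists_ab φ
  obtain ⟨β, hβ⟩ := exists_ab φ⁻¹
  obtain ⟨v, hv⟩ : ∃ v : Multiplicative (ℤ × ℤ), v = Multiplicative.ofAdd (((m : ℤ) + 2, 1) : ℤ × ℤ) :=
    ⟨_, rfl⟩
  have hze : ab m (zeA m) = v ^ (m + 3) := by
    rw [n9_ab_ze, hv, ← ofAdd_nsmul]
    refine congrArg Multiplicative.ofAdd ?_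
    ext <;> simp
  -- an element over `v`
  have hy : ab m ((aA 0) ^ (m + 2) * dA) = v := by
    rw [map_mul, map_pow, n9_ab_a (by omega), n9_ab_d, hv, ← ofAdd_nsmul, ← ofAdd_add]
    refine congrArg Multiplicative.ofAdd ?_
    ext <;> simp
  have h1 : α v ^ (m + 3) = (v ^ e) ^ (m + 3) := by
    rw [← map_pow, ← hze, ← hα, h, hze, ← zpow_natCast, ← zpow_natCast, ← zpow_mul, ← zpow_mul,
      mul_comm]
  have h2 : α v = v ^ e := by
    have hm : ((m + 3 : ℕ) : ℤ) ≠ 0 := by positivity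
    have h3 : ((m + 3 : ℕ) : ℤ) • (α v).toAdd = ((m + 3 : ℕ) : ℤ) • (v ^ e).toAdd := by
      rw [natCast_zsmul, natCast_zsmul, ← toAdd_pow, ← toAdd_pow, h1]
    have h4 := smul_right_injective (ℤ × ℤ) hm h3
    exact Multiplicative.toAdd.injective h4
  have h3 : β (α v) = v := by
    rw [← hy, ← hα, ← hβ]
    simp
  rw [h2, map_zpow] at h3
  have h4 := congrArg (fun t : Multiplicative (ℤ × ℤ) => t.toAdd.2) h3
  simp only [toAdd_zpow, Prod.smul_snd, hv, toAdd_ofAdd, smul_eq_mul] at h4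
  exact Int.eq_one_or_neg_one_of_mul_eq_one h4

/-- piece `BN-B9a-8`: the case `y` is impossible, even conjugator.
Proof. `t ∈ N` (`par t = 1`); `y^e = t g t⁻¹` is in `N`, so `par y = 1` (`e = ± 1`). `conj_image` for
`x = dA * nA t`: `act d (t g t⁻¹) = act d (y^e)` is an `N`-conjugate of `g`, hence of `y^e`:
`act d (y^e) = n y^e n⁻¹`, `n ∈ N`; `act d y = gD y = (y x_0) y (y x_0)⁻¹` (`gD_y`). So `n⁻¹ y x_0` commutes
with `y` (`e = ± 1`), it is a power of `y` (`cent_y`, `n = 1`), so its parity is `1`; but it is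
`par y * par x_0 = -1`. -/
theorem no_y_even (hm : 1 ≤ m) (φ : MulAut (A m)) {g : N (m + 2)} (hg : φ (zeA m) = nA m g)
    {t : G (m + 2)} (ht : par (m + 2) t = 1) {e : ℤ} (he : e = 1 ∨ e = -1)
    (h : t * g.1 * t⁻¹ = yG ^ e) : False := by
  have hgp : par (m + 2) g.1 = 1 := g.2
  have hy : par (m + 2) yG = 1 := by
    have h1 := congrArg (par (m + 2)) h
    rw [map_mul, map_mul, map_inv, ht, hgp, map_zpow] at h1
    rcases he with rfl | rfl
    · rw [zpow_one] at h1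
      rw [← h1]; simp
    · rw [zpow_neg, zpow_one] at h1
      rw [← inv_inv (par (m + 2) yG), ← h1]; simp
  obtain ⟨n, hn⟩ := conj_image hm φ hg (dA * nA m ⟨t, ht⟩)
  have h2 : actA m (dA * nA m ⟨t, ht⟩) g.1 = n.1 * g.1 * n.1⁻¹ := congrArg Subtype.val hn
  rw [map_mul, MulAut.mul_apply, actA_nA, MulAut.conj_apply] at h2
  have hd : actA m dA = gD := liftA_d _
  have hg1 : g.1 = t⁻¹ * yG ^ e * t := by rw [← h]; group
  rw [hd] at h2
  have h3 : (gD (yG : G (m + 2))) ^ e = n.1 * g.1 * n.1⁻¹ := by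
    rw [← map_zpow, ← h]
    exact h2
  have h4 : (gD (yG : G (m + 2))) = (yG * xG 0) * yG * (yG * xG 0)⁻¹ := by
    rw [gD_y, mul_inv_rev, xG_inv]
    simp only [mul_assoc]
  have h5 : (n.1 * t⁻¹)⁻¹ * (yG * xG 0) * yG ^ e = yG ^ e * ((n.1 * t⁻¹)⁻¹ * (yG * xG 0)) := by
    rw [h4, conj_zpow, hg1] at h3
    rw [mul_inv_eq_iff_eq_mul] at h3
    rw [mul_assoc, h3]
    group
  have h6 : (n.1 * t⁻¹)⁻¹ * (yG * xG 0) * yG ^ 1 = yG ^ 1 * ((n.1 * t⁻¹)⁻¹ * (yG * xG 0)) := by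
    rw [pow_one]
    rcases he with rfl | rfl
    · rw [zpow_one] at h5
      exact h5
    · rw [zpow_neg, zpow_one] at h5
      exact ((Commute.inv_right_iff).1 (show Commute _ _ from h5)).eq
  obtain ⟨j, hj⟩ := cent_y one_pos h6
  have h7 := congrArg (par (m + 2)) (show yG ^ j = (n.1 * t⁻¹)⁻¹ * (yG * xG 0) from hj)
  have hx : par (m + 2) (xG 0) = -1 := liftG_x _ _ _ (by omega)
  have hnp : par (m + 2) n.1 = 1 := n.2
  rw [map_zpow, hy, one_zpow, map_mul, map_mul, map_inv, map_mul, map_inv, hy, ht, hnp, hx] at h7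
  exact absurd h7 (by decide)

/-- piece `BN-B9a-8`: odd conjugator: replace `φ` by `tau m * φ`, `g` by `x_k g x_k` (`tau_nA`) and `t` by
`t x_k`, `k = m + 2`. -/
theorem no_y (hm : 1 ≤ m) (φ : MulAut (A m)) {g : N (m + 2)} (hg : φ (zeA m) = nA m g)
    {t : G (m + 2)} {e : ℤ} (he : e = 1 ∨ e = -1)
    (h : t * g.1 * t⁻¹ = yG ^ e) : False := by
  rcases Int.units_eq_one_or (par (m + 2) t) with ht | ht
  · exact no_y_even hm φ hg ht he h
  · have hx : par (m + 2) (xG (m + 2)) = -1 := liftG_x _ _ _ le_rfl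
    have hgp : par (m + 2) g.1 = 1 := g.2
    have hp : par (m + 2) (xG (m + 2) * g.1 * xG (m + 2)) = 1 := by
      rw [map_mul, map_mul, hx, hgp]
      simp
    have hg' : (tau m * φ) (zeA m) =
        nA m (⟨xG (m + 2) * g.1 * xG (m + 2), hp⟩ : N (m + 2)) := by
      rw [MulAut.mul_apply, hg]
      exact tau_nA rfl
    have ht' : par (m + 2) (t * xG (m + 2)) = 1 := by
      rw [map_mul, hx, ht]
      simp
    refine no_y_even hm (tau m * φ) hg' ht' he ?_
    change t * xG (m + 2) * (xG (m + 2) * g.1 * xG (m + 2)) * (t * xG (m + 2))⁻¹ = yG ^ e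
    rw [← h, mul_inv_rev, xG_inv]
    simp only [mul_assoc, xG_sq']

/-- piece `BN-B9a-9`: the exponent. `ab_nA`: the value of `ab ∘ nA` at `g` is the value of the
homomorphism `G → ℤ²` (`x_i ↦ 0`, `y ↦ (k+1)(k,1)`) at `g.1 = t⁻¹ r^e t` or `t⁻¹ y^e t`, so
`(ab ζ)^e` (`nA_r`: `ab ζ` is its value at `r`, equal to its value at `y`). Then `ab_image`. -/
theorem exp_image (φ : MulAut (A m)) {g : N (m + 2)} (hg : φ (zeA m) = nA m g)
    {t : G (m + 2)} {e : ℤ} (h : t * g.1 * t⁻¹ = rG (m + 2) ^ e ∨ t * g.1 * t⁻¹ = yG ^ e) :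
    e = 1 ∨ e = -1 := by
  apply ab_image φ
  obtain ⟨L, hL⟩ : ∃ L : G (m + 2) →* Multiplicative (ℤ × ℤ),
      L = liftG (k := m + 2) (fun _ => 1) (fun _ _ => one_mul 1)
        (Multiplicative.ofAdd ((((m + 3) * (m + 2) : ℕ) : ℤ), ((m + 3 : ℕ) : ℤ))) := ⟨_, rfl⟩
  have h1 : ∀ n : N (m + 2), ab m (nA m n) = L n.1 := by
    intro n
    rw [hL]
    exact ab_nA n
  have hx : ∀ j, j ≤ m + 2 → L (xw j) = 1 := by
    intro j
    induction j with
    | zero =>
      intro _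
      change L (xG 0) = 1
      rw [hL, liftG_x _ _ _ (by omega)]
    | succ j ih =>
      intro hj
      change L (xw j * xG (j + 1)) = 1
      rw [map_mul, ih (by omega), hL, liftG_x _ _ _ hj, one_mul]
  have hr : L (rG (m + 2)) = L yG := by
    change L (yG * xw (m + 2)) = L yG
    rw [map_mul, hx _ le_rfl, mul_one]
  have hz : ab m (zeA m) = L yG := by
    rw [← nA_r, h1]
    exact hr
  have hc : L (t * g.1 * t⁻¹) = L g.1 := by
    rw [map_mul, map_mul, map_inv, mul_comm (L t), mul_inv_cancel_right]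
  rw [hg, h1, hz, ← hc]
  rcases h with h | h
  · rw [h, map_zpow, hr]
  · rw [h, map_zpow]

/-- piece `BN-B9a-10`: the image of `ζ`.
Proof. `φ ζ = φ (nA r) = nA g` (`nA_r`, `N_char'`). `gcl` (`k = m + 2 ≥ 2`; `par g = 1` is `g.2`; the
hypothesis from `conj_image` with `x = inc h` and `actA_inc`): `t g t⁻¹ = r^e` or `y^e`; `e = ± 1`
(`exp_image`); not `y^e` (`no_y`). If `par t = 1`: `n := t⁻¹`, `g = n r^e n⁻¹`. If `par t = -1`:
`n := x_k t⁻¹` is even (`k = m + 2`) and `g = x_k (n r^e n⁻¹) x_k`, so `nA g = tau (nA (n r^e n⁻¹))`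
(`tau_nA`). (`ℤˣ`: `Int.units_eq_one_or`.) -/
theorem image_zeta' (hm : 1 ≤ m) (φ : MulAut (A m)) :
    ∃ (n : N (m + 2)), φ (zeA m) = nA m (n * rN m * n⁻¹) ∨
      φ (zeA m) = (nA m (n * rN m * n⁻¹))⁻¹ ∨
      φ (zeA m) = tau m (nA m (n * rN m * n⁻¹)) ∨
      φ (zeA m) = (tau m (nA m (n * rN m * n⁻¹)))⁻¹ := by
  obtain ⟨g, hg⟩ := N_char' hm φ (rN m)
  rw [nA_r] at hg
  obtain ⟨t, e, ht⟩ := gcl (k := m + 2) (by omega) (g := g.1) g.2 (by
    intro h
    obtain ⟨n, hn⟩ := conj_image hm φ hg (inc m h)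
    refine ⟨n.1, ?_⟩
    rw [← actA_inc]
    exact (congrArg Subtype.val hn).symm)
  have he := exp_image φ hg ht
  rcases ht with hr | hy
  swap
  · exact (no_y hm φ hg he hy).elim
  have hgr : g.1 = t⁻¹ * rG (m + 2) ^ e * t := by rw [← hr]; group
  rcases Int.units_eq_one_or (par (m + 2) t) with h1 | h1
  · refine ⟨⟨t⁻¹, by
      change par (m + 2) t⁻¹ = 1
      rw [map_inv, h1, inv_one]⟩, ?_⟩
    rcases he with rfl | rfl
    · left
      rw [hg]
      refine congrArg (nA m) (Subtype.ext ?_)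
      change g.1 = t⁻¹ * rG (m + 2) * t⁻¹⁻¹
      rw [hgr, zpow_one, inv_inv]
    · right; left
      rw [hg, ← map_inv]
      refine congrArg (nA m) (Subtype.ext ?_)
      change g.1 = (t⁻¹ * rG (m + 2) * t⁻¹⁻¹)⁻¹
      rw [hgr]; group
  · have hx : par (m + 2) (xG (m + 2)) = -1 := by
      unfold par
      exact liftG_x _ _ _ le_rfl
    refine ⟨⟨xG (m + 2) * t⁻¹, by
      change par (m + 2) (xG (m + 2) * t⁻¹) = 1
      rw [map_mul, map_inv, h1, hx]
      decide⟩, ?_⟩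
    rcases he with rfl | rfl
    · right; right; left
      rw [hg]
      refine (tau_nA ?_).symm
      change g.1 = xG (m + 2) * (xG (m + 2) * t⁻¹ * rG (m + 2) * (xG (m + 2) * t⁻¹)⁻¹) * xG (m + 2)
      rw [hgr, zpow_one, mul_inv_rev, xG_inv, inv_inv]
      have hs := xG_sq (k := m + 2) (m + 2)
      generalize (xG (m + 2) : G (m + 2)) = x at hs ⊢
      calc t⁻¹ * rG (m + 2) * t = 1 * (t⁻¹ * rG (m + 2) * t) * 1 := by group
        _ = x * x * (t⁻¹ * rG (m + 2) * t) * (x * x) := by rw [hs]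
        _ = _ := by group
    · right; right; right
      rw [hg, ← map_inv, ← map_inv]
      refine (tau_nA ?_).symm
      change g.1 = xG (m + 2) * (xG (m + 2) * t⁻¹ * rG (m + 2) * (xG (m + 2) * t⁻¹)⁻¹)⁻¹ *
        xG (m + 2)
      rw [hgr, mul_inv_rev (xG (m + 2)) t⁻¹, xG_inv, inv_inv]
      have hs := xG_sq (k := m + 2) (m + 2)
      have hi := xG_inv (k := m + 2) (m + 2)
      generalize (xG (m + 2) : G (m + 2)) = x at hs hi ⊢
      have e1 : (x * t⁻¹ * rG (m + 2) * (t * x))⁻¹ = x⁻¹ * (t⁻¹ * rG (m + 2) ^ (-1 : ℤ) * t) * x⁻¹ := by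
        group
      rw [e1, hi]
      calc t⁻¹ * rG (m + 2) ^ (-1 : ℤ) * t = 1 * (t⁻¹ * rG (m + 2) ^ (-1 : ℤ) * t) * 1 := by group
        _ = x * x * (t⁻¹ * rG (m + 2) ^ (-1 : ℤ) * t) * (x * x) := by rw [hs]
        _ = _ := by group

end Pool.Agent.Helper38.BN
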