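import Pool.Agent.Helper38.BN.Ar3

/-!
# Project BN, block B7: Artin's theorem (interface)
-/

namespace Pool.Agent.Helper38.BN

/-- block B7: Artin's theorem: a tuple of conjugates of the generators of `F k` with the product
`z_k ⋯ z_0` is the image of `(z_0, …, z_k)` under a product of the `chiA j` and their inverses. -/
theorem artin (k : ℕ) (u : ℕ → F k) (hu : ∀ i, i ≤ k → ∃ j, j ≤ k ∧ ∃ g, u i = g * zF j * g⁻¹)
    (hw : wp u k = wp zF k) :
    ∃ β ∈ Subgroup.closure (chiA '' {j | j < k} : Set (MulAut (F k))),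
      ∀ i, i ≤ k → u i = β (zF i) := artin_aux k _ u rfl hu hw

end Pool.Agent.Helper38.BN
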