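import Pool.Agent.Helper38.BN.D2
import Pool.Agent.Helper38.BN.N9
import Pool.Agent.Helper54.BN.E6
import Pool.Agent.Helper60.BN9.Aut
import Pool.Agent.Helper60.BN9.Two
import Pool.Agent.Helper60.BN9.Word

/-!
# Project BN, blocks B8, B9, B10: the automorphisms of `HB k` and of `A m`
-/

namespace Pool.Agent.Helper38.BN

variable {m k : ℕ}

/-! ### block B8: the dichotomy -/

theorem Sp_Sp (x : HB k) : Sp k (Sp k x) = x := Sp_Sp' x

theorem Sp_zeta (k : ℕ) : Sp k (zeH k) = zeH k := Sp_zeta' k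

theorem piH_Sp (x : HB k) : piH k (Sp k x) = piH k x := piH_Sp' x

/-- `φ` maps `F` into `F⟨ζ⟩` -/
def MapsF (k : ℕ) (φ : HB k →* HB k) : Prop :=
  ∀ x : F k, ∃ (x' : F k) (e : ℤ), φ (zH k x) = zH k x' * zeH k ^ e

/-- the dichotomy -/
theorem dich (hm : 1 ≤ m) (φ : MulAut (HB (m + 2))) (hπ : ∀ x, piH (m + 2) (φ x) = piH (m + 2) x)
    (_ : φ (zeH (m + 2)) = zeH (m + 2)) :
    MapsF (m + 2) φ.toMonoidHom ∨ MapsF (m + 2) (φ.toMonoidHom.comp (Sp (m + 2))) :=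
  dich' hm φ hπ

/-- not both for the identity -/
theorem Sp_not_mapsF (hm : 1 ≤ m) : ¬ MapsF (m + 2) (Sp (m + 2)) := Sp_not_mapsF' hm

/-! ### block B10: the automorphisms of `HB k` -/

/-- the automorphisms of `HB k` which fix `ζ` and the permutations -/
theorem aut_H (hm : 1 ≤ m) (φ : MulAut (HB (m + 2)))
    (hπ : ∀ x, piH (m + 2) (φ x) = piH (m + 2) x) (hζ : φ (zeH (m + 2)) = zeH (m + 2)) :
    ∃ (s : HB (m + 2)) (l : ℤ), (∀ x, φ x = s * Tr (m + 2) l x * s⁻¹) ∨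
      (∀ x, φ x = s * Tr (m + 2) l (Sp (m + 2) x) * s⁻¹) :=
  Helper54.BN.aut_H_of (by omega) Sp_Sp (Sp_zeta _) piH_Sp (dich hm) (Sp_not_mapsF hm) φ hπ hζ

/-! ### block B9: the end of the proof in `A m` -/

/-- `N` is characteristic -/
theorem N_char (hm : 1 ≤ m) (φ : MulAut (A m)) (n : N (m + 2)) :
    ∃ n' : N (m + 2), φ (nA m n) = nA m n' := N_char' hm φ n

/-- the centralizer of `ζ` -/
theorem cent_zeta {x : A m} (h : x * zeA m = zeA m * x) : ∃ y, x = inc m y := cent_zeta' h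

/-- the image of `ζ` -/
theorem image_zeta (hm : 1 ≤ m) (φ : MulAut (A m)) :
    ∃ (n : N (m + 2)), φ (zeA m) = nA m (n * rN m * n⁻¹) ∨
      φ (zeA m) = (nA m (n * rN m * n⁻¹))⁻¹ ∨
      φ (zeA m) = tau m (nA m (n * rN m * n⁻¹)) ∨
      φ (zeA m) = (tau m (nA m (n * rN m * n⁻¹)))⁻¹ := image_zeta' hm φ

/-- if `φ` is `Tr l` on the subgroup of type `B` -/
theorem end_one (hm : 1 ≤ m) (φ : MulAut (A m)) {l : ℤ}
    (h : ∀ x, φ (inc m x) = inc m (Tr (m + 2) l x)) : ∃ s, φ = MulAut.conj s :=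
  E9.end_one' hm h (N_char hm φ) (fun v h1 h2 => gfix' (by omega) h1 h2)

/-- `φ` is not `Tr l ∘ Sp` on the subgroup of type `B` -/
theorem end_two (hm : 1 ≤ m) (φ : MulAut (A m)) {l : ℤ}
    (h : ∀ x, φ (inc m x) = inc m (Tr (m + 2) l (Sp (m + 2) x))) : False :=
  E9.end_two' hm h (N_char hm φ) (N_char hm φ.symm)

/-- the automorphism group of `A m` -/
theorem aut_A (hm : 1 ≤ m) (φ : MulAut (A m)) :
    ∃ s, φ = MulAut.conj s ∨ φ = MulAut.conj s * eps m ∨ φ = MulAut.conj s * tau m ∨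
      φ = MulAut.conj s * (eps m * tau m) :=
  E9.aut_A' hm (image_zeta hm) (fun _ h => cent_zeta h) (aut_H hm)
    (fun φ _ h => end_one hm φ h) (fun φ _ h => end_two hm φ h) φ

end Pool.Agent.Helper38.BN
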