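import Pool.Agent.Helper38.BN.Core

/-!
# Project BN, blocks B3, B3b: the permutation of the strands as a permutation of `Fin (m + 3)`
-/

namespace Pool.Agent.Helper38.BN

section
variable {m : ℕ}

/-- the exchange of the strands `j` and `j + 1` -/
def swF (m j : ℕ) : Equiv.Perm (Fin (m + 3)) :=
  if h : j < m + 2 then Equiv.swap ⟨j, by omega⟩ ⟨j + 1, by omega⟩ else 1

/-- a permutation of `Fin (m + 3)` as a permutation of `ℕ` -/
def extF (m : ℕ) : Equiv.Perm (Fin (m + 3)) →* Equiv.Perm ℕ :=
  Equiv.Perm.extendDomainHom Fin.equivSubtype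

lemma extF_inj : Function.Injective (extF m) := Equiv.Perm.extendDomainHom_injective _

lemma extF_apply (e : Equiv.Perm (Fin (m + 3))) {j : ℕ} (hj : j < m + 3) :
    extF m e j = (e ⟨j, hj⟩ : ℕ) := by
  have h := Equiv.Perm.extendDomain_apply_subtype e (Fin.equivSubtype (n := m + 3)) (b := j) hj
  exact h

lemma extF_apply_not (e : Equiv.Perm (Fin (m + 3))) {j : ℕ} (hj : ¬ j < m + 3) :
    extF m e j = j :=
  Equiv.Perm.extendDomain_apply_not_subtype e (Fin.equivSubtype (n := m + 3)) hj

lemma extF_sw {j : ℕ} (hj : j < m + 2) : extF m (swF m j) = Equiv.swap j (j + 1) := by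
  ext i
  unfold swF
  rw [dif_pos hj]
  rcases Nat.lt_or_ge i (m + 3) with hi | hi
  · rw [extF_apply _ hi, Equiv.swap_apply_def, Equiv.swap_apply_def]
    simp only [Fin.mk.injEq]
    split_ifs <;> rfl
  · rw [extF_apply_not _ (by omega), Equiv.swap_apply_of_ne_of_ne (by omega) (by omega)]

lemma swF_relA (m : ℕ) : RelA m (swF m) (swF m (m + 1)) 1 where
  comm i j h h' := by
    apply extF_inj
    rw [map_mul, map_mul, extF_sw (by omega), extF_sw (by omega)]
    exact (perm_relA m).comm i j h h'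
  braid i h := by
    apply extF_inj
    simp only [map_mul]
    rw [extF_sw (by omega), extF_sw (by omega)]
    exact (perm_relA m).braid i h
  dcomm i h h' := by simp
  four h := by simp
  ba := rfl
  bb := by
    apply extF_inj
    simp only [map_mul]
    rw [extF_sw (by omega), extF_sw (by omega)]
    exact (perm_relA m).bb
  bc i h := by
    apply extF_inj
    rw [map_mul, map_mul, extF_sw (by omega), extF_sw (by omega)]
    exact (perm_relA m).bc i h
  bd := by simp

/-- the permutation of the strands, as a permutation of `Fin (m + 3)` -/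
def piF (m : ℕ) : A m →* Equiv.Perm (Fin (m + 3)) := liftA (swF_relA m)

lemma piF_a {j : ℕ} (hj : j < m + 2) : piF m (aA j) = swF m j := liftA_a _ hj
@[simp] lemma piF_b : piF m bA = swF m (m + 1) := liftA_b _
@[simp] lemma piF_d : piF m dA = 1 := liftA_d _

lemma piA_eq_piF : piA m = (extF m).comp (piF m) := by
  apply homA_ext
  · intro j hj
    rw [MonoidHom.comp_apply, piF_a hj, extF_sw hj]
    exact liftA_a _ hj
  · rw [MonoidHom.comp_apply, piF_b, extF_sw (by omega)]
    exact liftA_b _
  · rw [MonoidHom.comp_apply, piF_d, map_one]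
    exact liftA_d _

lemma piA_apply_eq (x : A m) : piA m x = extF m (piF m x) := by rw [piA_eq_piF]; rfl

lemma mem_P_iff (x : A m) : x ∈ P m ↔ piF m x = 1 := by
  unfold P
  rw [MonoidHom.mem_ker, piA_apply_eq, ← map_one (extF m)]
  exact extF_inj.eq_iff

lemma P_eq_ker : P m = (piF m).ker := by
  ext x
  rw [mem_P_iff, MonoidHom.mem_ker]

lemma piF_surj : Function.Surjective (piF m) := by
  rw [← MonoidHom.range_eq_top, eq_top_iff]
  have h := Equiv.Perm.mclosure_swap_castSucc_succ (m + 2)
  intro σ _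
  have hσ : σ ∈ (⊤ : Submonoid (Equiv.Perm (Fin (m + 2 + 1)))) := trivial
  rw [← h] at hσ
  change σ ∈ (piF m).range
  have hle : Submonoid.closure (Set.range fun i : Fin (m + 2) => Equiv.swap i.castSucc i.succ) ≤
      (piF m).range.toSubmonoid := by
    rw [Submonoid.closure_le]
    rintro _ ⟨i, rfl⟩
    refine ⟨aA i.val, ?_⟩
    rw [piF_a i.2]
    unfold swF
    rw [dif_pos i.2]
    rfl
  exact hle hσ

/-- from `Fin (m + 3)` to `ℕ` -/
lemma x2_of_piF {φ : A m →* A m} {g : Equiv.Perm (Fin (m + 3))}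
    (h : ∀ x, piF m (φ x) = g * piF m x * g⁻¹) :
    ∃ s : A m, ∀ x, piA m (φ x) = piA m (s * x * s⁻¹) := by
  obtain ⟨s, hs⟩ := piF_surj g
  refine ⟨s, fun x => ?_⟩
  rw [piA_apply_eq, piA_apply_eq, h x, ← hs, ← map_inv, ← map_mul, ← map_mul]

end

end Pool.Agent.Helper38.BN
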