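import Pool.Agent.Helper38.BN.L1
import Pool.Agent.Helper18.BN4.FreeLem

/-!
# Project BN, block B4: linking functionals (interface)

The vertices are `0` (the puncture) and `j + 1` (the strand `j`), `j ≤ k = m + 2`.
-/

namespace Pool.Agent.Helper38.BN

variable {m : ℕ} {V : Type*} [CommGroup V]

/-- block B4: membership in the pure subgroup -/
theorem sq_mem (h : A m) : h * (aA 0 * aA 0) * h⁻¹ ∈ P m := by
  unfold P
  rw [MonoidHom.mem_ker, map_mul, map_mul, map_mul, map_inv]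
  have : piA m (aA 0) = Equiv.swap 0 1 := liftA_a _ (by omega)
  rw [this]
  simp

/-- block B4 -/
theorem d_mem (h : A m) : h * dA * h⁻¹ ∈ P m := by
  unfold P
  rw [MonoidHom.mem_ker, map_mul, map_mul, map_inv]
  have : piA m dA = 1 := liftA_d _
  rw [this]
  simp

/-- block B4 -/
theorem u_mem (h : A m) : h * uA * h⁻¹ ∈ P m := by
  unfold P uA
  rw [MonoidHom.mem_ker, map_mul, map_mul, map_inv, map_mul, map_inv]
  have h1 : piA m bA = Equiv.swap (m + 1) (m + 2) := liftA_b _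
  have h2 : piA m (aA (m + 1)) = Equiv.swap (m + 1) (m + 2) := liftA_a _ (by omega)
  rw [h1, h2]
  simp

/-- the conjugates of `a_0²` in `P m` -/
def sqP (h : A m) : P m := ⟨_, sq_mem h⟩
/-- the conjugates of `d` in `P m` -/
def dP (h : A m) : P m := ⟨_, d_mem h⟩
/-- the conjugates of `u` in `P m` -/
def uP (h : A m) : P m := ⟨_, u_mem h⟩

open Classical in
/-- the value of `v` on the class of the edge `{i, j}` of the strands -/
noncomputable def vE (v : P m →* V) (i j : ℕ) : V :=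
  if h : ∃ h : A m, piA m h 0 = i ∧ piA m h 1 = j then v (sqP (Classical.choose h)) else 1

open Classical in
/-- the value of `v` on the class of the edge from the puncture to the strand `i` -/
noncomputable def vZ (v : P m →* V) (i : ℕ) : V :=
  if h : ∃ h : A m, piA m h 0 = i then v (dP (Classical.choose h)) else 1

/-- the values of `v` on all edges; the vertex `0` is the puncture, `j + 1` the strand `j` -/
noncomputable def vW (v : P m →* V) : ℕ → ℕ → V
  | 0, 0 => 1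
  | 0, j + 1 => vZ v j
  | i + 1, 0 => vZ v i
  | i + 1, j + 1 => vE v i j

/-- piece `BN-B4-L8`: `P m` is generated by the conjugates of `a_0²`, `d` and `u`.
Proof. `⊇`: `P m` is normal (a kernel) and contains the three elements (`piA_gens`). `⊆`: for `x ∈ P m`:
`x = (x * (inc (fold x))⁻¹) * inc (fold x)`; the first factor is in `ker fold = normalClosure {u}`
(`ker_fold`, `fold_inc`); `fold x ∈ PH (m+2)` (`piH_fold`) `= normalClosure {a_0², d}` (`PH_gen`), and
`inc` maps this normal closure into the normal closure (`inc (aH 0) = aA 0`, `inc dH = dA`). -/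
theorem P_gen (m : ℕ) :
    P m = Subgroup.normalClosure ({aA 0 * aA 0, dA, uA} : Set (A m)) := by
  apply le_antisymm
  · intro x hx
    have hx1 : piA m x = 1 := hx
    have h1 : x * (inc m (fold m x))⁻¹ ∈
        Subgroup.normalClosure ({aA 0 * aA 0, dA, uA} : Set (A m)) := by
      have h2 : x * (inc m (fold m x))⁻¹ ∈ (fold m).ker := by
        rw [MonoidHom.mem_ker, map_mul, map_inv, fold_inc, mul_inv_cancel]
      rw [ker_fold] at h2
      exact Subgroup.normalClosure_mono (by simp) h2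
    have h3 : fold m x ∈ PH (m + 2) := by
      change piH (m + 2) (fold m x) = 1
      rw [piH_fold, hx1]
    rw [PH_gen] at h3
    have h4 := Subgroup.map_normalClosure_le ({aH 0 * aH 0, dH} : Set (HB (m + 2))) (inc m)
      (Subgroup.mem_map_of_mem (inc m) h3)
    have h5 : inc m (fold m x) ∈
        Subgroup.normalClosure ({aA 0 * aA 0, dA, uA} : Set (A m)) := by
      refine Subgroup.normalClosure_mono ?_ h4
      rintro _ ⟨y, hy, rfl⟩
      rcases hy with rfl | hy
      · left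
        rw [map_mul]
        have : inc m (aH 0) = aA 0 := liftH_a _ (by omega)
        rw [this]
      · rw [Set.mem_singleton_iff] at hy
        subst hy
        right; left
        exact liftH_d _
    have h6 := mul_mem h1 h5
    rwa [inv_mul_cancel_right] at h6
  · have hn : (P m).Normal := by
      unfold P
      infer_instance
    apply Subgroup.normalClosure_le_normal
    obtain ⟨g1, g2, g3⟩ := piA_gens (m := m)
    rintro y (rfl | rfl | rfl)
    · exact g3
    · exact g1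
    · exact g2

/-- piece `BN-B4-L8`: homomorphisms on `P m` are determined by the values on these conjugates.
Proof. The equalizer `E` (a subgroup of `P m`), mapped to `A m` with `Subgroup.map (P m).subtype`,
contains all conjugates of the three elements, so it contains
`Subgroup.normalClosure = closure (conjugatesOfSet _)`. -/
theorem P_hom_ext {K : Type*} [Group K] {v v' : P m →* K} (h1 : ∀ h, v (sqP h) = v' (sqP h))
    (h2 : ∀ h, v (dP h) = v' (dP h)) (h3 : ∀ h, v (uP h) = v' (uP h)) : v = v' := by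
  ext x
  have hle : Subgroup.normalClosure ({aA 0 * aA 0, dA, uA} : Set (A m)) ≤
      (MonoidHom.eqLocus v v').map (P m).subtype := by
    unfold Subgroup.normalClosure
    rw [Subgroup.closure_le]
    intro y hy
    obtain ⟨s, hs, hsy⟩ := Group.mem_conjugatesOfSet_iff.mp hy
    obtain ⟨c, hc⟩ := isConj_iff.mp hsy
    rcases hs with rfl | rfl | hs
    · exact ⟨sqP c, h1 c, hc⟩
    · exact ⟨dP c, h2 c, hc⟩
    · rw [Set.mem_singleton_iff] at hs
      subst hs
      exact ⟨uP c, h3 c, hc⟩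
  have hx : x.1 ∈ Subgroup.normalClosure ({aA 0 * aA 0, dA, uA} : Set (A m)) := by
    rw [← P_gen]; exact x.2
  obtain ⟨e, he, hex⟩ := hle hx
  have : e = x := Subtype.ext hex
  rw [← this]
  exact he

/-- block B4: 2-transitivity of the strands (for more strands: the next statement) -/
theorem exists_perm (σ : Equiv.Perm ℕ) (hσ : ∀ i, m + 2 < i → σ i = i) :
    ∃ h : A m, piA m h = σ := by
  obtain ⟨c, _, hc⟩ := exists_SB (Nat.zero_le (m + 2)) le_rfl σ
    (fun i hi => hσ i (hi.resolve_left (Nat.not_lt_zero i)))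
  exact ⟨c, hc⟩

private theorem l9_conj {x c : A m} (hc : c * x = x * c) (p h' : A m) :
    p * h' * c * x * (p * h' * c)⁻¹ = p * (h' * x * h'⁻¹) * p⁻¹ := by
  calc p * h' * c * x * (p * h' * c)⁻¹ = p * h' * (c * x) * c⁻¹ * h'⁻¹ * p⁻¹ := by group
    _ = p * (h' * x * h'⁻¹) * p⁻¹ := by rw [hc]; group

private theorem l9_sq (v : P m →* V) {h h' : A m} (h0 : piA m h 0 = piA m h' 0)
    (h1 : piA m h 1 = piA m h' 1) : v (sqP h) = v (sqP h') := by
  obtain ⟨p, hp, c, hc, rfl⟩ := eq_mod2 h0 h1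
  have hca := SB_a hc
  have h2 : c * (aA 0 * aA 0) = (aA 0 * aA 0) * c := by
    rw [← mul_assoc, hca, mul_assoc, hca, ← mul_assoc]
  have key : sqP (p * h' * c) = (⟨p, hp⟩ : P m) * sqP h' * (⟨p, hp⟩ : P m)⁻¹ :=
    Subtype.ext (l9_conj h2 p h')
  rw [key, map_mul, map_mul, map_inv, mul_inv_cancel_comm]

private theorem l9_d (v : P m →* V) {h h' : A m} (h0 : piA m h 0 = piA m h' 0) :
    v (dP h) = v (dP h') := by
  obtain ⟨p, hp, c, hc, rfl⟩ := eq_mod1 h0
  have key : dP (p * h' * c) = (⟨p, hp⟩ : P m) * dP h' * (⟨p, hp⟩ : P m)⁻¹ :=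
    Subtype.ext (l9_conj (SB_d hc) p h')
  rw [key, map_mul, map_mul, map_inv, mul_inv_cancel_comm]

private theorem l9_swap (h : A m) :
    sqP (h * aA 0) = sqP h ∧ piA m (h * aA 0) 0 = piA m h 1 ∧
      piA m (h * aA 0) 1 = piA m h 0 := by
  have h1 : piA m (aA 0) = Equiv.swap 0 1 := liftA_a _ (by omega)
  refine ⟨?_, ?_, ?_⟩
  · apply Subtype.ext
    show h * aA 0 * (aA 0 * aA 0) * (h * aA 0)⁻¹ = h * (aA 0 * aA 0) * h⁻¹
    group
  · rw [map_mul, h1, Equiv.Perm.mul_apply, Equiv.swap_apply_left]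
  · rw [map_mul, h1, Equiv.Perm.mul_apply, Equiv.swap_apply_right]

/-- piece `BN-B4-L9`: the value at `h a_0² h⁻¹` depends only on the images of `0` and `1`.
Proof. Let `h'` be the chosen element. `eq_mod2`: `h = p h' c`, and `c` commutes with `a_0` (`SB_a`), so
`sqP h = p * sqP h' * p⁻¹` and `v` has the same value (`V` is commutative). -/
theorem vE_eq (hm : 1 ≤ m) (v : P m →* V) (h : A m) :
    v (sqP h) = vE v (piA m h 0) (piA m h 1) := by
  have hex : ∃ h' : A m, piA m h' 0 = piA m h 0 ∧ piA m h' 1 = piA m h 1 := ⟨h, rfl, rfl⟩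
  unfold vE
  rw [dif_pos hex]
  exact l9_sq v (Classical.choose_spec hex).1.symm (Classical.choose_spec hex).2.symm

/-- piece `BN-B4-L9`: `sqP (h * aA 0) = sqP h` and `π (h a_0)` exchanges the two images; if there is no
`h` with `π h (0, 1) = (i, j)` then there is none for `(j, i)`. -/
theorem vE_symm (hm : 1 ≤ m) (v : P m →* V) (i j : ℕ) : vE v i j = vE v j i := by
  by_cases hex : ∃ h : A m, piA m h 0 = i ∧ piA m h 1 = j
  · obtain ⟨h, rfl, rfl⟩ := hex
    obtain ⟨h1, h2, h3⟩ := l9_swap h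
    rw [← vE_eq hm v h, ← h1, vE_eq hm v (h * aA 0), h2, h3]
  · have hex' : ¬ ∃ h : A m, piA m h 0 = j ∧ piA m h 1 = i := by
      rintro ⟨h, h1, h2⟩
      obtain ⟨-, h3, h4⟩ := l9_swap h
      exact hex ⟨h * aA 0, h3.trans h2, h4.trans h1⟩
    unfold vE
    rw [dif_neg hex, dif_neg hex']

/-- piece `BN-B4-L9`: as `vE_eq`, with `eq_mod1` and `SB_d`. -/
theorem vZ_eq (hm : 1 ≤ m) (v : P m →* V) (h : A m) : v (dP h) = vZ v (piA m h 0) := by
  have hex : ∃ h' : A m, piA m h' 0 = piA m h 0 := ⟨h, rfl⟩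
  unfold vZ
  rw [dif_pos hex]
  exact l9_d v (Classical.choose_spec hex).symm

/-- piece `BN-B4-L10`: torsion-free values vanish on the conjugates of `u`.
Proof. `u² = b² a_{k-1}⁻²` (`b`, `a_{k-1}` commute), so `uP h * uP h = sqP (h * g') * (sqP (h * g))⁻¹` with
`g`, `g'` from `exists_conj` (`j = m + 1`) and `exists_conj_b`; both have the same value by `vE_eq`:
`π (h g) = π (h g')` on `0`, `1`. So `v (uP h) ^ 2 = 1`. -/
theorem v_u [IsMulTorsionFree V] (hm : 1 ≤ m) (v : P m →* V) (h : A m) : v (uP h) = 1 := by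
  obtain ⟨g, hg, hg0, hg1⟩ := exists_conj (m := m) (j := m + 1) (by omega)
  obtain ⟨g', hg', hg0', hg1'⟩ := exists_conj_b (m := m)
  have hba : (bA : A m) * aA (m + 1) = aA (m + 1) * bA := (relA m).ba
  have hu : (uA : A m) * uA = (bA * bA) * (aA (m + 1) * aA (m + 1))⁻¹ := by
    have h1 : (aA (m + 1) : A m)⁻¹ * bA = bA * (aA (m + 1))⁻¹ := by
      rw [inv_mul_eq_iff_eq_mul, ← mul_assoc, ← hba, mul_inv_cancel_right]
    unfold uA
    calc (bA * (aA (m + 1))⁻¹ * (bA * (aA (m + 1))⁻¹) : A m)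
        = bA * ((aA (m + 1))⁻¹ * bA) * (aA (m + 1))⁻¹ := by group
      _ = bA * (bA * (aA (m + 1))⁻¹) * (aA (m + 1))⁻¹ := by rw [h1]
      _ = (bA * bA) * (aA (m + 1) * aA (m + 1))⁻¹ := by group
  have hsq : ∀ (x y : A m), x * aA 0 * x⁻¹ = y →
      (h * x) * (aA 0 * aA 0) * (h * x)⁻¹ = h * (y * y) * h⁻¹ := by
    intro x y hxy
    rw [← hxy]
    group
  have key : uP h * uP h = sqP (h * g') * (sqP (h * g))⁻¹ := by
    apply Subtype.ext
    change h * uA * h⁻¹ * (h * uA * h⁻¹) = (h * g') * (aA 0 * aA 0) * (h * g')⁻¹ *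
      ((h * g) * (aA 0 * aA 0) * (h * g)⁻¹)⁻¹
    rw [hsq g' _ hg', hsq g _ hg]
    calc h * uA * h⁻¹ * (h * uA * h⁻¹) = h * (uA * uA) * h⁻¹ := by group
      _ = h * ((bA * bA) * (aA (m + 1) * aA (m + 1))⁻¹) * h⁻¹ := by rw [hu]
      _ = h * (bA * bA) * h⁻¹ * (h * (aA (m + 1) * aA (m + 1)) * h⁻¹)⁻¹ := by group
  have hv : v (sqP (h * g')) = v (sqP (h * g)) := by
    rw [vE_eq hm, vE_eq hm]
    simp only [map_mul, Equiv.Perm.mul_apply]
    rw [hg0, hg1, hg0', hg1']
  have h2 : v (uP h) ^ 2 = (1 : V) ^ 2 := by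
    rw [sq, ← map_mul, key, map_mul, map_inv, hv, mul_inv_cancel, one_pow]
  exact IsMulTorsionFree.pow_left_injective two_ne_zero h2

/-- the abelianization of `F_2` -/
def e2 : FreeGroup (Fin 2) →* Multiplicative (ℤ × ℤ) :=
  FreeGroup.lift ![Multiplicative.ofAdd (1, 0), Multiplicative.ofAdd (0, 1)]

/-- the determinant -/
def det2 (x y : Multiplicative (ℤ × ℤ)) : ℤ :=
  x.toAdd.1 * y.toAdd.2 - x.toAdd.2 * y.toAdd.1

/-- piece `BN-B4-L11`: commuting elements of `F_2` are powers of one element: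
`Pool.Agent.Helper18.BN4.comm_root` (FreeLem.lean). -/
theorem det2_comm {s t : FreeGroup (Fin 2)} (h : s * t = t * s) : det2 (e2 s) (e2 t) = 0 := by
  obtain ⟨c, a, b, rfl, rfl⟩ := Pool.Agent.Helper18.BN4.comm_root h
  unfold det2
  rw [map_zpow e2, map_zpow e2, toAdd_zpow, toAdd_zpow]
  simp only [Prod.smul_fst, Prod.smul_snd, smul_eq_mul]
  ring

/-- piece `BN-B4-L11`: `s = c^a`, `t = c^b`: `a • e2 c ≠ 0`, `b • e2 c = 0`, so `b = 0`. -/
theorem one_of_comm {s t : FreeGroup (Fin 2)} (h : s * t = t * s) (hs : e2 s ≠ 1)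
    (ht : e2 t = 1) : t = 1 := by
  obtain ⟨c, a, b, rfl, rfl⟩ := Pool.Agent.Helper18.BN4.comm_root h
  have hc : e2 c ≠ 1 := by
    intro hc
    apply hs
    rw [map_zpow e2, hc, one_zpow]
  rw [map_zpow e2] at ht
  have h1 : b • (e2 c).toAdd = 0 := by
    rw [← toAdd_zpow, ht]; rfl
  rcases smul_eq_zero.mp h1 with h2 | h2
  · rw [h2, zpow_zero]
  · exfalso
    apply hc
    exact (Multiplicative.toAdd).injective h2

/-- the conditions on the values of a surjection to `F_2` (`n'` is the last vertex) -/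
structure Adm (n' : ℕ) (W : ℕ → ℕ → Multiplicative (ℤ × ℤ)) : Prop where
  symm : ∀ i j, W i j = W j i
  disj : ∀ i j p q, i ≤ n' → j ≤ n' → p ≤ n' → q ≤ n' → i ≠ j → i ≠ p → i ≠ q → j ≠ p → j ≠ q →
    p ≠ q → det2 (W i j) (W p q) = 0
  tri : ∀ i j l, i ≤ n' → j ≤ n' → l ≤ n' → i ≠ j → i ≠ l → j ≠ l →
    det2 (W i j) (W i j * W j l * W i l) = 0

/-- piece `BN-B4-L12`: the values are symmetric (`vE_symm`; the cases with the puncture are
definitional) -/
theorem vW_symm (hm : 1 ≤ m) (v : P m →* V) (i j : ℕ) : vW v i j = vW v j i := by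
  cases i with
  | zero =>
    cases j with
    | zero => rfl
    | succ j => rfl
  | succ i =>
    cases j with
    | zero => rfl
    | succ j => exact vE_symm hm v i j

private theorem disj_rep_aux1 (hm : 1 ≤ m) (v : P m →* V) {i j p q : ℕ} (hi : i ≤ m + 2)
    (hj : j ≤ m + 2) (hp : p ≤ m + 2) (hq : q ≤ m + 2) (hij : i ≠ j) (hip : i ≠ p) (hiq : i ≠ q)
    (hjp : j ≠ p) (hjq : j ≠ q) (hpq : p ≠ q) :
    ∃ x y : P m, x * y = y * x ∧ v x = vE v i j ∧ v y = vE v p q := by
  obtain ⟨h, h0, h1, h2, h3⟩ := exists_four hm hi hj hp hq hij hip hiq hjp hjq hpq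
  obtain ⟨g, hg, g0, g1⟩ := exists_conj (m := m) (j := 2) (by omega)
  have hc : Commute (aA 0 : A m) (aA 2) := (relA m).comm 0 2 (by omega) (by omega)
  refine ⟨sqP h, sqP (h * g), ?_, ?_, ?_⟩
  · apply Subtype.ext
    change h * (aA 0 * aA 0) * h⁻¹ * (h * g * (aA 0 * aA 0) * (h * g)⁻¹) =
      h * g * (aA 0 * aA 0) * (h * g)⁻¹ * (h * (aA 0 * aA 0) * h⁻¹)
    have e1 : h * g * (aA 0 * aA 0) * (h * g)⁻¹ = h * (aA 2 * aA 2) * h⁻¹ := by
      rw [← hg]
      group
    have e2 : (aA 0 * aA 0 : A m) * (aA 2 * aA 2) = aA 2 * aA 2 * (aA 0 * aA 0) :=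
      ((hc.mul_left hc).mul_right (hc.mul_left hc)).eq
    rw [e1]
    calc h * (aA 0 * aA 0) * h⁻¹ * (h * (aA 2 * aA 2) * h⁻¹)
        = h * ((aA 0 * aA 0) * (aA 2 * aA 2)) * h⁻¹ := by group
      _ = h * (aA 2 * aA 2 * (aA 0 * aA 0)) * h⁻¹ := by rw [e2]
      _ = h * (aA 2 * aA 2) * h⁻¹ * (h * (aA 0 * aA 0) * h⁻¹) := by group
  · rw [vE_eq hm, h0, h1]
  · rw [vE_eq hm, map_mul, Equiv.Perm.mul_apply, Equiv.Perm.mul_apply, g0, g1, h2, h3]

private theorem disj_rep_aux2 (hm : 1 ≤ m) (v : P m →* V) {j p q : ℕ}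
    (hj : j ≤ m + 2) (hp : p ≤ m + 2) (hq : q ≤ m + 2)
    (hjp : j ≠ p) (hjq : j ≠ q) (hpq : p ≠ q) :
    ∃ x y : P m, x * y = y * x ∧ v x = vZ v j ∧ v y = vE v p q := by
  obtain ⟨h, h0, h1, h2⟩ := exists_three hj hp hq hjp hjq hpq
  obtain ⟨g, hg, g0, g1⟩ := exists_conj (m := m) (j := 1) (by omega)
  have hc : Commute (dA : A m) (aA 1) := ((relA m).dcomm 1 (by omega) (by omega)).symm
  refine ⟨dP h, sqP (h * g), ?_, ?_, ?_⟩
  · apply Subtype.ext
    change h * dA * h⁻¹ * (h * g * (aA 0 * aA 0) * (h * g)⁻¹) =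
      h * g * (aA 0 * aA 0) * (h * g)⁻¹ * (h * dA * h⁻¹)
    have e1 : h * g * (aA 0 * aA 0) * (h * g)⁻¹ = h * (aA 1 * aA 1) * h⁻¹ := by
      rw [← hg]
      group
    have e2 : (dA : A m) * (aA 1 * aA 1) = aA 1 * aA 1 * dA := (hc.mul_right hc).eq
    rw [e1]
    calc h * dA * h⁻¹ * (h * (aA 1 * aA 1) * h⁻¹)
        = h * (dA * (aA 1 * aA 1)) * h⁻¹ := by group
      _ = h * (aA 1 * aA 1 * dA) * h⁻¹ := by rw [e2]
      _ = h * (aA 1 * aA 1) * h⁻¹ * (h * dA * h⁻¹) := by group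
  · rw [vZ_eq hm, h0]
  · rw [vE_eq hm, map_mul, Equiv.Perm.mul_apply, Equiv.Perm.mul_apply, g0, g1, h1, h2]

/-- piece `BN-B4-L12`: disjoint edges have commuting representatives.
Proof. Strands only (`i, j, p, q ≥ 1`): `exists_four` gives `h` with `π h (0,1,2,3) = (i,j,p,q) - 1`;
`x = sqP h`, `y = h a_2² h⁻¹ = sqP (h * g)` with `g = a_1 a_2 a_0 a_1`: `g a_0 g⁻¹ = a_2`, `π g (0,1) = (2,3)`
(check; or `exists_conj`); then `vE_eq`. One of them is the puncture `0`; by symmetry (`vW_symm`, and the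
roles of the two edges: exchange `x` and `y`) `i = 0`: `exists_three` gives `h` with
`π h (0,1,2) = (j, p, q) - 1`, `x = dP h`, `y = h a_1² h⁻¹ = sqP (h * (a_0 a_1))`
(`(a_0 a_1) a_0 (a_0 a_1)⁻¹ = a_1`, `π (a_0 a_1) (0, 1) = (1, 2)`); `d` commutes with `a_1`. -/
theorem disj_rep (hm : 1 ≤ m) (v : P m →* V) {i j p q : ℕ} (hi : i ≤ m + 3) (hj : j ≤ m + 3)
    (hp : p ≤ m + 3) (hq : q ≤ m + 3) (hij : i ≠ j) (hip : i ≠ p) (hiq : i ≠ q) (hjp : j ≠ p)
    (hjq : j ≠ q) (hpq : p ≠ q) : ∃ x y : P m, x * y = y * x ∧ v x = vW v i j ∧ v y = vW v p q := by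
  rcases Nat.eq_zero_or_pos i with rfl | hi0
  · obtain ⟨j, rfl⟩ : ∃ j', j = j' + 1 := ⟨j - 1, by omega⟩
    obtain ⟨p, rfl⟩ : ∃ p', p = p' + 1 := ⟨p - 1, by omega⟩
    obtain ⟨q, rfl⟩ : ∃ q', q = q' + 1 := ⟨q - 1, by omega⟩
    exact disj_rep_aux2 hm v (j := j) (p := p) (q := q) (by omega) (by omega) (by omega)
      (by omega) (by omega) (by omega)
  · obtain ⟨i, rfl⟩ : ∃ i', i = i' + 1 := ⟨i - 1, by omega⟩
    rcases Nat.eq_zero_or_pos j with rfl | hj0
    · obtain ⟨p, rfl⟩ : ∃ p', p = p' + 1 := ⟨p - 1, by omega⟩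
      obtain ⟨q, rfl⟩ : ∃ q', q = q' + 1 := ⟨q - 1, by omega⟩
      exact disj_rep_aux2 hm v (j := i) (p := p) (q := q) (by omega) (by omega) (by omega)
        (by omega) (by omega) (by omega)
    · obtain ⟨j, rfl⟩ : ∃ j', j = j' + 1 := ⟨j - 1, by omega⟩
      rcases Nat.eq_zero_or_pos p with rfl | hp0
      · obtain ⟨q, rfl⟩ : ∃ q', q = q' + 1 := ⟨q - 1, by omega⟩
        obtain ⟨x, y, h1, h2, h3⟩ := disj_rep_aux2 hm v (j := q) (p := i) (q := j) (by omega)
          (by omega) (by omega) (by omega) (by omega) (by omega)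
        exact ⟨y, x, h1.symm, h3, h2⟩
      · obtain ⟨p, rfl⟩ : ∃ p', p = p' + 1 := ⟨p - 1, by omega⟩
        rcases Nat.eq_zero_or_pos q with rfl | hq0
        · obtain ⟨x, y, h1, h2, h3⟩ := disj_rep_aux2 hm v (j := p) (p := i) (q := j) (by omega)
            (by omega) (by omega) (by omega) (by omega) (by omega)
          exact ⟨y, x, h1.symm, h3, h2⟩
        · obtain ⟨q, rfl⟩ : ∃ q', q = q' + 1 := ⟨q - 1, by omega⟩
          exact disj_rep_aux1 hm v (i := i) (j := j) (p := p) (q := q) (by omega) (by omega)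
            (by omega) (by omega) (by omega) (by omega) (by omega) (by omega) (by omega) (by omega)

private theorem tri_alg1 {G : Type*} [Group G] {a b : G} (hab : a * b * a = b * a * b) :
    a * (a * a * (b * (a * a) * b⁻¹) * (b * b)) = a * a * (b * (a * a) * b⁻¹) * (b * b) * a := by
  have h1 : a * a * (b * (a * a) * b⁻¹) * (b * b) = (a * b * a) * (a * b * a) := by
    calc a * a * (b * (a * a) * b⁻¹) * (b * b) = a * (a * b * a) * (a * b) := by group
      _ = a * (b * a * b) * (a * b) := by rw [hab]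
      _ = (a * b * a) * (b * a * b) := by group
      _ = (a * b * a) * (a * b * a) := by rw [hab]
  have h2 : (a * b * a) * a = b * (a * b * a) := by
    calc (a * b * a) * a = (b * a * b) * a := by rw [hab]
      _ = b * (a * b * a) := by group
  have h3 : (a * b * a) * b = a * (a * b * a) := by
    calc (a * b * a) * b = a * (b * a * b) := by group
      _ = a * (a * b * a) := by rw [hab]
  rw [h1, mul_assoc (a * b * a) (a * b * a) a, h2, ← mul_assoc (a * b * a) b, h3,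
    mul_assoc a (a * b * a)]

private theorem tri_alg2 {G : Type*} [Group G] {a d : G} (had : a * d * a * d = d * a * d * a) :
    d * (d * (a * d * a⁻¹) * (a * a)) = d * (a * d * a⁻¹) * (a * a) * d ∧
      a * (d * (a * d * a⁻¹) * (a * a)) = d * (a * d * a⁻¹) * (a * a) * a := by
  have h1 : d * (a * d * a⁻¹) * (a * a) = d * a * d * a := by group
  rw [h1]
  constructor
  · calc d * (d * a * d * a) = d * (a * d * a * d) := by rw [had]
      _ = d * a * d * a * d := by group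
  · calc a * (d * a * d * a) = a * d * a * d * a := by group
      _ = d * a * d * a * a := by rw [had]

private theorem tri_comm {G : Type*} [Group G] {H : Subgroup G} {x T : H} {X W : G} (h : G)
    (hx : (x : G) = h * X * h⁻¹) (hT : (T : G) = h * W * h⁻¹) (hc : X * W = W * X) :
    x * T = T * x := by
  apply Subtype.ext
  rw [Subgroup.coe_mul, Subgroup.coe_mul, hx, hT]
  calc h * X * h⁻¹ * (h * W * h⁻¹) = h * (X * W) * h⁻¹ := by group
    _ = h * (W * X) * h⁻¹ := by rw [hc]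
    _ = h * W * h⁻¹ * (h * X * h⁻¹) := by group

private theorem tri_rep_aux1 (hm : 1 ≤ m) (v : P m →* V) {i j l : ℕ} (hi : i ≤ m + 2)
    (hj : j ≤ m + 2) (hl : l ≤ m + 2) (hij : i ≠ j) (hil : i ≠ l) (hjl : j ≠ l) :
    ∃ x T : P m, x * T = T * x ∧ v x = vE v i j ∧ v T = vE v i j * vE v j l * vE v i l := by
  obtain ⟨h, h0, h1, h2⟩ := exists_three hi hj hl hij hil hjl
  have ea : piA m (aA 0) = Equiv.swap 0 1 := liftA_a _ (by omega)
  have eb : piA m (aA 1) = Equiv.swap 1 2 := liftA_a _ (by omega)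
  have hab : (aA 0 : A m) * aA 1 * aA 0 = aA 1 * aA 0 * aA 1 := (relA m).braid 0 (by omega)
  have b0 : piA m (aA 1) 0 = 0 := by
    rw [eb]; exact Equiv.swap_apply_of_ne_of_ne (by decide) (by decide)
  have b1 : piA m (aA 1) 1 = 2 := by rw [eb]; exact Equiv.swap_apply_left _ _
  have a0 : piA m (aA 0) 0 = 1 := by rw [ea]; exact Equiv.swap_apply_left _ _
  have a2 : piA m (aA 0) 2 = 2 := by
    rw [ea]; exact Equiv.swap_apply_of_ne_of_ne (by decide) (by decide)
  have hbc : (aA 0 : A m) * aA 1 * (aA 0 * aA 0) * (aA 0 * aA 1)⁻¹ = aA 1 * aA 1 := by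
    have h3 : (aA 0 : A m) * aA 1 * aA 0 * (aA 0 * aA 1)⁻¹ = aA 1 := by
      rw [hab]; group
    calc (aA 0 : A m) * aA 1 * (aA 0 * aA 0) * (aA 0 * aA 1)⁻¹
        = (aA 0 * aA 1 * aA 0 * (aA 0 * aA 1)⁻¹) * (aA 0 * aA 1 * aA 0 * (aA 0 * aA 1)⁻¹) := by
          group
      _ = aA 1 * aA 1 := by rw [h3]
  have hT : ((sqP h * sqP (h * aA 1) * sqP (h * (aA 0 * aA 1)) : P m) : A m) =
      h * (aA 0 * aA 0 * (aA 1 * (aA 0 * aA 0) * (aA 1)⁻¹) * (aA 1 * aA 1)) * h⁻¹ := by
    change h * (aA 0 * aA 0) * h⁻¹ * (h * aA 1 * (aA 0 * aA 0) * (h * aA 1)⁻¹) *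
      (h * (aA 0 * aA 1) * (aA 0 * aA 0) * (h * (aA 0 * aA 1))⁻¹) = _
    rw [← hbc]
    group
  refine ⟨sqP h, sqP h * sqP (h * aA 1) * sqP (h * (aA 0 * aA 1)), ?_, ?_, ?_⟩
  · have hc := tri_alg1 hab
    have hc2 : (aA 0 * aA 0 : A m) *
        (aA 0 * aA 0 * (aA 1 * (aA 0 * aA 0) * (aA 1)⁻¹) * (aA 1 * aA 1)) =
        (aA 0 * aA 0 * (aA 1 * (aA 0 * aA 0) * (aA 1)⁻¹) * (aA 1 * aA 1)) *
          (aA 0 * aA 0) := by
      rw [mul_assoc (aA 0 : A m) (aA 0), hc, ← mul_assoc, hc, mul_assoc _ (aA 0 : A m) (aA 0)]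
    exact tri_comm h rfl hT hc2
  · rw [vE_eq hm, h0, h1]
  · rw [map_mul, map_mul, vE_eq hm, vE_eq hm, vE_eq hm]
    simp only [map_mul, Equiv.Perm.mul_apply, b0, b1, a0, a2, h0, h1, h2]
    rw [mul_right_comm]

private theorem tri_rep_aux2 (hm : 1 ≤ m) (v : P m →* V) {s t : ℕ} (hs : s ≤ m + 2)
    (ht : t ≤ m + 2) (hst : s ≠ t) :
    ∃ x y T : P m, x * T = T * x ∧ y * T = T * y ∧ v x = vZ v s ∧ v y = vE v s t ∧
      v T = vZ v s * vZ v t * vE v s t := by
  obtain ⟨r, hr, hsr, htr⟩ : ∃ r, r ≤ m + 2 ∧ s ≠ r ∧ t ≠ r := by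
    by_cases c0 : s ≠ 0 ∧ t ≠ 0
    · exact ⟨0, by omega, c0.1, c0.2⟩
    · by_cases c1 : s ≠ 1 ∧ t ≠ 1
      · exact ⟨1, by omega, c1.1, c1.2⟩
      · exact ⟨2, by omega, by omega, by omega⟩
  obtain ⟨h, h0, h1, -⟩ := exists_three hs ht hr hst hsr htr
  have ea : piA m (aA 0) = Equiv.swap 0 1 := liftA_a _ (by omega)
  have a0 : piA m (aA 0) 0 = 1 := by rw [ea]; exact Equiv.swap_apply_left _ _
  have had : (aA 0 : A m) * dA * aA 0 * dA = dA * aA 0 * dA * aA 0 := (relA m).four (by omega)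
  obtain ⟨hc1, hc2⟩ := tri_alg2 had
  have hT : ((dP h * dP (h * aA 0) * sqP h : P m) : A m) =
      h * (dA * (aA 0 * dA * (aA 0)⁻¹) * (aA 0 * aA 0)) * h⁻¹ := by
    change h * dA * h⁻¹ * (h * aA 0 * dA * (h * aA 0)⁻¹) * (h * (aA 0 * aA 0) * h⁻¹) = _
    group
  refine ⟨dP h, sqP h, dP h * dP (h * aA 0) * sqP h, ?_, ?_, ?_, ?_, ?_⟩
  · exact tri_comm h rfl hT hc1
  · have hc3 : (aA 0 * aA 0 : A m) * (dA * (aA 0 * dA * (aA 0)⁻¹) * (aA 0 * aA 0)) =
        (dA * (aA 0 * dA * (aA 0)⁻¹) * (aA 0 * aA 0)) * (aA 0 * aA 0) := by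
      rw [mul_assoc (aA 0 : A m) (aA 0), hc2, ← mul_assoc, hc2, mul_assoc _ (aA 0 : A m) (aA 0)]
    exact tri_comm h rfl hT hc3
  · rw [vZ_eq hm, h0]
  · rw [vE_eq hm, h0, h1]
  · rw [map_mul, map_mul, vZ_eq hm, vZ_eq hm, vE_eq hm]
    simp only [map_mul, Equiv.Perm.mul_apply, a0, h0, h1]

/-- piece `BN-B4-L13`: triangles.
Proof. Strands only: `exists_three`: `h` with `π h (0,1,2) = (i,j,l) - 1`; `x = sqP h`,
`T = h (a_0 a_1)^3 h⁻¹`, `(a_0 a_1)^3 = a_0² · (a_1 a_0² a_1⁻¹) · a_1²` commutes with `a_0`; the three factors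
are `sqP h`, `sqP (h a_1)` (`π a_1 (0,1) = (0,2)`) and `sqP (h a_0 a_1)`
(`(a_0 a_1) a_0 (a_0 a_1)⁻¹ = a_1`). With the puncture: `(d a_0)^2 = d · (a_0 d a_0⁻¹) · a_0²` commutes with
`d` and `a_0` (relation `four`); the three factors are `dP h` (edge `{0, s}`), `dP (h a_0)` (edge
`{0, t}`), `sqP h` (edge `{s, t}`) for `π h (0,1) = (s,t) - 1`; `x` is one of the three. -/
theorem tri_rep (hm : 1 ≤ m) (v : P m →* V) {i j l : ℕ} (hi : i ≤ m + 3) (hj : j ≤ m + 3)
    (hl : l ≤ m + 3) (hij : i ≠ j) (hil : i ≠ l) (hjl : j ≠ l) :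
    ∃ x T : P m, x * T = T * x ∧ v x = vW v i j ∧ v T = vW v i j * vW v j l * vW v i l := by
  rcases Nat.eq_zero_or_pos i with rfl | hi0
  · obtain ⟨j, rfl⟩ : ∃ j', j = j' + 1 := ⟨j - 1, by omega⟩
    obtain ⟨l, rfl⟩ : ∃ l', l = l' + 1 := ⟨l - 1, by omega⟩
    obtain ⟨x, y, T, h1, h2, h3, h4, h5⟩ := tri_rep_aux2 hm v (s := j) (t := l) (by omega)
      (by omega) (by omega)
    refine ⟨x, T, h1, h3, h5.trans ?_⟩
    change vZ v j * vZ v l * vE v j l = vZ v j * vE v j l * vZ v l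
    rw [mul_right_comm]
  · obtain ⟨i, rfl⟩ : ∃ i', i = i' + 1 := ⟨i - 1, by omega⟩
    rcases Nat.eq_zero_or_pos j with rfl | hj0
    · obtain ⟨l, rfl⟩ : ∃ l', l = l' + 1 := ⟨l - 1, by omega⟩
      obtain ⟨x, y, T, h1, h2, h3, h4, h5⟩ := tri_rep_aux2 hm v (s := i) (t := l) (by omega)
        (by omega) (by omega)
      exact ⟨x, T, h1, h3, h5⟩
    · obtain ⟨j, rfl⟩ : ∃ j', j = j' + 1 := ⟨j - 1, by omega⟩
      rcases Nat.eq_zero_or_pos l with rfl | hl0
      · obtain ⟨x, y, T, h1, h2, h3, h4, h5⟩ := tri_rep_aux2 hm v (s := i) (t := j) (by omega)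
          (by omega) (by omega)
        refine ⟨y, T, h2, h4, h5.trans ?_⟩
        change vZ v i * vZ v j * vE v i j = vE v i j * vZ v j * vZ v i
        rw [mul_comm, mul_comm (vZ v i) (vZ v j), mul_assoc]
      · obtain ⟨l, rfl⟩ : ∃ l', l = l' + 1 := ⟨l - 1, by omega⟩
        exact tri_rep_aux1 hm v (i := i) (j := j) (l := l) (by omega) (by omega) (by omega)
          (by omega) (by omega) (by omega)

/-- piece `BN-B4-L14`: a homomorphism to `F_2` gives an admissible function (`vW_symm`, `disj_rep`,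
`tri_rep` with `v = e2.comp g`, `det2_comm`). -/
theorem adm_of_hom (hm : 1 ≤ m) (g : P m →* FreeGroup (Fin 2)) :
    Adm (m + 3) (vW (e2.comp g)) where
  symm i j := vW_symm hm _ i j
  disj i j p q hi hj hp hq hij hip hiq hjp hjq hpq := by
    obtain ⟨x, y, hxy, hx, hy⟩ := disj_rep hm (e2.comp g) hi hj hp hq hij hip hiq hjp hjq hpq
    rw [← hx, ← hy]
    have h : g x * g y = g y * g x := by rw [← map_mul, hxy, map_mul]
    exact det2_comm h
  tri i j l hi hj hl hij hil hjl := by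
    obtain ⟨x, y, hxy, hx, hy⟩ := tri_rep hm (e2.comp g) hi hj hl hij hil hjl
    rw [← hy, ← hx]
    have h : g x * g y = g y * g x := by rw [← map_mul, hxy, map_mul]
    exact det2_comm h

private def detHom (w : Multiplicative (ℤ × ℤ)) : Multiplicative (ℤ × ℤ) →* Multiplicative ℤ where
  toFun z := Multiplicative.ofAdd (det2 w z)
  map_one' := by
    rw [ofAdd_eq_one]
    simp [det2]
  map_mul' x y := by
    rw [← ofAdd_add]
    congr 1
    simp only [det2, toAdd_mul, Prod.fst_add, Prod.snd_add]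
    ring

private lemma det2_swap (x y : Multiplicative (ℤ × ℤ)) : det2 y x = - det2 x y := by
  unfold det2
  ring

private lemma det2_self (x : Multiplicative (ℤ × ℤ)) : det2 x x = 0 := by
  unfold det2
  ring

/-- piece `BN-B4-L15`: a surjection has two edges with linearly independent values.
Proof. Otherwise all the values `W e` (`e` an edge, two different vertices `≤ m + 3`) are pairwise
dependent: for disjoint edges by `Adm.disj`, for edges with a common vertex by assumption, for the same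
edge trivially. Then there is a nonzero linear functional `ℓ : ℤ × ℤ → ℤ` that vanishes on all values (if
some value `w ≠ 0` take `det2 w`; otherwise any), so `ℓ ∘ e2 ∘ g` vanishes on all `sqP h`, `dP h` (`vE_eq`,
`vZ_eq`, `piA_le`) and `uP h` (`v_u`), so it is trivial by `P_hom_ext`; but `e2 ∘ g` is surjective and `ℓ`
is not zero. -/
theorem indep_of_surj (hm : 1 ≤ m) (g : P m →* FreeGroup (Fin 2)) (hg : Function.Surjective g) :
    ∃ i j l, i ≤ m + 3 ∧ j ≤ m + 3 ∧ l ≤ m + 3 ∧ i ≠ j ∧ i ≠ l ∧ j ≠ l ∧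
      det2 (vW (e2.comp g) i j) (vW (e2.comp g) j l) ≠ 0 := by
  by_contra hno
  push Not at hno
  have adm := adm_of_hom hm g
  set W := vW (e2.comp g) with hWdef
  have hadj : ∀ i j l, i ≤ m + 3 → j ≤ m + 3 → l ≤ m + 3 → i ≠ j → j ≠ l →
      det2 (W i j) (W j l) = 0 := by
    intro i j l hi hj hl hij hjl
    by_cases hil : i = l
    · subst hil
      rw [adm.symm j i]
      exact det2_self _
    · exact hno i j l hi hj hl hij hil hjl
  have hall : ∀ i j p q, i ≤ m + 3 → j ≤ m + 3 → p ≤ m + 3 → q ≤ m + 3 → i ≠ j → p ≠ q →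
      det2 (W i j) (W p q) = 0 := by
    intro i j p q hi hj hp hq hij hpq
    by_cases h1 : j = p
    · subst h1
      exact hadj i j q hi hj hq hij hpq
    by_cases h2 : j = q
    · subst h2
      rw [adm.symm p j]
      exact hadj i j p hi hj hp hij (Ne.symm hpq)
    by_cases h3 : i = p
    · subst h3
      rw [adm.symm i j]
      exact hadj j i q hj hi hq (Ne.symm hij) hpq
    by_cases h4 : i = q
    · subst h4
      rw [adm.symm i j, adm.symm p i]
      exact hadj j i p hj hi hp (Ne.symm hij) (Ne.symm hpq)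
    exact adm.disj i j p q hi hj hp hq hij h3 h4 h1 h2 hpq
  obtain ⟨w, hw1, hw⟩ : ∃ w : Multiplicative (ℤ × ℤ), w ≠ 1 ∧
      ∀ i j, i ≤ m + 3 → j ≤ m + 3 → i ≠ j → det2 w (W i j) = 0 := by
    by_cases hex : ∃ p q, p ≤ m + 3 ∧ q ≤ m + 3 ∧ p ≠ q ∧ W p q ≠ 1
    · obtain ⟨p, q, hp, hq, hpq, h⟩ := hex
      exact ⟨W p q, h, fun i j hi hj hij => hall p q i j hp hq hi hj hpq hij⟩
    · push Not at hex
      refine ⟨Multiplicative.ofAdd ((1, 0) : ℤ × ℤ), ?_, fun i j hi hj hij => ?_⟩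
      · intro h
        rw [ofAdd_eq_one] at h
        have := congrArg Prod.fst h
        simp at this
      · rw [hex i j hi hj hij]
        simp [det2]
  have hψ : (detHom w).comp (e2.comp g) = 1 := by
    apply P_hom_ext
    · intro h
      have h0 : piA m h 0 ≤ m + 2 := piA_le h (by omega)
      have h1 : piA m h 1 ≤ m + 2 := piA_le h (by omega)
      have hne : piA m h 0 ≠ piA m h 1 := fun e => by
        have := (piA m h).injective e
        omega
      have e := hw (piA m h 0 + 1) (piA m h 1 + 1) (by omega) (by omega) (by omega)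
      have e1 : (e2.comp g) (sqP h) = W (piA m h 0 + 1) (piA m h 1 + 1) := vE_eq hm (e2.comp g) h
      rw [MonoidHom.comp_apply, e1, MonoidHom.one_apply]
      show Multiplicative.ofAdd (det2 w _) = 1
      rw [e, ofAdd_zero]
    · intro h
      have h0 : piA m h 0 ≤ m + 2 := piA_le h (by omega)
      have e := hw 0 (piA m h 0 + 1) (by omega) (by omega) (by omega)
      have e1 : (e2.comp g) (dP h) = W 0 (piA m h 0 + 1) := vZ_eq hm (e2.comp g) h
      rw [MonoidHom.comp_apply, e1, MonoidHom.one_apply]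
      show Multiplicative.ofAdd (det2 w _) = 1
      rw [e, ofAdd_zero]
    · intro h
      have e1 : (e2.comp g) (uP h) = 1 := v_u hm (e2.comp g) h
      rw [MonoidHom.comp_apply, e1, map_one, MonoidHom.one_apply]
  have hsurj : ∀ z : Multiplicative (ℤ × ℤ), z ∈ Set.range e2 → det2 w z = 0 := by
    rintro _ ⟨f, rfl⟩
    obtain ⟨x, rfl⟩ := hg f
    have := DFunLike.congr_fun hψ x
    rw [MonoidHom.one_apply] at this
    exact ofAdd_eq_one.mp this
  have z0 : det2 w (Multiplicative.ofAdd (1, 0)) = 0 :=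
    hsurj _ ⟨FreeGroup.of 0, by simp [e2]⟩
  have z1 : det2 w (Multiplicative.ofAdd (0, 1)) = 0 :=
    hsurj _ ⟨FreeGroup.of 1, by simp [e2]⟩
  apply hw1
  apply Multiplicative.toAdd.injective
  rw [toAdd_one]
  unfold det2 at z0 z1
  simp only [toAdd_ofAdd] at z0 z1
  ext
  · simpa using z1
  · simpa using z0

private theorem l16_mul (x y z : Multiplicative (ℤ × ℤ)) :
    det2 x (y * z) = det2 x y + det2 x z := by
  simp only [det2, toAdd_mul, Prod.fst_add, Prod.snd_add]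
  ring

private theorem l16_mul' (x y z : Multiplicative (ℤ × ℤ)) :
    det2 (x * y) z = det2 x z + det2 y z := by
  simp only [det2, toAdd_mul, Prod.fst_add, Prod.snd_add]
  ring

private theorem l16_inv (x y : Multiplicative (ℤ × ℤ)) : det2 x y⁻¹ = - det2 x y := by
  simp only [det2, toAdd_inv, Prod.fst_neg, Prod.snd_neg]
  ring

private theorem l16_inv' (x y : Multiplicative (ℤ × ℤ)) : det2 x⁻¹ y = - det2 x y := by
  simp only [det2, toAdd_inv, Prod.fst_neg, Prod.snd_neg]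
  ring

private theorem l16_self (x : Multiplicative (ℤ × ℤ)) : det2 x x = 0 := by
  simp only [det2]
  ring

private theorem l16_swap (x y : Multiplicative (ℤ × ℤ)) : det2 x y = - det2 y x := by
  simp only [det2]
  ring

private theorem l16_one (x : Multiplicative (ℤ × ℤ)) : det2 x 1 = 0 := by
  simp [det2]

/-- piece `BN-B4-L16`: a vector which is dependent to two independent vectors is zero. -/
theorem det2_zero {x y z : Multiplicative (ℤ × ℤ)} (h : det2 x y ≠ 0) (h1 : det2 x z = 0)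
    (h2 : det2 y z = 0) : z = 1 := by
  have e1 : z.toAdd.1 = 0 := by
    have : det2 x y * z.toAdd.1 = 0 := by
      unfold det2 at *
      linear_combination y.toAdd.1 * h1 - x.toAdd.1 * h2
    exact (mul_eq_zero.mp this).resolve_left h
  have e2 : z.toAdd.2 = 0 := by
    have : det2 x y * z.toAdd.2 = 0 := by
      unfold det2 at *
      linear_combination y.toAdd.2 * h1 - x.toAdd.2 * h2
    exact (mul_eq_zero.mp this).resolve_left h
  have : z.toAdd = 0 := Prod.ext e1 e2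
  exact this

/-- piece `BN-B4-L16`: the triangle `i, j, l`. Proof. `S = A + B + C` (`A = W i j`, `B = W j l`,
`C = W i l`) is dependent with `A` and with `B` (`Adm.tri` for the orders `i, j, l` and `j, l, i`,
`Adm.symm`), so `S = 0` by `det2_zero`. -/
theorem adm_tri {n' : ℕ} {W : ℕ → ℕ → Multiplicative (ℤ × ℤ)} (hW : Adm n' W) {i j l : ℕ}
    (hi : i ≤ n') (hj : j ≤ n') (hl : l ≤ n') (hij : i ≠ j) (hil : i ≠ l) (hjl : j ≠ l)
    (h : det2 (W i j) (W j l) ≠ 0) : W i j * W j l * W i l = 1 := by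
  refine det2_zero h (hW.tri i j l hi hj hl hij hil hjl) ?_
  have h2 := hW.tri j l i hj hl hi hjl hij.symm hil.symm
  rw [hW.symm l i, hW.symm j i] at h2
  rw [show W i j * W j l * W i l = W j l * W i l * W i j by
    rw [mul_comm (W i j), mul_assoc, mul_comm (W i j), ← mul_assoc]]
  exact h2

/-- piece `BN-B4-L16`: a fourth vertex `p`: either all three edges from `p` to the
triangle have the value `1`, or opposite edges have equal values.
Proof. `A + B + C = 0` by `adm_tri`, so `A, B, C` are pairwise independent. `W p i` is dependent with `B`,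
`W p j` with `C`, `W p l` with `A` (disjoint edges). If `W p i ≠ 0`: the triangle `p, i, j`:
`S = W p i + W p j + A` is dependent with `W p i` (so with `B`: both dependent to the nonzero `W p i`... use
the functional `det2 B`) and with `A`, so `S = 0`; so `det2 B (W p j) = - det2 B A = det2 B C`, and
`W p j` is dependent with `C`, hence `W p j = C` (`det2 C (W p j - C) = 0` and `det2 B (W p j - C) = 0`);
`W p i = - A - C = B`; in the same way with the triangle `p, i, l`: `W p l = A`. If `W p i = 0` and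
`W p j ≠ 0` the same argument (roles of `i`, `j` exchanged) gives `W p i = B ≠ 0`; similarly for `l`. -/
theorem adm_four {n' : ℕ} {W : ℕ → ℕ → Multiplicative (ℤ × ℤ)} (hW : Adm n' W) {i j l p : ℕ}
    (hi : i ≤ n') (hj : j ≤ n') (hl : l ≤ n') (hp : p ≤ n') (hij : i ≠ j) (hil : i ≠ l)
    (hjl : j ≠ l) (hpi : p ≠ i) (hpj : p ≠ j) (hpl : p ≠ l) (h : det2 (W i j) (W j l) ≠ 0) :
    (W p i = 1 ∧ W p j = 1 ∧ W p l = 1) ∨ (W p i = W j l ∧ W p j = W i l ∧ W p l = W i j) := by
  have hS := adm_tri hW hi hj hl hij hil hjl h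
  have d1 : det2 (W p i) (W j l) = 0 := hW.disj p i j l hp hi hj hl hpi hpj hpl hij hil hjl
  have d2 : det2 (W p j) (W i l) = 0 := hW.disj p j i l hp hj hi hl hpj hpi hpl hij.symm hjl hil
  have d3 : det2 (W p l) (W i j) = 0 := hW.disj p l i j hp hl hi hj hpl hpi hpj hil.symm hjl.symm hij
  have t1 := hW.tri p i j hp hi hj hpi hpj hij
  have t2 := hW.tri i j p hi hj hp hij hpi.symm hpj.symm
  have t3 := hW.tri p i l hp hi hl hpi hpl hil
  have t4 := hW.tri i l p hi hl hp hil hpi.symm hpl.symm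
  rw [hW.symm j p, hW.symm i p] at t2
  rw [hW.symm l p, hW.symm i p] at t4
  generalize W i j = A at *
  generalize W j l = B at *
  generalize W i l = C at *
  generalize W p i = P at *
  generalize W p j = Q at *
  generalize W p l = R at *
  have hC : C = (A * B)⁻¹ := (inv_eq_of_mul_eq_one_right hS).symm
  have hAC : det2 A C = - det2 A B := by
    rw [hC, l16_inv, l16_mul, l16_self, zero_add]
  have hBC : det2 B C = det2 A B := by
    rw [hC, l16_inv, l16_mul, l16_self, add_zero, l16_swap B A, neg_neg]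
  have hCA : det2 C A = det2 A B := by
    rw [l16_swap, hAC, neg_neg]
  by_cases hP : P = 1
  · left
    subst hP
    refine ⟨rfl, ?_, ?_⟩
    · refine det2_zero (x := A) (y := C) (by rw [hAC]; exact neg_ne_zero.mpr h) ?_ ?_
      · rw [mul_one, l16_mul, l16_self, zero_add] at t2
        exact t2
      · rw [l16_swap, d2, neg_zero]
    · refine det2_zero (x := A) (y := C) (by rw [hAC]; exact neg_ne_zero.mpr h) ?_ ?_
      · rw [l16_swap, d3, neg_zero]
      · rw [mul_one, l16_mul, l16_self, zero_add] at t4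
        exact t4
  · right
    have hAP : det2 P A ≠ 0 := by
      intro hPA
      apply hP
      exact det2_zero h (by rw [l16_swap, hPA, neg_zero]) (by rw [l16_swap, d1, neg_zero])
    have s1 : P * A * Q = 1 := by
      refine det2_zero hAP t1 ?_
      rw [l16_mul, l16_mul, l16_self, add_zero]
      rw [l16_mul, l16_mul, l16_self, zero_add] at t2
      linarith
    have hQ : Q = (P * A)⁻¹ := (inv_eq_of_mul_eq_one_right s1).symm
    have hPB : P = B := by
      have : P * B⁻¹ = 1 := by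
        refine det2_zero h ?_ ?_
        · rw [l16_mul, l16_inv]
          rw [hQ, l16_inv', hC, l16_inv, l16_mul, l16_mul', l16_mul', l16_self, d1] at d2
          rw [l16_swap A P]
          linarith
        · rw [l16_mul, l16_inv, l16_self, l16_swap, d1]
          ring
      exact mul_inv_eq_one.mp this
    subst hPB
    refine ⟨rfl, ?_, ?_⟩
    · rw [hQ, hC, mul_comm]
    · have s2 : P * C * R = 1 := by
        refine det2_zero (x := P) (y := C) (by rw [hBC]; exact h) t3 ?_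
        rw [l16_mul, l16_mul, l16_self, add_zero]
        rw [l16_mul, l16_mul, l16_self, zero_add] at t4
        linarith
      have hR : R = (P * C)⁻¹ := (inv_eq_of_mul_eq_one_right s2).symm
      rw [hR, hC, mul_inv_rev, inv_inv, mul_inv_cancel_right]

/-- piece `BN-B4-L17`: two further vertices: not both of them have nontrivial
values, and the edge between them has the value `1`.
Proof. `W p q` is dependent with `A` and `B`, so `0`. If `W p i ≠ 0` and `W q i ≠ 0` then by `adm_four`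
`W p i = B`, `W q j = C`, and `{p,i}`, `{q,j}` are disjoint: `det2 B C = 0`, a contradiction. -/
theorem adm_five {n' : ℕ} {W : ℕ → ℕ → Multiplicative (ℤ × ℤ)} (hW : Adm n' W) {i j l p q : ℕ}
    (hi : i ≤ n') (hj : j ≤ n') (hl : l ≤ n') (hp : p ≤ n') (hq : q ≤ n') (hij : i ≠ j)
    (hil : i ≠ l) (hjl : j ≠ l) (hpi : p ≠ i) (hpj : p ≠ j) (hpl : p ≠ l) (hqi : q ≠ i)
    (hqj : q ≠ j) (hql : q ≠ l) (hpq : p ≠ q) (h : det2 (W i j) (W j l) ≠ 0) :
    W p q = 1 ∧ (W p i = 1 ∨ W q i = 1) := by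
  refine ⟨det2_zero h
    (hW.disj i j p q hi hj hp hq hij hpi.symm hqi.symm hpj.symm hqj.symm hpq)
    (hW.disj j l p q hj hl hp hq hjl hpj.symm hqj.symm hpl.symm hql.symm hpq), ?_⟩
  rcases adm_four hW hi hj hl hp hij hil hjl hpi hpj hpl h with ⟨h1, -, -⟩ | ⟨h1, -, -⟩
  · exact Or.inl h1
  rcases adm_four hW hi hj hl hq hij hil hjl hqi hqj hql h with ⟨h2, -, -⟩ | ⟨-, h2, -⟩
  · exact Or.inr h2
  exfalso
  have h3 := hW.disj p i q j hp hi hq hj hpi hpq hpj hqi.symm hij hqj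
  rw [h1, h2] at h3
  have h4 := adm_tri hW hi hj hl hij hil hjl h
  have e1 := congrArg (fun x => (Multiplicative.toAdd x).1) h4
  have e2 := congrArg (fun x => (Multiplicative.toAdd x).2) h4
  simp only [toAdd_mul, toAdd_one, Prod.fst_add, Prod.snd_add, Prod.fst_zero,
    Prod.snd_zero] at e1 e2
  apply h
  unfold det2 at h3 ⊢
  set a1 := (Multiplicative.toAdd (W i j)).1
  set a2 := (Multiplicative.toAdd (W i j)).2
  set b1 := (Multiplicative.toAdd (W j l)).1
  set b2 := (Multiplicative.toAdd (W j l)).2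
  have c1 : (Multiplicative.toAdd (W i l)).1 = -a1 - b1 := by linarith
  have c2 : (Multiplicative.toAdd (W i l)).2 = -a2 - b2 := by linarith
  rw [c1, c2] at h3
  linear_combination h3

/-- piece `BN-B4-L17`: every edge has a nontrivial value or is disjoint from an edge with a nontrivial
value. Proof. All three edges of the triangle have nontrivial values. If `{p,q}` contains two vertices of
the triangle its value is nontrivial (`Adm.symm`); otherwise at most one of `p`, `q` is a vertex of the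
triangle and the opposite edge is disjoint from `{p,q}`. -/
theorem adm_disj {n' : ℕ} {W : ℕ → ℕ → Multiplicative (ℤ × ℤ)} (hW : Adm n' W) {i j l : ℕ}
    (hi : i ≤ n') (hj : j ≤ n') (hl : l ≤ n') (hij : i ≠ j) (hil : i ≠ l) (hjl : j ≠ l)
    (h : det2 (W i j) (W j l) ≠ 0) (p q : ℕ) (hpq : p ≠ q) :
    W p q ≠ 1 ∨ ∃ s t, s ≤ n' ∧ t ≤ n' ∧ s ≠ t ∧ s ≠ p ∧ s ≠ q ∧ t ≠ p ∧ t ≠ q ∧
      W s t ≠ 1 := by
  have hA : W i j ≠ 1 := by
    intro e
    apply h
    rw [e]
    simp [det2]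
  have hB : W j l ≠ 1 := by
    intro e
    apply h
    rw [e]
    simp [det2]
  have hC : W i l ≠ 1 := by
    intro e
    have h4 := adm_tri hW hi hj hl hij hil hjl h
    rw [e, mul_one] at h4
    apply h
    rw [eq_inv_of_mul_eq_one_left h4]
    unfold det2
    simp only [toAdd_inv, Prod.fst_neg, Prod.snd_neg]
    ring
  by_cases h1 : i ≠ p ∧ i ≠ q ∧ j ≠ p ∧ j ≠ q
  · exact Or.inr ⟨i, j, hi, hj, hij, h1.1, h1.2.1, h1.2.2.1, h1.2.2.2, hA⟩
  by_cases h2 : j ≠ p ∧ j ≠ q ∧ l ≠ p ∧ l ≠ q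
  · exact Or.inr ⟨j, l, hj, hl, hjl, h2.1, h2.2.1, h2.2.2.1, h2.2.2.2, hB⟩
  by_cases h3 : i ≠ p ∧ i ≠ q ∧ l ≠ p ∧ l ≠ q
  · exact Or.inr ⟨i, l, hi, hl, hil, h3.1, h3.2.1, h3.2.2.1, h3.2.2.2, hC⟩
  left
  have h4 : (p = i ∧ q = j) ∨ (p = j ∧ q = i) ∨ (p = j ∧ q = l) ∨ (p = l ∧ q = j) ∨
      (p = i ∧ q = l) ∨ (p = l ∧ q = i) := by omega
  rcases h4 with ⟨rfl, rfl⟩ | ⟨rfl, rfl⟩ | ⟨rfl, rfl⟩ | ⟨rfl, rfl⟩ | ⟨rfl, rfl⟩ | ⟨rfl, rfl⟩
  · exact hA
  · rw [hW.symm]; exact hA
  · exact hB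
  · rw [hW.symm]; exact hB
  · exact hC
  · rw [hW.symm]; exact hC

/-- piece `BN-B4-L18`: an edge with trivial value is killed.
Proof. `W := vW (e2.comp g)`; by `vZ_eq` `W 0 (π h 0 + 1) = 1`; `indep_of_surj`, `adm_disj` give an edge
`{s, t}` with `W s t ≠ 1`, `s, t ≠ 0` and `≠ π h 0 + 1`. `exists_y1`: `y ∈ SB m 1 (m+2)` with
`π (h y) 1 = s - 1`, `π (h y) 2 = t - 1`. `x := sqP (h * y * (a_0 a_1)) = (h y) a_1² (h y)⁻¹`
(`(a_0 a_1) a_0 (a_0 a_1)⁻¹ = a_1`) has `e2 (g x) = W s t ≠ 1` (`vE_eq`) and commutes with `dP h` (`SB_d`,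
`a_1` commutes with `d`). `one_of_comm`. -/
theorem g_d (hm : 1 ≤ m) (g : P m →* FreeGroup (Fin 2)) (hg : Function.Surjective g) (h : A m)
    (h1 : e2 (g (dP h)) = 1) : g (dP h) = 1 := by
  have hv : vZ (e2.comp g) (piA m h 0) = 1 := by
    rw [← vZ_eq hm (e2.comp g) h]
    exact h1
  have adm := adm_of_hom hm g
  obtain ⟨i, j, l, hi, hj, hl, hij, hil, hjl, hdet⟩ := indep_of_surj hm g hg
  rcases adm_disj adm hi hj hl hij hil hjl hdet 0 (piA m h 0 + 1) (by omega) with
    hd | ⟨s, t, hs, ht, hst, hs0, hsq, ht0, htq, hW⟩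
  · exact absurd hv hd
  · obtain ⟨s', rfl⟩ : ∃ s', s = s' + 1 := ⟨s - 1, by omega⟩
    obtain ⟨t', rfl⟩ : ∃ t', t = t' + 1 := ⟨t - 1, by omega⟩
    obtain ⟨y, hy, hy1, hy2⟩ := exists_y1 h (s := s') (t := t') (by omega) (by omega) (by omega)
      (by omega) (by omega)
    have ha0 : piA m (aA 0) = Equiv.swap 0 1 := liftA_a _ (by omega)
    have ha1 : piA m (aA 1) = Equiv.swap 1 2 := liftA_a _ (by omega)
    have ec : piA m (h * y * (aA 0 * aA 1)) = piA m (h * y) * (Equiv.swap 0 1 * Equiv.swap 1 2) := by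
      rw [map_mul, map_mul (piA m) (aA 0) (aA 1), ha0, ha1]
    have e0 : piA m (h * y * (aA 0 * aA 1)) 0 = s' := by
      rw [ec, ← hy1, Equiv.Perm.mul_apply]
      congr 1
    have e1 : piA m (h * y * (aA 0 * aA 1)) 1 = t' := by
      rw [ec, ← hy2, Equiv.Perm.mul_apply]
      congr 1
    -- the element `x`
    have hx : e2 (g (sqP (h * y * (aA 0 * aA 1)))) ≠ 1 := by
      intro h5
      apply hW
      have h6 := vE_eq hm (e2.comp g) (h * y * (aA 0 * aA 1))
      rw [e0, e1] at h6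
      exact h6.symm.trans h5
    have hyd : Commute y dA := SB_d hy
    have had : Commute (aA 1 : A m) dA := (relA m).dcomm 1 (by omega) (by omega)
    have hbr : (aA 0 * aA 1) * aA 0 * (aA 0 * aA 1)⁻¹ = (aA 1 : A m) := by
      have h7 : (aA 0 : A m) * aA 1 * aA 0 = aA 1 * aA 0 * aA 1 := (relA m).braid 0 (by omega)
      rw [h7, mul_inv_rev]
      group
    have hval : ((sqP (h * y * (aA 0 * aA 1)) : P m) : A m) =
        h * (y * (aA 1 * aA 1) * y⁻¹) * h⁻¹ := by
      show (h * y * (aA 0 * aA 1)) * (aA 0 * aA 0) * (h * y * (aA 0 * aA 1))⁻¹ = _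
      have h8 : (aA 1 : A m) * aA 1 =
          (aA 0 * aA 1) * (aA 0 * aA 0) * (aA 0 * aA 1)⁻¹ := by
        conv_lhs => rw [← hbr]
        group
      rw [h8]
      group
    have hcd : Commute (y * (aA 1 * aA 1) * y⁻¹) (dA : A m) :=
      (hyd.mul_left (had.mul_left had)).mul_left hyd.inv_left
    have hcomm : sqP (h * y * (aA 0 * aA 1)) * dP h = dP h * sqP (h * y * (aA 0 * aA 1)) := by
      apply Subtype.ext
      rw [Subgroup.coe_mul, Subgroup.coe_mul, hval]
      show h * (y * (aA 1 * aA 1) * y⁻¹) * h⁻¹ * (h * dA * h⁻¹) =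
        h * dA * h⁻¹ * (h * (y * (aA 1 * aA 1) * y⁻¹) * h⁻¹)
      calc h * (y * (aA 1 * aA 1) * y⁻¹) * h⁻¹ * (h * dA * h⁻¹)
          = h * ((y * (aA 1 * aA 1) * y⁻¹) * dA) * h⁻¹ := by group
        _ = h * (dA * (y * (aA 1 * aA 1) * y⁻¹)) * h⁻¹ := by rw [hcd.eq]
        _ = h * dA * h⁻¹ * (h * (y * (aA 1 * aA 1) * y⁻¹) * h⁻¹) := by group
    have h9 : g (sqP (h * y * (aA 0 * aA 1))) * g (dP h) =
        g (dP h) * g (sqP (h * y * (aA 0 * aA 1))) := by
      rw [← map_mul, ← map_mul, hcomm]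
    exact one_of_comm h9 hx h1

end Pool.Agent.Helper38.BN
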