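import Pool.Agent.Helper38.BN.B6W

/-!
# Project BN, block B6, piece B6-C: centralizers
-/

namespace Pool.Agent.Helper38.BN

open Monoid

section
variable {ι : Type} {M : ι → Type} [∀ o, Group (M o)]

private lemma caux_head {i j : ι} {x : M i} {y : M j} (n : ℕ) :
    ∀ q ∈ (rep n ([⟨i, x⟩, ⟨j, y⟩] : List (Σ o, M o))).head?, q.1 = i := by
  intro q hq
  cases n with
  | zero => simp at hq
  | succ n =>
    rw [rep_succ] at hq
    simp only [List.cons_append, List.head?_cons, Option.mem_def, Option.some.injEq] at hq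
    subst hq
    rfl

private lemma caux_last {i j : ι} {x : M i} {y : M j} (n : ℕ) :
    ∀ q ∈ (rep n ([⟨i, x⟩, ⟨j, y⟩] : List (Σ o, M o))).getLast?, q.1 = j := by
  induction n with
  | zero => intro q hq; simp at hq
  | succ n ih =>
    intro q hq
    rw [rep_succ] at hq
    rcases List.eq_nil_or_concat (rep n ([⟨i, x⟩, ⟨j, y⟩] : List (Σ o, M o))) with h | ⟨l, a, h⟩
    · rw [h] at hq
      simp only [List.append_nil, List.getLast?_cons_cons, List.getLast?_singleton, Option.mem_def,
        Option.some.injEq] at hq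
      subst hq
      rfl
    · apply ih
      rw [h] at hq ⊢
      rw [List.concat_eq_append] at hq ⊢
      rw [← List.append_assoc, List.getLast?_append] at hq
      rw [List.getLast?_append]
      simpa using hq

private lemma caux_RW {i j : ι} (hij : i ≠ j) {x : M i} {y : M j} (hx : x ≠ 1) (hy : y ≠ 1)
    (n : ℕ) : RW (rep n ([⟨i, x⟩, ⟨j, y⟩] : List (Σ o, M o))) := by
  induction n with
  | zero => exact RW_nil
  | succ n ih =>
    rw [rep_succ, RW_append]
    refine ⟨?_, ih, ?_⟩
    · rw [RW_cons]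
      refine ⟨hx, RW_single hy, ?_⟩
      intro q hq
      simp only [List.head?_cons, Option.mem_def, Option.some.injEq] at hq
      subst hq
      exact hij
    · intro p hp q hq
      simp only [List.getLast?_cons_cons, List.getLast?_singleton, Option.mem_def,
        Option.some.injEq] at hp
      subst hp
      rw [caux_head n q hq]
      exact hij.symm

private lemma caux_len (n : ℕ) (l : List (Σ o, M o)) : (rep n l).length = n * l.length := by
  induction n with
  | zero => simp
  | succ n ih => rw [rep_succ, List.length_append, ih]; ring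

private lemma caux_prefix {α : Type} (a b : α) (K : ℕ) : ∀ U : List α, U <+: rep K [a, b] →
    ∃ N : ℕ, U = rep N [a, b] ∨ U = rep N [a, b] ++ [a] := by
  induction K with
  | zero =>
    intro U hU
    rw [rep_zero] at hU
    exact ⟨0, Or.inl (by rw [rep_zero]; exact List.prefix_nil.1 hU)⟩
  | succ K ih =>
    intro U hU
    rw [rep_succ] at hU
    match U, hU with
    | [], _ => exact ⟨0, Or.inl (by simp)⟩
    | [c], hU =>
      simp only [List.cons_append, List.nil_append, List.cons_prefix_cons] at hU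
      exact ⟨0, Or.inr (by rw [hU.1]; simp)⟩
    | c :: d :: U', hU =>
      simp only [List.cons_append, List.nil_append, List.cons_prefix_cons] at hU
      obtain ⟨rfl, rfl, hU'⟩ := hU
      obtain ⟨N, h | h⟩ := ih U' hU'
      · exact ⟨N + 1, Or.inl (by rw [rep_succ, h]; simp)⟩
      · exact ⟨N + 1, Or.inr (by rw [rep_succ, h]; simp)⟩

/-- piece `B6-C1`: Proof. Let `B = [⟨i, x⟩, ⟨j, y⟩]`, `s = vl B`, and let the last syllable of `U` be
not in the factor `i` and the first syllable of `U` not in the factor `j`. For `N` large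
(`n N * 2 ≥ U.length`) the lists `U ++ rep (n N) B` and `rep (n N) B ++ U` are reduced with the same
value `vl U * s ^ (n N) = s ^ (n N) * vl U`, so they are equal (`rw_uniq`). So `U` is the prefix of
length `U.length` of `rep (n N) B`; a prefix of `rep k B` is `rep N' B` or `rep N' B ++ [⟨i, x⟩]`
(induction), and the second is excluded because the last syllable of `U` is not in the factor `i`. -/
theorem cent_aux {i j : ι} (hij : i ≠ j) {x : M i} {y : M j} (hx : x ≠ 1) (hy : y ≠ 1)
    {U : List (Σ o, M o)} (hU : RW U) (h1 : ∀ p ∈ U.getLast?, p.1 ≠ i)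
    (h2 : ∀ p ∈ U.head?, p.1 ≠ j) {n : ℕ} (hn : 0 < n)
    (hc : (CoprodI.of x * CoprodI.of y) ^ n * vl U = vl U * (CoprodI.of x * CoprodI.of y) ^ n) :
    ∃ N : ℕ, U = rep N [⟨i, x⟩, ⟨j, y⟩] := by
  have hs : vl ([⟨i, x⟩, ⟨j, y⟩] : List (Σ o, M o)) = CoprodI.of x * CoprodI.of y := by
    simp
  have hc1 : Commute ((CoprodI.of x * CoprodI.of y) ^ n : CoprodI M) (vl U) := hc
  have hc2 : Commute ((CoprodI.of x * CoprodI.of y) ^ (n * U.length) : CoprodI M) (vl U) := by
    rw [pow_mul]
    exact hc1.pow_left _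
  have hL : RW (U ++ rep (n * U.length) [⟨i, x⟩, ⟨j, y⟩]) := by
    rw [RW_append]
    refine ⟨hU, caux_RW hij hx hy _, ?_⟩
    intro p hp q hq
    rw [caux_head _ q hq]
    exact h1 p hp
  have hR : RW (rep (n * U.length) [⟨i, x⟩, ⟨j, y⟩] ++ U) := by
    rw [RW_append]
    refine ⟨caux_RW hij hx hy _, hU, ?_⟩
    intro p hp q hq
    rw [caux_last _ p hp]
    exact (h2 q hq).symm
  have hv : vl (U ++ rep (n * U.length) [⟨i, x⟩, ⟨j, y⟩]) =
      vl (rep (n * U.length) [⟨i, x⟩, ⟨j, y⟩] ++ U) := by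
    rw [vl_append, vl_append, vl_rep, hs]
    exact hc2.symm
  have he := rw_uniq hL hR hv
  have hlen : U.length ≤ (rep (n * U.length) ([⟨i, x⟩, ⟨j, y⟩] : List (Σ o, M o))).length := by
    rw [caux_len]
    simp only [List.length_cons, List.length_nil]
    nlinarith [Nat.mul_le_mul_right U.length hn, Nat.zero_le (n * U.length)]
  have hpre : U <+: rep (n * U.length) ([⟨i, x⟩, ⟨j, y⟩] : List (Σ o, M o)) := by
    refine List.prefix_of_prefix_length_le (l₃ :=
      rep (n * U.length) ([⟨i, x⟩, ⟨j, y⟩] : List (Σ o, M o)) ++ U) ?_ ?_ hlen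
    · rw [← he]
      exact List.prefix_append _ _
    · exact List.prefix_append _ _
  obtain ⟨N, h | h⟩ := caux_prefix _ _ _ U hpre
  · exact ⟨N, h⟩
  · exfalso
    refine h1 ⟨i, x⟩ ?_ rfl
    rw [h]
    simp

private lemma cent_len_rep (n : ℕ) (l : List (Σ o, M o)) : (rep n l).length = n * l.length := by
  induction n with
  | zero => simp
  | succ n ih => rw [rep_succ, List.length_append, ih]; ring

private lemma cent_head_rep {i j : ι} {x : M i} {y : M j} (n : ℕ) :
    ∀ q ∈ (rep n ([⟨i, x⟩, ⟨j, y⟩] : List (Σ o, M o))).head?, q.1 = i := by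
  intro q hq
  cases n with
  | zero => simp at hq
  | succ n =>
    rw [rep_succ] at hq
    simp only [List.cons_append, List.head?_cons, Option.mem_def, Option.some.injEq] at hq
    subst hq
    rfl

private lemma cent_last_rep {i j : ι} {x : M i} {y : M j} (n : ℕ) :
    ∀ q ∈ (rep n ([⟨i, x⟩, ⟨j, y⟩] : List (Σ o, M o))).getLast?, q.1 = j := by
  induction n with
  | zero => intro q hq; simp at hq
  | succ n ih =>
    intro q hq
    rw [rep_succ] at hq
    rcases List.eq_nil_or_concat (rep n ([⟨i, x⟩, ⟨j, y⟩] : List (Σ o, M o))) with h | ⟨l, a, h⟩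
    · rw [h] at hq
      simp only [List.append_nil, List.getLast?_cons_cons, List.getLast?_singleton, Option.mem_def,
        Option.some.injEq] at hq
      subst hq
      rfl
    · apply ih
      rw [h] at hq ⊢
      rw [List.concat_eq_append] at hq ⊢
      rw [← List.append_assoc, List.getLast?_append] at hq
      rw [List.getLast?_append]
      simpa using hq

private lemma cent_RW_rep {i j : ι} (hij : i ≠ j) {x : M i} {y : M j} (hx : x ≠ 1) (hy : y ≠ 1)
    (n : ℕ) : RW (rep n ([⟨i, x⟩, ⟨j, y⟩] : List (Σ o, M o))) := by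
  induction n with
  | zero => exact RW_nil
  | succ n ih =>
    rw [rep_succ, RW_append]
    refine ⟨?_, ih, ?_⟩
    · rw [RW_cons]
      refine ⟨hx, RW_single hy, ?_⟩
      intro q hq
      simp only [List.head?_cons, Option.mem_def, Option.some.injEq] at hq
      subst hq
      exact hij
    · intro p hp q hq
      simp only [List.getLast?_cons_cons, List.getLast?_singleton, Option.mem_def,
        Option.some.injEq] at hp
      subst hp
      rw [cent_head_rep n q hq]
      exact hij.symm

private lemma cent_A {i j : ι} (hij : i ≠ j) {x : M i} {y : M j} (hx : x ≠ 1) (hy : y ≠ 1)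
    {U : List (Σ o, M o)} (hU : RW U) (hU0 : U ≠ []) (h2 : ∀ p ∈ U.head?, p.1 ≠ j) {n : ℕ}
    (hn : 0 < n)
    (hc : (CoprodI.of x * CoprodI.of y) ^ n * vl U = vl U * (CoprodI.of x * CoprodI.of y) ^ n) :
    ∃ N : ℕ, 0 < N ∧ U = rep N [⟨i, x⟩, ⟨j, y⟩] := by
  have h1 : ∀ p ∈ U.getLast?, p.1 ≠ i := by
    intro p hp hpi
    obtain ⟨U₁, hU₁⟩ : ∃ U₁, U = U₁ ++ [p] := by
      rcases List.eq_nil_or_concat U with h | ⟨l, a, h⟩
      · exact absurd h hU0
      · refine ⟨l, ?_⟩
        rw [h, List.concat_eq_append] at hp ⊢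
        rw [List.getLast?_append] at hp
        simp only [List.getLast?_singleton, Option.some_or, Option.mem_def,
          Option.some.injEq] at hp
        rw [hp]
    obtain ⟨o, z⟩ := p
    simp only at hpi
    subst hpi
    obtain ⟨n, rfl⟩ : ∃ n', n = n' + 1 := ⟨n - 1, by omega⟩
    have hr : RW (rep (n + 1) ([⟨o, x⟩, ⟨j, y⟩] : List (Σ o, M o)) ++ U) := by
      rw [RW_append]
      refine ⟨cent_RW_rep hij hx hy _, hU, ?_⟩
      intro p hp q hq
      rw [cent_last_rep _ p hp]
      exact (h2 q hq).symm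
    have hv : vl (rep (n + 1) ([⟨o, x⟩, ⟨j, y⟩] : List (Σ o, M o)) ++ U) =
        vl (U₁ ++ (⟨o, z * x⟩ :: ⟨j, y⟩ :: rep n ([⟨o, x⟩, ⟨j, y⟩] : List (Σ o, M o)))) := by
      rw [vl_append, vl_rep]
      simp only [vl_cons, vl_nil, vl_append, vl_rep, mul_one, map_mul]
      rw [hc, hU₁]
      simp only [vl_cons, vl_nil, vl_append, mul_one, pow_succ', mul_assoc]
    have hl := rw_len hr hv
    rw [hU₁] at hl
    simp only [List.length_append, cent_len_rep, List.length_cons, List.length_nil] at hl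
    omega
  obtain ⟨N, hN⟩ := cent_aux hij hx hy hU h1 h2 hn hc
  refine ⟨N, ?_, hN⟩
  rcases Nat.eq_zero_or_pos N with h | h
  · subst h
    rw [rep_zero] at hN
    exact absurd hN hU0
  · exact h

/-- piece `B6-C2`: an element which commutes with a power of `x y` (`x`, `y` in different factors)
is a power of `x y`, as a word.
Proof. `s = of x * of y`, `B = [⟨i, x⟩, ⟨j, y⟩]`, `B' = wi B = [⟨j, y⁻¹⟩, ⟨i, x⁻¹⟩]`,
`vl B' = s⁻¹`.
(a) If the first syllable of `U` is not in the factor `j`: let `n > 0` (otherwise invert). Then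
`rep n B ++ U` is reduced, of length `2 n + U.length`, with the value `s ^ n * vl U = vl U * s ^ n`. If
the last syllable of `U` is in the factor `i`, `U = U₁ ++ [⟨i, z⟩]`, then this is also the value of the
list `U₁ ++ (⟨i, z * x⟩ :: ⟨j, y⟩ :: rep (n-1) B)` of length `U.length + 2 n - 1`, a contradiction to
`rw_len`. So the last syllable of `U` is not in the factor `i`, and `cent_aux` applies.
(b) If the first syllable of `U` is in the factor `j`, then it is not in the factor `i`, and (a), with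
`B`, `s` replaced by `B'`, `s⁻¹` (and `i`, `j` exchanged), applies. -/
theorem cent {i j : ι} (hij : i ≠ j) {x : M i} {y : M j} (hx : x ≠ 1) (hy : y ≠ 1)
    {U : List (Σ o, M o)} (hU : RW U) (hU0 : U ≠ []) {n : ℤ} (hn : n ≠ 0)
    (hc : (CoprodI.of x * CoprodI.of y) ^ n * vl U = vl U * (CoprodI.of x * CoprodI.of y) ^ n) :
    ∃ N : ℕ, 0 < N ∧ (U = rep N [⟨i, x⟩, ⟨j, y⟩] ∨ U = rep N [⟨j, y⁻¹⟩, ⟨i, x⁻¹⟩]) := by
  have hc1 : Commute ((CoprodI.of x * CoprodI.of y) ^ n.natAbs) (vl U) := by
    have hc0 : Commute ((CoprodI.of x * CoprodI.of y) ^ n) (vl U) := hc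
    rcases Int.natAbs_eq n with h | h
    · rw [h, zpow_natCast] at hc0
      simpa using hc0
    · rw [h, zpow_neg, zpow_natCast] at hc0
      have := hc0.inv_left
      simpa using this
  have hn1 : 0 < n.natAbs := Int.natAbs_pos.2 hn
  by_cases hj : ∀ p ∈ U.head?, p.1 ≠ j
  · obtain ⟨N, hN, h⟩ := cent_A hij hx hy hU hU0 hj hn1 hc1
    exact ⟨N, hN, Or.inl h⟩
  · push Not at hj
    obtain ⟨p, hp, hpj⟩ := hj
    have hi : ∀ q ∈ U.head?, q.1 ≠ i := by
      intro q hq
      have hpq : p = q := Option.mem_unique hp hq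
      rw [← hpq, hpj]
      exact hij.symm
    have hc2 : (CoprodI.of y⁻¹ * CoprodI.of x⁻¹) ^ n.natAbs * vl U =
        vl U * (CoprodI.of y⁻¹ * CoprodI.of x⁻¹) ^ n.natAbs := by
      have e : (CoprodI.of y⁻¹ * CoprodI.of x⁻¹ : CoprodI M) =
          (CoprodI.of x * CoprodI.of y)⁻¹ := by
        rw [mul_inv_rev, map_inv, map_inv]
      rw [e, inv_pow]
      exact hc1.inv_left
    obtain ⟨N, hN, h⟩ := cent_A hij.symm (inv_ne_one.2 hy) (inv_ne_one.2 hx) hU hU0 hi hn1 hc2
    exact ⟨N, hN, Or.inr h⟩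

end

end Pool.Agent.Helper38.BN
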