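import Pool.Agent.Helper38.BN.B6P

/-!
# Project BN, block B6, pieces B6-U1, B6-U2, B6-U3: words of ascending or descending letters
-/

namespace Pool.Agent.Helper38.BN

open Monoid

section
variable {ι : Type} {M : ι → Type} [∀ o, Group (M o)] {m : ℕ} {e : ℕ → ι} {ix : ι → ℕ}

private theorem list_up_gs (hE : Enum m e ix) (γ : ∀ o, M o) (o : ι) :
    gs γ e (ix o) = CoprodI.of (γ o) := by
  unfold gs
  rw [hE.e_ix o]

private theorem list_up_aux (hE : Enum m e ix) {γ : ∀ o, M o} {p q : ℕ} (l : List (Σ o, M o)) :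
    (∀ a ∈ l, a.2 = γ a.1) →
    l.IsChain (fun a b => (ix a.1 < p + q ∧ ix b.1 = ix a.1 + 1) ∨
      (ix a.1 = p + q ∧ ix b.1 = p)) →
    (∀ a ∈ l.head?, ix a.1 = p) →
    ∀ a ∈ l.getLast?, p ≤ ix a.1 ∧ ix a.1 ≤ p + q ∧
      ∃ N : ℕ, vl l = gseg γ e p q ^ N * gseg γ e p (ix a.1 - p) := by
  induction l using List.reverseRecOn with
  | nil => intro _ _ _ a ha; simp at ha
  | append_singleton l b ih =>
    intro hP hc hh a ha
    have hab : a = b := by
      simp only [List.getLast?_append, List.getLast?_singleton, Option.mem_def] at ha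
      simpa using ha.symm
    subst hab
    have hb : (CoprodI.of a.2 : CoprodI M) = gs γ e (ix a.1) := by
      rw [list_up_gs hE, hP a (by simp)]
    rcases List.eq_nil_or_concat l with rfl | ⟨l', c, rfl⟩
    · have h1 : ix a.1 = p := hh a (by simp)
      refine ⟨h1.ge, by omega, 0, ?_⟩
      rw [List.nil_append, vl_cons, vl_nil, hb, h1]
      simp [gseg]
    · rw [List.isChain_append] at hc
      obtain ⟨hc1, _, hc3⟩ := hc
      obtain ⟨h1, h2, N, hN⟩ := ih (fun x hx => hP x (List.mem_append_left _ hx)) hc1
        (fun x hx => hh x (by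
          rw [List.head?_append]
          rw [Option.mem_def] at hx
          rw [hx]; rfl)) c (by simp)
      have hR := hc3 c (by simp) a (by simp)
      rw [vl_append, vl_cons, vl_nil, mul_one, hb, hN]
      rcases hR with ⟨h3, h4⟩ | ⟨h3, h4⟩
      · refine ⟨by omega, by omega, N, ?_⟩
        have e1 : ix a.1 - p = (ix c.1 - p) + 1 := by omega
        rw [e1, gseg, mul_assoc]
        congr 2
        congr 1
        omega
      · refine ⟨by omega, by omega, N + 1, ?_⟩
        have e1 : ix c.1 - p = q := by omega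
        have e2 : ix a.1 - p = 0 := by omega
        rw [e1, e2, gseg, h4, pow_succ]

/-- piece `B6-U1`: ascending words.
Proof. Claim, for `l ≠ []` without the condition `hl` on the last letter: if `a` is the last letter,
`vl l = (gseg γ e p q) ^ N * gseg γ e p (ix a.1 - p)` for some `N`. Induction from the right
(`List.reverseRecOn`): `l = [a]`: `ix a.1 = p`, `vl [a] = gs γ e p` (as `a.2 = γ a.1` and
`e (ix a.1) = a.1`, `hE.e_ix`; note `a = sy γ e (ix a.1)`). Step `l ++ [b]`, `a` the last letter of `l`:
if `ix b.1 = ix a.1 + 1 ≤ p + q`, then `gseg γ e p (ix a.1 - p) * gs γ e (ix b.1) =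
gseg γ e p (ix b.1 - p)` by definition. If `ix a.1 = p + q` and `ix b.1 = p`:
`gseg ^ N * gseg = gseg ^ (N + 1)` and `gs γ e p = gseg γ e p 0`. With `hl` the last factor is
`gseg γ e p q`. -/
theorem list_up (hE : Enum m e ix) {γ : ∀ o, M o} {p q : ℕ} {l : List (Σ o, M o)} (h0 : l ≠ [])
    (hP : ∀ a ∈ l, a.2 = γ a.1)
    (hc : l.IsChain (fun a b => (ix a.1 < p + q ∧ ix b.1 = ix a.1 + 1) ∨
      (ix a.1 = p + q ∧ ix b.1 = p)))
    (hh : ∀ a ∈ l.head?, ix a.1 = p) (hl : ∀ a ∈ l.getLast?, ix a.1 = p + q) :
    ∃ N : ℕ, vl l = gseg γ e p q ^ N := by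
  have ha : l.getLast h0 ∈ l.getLast? := by
    rw [List.getLast?_eq_getLast_of_ne_nil h0]; rfl
  obtain ⟨_, _, N, hN⟩ := list_up_aux hE l hP hc hh _ ha
  refine ⟨N + 1, ?_⟩
  have e1 : ix (l.getLast h0).1 - p = q := by
    have := hl _ ha
    omega
  rw [hN, e1, pow_succ]

/-- piece `B6-U1`: descending words.
Proof. `list_up` for `wi l`, `vl (wi l) = (vl l)⁻¹`. -/
theorem list_dn (hE : Enum m e ix) {γ : ∀ o, M o} {p q : ℕ} {l : List (Σ o, M o)} (h0 : l ≠ [])
    (hP : ∀ a ∈ l, a.2 = (γ a.1)⁻¹)
    (hc : l.IsChain (fun a b => (p < ix a.1 ∧ ix b.1 + 1 = ix a.1) ∨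
      (ix a.1 = p ∧ ix b.1 = p + q)))
    (hr : ∀ a ∈ l, p ≤ ix a.1 ∧ ix a.1 ≤ p + q)
    (hh : ∀ a ∈ l.head?, ix a.1 = p + q) (hl : ∀ a ∈ l.getLast?, ix a.1 = p) :
    ∃ N : ℕ, vl l = (gseg γ e p q ^ N)⁻¹ := by
  have h1 : wi l ≠ [] := by
    simpa [wi] using h0
  have h2 : ∀ a ∈ wi l, a.2 = γ a.1 := by
    intro a ha
    simp only [wi, List.mem_reverse, List.mem_map] at ha
    obtain ⟨b, hb, rfl⟩ := ha
    show b.2⁻¹ = γ b.1
    rw [hP b hb, inv_inv]
  have h3 : (wi l).IsChain (fun a b => (ix a.1 < p + q ∧ ix b.1 = ix a.1 + 1) ∨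
      (ix a.1 = p + q ∧ ix b.1 = p)) := by
    unfold wi
    rw [List.isChain_reverse, List.isChain_map]
    refine List.IsChain.imp_of_mem_imp (fun a b ha hb hab => ?_) hc
    have ha' := hr a ha
    have hb' := hr b hb
    show (ix b.1 < p + q ∧ ix a.1 = ix b.1 + 1) ∨ (ix b.1 = p + q ∧ ix a.1 = p)
    omega
  obtain ⟨N, hN⟩ := list_up hE h1 h2 h3
    (fun a ha => by
      simp only [wi, List.head?_reverse, List.getLast?_map, Option.mem_def,
        Option.map_eq_some_iff] at ha
      obtain ⟨b, hb, rfl⟩ := ha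
      exact hl b hb)
    (fun a ha => by
      simp only [wi, List.getLast?_reverse, List.head?_map, Option.mem_def,
        Option.map_eq_some_iff] at ha
      obtain ⟨b, hb, rfl⟩ := ha
      exact hh b hb)
  refine ⟨N, ?_⟩
  rw [← hN, vl_wi, inv_inv]

private theorem cyc_conj (W : List (Σ o, M o)) (n : ℕ) :
    ∃ g : CoprodI M, vl W = g * vl (W.rotate n) * g⁻¹ := by
  refine ⟨vl (W.take (n % W.length)), ?_⟩
  rw [List.rotate_eq_drop_append_take_mod, vl_append]
  conv_lhs => rw [← List.take_append_drop (n % W.length) W, vl_append]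
  group

private theorem cyc_rot_get {W : List (Σ o, M o)} (hW : W ≠ []) (t : ℤ) (q : ℕ)
    (hq : q < (W.rotate (t % W.length).toNat).length) :
    cyc W (t + q) = some (W.rotate (t % W.length).toNat)[q] := by
  have h1 : q < W.length := by rwa [List.length_rotate] at hq
  rw [← cyc_rotate hW t h1, List.getElem?_eq_getElem hq]

/-- piece `B6-U2`: if all letters of the cyclic sequence of `W` are ascending (or all descending)
then `vl W` is conjugate to a power of `gseg γ e 0 m`.
Proof. `f = idx m ix (cyc W)` has values `≤ m` (`cyc_some`, `hE.le`). Ascending: if `f t < m` then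
`f (t+1) = f t + 1`; if `f t = m` then `f (t+1) = 0`: otherwise `0 < f (t+1)` and `f t + 1 = f (t+1) ≤ m`.
So there is `t₀` with `f t₀ = 0` (start at `0` and go up). Let `n = (t₀ % L).toNat`, `l = W.rotate n`;
`vl W = g * vl l * g⁻¹` with `g = vl (W.take (n % L))` (`List.rotate_eq_drop_append_take_mod`). The letters
of `l` are `cyc W (t₀ + q)`, `q < L` (`cyc_rotate`), so `l` satisfies the hypotheses of `list_up` with
`p = 0`, `q = m`; its last letter is that of `t₀ + L - 1`, with the same index as `t₀ - 1`, which is `m`,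
because otherwise `f t₀ = f (t₀ - 1) + 1 > 0`. Descending: the same with `list_dn`: if `f t > 0` then
`f (t+1) + 1 = f t`; if `f t = 0` then `f (t+1) = m` (otherwise `f (t+1) < m` and so
`f t = f (t+1) + 1`). -/
theorem cyc_concl (hE : Enum m e ix) {γ : ∀ o, M o} {W : List (Σ o, M o)} (hW : W ≠ [])
    (h : (∀ t, UpT (idx m ix (cyc W)) (Po γ (cyc W)) 0 m t) ∨
      (∀ t, DnT (idx m ix (cyc W)) (Ne γ (cyc W)) 0 m t)) :
    ∃ (g : CoprodI M) (n : ℤ), vl W = g * gseg γ e 0 m ^ n * g⁻¹ := by
  have hle : ∀ t, idx m ix (cyc W) t ≤ m := by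
    intro t
    obtain ⟨x, -, hx⟩ := cyc_some hW t
    unfold idx
    rw [hx]
    exact hE.le x.1
  rcases h with h | h
  · have hstep : ∀ t, (idx m ix (cyc W) t < m ∧ idx m ix (cyc W) (t + 1) = idx m ix (cyc W) t + 1) ∨
        (idx m ix (cyc W) t = m ∧ idx m ix (cyc W) (t + 1) = 0) := by
      intro t
      have h1 := hle t
      have h2 := hle (t + 1)
      obtain ⟨-, h3, -⟩ := h t
      obtain ⟨-, -, h4⟩ := h (t + 1)
      rw [add_sub_cancel_right] at h4
      by_cases h5 : idx m ix (cyc W) t < m
      · exact Or.inl ⟨h5, (h3 h5).1⟩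
      · right
        refine ⟨by omega, ?_⟩
        by_contra h6
        have := (h4 (by omega)).1
        omega
    have hex : ∀ (n : ℕ) (t : ℤ), m - idx m ix (cyc W) t ≤ n → ∃ t₀, idx m ix (cyc W) t₀ = 0 := by
      intro n
      induction n with
      | zero =>
        intro t ht
        rcases hstep t with ⟨h1, h2⟩ | ⟨h1, h2⟩
        · omega
        · exact ⟨_, h2⟩
      | succ n ih =>
        intro t ht
        rcases hstep t with ⟨h1, h2⟩ | ⟨h1, h2⟩
        · exact ih (t + 1) (by omega)
        · exact ⟨_, h2⟩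
    obtain ⟨t₀, ht₀⟩ := hex _ 0 le_rfl
    obtain ⟨g, hg⟩ := cyc_conj W (t₀ % W.length).toNat
    have hget := cyc_rot_get hW t₀
    have hlen : (W.rotate (t₀ % W.length).toNat).length = W.length := List.length_rotate ..
    have hpos : 0 < W.length := List.length_pos_of_ne_nil hW
    have hper := cyc_period W (t₀ - 1)
    generalize W.rotate (t₀ % W.length).toNat = l at hg hget hlen
    have hix : ∀ (q : ℕ) (hq : q < l.length), idx m ix (cyc W) (t₀ + q) = ix l[q].1 := by
      intro q hq
      unfold idx
      rw [hget q hq]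
    have hl0 : l ≠ [] := List.ne_nil_of_length_pos (by omega)
    obtain ⟨N, hN⟩ := list_up (γ := γ) (p := 0) (q := m) hE hl0 (by
      intro x hx
      obtain ⟨j, hj, rfl⟩ := List.getElem_of_mem hx
      obtain ⟨y, hy1, hy2⟩ := (h (t₀ + j)).1
      rw [hget j hj, Option.some.injEq] at hy1
      rw [hy1]
      exact hy2) (by
      rw [List.isChain_iff_getElem]
      intro j hj
      have h1 := hstep (t₀ + j)
      have e1 := hix j (by omega)
      have e2 := hix (j + 1) hj
      rw [show t₀ + ((j + 1 : ℕ) : ℤ) = t₀ + j + 1 by push_cast; ring] at e2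
      rw [e1, e2] at h1
      rw [zero_add]
      exact h1) (by
      intro x hx
      have hx' : l[0] = x := by
        rw [List.head?_eq_getElem?, List.getElem?_eq_getElem (by omega)] at hx
        simpa using hx
      have e1 := hix 0 (by omega)
      rw [← hx', ← e1]
      simpa using ht₀) (by
      intro x hx
      have hx' : l[l.length - 1] = x := by
        rw [List.getLast?_eq_getElem?, List.getElem?_eq_getElem (by omega)] at hx
        simpa using hx
      have e1 := hix (l.length - 1) (by omega)
      have e2 : idx m ix (cyc W) (t₀ + ((l.length - 1 : ℕ) : ℤ)) = idx m ix (cyc W) (t₀ - 1) := by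
        unfold idx
        rw [show t₀ + ((l.length - 1 : ℕ) : ℤ) = t₀ - 1 + W.length by omega, hper]
      have h1 := hstep (t₀ - 1)
      rw [sub_add_cancel, ht₀] at h1
      rw [← hx', ← e1, e2]
      omega)
    exact ⟨g, N, by rw [hg, hN, zpow_natCast]⟩
  · have hstep : ∀ t, (0 < idx m ix (cyc W) t ∧ idx m ix (cyc W) (t + 1) + 1 = idx m ix (cyc W) t) ∨
        (idx m ix (cyc W) t = 0 ∧ idx m ix (cyc W) (t + 1) = m) := by
      intro t
      have h1 := hle t
      have h2 := hle (t + 1)
      obtain ⟨-, -, h3⟩ := h t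
      obtain ⟨-, h4, -⟩ := h (t + 1)
      rw [add_sub_cancel_right] at h4
      by_cases h5 : 0 < idx m ix (cyc W) t
      · exact Or.inl ⟨h5, (h3 h5).1⟩
      · right
        refine ⟨by omega, ?_⟩
        by_contra h6
        have := (h4 (by omega)).1
        omega
    have hex : ∀ (n : ℕ) (t : ℤ), idx m ix (cyc W) t ≤ n → ∃ t₀, idx m ix (cyc W) t₀ = m := by
      intro n
      induction n with
      | zero =>
        intro t ht
        rcases hstep t with ⟨h1, h2⟩ | ⟨h1, h2⟩
        · omega
        · exact ⟨_, h2⟩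
      | succ n ih =>
        intro t ht
        rcases hstep t with ⟨h1, h2⟩ | ⟨h1, h2⟩
        · exact ih (t + 1) (by omega)
        · exact ⟨_, h2⟩
    obtain ⟨t₀, ht₀⟩ := hex _ 0 le_rfl
    obtain ⟨g, hg⟩ := cyc_conj W (t₀ % W.length).toNat
    have hget := cyc_rot_get hW t₀
    have hlen : (W.rotate (t₀ % W.length).toNat).length = W.length := List.length_rotate ..
    have hpos : 0 < W.length := List.length_pos_of_ne_nil hW
    have hper := cyc_period W (t₀ - 1)
    generalize W.rotate (t₀ % W.length).toNat = l at hg hget hlen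
    have hix : ∀ (q : ℕ) (hq : q < l.length), idx m ix (cyc W) (t₀ + q) = ix l[q].1 := by
      intro q hq
      unfold idx
      rw [hget q hq]
    have hl0 : l ≠ [] := List.ne_nil_of_length_pos (by omega)
    obtain ⟨N, hN⟩ := list_dn (γ := γ) (p := 0) (q := m) hE hl0 (by
      intro x hx
      obtain ⟨j, hj, rfl⟩ := List.getElem_of_mem hx
      obtain ⟨y, hy1, hy2⟩ := (h (t₀ + j)).1
      rw [hget j hj, Option.some.injEq] at hy1
      rw [hy1]
      exact hy2) (by
      rw [List.isChain_iff_getElem]
      intro j hj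
      have h1 := hstep (t₀ + j)
      have e1 := hix j (by omega)
      have e2 := hix (j + 1) hj
      rw [show t₀ + ((j + 1 : ℕ) : ℤ) = t₀ + j + 1 by push_cast; ring] at e2
      rw [e1, e2] at h1
      rw [zero_add]
      exact h1) (by
      intro x _
      have := hE.le x.1
      omega) (by
      intro x hx
      have hx' : l[0] = x := by
        rw [List.head?_eq_getElem?, List.getElem?_eq_getElem (by omega)] at hx
        simpa using hx
      have e1 := hix 0 (by omega)
      rw [← hx', ← e1, zero_add]
      simpa using ht₀) (by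
      intro x hx
      have hx' : l[l.length - 1] = x := by
        rw [List.getLast?_eq_getElem?, List.getElem?_eq_getElem (by omega)] at hx
        simpa using hx
      have e1 := hix (l.length - 1) (by omega)
      have e2 : idx m ix (cyc W) (t₀ + ((l.length - 1 : ℕ) : ℤ)) = idx m ix (cyc W) (t₀ - 1) := by
        unfold idx
        rw [show t₀ + ((l.length - 1 : ℕ) : ℤ) = t₀ - 1 + W.length by omega, hper]
      have h1 := hstep (t₀ - 1)
      have h2 := hle (t₀ - 1)
      rw [sub_add_cancel, ht₀] at h1
      rw [← hx', ← e1, e2]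
      omega)
    exact ⟨g, -(N : ℤ), by rw [hg, hN, zpow_neg, zpow_natCast]⟩

/-- piece `B6-U3`: the maximal segments of a run in a list.
Proof. Let `f = idx m ix (lin W)`, `a = V₁.length`, `b = a + U.length - 1`: the letters of `U` are at the
positions `a, …, b` of `lin W`; `f` has its values in `[p, p+q]` there, and not at `a - 1`, `b + 1`
(these are letters of `V₁`, `V₂`, or `f = m + 7 > p + q`). Let `up` be from `run` (with `p' = p + q`;
`hadj`: for `f t ∈ [p, p+q]`: if `t + 1` is a position of `W`, then `f t ≠ f (t+1)` because `W` is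
reduced and `ix` is injective (`hE.e_ix`), otherwise `f (t+1) = m + 7`). `up` is constant on `[a, b]`
(induction). If `up` holds: all letters of `U` are ascending. `f a = p`: otherwise `p < f a` and
`f (a-1) + 1 = f a`, so `f (a-1) ∈ [p, p+q]`, a contradiction. `f b = p + q`: otherwise
`f (b+1) = f b + 1 ≤ p + q`. Consecutive letters of `U`: `f t < p + q` gives `f (t+1) = f t + 1`; if
`f t = p + q` then `f (t+1) = p`, because otherwise `p < f (t+1)` and `f t + 1 = f (t+1) ≤ p + q`. So
`list_up` applies. If `up` does not hold: the same with descending letters and `list_dn`. -/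
theorem seg_run (hE : Enum m e ix) {γ : ∀ o, M o} {W : List (Σ o, M o)} (hW : RW W) {p q : ℕ}
    (hq : 0 < q) (hm : p + q ≤ m)
    (hL : ∀ i, p ≤ i → i < p + q → Loc (idx m ix (lin W)) (Po γ (lin W)) (Ne γ (lin W)) i)
    {V₁ U V₂ : List (Σ o, M o)} (hV : W = V₁ ++ (U ++ V₂)) (hU0 : U ≠ [])
    (hU : ∀ a ∈ U, p ≤ ix a.1 ∧ ix a.1 ≤ p + q)
    (hh : ∀ a ∈ V₂.head?, ¬ (p ≤ ix a.1 ∧ ix a.1 ≤ p + q))
    (hl : ∀ a ∈ V₁.getLast?, ¬ (p ≤ ix a.1 ∧ ix a.1 ≤ p + q)) :
    ∃ n : ℤ, vl U = gseg γ e p q ^ n := by
  have hmid : ∀ (j : ℕ) (hj : j < U.length), lin W ((V₁.length : ℤ) + j) = some U[j] := by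
    intro j hj
    unfold lin
    rw [if_pos (by omega), show ((V₁.length : ℤ) + j).toNat = V₁.length + j by omega, hV,
      List.getElem?_append_right (by omega), List.getElem?_append_left (by omega),
      show V₁.length + j - V₁.length = j by omega, List.getElem?_eq_getElem hj]
  have hfm : ∀ (j : ℕ) (hj : j < U.length),
      idx m ix (lin W) ((V₁.length : ℤ) + j) = ix U[j].1 := by
    intro j hj
    unfold idx
    rw [hmid j hj]
  have hn0 : 0 < U.length := List.length_pos_of_ne_nil hU0
  have hleft : ¬ (p ≤ idx m ix (lin W) ((V₁.length : ℤ) - 1) ∧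
      idx m ix (lin W) ((V₁.length : ℤ) - 1) ≤ p + q) := by
    rcases List.eq_nil_or_concat V₁ with h | ⟨V, x, h⟩
    · subst h
      have : lin W (((([] : List (Σ o, M o)).length : ℕ) : ℤ) - 1) = none := by
        unfold lin
        rw [if_neg (by simp)]
      unfold idx
      rw [this]
      rintro ⟨-, h2⟩
      simp only at h2
      omega
    · have h1 : lin W ((V₁.length : ℤ) - 1) = some x := by
        have hlen : V₁.length = V.length + 1 := by rw [h]; simp
        unfold lin
        rw [if_pos (by omega), show ((V₁.length : ℤ) - 1).toNat = V.length by omega, hV,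
          List.getElem?_append_left (by omega), h]
        simp
      have h2 := hl x (by rw [h]; simp)
      unfold idx
      rw [h1]
      exact h2
  have hright : ¬ (p ≤ idx m ix (lin W) ((V₁.length : ℤ) + U.length) ∧
      idx m ix (lin W) ((V₁.length : ℤ) + U.length) ≤ p + q) := by
    have h0 : lin W ((V₁.length : ℤ) + U.length) = V₂.head? := by
      unfold lin
      rw [if_pos (by omega), show ((V₁.length : ℤ) + U.length).toNat = V₁.length + U.length by omega,
        hV, List.getElem?_append_right (by omega), List.getElem?_append_right (by omega),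
        show V₁.length + U.length - V₁.length - U.length = 0 by omega, List.head?_eq_getElem?]
    unfold idx
    rw [h0]
    cases h : V₂.head? with
    | none =>
      rintro ⟨-, h2⟩
      simp only at h2
      omega
    | some x => exact hh x (by rw [h]; rfl)
  have hadj : ∀ t, p ≤ idx m ix (lin W) t → idx m ix (lin W) t ≤ p + q →
      idx m ix (lin W) t ≠ idx m ix (lin W) (t + 1) := by
    intro t h1 h2 h3
    cases hx : lin W t with
    | none =>
      unfold idx at h2
      rw [hx] at h2
      simp only at h2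
      omega
    | some x =>
      have ht : 0 ≤ t := by
        by_contra hc
        unfold lin at hx
        rw [if_neg hc] at hx
        exact absurd hx (by simp)
      have hfx : idx m ix (lin W) t = ix x.1 := by
        unfold idx
        rw [hx]
      have hle := hE.le x.1
      cases hy : lin W (t + 1) with
      | none =>
        have : idx m ix (lin W) (t + 1) = m + 7 := by
          unfold idx
          rw [hy]
        omega
      | some y =>
        have hfy : idx m ix (lin W) (t + 1) = ix y.1 := by
          unfold idx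
          rw [hy]
        unfold lin at hx hy
        rw [if_pos ht] at hx
        rw [if_pos (by omega), show (t + 1).toNat = t.toNat + 1 by omega] at hy
        obtain ⟨i1, e1⟩ := List.getElem?_eq_some_iff.1 hx
        obtain ⟨i2, e2⟩ := List.getElem?_eq_some_iff.1 hy
        have h4 := List.isChain_iff_getElem.1 hW.2 t.toNat i2
        rw [e1, e2] at h4
        apply h4
        rw [← hE.e_ix x.1, ← hE.e_ix y.1, ← hfx, ← hfy, h3]
  obtain ⟨up, u1, u2, u3⟩ := run (P := Po γ (lin W)) (Q := Ne γ (lin W)) (p := p) (p' := p + q)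
    (by omega) hL hadj
  have hin : ∀ j : ℕ, j < U.length → p ≤ idx m ix (lin W) ((V₁.length : ℤ) + j) ∧
      idx m ix (lin W) ((V₁.length : ℤ) + j) ≤ p + q := by
    intro j hj
    rw [hfm j hj]
    exact hU _ (List.getElem_mem hj)
  have hup : ∀ j : ℕ, j < U.length → (up (V₁.length : ℤ) ↔ up ((V₁.length : ℤ) + j)) := by
    intro j
    induction j with
    | zero =>
      intro _
      simp
    | succ j ih =>
      intro hj
      have h1 := hin j (by omega)
      have h2 := hin (j + 1) hj
      rw [ih (by omega)]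
      have h3 := u1 ((V₁.length : ℤ) + j) h1.1 h1.2
      rw [show (V₁.length : ℤ) + j + 1 = (V₁.length : ℤ) + (j + 1 : ℕ) by push_cast; ring] at h3
      exact h3 h2.1 h2.2
  have hsucc : ∀ j : ℕ, (V₁.length : ℤ) + j + 1 = (V₁.length : ℤ) + (j + 1 : ℕ) := fun j => by
    push_cast; ring
  have hlast : (V₁.length : ℤ) + (U.length - 1 : ℕ) + 1 = (V₁.length : ℤ) + U.length := by
    omega
  by_cases h : up (V₁.length : ℤ)
  · have hT : ∀ j : ℕ, j < U.length →
        UpT (idx m ix (lin W)) (Po γ (lin W)) p (p + q) ((V₁.length : ℤ) + j) := fun j hj =>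
      u2 _ (hin j hj).1 (hin j hj).2 ((hup j hj).1 h)
    obtain ⟨N, hN⟩ := list_up (γ := γ) (p := p) (q := q) hE hU0 (by
      intro x hx
      obtain ⟨j, hj, rfl⟩ := List.getElem_of_mem hx
      obtain ⟨y, hy1, hy2⟩ := (hT j hj).1
      rw [hmid j hj, Option.some.injEq] at hy1
      rw [hy1]
      exact hy2) (by
      rw [List.isChain_iff_getElem]
      intro j hj
      have h1 := hT j (by omega)
      have h2 := hT (j + 1) hj
      have h3 := hin j (by omega)
      have h4 := hin (j + 1) hj
      have e1 := hfm j (by omega)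
      have e2 := hfm (j + 1) hj
      obtain ⟨-, h5, -⟩ := h1
      obtain ⟨-, -, h6⟩ := h2
      rw [hsucc] at h5
      rw [show (V₁.length : ℤ) + (j + 1 : ℕ) - 1 = (V₁.length : ℤ) + j by push_cast; ring] at h6
      rw [e1] at h5 h6 h3
      rw [e2] at h5 h6 h4
      by_cases h7 : ix U[j].1 < p + q
      · exact Or.inl ⟨h7, (h5 h7).1⟩
      · right
        refine ⟨by omega, ?_⟩
        by_contra h8
        have := (h6 (by omega)).1
        omega) (by
      intro x hx
      have hx' : U[0] = x := by
        rw [List.head?_eq_getElem?, List.getElem?_eq_getElem hn0] at hx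
        simpa using hx
      have h1 := hT 0 hn0
      have h3 := hin 0 hn0
      have e1 := hfm 0 hn0
      obtain ⟨-, -, h6⟩ := h1
      rw [e1] at h3 h6
      rw [← hx']
      by_contra h8
      have h9 := (h6 (by omega)).1
      rw [show (V₁.length : ℤ) + (0 : ℕ) - 1 = (V₁.length : ℤ) - 1 by simp] at h9
      exact hleft ⟨by omega, by omega⟩) (by
      intro x hx
      have hx' : U[U.length - 1] = x := by
        rw [List.getLast?_eq_getElem?, List.getElem?_eq_getElem (by omega)] at hx
        simpa using hx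
      have h1 := hT (U.length - 1) (by omega)
      have h3 := hin (U.length - 1) (by omega)
      have e1 := hfm (U.length - 1) (by omega)
      obtain ⟨-, h6, -⟩ := h1
      rw [hlast] at h6
      rw [e1] at h3 h6
      rw [← hx']
      by_contra h8
      have h9 := (h6 (by omega)).1
      exact hright ⟨by omega, by omega⟩)
    exact ⟨N, by rw [hN, zpow_natCast]⟩
  · have hT : ∀ j : ℕ, j < U.length →
        DnT (idx m ix (lin W)) (Ne γ (lin W)) p (p + q) ((V₁.length : ℤ) + j) := fun j hj =>
      u3 _ (hin j hj).1 (hin j hj).2 (fun h' => h ((hup j hj).2 h'))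
    obtain ⟨N, hN⟩ := list_dn (γ := γ) (p := p) (q := q) hE hU0 (by
      intro x hx
      obtain ⟨j, hj, rfl⟩ := List.getElem_of_mem hx
      obtain ⟨y, hy1, hy2⟩ := (hT j hj).1
      rw [hmid j hj, Option.some.injEq] at hy1
      rw [hy1]
      exact hy2) (by
      rw [List.isChain_iff_getElem]
      intro j hj
      have h1 := hT j (by omega)
      have h2 := hT (j + 1) hj
      have h3 := hin j (by omega)
      have h4 := hin (j + 1) hj
      have e1 := hfm j (by omega)
      have e2 := hfm (j + 1) hj
      obtain ⟨-, -, h5⟩ := h1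
      obtain ⟨-, h6, -⟩ := h2
      rw [hsucc] at h5
      rw [show (V₁.length : ℤ) + (j + 1 : ℕ) - 1 = (V₁.length : ℤ) + j by push_cast; ring] at h6
      rw [e1] at h5 h6 h3
      rw [e2] at h5 h6 h4
      by_cases h7 : p < ix U[j].1
      · exact Or.inl ⟨h7, (h5 h7).1⟩
      · right
        refine ⟨by omega, ?_⟩
        by_contra h8
        have := (h6 (by omega)).1
        omega) hU (by
      intro x hx
      have hx' : U[0] = x := by
        rw [List.head?_eq_getElem?, List.getElem?_eq_getElem hn0] at hx
        simpa using hx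
      have h1 := hT 0 hn0
      have h3 := hin 0 hn0
      have e1 := hfm 0 hn0
      obtain ⟨-, h6, -⟩ := h1
      rw [e1] at h3 h6
      rw [← hx']
      by_contra h8
      have h9 := (h6 (by omega)).1
      rw [show (V₁.length : ℤ) + (0 : ℕ) - 1 = (V₁.length : ℤ) - 1 by simp] at h9
      exact hleft ⟨by omega, by omega⟩) (by
      intro x hx
      have hx' : U[U.length - 1] = x := by
        rw [List.getLast?_eq_getElem?, List.getElem?_eq_getElem (by omega)] at hx
        simpa using hx
      have h1 := hT (U.length - 1) (by omega)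
      have h3 := hin (U.length - 1) (by omega)
      have e1 := hfm (U.length - 1) (by omega)
      obtain ⟨-, -, h6⟩ := h1
      rw [hlast] at h6
      rw [e1] at h3 h6
      rw [← hx']
      by_contra h8
      have h9 := (h6 (by omega)).1
      exact hright ⟨by omega, by omega⟩)
    exact ⟨-(N : ℤ), by rw [hN, zpow_neg, zpow_natCast]⟩

/-- piece `B6-U1`: a subgroup which contains the values of the maximal segments contains the value
of the list.
Proof. `classical`; strong induction on the length of `V` for the statement: if `W = V₁ ++ V` and (the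
last letter of `V₁` and the first letter of `V` are not both in `S` and not both outside of `S`), then
`vl V ∈ H`. If `V ≠ []` and its first letter is in `S`: `U = V.takeWhile (S ·.1)`, `V' = V.dropWhile ..`;
`vl U ∈ H` by `h1` and `vl V' ∈ H` by induction (with `V₁ ++ U`). If it is not in `S`: the same with
`¬ S`. -/
theorem mem_of_seg (S : ι → Prop) (H : Subgroup (CoprodI M)) {W : List (Σ o, M o)}
    (h1 : ∀ V₁ U V₂ : List (Σ o, M o), W = V₁ ++ (U ++ V₂) → U ≠ [] → InS S U →
      (∀ a ∈ V₂.head?, ¬ S a.1) → (∀ a ∈ V₁.getLast?, ¬ S a.1) → vl U ∈ H)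
    (h2 : ∀ V₁ U V₂ : List (Σ o, M o), W = V₁ ++ (U ++ V₂) → U ≠ [] → InS (fun o => ¬ S o) U →
      (∀ a ∈ V₂.head?, S a.1) → (∀ a ∈ V₁.getLast?, S a.1) → vl U ∈ H) :
    vl W ∈ H := by
  classical
  -- splitting off the first maximal segment of letters with the property `T`
  have split : ∀ (T : ι → Prop) (b : Σ o, M o) (t : List (Σ o, M o)), T b.1 →
      ∃ U V' : List (Σ o, M o), U ++ V' = b :: t ∧ U ≠ [] ∧ InS T U ∧
        (∀ a ∈ V'.head?, ¬ T a.1) := by
    intro T b t hb
    refine ⟨(b :: t).takeWhile (fun p => decide (T p.1)),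
      (b :: t).dropWhile (fun p => decide (T p.1)), List.takeWhile_append_dropWhile, ?_, ?_, ?_⟩
    · rw [List.takeWhile_cons, if_pos (by simpa using hb)]
      simp
    · intro p hp
      simpa using List.mem_takeWhile_imp hp
    · intro a ha
      have h := List.head?_dropWhile_not (fun p : (Σ o, M o) => decide (T p.1)) (b :: t)
      rw [Option.mem_def] at ha
      rw [ha] at h
      simpa using h
  have key : ∀ (n : ℕ) (V₁ V : List (Σ o, M o)), V.length ≤ n → W = V₁ ++ V →
      (∀ a ∈ V₁.getLast?, ∀ b ∈ V.head?, ¬ (S a.1 ↔ S b.1)) → vl V ∈ H := by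
    intro n
    induction n with
    | zero =>
      intro V₁ V hn _ _
      have : V = [] := List.length_eq_zero_iff.1 (by omega)
      rw [this, vl_nil]
      exact H.one_mem
    | succ n ih =>
      intro V₁ V hn hW hb
      rcases V with _ | ⟨b, t⟩
      · rw [vl_nil]; exact H.one_mem
      have main : ∀ T : ι → Prop, T b.1 → (∀ o o', (T o ↔ T o') ↔ (S o ↔ S o')) →
          (∀ V₁ U V₂ : List (Σ o, M o), W = V₁ ++ (U ++ V₂) → U ≠ [] → InS T U →
            (∀ a ∈ V₂.head?, ¬ T a.1) → (∀ a ∈ V₁.getLast?, ¬ T a.1) → vl U ∈ H) →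
          vl (b :: t) ∈ H := by
        intro T hT hTS hh
        obtain ⟨U, V', hUV, hU0, hUT, hV'⟩ := split T b t hT
        have hlast : ∀ a ∈ V₁.getLast?, ¬ T a.1 := by
          intro a ha hTa
          refine hb a ha b (by simp) ?_
          rw [← hTS]
          exact ⟨fun _ => hT, fun _ => hTa⟩
        have e1 : vl U ∈ H := hh V₁ U V' (by rw [hUV]; exact hW) hU0 hUT hV' hlast
        have hlen : V'.length ≤ n := by
          have h3 : (U ++ V').length = (b :: t).length := by rw [hUV]
          have h4 : 0 < U.length := List.length_pos_iff.2 hU0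
          rw [List.length_append] at h3
          omega
        have e2 : vl V' ∈ H := by
          refine ih (V₁ ++ U) V' hlen (by rw [List.append_assoc, hUV]; exact hW) ?_
          intro a ha b' hb' hiff
          rw [List.getLast?_append_of_ne_nil _ hU0] at ha
          have ha' : a ∈ U := List.mem_of_getLast? ha
          rw [← hTS] at hiff
          exact hV' b' hb' (hiff.1 (hUT a ha'))
        rw [← hUV, vl_append]
        exact H.mul_mem e1 e2
      by_cases hS : S b.1
      · exact main S hS (fun _ _ => Iff.rfl) h1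
      · refine main (fun o => ¬ S o) hS (fun _ _ => not_iff_not) ?_
        intro V₁ U V₂ k1 k2 k3 k4 k5
        exact h2 V₁ U V₂ k1 k2 k3 (fun a ha => not_not.1 (k4 a ha))
          (fun a ha => not_not.1 (k5 a ha))
  exact key W.length [] W le_rfl rfl (by simp)

end

end Pool.Agent.Helper38.BN
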