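import Pool.Agent.Helper38.BN.B6Q
import Pool.Agent.Helper38.BN.B6C
import Pool.Agent.Helper38.BN.B6U

/-!
# Project BN, block B6, pieces B6-G1, B6-G2, B6-G3: invariant classes and fixed elements
-/

namespace Pool.Agent.Helper38.BN

open Monoid

/-- `T` is the conjugation with a power of `γ_i γ_{i+1}` on the factors `i`, `i + 1`, and the identity
on the other factors -/
def Tw {ι : Type} {M : ι → Type} [∀ o, Group (M o)] (γ : ∀ o, M o) (e : ℕ → ι) (ix : ι → ℕ) (i : ℕ)
    (T : CoprodI M →* CoprodI M) : Prop :=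
  ∃ q : ℤ, q ≠ 0 ∧
    (∀ o, (ix o = i ∨ ix o = i + 1) → ∀ x : M o, T (CoprodI.of x) =
      (gs γ e i * gs γ e (i + 1)) ^ q * CoprodI.of x * ((gs γ e i * gs γ e (i + 1)) ^ q)⁻¹) ∧
    (∀ o, ¬ (ix o = i ∨ ix o = i + 1) → ∀ x : M o, T (CoprodI.of x) = CoprodI.of x)

section
variable {ι : Type} {M : ι → Type} [∀ o, Group (M o)] {m : ℕ} {e : ℕ → ι} {ix : ι → ℕ}
  {γ : ∀ o, M o} {i : ℕ} {T : CoprodI M →* CoprodI M}

/-- rotations of cyclically reduced lists are reduced -/
private lemma RW_rotate_aux {ι : Type} {M : ι → Type} [∀ o, Group (M o)] {W : List (Σ o, M o)}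
    (hr : RW W) (hcyc : ∀ p ∈ W.head?, ∀ q ∈ W.getLast?, p.1 ≠ q.1) (n : ℕ) :
    RW (W.rotate n) := by
  rw [List.rotate_eq_drop_append_take_mod]
  set k := n % W.length with hk
  have h0 : RW (W.take k ++ W.drop k) := by rw [List.take_append_drop]; exact hr
  rw [RW_append] at h0 ⊢
  refine ⟨h0.2.1, h0.1, ?_⟩
  intro p hp q hq
  have h1 : p ∈ W.getLast? := by
    rcases eq_or_ne (W.drop k) [] with h | h
    · rw [h] at hp; simp at hp
    · have h2 : W.getLast? = (W.drop k).getLast? := by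
        conv_lhs => rw [← List.take_append_drop k W]
        rw [List.getLast?_append_of_ne_nil _ h]
      rw [h2]; exact hp
  have h3 : q ∈ W.head? := by
    rcases eq_or_ne (W.take k) [] with h | h
    · rw [h] at hq; simp at hq
    · have h2 : W.head? = (W.take k).head? := by
        conv_lhs => rw [← List.take_append_drop k W]
        rw [List.head?_append_of_ne_nil _ h]
      rw [h2]; exact hq
  exact (hcyc q h3 p h1).symm

/-- the chosen elements `s` and `T` in terms of `S` -/
private lemma seg_prep {ι : Type} {M : ι → Type} [∀ o, Group (M o)] {m : ℕ} {e : ℕ → ι}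
    {ix : ι → ℕ} {γ : ∀ o, M o} {i : ℕ} {T : CoprodI M →* CoprodI M}
    (hE : Enum m e ix) (hi : i < m) (hT : Tw γ e ix i T) :
    ∃ (s : AS M (fun o => ix o = i ∨ ix o = i + 1)) (q : ℤ), q ≠ 0 ∧
      iS M (fun o => ix o = i ∨ ix o = i + 1) s =
        (CoprodI.of (γ (e i)) * CoprodI.of (γ (e (i + 1)))) ^ q ∧
      (∀ o, (ix o = i ∨ ix o = i + 1) → ∀ x : M o, T (CoprodI.of x) =
        iS M (fun o => ix o = i ∨ ix o = i + 1) s * CoprodI.of x *
          (iS M (fun o => ix o = i ∨ ix o = i + 1) s)⁻¹) ∧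
      (∀ o, ¬ (ix o = i ∨ ix o = i + 1) → ∀ x : M o, T (CoprodI.of x) = CoprodI.of x) := by
  obtain ⟨q, hq, h1, h2⟩ := hT
  have hS : InS (fun o => ix o = i ∨ ix o = i + 1) [sy γ e i, sy γ e (i + 1)] := by
    intro p hp
    simp only [List.mem_cons, List.not_mem_nil, or_false] at hp
    rcases hp with rfl | rfl
    · left; exact hE.ix_e i hi.le
    · right; exact hE.ix_e (i + 1) hi
  obtain ⟨a, ha⟩ := exists_iS hS
  have ha' : iS M (fun o => ix o = i ∨ ix o = i + 1) a =
      CoprodI.of (γ (e i)) * CoprodI.of (γ (e (i + 1))) := by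
    rw [ha]; simp [sy]
  refine ⟨a ^ q, q, hq, ?_, ?_, h2⟩
  · rw [map_zpow, ha']
  · intro o ho x
    rw [map_zpow, ha']
    exact h1 o ho x

/-- piece `B6-G1`: the segments of a word whose class is fixed by `T`.
Proof. `S = fun o => ix o = i ∨ ix o = i + 1`. The list `[sy γ e i, sy γ e (i+1)]` is in the factors of `S`
(`hE.ix_e`), so `gs γ e i * gs γ e (i+1) = iS M S a₀` (`exists_iS`); `s = a₀ ^ q`. `vl (W.rotate n)` is
conjugate to `vl W` (`List.rotate_eq_drop_append_take_mod`), so the class of `vl (U ++ V)` is also fixed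
by `T`. `seg_comm` gives `n' > 0` with `iS s ^ n' * vl U = vl U * iS s ^ n'`, that is, `vl U` commutes
with `(gs i * gs (i+1)) ^ (q n')`. `cent` with the indices `e i ≠ e (i+1)` (`hE.ix_e`).
(`U` is reduced: part of `W.rotate n`, which is reduced by `hcyc`: `W.rotate n = W.drop n' ++ W.take n'`.) -/
theorem seg_pat (hE : Enum m e ix) (hγ : ∀ o, γ o ≠ 1) (hi : i < m) (hT : Tw γ e ix i T)
    {W : List (Σ o, M o)} (hr : RW W) (hcyc : ∀ p ∈ W.head?, ∀ q ∈ W.getLast?, p.1 ≠ q.1)
    {y : CoprodI M} (hy : y * vl W * y⁻¹ = T (vl W)) {n : ℕ} {U V : List (Σ o, M o)}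
    (hW : W.rotate n = U ++ V) (hU0 : U ≠ []) (hV0 : V ≠ [])
    (hU : InS (fun o => ix o = i ∨ ix o = i + 1) U)
    (hh : ∀ p ∈ V.head?, ¬ (ix p.1 = i ∨ ix p.1 = i + 1))
    (hl : ∀ p ∈ V.getLast?, ¬ (ix p.1 = i ∨ ix p.1 = i + 1)) :
    ∃ N : ℕ, 0 < N ∧ (U = rep N [sy γ e i, sy γ e (i + 1)] ∨
      U = rep N [sy' γ e (i + 1), sy' γ e i]) := by
  obtain ⟨s, q, hq, hs, h1, h2⟩ := seg_prep (γ := γ) hE hi hT
  have hrot : RW (W.rotate n) := RW_rotate_aux hr hcyc n
  rw [hW] at hrot
  -- the class of `vl (U ++ V)`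
  have hy' : ∃ y', y' * vl (U ++ V) * y'⁻¹ = T (vl (U ++ V)) := by
    refine ⟨(T (vl (W.take (n % W.length))))⁻¹ * y * vl (W.take (n % W.length)), ?_⟩
    have h3 : vl (U ++ V) = (vl (W.take (n % W.length)))⁻¹ * vl W *
        vl (W.take (n % W.length)) := by
      rw [← hW, List.rotate_eq_drop_append_take_mod, vl_append]
      conv_rhs => rw [← List.take_append_drop (n % W.length) W]
      rw [vl_append]
      simp only [List.take_append_drop]
      group
    rw [h3, map_mul, map_mul, map_inv, ← hy]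
    group
  obtain ⟨y', hy'⟩ := hy'
  obtain ⟨k, hk, hc⟩ := seg_comm (S := fun o => ix o = i ∨ ix o = i + 1) h1 h2 hrot hU hU0 hV0
    hh hl hy'
  have hne : e i ≠ e (i + 1) := by
    intro h
    have h3 := congrArg ix h
    rw [hE.ix_e i hi.le, hE.ix_e (i + 1) hi] at h3
    omega
  have hc' : (CoprodI.of (γ (e i)) * CoprodI.of (γ (e (i + 1)))) ^ (q * (k : ℤ)) * vl U =
      vl U * (CoprodI.of (γ (e i)) * CoprodI.of (γ (e (i + 1)))) ^ (q * (k : ℤ)) := by
    rw [zpow_mul, ← hs, zpow_natCast]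
    exact hc
  exact cent hne (hγ _) (hγ _) (RW_append.mp hrot).1 hU0
    (mul_ne_zero hq (by exact_mod_cast hk.ne')) hc'

/-- piece `B6-G1`: the segments of a word which is fixed by `T`. Proof. As `seg_pat`, with `seg_fix`. -/
theorem seg_pat_fix (hE : Enum m e ix) (hγ : ∀ o, γ o ≠ 1) (hi : i < m) (hT : Tw γ e ix i T)
    {W : List (Σ o, M o)} (hr : RW W) (hy : T (vl W) = vl W) {V₁ U V₂ : List (Σ o, M o)}
    (hW : W = V₁ ++ (U ++ V₂)) (hU0 : U ≠ [])
    (hU : InS (fun o => ix o = i ∨ ix o = i + 1) U)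
    (hh : ∀ p ∈ V₂.head?, ¬ (ix p.1 = i ∨ ix p.1 = i + 1))
    (hl : ∀ p ∈ V₁.getLast?, ¬ (ix p.1 = i ∨ ix p.1 = i + 1)) :
    ∃ N : ℕ, 0 < N ∧ (U = rep N [sy γ e i, sy γ e (i + 1)] ∨
      U = rep N [sy' γ e (i + 1), sy' γ e i]) := by
  obtain ⟨s, q, hq, hs, h1, h2⟩ := seg_prep (γ := γ) hE hi hT
  subst hW
  have hc := seg_fix (S := fun o => ix o = i ∨ ix o = i + 1) h1 h2 hr hU hU0 hh hl hy
  rw [hs] at hc
  have hne : e i ≠ e (i + 1) := by
    intro h
    have h3 := congrArg ix h
    rw [hE.ix_e i hi.le, hE.ix_e (i + 1) hi] at h3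
    omega
  exact cent hne (hγ _) (hγ _) (RW_append.mp (RW_append.mp hr).2.1).1 hU0 hq hc

private theorem rot1_aux {ι : Type} {M : ι → Type} [∀ o, Group (M o)]
    {W : List (Σ o, M o)} (hr : RW W)
    (hcyc : ∀ p ∈ W.head?, ∀ q ∈ W.getLast?, p.1 ≠ q.1) :
    RW (W.rotate 1) ∧ ∀ p ∈ (W.rotate 1).head?, ∀ q ∈ (W.rotate 1).getLast?, p.1 ≠ q.1 := by
  cases W with
  | nil =>
    rw [List.rotate_nil]
    exact ⟨hr, by simp⟩
  | cons a W1 =>
    have e1 : (a :: W1).rotate 1 = W1 ++ [a] := by simp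
    rw [e1]
    rw [RW_cons] at hr
    obtain ⟨h1, h2, h3⟩ := hr
    cases W1 with
    | nil =>
      exact absurd rfl (hcyc a (by simp) a (by simp))
    | cons b W2 =>
      refine ⟨?_, ?_⟩
      · rw [RW_append]
        refine ⟨h2, RW_single h1, ?_⟩
        intro p hp q hq
        simp only [List.head?_cons, Option.mem_def, Option.some.injEq] at hq
        subst hq
        refine (hcyc _ (by simp) p ?_).symm
        rw [List.getLast?_cons_cons]
        exact hp
      · intro p hp q hq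
        have hq' : q = a := by
          simp only [List.getLast?_append, List.getLast?_singleton, Option.mem_def] at hq
          simpa using hq.symm
        have hp' : p = b := by
          simpa using hp.symm
        subst hq' hp'
        exact (h3 _ (by simp)).symm

private theorem rot_aux {ι : Type} {M : ι → Type} [∀ o, Group (M o)]
    {W : List (Σ o, M o)} (hr : RW W)
    (hcyc : ∀ p ∈ W.head?, ∀ q ∈ W.getLast?, p.1 ≠ q.1) (n : ℕ) :
    RW (W.rotate n) ∧ ∀ p ∈ (W.rotate n).head?, ∀ q ∈ (W.rotate n).getLast?, p.1 ≠ q.1 := by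
  induction n with
  | zero =>
    rw [List.rotate_zero]
    exact ⟨hr, hcyc⟩
  | succ n ih =>
    have h := rot1_aux ih.1 ih.2
    rwa [List.rotate_rotate] at h

/-- piece `B6-G2`: THE CLASS LEMMA. Let `m ≥ 2` and let the class of `v` be fixed by the twists `T i`,
`i < m`. Then `v` is conjugate into one of the factors or to a power of `γ_0 γ_1 ⋯ γ_m`.
Proof. `rw_cyc v`: `v = g * vl W * g⁻¹`. If `W.length ≤ 1`: the first alternative (for `W = []` with the
factor `e 0` and `x = 1`). Let `W.length ≥ 2`; so the class of `vl W` is fixed by `T i`, and `seg_pat`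
applies to `W` for all `i < m`.
(1) For every `i < m` some letter of `W` has an index not in `{i, i+1}`: otherwise, as neighbours have
different indices (`W` reduced and `hcyc`, `W.length ≥ 2`), the indices are `i` and `i + 1`
alternately (cyclically). If `i + 1 < m` let `p` be a letter of index `i + 1`,
`W.rotate n = [p] ++ V`; the first and the last letter of `V` have the index `i`, which is not in
`{i+1, i+2}`. So `seg_pat` for `i + 1` says `[p] = rep N [_, _]`, against `rep_length`. If `i + 1 = m`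
then `i ≥ 1`, and the same with a letter `p` of index `i` and `seg_pat` for `i - 1`.
(2) So `loc_cyc` gives `Loc (idx m ix (cyc W)) (Po γ (cyc W)) (Ne γ (cyc W)) i` for all `i < m`, and
`run` applies with `p = 0`, `p' = m` (`f t ≤ m` for all `t` by `cyc_some`, `hE.le`; `hadj`: neighbours
in the cyclic sequence have different indices). So `up` is constant on `ℤ`, and all letters are
ascending or all are descending: `cyc_concl`. -/
theorem class_gen (hE : Enum m e ix) (hm : 2 ≤ m) (hγ : ∀ o, γ o ≠ 1)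
    {T : ℕ → CoprodI M →* CoprodI M} (hT : ∀ i, i < m → Tw γ e ix i (T i)) {v : CoprodI M}
    (h : ∀ i, i < m → ∃ g, g * v * g⁻¹ = T i v) :
    (∃ (g : CoprodI M) (o : ι) (x : M o), v = g * CoprodI.of x * g⁻¹) ∨
      ∃ (g : CoprodI M) (n : ℤ), v = g * gseg γ e 0 m ^ n * g⁻¹ := by
  obtain ⟨g, W, hW, hv, hc⟩ := rw_cyc v
  by_cases hlen : W.length ≤ 1
  · left
    match W, hlen with
    | [], _ => exact ⟨g, e 0, 1, by rw [hv]; simp⟩
    | [p], _ => exact ⟨g, p.1, p.2, by rw [hv]; simp⟩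
  right
  have hcyc : ∀ p ∈ W.head?, ∀ q ∈ W.getLast?, p.1 ≠ q.1 := by
    rcases hc with hc | hc
    · exact absurd hc hlen
    · exact hc
  have hL2 : 2 ≤ W.length := by omega
  have hW0 : W ≠ [] := by
    rintro rfl
    simp at hL2
  have hinj : ∀ {o o' : ι}, ix o = ix o' → o = o' := by
    intro o o' ho
    rw [← hE.e_ix o, ← hE.e_ix o', ho]
  -- the class of `vl W` is fixed
  have hy : ∀ i, i < m → ∃ y, y * vl W * y⁻¹ = T i (vl W) := by
    intro i hi
    obtain ⟨g', hg'⟩ := h i hi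
    refine ⟨(T i g)⁻¹ * g' * g, ?_⟩
    have h1 : T i (vl W) = (T i g)⁻¹ * T i v * T i g := by
      rw [hv, map_mul, map_mul, map_inv]
      group
    rw [h1, ← hg', hv]
    group
  have hseg : ∀ i, i < m → ∀ (n : ℕ) (U V : List (Σ o, M o)), W.rotate n = U ++ V → U ≠ [] →
      V ≠ [] → InS (fun o => ix o = i ∨ ix o = i + 1) U →
      (∀ p ∈ V.head?, ¬ (ix p.1 = i ∨ ix p.1 = i + 1)) →
      (∀ p ∈ V.getLast?, ¬ (ix p.1 = i ∨ ix p.1 = i + 1)) →
      ∃ N : ℕ, 0 < N ∧ (U = rep N [sy γ e i, sy γ e (i + 1)] ∨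
        U = rep N [sy' γ e (i + 1), sy' γ e i]) := by
    intro i hi n U V hWn hU0 hV0 hU hh hl
    obtain ⟨y, hy'⟩ := hy i hi
    exact seg_pat hE hγ hi (hT i hi) hW hcyc hy' hWn hU0 hV0 hU hh hl
  -- a single letter cannot be a segment
  have hone : ∀ i, i < m → ∀ p ∈ W, (ix p.1 = i ∨ ix p.1 = i + 1) →
      (∀ q ∈ W, q.1 ≠ p.1 → ¬ (ix q.1 = i ∨ ix q.1 = i + 1)) → False := by
    intro i hi p hp hpi hq
    obtain ⟨j, hj, hjp⟩ := List.getElem_of_mem hp
    obtain ⟨hr, hrc⟩ := rot_aux hW hcyc j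
    have hd : W.rotate j = [p] ++ (W.drop (j + 1) ++ W.take j) := by
      rw [List.rotate_eq_drop_append_take hj.le, List.drop_eq_getElem_cons hj, hjp]
      simp
    have hmem : ∀ q ∈ W.drop (j + 1) ++ W.take j, q ∈ W := by
      intro q hq'
      rcases List.mem_append.1 hq' with h' | h'
      · exact List.mem_of_mem_drop h'
      · exact List.mem_of_mem_take h'
    have hV0 : W.drop (j + 1) ++ W.take j ≠ [] := by
      intro h0
      have h1 := congrArg List.length hd
      rw [h0] at h1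
      simp at h1
      omega
    set V := W.drop (j + 1) ++ W.take j with hVdef
    rw [hd] at hr hrc
    rw [List.singleton_append, RW_cons] at hr
    obtain ⟨N, hN, hrep⟩ := hseg i hi j [p] V hd (by simp) hV0
      (by
        intro q hq'
        simp only [List.mem_singleton] at hq'
        subst hq'
        exact hpi)
      (by
        intro q hq'
        exact hq q (hmem q (List.mem_of_mem_head? hq')) (hr.2.2 q hq').symm)
      (by
        intro q hq'
        refine hq q (hmem q (List.mem_of_mem_getLast? hq')) ?_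
        refine (hrc p (by simp) q ?_).symm
        rw [List.getLast?_append]
        rw [Option.mem_def] at hq'
        rw [hq']
        simp)
    rcases hrep with hrep | hrep
    · have h1 := congrArg List.length hrep
      rw [rep_length] at h1
      simp at h1
      omega
    · have h1 := congrArg List.length hrep
      rw [rep_length] at h1
      simp at h1
      omega
  have hnot : ∀ i, i < m → ∃ p ∈ W, ¬ (ix p.1 = i ∨ ix p.1 = i + 1) := by
    intro i hi
    by_contra hcon
    push Not at hcon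
    -- two neighbouring letters
    obtain ⟨a, b, W', hab⟩ : ∃ a b W', W = a :: b :: W' := by
      match W, hL2 with
      | a :: b :: W', _ => exact ⟨a, b, W', rfl⟩
    have haW : a ∈ W := by rw [hab]; simp
    have hbW : b ∈ W := by rw [hab]; simp
    have hne : a.1 ≠ b.1 := by
      have h1 := hW
      rw [hab, RW_cons] at h1
      exact h1.2.2 b (by simp)
    have hne' : ix a.1 ≠ ix b.1 := fun h' => hne (hinj h')
    have hall : ∀ q ∈ W, ix q.1 = i ∨ ix q.1 = i + 1 := hcon
    obtain ⟨p, hpW, hpi⟩ : ∃ p ∈ W, ix p.1 = i := by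
      rcases hall a haW with h1 | h1
      · exact ⟨a, haW, h1⟩
      · rcases hall b hbW with h2 | h2
        · exact ⟨b, hbW, h2⟩
        · exact absurd (h1.trans h2.symm) hne'
    obtain ⟨p', hpW', hpi'⟩ : ∃ p ∈ W, ix p.1 = i + 1 := by
      rcases hall a haW with h1 | h1
      · rcases hall b hbW with h2 | h2
        · exact absurd (h1.trans h2.symm) hne'
        · exact ⟨b, hbW, h2⟩
      · exact ⟨a, haW, h1⟩
    by_cases hi1 : i + 1 < m
    · refine hone (i + 1) hi1 p' hpW' (Or.inl hpi') ?_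
      intro q hq hqp
      have h1 : ix q.1 ≠ ix p'.1 := fun h' => hqp (hinj h')
      rcases hall q hq with h2 | h2 <;> omega
    · have hi0 : i - 1 < m := by omega
      refine hone (i - 1) hi0 p hpW (Or.inr (by omega)) ?_
      intro q hq hqp
      have h1 : ix q.1 ≠ ix p.1 := fun h' => hqp (hinj h')
      rcases hall q hq with h2 | h2 <;> omega
  have hloc : ∀ i, 0 ≤ i → i < m → Loc (idx m ix (cyc W)) (Po γ (cyc W)) (Ne γ (cyc W)) i :=
    fun i _ hi => loc_cyc hE hi (hnot i hi) (hseg i hi)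
  have hle : ∀ t, idx m ix (cyc W) t ≤ m := by
    intro t
    obtain ⟨p, -, hp⟩ := cyc_some hW0 t
    unfold idx
    rw [hp]
    exact hE.le p.1
  have hadj : ∀ t, 0 ≤ idx m ix (cyc W) t → idx m ix (cyc W) t ≤ m →
      idx m ix (cyc W) t ≠ idx m ix (cyc W) (t + 1) := by
    intro t _ _ heq
    have h0 := cyc_rotate hW0 t (q := 0) (by omega)
    have h1 := cyc_rotate hW0 t (q := 1) (by omega)
    obtain ⟨hr, -⟩ := rot_aux hW hcyc (t % W.length).toNat
    obtain ⟨p, -, hp⟩ := cyc_some hW0 t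
    obtain ⟨q, -, hq⟩ := cyc_some hW0 (t + 1)
    have h0' : (W.rotate (t % W.length).toNat)[0]? = some p := by
      rw [h0]
      simpa using hp
    have h1' : (W.rotate (t % W.length).toNat)[1]? = some q := by
      rw [h1]
      simpa using hq
    obtain ⟨R, hR⟩ : ∃ R, W.rotate (t % W.length).toNat = p :: q :: R := by
      match hWr : W.rotate (t % W.length).toNat, h0', h1' with
      | [], h0', _ => simp at h0'
      | [_], _, h1' => simp at h1'
      | a :: b :: R, h0', h1' =>
        simp only [List.getElem?_cons_zero, Option.some.injEq] at h0'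
        simp only [List.getElem?_cons_succ, List.getElem?_cons_zero, Option.some.injEq] at h1'
        subst h0' h1'
        exact ⟨R, rfl⟩
    rw [hR, RW_cons] at hr
    have hpq : p.1 ≠ q.1 := hr.2.2 q (by simp)
    unfold idx at heq
    rw [hp, hq] at heq
    exact hpq (hinj heq)
  obtain ⟨up, hup, hU, hD⟩ := run (p := 0) (p' := m) (by omega) hloc hadj
  have hconst : ∀ t, up t ↔ up 0 := by
    have hs : ∀ t, up t ↔ up (t + 1) := fun t =>
      hup t (Nat.zero_le _) (hle t) (Nat.zero_le _) (hle (t + 1))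
    intro t
    induction t using Int.induction_on with
    | zero => exact Iff.rfl
    | succ n ih => exact (hs n).symm.trans ih
    | pred n ih =>
      have h1 := hs (-(n : ℤ) - 1)
      rw [sub_add_cancel] at h1
      exact h1.trans ih
  have hfin : (∀ t, UpT (idx m ix (cyc W)) (Po γ (cyc W)) 0 m t) ∨
      (∀ t, DnT (idx m ix (cyc W)) (Ne γ (cyc W)) 0 m t) := by
    by_cases h0 : up 0
    · left
      intro t
      exact hU t (Nat.zero_le _) (hle t) ((hconst t).2 h0)
    · right
      intro t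
      exact hD t (Nat.zero_le _) (hle t) (fun h' => h0 ((hconst t).1 h'))
  obtain ⟨g₁, n, hn⟩ := cyc_concl hE hW0 hfin
  refine ⟨g * g₁, n, ?_⟩
  rw [hv, hn]
  group

/-- piece `B6-G3`: THE LEMMA ON FIXED ELEMENTS.
Proof. `rw_ex v`: `v = vl W`. For `i < m`, `i + 2 ≠ m`: `loc_lin` and `seg_pat_fix` give `Loc .. i` for the
sequence of `W`. `mem_of_seg` with `S = fun o => ix o ≤ m - 2` and the closure as `H`: the maximal
segments of `S`: `seg_run` with `p = 0`, `q = m - 2 > 0`. The maximal segments of `¬ S`, that is, with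
the indices `m - 1`, `m` (`hE.le`): `seg_run` with `p = m - 1`, `q = 1`; `gseg γ e (m-1) 1 =
gs γ e (m-1) * gs γ e m`. -/
theorem fix_gen (hE : Enum m e ix) (hm : 3 ≤ m) (hγ : ∀ o, γ o ≠ 1)
    {T : ℕ → CoprodI M →* CoprodI M} (hT : ∀ i, i < m → Tw γ e ix i (T i)) {v : CoprodI M}
    (h : ∀ i, i < m → i + 2 ≠ m → T i v = v) :
    v ∈ Subgroup.closure {gseg γ e 0 (m - 2), gs γ e (m - 1) * gs γ e m} := by
  obtain ⟨W, hr, rfl⟩ := rw_ex v
  have hLoc : ∀ i, i < m → i + 2 ≠ m →
      Loc (idx m ix (lin W)) (Po γ (lin W)) (Ne γ (lin W)) i := fun i hi hi2 =>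
    loc_lin hE hi fun V₁ U V₂ hW hU0 hU hh hl =>
      seg_pat_fix hE hγ hi (hT i hi) hr (h i hi hi2) hW hU0 hU hh hl
  have hg : gseg γ e (m - 1) 1 = gs γ e (m - 1) * gs γ e m := by
    have h1 : gseg γ e (m - 1) 1 = gs γ e (m - 1) * gs γ e (m - 1 + 0 + 1) := rfl
    rw [h1]
    congr 2
    omega
  refine mem_of_seg (fun o => ix o ≤ m - 2) _ ?_ ?_
  · intro V₁ U V₂ hW hU0 hU hh hl
    obtain ⟨n, hn⟩ := seg_run hE (γ := γ) hr (p := 0) (q := m - 2) (by omega) (by omega)
      (fun i _ hi => hLoc i (by omega) (by omega)) hW hU0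
      (fun a ha => ⟨Nat.zero_le _, by have := hU a ha; simpa using this⟩)
      (fun a ha hc => hh a ha (by simpa using hc.2))
      (fun a ha hc => hl a ha (by simpa using hc.2))
    rw [hn]
    exact Subgroup.zpow_mem _ (Subgroup.subset_closure (by simp)) n
  · intro V₁ U V₂ hW hU0 hU hh hl
    obtain ⟨n, hn⟩ := seg_run hE (γ := γ) hr (p := m - 1) (q := 1) (by omega) (by omega)
      (fun i hi1 hi2 => hLoc i (by omega) (by omega)) hW hU0
      (fun a ha => by
        have h1 : ¬ ix a.1 ≤ m - 2 := hU a ha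
        have h2 := hE.le a.1
        constructor <;> omega)
      (fun a ha hc => by
        have h1 : ix a.1 ≤ m - 2 := hh a ha
        omega)
      (fun a ha hc => by
        have h1 : ix a.1 ≤ m - 2 := hl a ha
        omega)
    rw [hn, hg]
    exact Subgroup.zpow_mem _ (Subgroup.subset_closure (by simp)) n

end

end Pool.Agent.Helper38.BN
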