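import Pool.Agent.Helper38.BN.B6W

/-!
# Project BN, block B6, pieces B6-S1, B6-S2: splitting a free product into two factors
-/

namespace Pool.Agent.Helper38.BN

open Monoid
open Pool.Agent.Helper7.AG (FreeProd PNt pv Red nt val sv)

section
variable {ι : Type} {M : ι → Type} [∀ o, Group (M o)]

/-- the two factors as a family (piece `B6-S1`) -/
private def S1M (A B : Type) : Bool → Type
  | true => A
  | false => B

private instance S1G (A B : Type) [Group A] [Group B] : ∀ b, Group (S1M A B b)
  | true => inferInstanceAs (Group A)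
  | false => inferInstanceAs (Group B)

section
variable {A B : Type} [Group A] [Group B]

private def S1t : (Σ b, S1M A B b) → A ⊕ B
  | ⟨true, a⟩ => .inl a
  | ⟨false, b⟩ => .inr b

private def S1t' : A ⊕ B → (Σ b, S1M A B b)
  | .inl a => ⟨true, a⟩
  | .inr b => ⟨false, b⟩

private def S1I : A →* CoprodI (S1M A B) := CoprodI.of (M := S1M A B) (i := true)
private def S1J : B →* CoprodI (S1M A B) := CoprodI.of (M := S1M A B) (i := false)

omit [Group A] [Group B] in
private theorem S1t_t' (p : A ⊕ B) : S1t (S1t' p) = p := by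
  rcases p with a | b <;> rfl

private theorem S1t_nt (p : Σ b, S1M A B b) : nt (S1t p) ↔ p.2 ≠ 1 := by
  rcases p with ⟨_ | _, a⟩ <;> rfl

omit [Group A] [Group B] in
private theorem S1t_left (p : Σ b, S1M A B b) : (S1t p).isLeft = p.1 := by
  rcases p with ⟨_ | _, a⟩ <;> rfl

private theorem S1t_val (l : List (Σ b, S1M A B b)) :
    val (S1I (A := A) (B := B)) S1J (l.map S1t) =
      (l.map fun p => CoprodI.of p.2).prod := by
  induction l with
  | nil => rfl
  | cons p l ih =>
    rw [List.map_cons, Pool.Agent.Helper7.AG.val_cons, ih, List.map_cons, List.prod_cons]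
    rcases p with ⟨_ | _, a⟩ <;> rfl

private theorem S1_red (l : List (Σ b, S1M A B b)) :
    Red (l.map S1t) ↔ (∀ p ∈ l, Sigma.snd p ≠ 1) ∧ l.IsChain fun p q => Sigma.fst p ≠ Sigma.fst q := by
  unfold Red
  rw [List.isChain_map]
  simp only [List.mem_map, forall_exists_index, and_imp, forall_apply_eq_imp_iff₂, S1t_nt,
    S1t_left]

private theorem S1_freeProd : FreeProd (S1I (A := A) (B := B)) S1J := by
  classical
  refine ⟨fun x => ?_, fun l l' h1 h2 h3 => ?_⟩
  · set w := CoprodI.Word.equiv x with hw
    refine ⟨w.toList.map S1t, (S1_red _).2 ⟨fun p hp => w.ne_one p hp, w.chain_ne⟩, ?_⟩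
    rw [S1t_val]
    exact CoprodI.Word.equiv.symm_apply_apply x
  · have e : ∀ l : List (A ⊕ B), (l.map S1t').map S1t = l := by
      intro l
      rw [List.map_map]
      conv_rhs => rw [← List.map_id l]
      exact List.map_congr_left fun p _ => S1t_t' p
    rw [← e l, S1_red] at h1
    rw [← e l', S1_red] at h2
    rw [← e l, ← e l', S1t_val, S1t_val] at h3
    set w : CoprodI.Word (S1M A B) := ⟨l.map S1t', h1.1, h1.2⟩ with hw
    set w' : CoprodI.Word (S1M A B) := ⟨l'.map S1t', h2.1, h2.2⟩ with hw'
    have h4 : w = w' := CoprodI.Word.equiv.symm.injective h3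
    have h5 : l.map S1t' = l'.map S1t' := congrArg CoprodI.Word.toList h4
    rw [← e l, ← e l', h5]

end

/-- the homomorphism to the free product of all factors (piece `B6-S1`) -/
private def S1F (S : ι → Prop) :
    CoprodI (S1M (AS M S) (AS M fun o => ¬ S o)) →* CoprodI M :=
  CoprodI.lift fun b => match b with
    | true => iS M S
    | false => iS M fun o => ¬ S o

open Classical in
/-- the homomorphism from the free product of all factors (piece `B6-S1`) -/
private noncomputable def S1K (S : ι → Prop) :
    CoprodI M →* CoprodI (S1M (AS M S) (AS M fun o => ¬ S o)) :=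
  CoprodI.lift fun o =>
    if h : S o then
      S1I.comp (CoprodI.of (M := fun o : {o // S o} => M o) (i := ⟨o, h⟩))
    else S1J.comp (CoprodI.of (M := fun o : {o // ¬ S o} => M o) (i := ⟨o, h⟩))

private theorem S1F_I (S : ι → Prop) (a : AS M S) : S1F S (S1I a) = iS M S a :=
  CoprodI.lift_of (i := true) _ _

private theorem S1F_J (S : ι → Prop) (b : AS M fun o => ¬ S o) :
    S1F S (S1J b) = iS M (fun o => ¬ S o) b :=
  CoprodI.lift_of (i := false) _ _

private theorem S1K_pos {S : ι → Prop} {o : ι} (h : S o) (x : M o) :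
    S1K S (CoprodI.of x) =
      S1I (CoprodI.of (M := fun o : {o // S o} => M o) (i := ⟨o, h⟩) x) := by
  unfold S1K
  rw [CoprodI.lift_of, dif_pos h]
  rfl

private theorem S1K_neg {S : ι → Prop} {o : ι} (h : ¬ S o) (x : M o) :
    S1K S (CoprodI.of x) =
      S1J (CoprodI.of (M := fun o : {o // ¬ S o} => M o) (i := ⟨o, h⟩) x) := by
  unfold S1K
  rw [CoprodI.lift_of, dif_neg h]
  rfl

private theorem S1F_K (S : ι → Prop) : (S1F (M := M) S).comp (S1K S) = MonoidHom.id _ := by
  refine CoprodI.ext_hom _ _ fun o => MonoidHom.ext fun x => ?_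
  change S1F S (S1K S (CoprodI.of x)) = CoprodI.of x
  by_cases h : S o
  · rw [S1K_pos h, S1F_I, iS_of]
  · rw [S1K_neg h, S1F_J, iS_of]

private theorem S1K_F (S : ι → Prop) : (S1K S).comp (S1F (M := M) S) = MonoidHom.id _ := by
  refine CoprodI.ext_hom _ _ fun b => ?_
  rcases b with _ | _
  · refine CoprodI.ext_hom _ _ fun o => MonoidHom.ext fun x => ?_
    change S1K S (S1F S (S1J (CoprodI.of (M := fun o : {o // ¬ S o} => M o) (i := o) x))) =
      S1J (CoprodI.of (M := fun o : {o // ¬ S o} => M o) (i := o) x)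
    rw [S1F_J, iS_of, S1K_neg o.2]
  · refine CoprodI.ext_hom _ _ fun o => MonoidHom.ext fun x => ?_
    change S1K S (S1F S (S1I (CoprodI.of (M := fun o : {o // S o} => M o) (i := o) x))) =
      S1I (CoprodI.of (M := fun o : {o // S o} => M o) (i := o) x)
    rw [S1F_I, iS_of, S1K_pos o.2]

private noncomputable def S1E (S : ι → Prop) :
    CoprodI (S1M (AS M S) (AS M fun o => ¬ S o)) ≃* CoprodI M :=
  MonoidHom.toMulEquiv (S1F S) (S1K S) (S1K_F S) (S1F_K S)

/-- piece `B6-S1`: the free product of all factors is the free product of the free product of the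
factors in `S` and the free product of the other factors.
Proof. Copy the private definitions `FsM`, `FsG`, `Fst`, `Fst'`, `FsI`, `FsJ` and the proof of
`Fs_freeProd` from `Pool/Agent/Helper7/AG/Fsum.lean` (with `A = AS M S`, `B = AS M (fun o => ¬ S o)`)
and use `FreeProd.equiv` for the isomorphism `CoprodI (FsM A B) ≃* CoprodI M`: in the direction `→`
it is `CoprodI.lift` of `iS M S` and `iS M (¬ S)`; in the direction `←` it is `CoprodI.lift` of
`fun o => if h : S o then FsI.comp (of ⟨o, h⟩) else FsJ.comp (of ⟨o, h⟩)`; they are inverse to each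
other on generators (`CoprodI.ext_hom`).
(Or directly, from `rw_ex`, `rw_uniq`.) -/
theorem split (S : ι → Prop) : FreeProd (iS M S) (iS M fun o => ¬ S o) := by
  have h := (S1_freeProd (A := AS M S) (B := AS M fun o => ¬ S o)).equiv (S1E S)
  have h1 : (S1E S).toMonoidHom.comp S1I = iS M S :=
    MonoidHom.ext fun a => S1F_I S a
  have h2 : (S1E S).toMonoidHom.comp S1J = iS M (fun o => ¬ S o) :=
    MonoidHom.ext fun a => S1F_J S a
  rwa [h1, h2] at h

/-- piece `B6-S2`: Proof. Induction on the list (`iS_of`). -/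
theorem exists_iS {S : ι → Prop} {l : List (Σ o, M o)} (h : InS S l) :
    ∃ a : AS M S, iS M S a = vl l := by
  induction l with
  | nil => exact ⟨1, by simp⟩
  | cons p l ih =>
    obtain ⟨a, ha⟩ := ih fun q hq => h q (List.mem_cons_of_mem _ hq)
    have hp : S p.1 := h p (by simp)
    refine ⟨CoprodI.of (M := fun o : {o // S o} => M o) (i := ⟨p.1, hp⟩) p.2 * a, ?_⟩
    rw [map_mul, ha, vl_cons]
    congr 1

/-- piece `B6-S2`: an endomorphism which is the conjugation with `s` on the factors in `S` and the
identity on the other factors. Proof. `CoprodI.ext_hom` for the two homomorphisms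
`T.comp (iS M S)` and `(MulAut.conj s).toMonoidHom.comp (iS M S)`. -/
theorem T_iS {S : ι → Prop} {T : CoprodI M →* CoprodI M} {s : CoprodI M}
    (hT : ∀ o, S o → ∀ x : M o, T (CoprodI.of x) = s * CoprodI.of x * s⁻¹) (a : AS M S) :
    T (iS M S a) = s * iS M S a * s⁻¹ := by
  have h : T.comp (iS M S) = (MulAut.conj s).toMonoidHom.comp (iS M S) := by
    refine CoprodI.ext_hom _ _ fun o => MonoidHom.ext fun x => ?_
    have h1 := iS_of S o x
    simp only [MonoidHom.comp_apply]
    erw [h1]
    rw [hT o.1 o.2 x]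
    rfl
  have h2 := DFunLike.congr_fun h a
  simpa using h2

/-- piece `B6-S2` -/
theorem T_iS' {S : ι → Prop} {T : CoprodI M →* CoprodI M}
    (hT' : ∀ o, ¬ S o → ∀ x : M o, T (CoprodI.of x) = CoprodI.of x)
    (b : AS M (fun o => ¬ S o)) : T (iS M (fun o => ¬ S o) b) = iS M (fun o => ¬ S o) b := by
  have h : T.comp (iS M fun o => ¬ S o) = iS M fun o => ¬ S o := by
    refine CoprodI.ext_hom _ _ fun o => MonoidHom.ext fun x => ?_
    have h1 := iS_of (fun o => ¬ S o) o x
    simp only [MonoidHom.comp_apply]
    erw [h1]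
    exact hT' o.1 o.2 x
  exact DFunLike.congr_fun h b

omit [∀ o, Group (M o)] in
private lemma group_cut (Q : ι → Prop) (l : List (Σ o, M o)) (p : Σ o, M o)
    (hp : p ∈ l.head?) (hQ : Q p.1) :
    ∃ u v : List (Σ o, M o), l = u ++ v ∧ u ≠ [] ∧ InS Q u ∧ ∀ q ∈ v.head?, ¬ Q q.1 := by
  classical
  refine ⟨l.takeWhile (fun q => decide (Q q.1)), l.dropWhile (fun q => decide (Q q.1)),
    (List.takeWhile_append_dropWhile).symm, ?_, ?_, ?_⟩
  · cases l with
    | nil => simp at hp
    | cons q l =>
      simp only [List.head?_cons, Option.mem_def, Option.some.injEq] at hp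
      subst hp
      rw [List.takeWhile_cons]
      simp [hQ]
  · intro q hq
    have h1 := List.mem_takeWhile_imp hq
    simpa using h1
  · intro q hq
    have h1 := List.head?_dropWhile_not (fun q : (Σ o, M o) => decide (Q q.1)) l
    rw [Option.mem_def] at hq
    rw [hq] at h1
    simpa using h1

private lemma group_aux (S : ι → Prop) (n : ℕ) : ∀ l : List (Σ o, M o), l.length = n → RW l →
    ∃ l' : List (AS M S ⊕ AS M (fun o => ¬ S o)), Red l' ∧
      val (iS M S) (iS M fun o => ¬ S o) l' = vl l ∧ (l = [] ↔ l' = []) ∧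
      (∀ p ∈ l.head?, ∀ s ∈ l'.head?, (s.isLeft = true ↔ S p.1)) ∧
      (∀ p ∈ l.getLast?, ∀ s ∈ l'.getLast?, (s.isLeft = true ↔ S p.1)) := by
  induction n using Nat.strong_induction_on with
  | _ n ih =>
  intro l hn h
  cases hl : l with
  | nil => exact ⟨[], ⟨by simp, by simp⟩, by simp, by simp, by simp, by simp⟩
  | cons p l₀ =>
  rw [← hl]
  have hp : p ∈ l.head? := by rw [hl]; rfl
  have hlne : l ≠ [] := by rw [hl]; simp
  have key : ∀ (s₀ : AS M S ⊕ AS M (fun o => ¬ S o)) (u v : List (Σ o, M o)), l = u ++ v →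
      u ≠ [] → nt s₀ → sv (iS M S) (iS M fun o => ¬ S o) s₀ = vl u →
      (∀ q ∈ u, (s₀.isLeft = true ↔ S q.1)) → (∀ q ∈ v.head?, ¬ (s₀.isLeft = true ↔ S q.1)) →
      ∃ l' : List (AS M S ⊕ AS M (fun o => ¬ S o)), Red l' ∧
      val (iS M S) (iS M fun o => ¬ S o) l' = vl l ∧ (l = [] ↔ l' = []) ∧
      (∀ p ∈ l.head?, ∀ s ∈ l'.head?, (s.isLeft = true ↔ S p.1)) ∧
      (∀ p ∈ l.getLast?, ∀ s ∈ l'.getLast?, (s.isLeft = true ↔ S p.1)) := by
    intro s₀ u v huv hu h0 h1 h2 h3
    have hRv : RW v := by
      rw [huv, RW_append] at h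
      exact h.2.1
    have hlt : v.length < n := by
      have h4 : 0 < u.length := List.length_pos_iff.2 hu
      rw [← hn, huv, List.length_append]
      omega
    obtain ⟨l₁, hr, hv, he, hh, hg⟩ := ih v.length hlt v rfl hRv
    refine ⟨s₀ :: l₁, ⟨?_, ?_⟩, ?_, by simp [hlne], ?_, ?_⟩
    · intro s hs
      rcases List.mem_cons.1 hs with rfl | hs
      · exact h0
      · exact hr.1 s hs
    · rw [List.isChain_cons]
      refine ⟨?_, hr.2⟩
      intro s hs hss
      cases hv' : v with
      | nil =>
        rw [he.1 hv'] at hs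
        simp at hs
      | cons q v' =>
        have hq : q ∈ v.head? := by rw [hv']; rfl
        have h5 := hh q hq s hs
        rw [← hss] at h5
        exact h3 q hq h5
    · rw [Pool.Agent.Helper7.AG.val_cons, h1, hv, huv, vl_append]
    · intro q hq s hs
      simp only [List.head?_cons, Option.mem_def, Option.some.injEq] at hs
      subst hs
      apply h2
      rw [huv, List.head?_append_of_ne_nil _ hu] at hq
      exact List.mem_of_mem_head? hq
    · intro q hq s hs
      cases hv' : v with
      | nil =>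
        rw [he.1 hv'] at hs
        simp only [List.getLast?_singleton, Option.mem_def, Option.some.injEq] at hs
        subst hs
        apply h2
        rw [huv, hv', List.append_nil] at hq
        exact List.mem_of_getLast? hq
      | cons q' v' =>
        have hvne : v ≠ [] := by rw [hv']; simp
        have hlne1 : l₁ ≠ [] := fun hc => hvne (he.2 hc)
        apply hg q _ s _
        · rw [huv, List.getLast?_append_of_ne_nil _ hvne] at hq
          exact hq
        · rw [List.getLast?_cons_of_ne_nil hlne1] at hs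
          exact hs
  by_cases hS : S p.1
  · obtain ⟨u, v, huv, hu, hin, hvh⟩ := group_cut S l p hp hS
    obtain ⟨a, ha⟩ := exists_iS hin
    have hRu : RW u := by
      rw [huv, RW_append] at h
      exact h.1
    refine key (.inl a) u v huv hu ?_ ha ?_ ?_
    · intro ha1
      apply rw_ne_one hRu hu
      rw [← ha, ha1, map_one]
    · intro q hq
      simpa using hin q hq
    · intro q hq
      simpa using hvh q hq
  · obtain ⟨u, v, huv, hu, hin, hvh⟩ := group_cut (fun o => ¬ S o) l p hp hS
    obtain ⟨a, ha⟩ := exists_iS hin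
    have hRu : RW u := by
      rw [huv, RW_append] at h
      exact h.1
    refine key (.inr a) u v huv hu ?_ ha ?_ ?_
    · intro ha1
      apply rw_ne_one hRu hu
      rw [← ha, ha1, map_one]
    · intro q hq
      simpa using hin q hq
    · intro q hq
      simpa using hvh q hq

/-- piece `B6-S3`: grouping the syllables of a reduced list.
Proof. Strong induction on `l.length`. `l = []`: take `[]`. Otherwise let `p` be the first syllable;
assume `S p.1` (the other case is the same with the two factors exchanged). `classical`;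
`u := l.takeWhile (S ·.1)`, `v := l.dropWhile (S ·.1)`, so `l = u ++ v`, `u ≠ []`, `InS S u`, and the
first syllable of `v` (if any) is not in `S`. Take `a` with `iS M S a = vl u` (`exists_iS`); `a ≠ 1`
as `vl u ≠ 1` (`rw_ne_one`). Let `l₁` be the list for `v` (induction); `.inl a :: l₁` is reduced,
because the first syllable of `l₁` is in the right factor. If `v = []` then `l₁ = []` and the last
syllable of `l = u` is in `S`. -/
theorem group (S : ι → Prop) {l : List (Σ o, M o)} (h : RW l) :
    ∃ l' : List (AS M S ⊕ AS M (fun o => ¬ S o)), Red l' ∧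
      val (iS M S) (iS M fun o => ¬ S o) l' = vl l ∧ (l = [] ↔ l' = []) ∧
      (∀ p ∈ l.head?, ∀ s ∈ l'.head?, (s.isLeft = true ↔ S p.1)) ∧
      (∀ p ∈ l.getLast?, ∀ s ∈ l'.getLast?, (s.isLeft = true ↔ S p.1)) := group_aux S l.length l rfl h

end

end Pool.Agent.Helper38.BN
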