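import Pool.Agent.Helper38.BN.G2

/-!
# Project BN, block B1: the action of `A m` on `G (m+2)` and the subgroup `N` (interface)
-/

namespace Pool.Agent.Helper38.BN

variable {m : ℕ}

private lemma conj_xG_sq (m : ℕ) :
    (MulAut.conj (xG (m + 2)) * MulAut.conj (xG (m + 2)) : MulAut (G (m + 2))) = 1 := by
  rw [← map_mul, xG_sq, map_one]

/-- an automorphism which fixes `x` commutes with the conjugation with `x` -/
private lemma conj_comm_fix {H : Type*} [Group H] (f : MulAut H) (x : H) (hx : f x = x) :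
    MulAut.conj x * f * (MulAut.conj x)⁻¹ = f := by
  rw [mul_inv_eq_iff_eq_mul]
  ext y
  rw [MulAut.mul_apply, MulAut.mul_apply, MulAut.conj_apply, MulAut.conj_apply, map_mul, map_mul,
    map_inv, hx]

private lemma actAh_compat (m : ℕ) : (actA m).comp (tau m).toMonoidHom =
    (MulAut.conj (MulAut.conj (xG (m + 2)) : MulAut (G (m + 2)))).toMonoidHom.comp (actA m) := by
  have hinv : (MulAut.conj (xG (m + 2)) : MulAut (G (m + 2)))⁻¹ = MulAut.conj (xG (m + 2)) :=
    inv_eq_of_mul_eq_one_left (conj_xG_sq m)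
  have hA : ∀ j, j < m + 2 → actA m (aA j) = gA j := fun j hj => liftA_a _ hj
  have hB : actA m bA = gB := liftA_b _
  have hD : actA m dA = gD := liftA_d _
  have hgB : (gB : MulAut (G (m + 2))) =
      MulAut.conj (xG (m + 2)) * gA (m + 1) * MulAut.conj (xG (m + 2)) := rfl
  have hta : ∀ j, j < m + 1 → tau m (aA j) = aA j := fun j hj => tauHom_a hj
  have hta' : tau m (aA (m + 1)) = bA := tauHom_a'
  have htb : tau m bA = aA (m + 1) := tauHom_b
  have htd : tau m dA = dA := tauHom_d
  apply homA_ext
  · intro j hj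
    change actA m (tau m (aA j)) = MulAut.conj (xG (m + 2)) * actA m (aA j) *
      (MulAut.conj (xG (m + 2)))⁻¹
    rcases Nat.lt_or_ge j (m + 1) with h | h
    · rw [hta j h, hA j hj, conj_comm_fix]
      rw [gA_x hj le_rfl]
      unfold gC
      rw [if_neg (by omega), if_neg (by omega)]
    · have e : j = m + 1 := by omega
      subst e
      rw [hta', hA _ hj, hB, hgB, hinv]
  · change actA m (tau m bA) = MulAut.conj (xG (m + 2)) * actA m bA *
      (MulAut.conj (xG (m + 2)))⁻¹
    rw [htb, hB, hA _ (by omega), hgB, hinv]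
    have h1 := conj_xG_sq m
    rw [mul_assoc (MulAut.conj (xG (m + 2))), mul_assoc (MulAut.conj (xG (m + 2)) * gA (m + 1)),
      h1, mul_one, ← mul_assoc, h1, one_mul]
  · change actA m (tau m dA) = MulAut.conj (xG (m + 2)) * actA m dA *
      (MulAut.conj (xG (m + 2)))⁻¹
    rw [htd, hD, conj_comm_fix]
    rw [gD_x le_rfl]
    unfold gDC
    rw [if_neg (by omega)]

/-- piece `BN-B1-G12`: the action of `Ah m` on `G (m+2)`.
Proof. `SemidirectProduct.lift (actA m) (c2hom (MulAut.conj (xG (m+2))) _)` (`c2hom`: see Defs/FG/Hat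
files); the compatibility reduces to `e = -1`: `actA (tau x) = conj x_k * actA x * conj x_k` for all
`x`, by `homA_ext` (as homs `A m → MulAut (G (m+2))`): for `x = a_{k-1}`, `b` it is the definition of
`gB` (`gB = conj x_k * gA (k-1) * conj x_k`, `x_k² = 1`); for `a_j`, `j < k - 1`, and `d`: `gA j` and
`gD` fix `x_k`, so they commute with `conj x_k`. -/
theorem exists_actAh (m : ℕ) : ∃ f : Ah m →* MulAut (G (m + 2)),
    (∀ x, f (iA x) = actA m x) ∧ f th = MulAut.conj (xG (m + 2)) := by
  refine ⟨SemidirectProduct.lift (actA m) (c2hom (MulAut.conj (xG (m + 2))) (conj_xG_sq m)) ?_,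
    fun x => SemidirectProduct.lift_inl _ _ _ x, ?_⟩
  · intro e
    rcases Int.units_eq_one_or e with rfl | rfl
    · rw [map_one, map_one, map_one]
      ext x y
      rfl
    · rw [tauAct_neg, c2hom_neg]
      exact actAh_compat m
  · exact (SemidirectProduct.lift_inr _ _ _ (-1)).trans (c2hom_neg _ _)

/-- the action of `Ah m` on `G (m+2)` -/
noncomputable def actAh (m : ℕ) : Ah m →* MulAut (G (m + 2)) := Classical.choose (exists_actAh m)

@[simp] theorem actAh_iA (x : A m) : actAh m (iA x) = actA m x :=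
  (Classical.choose_spec (exists_actAh m)).1 x

@[simp] theorem actAh_th : actAh m th = MulAut.conj (xG (m + 2)) :=
  (Classical.choose_spec (exists_actAh m)).2

private lemma xGh_x' {i : ℕ} (hi : i ≤ m + 2) : xGh m (xG i) = xh i := by
  unfold xGh
  rw [liftG_x _ _ _ hi]

private lemma xGh_y' : xGh m yG = yh := by
  unfold xGh
  rw [liftG_y]

private lemma xGh_equiv_of {x : Ah m}
    (hx : ∀ i, i ≤ m + 2 → x * xh i * x⁻¹ = xGh m (actAh m x (xG i)))
    (hy : x * yh * x⁻¹ = xGh m (actAh m x yG)) (g : G (m + 2)) :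
    x * xGh m g * x⁻¹ = xGh m (actAh m x g) := by
  have h : (MulAut.conj x).toMonoidHom.comp (xGh m) =
      (xGh m).comp (actAh m x).toMonoidHom := by
    apply homG_ext
    · intro i hi
      change x * xGh m (xG i) * x⁻¹ = xGh m (actAh m x (xG i))
      rw [xGh_x' hi, hx i hi]
    · change x * xGh m yG * x⁻¹ = xGh m (actAh m x yG)
      rw [xGh_y', hy]
  exact DFunLike.congr_fun h g

private lemma xGh_equiv_th (g : G (m + 2)) :
    th * xGh m g * th⁻¹ = xGh m (actAh m th g) := by
  rw [actAh_th, MulAut.conj_apply, map_mul, map_mul, map_inv, xGh_x' le_rfl, xh_last]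

/-- piece `BN-B1-G13`: `xGh` is equivariant.
Proof. The set of `x` for which it holds for all `g` is a subgroup; by `closure_Ah` it is enough to
take `x = th`, `iA dA`, `iA (aA j)`; for fixed `x` both sides are homomorphisms in `g`, so `homG_ext`:
`g = x_i` (`i ≤ m + 2`) and `g = y`. `x = a_j`: `xh_comm_hi`, `xh_comm_lo`, `xh_self`, `xh_step`,
`yh_comm` versus `gC` (`gA_x`, `gA_y`); `x = d`: `xh_d`, `d_x0`, `d_y` versus `gD_x`, `gD_y`; `x = th`:
`th = xGh x_k` (`xh_last`), so `th * xGh g * th⁻¹ = xGh (x_k g x_k⁻¹)`. -/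
theorem xGh_equiv (x : Ah m) (g : G (m + 2)) :
    x * xGh m g * x⁻¹ = xGh m (actAh m x g) := by
  have hx : x ∈ Subgroup.closure
      ({th, iA dA} ∪ (fun j => iA (aA j)) '' {j | j < m + 2} : Set (Ah m)) := by
    rw [closure_Ah]; trivial
  induction hx using Subgroup.closure_induction generalizing g with
  | mem x hx =>
    rcases hx with (rfl | rfl) | ⟨j, hj, rfl⟩
    · exact xGh_equiv_th g
    · refine xGh_equiv_of ?_ ?_ g
      · intro i hi
        have e : actAh m (iA dA) (xG i) = gDC i := by
          rw [actAh_iA]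
          unfold actA
          rw [liftA_d]
          exact gD_x hi
        rw [e]
        unfold gDC
        split_ifs with h0
        · subst h0
          rw [map_mul, map_mul, map_inv, xGh_y', xGh_x' (by omega), d_x0]
        · rw [xGh_x' hi, xh_d (by omega) hi, mul_inv_cancel_right]
      · have e : actAh m (iA dA) yG = yG * xG 0 * yG * xG 0 * yG⁻¹ := by
          rw [actAh_iA]
          unfold actA
          rw [liftA_d]
          exact gD_y
        rw [e, map_mul, map_mul, map_mul, map_mul, map_inv, xGh_y', xGh_x' (by omega), d_y]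
    · have hj' : j < m + 2 := hj
      refine xGh_equiv_of ?_ ?_ g
      · intro i hi
        have e : actAh m (iA (aA j)) (xG i) = gC j i := by
          rw [actAh_iA]
          unfold actA
          rw [liftA_a _ hj']
          exact gA_x hj' hi
        change (iA (aA j) : Ah m) * xh i * (iA (aA j))⁻¹ = xGh m (actAh m (iA (aA j)) (xG i))
        rw [e]
        unfold gC
        split_ifs with h1 h2
        · subst h1
          rw [map_mul, map_mul, xGh_x' (by omega), xGh_x' (by omega), xh_self hj']
        · subst h2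
          rw [xGh_x' (by omega), xh_step hj']
        · rw [xGh_x' hi]
          rcases Nat.lt_or_ge i j with h3 | h3
          · rw [xh_comm_lo hj' h3, mul_inv_cancel_right]
          · rw [xh_comm_hi hj' hi (by omega), mul_inv_cancel_right]
      · have e : actAh m (iA (aA j)) yG = yG := by
          rw [actAh_iA]
          unfold actA
          rw [liftA_a _ hj']
          exact gA_y
        change (iA (aA j) : Ah m) * yh * (iA (aA j))⁻¹ = xGh m (actAh m (iA (aA j)) yG)
        rw [e, xGh_y', yh_comm hj', mul_inv_cancel_right]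
  | one => rw [map_one]; simp
  | mul x y _ _ ihx ihy =>
    rw [map_mul, MulAut.mul_apply, ← ihx, ← ihy]
    group
  | inv x _ ih =>
    have h := ih (actAh m x⁻¹ g)
    rw [map_inv, MulAut.apply_inv_self] at h
    rw [← h, map_inv]
    group

private lemma G14_conj {H : Type*} [Group H] (f : MulAut H) (g : H) :
    f * MulAut.conj g * f⁻¹ = MulAut.conj (f g) := by
  ext x
  simp [MulAut.mul_apply, MulAut.conj_apply]

private lemma G14_aux (i : ℕ) : i ≤ m + 2 →
    actAh m (xh (m + 2 - i)) = MulAut.conj (xG (m + 2 - i)) := by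
  induction i with
  | zero =>
    intro _
    rw [Nat.sub_zero, xh_last, actAh_th]
  | succ i ih =>
    intro hi
    have h1 : m + 2 - (i + 1) < m + 2 := by omega
    have h2 : m + 2 - (i + 1) + 1 = m + 2 - i := by omega
    have h3 : actA m (aA (m + 2 - (i + 1))) = gA (m + 2 - (i + 1)) := liftA_a _ h1
    have h4 : gA (m + 2 - (i + 1)) (xG (m + 2 - i) : G (m + 2)) = xG (m + 2 - (i + 1)) := by
      rw [gA_x h1 (by omega)]
      unfold gC
      rw [if_neg (by omega), if_pos (by omega)]
    rw [xh_step h1, map_mul, map_mul, map_inv, actAh_iA, h3, h2, ih (by omega), G14_conj, h4]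

/-- piece `BN-B1-G14`: descending induction on `j` from `xh (m+2) = th`: `x_j = a_j x_{j+1} a_j⁻¹`
(`xh_step`) and `gA j x_{j+1} = x_j`. -/
theorem actAh_xh {j : ℕ} (hj : j ≤ m + 2) : actAh m (xh j) = MulAut.conj (xG j) := by
  have h := G14_aux (m := m) (m + 2 - j) (by omega)
  rwa [show m + 2 - (m + 2 - j) = j by omega] at h

/-- piece `BN-B1-G14`: the action of `ζ`: `actA` maps `zeta (m+2) aA dA` to `zeta (m+2) gA gD`
(`map_zeta`, `zeta_congr`, `liftA_a`, `liftA_d`), then `zeta_G`. -/
theorem actA_zeta (m : ℕ) : actA m (zeA m) = MulAut.conj (rG (m + 2)) := by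
  have h1 : actA m (zeA m) = zeta (m + 2) (fun j => actA m (aA j)) (actA m dA) :=
    map_zeta (actA m) (m + 2) aA dA
  have h2 : actA m dA = gD := liftA_d _
  have h3 : zeta (m + 2) (fun j => actA m (aA j)) (gD : MulAut (G (m + 2))) =
      zeta (m + 2) gA gD := zeta_congr (fun j hj => liftA_a _ hj) _
  rw [h1, h2, h3, zeta_G]

private lemma G14_xwh (j : ℕ) : j ≤ m + 2 → actAh m (xwh j) = MulAut.conj (xw j) := by
  induction j with
  | zero =>
    intro _
    exact actAh_xh (Nat.zero_le _)
  | succ j ih =>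
    intro hj
    have e1 : (xwh (j + 1) : Ah m) = xwh j * xh (j + 1) := rfl
    have e2 : (xw (j + 1) : G (m + 2)) = xw j * xG (j + 1) := rfl
    rw [e1, e2, map_mul, map_mul, ih (by omega), actAh_xh hj]

/-- piece `BN-B1-G14`: `yh = ζ (x_0 ⋯ x_k)⁻¹`, `actA_zeta`, `actAh_xh`, `rG = yG * xw`. -/
theorem actAh_yh : actAh m yh = MulAut.conj (yG : G (m + 2)) := by
  have e1 : (yh : Ah m) = iA (zeA m) * (xwh (m + 2))⁻¹ := rfl
  have e2 : rG (m + 2) = yG * xw (m + 2) := rfl
  rw [e1, map_mul, map_inv, actAh_iA, actA_zeta, G14_xwh _ le_rfl, e2, map_mul,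
    mul_inv_cancel_right]

/-- piece `BN-B1-G14`: `G` acts on itself by conjugation: `homG_ext` with `actAh_xh`, `actAh_yh`
(`MulAut.conj` as a homomorphism `G → MulAut G`). -/
theorem actAh_xGh (g : G (m + 2)) : actAh m (xGh m g) = MulAut.conj g := by
  have h : (actAh m).comp (xGh m) = (MulAut.conj : G (m + 2) →* MulAut (G (m + 2))) := by
    apply homG_ext
    · intro i hi
      rw [MonoidHom.comp_apply]
      unfold xGh
      rw [liftG_x _ _ _ hi, actAh_xh hi]
    · rw [MonoidHom.comp_apply]
      unfold xGh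
      rw [liftG_y, actAh_yh]
  exact DFunLike.congr_fun h g

/-- block B1: `G k` has trivial center -/
theorem G_center {k : ℕ} {g : G k} (hg : ∀ g' : G k, g * g' = g' * g) : g = 1 := G_center' hg

/-- piece `BN-B1-G15`: `xGh` is injective: `xGh g = 1` gives `conj g = 1` (`actAh_xGh`), then
`G_center`. -/
theorem xGh_inj : Function.Injective (xGh m) := by
  rw [injective_iff_map_eq_one]
  intro g hg
  have h := actAh_xGh g
  rw [hg, map_one] at h
  apply G_center
  intro g'
  have h2 : g' = g * g' * g⁻¹ := DFunLike.congr_fun h g'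
  rw [eq_mul_inv_iff_mul_eq] at h2
  exact h2.symm

private lemma G15_par_x {k i : ℕ} (hi : i ≤ k) : par k (xG i) = -1 := liftG_x _ _ _ hi

private lemma G15_par_y {k : ℕ} : par k yG = (-1) ^ (k + 1) := liftG_y _ _ _

private lemma G15_gA {k j : ℕ} (g : G k) : par k (gA j g) = par k g := by
  rcases Nat.lt_or_ge j k with hj | hj
  · have h : (par k).comp (gA j : MulAut (G k)).toMonoidHom = par k := by
      apply homG_ext
      · intro i hi
        change par k (gA j (xG i)) = par k (xG i)
        rw [gA_x hj hi, G15_par_x hi]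
        unfold gC
        split_ifs with h1 h2
        · rw [map_mul, map_mul, G15_par_x (by omega), G15_par_x (by omega)]
          rfl
        · exact G15_par_x (by omega)
        · exact G15_par_x hi
      · change par k (gA j yG) = par k yG
        rw [gA_y]
    exact DFunLike.congr_fun h g
  · unfold gA
    rw [dif_neg (by omega)]
    rfl

private lemma G15_conj {k : ℕ} (x g : G k) : par k (MulAut.conj x g) = par k g := by
  rw [MulAut.conj_apply, map_mul, map_mul, map_inv, mul_comm (par k x), mul_inv_cancel_right]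

private lemma G15_gB {k : ℕ} (g : G k) : par k (gB g) = par k g := by
  unfold gB
  rw [MulAut.mul_apply, MulAut.mul_apply, G15_conj, G15_gA, G15_conj]

private lemma G15_gD {k : ℕ} (g : G k) : par k (gD g) = par k g := by
  have h : (par k).comp (gD : MulAut (G k)).toMonoidHom = par k := by
    apply homG_ext
    · intro i hi
      change par k (gD (xG i)) = par k (xG i)
      rw [gD_x hi]
      unfold gDC
      split_ifs with h1
      · subst h1
        rw [map_mul, map_mul, map_inv, mul_comm (par k yG), mul_inv_cancel_right]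
      · rfl
    · change par k (gD yG) = par k yG
      rw [gD_y, map_mul, map_mul, map_mul, map_mul, map_inv, G15_par_x (Nat.zero_le _)]
      generalize par k yG = e
      rcases Int.units_eq_one_or e with rfl | rfl <;> rfl
  exact DFunLike.congr_fun h g

/-- piece `BN-B1-G15`: the action preserves the parity. Proof. The set of `x` for which
`par ∘ actA x = par` is a subgroup; `closure_A`; for the generators `homG_ext`; `par x_i = -1`,
`par y = (-1)^(m+3)` (unfold `par`, `liftG_x`, `liftG_y`): `gC j i` is a product of an odd number of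
letters `x`; `gB` = conj * gA * conj; `gD`: `y x_0 y⁻¹`, `y x_0 y x_0 y⁻¹`. -/
theorem par_act (x : A m) (g : G (m + 2)) : par (m + 2) (actA m x g) = par (m + 2) g := by
  have hx : x ∈ Subgroup.closure ({bA, dA} ∪ aA '' {j | j < m + 2} : Set (A m)) := by
    rw [closure_A]; trivial
  induction hx using Subgroup.closure_induction generalizing g with
  | mem x hx =>
    rcases hx with (rfl | rfl) | ⟨j, hj, rfl⟩
    · have e : actA m bA = gB := liftA_b _
      rw [e, G15_gB]
    · have e : actA m dA = gD := liftA_d _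
      rw [e, G15_gD]
    · have hj' : j < m + 2 := hj
      have e : actA m (aA j) = gA j := liftA_a _ hj'
      rw [e, G15_gA]
  | one => rw [map_one]; rfl
  | mul x y _ _ ihx ihy => rw [map_mul, MulAut.mul_apply, ihx, ihy]
  | inv x _ ih =>
    have h := ih (actA m x⁻¹ g)
    rw [map_inv, MulAut.apply_inv_self] at h
    rw [map_inv]
    exact h.symm

private lemma G15_xw (j : ℕ) : j ≤ m + 2 → xGh m (xw j) = xwh j := by
  induction j with
  | zero =>
    intro _
    exact xGh_x' (Nat.zero_le _)
  | succ j ih =>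
    intro hj
    have e1 : (xwh (j + 1) : Ah m) = xwh j * xh (j + 1) := rfl
    have e2 : (xw (j + 1) : G (m + 2)) = xw j * xG (j + 1) := rfl
    rw [e1, e2, map_mul, ih (by omega), xGh_x' hj]

/-- piece `BN-B1-G15`: `xGh r = ζ`: `r = y xw k`, `xGh (xw j) = xwh j` (induction), `yh = ζ (xwh k)⁻¹`. -/
theorem xGh_r (m : ℕ) : xGh m (rG (m + 2)) = iA (zeA m) := by
  have e1 : (yh : Ah m) = iA (zeA m) * (xwh (m + 2))⁻¹ := rfl
  have e2 : rG (m + 2) = yG * xw (m + 2) := rfl
  rw [e2, map_mul, xGh_y', G15_xw _ le_rfl, e1, inv_mul_cancel_right]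

/-- piece `BN-B1-G15`: `u = x_k x_{k-1}`: `x_k x_{k-1} = th a th a⁻¹ = b a⁻¹` (`a = a_{k-1}`). -/
theorem xGh_u (m : ℕ) : xGh m (xG (m + 2) * xG (m + 1)) = iA uA := by
  have h1 : (xh (m + 1) : Ah m) = iA (aA (m + 1)) * th * (iA (aA (m + 1)))⁻¹ := by
    rw [xh_step (by omega), xh_last]
  have h2 : (th : Ah m) * iA (aA (m + 1)) = iA bA * th := by
    rw [th_conj]
    congr 2
    exact tauHom_a'
  rw [map_mul, xGh_x' le_rfl, xGh_x' (by omega), xh_last, h1, ← mul_assoc, ← mul_assoc, h2,
    mul_assoc (iA bA) th th, th_sq, mul_one, ← map_inv, ← map_mul]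
  rfl

/-- the action of `A m` on `N` -/
def actN (m : ℕ) (x : A m) (n : N (m + 2)) : N (m + 2) :=
  ⟨actA m x n.1, by
    have h : par (m + 2) n.1 = 1 := n.2
    change par (m + 2) (actA m x n.1) = 1
    rw [par_act, h]⟩

/-- piece `BN-B1-G16`: `N → A m` is equivariant: apply the injective `iA`
(`SemidirectProduct.inl_injective`), `iA_nA`, `xGh_equiv`, `actAh_iA`. -/
theorem nA_equiv (x : A m) (n : N (m + 2)) : x * nA m n * x⁻¹ = nA m (actN m x n) := by
  apply SemidirectProduct.inl_injective (φ := tauAct m)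
  change iA (x * nA m n * x⁻¹) = iA (nA m (actN m x n))
  rw [map_mul, map_mul, map_inv, iA_nA, iA_nA, xGh_equiv, actAh_iA]
  rfl

/-- piece `BN-B1-G16`: `actAh (iA (nA n)) = actAh (xGh n)`, `actAh_xGh`. -/
theorem actA_nA (n : N (m + 2)) : actA m (nA m n) = MulAut.conj n.1 := by
  rw [← actAh_iA, iA_nA, actAh_xGh]

/-- piece `BN-B1-G16`: from `xGh_inj` and `iA_nA`. -/
theorem nA_inj : Function.Injective (nA m) := by
  intro n n' h
  have h2 : xGh m n.1 = xGh m n'.1 := by rw [← iA_nA, ← iA_nA, h]
  exact Subtype.ext (xGh_inj h2)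

/-- the element `r` of `N` -/
def rN (m : ℕ) : N (m + 2) := ⟨rG (m + 2), by
  change par (m + 2) (yG * xw (m + 2)) = 1
  have h : ∀ j, j ≤ m + 2 → par (m + 2) (xw j) = (-1) ^ (j + 1) := by
    intro j
    induction j with
    | zero =>
      intro _
      change liftG _ _ _ (xG 0) = _
      rw [liftG_x _ _ _ (by omega)]; rfl
    | succ j ih =>
      intro hj
      change par (m + 2) (xw j * xG (j + 1)) = _
      rw [map_mul, ih (by omega)]
      unfold par
      rw [liftG_x _ _ _ hj, ← pow_succ]
  rw [map_mul, h _ le_rfl]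
  unfold par
  rw [liftG_y]
  rw [← mul_pow]
  simp⟩

/-- piece `BN-B1-G16`: `nA r = ζ` (`xGh_r`, `iA` injective). -/
theorem nA_r (m : ℕ) : nA m (rN m) = zeA m := by
  apply SemidirectProduct.inl_injective (φ := tauAct m)
  exact (iA_nA (rN m)).trans (xGh_r m)

/-- the element `u = x_k x_{k-1}` of `N` -/
def uN (m : ℕ) : N (m + 2) := ⟨xG (m + 2) * xG (m + 1), by
  change par (m + 2) (xG (m + 2) * xG (m + 1)) = 1
  rw [map_mul]
  unfold par
  rw [liftG_x _ _ _ (by omega), liftG_x _ _ _ (by omega)]
  simp⟩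

/-- piece `BN-B1-G16`: `nA u = b a_{k-1}⁻¹` (`xGh_u`). -/
theorem nA_u (m : ℕ) : nA m (uN m) = uA := by
  apply SemidirectProduct.inl_injective (φ := tauAct m)
  exact (iA_nA (uN m)).trans (xGh_u m)

/-- piece `BN-B1-G16`: `τ` on `N` is the conjugation with `x_k` (`th_conj`, `th = xGh x_k`,
`th_sq`). -/
theorem tau_nA {n n' : N (m + 2)} (h : n'.1 = xG (m + 2) * n.1 * xG (m + 2)) :
    tau m (nA m n) = nA m n' := by
  apply SemidirectProduct.inl_injective (φ := tauAct m)
  change iA (tau m (nA m n)) = iA (nA m n')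
  have hx : xGh m (xG (m + 2)) = th := by
    unfold xGh
    rw [liftG_x _ _ _ le_rfl, xh_last]
  have h1 : iA (tau m (nA m n)) = th * iA (nA m n) * th := by
    rw [th_conj, mul_assoc, th_sq, mul_one]
  rw [h1, iA_nA, iA_nA, h, map_mul, map_mul, hx]

/-- piece `BN-B1-G17`: `homH_ext`. -/
theorem fold_inc (h : HB (m + 2)) : fold m (inc m h) = h := by
  have key : (fold m).comp (inc m) = MonoidHom.id _ := by
    refine homH_ext (fun j hj => ?_) ?_
    · change fold m (inc m (aH j)) = aH j
      unfold inc fold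
      rw [liftH_a _ hj, liftA_a _ hj]
    · change fold m (inc m dH) = dH
      unfold inc fold
      rw [liftH_d, liftA_d]
  exact DFunLike.congr_fun key h

/-- piece `BN-B1-G17` -/
theorem inc_inj : Function.Injective (inc m) := fun x y h => by
  rw [← fold_inc x, ← fold_inc y, h]

/-- piece `BN-B1-G17`: `map_zeta`, `zeta_congr`. -/
theorem inc_zeta (m : ℕ) : inc m (zeH (m + 2)) = zeA m := by
  unfold zeH zeA
  rw [map_zeta]
  have hd : inc m dH = dA := by
    unfold inc
    rw [liftH_d]
  rw [hd]
  refine zeta_congr (fun j hj => ?_) _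
  unfold inc
  rw [liftH_a _ hj]

/-- piece `BN-B1-G17`: `homH_ext` -/
theorem piA_inc (h : HB (m + 2)) : piA m (inc m h) = piH (m + 2) h := by
  have key : (piA m).comp (inc m) = piH (m + 2) := by
    refine homH_ext (fun j hj => ?_) ?_
    · change piA m (inc m (aH j)) = piH (m + 2) (aH j)
      unfold inc piA piH
      rw [liftH_a _ hj, liftA_a _ hj, liftH_a _ hj]
    · change piA m (inc m dH) = piH (m + 2) dH
      unfold inc piA piH
      rw [liftH_d, liftA_d, liftH_d]
  exact DFunLike.congr_fun key h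

/-- piece `BN-B1-G17`: `homA_ext` -/
theorem piH_fold (x : A m) : piH (m + 2) (fold m x) = piA m x := by
  have key : (piH (m + 2)).comp (fold m) = piA m := by
    refine homA_ext (fun j hj => ?_) ?_ ?_
    · change piH (m + 2) (fold m (aA j)) = piA m (aA j)
      unfold fold piA piH
      rw [liftA_a _ hj, liftA_a _ hj, liftH_a _ hj]
    · change piH (m + 2) (fold m bA) = piA m bA
      unfold fold piA piH
      rw [liftA_b, liftA_b, liftH_a _ (by omega)]
    · change piH (m + 2) (fold m dA) = piA m dA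
      unfold fold piA piH
      rw [liftA_d, liftA_d, liftH_d]
  exact DFunLike.congr_fun key x

private lemma g18_fold_a {j : ℕ} (hj : j < m + 2) : fold m (aA j) = aH j := by
  unfold fold; rw [liftA_a _ hj]

private lemma g18_fold_tau (x : A m) : fold m (tau m x) = fold m x := by
  have h1 : (fold m).comp (tauHom m) = fold m := by
    apply homA_ext
    · intro j hj
      rcases Nat.lt_or_ge j (m + 1) with h | h
      · rw [MonoidHom.comp_apply, tauHom_a h]
      · have e : j = m + 1 := by omega
        subst e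
        rw [MonoidHom.comp_apply, tauHom_a', g18_fold_a hj]
        unfold fold
        rw [liftA_b]
    · rw [MonoidHom.comp_apply, tauHom_b, g18_fold_a (by omega)]
      unfold fold
      rw [liftA_b]
    · rw [MonoidHom.comp_apply, tauHom_d]
  exact DFunLike.congr_fun h1 x

private lemma g18_compat (g : ℤˣ) : (fold m).comp (tauAct m g).toMonoidHom =
    (MulAut.conj ((1 : ℤˣ →* HB (m + 2)) g)).toMonoidHom.comp (fold m) := by
  apply MonoidHom.ext
  intro x
  rcases Int.units_eq_one_or g with rfl | rfl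
  · simp
  · simp only [MonoidHom.comp_apply, MulEquiv.coe_toMonoidHom, tauAct_neg, MonoidHom.one_apply,
      map_one, MulAut.one_apply]
    exact g18_fold_tau x

/-- the extension of the fold to `Ah m` -/
private def g18_fh (m : ℕ) : Ah m →* HB (m + 2) :=
  SemidirectProduct.lift (fold m) 1 g18_compat

private lemma g18_fh_iA (x : A m) : g18_fh m (iA x) = fold m x :=
  SemidirectProduct.lift_inl _ _ _ _

private lemma g18_fh_th : g18_fh m th = 1 := by
  unfold g18_fh th
  rw [SemidirectProduct.lift_inr]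
  rfl

private lemma g18_fh_xr (i : ℕ) : g18_fh m (xr i) = 1 := by
  induction i with
  | zero => exact g18_fh_th
  | succ i ih =>
    change g18_fh m (iA (aA (m + 1 - i)) * xr i * (iA (aA (m + 1 - i)))⁻¹) = 1
    rw [map_mul, map_mul, ih, map_inv, mul_one, mul_inv_cancel]

private lemma g18_fh_xwh (j : ℕ) : g18_fh m (xwh j) = 1 := by
  induction j with
  | zero => exact g18_fh_xr _
  | succ j ih =>
    change g18_fh m (xwh j * xh (j + 1)) = 1
    rw [map_mul, ih, one_mul]
    exact g18_fh_xr _

private lemma g18_fh_yh : g18_fh m yh = zeH (m + 2) := by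
  unfold yh
  rw [map_mul, map_inv, g18_fh_xwh, inv_one, mul_one, g18_fh_iA]
  unfold zeA zeH
  rw [map_zeta, show fold m dA = dH by unfold fold; rw [liftA_d]]
  exact zeta_congr (fun j hj => g18_fold_a hj) _

/-- piece `BN-B1-G18`: define `fh : Ah m →* HB (m+2)` by `fold` on `A m` and `th ↦ 1`
(`SemidirectProduct.lift (fold m) 1`, compatibility `fold (tau x) = fold x` by `homA_ext`); then
`fh (xh j) = 1` (descending induction), `fh yh = ζ` (`map_zeta`), so `fh ∘ xGh` has values in `⟨ζ⟩`
(the homomorphism `G → HB`, `x_i ↦ 1`, `y ↦ ζ`, `homG_ext`; or closure induction). -/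
theorem fold_nA (n : N (m + 2)) : ∃ e : ℤ, fold m (nA m n) = zeH (m + 2) ^ e := by
  have h1 : (g18_fh m).comp (xGh m) =
      (zpowersHom (HB (m + 2)) (zeH (m + 2))).comp
        (liftG (k := m + 2) (fun _ => 1) (fun _ _ => one_mul 1) (Multiplicative.ofAdd (1 : ℤ))) := by
    apply homG_ext
    · intro i hi
      rw [MonoidHom.comp_apply, MonoidHom.comp_apply, liftG_x _ _ _ hi, map_one]
      unfold xGh
      rw [liftG_x _ _ _ hi]
      exact g18_fh_xr _
    · rw [MonoidHom.comp_apply, MonoidHom.comp_apply, liftG_y]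
      unfold xGh
      rw [liftG_y, g18_fh_yh]
      simp
  have h2 := DFunLike.congr_fun h1 n.1
  rw [MonoidHom.comp_apply, MonoidHom.comp_apply, ← iA_nA, g18_fh_iA] at h2
  rw [h2]
  exact ⟨_, zpowersHom_apply _ _ _⟩

/-- piece `BN-B1-G19`: `A = N H`. Proof. `closure_A` induction with left multiplication: the set of
products `nA n * inc h` contains `1` and is closed under left multiplication with `a_j^{±1}`, `d^{±1}`
(`inc`, `nA_equiv`: `x * nA n = nA n' * x`) and `b = nA (uN) * inc a_{k-1}` (`nA_u`, `uA = b a_{k-1}⁻¹`).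
Simplest: for all `x y` in the set also `x y` and `x⁻¹` are (`nA n inc h nA n' inc h' = nA n
(inc h nA n' inc h⁻¹) inc h h'`). -/
theorem A_decomp (x : A m) : ∃ (n : N (m + 2)) (h : HB (m + 2)), x = nA m n * inc m h := by
  have hinc_a : ∀ j, j < m + 2 → inc m (aH j) = (aA j : A m) := by
    intro j hj
    unfold inc
    rw [liftH_a _ hj]
  have hinc_d : inc m (dH : HB (m + 2)) = (dA : A m) := by
    unfold inc
    rw [liftH_d]
  let S : Subgroup (A m) :=
    { carrier := {x | ∃ (n : N (m + 2)) (h : HB (m + 2)), x = nA m n * inc m h}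
      one_mem' := ⟨1, 1, by simp⟩
      mul_mem' := by
        rintro x y ⟨n, h, rfl⟩ ⟨n', h', rfl⟩
        refine ⟨n * actN m (inc m h) n', h * h', ?_⟩
        rw [map_mul, map_mul, ← nA_equiv]
        group
      inv_mem' := by
        rintro x ⟨n, h, rfl⟩
        refine ⟨actN m (inc m h)⁻¹ n⁻¹, h⁻¹, ?_⟩
        rw [← nA_equiv, map_inv, map_inv]
        group }
  have ha : ∀ j, j < m + 2 → (aA j : A m) ∈ S := fun j hj =>
    ⟨1, aH j, by rw [map_one, one_mul, hinc_a j hj]⟩
  have hd : (dA : A m) ∈ S := ⟨1, dH, by rw [map_one, one_mul, hinc_d]⟩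
  have hb : (bA : A m) ∈ S := by
    refine ⟨uN m, aH (m + 1), ?_⟩
    rw [nA_u, hinc_a _ (by omega)]
    unfold uA
    group
  have h : (⊤ : Subgroup (A m)) ≤ S := by
    rw [← closure_A, Subgroup.closure_le]
    rintro x ((h | h) | ⟨j, hj, rfl⟩)
    · rw [h]; exact hb
    · rw [Set.mem_singleton_iff] at h; rw [h]; exact hd
    · exact ha j hj
  exact h (Subgroup.mem_top x)

/-- piece `BN-B1-G19`: `N` is the preimage of `⟨ζ⟩` under the fold: `→` is `fold_nA`; `←`: `x = nA n inc h`
(`A_decomp`), `fold x = ζ^e h`, so `h ∈ ⟨ζ⟩` and `inc ζ = ζ = nA r` (`inc_zeta`, `nA_r`). -/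
theorem mem_range_nA {x : A m} : x ∈ (nA m).range ↔
    fold m x ∈ Subgroup.zpowers (zeH (m + 2)) := by
  constructor
  · rintro ⟨n, rfl⟩
    obtain ⟨e, he⟩ := fold_nA n
    rw [he]
    exact ⟨e, rfl⟩
  · intro hx
    obtain ⟨n, h, rfl⟩ := A_decomp x
    rw [map_mul, fold_inc] at hx
    obtain ⟨e, he⟩ := fold_nA n
    rw [he] at hx
    have hh : h ∈ Subgroup.zpowers (zeH (m + 2)) :=
      (Subgroup.mul_mem_cancel_left _ (Subgroup.zpow_mem_zpowers (zeH (m + 2)) e)).1 hx
    obtain ⟨f, hf⟩ := hh
    have hf' : zeH (m + 2) ^ f = h := hf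
    refine ⟨n * rN m ^ f, ?_⟩
    rw [map_mul, map_zpow, nA_r, ← hf', map_zpow, inc_zeta]

/-- piece `BN-B1-G20`: the kernel of the fold. Proof. `⊇`: `fold u = a_{k-1} a_{k-1}⁻¹ = 1`. `⊆`: in the
quotient `A/U`, `U = normalClosure {u}`, the homomorphisms `mk ∘ inc ∘ fold` and `mk` agree
(`homA_ext`: `mk b = mk a_{k-1}`), so `fold x = 1` gives `mk x = 1`. -/
theorem ker_fold (m : ℕ) : (fold m).ker = Subgroup.normalClosure ({uA} : Set (A m)) := by
  have ha : ∀ j, j < m + 2 → fold m (aA j) = aH j := fun j hj => by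
    unfold fold; rw [liftA_a _ hj]
  have hb : fold m bA = aH (m + 1) := by unfold fold; rw [liftA_b]
  have hd : fold m dA = dH := by unfold fold; rw [liftA_d]
  have ia : ∀ j, j < m + 2 → inc m (aH j) = aA j := fun j hj => by
    unfold inc; rw [liftH_a _ hj]
  have id : inc m dH = dA := by unfold inc; rw [liftH_d]
  apply le_antisymm
  · intro x hx
    rw [MonoidHom.mem_ker] at hx
    have hu : (QuotientGroup.mk' (Subgroup.normalClosure ({uA} : Set (A m)))) (aA (m + 1)) =
        (QuotientGroup.mk' (Subgroup.normalClosure ({uA} : Set (A m)))) bA := by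
      have h1 : (QuotientGroup.mk' (Subgroup.normalClosure ({uA} : Set (A m)))) uA = 1 :=
        (QuotientGroup.eq_one_iff _).2 (Subgroup.subset_normalClosure rfl)
      unfold uA at h1
      rw [map_mul, map_inv, mul_inv_eq_one] at h1
      exact h1.symm
    have key : ((QuotientGroup.mk' (Subgroup.normalClosure ({uA} : Set (A m)))).comp
        (inc m)).comp (fold m) = QuotientGroup.mk' (Subgroup.normalClosure ({uA} : Set (A m))) := by
      apply homA_ext
      · intro j hj
        rw [MonoidHom.comp_apply, MonoidHom.comp_apply, ha j hj, ia j hj]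
      · rw [MonoidHom.comp_apply, MonoidHom.comp_apply, hb, ia (m + 1) (by omega), hu]
      · rw [MonoidHom.comp_apply, MonoidHom.comp_apply, hd, id]
    have h2 := DFunLike.congr_fun key x
    rw [MonoidHom.comp_apply, hx, map_one] at h2
    exact (QuotientGroup.eq_one_iff x).1 h2.symm
  · apply Subgroup.normalClosure_le_normal
    rintro x hx
    rw [Set.mem_singleton_iff] at hx
    subst hx
    change fold m uA = 1
    unfold uA
    rw [map_mul, map_inv, hb, ha (m + 1) (by omega), mul_inv_cancel]

private lemma ab_tau (x : A m) : ab m (tau m x) = ab m x := by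
  have h : (ab m).comp (tauHom m) = ab m := by
    apply homA_ext
    · intro j hj
      rw [MonoidHom.comp_apply]
      rcases Nat.lt_or_ge j (m + 1) with h | h
      · rw [tauHom_a h]
      · have e : j = m + 1 := by omega
        subst e
        rw [tauHom_a']
        unfold ab
        rw [liftA_b, liftA_a _ hj]
    · rw [MonoidHom.comp_apply, tauHom_b]
      unfold ab
      rw [liftA_b, liftA_a _ (by omega)]
    · rw [MonoidHom.comp_apply, tauHom_d]
  exact DFunLike.congr_fun h x

private noncomputable def abh (m : ℕ) : Ah m →* Multiplicative (ℤ × ℤ) :=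
  SemidirectProduct.lift (ab m) 1 (by
    intro g
    refine MonoidHom.ext (fun x => ?_)
    simp only [MonoidHom.comp_apply, MonoidHom.one_apply, map_one]
    change ab m (tauAct m g x) = ab m x
    rcases Int.units_eq_one_or g with rfl | rfl
    · simp
    · rw [tauAct_neg]
      exact ab_tau x)

private lemma abh_iA (x : A m) : abh m (iA x) = ab m x := by
  unfold abh
  exact SemidirectProduct.lift_inl _ _ _ _

private lemma abh_th : abh m th = 1 := by
  unfold abh th
  rw [SemidirectProduct.lift_inr]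
  rfl

private lemma abh_xr (i : ℕ) : abh m (xr i) = 1 := by
  induction i with
  | zero => exact abh_th
  | succ i ih =>
    change abh m (iA (aA (m + 1 - i)) * xr i * (iA (aA (m + 1 - i)))⁻¹) = 1
    rw [map_mul, map_mul, map_inv, ih, mul_one, mul_inv_cancel]

private lemma abh_xwh (j : ℕ) : abh m (xwh j) = 1 := by
  induction j with
  | zero => exact abh_xr _
  | succ j ih =>
    change abh m (xwh j * xh (j + 1)) = 1
    rw [map_mul, ih, one_mul]
    exact abh_xr _

private lemma kap_ab (j : ℕ) (hj : j ≤ m + 2) :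
    ab m (kap aA j) = (Multiplicative.ofAdd ((1, 0) : ℤ × ℤ)) ^ j := by
  induction j with
  | zero => exact map_one _
  | succ j ih =>
    change ab m (kap aA j * aA j) = _
    rw [map_mul, ih (by omega), pow_succ]
    congr 1
    unfold ab
    exact liftA_a _ (by omega)

private lemma ab_zeA (m : ℕ) : ab m (zeA m) =
    Multiplicative.ofAdd ((((m + 3) * (m + 2) : ℕ) : ℤ), ((m + 3 : ℕ) : ℤ)) := by
  unfold zeA zeta rho
  rw [map_pow, map_mul, kap_ab _ le_rfl]
  have hd : ab m dA = Multiplicative.ofAdd ((0, 1) : ℤ × ℤ) := by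
    unfold ab
    exact liftA_d _
  rw [hd, ← ofAdd_nsmul, ← ofAdd_add, ← ofAdd_nsmul]
  congr 1
  ext
  · simp only [nsmul_eq_mul, Prod.smul_mk, Prod.mk_add_mk]
    push_cast
    simp
    ring_nf
    try simp
  · simp
    try ring

/-- piece `BN-B1-G21`: the exponents of the elements of `N`: `x_i ↦ 0`, `y ↦ n (k, 1)`.
Proof. Extend `ab` to `Ah m` by `th ↦ 1` (`SemidirectProduct.lift (ab m) 1`, `ab (tau x) = ab x` by
`homA_ext`). `xh j ↦ 1` (its square is `1` and the target is torsion free; or descending induction: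
conjugation is trivial in a commutative group), `yh ↦ ab ζ = (k+1) (k, 1)`, `k + 1 = m + 3`
(`map_zeta`; `kap` of constants). Then `homG_ext`. -/
theorem ab_nA (n : N (m + 2)) : ab m (nA m n) =
    liftG (k := m + 2) (fun _ => 1) (fun _ _ => one_mul 1)
      (Multiplicative.ofAdd ((((m + 3) * (m + 2) : ℕ) : ℤ), ((m + 3 : ℕ) : ℤ))) n.1 := by
  rw [← abh_iA, iA_nA]
  have h : (abh m).comp (xGh m) = liftG (k := m + 2) (fun _ => 1) (fun _ _ => one_mul 1)
      (Multiplicative.ofAdd ((((m + 3) * (m + 2) : ℕ) : ℤ), ((m + 3 : ℕ) : ℤ))) := by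
    apply homG_ext
    · intro i hi
      rw [MonoidHom.comp_apply, liftG_x _ _ _ hi]
      unfold xGh
      rw [liftG_x _ _ _ hi]
      exact abh_xr _
    · rw [MonoidHom.comp_apply, liftG_y]
      unfold xGh
      rw [liftG_y]
      unfold yh
      rw [map_mul, map_inv, abh_xwh, abh_iA, ab_zeA]
      simp
  exact DFunLike.congr_fun h n.1

end Pool.Agent.Helper38.BN
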