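import Pool.Agent.Helper38.BN.Core

/-!
# Project BN: the automorphisms `ε`, `τ`, the group `Ah m = A m ⋊ ⟨τ⟩` and the homomorphism
`N → A m`
-/

namespace Pool.Agent.Helper38.BN

section
variable {m : ℕ}

lemma epsHom_a {j : ℕ} (hj : j < m + 2) : epsHom m (aA j) = (aA j)⁻¹ := liftA_a _ hj
@[simp] lemma epsHom_b : epsHom m bA = bA⁻¹ := liftA_b _
@[simp] lemma epsHom_d : epsHom m dA = dA⁻¹ := liftA_d _
lemma tauHom_a {j : ℕ} (hj : j < m + 1) : tauHom m (aA j) = aA j := by
  unfold tauHom
  rw [liftA_a _ (by omega), if_neg (by omega)]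
@[simp] lemma tauHom_a' : tauHom m (aA (m + 1)) = bA := by
  unfold tauHom
  rw [liftA_a _ (by omega), if_pos rfl]
@[simp] lemma tauHom_b : tauHom m bA = aA (m + 1) := liftA_b _
@[simp] lemma tauHom_d : tauHom m dA = dA := liftA_d _

lemma epsHom_epsHom (x : A m) : epsHom m (epsHom m x) = x := by
  have : (epsHom m).comp (epsHom m) = MonoidHom.id (A m) := by
    apply homA_ext
    · intro j hj
      rw [MonoidHom.comp_apply, epsHom_a hj, map_inv, epsHom_a hj, inv_inv, MonoidHom.id_apply]
    · simp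
    · simp
  exact DFunLike.congr_fun this x

lemma tauHom_tauHom (x : A m) : tauHom m (tauHom m x) = x := by
  have : (tauHom m).comp (tauHom m) = MonoidHom.id (A m) := by
    apply homA_ext
    · intro j hj
      rcases Nat.lt_or_ge j (m + 1) with h | h
      · rw [MonoidHom.comp_apply, tauHom_a h, tauHom_a h, MonoidHom.id_apply]
      · have e : j = m + 1 := by omega
        subst e
        simp
    · simp
    · simp
  exact DFunLike.congr_fun this x

/-- the automorphism `ε` which inverts the generators -/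
def eps (m : ℕ) : MulAut (A m) where
  toFun := epsHom m
  invFun := epsHom m
  left_inv := epsHom_epsHom
  right_inv := epsHom_epsHom
  map_mul' := map_mul _

/-- the automorphism `τ` which exchanges `a_{k-1}` and `b` -/
def tau (m : ℕ) : MulAut (A m) where
  toFun := tauHom m
  invFun := tauHom m
  left_inv := tauHom_tauHom
  right_inv := tauHom_tauHom
  map_mul' := map_mul _

lemma tau_tau : tau m * tau m = 1 := by
  ext x
  exact tauHom_tauHom x

/-- the action of the group of order two on `A m` -/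
def tauAct (m : ℕ) : ℤˣ →* MulAut (A m) := c2hom (tau m) tau_tau

@[simp] lemma tauAct_neg : tauAct m (-1) = tau m := c2hom_neg _ _

/-- the group `A m ⋊ ⟨τ⟩` -/
abbrev Ah (m : ℕ) : Type := A m ⋊[tauAct m] ℤˣ

/-- the inclusion `A m → Ah m` -/
abbrev iA : A m →* Ah m := SemidirectProduct.inl

/-- the element `τ` of `Ah m` -/
def th : Ah m := SemidirectProduct.inr (-1)

lemma th_sq : (th : Ah m) * th = 1 := by
  unfold th; rw [← map_mul]; simp

lemma th_conj (x : A m) : th * iA x = iA (tau m x) * th := by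
  have h := SemidirectProduct.inl_aut (φ := tauAct m) (-1) x
  rw [tauAct_neg] at h
  unfold iA th
  rw [h, mul_assoc, mul_assoc, ← map_mul]
  simp

/-- the involutions `x_{k-i}` of `Ah m`, `k = m + 2` -/
def xr : ℕ → Ah m
  | 0 => th
  | i + 1 => iA (aA (m + 1 - i)) * xr i * (iA (aA (m + 1 - i)))⁻¹

/-- the involutions `x_j` of `Ah m` -/
def xh (j : ℕ) : Ah m := xr (m + 2 - j)

lemma conj_sq {K : Type*} [Group K] (g x : K) (hx : x * x = 1) :
    g * x * g⁻¹ * (g * x * g⁻¹) = 1 := by
  have : g * x * g⁻¹ * (g * x * g⁻¹) = g * (x * x) * g⁻¹ := by group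
  rw [this, hx]; group

lemma xr_sq (i : ℕ) : (xr i : Ah m) * xr i = 1 := by
  induction i with
  | zero => exact th_sq
  | succ i ih => exact conj_sq _ _ ih

lemma xh_sq (j : ℕ) : (xh j : Ah m) * xh j = 1 := xr_sq _

lemma xh_last : (xh (m + 2) : Ah m) = th := by
  unfold xh; rw [Nat.sub_self]; rfl

lemma xh_step {j : ℕ} (hj : j < m + 2) :
    (xh j : Ah m) = iA (aA j) * xh (j + 1) * (iA (aA j))⁻¹ := by
  unfold xh
  obtain ⟨i, hi⟩ : ∃ i, m + 2 - j = i + 1 := ⟨m + 1 - j, by omega⟩
  rw [hi, show m + 2 - (j + 1) = i by omega]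
  change iA (aA (m + 1 - i)) * xr i * (iA (aA (m + 1 - i)))⁻¹ = _
  rw [show m + 1 - i = j by omega]

/-- the product `x_0 ⋯ x_j` in `Ah m` -/
def xwh : ℕ → Ah m
  | 0 => xh 0
  | j + 1 => xwh j * xh (j + 1)

/-- the element `y = ζ (x_0 ⋯ x_k)⁻¹` -/
def yh : Ah m := iA (zeA m) * (xwh (m + 2))⁻¹

/-- the homomorphism `G (m+2) → Ah m` -/
def xGh (m : ℕ) : G (m + 2) →* Ah m := liftG xh (fun i _ => xh_sq i) yh

lemma xr_right (i : ℕ) : (xr i : Ah m).right = -1 := by
  induction i with
  | zero => rfl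
  | succ i ih =>
    change ((iA (aA (m + 1 - i)) : Ah m) * xr i * (iA (aA (m + 1 - i)) : Ah m)⁻¹).right = -1
    rw [SemidirectProduct.mul_right, SemidirectProduct.mul_right, SemidirectProduct.inv_right, ih]
    simp

lemma xh_right (j : ℕ) : (xh j : Ah m).right = -1 := xr_right _

lemma xwh_right (j : ℕ) : (xwh j : Ah m).right = (-1) ^ (j + 1) := by
  induction j with
  | zero => rw [show (xwh 0 : Ah m) = xh 0 from rfl, xh_right]; rfl
  | succ j ih =>
    rw [show (xwh (j + 1) : Ah m) = xwh j * xh (j + 1) from rfl, SemidirectProduct.mul_right, ih,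
      xh_right, ← pow_succ]

lemma yh_right : (yh : Ah m).right = (-1) ^ (m + 3) := by
  unfold yh
  rw [SemidirectProduct.mul_right, SemidirectProduct.inv_right, xwh_right]
  simp [← inv_pow]

lemma xGh_right (g : G (m + 2)) : (xGh m g).right = par (m + 2) g := by
  have h : (SemidirectProduct.rightHom : Ah m →* ℤˣ).comp (xGh m) = par (m + 2) := by
    apply homG_ext
    · intro i hi
      rw [MonoidHom.comp_apply]
      unfold xGh par
      rw [liftG_x _ _ _ hi, liftG_x _ _ _ hi]
      exact xh_right i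
    · rw [MonoidHom.comp_apply]
      unfold xGh par
      rw [liftG_y, liftG_y]
      exact yh_right
  exact DFunLike.congr_fun h g

/-- the homomorphism `N → A m` -/
def nA (m : ℕ) : N (m + 2) →* A m where
  toFun n := (xGh m n.1).left
  map_one' := by
    change (xGh m 1).left = 1
    rw [map_one]; rfl
  map_mul' := by
    intro x y
    change (xGh m (x.1 * y.1)).left = _
    rw [map_mul, SemidirectProduct.mul_left, xGh_right]
    have h : par (m + 2) x.1 = 1 := x.2
    rw [h, map_one]; rfl

lemma iA_nA (n : N (m + 2)) : iA (nA m n) = xGh m n.1 := by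
  refine SemidirectProduct.ext rfl ?_
  rw [xGh_right]
  have h : par (m + 2) n.1 = 1 := n.2
  rw [h]; rfl

end

end Pool.Agent.Helper38.BN
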