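import Pool.Agent.Helper38.BN.B3W1

/-!
# Project BN, block B3, piece B3-14: standard position
-/

namespace Pool.Agent.Helper38.BN

open Equiv

variable {α : Type*} [DecidableEq α]

private lemma swap_invol {s : Perm α} (hs : s.IsSwap) (z : α) : s (s z) = z := by
  obtain ⟨x, y, -, rfl⟩ := hs
  rw [← Perm.mul_apply, swap_mul_self]
  rfl

private lemma swap_moves {s : Perm α} (hs : s.IsSwap) {z : α} (hz : s z ≠ z) :
    s (s z) ≠ s z := by
  rw [swap_invol hs]
  exact hz.symm

private lemma std_start {p : ℕ} (hp : 1 ≤ p) {a : ℕ → Perm α} (h : RelBr p a)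
    (hs : ∀ i, i < p → (a i).IsSwap) (hd : ∀ i j, i < j → j < p → a i ≠ a j) :
    ∃ u : α, a 0 u ≠ u ∧ (1 < p → a 1 u = u ∧ a 1 (a 0 u) ≠ a 0 u) := by
  have h0 := hs 0 (by omega)
  obtain ⟨z, hz⟩ : ∃ z, a 0 z ≠ z := by
    obtain ⟨x, y, hxy, hxy'⟩ := h0
    refine ⟨x, ?_⟩
    rw [hxy', swap_apply_left]
    exact hxy.symm
  by_cases hp1 : 1 < p
  · rcases moves_of_braid h0 (hs 1 hp1) (h.braid 0 hp1) (hd 0 1 (by omega) hp1) hz with h1 | h1
    · exact ⟨z, hz, fun _ => h1⟩
    · refine ⟨a 0 z, swap_moves h0 hz, fun _ => ⟨h1.2, ?_⟩⟩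
      rw [swap_invol h0]
      exact h1.1
  · exact ⟨z, hz, fun h' => absurd h' hp1⟩

/-- piece B3-14: transpositions with the relations of the braid group are in standard position.
Proof. By `moves_of_braid` for `a 0` and `a 1` (if `p ≥ 2`) there is a point `u` with `a 0 u ≠ u`,
`a 1 u = u` and `a 1 (a 0 u) ≠ a 0 u` (if `p = 1` take any moved point `u`). Define `c 0 = u`,
`c (i + 1) = a i (c i)`. Claim, by induction on `i < p`: `a i (c i) ≠ c i` (so
`a i = swap (c i) (c (i + 1))` by `swap_eq`) and, if `i + 1 < p`, `a (i + 1) (c (i + 1)) ≠ c (i + 1)`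
and `a (i + 1) (c i) = c i`. Step: `a (i + 2)` commutes with `a i`, so it fixes `c (i + 1)`
(`fix_of_commute`; `a i` moves `c (i + 1)`), so by `moves_of_braid` for `a (i + 1)`, `a (i + 2)` and
the point `c (i + 1)` it moves `a (i + 1) (c (i + 1)) = c (i + 2)`.
Injectivity: let `i < j ≤ p`. `j = i + 1`: `a i` moves `c i`. `j = i + 2`: `c (i + 2) = c i` would
give `a (i + 1) = swap (c (i + 1)) (c i) = a i`. `j ≥ i + 3`: `a i` moves `c i`, `a (j - 1)` moves
`c j`, they commute, so `a (j - 1)` fixes `c i`. -/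
theorem std_pos {p : ℕ} (hp : 1 ≤ p) {a : ℕ → Perm α} (h : RelBr p a)
    (hs : ∀ i, i < p → (a i).IsSwap) (hd : ∀ i j, i < j → j < p → a i ≠ a j) :
    ∃ c : ℕ → α, (∀ i j, i < j → j ≤ p → c i ≠ c j) ∧
      ∀ i, i < p → a i = swap (c i) (c (i + 1)) := by
  obtain ⟨u, hu, hu1⟩ := std_start hp h hs hd
  obtain ⟨c, hc0, hc⟩ : ∃ c : ℕ → α, c 0 = u ∧ ∀ i, c (i + 1) = a i (c i) :=
    ⟨fun n => Nat.rec u (fun i x => a i x) n, rfl, fun _ => rfl⟩
  have key : ∀ i, i < p → a i (c i) ≠ c i ∧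
      (i + 1 < p → a (i + 1) (c i) = c i ∧ a (i + 1) (c (i + 1)) ≠ c (i + 1)) := by
    intro i
    induction i with
    | zero =>
      intro _
      rw [hc 0, hc0]
      exact ⟨hu, hu1⟩
    | succ i ih =>
      intro hi
      obtain ⟨h1, h2⟩ := ih (by omega)
      obtain ⟨h3, h4⟩ := h2 hi
      refine ⟨h4, fun hi2 => ?_⟩
      have h5 : a i (c (i + 1)) ≠ c (i + 1) := by
        rw [hc i]
        exact swap_moves (hs i (by omega)) h1
      have h6 : a (i + 1 + 1) (c (i + 1)) = c (i + 1) :=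
        fix_of_commute (hs i (by omega)) (hs (i + 1 + 1) hi2) (h.comm i (i + 1 + 1) (by omega) hi2)
          (hd i (i + 1 + 1) (by omega) hi2) h5
      refine ⟨h6, ?_⟩
      rcases moves_of_braid (hs (i + 1) hi) (hs (i + 1 + 1) hi2) (h.braid (i + 1) hi2)
        (hd (i + 1) (i + 1 + 1) (by omega) hi2) h4 with h7 | h7
      · rw [hc (i + 1)]
        exact h7.2
      · exact absurd h6 h7.1
  have hsw : ∀ i, i < p → a i = swap (c i) (c (i + 1)) := by
    intro i hi
    rw [hc i]
    exact swap_eq (hs i hi) (key i hi).1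
  refine ⟨c, ?_, hsw⟩
  intro i j hij hj
  rcases Nat.lt_or_ge j (i + 3) with hj3 | hj3
  · rcases Nat.lt_or_ge j (i + 2) with hj2 | hj2
    · have e : j = i + 1 := by omega
      subst e
      rw [hc i]
      exact (key i (by omega)).1.symm
    · have e : j = i + 1 + 1 := by omega
      subst e
      intro he
      have h1 := hsw (i + 1) (by omega)
      rw [← he, swap_comm, ← hsw i (by omega)] at h1
      exact hd i (i + 1) (by omega) (by omega) h1.symm
  · obtain ⟨r, rfl⟩ : ∃ r, j = r + 1 := ⟨j - 1, by omega⟩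
    intro he
    have h1 : a r (c i) = c i :=
      fix_of_commute (hs i (by omega)) (hs r (by omega)) (h.comm i r (by omega) (by omega))
        (hd i r (by omega) (by omega)) (key i (by omega)).1
    have h2 : a r (c (r + 1)) ≠ c (r + 1) := by
      rw [hc r]
      exact swap_moves (hs r (by omega)) (key r (by omega)).1
    rw [← he] at h2
    exact h2 h1

end Pool.Agent.Helper38.BN
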