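import Pool.Agent.Helper38.BN.Words

/-!
# Project BN: the automorphisms of `F k` and of `G k` given by the generators
-/

namespace Pool.Agent.Helper38.BN

section
variable {k : ℕ}

/-- an automorphism of `F k` from the images of the generators under it and under its inverse -/
def mkAutF (c c' : ℕ → F k) (h1 : ∀ i, i ≤ k → liftF c (c' i) = zF i)
    (h2 : ∀ i, i ≤ k → liftF c' (c i) = zF i) : MulAut (F k) :=
  MonoidHom.toMulEquiv (liftF c) (liftF c')
    (homF_ext fun i hi => by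
      rw [MonoidHom.comp_apply, liftF_z c hi, h2 i hi, MonoidHom.id_apply])
    (homF_ext fun i hi => by
      rw [MonoidHom.comp_apply, liftF_z c' hi, h1 i hi, MonoidHom.id_apply])

lemma mkAutF_z {c c' : ℕ → F k} {h1 : ∀ i, i ≤ k → liftF c (c' i) = zF i}
    {h2 : ∀ i, i ≤ k → liftF c' (c i) = zF i} {i : ℕ} (hi : i ≤ k) :
    mkAutF c c' h1 h2 (zF i) = c i := liftF_z c hi

/-- an automorphism of `G k` from the images of the generators under it and under its inverse -/
def mkAutG (X X' : ℕ → G k) (hX : ∀ i, i ≤ k → X i * X i = 1)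
    (hX' : ∀ i, i ≤ k → X' i * X' i = 1) (Y Y' : G k)
    (h1 : ∀ i, i ≤ k → liftG X hX Y (X' i) = xG i) (h1' : liftG X hX Y Y' = yG)
    (h2 : ∀ i, i ≤ k → liftG X' hX' Y' (X i) = xG i) (h2' : liftG X' hX' Y' Y = yG) :
    MulAut (G k) :=
  MonoidHom.toMulEquiv (liftG X hX Y) (liftG X' hX' Y')
    (homG_ext (fun i hi => by
      rw [MonoidHom.comp_apply, liftG_x X hX Y hi, h2 i hi, MonoidHom.id_apply])
      (by rw [MonoidHom.comp_apply, liftG_y, h2', MonoidHom.id_apply]))
    (homG_ext (fun i hi => by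
      rw [MonoidHom.comp_apply, liftG_x X' hX' Y' hi, h1 i hi, MonoidHom.id_apply])
      (by rw [MonoidHom.comp_apply, liftG_y, h1', MonoidHom.id_apply]))

lemma mkAutG_x {X X' : ℕ → G k} {hX : ∀ i, i ≤ k → X i * X i = 1}
    {hX' : ∀ i, i ≤ k → X' i * X' i = 1} {Y Y' : G k}
    {h1 : ∀ i, i ≤ k → liftG X hX Y (X' i) = xG i} {h1' : liftG X hX Y Y' = yG}
    {h2 : ∀ i, i ≤ k → liftG X' hX' Y' (X i) = xG i} {h2' : liftG X' hX' Y' Y = yG}
    {i : ℕ} (hi : i ≤ k) : mkAutG X X' hX hX' Y Y' h1 h1' h2 h2' (xG i) = X i :=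
  liftG_x X hX Y hi

lemma mkAutG_y {X X' : ℕ → G k} {hX : ∀ i, i ≤ k → X i * X i = 1}
    {hX' : ∀ i, i ≤ k → X' i * X' i = 1} {Y Y' : G k}
    {h1 : ∀ i, i ≤ k → liftG X hX Y (X' i) = xG i} {h1' : liftG X hX Y Y' = yG}
    {h2 : ∀ i, i ≤ k → liftG X' hX' Y' (X i) = xG i} {h2' : liftG X' hX' Y' Y = yG} :
    mkAutG X X' hX hX' Y Y' h1 h1' h2 h2' yG = Y :=
  liftG_y X hX Y

/-- images under the action of `a_j` on `F k` -/
def chiC (j i : ℕ) : F k :=
  if i = j then (zF j)⁻¹ * zF (j + 1) * zF j else if i = j + 1 then zF j else zF i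

/-- images under the action of `a_j⁻¹` on `F k` -/
def chiC' (j i : ℕ) : F k :=
  if i = j then zF (j + 1) else if i = j + 1 then zF (j + 1) * zF j * (zF (j + 1))⁻¹ else zF i

lemma chi_inv1 {j : ℕ} (hj : j < k) : ∀ i, i ≤ k → liftF (chiC (k := k) j) (chiC' (k := k) j i) = zF i := by
  intro i hi
  unfold chiC'
  split_ifs with h1 h2
  · subst h1
    rw [liftF_z _ (by omega)]; simp [chiC]
  · subst h2
    rw [map_mul, map_mul, map_inv, liftF_z _ (by omega), liftF_z _ (by omega)]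
    simp [chiC, mul_assoc]
  · rw [liftF_z _ hi]; simp [chiC, h1, h2]

lemma chi_inv2 {j : ℕ} (hj : j < k) : ∀ i, i ≤ k → liftF (chiC' (k := k) j) (chiC (k := k) j i) = zF i := by
  intro i hi
  unfold chiC
  split_ifs with h1 h2
  · subst h1
    rw [map_mul, map_mul, map_inv, liftF_z _ (by omega), liftF_z _ (by omega)]
    simp [chiC', mul_assoc]
  · subst h2
    rw [liftF_z _ (by omega)]; simp [chiC']
  · rw [liftF_z _ hi]; simp [chiC', h1, h2]

/-- the action of `a_j` on `F k`: `z_j ↦ z_j⁻¹ z_{j+1} z_j`, `z_{j+1} ↦ z_j` -/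
def chiA (j : ℕ) : MulAut (F k) :=
  if hj : j < k then mkAutF (chiC j) (chiC' j) (chi_inv1 hj) (chi_inv2 hj) else 1

/-- the action of `d` on `F k`: conjugation with `z_0` -/
def chiD : MulAut (F k) := MulAut.conj (zF 0)

lemma chiA_z {j i : ℕ} (hj : j < k) (hi : i ≤ k) : chiA j (zF i : F k) = chiC j i := by
  unfold chiA; rw [dif_pos hj, mkAutF_z hi]

/-- images under the action of `a_j` on `G k` -/
def gC (j i : ℕ) : G k :=
  if i = j then xG j * xG (j + 1) * xG j else if i = j + 1 then xG j else xG i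

/-- images under the action of `a_j⁻¹` on `G k` -/
def gC' (j i : ℕ) : G k :=
  if i = j then xG (j + 1) else if i = j + 1 then xG (j + 1) * xG j * xG (j + 1) else xG i

lemma gC_sq (j i : ℕ) : (gC j i : G k) * gC j i = 1 := by
  unfold gC
  split_ifs <;> simp [mul_assoc]

lemma gC'_sq (j i : ℕ) : (gC' j i : G k) * gC' j i = 1 := by
  unfold gC'
  split_ifs <;> simp [mul_assoc]

lemma g_inv1 {j : ℕ} (hj : j < k) : ∀ i, i ≤ k →
    liftG (gC (k := k) j) (fun i _ => gC_sq j i) yG (gC' (k := k) j i) = xG i := by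
  intro i hi
  unfold gC'
  split_ifs with h1 h2
  · subst h1
    rw [liftG_x _ _ _ (by omega)]; simp [gC]
  · subst h2
    rw [map_mul, map_mul, liftG_x _ _ _ (by omega), liftG_x _ _ _ (by omega)]
    simp [gC, mul_assoc]
  · rw [liftG_x _ _ _ hi]; simp [gC, h1, h2]

lemma g_inv2 {j : ℕ} (hj : j < k) : ∀ i, i ≤ k →
    liftG (gC' (k := k) j) (fun i _ => gC'_sq j i) yG (gC (k := k) j i) = xG i := by
  intro i hi
  unfold gC
  split_ifs with h1 h2
  · subst h1
    rw [map_mul, map_mul, liftG_x _ _ _ (by omega), liftG_x _ _ _ (by omega)]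
    simp [gC', mul_assoc]
  · subst h2
    rw [liftG_x _ _ _ (by omega)]; simp [gC']
  · rw [liftG_x _ _ _ hi]; simp [gC', h1, h2]

/-- the action of `a_j` on `G k`: `x_j ↦ x_j x_{j+1} x_j`, `x_{j+1} ↦ x_j` -/
def gA (j : ℕ) : MulAut (G k) :=
  if hj : j < k then mkAutG (gC j) (gC' j) (fun i _ => gC_sq j i) (fun i _ => gC'_sq j i) yG yG
    (g_inv1 hj) (by simp) (g_inv2 hj) (by simp) else 1

lemma gA_x {j i : ℕ} (hj : j < k) (hi : i ≤ k) : gA j (xG i : G k) = gC j i := by
  unfold gA; rw [dif_pos hj, mkAutG_x hi]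

lemma gA_y {j : ℕ} : gA j (yG : G k) = yG := by
  unfold gA
  split_ifs with hj
  · rw [mkAutG_y]
  · rfl

/-- images under the action of `d` on `G k` -/
def gDC (i : ℕ) : G k := if i = 0 then yG * xG 0 * yG⁻¹ else xG i
/-- images under the action of `d⁻¹` on `G k` -/
def gDC' (i : ℕ) : G k := if i = 0 then xG 0 * yG⁻¹ * xG 0 * yG * xG 0 else xG i

lemma gDC_sq (i : ℕ) : (gDC i : G k) * gDC i = 1 := by
  unfold gDC
  split_ifs <;> simp [mul_assoc]

lemma gDC'_sq (i : ℕ) : (gDC' i : G k) * gDC' i = 1 := by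
  unfold gDC'
  split_ifs <;> simp [mul_assoc]

/-- the action of `d` on `G k`: conjugation with `y x_0` on `⟨x_0, y⟩`, trivial on the other `x_i` -/
def gD : MulAut (G k) :=
  mkAutG gDC gDC' (fun i _ => gDC_sq i) (fun i _ => gDC'_sq i)
    (yG * xG 0 * yG * xG 0 * yG⁻¹) (xG 0 * yG * xG 0)
    (by
      intro i hi
      unfold gDC'
      split_ifs with h
      · subst h
        simp only [map_mul, map_inv, liftG_y]
        rw [liftG_x _ _ _ (by omega)]; simp [gDC, mul_assoc]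
      · rw [liftG_x _ _ _ hi]; simp [gDC, h])
    (by
      simp only [map_mul, liftG_y]
      rw [liftG_x _ _ _ (by omega)]; simp [gDC, mul_assoc])
    (by
      intro i hi
      unfold gDC
      split_ifs with h
      · subst h
        simp only [map_mul, map_inv, liftG_y]
        rw [liftG_x _ _ _ (by omega)]; simp [gDC', mul_assoc]
      · rw [liftG_x _ _ _ hi]; simp [gDC', h])
    (by
      simp only [map_mul, map_inv, liftG_y]
      rw [liftG_x _ _ _ (by omega)]; simp [gDC', mul_assoc])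

lemma gD_x {i : ℕ} (hi : i ≤ k) : gD (xG i : G k) = gDC i := by
  unfold gD; rw [mkAutG_x hi]

lemma gD_y : gD (yG : G k) = yG * xG 0 * yG * xG 0 * yG⁻¹ := by
  unfold gD; rw [mkAutG_y]

/-- the action of `b` on `G k` -/
def gB : MulAut (G k) := MulAut.conj (xG k) * gA (k - 1) * MulAut.conj (xG k)

end

end Pool.Agent.Helper38.BN
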