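import Pool.Agent.Helper38.BN.Acts

/-!
# Project BN, block B7: reduced products in free groups, by norms
-/

namespace Pool.Agent.Helper38.BN

/-- the product `u_j ⋯ u_1 u_0` -/
def wp {K : Type*} [Group K] (u : ℕ → K) : ℕ → K
  | 0 => u 0
  | j + 1 => u (j + 1) * wp u j

section
variable {α : Type*} [DecidableEq α]

open FreeGroup

lemma norm_mul_iff (x y : FreeGroup α) :
    norm (x * y) = norm x + norm y ↔ FreeGroup.IsReduced (toWord x ++ toWord y) := by
  constructor
  · intro h
    unfold FreeGroup.norm at h
    rw [toWord_mul] at h
    apply FreeGroup.IsReduced.of_reduce_eq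
    apply (List.Sublist.eq_of_length ?_ ?_)
    · exact (reduce.red (L := toWord x ++ toWord y)).sublist
    · rw [h, List.length_append]
  · intro h
    unfold FreeGroup.norm
    rw [toWord_mul, h.reduce_eq, List.length_append]

/-- overlapping reduced products -/
lemma norm_overlap {x t y : FreeGroup α} (ht : t ≠ 1) (h1 : norm (x * t) = norm x + norm t)
    (h2 : norm (t * y) = norm t + norm y) :
    norm (x * t * y) = norm x + norm t + norm y := by
  rw [norm_mul_iff] at h1 h2
  have h3 := FreeGroup.IsReduced.append_overlap h1 h2
    (by rw [Ne, toWord_eq_nil_iff]; exact ht)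
  have h4 : toWord (x * t) = toWord x ++ toWord t := by rw [toWord_mul, h1.reduce_eq]
  have h5 : norm (x * t) = norm x + norm t := (norm_mul_iff x t).2 h1
  rw [← h4] at h3
  rw [(norm_mul_iff (x * t) y).2 h3, h5]

/-- the norm of a product with a letter -/
lemma norm_letter (x s : FreeGroup α) (hs : norm s = 1) :
    norm (x * s) = norm x + 1 ∨ norm (x * s) + 1 = norm x := by
  by_cases h : norm (x * s) = norm x + 1
  · exact Or.inl h
  · right
    have h1 : ¬ norm (x * s) = norm x + norm s := by rw [hs]; exact h
    rw [norm_mul_iff] at h1
    obtain ⟨a, ha⟩ : ∃ a, toWord s = [a] := by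
      unfold FreeGroup.norm at hs
      exact List.length_eq_one_iff.1 hs
    rcases List.eq_nil_or_concat (toWord x) with h2 | ⟨l, b, h2⟩
    · exfalso
      apply h1
      rw [h2, ha]
      exact FreeGroup.IsReduced.singleton
    · have hl : toWord x = l ++ [b] := by rw [h2, List.concat_eq_append]
      have hred : FreeGroup.IsReduced (toWord x) := isReduced_toWord
      rw [hl] at hred
      have hb : ¬ (b.1 = a.1 → b.2 = a.2) := by
        intro hba
        apply h1
        rw [hl, ha, List.append_assoc]
        have h3 : FreeGroup.IsReduced ([b] ++ [a]) := by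
          change FreeGroup.IsReduced [b, a]
          rw [FreeGroup.isReduced_cons_cons]
          exact ⟨hba, FreeGroup.IsReduced.singleton⟩
        have h4 := FreeGroup.IsReduced.append_overlap hred h3 (by simp)
        rwa [List.append_assoc] at h4
      have hs' : s = FreeGroup.mk [a] := by rw [← ha, mk_toWord]
      have hx' : x = FreeGroup.mk (l ++ [b]) := by rw [← hl, mk_toWord]
      have hxs : x * s = FreeGroup.mk l := by
        rw [hx', hs', FreeGroup.mul_mk, List.append_assoc]
        have h5 : FreeGroup.mk (l ++ ([b] ++ [a])) = FreeGroup.mk l * FreeGroup.mk [b, a] := by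
          rw [FreeGroup.mul_mk]; rfl
        rw [h5]
        have h6 : FreeGroup.mk [b, a] = (1 : FreeGroup α) := by
          obtain ⟨a1, a2⟩ := a
          obtain ⟨b1, b2⟩ := b
          simp only [not_forall] at hb
          obtain ⟨e1, e2⟩ := hb
          subst e1
          have e3 : a2 = !b2 := by
            revert e2; cases a2 <;> cases b2 <;> simp
          subst e3
          rw [FreeGroup.one_eq_mk]
          exact Quot.sound (FreeGroup.Red.Step.not (L₁ := []) (L₂ := []))
        rw [h6, mul_one]
      have hlred : FreeGroup.IsReduced l := List.IsChain.left_of_append hred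
      rw [hxs]
      unfold FreeGroup.norm
      rw [toWord_mk, hlred.reduce_eq, hl]
      simp

end

end Pool.Agent.Helper38.BN
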