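import Pool.Agent.Helper38.BN.Ar1

/-!
# Project BN, block B7: the main lemma of Artin's theorem
-/

namespace Pool.Agent.Helper38.BN

section
variable {α : Type*} [DecidableEq α]

open FreeGroup

lemma norm_eq_one_ne {s : FreeGroup α} (hs : norm s = 1) : s ≠ 1 := by
  intro h; rw [h, FreeGroup.norm_one] at hs; omega

/-- reduced products with a letter in the middle -/
lemma factR {x s y : FreeGroup α} (hs : norm s = 1) (h1 : norm (x * s) = norm x + 1)
    (h2 : norm (s * y) = norm y + 1) : norm (x * s * y) = norm x + 1 + norm y := by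
  have h3 := norm_overlap (x := x) (y := y) (norm_eq_one_ne hs) (by rw [h1, hs])
    (by rw [h2, hs]; omega)
  rw [h3, hs]

/-- the norm of a product of a letter with an element -/
lemma norm_letter' (x s : FreeGroup α) (hs : norm s = 1) :
    norm (s * x) = norm x + 1 ∨ norm (s * x) + 1 = norm x := by
  have h := norm_letter x⁻¹ s⁻¹ (by rw [norm_inv_eq, hs])
  rw [← mul_inv_rev, norm_inv_eq, norm_inv_eq] at h
  exact h

/-- minimal conjugators -/
lemma exists_min {u s : FreeGroup α} (h : ∃ g, u = g * s * g⁻¹) :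
    ∃ g, u = g * s * g⁻¹ ∧ ∀ h, u = h * s * h⁻¹ → norm g ≤ norm h := by
  classical
  have hex : ∃ n, ∃ g, u = g * s * g⁻¹ ∧ norm g = n := by
    obtain ⟨g, hg⟩ := h
    exact ⟨norm g, g, hg, rfl⟩
  obtain ⟨g, hg, hn⟩ := Nat.find_spec hex
  refine ⟨g, hg, fun h hh => ?_⟩
  rw [hn]
  exact Nat.find_min' hex ⟨h, hh, rfl⟩

section
variable {u s g : FreeGroup α} (hs : norm s = 1) (hg : u = g * s * g⁻¹)
  (hmin : ∀ h, u = h * s * h⁻¹ → norm g ≤ norm h)
include hs hg hmin

lemma min_r : norm (g * s) = norm g + 1 := by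
  rcases norm_letter g s hs with h | h
  · exact h
  · have := hmin (g * s) (by rw [hg]; group)
    omega

lemma min_l : norm (g * s⁻¹) = norm g + 1 := by
  rcases norm_letter g s⁻¹ (by rw [norm_inv_eq, hs]) with h | h
  · exact h
  · have := hmin (g * s⁻¹) (by rw [hg]; group)
    omega

lemma norm_sg : norm (s * g⁻¹) = norm g + 1 := by
  have h := min_l hs hg hmin
  have h2 : s * g⁻¹ = (g * s⁻¹)⁻¹ := by group
  rw [h2, norm_inv_eq, h]

lemma norm_u : norm u = 2 * norm g + 1 := by
  have h := factR (x := g) (y := g⁻¹) hs (min_r hs hg hmin)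
    (by rw [norm_sg hs hg hmin, norm_inv_eq])
  rw [hg, h, norm_inv_eq]; omega

end

lemma norm_conj_le (x s : FreeGroup α) (hs : norm s = 1) :
    norm (x * s * x⁻¹) ≤ 2 * norm x + 1 := by
  have h1 := norm_mul_le (x * s) x⁻¹
  have h2 := norm_mul_le x s
  rw [norm_inv_eq] at h1
  omega

/-- Claim A -/
lemma claimA {u s g u' s' g' : FreeGroup α} (hs : norm s = 1) (hg : u = g * s * g⁻¹)
    (hmin : ∀ h, u = h * s * h⁻¹ → norm g ≤ norm h) (hs' : norm s' = 1)
    (hg' : u' = g' * s' * g'⁻¹) (hmin' : ∀ h, u' = h * s' * h⁻¹ → norm g' ≤ norm h)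
    (h : norm (s' * (g'⁻¹ * g)) ≠ norm (g'⁻¹ * g) + 1) :
    norm (u' * u * u'⁻¹) < norm u := by
  have h1 : norm (s' * (g'⁻¹ * g)) + 1 = norm (g'⁻¹ * g) := by
    rcases norm_letter' (g'⁻¹ * g) s' hs' with h1 | h1
    · exact absurd h1 h
    · exact h1
  have h2 : g = g' * s'⁻¹ * (s' * (g'⁻¹ * g)) := by group
  have h3 := factR (x := g') (s := s'⁻¹) (y := s' * (g'⁻¹ * g)) (by rw [norm_inv_eq, hs'])
    (min_l hs' hg' hmin') (by rw [inv_mul_cancel_left]; omega)
  rw [← h2] at h3
  have h4 : u' * u * u'⁻¹ = (g' * (s' * (g'⁻¹ * g))) * s * (g' * (s' * (g'⁻¹ * g)))⁻¹ := by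
    rw [hg, hg']; group
  have h5 := norm_conj_le (g' * (s' * (g'⁻¹ * g))) s hs
  have h6 := norm_mul_le g' (s' * (g'⁻¹ * g))
  rw [h4, norm_u hs hg hmin]
  omega

/-- Claim B -/
lemma claimB {u s g u' s' g' : FreeGroup α} (hs : norm s = 1) (hg : u = g * s * g⁻¹)
    (hmin : ∀ h, u = h * s * h⁻¹ → norm g ≤ norm h) (hs' : norm s' = 1)
    (hg' : u' = g' * s' * g'⁻¹) (hmin' : ∀ h, u' = h * s' * h⁻¹ → norm g' ≤ norm h)
    (h : norm ((g'⁻¹ * g) * s) ≠ norm (g'⁻¹ * g) + 1) :
    norm (u⁻¹ * u' * u) < norm u' := by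
  have h1 : norm ((g'⁻¹ * g) * s) + 1 = norm (g'⁻¹ * g) := by
    rcases norm_letter (g'⁻¹ * g) s hs with h1 | h1
    · exact absurd h1 h
    · exact h1
  have h2 : g' = g * s * ((g'⁻¹ * g) * s)⁻¹ := by group
  have h7 : s * ((g'⁻¹ * g) * s)⁻¹ = (g'⁻¹ * g)⁻¹ := by group
  have h3 := factR (x := g) (s := s) (y := ((g'⁻¹ * g) * s)⁻¹) hs
    (min_r hs hg hmin) (by rw [h7, norm_inv_eq, norm_inv_eq]; omega)
  rw [← h2, norm_inv_eq] at h3
  have h4 : u⁻¹ * u' * u = (g * ((g'⁻¹ * g) * s)⁻¹) * s' * (g * ((g'⁻¹ * g) * s)⁻¹)⁻¹ := by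
    rw [hg, hg']; group
  have h5 := norm_conj_le (g * ((g'⁻¹ * g) * s)⁻¹) s' hs'
  have h6 := norm_mul_le g ((g'⁻¹ * g) * s)⁻¹
  rw [norm_inv_eq] at h6
  rw [h4, norm_u hs' hg' hmin']
  omega

lemma norm_of_mul_of (a b : α) : norm (of a * of b) = 2 := by
  have h : FreeGroup.IsReduced (toWord (of a) ++ toWord (of b)) := by
    rw [toWord_of, toWord_of]
    change FreeGroup.IsReduced [(a, true), (b, true)]
    rw [FreeGroup.isReduced_cons_cons]
    exact ⟨fun _ => rfl, FreeGroup.IsReduced.singleton⟩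
  rw [(norm_mul_iff _ _).2 h, norm_of, norm_of]

/-- the main lemma -/
lemma main_lemma (k : ℕ) (u : ℕ → FreeGroup α)
    (hu : ∀ i, i ≤ k → ∃ j : α, ∃ g, u i = g * of j * g⁻¹) (hw : norm (wp u k) ≤ k + 1) :
    (∀ i, i ≤ k → ∃ j, u i = of j) ∨
    ∃ i, i < k ∧ (norm (u (i + 1) * u i * (u (i + 1))⁻¹) < norm (u i) ∨
      norm ((u i)⁻¹ * u (i + 1) * u i) < norm (u (i + 1))) := by
  classical
  have hu' : ∀ i, ∃ j : α, ∃ g : FreeGroup α, i ≤ k → (u i = g * of j * g⁻¹ ∧
      ∀ h, u i = h * of j * h⁻¹ → norm g ≤ norm h) := by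
    intro i
    by_cases hi : i ≤ k
    · obtain ⟨j, hj⟩ := hu i hi
      obtain ⟨g, hg, hm⟩ := exists_min hj
      exact ⟨j, g, fun _ => ⟨hg, hm⟩⟩
    · obtain ⟨j, hj⟩ := hu 0 (Nat.zero_le k)
      exact ⟨j, 1, fun h => absurd h hi⟩
  choose j g hjg using hu'
  by_contra hcon
  rw [not_or] at hcon
  obtain ⟨hc1, hc2⟩ := hcon
  have hA : ∀ i, i < k → norm (of (j (i + 1)) * ((g (i + 1))⁻¹ * g i)) =
      norm ((g (i + 1))⁻¹ * g i) + 1 := by
    intro i hi
    by_contra hne
    exact hc2 ⟨i, hi, Or.inl (claimA (norm_of _) (hjg i (by omega)).1 (hjg i (by omega)).2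
      (norm_of _) (hjg (i + 1) (by omega)).1 (hjg (i + 1) (by omega)).2 hne)⟩
  have hB : ∀ i, i < k → norm (((g (i + 1))⁻¹ * g i) * of (j i)) =
      norm ((g (i + 1))⁻¹ * g i) + 1 := by
    intro i hi
    by_contra hne
    exact hc2 ⟨i, hi, Or.inr (claimB (norm_of _) (hjg i (by omega)).1 (hjg i (by omega)).2
      (norm_of _) (hjg (i + 1) (by omega)).1 (hjg (i + 1) (by omega)).2 hne)⟩
  -- the products of the first factors
  have key : ∀ i, i ≤ k → ∃ R : FreeGroup α, wp u i = g i * of (j i) * R ∧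
      norm (of (j i) * R) = norm R + 1 ∧
      norm R = i + norm (g 0) + ∑ l ∈ Finset.range i, norm ((g (l + 1))⁻¹ * g l) := by
    intro i
    induction i with
    | zero =>
      intro _
      refine ⟨(g 0)⁻¹, (hjg 0 (by omega)).1, ?_, ?_⟩
      · rw [norm_sg (norm_of _) (hjg 0 (by omega)).1 (hjg 0 (by omega)).2, norm_inv_eq]
      · simp [norm_inv_eq]
    | succ i ih =>
      intro hi
      obtain ⟨R, hR1, hR2, hR3⟩ := ih (by omega)
      have h1 := factR (norm_of _) (hB i (by omega)) hR2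
      refine ⟨((g (i + 1))⁻¹ * g i) * of (j i) * R, ?_, ?_, ?_⟩
      · rw [wp, hR1, (hjg (i + 1) hi).1]; group
      · -- the letter in front
        have h2 : norm (of (j (i + 1)) * (((g (i + 1))⁻¹ * g i) * of (j i))) =
            norm (((g (i + 1))⁻¹ * g i) * of (j i)) + 1 := by
          by_cases ht : (g (i + 1))⁻¹ * g i = 1
          · rw [ht, one_mul, norm_of_mul_of, norm_of]
          · have h3 := norm_overlap (x := of (j (i + 1))) (t := (g (i + 1))⁻¹ * g i)
              (y := of (j i)) ht (by rw [hA i (by omega), norm_of]; omega)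
              (by rw [hB i (by omega), norm_of])
            rw [← mul_assoc, h3, hB i (by omega), norm_of, norm_of]; omega
        have hne : of (j i) ≠ 1 := norm_eq_one_ne (norm_of _)
        have h4 := norm_overlap (x := of (j (i + 1)) * ((g (i + 1))⁻¹ * g i)) (t := of (j i))
          (y := R) hne (by rw [mul_assoc, h2, hB i (by omega), hA i (by omega), norm_of])
          (by rw [hR2, norm_of]; omega)
        have h5 : of (j (i + 1)) * (((g (i + 1))⁻¹ * g i) * of (j i) * R) =
            of (j (i + 1)) * ((g (i + 1))⁻¹ * g i) * of (j i) * R := by group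
        rw [h5, h4, h1, hA i (by omega), norm_of]; omega
      · rw [h1, hR3, Finset.sum_range_succ]; omega
  obtain ⟨R, hR1, hR2, hR3⟩ := key k le_rfl
  have h6 := factR (norm_of _)
    (min_r (norm_of _) (hjg k le_rfl).1 (hjg k le_rfl).2) hR2
  rw [← hR1] at h6
  have h7 : norm (g k) = 0 := by omega
  have h9 : ∑ l ∈ Finset.range k, norm ((g (l + 1))⁻¹ * g l) = 0 := by omega
  rw [Finset.sum_eq_zero_iff] at h9
  have h10 : ∀ i, i ≤ k → g (k - i) = 1 := by
    intro i
    induction i with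
    | zero => intro _; exact FreeGroup.norm_eq_zero.1 h7
    | succ i ih =>
      intro hi
      have h11 := h9 (k - (i + 1)) (Finset.mem_range.2 (by omega))
      rw [FreeGroup.norm_eq_zero, show k - (i + 1) + 1 = k - i by omega, ih (by omega)] at h11
      simpa using h11
  apply hc1
  intro i hi
  refine ⟨j i, ?_⟩
  have h12 := h10 (k - i) (by omega)
  rw [show k - (k - i) = i by omega] at h12
  rw [(hjg i hi).1, h12]; simp

/-- two positive words of the same length -/
lemma pos_word (k : ℕ) (a b : ℕ → α)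
    (h : wp (fun i => of (a i)) k = wp (fun i => of (b i)) k) : ∀ i, i ≤ k → a i = b i := by
  have key : ∀ (c : ℕ → α) (j : ℕ), toWord (wp (fun i => of (c i)) j) =
      ((List.range (j + 1)).reverse.map fun i => (c i, true)) := by
    intro c j
    induction j with
    | zero => simp [wp, toWord_of]
    | succ j ih =>
      rw [wp]
      have hl : (List.range (j + 1 + 1)).reverse = (j + 1) :: (List.range (j + 1)).reverse := by
        rw [List.range_succ]; simp
      have hred : FreeGroup.IsReduced (toWord (of (c (j + 1))) ++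
          toWord (wp (fun i => of (c i)) j)) := by
        rw [ih, toWord_of]
        have : [(c (j + 1), true)] ++ ((List.range (j + 1)).reverse.map fun i => (c i, true)) =
            ((List.range (j + 1 + 1)).reverse.map fun i => (c i, true)) := by
          rw [hl]; simp
        rw [this]
        unfold FreeGroup.IsReduced
        rw [List.isChain_map]
        apply List.Pairwise.isChain
        exact List.Pairwise.imp (fun _ => fun _ => rfl) (List.pairwise_of_forall (l := _) (R := fun _ _ => True) (fun _ _ => trivial))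
      rw [toWord_mul, hred.reduce_eq, ih, toWord_of, hl]
      simp
  intro i hi
  have h1 : ((List.range (k + 1)).reverse.map fun i => (a i, true)) =
      ((List.range (k + 1)).reverse.map fun i => (b i, true)) := by
    rw [← key a k, ← key b k, h]
  rw [List.map_inj_left] at h1
  have h2 := h1 i (by simp; omega)
  simpa using h2

end

end Pool.Agent.Helper38.BN
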