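import Pool.Agent.Helper38.BN.Ar2

/-!
# Project BN, block B7: Artin's theorem
-/

namespace Pool.Agent.Helper38.BN

section
variable {K : Type*} [Group K]

/-- the first move -/
def mv1 (i : ℕ) (u : ℕ → K) (l : ℕ) : K :=
  if l = i then (u i)⁻¹ * u (i + 1) * u i else if l = i + 1 then u i else u l

/-- the second move -/
def mv2 (i : ℕ) (u : ℕ → K) (l : ℕ) : K :=
  if l = i then u (i + 1) else if l = i + 1 then u (i + 1) * u i * (u (i + 1))⁻¹ else u l

lemma wp_congr {u v : ℕ → K} : ∀ {j : ℕ}, (∀ l, l ≤ j → u l = v l) → wp u j = wp v j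
  | 0, h => h 0 le_rfl
  | j + 1, h => by
    rw [wp, wp, h (j + 1) le_rfl, wp_congr (j := j) fun l hl => h l (by omega)]

/-- two tuples which differ only at `i`, `i + 1` and there have the same product -/
lemma wp_move {u v : ℕ → K} {i : ℕ} (h1 : ∀ l, l ≠ i → l ≠ i + 1 → u l = v l)
    (h2 : u (i + 1) * u i = v (i + 1) * v i) : ∀ {j : ℕ}, i + 1 ≤ j → wp u j = wp v j := by
  intro j hj
  induction j with
  | zero => omega
  | succ j ih =>
    rcases Nat.lt_or_ge i j with h | h
    · rw [wp, wp, ih (by omega), h1 (j + 1) (by omega) (by omega)]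
    · have hij : i = j := by omega
      subst hij
      cases i with
      | zero => exact h2
      | succ m =>
        have h3 : wp u m = wp v m := wp_congr fun l hl => h1 l (by omega) (by omega)
        change u (m + 1 + 1) * (u (m + 1) * wp u m) = v (m + 1 + 1) * (v (m + 1) * wp v m)
        rw [← mul_assoc, ← mul_assoc, h2, h3]

lemma wp_mv1 {u : ℕ → K} {i j : ℕ} (h : i + 1 ≤ j) : wp (mv1 i u) j = wp u j := by
  apply wp_move (i := i) ?_ ?_ h
  · intro l h1 h2; simp [mv1, h1, h2]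
  · simp [mv1, mul_assoc]

lemma wp_mv2 {u : ℕ → K} {i j : ℕ} (h : i + 1 ≤ j) : wp (mv2 i u) j = wp u j := by
  apply wp_move (i := i) ?_ ?_ h
  · intro l h1 h2; simp [mv2, h1, h2]
  · simp [mv2]

end

lemma chiA_mem {k i : ℕ} (hi : i < k) :
    (chiA i : MulAut (F k)) ∈ Subgroup.closure (chiA '' {j | j < k} : Set (MulAut (F k))) :=
  Subgroup.subset_closure ⟨i, hi, rfl⟩

/-- the sum of the lengths after a move -/
lemma sum_move {k i : ℕ} (hi : i < k) (f g : ℕ → ℕ) (h1 : ∀ l, l ≠ i → l ≠ i + 1 → f l = g l)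
    (h2 : f i + f (i + 1) < g i + g (i + 1)) :
    ∑ l ∈ Finset.range (k + 1), f l < ∑ l ∈ Finset.range (k + 1), g l := by
  have hi1 : i ∈ Finset.range (k + 1) := Finset.mem_range.2 (by omega)
  have hi2 : i + 1 ∈ (Finset.range (k + 1)).erase i :=
    Finset.mem_erase.2 ⟨by omega, Finset.mem_range.2 (by omega)⟩
  rw [← Finset.add_sum_erase _ f hi1, ← Finset.add_sum_erase _ f hi2,
    ← Finset.add_sum_erase _ g hi1, ← Finset.add_sum_erase _ g hi2]
  have h3 : ∑ l ∈ ((Finset.range (k + 1)).erase i).erase (i + 1), f l =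
      ∑ l ∈ ((Finset.range (k + 1)).erase i).erase (i + 1), g l := by
    apply Finset.sum_congr rfl
    intro l hl
    rw [Finset.mem_erase, Finset.mem_erase] at hl
    exact h1 l hl.2.1 hl.1
  omega

lemma chiA_inv_z1 {k i : ℕ} (hi : i < k) : (chiA i : MulAut (F k))⁻¹ (zF i) = zF (i + 1) := by
  rw [MulAut.inv_apply, MulEquiv.symm_apply_eq, chiA_z hi (by omega)]
  simp [chiC]

lemma chiA_inv_z2 {k i : ℕ} (hi : i < k) : (chiA i : MulAut (F k))⁻¹ (zF (i + 1)) =
    zF (i + 1) * zF i * (zF (i + 1))⁻¹ := by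
  rw [MulAut.inv_apply, MulEquiv.symm_apply_eq, map_mul, map_mul, map_inv,
    chiA_z hi (by omega), chiA_z hi (by omega)]
  simp [chiC, mul_assoc]

lemma chiA_inv_z3 {k i l : ℕ} (hi : i < k) (hl : l ≤ k) (h1 : l ≠ i) (h2 : l ≠ i + 1) :
    (chiA i : MulAut (F k))⁻¹ (zF l) = zF l := by
  rw [MulAut.inv_apply, MulEquiv.symm_apply_eq, chiA_z hi hl]
  simp [chiC, h1, h2]

lemma norm_wp_z {k : ℕ} : ∀ {j : ℕ}, j ≤ k → FreeGroup.norm (wp zF j : F k) ≤ j + 1
  | 0, _ => by
    rw [wp, zF_of (by omega), FreeGroup.norm_of]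
  | j + 1, h => by
    have h1 := norm_wp_z (k := k) (j := j) (by omega)
    have h2 := FreeGroup.norm_mul_le (zF (j + 1) : F k) (wp zF j)
    rw [zF_of (by omega), FreeGroup.norm_of] at h2
    rw [wp, zF_of (by omega)]
    omega

/-- block B7: Artin's theorem: a tuple of conjugates of the generators of `F k` with the product
`z_k ⋯ z_0` is the image of `(z_0, …, z_k)` under a product of the `chiA j` and their inverses. -/
theorem artin_aux (k : ℕ) : ∀ (n : ℕ) (u : ℕ → F k),
    ∑ l ∈ Finset.range (k + 1), FreeGroup.norm (u l) = n →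
    (∀ i, i ≤ k → ∃ j, j ≤ k ∧ ∃ g, u i = g * zF j * g⁻¹) → wp u k = wp zF k →
    ∃ β ∈ Subgroup.closure (chiA '' {j | j < k} : Set (MulAut (F k))),
      ∀ i, i ≤ k → u i = β (zF i) := by
  intro n
  induction n using Nat.strong_induction_on with
  | _ n ih =>
  intro u hn hu hw
  have hu' : ∀ i, i ≤ k → ∃ j : Fin (k + 1), ∃ g, u i = g * FreeGroup.of j * g⁻¹ := by
    intro i hi
    obtain ⟨j, hj, g, hg⟩ := hu i hi
    exact ⟨⟨j, by omega⟩, g, by rw [hg, zF_of]⟩
  rcases main_lemma k u hu' (by rw [hw]; exact norm_wp_z le_rfl) with h | ⟨i, hi, h | h⟩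
  · -- all entries are generators
    refine ⟨1, Subgroup.one_mem _, ?_⟩
    have h1 : ∀ i, ∃ j : Fin (k + 1), i ≤ k → u i = FreeGroup.of j := by
      intro i
      by_cases hi : i ≤ k
      · obtain ⟨j, hj⟩ := h i hi
        exact ⟨j, fun _ => hj⟩
      · exact ⟨0, fun h => absurd h hi⟩
    choose a ha using h1
    have h2 : wp (fun i => FreeGroup.of (a i)) k =
        wp (fun i => FreeGroup.of (Fin.ofNat (k + 1) i)) k := by
      rw [← wp_congr (u := u) (v := fun i => FreeGroup.of (a i)) fun l hl => ha l hl, hw]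
      apply wp_congr
      intro l hl
      rw [zF_of (by omega)]
      congr 1
      ext
      simp [Fin.ofNat, Nat.mod_eq_of_lt (show l < k + 1 by omega)]
    have h3 := pos_word k a (fun i => Fin.ofNat (k + 1) i) h2
    intro i hi
    rw [ha i hi, h3 i hi, MulAut.one_apply, zF_of (by omega)]
    congr 1
    ext
    simp [Fin.ofNat, Nat.mod_eq_of_lt (show i < k + 1 by omega)]
  · -- the second move
    have h1 : ∑ l ∈ Finset.range (k + 1), FreeGroup.norm (mv2 i u l) < n := by
      rw [← hn]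
      apply sum_move hi
      · intro l h1 h2; simp [mv2, h1, h2]
      · simp only [mv2, if_true, Nat.succ_ne_self, if_false]
        omega
    have hc : ∀ l, l ≤ k → ∃ j, j ≤ k ∧ ∃ g, mv2 i u l = g * zF j * g⁻¹ := by
      intro l hl
      unfold mv2
      split_ifs with h3 h4
      · exact hu (i + 1) (by omega)
      · obtain ⟨j, hj, g, hg⟩ := hu i (by omega)
        exact ⟨j, hj, u (i + 1) * g, by rw [hg]; group⟩
      · exact hu l hl
    obtain ⟨β, hβ, hb⟩ := ih _ h1 (mv2 i u) rfl hc (by rw [wp_mv2 (by omega), hw])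
    refine ⟨β * chiA i, Subgroup.mul_mem _ hβ (chiA_mem hi), ?_⟩
    have hbi : β (zF i) = u (i + 1) := by rw [← hb i (by omega)]; simp [mv2]
    have hbi1 : β (zF (i + 1)) = u (i + 1) * u i * (u (i + 1))⁻¹ := by
      rw [← hb (i + 1) (by omega)]; simp [mv2]
    intro l hl
    rw [MulAut.mul_apply, chiA_z hi hl]
    unfold chiC
    split_ifs with h3 h4
    · subst h3
      rw [map_mul, map_mul, map_inv, hbi, hbi1]; group
    · subst h4
      rw [hbi]
    · rw [← hb l hl]; simp [mv2, h3, h4]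
  · -- the first move
    have h1 : ∑ l ∈ Finset.range (k + 1), FreeGroup.norm (mv1 i u l) < n := by
      rw [← hn]
      apply sum_move hi
      · intro l h1 h2; simp [mv1, h1, h2]
      · simp only [mv1, if_true, Nat.succ_ne_self, if_false]
        omega
    have hc : ∀ l, l ≤ k → ∃ j, j ≤ k ∧ ∃ g, mv1 i u l = g * zF j * g⁻¹ := by
      intro l hl
      unfold mv1
      split_ifs with h3 h4
      · obtain ⟨j, hj, g, hg⟩ := hu (i + 1) (by omega)
        exact ⟨j, hj, (u i)⁻¹ * g, by rw [hg]; group⟩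
      · exact hu i (by omega)
      · exact hu l hl
    obtain ⟨β, hβ, hb⟩ := ih _ h1 (mv1 i u) rfl hc (by rw [wp_mv1 (by omega), hw])
    refine ⟨β * (chiA i)⁻¹, Subgroup.mul_mem _ hβ (Subgroup.inv_mem _ (chiA_mem hi)), ?_⟩
    have hbi : β (zF i) = (u i)⁻¹ * u (i + 1) * u i := by rw [← hb i (by omega)]; simp [mv1]
    have hbi1 : β (zF (i + 1)) = u i := by
      rw [← hb (i + 1) (by omega)]; simp [mv1]
    intro l hl
    rw [MulAut.mul_apply]
    by_cases h3 : l = i
    · subst h3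
      rw [chiA_inv_z1 hi, hbi1]
    · by_cases h4 : l = i + 1
      · subst h4
        rw [chiA_inv_z2 hi, map_mul, map_mul, map_inv, hbi, hbi1]; group
      · rw [chiA_inv_z3 hi hl h3 h4, ← hb l hl]; simp [mv1, h3, h4]

end Pool.Agent.Helper38.BN
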