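import Pool.Agent.Helper38.BN.B3R

/-!
# Project BN, block B3: the centralizer of a permutation and its action on the cycles
-/

namespace Pool.Agent.Helper38.BN

open Equiv

section
variable {β : Type*}

/-- the centralizer of the permutation `s` -/
abbrev Ce (s : Perm β) : Subgroup (Perm β) := Subgroup.centralizer ({s} : Set (Perm β))

lemma mem_Ce {s g : Perm β} : g ∈ Ce s ↔ s * g = g * s := by
  rw [Subgroup.mem_centralizer_singleton_iff]
  exact eq_comm

/-- the set of the cycles of `s` (fixed points included) -/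
abbrev Qs (s : Perm β) : Type _ := Quotient (Perm.SameCycle.setoid s)

lemma Ce_apply {s : Perm β} (g : Ce s) (x : β) : (g : Perm β) (s x) = s ((g : Perm β) x) := by
  have h := mem_Ce.1 g.2
  have h1 := congrArg (fun t : Perm β => t x) h
  exact h1.symm

lemma Ce_zpow {s : Perm β} (g : Ce s) (n : ℤ) (x : β) :
    (g : Perm β) ((s ^ n) x) = (s ^ n) ((g : Perm β) x) := by
  have h : Commute s (g : Perm β) := mem_Ce.1 g.2
  have h1 := congrArg (fun t : Perm β => t x) (h.zpow_left n).eq
  exact h1.symm

lemma Ce_sameCycle {s : Perm β} (g : Ce s) {x y : β} (h : s.SameCycle x y) :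
    s.SameCycle ((g : Perm β) x) ((g : Perm β) y) := by
  obtain ⟨n, hn⟩ := h
  exact ⟨n, by rw [← Ce_zpow, hn]⟩

/-- the action of the centralizer on the set of the cycles -/
def orbHom (s : Perm β) : Ce s →* Perm (Qs s) where
  toFun g :=
    { toFun := Quotient.map (g : Perm β) (fun _ _ h => Ce_sameCycle g h)
      invFun := Quotient.map ((g⁻¹ : Ce s) : Perm β) (fun _ _ h => Ce_sameCycle g⁻¹ h)
      left_inv := by
        intro q
        induction q using Quotient.inductionOn with
        | h x => simp [Quotient.map_mk]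
      right_inv := by
        intro q
        induction q using Quotient.inductionOn with
        | h x => simp [Quotient.map_mk] }
  map_one' := by
    ext q
    induction q using Quotient.inductionOn with
    | h x => rfl
  map_mul' := by
    intro g h
    ext q
    induction q using Quotient.inductionOn with
    | h x => rfl

/-- the cycle of `x` -/
abbrev cy (s : Perm β) (x : β) : Qs s := Quotient.mk (Perm.SameCycle.setoid s) x

lemma orbHom_cy {s : Perm β} (g : Ce s) (x : β) : orbHom s g (cy s x) = cy s ((g : Perm β) x) :=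
  rfl

lemma cy_eq {s : Perm β} {x y : β} : cy s x = cy s y ↔ s.SameCycle x y :=
  Quotient.eq (r := Perm.SameCycle.setoid s)

/-- elements of the centralizer which fix all cycles commute -/
theorem orb_comm {s : Perm β} {g h : Ce s} (hg : orbHom s g = 1) (hh : orbHom s h = 1) :
    g * h = h * g := by
  have key : ∀ f : Ce s, orbHom s f = 1 → ∀ x, ∃ n : ℤ, (f : Perm β) x = (s ^ n) x := by
    intro f hf x
    have h1 : cy s ((f : Perm β) x) = cy s x := by rw [← orbHom_cy, hf]; rfl
    obtain ⟨n, hn⟩ := (cy_eq.1 h1).symm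
    exact ⟨n, hn.symm⟩
  apply Subtype.ext
  ext x
  obtain ⟨u, hu⟩ := key g hg x
  obtain ⟨v, hv⟩ := key h hh x
  change (g : Perm β) ((h : Perm β) x) = (h : Perm β) ((g : Perm β) x)
  rw [hv, Ce_zpow, hu, Ce_zpow, hv, ← Perm.mul_apply, ← Perm.mul_apply, ← zpow_add, ← zpow_add,
    add_comm]

/-- lifting a sequence of commuting elements to the centralizer -/
theorem lift_Ce {q : ℕ} {s : Perm β} {b : ℕ → Perm β} (hb : RelBr q b)
    (hc : ∀ i, i < q → s * b i = b i * s) :
    ∃ b' : ℕ → Ce s, RelBr q b' ∧ ∀ i, i < q → (b' i : Perm β) = b i := by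
  classical
  refine ⟨fun i => if h : i < q then ⟨b i, mem_Ce.2 (hc i h)⟩ else 1, ⟨?_, ?_⟩, ?_⟩
  · intro i j h1 h2
    rw [dif_pos (show i < q by omega), dif_pos h2]
    exact Subtype.ext (hb.comm i j h1 h2)
  · intro i h1
    rw [dif_pos (show i < q by omega), dif_pos h1]
    exact Subtype.ext (hb.braid i h1)
  · intro i h1
    simp only
    rw [dif_pos h1]

end

end Pool.Agent.Helper38.BN
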