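import Pool.Agent.Helper38.BN.B3C

/-!
# Project BN, block B3, piece B3-1: the lengths of the cycles
-/

namespace Pool.Agent.Helper38.BN

open Equiv

variable {β : Type} [Finite β] {s : Perm β}

/-- piece B3-1: the length of the cycle of `x` is a period of `x`.
Proof. `classical`, `Fintype.ofFinite`. If `s x = x` all powers fix `x`. Otherwise
`Perm.pow_mod_card_support_cycleOf_self_apply s n x` with `n` = card of `(s.cycleOf x).support`
gives `(s ^ n) x = x` (`n % n = 0`), and `(s.cycleOf x).support = {y | s.SameCycle x y}`
(`Perm.mem_support_cycleOf_iff'`), so `n = Nat.card {y // s.SameCycle x y}`. -/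
theorem pow_card_cycle (x : β) : (s ^ Nat.card {y // s.SameCycle x y}) x = x := by
  classical
  have := Fintype.ofFinite β
  by_cases hx : s x = x
  · exact Perm.pow_apply_eq_self_of_apply_eq_self hx _
  · have h1 : Nat.card {y // s.SameCycle x y} = (s.cycleOf x).support.card := by
      rw [Nat.card_eq_fintype_card, Fintype.card_subtype]
      congr 1
      ext y
      rw [Finset.mem_filter, Perm.mem_support_cycleOf_iff' hx]
      simp
    rw [h1, ← Perm.pow_mod_card_support_cycleOf_self_apply s, Nat.mod_self, pow_zero,
      Perm.one_apply]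

/-- piece B3-1: without fixed points, cycles have length at least `2`.
Proof. `x` and `s x` are two different elements (`Finite.one_lt_card_iff_nontrivial`). -/
theorem two_le_cycle (hs : ∀ x, s x ≠ x) (x : β) : 2 ≤ Nat.card {y // s.SameCycle x y} := by
  have h : 1 < Nat.card {y // s.SameCycle x y} := by
    rw [Finite.one_lt_card_iff_nontrivial]
    refine ⟨⟨x, Perm.SameCycle.refl s x⟩, ⟨s x, ⟨1, by simp⟩⟩, ?_⟩
    intro h
    exact hs x (congrArg Subtype.val h).symm
  exact h

/-- piece B3-1: the number of points is the sum of the lengths of the cycles.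
Proof. `β ≃ Σ q, {y // cy s y = q}` (`Equiv.sigmaFiberEquiv`), `Nat.card_sigma` (with
`Fintype.ofFinite`) and `cy s y = q` for `q = cy s q.out` iff `s.SameCycle q.out y`. -/
theorem card_eq_sum [Fintype (Qs s)] :
    Nat.card β = ∑ q : Qs s, Nat.card {y // s.SameCycle q.out y} := by
  classical
  have := Fintype.ofFinite β
  rw [← Nat.card_congr (Equiv.sigmaFiberEquiv (cy s)), Nat.card_sigma]
  apply Finset.sum_congr rfl
  intro q _
  apply Nat.card_congr
  apply Equiv.subtypeEquivRight
  intro y
  have h : cy s q.out = q := Quotient.out_eq q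
  constructor
  · intro h1
    apply cy_eq.1
    rw [h, h1]
  · intro h1
    rw [← h]
    exact (cy_eq.2 h1).symm

end Pool.Agent.Helper38.BN
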