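import Pool.Agent.Helper38.BN.B3D1

/-!
# Project BN, block B3, piece B3-2: the number of the cycles
-/

namespace Pool.Agent.Helper38.BN

open Equiv

variable {β : Type} [Finite β] {s : Perm β}

/-- piece B3-2: without fixed points, there are at most `card β / 2` cycles.
Proof. `card_eq_sum` and `two_le_cycle` (`Finset.card_nsmul_le_sum`). -/
theorem two_mul_card (hs : ∀ x, s x ≠ x) : 2 * Nat.card (Qs s) ≤ Nat.card β := by
  classical
  let _ : Fintype (Qs s) := Fintype.ofFinite _
  rw [card_eq_sum (s := s), Nat.card_eq_fintype_card]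
  have h := Finset.card_nsmul_le_sum Finset.univ
    (fun q : Qs s => Nat.card {y // s.SameCycle q.out y}) 2
    (fun q _ => two_le_cycle hs q.out)
  rw [Finset.card_univ, smul_eq_mul] at h
  omega

/-- piece B3-2: if there are at least `card β / 2` cycles, then `s² = 1`.
Proof. All terms of the sum in `card_eq_sum` are `≥ 2`, and the sum is at most `2 card (Qs s)`, so
all terms are `2` (otherwise the sum is larger: `Finset.sum_lt_sum`). So every cycle has length
`2` (`y ~ (cy s y).out`; the sets `{z // SameCycle x z}` for `x ~ y` are equal), and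
`pow_card_cycle` gives `s² x = x`. -/
theorem sq_of_card (hs : ∀ x, s x ≠ x) (h : Nat.card β ≤ 2 * Nat.card (Qs s)) :
    s * s = 1 := by
  classical
  let _ : Fintype (Qs s) := Fintype.ofFinite _
  have hall : ∀ q : Qs s, Nat.card {y // s.SameCycle q.out y} = 2 := by
    intro q
    by_contra hne
    have hlt : 2 < Nat.card {y // s.SameCycle q.out y} :=
      lt_of_le_of_ne (two_le_cycle hs q.out) (Ne.symm hne)
    have h1 : ∑ _q : Qs s, 2 < ∑ q : Qs s, Nat.card {y // s.SameCycle q.out y} :=
      Finset.sum_lt_sum (fun q _ => two_le_cycle hs q.out) ⟨q, Finset.mem_univ q, hlt⟩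
    rw [← card_eq_sum (s := s), Finset.sum_const, Finset.card_univ, smul_eq_mul,
      ← Nat.card_eq_fintype_card] at h1
    omega
  ext x
  have h1 : s.SameCycle (cy s x).out x := cy_eq.1 (Quotient.out_eq (cy s x))
  have h2 : Nat.card {y // s.SameCycle x y} = 2 := by
    rw [← hall (cy s x)]
    refine Nat.card_congr (Equiv.subtypeEquivRight fun y => ?_)
    exact ⟨fun h => h1.trans h, fun h => h1.symm.trans h⟩
  have h3 := pow_card_cycle (s := s) x
  rw [h2, pow_two] at h3
  exact h3

end Pool.Agent.Helper38.BN
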