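import Pool.Agent.Helper38.BN.B3D1

/-!
# Project BN, block B3, piece B3-3: cycles which are exchanged
-/

namespace Pool.Agent.Helper38.BN

open Equiv

variable {β : Type} [Finite β] {s : Perm β}

/-- piece B3-3: two cycles which are exchanged have the same length.
Proof. Let `g x` not be in the cycle of `x` (exists, as `orbHom s g ≠ 1`, `orbHom_cy`, `cy_eq`). As
there are at most two cycles, every `y` is in the cycle of `x` or in the cycle of `g x`, not in
both. `y ↦ g y` is a bijection from the cycle of `x` to the cycle of `g x` (`Ce_sameCycle` for `g`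
and `g⁻¹`). So both have the same size `l` and `card β = 2 l` (`β` is in bijection with the sum of
the two subtypes); `pow_card_cycle` gives `s ^ l = 1` (the cycle of `y` has size `l` for
all `y`). -/
theorem swap_orbits (hq : Nat.card (Qs s) ≤ 2) {g : Ce s} (hg : orbHom s g ≠ 1) :
    ∃ l, Nat.card β = 2 * l ∧ s ^ l = 1 := by
  classical
  obtain ⟨x, hx⟩ : ∃ x, ¬ s.SameCycle x ((g : Perm β) x) := by
    by_contra h
    rw [not_exists] at h
    apply hg
    ext q
    induction q using Quotient.inductionOn with
    | h x =>
      have h1 : s.SameCycle x ((g : Perm β) x) := not_not.1 (h x)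
      exact (orbHom_cy g x).trans (cy_eq.2 h1.symm)
  have hcov : ∀ y, ¬ s.SameCycle x y → s.SameCycle ((g : Perm β) x) y := by
    intro y h1
    by_contra h2
    have hinj : Function.Injective ![cy s x, cy s ((g : Perm β) x), cy s y] := by
      have e1 : cy s x ≠ cy s ((g : Perm β) x) := fun h => hx (cy_eq.1 h)
      have e2 : cy s x ≠ cy s y := fun h => h1 (cy_eq.1 h)
      have e3 : cy s ((g : Perm β) x) ≠ cy s y := fun h => h2 (cy_eq.1 h)
      intro i j hij
      fin_cases i <;> fin_cases j <;> simp_all
    have h3 := Nat.card_le_card_of_injective _ hinj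
    rw [Nat.card_eq_fintype_card, Fintype.card_fin] at h3
    omega
  have hnot : ∀ y, s.SameCycle ((g : Perm β) x) y → ¬ s.SameCycle x y :=
    fun y h1 h2 => hx (h2.trans h1.symm)
  have hc2 : Nat.card {y // s.SameCycle ((g : Perm β) x) y} =
      Nat.card {y // s.SameCycle x y} := by
    refine (Nat.card_congr ((g : Perm β).subtypeEquiv fun y => ⟨fun h => Ce_sameCycle g h,
      fun h => ?_⟩)).symm
    have h1 := Ce_sameCycle g⁻¹ h
    simpa using h1
  have hc : ∀ y, Nat.card {z // s.SameCycle y z} = Nat.card {z // s.SameCycle x z} := by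
    intro y
    by_cases h : s.SameCycle x y
    · exact Nat.card_congr (Equiv.subtypeEquivRight fun z =>
        ⟨fun h1 => h.trans h1, fun h1 => h.symm.trans h1⟩)
    · rw [← hc2]
      have h2 := hcov y h
      exact Nat.card_congr (Equiv.subtypeEquivRight fun z =>
        ⟨fun h1 => h2.trans h1, fun h1 => h2.symm.trans h1⟩)
  refine ⟨Nat.card {y // s.SameCycle x y}, ?_, ?_⟩
  · have h1 := Nat.card_congr (Equiv.sumCompl fun y => s.SameCycle x y)
    rw [Nat.card_sum] at h1
    have h2 : Nat.card {y // ¬ s.SameCycle x y} = Nat.card {y // s.SameCycle x y} := by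
      rw [← hc2]
      exact Nat.card_congr (Equiv.subtypeEquivRight fun z => ⟨hcov z, hnot z⟩)
    omega
  · ext y
    rw [← hc y]
    exact pow_card_cycle y

end Pool.Agent.Helper38.BN
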