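import Pool.Agent.Helper38.BN.B3C

/-!
# Project BN, block B3, piece B3-4: permutations of at most three points
-/

namespace Pool.Agent.Helper38.BN

open Equiv

/-- piece B3-4: permutations of at most two points commute.
Proof. Transport to `Perm (Fin n)`, `n ≤ 2` (`Finite.equivFin`, `Equiv.permCongr`), `decide` for
`n = 0, 1, 2`. -/
theorem comm_of_card_two {γ : Type} [Finite γ] (h : Nat.card γ ≤ 2) (x y : Perm γ) :
    x * y = y * x := by
  have e := Finite.equivFin γ
  have key : ∀ n, n ≤ 2 → ∀ x y : Perm (Fin n), x * y = y * x := by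
    intro n hn
    interval_cases n <;> decide
  apply (Equiv.permCongrHom e).injective
  rw [map_mul, map_mul]
  exact key _ h _ _

/-- piece B3-4: the same proof. -/
theorem sq_of_card_two {γ : Type} [Finite γ] (h : Nat.card γ ≤ 2) (x : Perm γ) :
    x * x = 1 := by
  have e := Finite.equivFin γ
  have key : ∀ n, n ≤ 2 → ∀ x : Perm (Fin n), x * x = 1 := by
    intro n hn
    interval_cases n <;> decide
  apply (Equiv.permCongrHom e).injective
  rw [map_mul, map_one]
  exact key _ h _

/-- piece B3-4: three points. Proof: transport to `Fin n`, `n ≤ 3`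
(`Finite.equivFin`, `Equiv.permCongr`), `decide`. -/
theorem eq_of_card_three {γ : Type} [Finite γ] (h : Nat.card γ ≤ 3) {x y z : Perm γ}
    (hxz : x * z = z * x) (hxy : x * y * x = y * x * y) (hyz : y * z * y = z * y * z) :
    x = z := by
  have e := Finite.equivFin γ
  have key : ∀ n, n ≤ 3 → ∀ x y z : Perm (Fin n), x * z = z * x → x * y * x = y * x * y →
      y * z * y = z * y * z → x = z := by
    intro n hn
    interval_cases n <;> decide
  apply (Equiv.permCongrHom e).injective
  have h1 := congrArg (Equiv.permCongrHom e) hxz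
  have h2 := congrArg (Equiv.permCongrHom e) hxy
  have h3 := congrArg (Equiv.permCongrHom e) hyz
  simp only [map_mul] at h1 h2 h3
  exact key _ h _ _ _ h1 h2 h3

end Pool.Agent.Helper38.BN
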