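import Pool.Agent.Helper38.BN.B3D2
import Pool.Agent.Helper38.BN.B3D3
import Pool.Agent.Helper38.BN.B3D4

/-!
# Project BN, block B3, piece B3-5: at most five points
-/

namespace Pool.Agent.Helper38.BN

open Equiv

variable {β : Type} [Finite β] {s : Perm β}

/-- piece B3-5: at most two cycles, braided elements of the centralizer act equally on the cycles.
Proof. `comm_of_card_two` and `eq_of_comm_braid` in `Perm (Qs s)`. -/
theorem orb_eq (hq : Nat.card (Qs s) ≤ 2) {x y : Ce s} (h : x * y * x = y * x * y) :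
    orbHom s x = orbHom s y := by
  apply eq_of_comm_braid (comm_of_card_two hq _ _)
  rw [← map_mul, ← map_mul, h, map_mul, map_mul]

/-- piece B3-5: if the action is trivial, they are equal. Proof: `orb_eq`, `orb_comm` and
`eq_of_comm_braid`. -/
theorem eq_of_orb (hq : Nat.card (Qs s) ≤ 2) {x y : Ce s} (h : x * y * x = y * x * y)
    (hx : orbHom s x = 1) : x = y := by
  have hy : orbHom s y = 1 := by rw [← orb_eq hq h, hx]
  exact eq_of_comm_braid (orb_comm hx hy) h

/-- piece B3-5: at most five points, no fixed points of `s`: braided elements commuting with `s`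
are equal.
Proof. `mem_Ce`: take `x, y` in `Ce s`. `two_mul_card`: at most two cycles. If `orbHom s x = 1`:
`eq_of_orb`. Otherwise `swap_orbits`: `card β = 2 l`, `s ^ l = 1`; `l ≤ 2`, and `l = 0` (no points:
then `orbHom s x = 1`), `l = 1` (`s = 1`, but there is a point) are impossible: `l = 2`,
`s ^ 2 = 1`. Put `m = x⁻¹ y`: it acts trivially on the cycles (`orb_eq`), so for every `z` there is
`n` with `m z = s ^ n z` and `m (m z) = s ^ (2 n) z = z` (`Ce_zpow`): `m * m = 1`. `x * x` acts
trivially on the cycles (`sq_of_card_two`), so it commutes with `m` (`orb_comm`). The braid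
relation with `y = x m`: `x x m x = x m x x m = x (x x) m m = x x x`, so `m = 1`. -/
theorem eq_small (hβ : Nat.card β ≤ 5) (hs : ∀ x, s x ≠ x) {x y : Perm β}
    (hx : s * x = x * s) (hy : s * y = y * s) (h : x * y * x = y * x * y) : x = y := by
  have hq : Nat.card (Qs s) ≤ 2 := by
    have h1 := two_mul_card hs
    omega
  obtain ⟨X, hX⟩ : ∃ X : Ce s, (X : Perm β) = x := ⟨⟨x, mem_Ce.2 hx⟩, rfl⟩
  obtain ⟨Y, hY⟩ : ∃ Y : Ce s, (Y : Perm β) = y := ⟨⟨y, mem_Ce.2 hy⟩, rfl⟩
  have H : X * Y * X = Y * X * Y := by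
    apply Subtype.ext
    simp only [Subgroup.coe_mul, hX, hY]
    exact h
  suffices hXY : X = Y by rw [← hX, ← hY, hXY]
  by_cases hx1 : orbHom s X = 1
  · exact eq_of_orb hq H hx1
  · obtain ⟨l, hl, hsl⟩ := swap_orbits hq hx1
    rcases isEmpty_or_nonempty β with hE | ⟨⟨z₀⟩⟩
    · apply Subtype.ext
      exact Subsingleton.elim _ _
    have hpos : 0 < Nat.card β := by
      have : Nonempty β := ⟨z₀⟩
      exact Nat.card_pos
    have hl2 : l = 1 ∨ l = 2 := by omega
    rcases hl2 with rfl | rfl
    · exfalso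
      rw [pow_one] at hsl
      exact hs z₀ (by rw [hsl]; rfl)
    · have hm : orbHom s (X⁻¹ * Y) = 1 := by
        rw [map_mul, map_inv, ← orb_eq hq H, inv_mul_cancel]
      have hXX : orbHom s (X * X) = 1 := by
        rw [map_mul]
        exact sq_of_card_two hq _
      have hmm : (X⁻¹ * Y) * (X⁻¹ * Y) = 1 := by
        generalize X⁻¹ * Y = m at hm
        apply Subtype.ext
        ext z
        have h1 : cy s ((m : Perm β) z) = cy s z := by rw [← orbHom_cy, hm]; rfl
        obtain ⟨n, hn⟩ := (cy_eq.1 h1).symm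
        change (m : Perm β) ((m : Perm β) z) = z
        rw [← hn, Ce_zpow, ← hn, ← Perm.mul_apply, ← zpow_add]
        have h2 : s ^ (n + n) = 1 := by
          rw [← two_mul, zpow_mul]
          have : s ^ (2 : ℤ) = 1 := by
            rw [← hsl]
            rfl
          rw [this, one_zpow]
        rw [h2]
        rfl
      have hc := orb_comm hXX hm
      have e : (X⁻¹ * Y) * (X * X * X) = X * X * X := by
        have e1 : X * Y * X = (X * X) * (X⁻¹ * Y) * X := by group
        have e2 : Y * X * Y = X * ((X⁻¹ * Y) * (X * X)) * (X⁻¹ * Y) := by group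
        rw [e1, e2, ← hc] at H
        have e3 : X * (X * X * (X⁻¹ * Y)) * (X⁻¹ * Y) = X * X * X * ((X⁻¹ * Y) * (X⁻¹ * Y)) := by
          group
        rw [e3, hmm, mul_one, hc] at H
        calc (X⁻¹ * Y) * (X * X * X) = X⁻¹ * Y * (X * X) * X := by simp only [mul_assoc]
          _ = X * X * X := H
      have e4 : X⁻¹ * Y = 1 := by
        have := mul_eq_right.1 e
        exact this
      rw [inv_mul_eq_one] at e4
      exact e4

end Pool.Agent.Helper38.BN
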