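import Pool.Agent.Helper38.BN.B3D2

/-!
# Project BN, block B3, piece B3-7: the induction step on the support
-/

namespace Pool.Agent.Helper38.BN

open Equiv

variable {β : Type} [Finite β] {s : Perm β}

/-- the statement: on at most `p` points all permutations with the relations of the braid group
with `p` generators are equal -/
def CC (p : ℕ) : Prop :=
  ∀ (γ : Type) [Finite γ], Nat.card γ ≤ p → ∀ a : ℕ → Perm γ, RelBr p a → a 0 = a 1

/-- piece B3-7: the induction step on the support of `s`.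
Proof. `lift_Ce`: `b' : ℕ → Ce s`. By `two_mul_card`, `card (Qs s) ≤ q`. By `hC` for
`orbHom s ∘ b'` (`RelBr.map`) and `all_eq_of_succ`, all `orbHom s (b' i)`, `i < q`, are equal. So
`(b' 0)⁻¹ * b' 1` and `(b' 0)⁻¹ * b' 3` are in the kernel of `orbHom s` and commute
(`orb_comm`); `eq_of_near` gives `b' 0 = b' 1`. -/
theorem key {q : ℕ} (hq : 4 ≤ q) (hC : CC q) (hβ : Nat.card β ≤ 2 * q + 1) (hs : ∀ x, s x ≠ x)
    {b : ℕ → Perm β} (hb : RelBr q b) (hc : ∀ i, i < q → s * b i = b i * s) : b 0 = b 1 := by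
  obtain ⟨b', hb', he⟩ := lift_Ce hb hc
  have hcard : Nat.card (Qs s) ≤ q := by
    have := two_mul_card hs
    omega
  have h1 : orbHom s (b' 0) = orbHom s (b' 1) :=
    hC (Qs s) hcard (fun i => orbHom s (b' i)) (hb'.map (orbHom s))
  have h2 : ∀ j, j < q → orbHom s (b' j) = orbHom s (b' 0) :=
    all_eq_of_succ (hb'.map (orbHom s)) (i := 0) (by omega) h1
  have h3 : ∀ j, j < q → orbHom s ((b' 0)⁻¹ * b' j) = 1 := by
    intro j hj
    rw [map_mul, map_inv, h2 j hj, inv_mul_cancel]
  have h4 : b' 0 = b' 1 :=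
    eq_of_near hq hb' (orb_comm (h3 1 (by omega)) (h3 3 (by omega)))
  rw [← he 0 (by omega), ← he 1 (by omega), h4]

end Pool.Agent.Helper38.BN
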