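import Pool.Agent.Helper38.BN.B3W2
import Pool.Agent.Helper38.BN.PiF

/-!
# Project BN, block B3, piece B3-16: the image of the twin
-/

namespace Pool.Agent.Helper38.BN

open Equiv

variable {m : ℕ}

/-- piece B3-16: the twin of `a_{m+1}` has the same image.
Proof. `f ∘ aA` satisfies `RelBr (m + 2)`; all `f (aA i)`, `i < m + 2`, are transpositions
(`RelBr.conj_zero`, `isSwap_conj`), and so is `f bA`, which is conjugate to `f (aA m)` (relation
`bb` of `relA m`). `std_pos` with `p = m + 2`: `c 0, …, c (m + 2)` are all points. Suppose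
`f bA ≠ f (aA (m + 1))`. Then `f bA` fixes `c (m + 1)` and `c (m + 2)` (`fix_of_commute`, relation
`ba`). For `i < m`: `f bA ≠ f (aA i)`: otherwise, if `i + 2 ≤ m`: `aA i` commutes with `aA m`, `bA`
is braided with `aA m`: `f (aA m) = f bA = f (aA i)` (`eq_of_comm_braid`); if `i = m - 1`:
`bA` commutes with `aA (m - 2)`, which is braided with `aA (m - 1)`: `f (aA (m - 2)) = f (aA i)`.
Both contradict `hd`. So `f bA` fixes `c i` and `c (i + 1)` for `i < m` (`fix_of_commute`,
relation `bc`). So `f bA` fixes `c 0, …, c (m + 2)`, all points of `Fin (m + 3)` (`c` is injective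
on `0, …, m + 2`), so `f bA = 1`, not a transposition. -/
theorem f_b (hm : 2 ≤ m) (f : A m →* Perm (Fin (m + 3))) (hs : (f (aA 0)).IsSwap)
    (hd : ∀ i j, i < j → j < m + 2 → f (aA i) ≠ f (aA j)) : f bA = f (aA (m + 1)) := by
  have h : RelBr (m + 2) (fun i => f (aA i)) := (relA m).toRelB.toRelBr.map f
  have hsw : ∀ i, i < m + 2 → (f (aA i)).IsSwap := by
    intro i hi
    obtain ⟨g, hg⟩ := h.conj_zero hi
    have hg' : f (aA i) = g * f (aA 0) * g⁻¹ := hg
    rw [hg']
    exact isSwap_conj hs g
  have hbb : f bA * f (aA m) * f bA = f (aA m) * f bA * f (aA m) := by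
    rw [← map_mul, ← map_mul, (relA m).bb, map_mul, map_mul]
  have hba : f bA * f (aA (m + 1)) = f (aA (m + 1)) * f bA := by
    rw [← map_mul, (relA m).ba, map_mul]
  have hbc : ∀ i, i < m → f bA * f (aA i) = f (aA i) * f bA := by
    intro i hi
    rw [← map_mul, (relA m).bc i hi, map_mul]
  have hbsw : (f bA).IsSwap := by
    have e : f bA = (f (aA m) * f bA) * f (aA m) * (f (aA m) * f bA)⁻¹ := by
      rw [← hbb]
      group
    rw [e]
    exact isSwap_conj (hsw m (by omega)) _
  obtain ⟨c, hc1, hc2⟩ := std_pos (p := m + 2) (by omega) h hsw hd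
  have hc2' : ∀ i, i < m + 2 → f (aA i) = swap (c i) (c (i + 1)) := hc2
  have hmv1 : ∀ i, i < m + 2 → f (aA i) (c i) ≠ c i := by
    intro i hi
    rw [hc2' i hi, swap_apply_left]
    exact (hc1 i (i + 1) (by omega) (by omega)).symm
  have hmv2 : ∀ i, i < m + 2 → f (aA i) (c (i + 1)) ≠ c (i + 1) := by
    intro i hi
    rw [hc2' i hi, swap_apply_right]
    exact hc1 i (i + 1) (by omega) (by omega)
  by_contra hne
  have hnei : ∀ i, i < m → f (aA i) ≠ f bA := by
    intro i hi he
    rcases Nat.lt_or_ge (i + 1) m with h1 | h1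
    · have e1 : f (aA i) * f (aA m) = f (aA m) * f (aA i) := h.comm i m (by omega) (by omega)
      rw [he] at e1
      exact hd i m hi (by omega) (he.trans (eq_of_comm_braid e1 hbb))
    · obtain ⟨r, rfl⟩ : ∃ r, i = r + 1 := ⟨i - 1, by omega⟩
      have e1 := hbc r (by omega)
      rw [← he] at e1
      have e2 : f (aA r) * f (aA (r + 1)) * f (aA r) =
          f (aA (r + 1)) * f (aA r) * f (aA (r + 1)) := h.braid r (by omega)
      exact hd r (r + 1) (by omega) (by omega) (eq_of_comm_braid e1.symm e2)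
  have hfix : ∀ j, j < m + 3 → f bA (c j) = c j := by
    intro j hj
    rcases Nat.lt_or_ge j m with h1 | h1
    · exact fix_of_commute (hsw j (by omega)) hbsw (hbc j h1).symm (hnei j h1)
        (hmv1 j (by omega))
    · have h2 : j = m ∨ j = m + 1 ∨ j = m + 2 := by omega
      rcases h2 with rfl | rfl | rfl
      · obtain ⟨r, rfl⟩ : ∃ r, j = r + 1 := ⟨j - 1, by omega⟩
        exact fix_of_commute (hsw r (by omega)) hbsw (hbc r (by omega)).symm
          (hnei r (by omega)) (hmv2 r (by omega))
      · exact fix_of_commute (hsw (m + 1) (by omega)) hbsw hba.symm (fun e => hne e.symm)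
          (hmv1 (m + 1) (by omega))
      · exact fix_of_commute (hsw (m + 1) (by omega)) hbsw hba.symm (fun e => hne e.symm)
          (hmv2 (m + 1) (by omega))
  have hinj : Function.Injective (fun j : Fin (m + 3) => c j.1) := by
    intro i j hij
    by_contra hne'
    rcases Nat.lt_or_gt_of_ne (fun e => hne' (Fin.ext e)) with h1 | h1
    · exact hc1 i.1 j.1 h1 (by omega) hij
    · exact hc1 j.1 i.1 h1 (by omega) hij.symm
  have hsurj := Finite.surjective_of_injective hinj
  obtain ⟨x, y, hxy, he⟩ := hbsw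
  obtain ⟨j, hj⟩ := hsurj x
  have h3 := hfix j.1 j.2
  have hj' : c j.1 = x := hj
  rw [hj', he, swap_apply_left] at h3
  exact hxy h3.symm

end Pool.Agent.Helper38.BN
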