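import Pool.Agent.Helper38.BN.B3R

/-!
# Project BN, block B3, piece B3-15: elements which commute with adjacent transpositions
-/

namespace Pool.Agent.Helper38.BN

open Equiv

variable {α : Type*} [DecidableEq α]

private lemma w3_aux {g : Perm α} {x y : α} (hxy : x ≠ y)
    (h : g * swap x y = swap x y * g) : (g x = x ∨ g x = y) ∧ (g y = x ∨ g y = y) := by
  have h1 : g y = swap x y (g x) := by
    have := congrArg (fun f : Perm α => f x) h
    simpa [Perm.mul_apply] using this
  have h2 : g x = swap x y (g y) := by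
    have := congrArg (fun f : Perm α => f y) h
    simpa [Perm.mul_apply] using this
  constructor
  · by_contra hc
    push Not at hc
    rw [swap_apply_of_ne_of_ne hc.1 hc.2] at h1
    exact hxy (g.injective h1).symm
  · by_contra hc
    push Not at hc
    rw [swap_apply_of_ne_of_ne hc.1 hc.2] at h2
    exact hxy (g.injective h2)

/-- piece B3-15: an element which commutes with `swap (c i) (c (i + 1))`, `1 ≤ i < p`, fixes
`c 1, …, c p`.
Proof. From `g * swap x y = swap x y * g` with `x ≠ y`: `g x ∈ {x, y}` and `g y ∈ {x, y}` (they are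
moved by `swap x y`). For `2 ≤ i < p`: `g (c i) ∈ {c (i-1), c i} ∩ {c i, c (i+1)} = {c i}`. For
`i = 1`: `g (c 1) ∈ {c 1, c 2}` and `g (c 2) = c 2`. For `i = p`: `g (c p) ∈ {c (p-1), c p}` and
`g (c (p-1)) = c (p-1)`. -/
theorem fix_of_comm {p : ℕ} (hp : 3 ≤ p) {c : ℕ → α} (hc : ∀ i j, i < j → j ≤ p → c i ≠ c j)
    {g : Perm α} (hg : ∀ i, 1 ≤ i → i < p →
      g * swap (c i) (c (i + 1)) = swap (c i) (c (i + 1)) * g) :
    ∀ i, 1 ≤ i → i ≤ p → g (c i) = c i := by
  have key : ∀ i, 1 ≤ i → i < p → (g (c i) = c i ∨ g (c i) = c (i + 1)) ∧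
      (g (c (i + 1)) = c i ∨ g (c (i + 1)) = c (i + 1)) := fun i h1 h2 =>
    w3_aux (hc i (i + 1) (by omega) (by omega)) (hg i h1 h2)
  have hmid : ∀ i, 2 ≤ i → i < p → g (c i) = c i := by
    intro i h2 hp'
    have ha := (key (i - 1) (by omega) (by omega)).2
    rw [Nat.sub_add_cancel (by omega)] at ha
    have hb := (key i (by omega) hp').1
    rcases ha with ha | ha
    · rcases hb with hb | hb
      · exact hb
      · exact absurd (ha.symm.trans hb) (hc (i - 1) (i + 1) (by omega) (by omega))
    · exact ha
  intro i h1 hi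
  rcases Nat.lt_or_ge i 2 with h | h
  · obtain rfl : i = 1 := by omega
    rcases (key 1 le_rfl (by omega)).1 with h' | h'
    · exact h'
    · have h2 := hmid 2 le_rfl (by omega)
      exact absurd (g.injective (h'.trans h2.symm)) (hc 1 2 (by omega) (by omega))
  · rcases Nat.lt_or_ge i p with h3 | h3
    · exact hmid i h h3
    · obtain rfl : i = p := by omega
      have ha := (key (i - 1) (by omega) (by omega)).2
      rw [Nat.sub_add_cancel (by omega)] at ha
      rcases ha with ha | ha
      · have hb := hmid (i - 1) (by omega) (by omega)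
        exact absurd (g.injective (ha.trans hb.symm)).symm
          (hc (i - 1) i (by omega) (by omega))
      · exact ha

end Pool.Agent.Helper38.BN
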