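import Pool.Agent.Helper38.BN.B3F0
import Pool.Agent.Helper38.BN.B3W3

/-!
# Project BN, block B3, piece B3-17: homomorphisms with transpositions as values
-/

namespace Pool.Agent.Helper38.BN

open Equiv

variable {m : ℕ}

/-- piece B3-17: standard homomorphisms.
Proof. As in `f_b`: all `f (aA i)` are transpositions; `std_pos` with `p = m + 2`:
`f (aA i) = swap (c i) (c (i + 1))`. Let `g : Perm (Fin (m + 3))` with `g i = c i` for all `i`
(`Equiv.ofBijective` of the injective function `i ↦ c i`, `Finite.injective_iff_bijective`). Then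
`g * swap i (i + 1) * g⁻¹ = swap (c i) (c (i + 1))` (`Equiv.swap_apply_apply`). `f dA` commutes with
`f (aA i)`, `1 ≤ i < m + 2` (relation `dcomm`), so it fixes `c 1, …, c (m + 2)`
(`fix_of_comm`), and also the remaining point `c 0` (injectivity), so `f dA = 1`. So
`f` and `x ↦ g * piF m x * g⁻¹` (the homomorphism `(MulAut.conj g).toMonoidHom.comp (piF m)`) agree
on the generators (`piF_a`, `piF_b`, `piF_d`, `homA_ext`). -/
theorem std_of_swap (hm : 1 ≤ m) (f : A m →* Perm (Fin (m + 3))) (hs : (f (aA 0)).IsSwap)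
    (hd : ∀ i j, i < j → j < m + 2 → f (aA i) ≠ f (aA j)) (hb : f bA = f (aA (m + 1))) :
    ∃ g, ∀ x, f x = g * piF m x * g⁻¹ := by
  have hr : RelBr (m + 2) (fun i => f (aA i)) := (relA m).toRelB.toRelBr.map f
  have hsw : ∀ i, i < m + 2 → (f (aA i)).IsSwap := by
    intro i hi
    obtain ⟨g, hg⟩ := hr.conj_zero hi
    have hg' : f (aA i) = g * f (aA 0) * g⁻¹ := hg
    rw [hg']
    exact isSwap_conj hs g
  obtain ⟨c, hc, hac⟩ := std_pos (p := m + 2) (by omega) hr hsw hd
  have hinj : Function.Injective (fun i : Fin (m + 3) => c i) := by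
    intro i j hij
    have hij' : c i = c j := hij
    by_contra hne
    rcases Nat.lt_or_gt_of_ne (fun h => hne (Fin.ext h) : (i : ℕ) ≠ (j : ℕ)) with h | h
    · exact hc i j h (by omega) hij'
    · exact hc j i h (by omega) hij'.symm
  have hbij := Finite.injective_iff_bijective.1 hinj
  let g : Perm (Fin (m + 3)) := Equiv.ofBijective _ hbij
  have hg : ∀ (i : ℕ) (hi : i < m + 3), g ⟨i, hi⟩ = c i := fun i hi => rfl
  have hconj : ∀ i, i < m + 2 → g * swF m i * g⁻¹ = f (aA i) := by
    intro i hi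
    have h1 : f (aA i) = swap (c i) (c (i + 1)) := hac i hi
    rw [swF, dif_pos hi, h1, ← hg i (by omega), ← hg (i + 1) (by omega),
      Equiv.swap_apply_apply]
  have hfix : ∀ i, 1 ≤ i → i ≤ m + 2 → f dA (c i) = c i := by
    refine fix_of_comm (p := m + 2) (by omega) hc ?_
    intro i h1 h2
    have h3 : f (aA i) = swap (c i) (c (i + 1)) := hac i h2
    rw [← h3, ← map_mul, ← map_mul, (relA m).dcomm i (by omega) h2]
  have hsur : ∀ z : Fin (m + 3), ∃ i, i ≤ m + 2 ∧ z = c i := by
    intro z
    obtain ⟨i, hi⟩ := hbij.2 z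
    exact ⟨i, by omega, hi.symm⟩
  have h0 : f dA (c 0) = c 0 := by
    obtain ⟨i, hi, h1⟩ := hsur (f dA (c 0))
    rcases Nat.eq_zero_or_pos i with rfl | h2
    · exact h1
    · exfalso
      rw [← hfix i h2 hi] at h1
      exact hc 0 i h2 hi ((f dA).injective h1)
  have hdd : f dA = 1 := by
    apply Equiv.ext
    intro z
    obtain ⟨i, hi, rfl⟩ := hsur z
    rcases Nat.eq_zero_or_pos i with rfl | h2
    · exact h0
    · exact hfix i h2 hi
  refine ⟨g, fun x => ?_⟩
  have he : f = (MulAut.conj g).toMonoidHom.comp (piF m) := by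
    apply homA_ext
    · intro j hj
      rw [MonoidHom.comp_apply, piF_a hj]
      exact (hconj j hj).symm
    · rw [MonoidHom.comp_apply, piF_b, hb]
      exact (hconj (m + 1) (by omega)).symm
    · rw [MonoidHom.comp_apply, piF_d, map_one, hdd]
  exact DFunLike.congr_fun he x

end Pool.Agent.Helper38.BN
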