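import Pool.Agent.Helper38.BN.B3C

/-!
# Project BN, block B3: restriction to the support and to the fixed points
-/

namespace Pool.Agent.Helper38.BN

open Equiv

section
variable {α : Type*}

/-- the restriction of the centralizer to the support of `s` -/
def resS (s : Perm α) : Ce s →* Perm {x // s x ≠ x} where
  toFun g := (g : Perm α).subtypePerm (p := fun x => s x ≠ x) (fun x => by
    rw [← Ce_apply, ne_eq, ne_eq, (g : Perm α).injective.eq_iff])
  map_one' := by ext x; rfl
  map_mul' _ _ := by ext x; rfl

/-- the restriction of the centralizer to the fixed points of `s` -/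
def resF (s : Perm α) : Ce s →* Perm {x // s x = x} where
  toFun g := (g : Perm α).subtypePerm (p := fun x => s x = x) (fun x => by
    rw [← Ce_apply, (g : Perm α).injective.eq_iff])
  map_one' := by ext x; rfl
  map_mul' _ _ := by ext x; rfl

lemma resS_apply {s : Perm α} (g : Ce s) (x : {x // s x ≠ x}) :
    ((resS s g x : {x // s x ≠ x}) : α) = (g : Perm α) x := rfl

lemma resF_apply {s : Perm α} (g : Ce s) (x : {x // s x = x}) :
    ((resF s g x : {x // s x = x}) : α) = (g : Perm α) x := rfl

/-- equality can be checked on the support and on the fixed points -/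
theorem res_ext {s : Perm α} {g h : Ce s} (h1 : resS s g = resS s h) (h2 : resF s g = resF s h) :
    g = h := by
  apply Subtype.ext
  ext x
  by_cases hx : s x = x
  · have := congrArg (fun t => ((t ⟨x, hx⟩ : {x // s x = x}) : α)) h2
    exact this
  · have := congrArg (fun t => ((t ⟨x, hx⟩ : {x // s x ≠ x}) : α)) h1
    exact this

/-- `s` as an element of its centralizer -/
def selfC (s : Perm α) : Ce s := ⟨s, mem_Ce.2 rfl⟩

lemma selfC_comm (s : Perm α) (g : Ce s) : selfC s * g = g * selfC s :=
  Subtype.ext (mem_Ce.1 g.2)

/-- the restriction of `s` to its support has no fixed points -/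
lemma resS_self (s : Perm α) (x : {x // s x ≠ x}) : resS s (selfC s) x ≠ x := by
  intro h
  exact x.2 (congrArg Subtype.val h)

/-- the restriction of `s` commutes with the restrictions of the centralizer -/
lemma resS_comm (s : Perm α) (g : Ce s) :
    resS s (selfC s) * resS s g = resS s g * resS s (selfC s) := by
  rw [← map_mul, ← map_mul, selfC_comm]

/-- piece B3-8: the number of points.
Proof. `Nat.card_sum`, `Equiv.sumCompl` (or `Fintype.card_subtype_compl`). -/
theorem card_supp_fix [Finite α] (s : Perm α) :
    Nat.card {x // s x ≠ x} + Nat.card {x // s x = x} = Nat.card α := by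
  classical
  rw [add_comm, ← Nat.card_sum]
  exact Nat.card_congr (Equiv.sumCompl fun x => s x = x)

/-- piece B3-8: the support has at least two elements.
Proof. If `s x ≠ x`, then `x` and `s x` are in the support. -/
theorem two_le_supp [Finite α] {s : Perm α} (h : s ≠ 1) : 2 ≤ Nat.card {x // s x ≠ x} := by
  obtain ⟨x, hx⟩ : ∃ x, s x ≠ x := by
    by_contra h1
    push Not at h1
    exact h (Equiv.ext h1)
  have hy : s (s x) ≠ s x := fun h1 => hx (s.injective h1)
  have h2 : Nontrivial {x // s x ≠ x} :=
    ⟨⟨s x, hy⟩, ⟨x, hx⟩, fun h1 => hx (congrArg Subtype.val h1)⟩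
  exact Finite.one_lt_card

/-- piece B3-8: Proof: `Nat.card_eq_two_iff`: the support is `{x, y}`; `s` maps the support to
itself and has no fixed points there, so `s x = y`, `s y = x`, `s = swap x y`
(or: `Perm.card_support_eq_two` with `Fintype.ofFinite`). -/
theorem isSwap_of_card [Finite α] [DecidableEq α] {s : Perm α}
    (h : Nat.card {x // s x ≠ x} = 2) : s.IsSwap := by
  have := Fintype.ofFinite α
  rw [← Perm.card_support_eq_two, ← h, Nat.card_eq_fintype_card, Fintype.card_subtype]
  rfl

end

end Pool.Agent.Helper38.BN
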