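import Pool.Agent.Helper38.BN.B3D5
import Pool.Agent.Helper38.BN.B3D7
import Pool.Agent.Helper38.BN.B3P1

/-!
# Project BN, block B3, pieces B3-9 and B3-10: four and five generators
-/

namespace Pool.Agent.Helper38.BN

open Equiv

/-- piece B3-9: elements of the centralizer of `s` with the braid relation, at most five points:
if they agree on the fixed points of `s`, they are equal.
Proof. `res_ext`, `eq_small` for `resS s (selfC s)` (`resS_self`, `resS_comm`), as the support has
at most five points (`card_supp_fix`). -/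
theorem eq_of_resF {α : Type} [Finite α] (hα : Nat.card α ≤ 5) {s : Perm α} {x y : Ce s}
    (h : x * y * x = y * x * y) (hF : resF s x = resF s y) : x = y := by
  apply res_ext _ hF
  have hc := card_supp_fix s
  refine eq_small (s := resS s (selfC s)) (by omega) (resS_self s) (resS_comm s x)
    (resS_comm s y) ?_
  rw [← map_mul, ← map_mul, h, map_mul, map_mul]

/-- the first generator is not trivial -/
private lemma first_ne_one {α : Type} {p : ℕ} {a : ℕ → Perm α} (hp : 2 ≤ p) (h : RelBr p a)
    (hne : a 0 ≠ a 1) : a 0 ≠ 1 := by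
  intro h1
  obtain ⟨g, hg⟩ := h.conj_zero (i := 1) (by omega)
  apply hne
  rw [hg, h1]
  group

/-- piece B3-9: four generators, at most five points.
Proof. Let `s = a 0`, `x = a 2`, `y = a 3`: elements of `Ce s` (`h.comm`) with the braid relation.
`s ≠ 1`: otherwise all `a i = 1` (`RelBr.conj_zero`). So the support has at least two elements
(`two_le_supp`). If there are at most two fixed points: `resF s x = resF s y`
(`comm_of_card_two`, `eq_of_comm_braid`), so `x = y` (`eq_of_resF`) and all generators are equal
(`all_eq`), contradiction. So at least three fixed points, `card_supp_fix`: exactly five points,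
two of them in the support. -/
theorem step4 {α : Type} [Finite α] (hα : Nat.card α ≤ 5) {a : ℕ → Perm α} (h : RelBr 4 a)
    (hne : a 0 ≠ a 1) : Nat.card α = 5 ∧ Nat.card {x // a 0 x ≠ x} = 2 := by
  have h1 := first_ne_one (by omega) h hne
  have h2 := two_le_supp h1
  have h3 := card_supp_fix (a 0)
  by_cases h4 : Nat.card {x // a 0 x = x} ≤ 2
  · exfalso
    obtain ⟨x, hx⟩ : ∃ x : Ce (a 0), (x : Perm α) = a 2 :=
      ⟨⟨a 2, mem_Ce.2 (h.comm 0 2 (by omega) (by omega))⟩, rfl⟩
    obtain ⟨y, hy⟩ : ∃ y : Ce (a 0), (y : Perm α) = a 3 :=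
      ⟨⟨a 3, mem_Ce.2 (h.comm 0 3 (by omega) (by omega))⟩, rfl⟩
    have hb : x * y * x = y * x * y := by
      apply Subtype.ext
      simp only [Subgroup.coe_mul, hx, hy]
      exact h.braid 2 (by omega)
    have hF : resF (a 0) x = resF (a 0) y := by
      apply eq_of_comm_braid (comm_of_card_two h4 _ _)
      rw [← map_mul, ← map_mul, hb, map_mul, map_mul]
    have hxy : x = y := eq_of_resF hα hb hF
    have h23 : a 2 = a 3 := by rw [← hx, ← hy, hxy]
    exact hne (all_eq le_rfl h (i := 2) (j := 3) (by omega) (by omega) h23 1 (by omega)).symm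
  · omega

/-- piece B3-9: Proof: `step4`: fewer than five points are not possible. -/
theorem c4 : CC 4 := by
  intro γ _ hγ a h
  by_contra hne
  have := (step4 (by omega) h hne).1
  omega

/-- piece B3-10: five generators, at most five points: all generators are equal.
Proof. Suppose `a 0 ≠ a 1`. Let `s = a 0`, `x = a 2`, `y = a 3`, `z = a 4`, in `Ce s`; `s ≠ 1`, so
the support has at least two elements and there are at most three fixed points. `resF s x = resF s z`
by `eq_of_card_three`. `resS s x = resS s y = resS s z` by `eq_small` (as in `eq_of_resF`). So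
`x = z` (`res_ext`), `a 2 = a 4`, and `all_eq` gives `a 0 = a 1`. -/
theorem c5 : CC 5 := by
  intro γ _ hγ a h
  by_contra hne
  have h1 := first_ne_one (by omega) h hne
  have h2 := two_le_supp h1
  have h3 := card_supp_fix (a 0)
  obtain ⟨x, hx⟩ : ∃ x : Ce (a 0), (x : Perm γ) = a 2 :=
    ⟨⟨a 2, mem_Ce.2 (h.comm 0 2 (by omega) (by omega))⟩, rfl⟩
  obtain ⟨y, hy⟩ : ∃ y : Ce (a 0), (y : Perm γ) = a 3 :=
    ⟨⟨a 3, mem_Ce.2 (h.comm 0 3 (by omega) (by omega))⟩, rfl⟩
  obtain ⟨z, hz⟩ : ∃ z : Ce (a 0), (z : Perm γ) = a 4 :=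
    ⟨⟨a 4, mem_Ce.2 (h.comm 0 4 (by omega) (by omega))⟩, rfl⟩
  have hxy : x * y * x = y * x * y := by
    apply Subtype.ext
    simp only [Subgroup.coe_mul, hx, hy]
    exact h.braid 2 (by omega)
  have hyz : y * z * y = z * y * z := by
    apply Subtype.ext
    simp only [Subgroup.coe_mul, hy, hz]
    exact h.braid 3 (by omega)
  have hxz : x * z = z * x := by
    apply Subtype.ext
    simp only [Subgroup.coe_mul, hx, hz]
    exact h.comm 2 4 (by omega) (by omega)
  have hF : resF (a 0) x = resF (a 0) z := by
    apply eq_of_card_three (y := resF (a 0) y) (by omega)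
    · rw [← map_mul, hxz, map_mul]
    · rw [← map_mul, ← map_mul, hxy, map_mul, map_mul]
    · rw [← map_mul, ← map_mul, hyz, map_mul, map_mul]
  have hS1 : resS (a 0) x = resS (a 0) y := by
    refine eq_small (s := resS (a 0) (selfC (a 0))) (by omega) (resS_self _) (resS_comm _ x)
      (resS_comm _ y) ?_
    rw [← map_mul, ← map_mul, hxy, map_mul, map_mul]
  have hS2 : resS (a 0) y = resS (a 0) z := by
    refine eq_small (s := resS (a 0) (selfC (a 0))) (by omega) (resS_self _) (resS_comm _ y)
      (resS_comm _ z) ?_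
    rw [← map_mul, ← map_mul, hyz, map_mul, map_mul]
  have e : x = z := res_ext (hS1.trans hS2) hF
  have h24 : a 2 = a 4 := by rw [← hx, ← hz, e]
  exact hne (all_eq (by omega) h (i := 2) (j := 4) (by omega) (by omega) h24 1 (by omega)).symm

end Pool.Agent.Helper38.BN
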