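import Pool.Agent.Helper38.BN.Br1

/-!
# Project BN, block B3: the relations of the braid group, elementary lemmas
-/

namespace Pool.Agent.Helper38.BN

section
variable {K L : Type*} [Group K] [Group L] {p : ℕ} {a : ℕ → K}

/-- commuting elements with the braid relation are equal -/
lemma eq_of_comm_braid {x y : K} (hc : x * y = y * x) (hb : x * y * x = y * x * y) : x = y := by
  have h1 : y * x * x = y * x * y := by rw [← hb, hc]
  exact mul_left_cancel h1

lemma RelBr.mono {q : ℕ} (h : RelBr p a) (hq : q ≤ p) : RelBr q a where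
  comm i j h1 h2 := h.comm i j h1 (by omega)
  braid i h1 := h.braid i (by omega)

/-- shift of the generators -/
lemma RelBr.shift (h : RelBr p a) (r q : ℕ) (hq : q + r ≤ p) : RelBr q (fun i => a (i + r)) where
  comm i j h1 h2 := h.comm (i + r) (j + r) (by omega) (by omega)
  braid i h1 := by
    have := h.braid (i + r) (by omega)
    rwa [show i + r + 1 = i + 1 + r by omega] at this

lemma RelBr.map (h : RelBr p a) (f : K →* L) : RelBr p (fun i => f (a i)) where
  comm i j h1 h2 := by rw [← map_mul, ← map_mul, h.comm i j h1 h2]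
  braid i h1 := by simp only [← map_mul]; rw [h.braid i h1]

lemma RelBr.congr {a' : ℕ → K} (h : RelBr p a) (he : ∀ i, i < p → a' i = a i) : RelBr p a' where
  comm i j h1 h2 := by rw [he i (by omega), he j h2, h.comm i j h1 h2]
  braid i h1 := by rw [he i (by omega), he (i + 1) h1, h.braid i h1]

/-- the generators are conjugate -/
lemma RelBr.conj_step (h : RelBr p a) {i : ℕ} (hi : i + 1 < p) :
    a (i + 1) = (a i * a (i + 1)) * a i * (a i * a (i + 1))⁻¹ := by
  rw [eq_mul_inv_iff_mul_eq, ← mul_assoc]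
  exact (h.braid i hi).symm

/-- the generators are conjugate to `a 0` -/
lemma RelBr.conj_zero (h : RelBr p a) {i : ℕ} (hi : i < p) : ∃ g, a i = g * a 0 * g⁻¹ := by
  induction i with
  | zero => exact ⟨1, by simp⟩
  | succ i ih =>
    obtain ⟨g, hg⟩ := ih (by omega)
    refine ⟨a i * a (i + 1) * g, ?_⟩
    conv_lhs => rw [h.conj_step hi]
    have : a i * a (i + 1) * g * a 0 * (a i * a (i + 1) * g)⁻¹ =
        a i * a (i + 1) * (g * a 0 * g⁻¹) * (a i * a (i + 1))⁻¹ := by group
    rw [this, ← hg]

/-- `a_i = a_{i+1}` implies `a_j = a_{j+1}` -/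
lemma RelBr.succ_iff (h : RelBr p a) {i : ℕ} (hi : i + 2 < p) :
    a i = a (i + 1) ↔ a (i + 1) = a (i + 2) := by
  have h1 := kap_shift h le_rfl (j := i) (by omega)
  have h2 := kap_shift h le_rfl (j := i + 1) (by omega)
  constructor
  · intro e
    rw [← e, h1] at h2
    exact mul_right_cancel h2
  · intro e
    rw [← e, ← h1] at h2
    exact (mul_left_cancel h2).symm

/-- if `a_i = a_{i+1}` for one `i`, all generators are equal -/
theorem all_eq_of_succ (h : RelBr p a) {i : ℕ} (hi : i + 1 < p) (he : a i = a (i + 1)) :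
    ∀ j, j < p → a j = a 0 := by
  have h0 : ∀ j, j + 1 < p → (a 0 = a 1 ↔ a j = a (j + 1)) := by
    intro j
    induction j with
    | zero => intro _; exact Iff.rfl
    | succ j ih => intro hj; rw [ih (by omega), h.succ_iff (by omega)]
  have h1 : a 0 = a 1 := (h0 i hi).2 he
  intro j
  induction j with
  | zero => intro _; rfl
  | succ j ih => intro hj; rw [← (h0 j hj).1 h1]; exact ih (by omega)

/-- if two generators are equal, all are equal (at least four generators) -/
theorem all_eq (hp : 4 ≤ p) (h : RelBr p a) {i j : ℕ} (hij : i < j) (hj : j < p)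
    (he : a i = a j) : ∀ l, l < p → a l = a 0 := by
  rcases Nat.lt_or_ge (i + 1) j with h1 | h1
  · rcases Nat.lt_or_ge (j + 1) p with h2 | h2
    · -- `l = j + 1`
      have e : a j = a (j + 1) := by
        apply eq_of_comm_braid _ (h.braid j h2)
        rw [← he]
        exact h.comm i (j + 1) (by omega) h2
      exact all_eq_of_succ h h2 e
    · rcases Nat.eq_zero_or_pos i with rfl | h3
      · -- `l = 1`
        have e : a 0 = a 1 := by
          apply eq_of_comm_braid _ (h.braid 0 (by omega))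
          rw [he]
          exact (h.comm 1 j (by omega) hj).symm
        exact all_eq_of_succ h (by omega) e
      · obtain ⟨r, rfl⟩ : ∃ r, i = r + 1 := ⟨i - 1, by omega⟩
        have e : a r = a (r + 1) := by
          apply eq_of_comm_braid _ (h.braid r (by omega))
          rw [he]
          exact h.comm r j (by omega) hj
        exact all_eq_of_succ h (by omega) e
  · have e : j = i + 1 := by omega
    subst e
    exact all_eq_of_succ h hj he

/-- four generators: if `a_0⁻¹ a_1` and `a_0⁻¹ a_3` commute, then `a_0 = a_1` -/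
theorem eq_of_near (hp : 4 ≤ p) (h : RelBr p a)
    (hc : ((a 0)⁻¹ * a 1) * ((a 0)⁻¹ * a 3) = ((a 0)⁻¹ * a 3) * ((a 0)⁻¹ * a 1)) : a 0 = a 1 := by
  have h03 := h.comm 0 3 (by omega) (by omega)
  have h13 := h.comm 1 3 (by omega) (by omega)
  apply eq_of_comm_braid _ (h.braid 0 (by omega))
  -- `a_3` commutes with `a_0⁻¹` and `a_1`
  have e1 : (a 0)⁻¹ * a 3 = a 3 * (a 0)⁻¹ := by
    rw [inv_mul_eq_iff_eq_mul, ← mul_assoc, h03, mul_inv_cancel_right]
  have e2 : (a 0)⁻¹ * a 1 * ((a 0)⁻¹ * a 3) = a 3 * ((a 0)⁻¹ * a 1 * (a 0)⁻¹) := by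
    rw [e1]
    calc (a 0)⁻¹ * a 1 * (a 3 * (a 0)⁻¹) = (a 0)⁻¹ * (a 1 * a 3) * (a 0)⁻¹ := by group
      _ = ((a 0)⁻¹ * a 3) * a 1 * (a 0)⁻¹ := by rw [h13]; group
      _ = _ := by rw [e1]; group
  have e3 : (a 0)⁻¹ * a 3 * ((a 0)⁻¹ * a 1) = a 3 * ((a 0)⁻¹ * (a 0)⁻¹ * a 1) := by
    rw [e1]; group
  rw [e2, e3] at hc
  have e4 := mul_left_cancel hc
  rw [mul_assoc, mul_assoc] at e4
  have e5 := mul_left_cancel e4
  rw [eq_inv_mul_iff_mul_eq, ← mul_assoc, mul_inv_eq_iff_eq_mul] at e5
  exact e5

end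

/-- a homomorphism on `A m` with noncommuting values does not identify `a_0` and `a_1` -/
theorem ne_of_noncomm {m : ℕ} {K : Type*} [Group K] (f : A m →* K)
    (hf : ∃ x y, f x * f y ≠ f y * f x) : f (aA 0) ≠ f (aA 1) := by
  intro he
  obtain ⟨x, y, hxy⟩ := hf
  apply hxy
  clear hxy
  have hr := (relA m).toRelB.toRelBr.map f
  have h1 := all_eq_of_succ hr (i := 0) (by omega) he
  have hb : f bA = f (aA 0) := by
    have e1 : f bA * f (aA (m + 1)) = f (aA (m + 1)) * f bA := by
      rw [← map_mul, (relA m).ba, map_mul]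
    have e2 : f bA * f (aA m) * f bA = f (aA m) * f bA * f (aA m) := by
      rw [← map_mul, ← map_mul, (relA m).bb, map_mul, map_mul]
    rw [h1 (m + 1) (by omega)] at e1
    rw [h1 m (by omega)] at e2
    exact eq_of_comm_braid e1 e2
  have hd : f dA * f (aA 0) = f (aA 0) * f dA := by
    have e1 : f (aA 1) * f dA = f dA * f (aA 1) := by
      rw [← map_mul, (relA m).dcomm 1 (by omega) (by omega), map_mul]
    rw [h1 1 (by omega)] at e1
    exact e1.symm
  -- the image is commutative
  have key : ∀ s ∈ ({bA, dA} ∪ aA '' {j | j < m + 2} : Set (A m)),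
      f s = f (aA 0) ∨ f s = f dA := by
    rintro s (hs | ⟨j, hj, rfl⟩)
    · rcases hs with rfl | hs
      · exact Or.inl hb
      · rw [Set.mem_singleton_iff] at hs
        rw [hs]; exact Or.inr rfl
    · exact Or.inl (h1 j hj)
  have key2 : ∀ s ∈ ({bA, dA} ∪ aA '' {j | j < m + 2} : Set (A m)),
      ∀ t ∈ ({bA, dA} ∪ aA '' {j | j < m + 2} : Set (A m)), f s * f t = f t * f s := by
    intro s hs t ht
    rcases key s hs with h2 | h2 <;> rcases key t ht with h3 | h3 <;> rw [h2, h3]
    · exact hd.symm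
    · exact hd
  have hx : x ∈ Subgroup.closure ({bA, dA} ∪ aA '' {j | j < m + 2} : Set (A m)) := by
    rw [closure_A]; trivial
  have hy : y ∈ Subgroup.closure ({bA, dA} ∪ aA '' {j | j < m + 2} : Set (A m)) := by
    rw [closure_A]; trivial
  have step1 : ∀ s ∈ ({bA, dA} ∪ aA '' {j | j < m + 2} : Set (A m)), f s * f y = f y * f s := by
    intro s hs
    induction hy using Subgroup.closure_induction with
    | mem t ht => exact key2 s hs t ht
    | one => simp
    | mul u v _ _ hu hv => rw [map_mul, ← mul_assoc, hu, mul_assoc, hv, mul_assoc]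
    | inv u _ hu =>
      rw [map_inv, eq_inv_mul_iff_mul_eq, ← mul_assoc, ← hu, mul_inv_cancel_right]
  induction hx using Subgroup.closure_induction with
  | mem s hs => exact step1 s hs
  | one => simp
  | mul u v _ _ hu hv => rw [map_mul, mul_assoc, hv, ← mul_assoc, hu, mul_assoc]
  | inv u _ hu =>
    rw [map_inv, inv_mul_eq_iff_eq_mul, ← mul_assoc, hu, mul_inv_cancel_right]

end Pool.Agent.Helper38.BN
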