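import Pool.Agent.Helper38.BN.B3R

/-!
# Project BN, block B3, piece B3-13: transpositions
-/

namespace Pool.Agent.Helper38.BN

open Equiv

variable {α : Type*} [DecidableEq α] {s t : Perm α}

/-- piece B3-13: a transposition is determined by a point which it moves. -/
theorem swap_eq (hs : s.IsSwap) {z : α} (hz : s z ≠ z) : s = swap z (s z) := by
  obtain ⟨x, y, hxy, rfl⟩ := hs
  by_cases h1 : z = x
  · subst h1
    rw [swap_apply_left]
  · by_cases h2 : z = y
    · subst h2
      rw [swap_apply_right, swap_comm]
    · exact absurd (swap_apply_of_ne_of_ne h1 h2) hz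

/-- piece B3-13: conjugates of transpositions are transpositions.
Proof. `Equiv.Perm.mul_swap_eq_swap_mul` or `Equiv.swap_apply_apply`:
`g * swap x y * g⁻¹ = swap (g x) (g y)`. -/
theorem isSwap_conj (hs : s.IsSwap) (g : Perm α) : (g * s * g⁻¹).IsSwap := by
  obtain ⟨x, y, hxy, rfl⟩ := hs
  exact ⟨g x, g y, fun h => hxy (g.injective h), (swap_apply_apply g x y).symm⟩

private lemma inv_apply_swap (hs : s.IsSwap) (z : α) : s (s z) = z := by
  obtain ⟨x, y, hxy, rfl⟩ := hs
  rw [← Perm.mul_apply, swap_mul_self, Perm.one_apply]

/-- piece B3-13: commuting different transpositions are disjoint.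
Proof. `s = swap z w`, `w = s z` (`swap_eq`). `t` commutes with `s`: `t z` and `t w` are
exchanged by `s`, so `{t z, t w} = {z, w}` (they are moved by `s`). If `t z ≠ z` then `t z = w` and
`t = swap z w = s`. -/
theorem fix_of_commute (hs : s.IsSwap) (ht : t.IsSwap) (hc : s * t = t * s) (hne : s ≠ t) {z : α}
    (hz : s z ≠ z) : t z = z := by
  by_contra htz
  have h1 : s (t z) = t (s z) := by
    have := congrArg (fun e : Perm α => e z) hc
    simpa [Perm.mul_apply] using this
  have h2 : s (t z) ≠ t z := by
    rw [h1]
    exact fun h => hz (t.injective h)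
  have h3 := swap_eq hs hz
  have h4 : t z = s z := by
    by_contra h5
    apply h2
    rw [h3]
    exact swap_apply_of_ne_of_ne htz h5
  apply hne
  rw [h3, swap_eq ht htz, h4]

/-- piece B3-13: braided different transpositions have exactly one point in common.
Proof. `s = swap u v`, `u = z`, `v = s z`. If `t` fixes `u` and `v` it commutes with `s`, so
`s = t` (`eq_of_comm_braid`), contradiction. If `t` moves both: `t = swap u (t u)`, and `v` is moved
by `t`, so `t u = v` and `t = s`, contradiction. -/
theorem moves_of_braid (hs : s.IsSwap) (ht : t.IsSwap) (hb : s * t * s = t * s * t)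
    (hne : s ≠ t) {z : α} (hz : s z ≠ z) : (t z = z ∧ t (s z) ≠ s z) ∨ (t z ≠ z ∧ t (s z) = s z) := by
  have h3 := swap_eq hs hz
  by_cases h1 : t z = z
  · by_cases h2 : t (s z) = s z
    · exfalso
      apply hne
      have hc : s * t = t * s := by
        ext x
        rw [Perm.mul_apply, Perm.mul_apply]
        by_cases hx : x = z
        · rw [hx, h1, h2]
        · by_cases hx2 : x = s z
          · rw [hx2, h2, inv_apply_swap hs z, h1]
          · have e1 : s x = x := by
              rw [h3]; exact swap_apply_of_ne_of_ne hx hx2
            have e2 : t x ≠ z := fun h => hx (t.injective (h.trans h1.symm))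
            have e3 : t x ≠ s z := fun h => hx2 (t.injective (h.trans h2.symm))
            have e4 : s (t x) = t x := by
              conv_lhs => rw [h3]
              exact swap_apply_of_ne_of_ne e2 e3
            rw [e1, e4]
      have h5 : s * t * s = s * s * t := by rw [mul_assoc, ← hc, ← mul_assoc]
      have h6 : t * s * t = s * t * t := by rw [← hc]
      rw [h5, h6, mul_assoc, mul_assoc] at hb
      have h7 := mul_left_cancel hb
      exact mul_right_cancel h7
    · exact Or.inl ⟨h1, h2⟩
  · by_cases h2 : t (s z) = s z
    · exact Or.inr ⟨h1, h2⟩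
    · exfalso
      apply hne
      have h4 := swap_eq ht h1
      have h5 : s z = t z := by
        by_contra h6
        apply h2
        rw [h4]
        exact swap_apply_of_ne_of_ne hz h6
      rw [h3, h4, h5]

end Pool.Agent.Helper38.BN
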