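import Mathlib

/-!
# Project BN, block B6, pieces B6-R1, B6-R2, B6-R3, B6-R4: the combinatorics of the indices

Everything here is about functions on `ℤ`.
-/

namespace Pool.Agent.Helper38.BN

/-- the local structure of a sequence with respect to the indices `i`, `i + 1`: there are segments
of two types: `ty t`: `i, i+1, i, i+1, …, i+1` with letters in `P`, otherwise
`i+1, i, …, i+1, i` with letters in `Q` -/
def Loc (f : ℤ → ℕ) (P Q : ℤ → Prop) (i : ℕ) : Prop :=
  ∃ ty : ℤ → Prop,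
    (∀ t, (f t = i ∨ f t = i + 1) → (f (t + 1) = i ∨ f (t + 1) = i + 1) → (ty t ↔ ty (t + 1))) ∧
    (∀ t, f t = i → ty t → P t ∧ f (t + 1) = i + 1 ∧ P (t + 1)) ∧
    (∀ t, f t = i → ¬ ty t → Q t ∧ f (t - 1) = i + 1 ∧ Q (t - 1)) ∧
    (∀ t, f t = i + 1 → ty t → P t ∧ f (t - 1) = i ∧ P (t - 1)) ∧
    (∀ t, f t = i + 1 → ¬ ty t → Q t ∧ f (t + 1) = i ∧ Q (t + 1))

/-- ascending letters -/
def UpT (f : ℤ → ℕ) (P : ℤ → Prop) (p p' : ℕ) (t : ℤ) : Prop :=
  P t ∧ (f t < p' → f (t + 1) = f t + 1 ∧ P (t + 1)) ∧ (p < f t → f (t - 1) + 1 = f t ∧ P (t - 1))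

/-- descending letters -/
def DnT (f : ℤ → ℕ) (Q : ℤ → Prop) (p p' : ℕ) (t : ℤ) : Prop :=
  Q t ∧ (f t < p' → f (t - 1) = f t + 1 ∧ Q (t - 1)) ∧ (p < f t → f (t + 1) + 1 = f t ∧ Q (t + 1))

/-- the segment `[t₁, t₂]` is a maximal one with the indices `i`, `i + 1` -/
def MaxSeg (f : ℤ → ℕ) (i : ℕ) (t₁ t₂ : ℤ) : Prop :=
  t₁ ≤ t₂ ∧ (∀ s, t₁ ≤ s → s ≤ t₂ → f s = i ∨ f s = i + 1) ∧
    (f (t₁ - 1) ≠ i ∧ f (t₁ - 1) ≠ i + 1) ∧ (f (t₂ + 1) ≠ i ∧ f (t₂ + 1) ≠ i + 1)

/-- two maximal segments with a common point are equal -/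
private theorem maxSeg_unique {f : ℤ → ℕ} {i : ℕ} {a b c d t : ℤ} (h : MaxSeg f i a b)
    (h' : MaxSeg f i c d) (h1 : a ≤ t) (h2 : t ≤ b) (h3 : c ≤ t) (h4 : t ≤ d) :
    a = c ∧ b = d := by
  obtain ⟨-, hin, ⟨hl1, hl2⟩, ⟨hr1, hr2⟩⟩ := h
  obtain ⟨-, hin', ⟨hl1', hl2'⟩, ⟨hr1', hr2'⟩⟩ := h'
  constructor
  · rcases lt_trichotomy a c with hlt | heq | hgt
    · rcases hin (c - 1) (by omega) (by omega) with h | h
      · exact absurd h hl1'
      · exact absurd h hl2'
    · exact heq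
    · rcases hin' (a - 1) (by omega) (by omega) with h | h
      · exact absurd h hl1
      · exact absurd h hl2
  · rcases lt_trichotomy b d with hlt | heq | hgt
    · rcases hin' (b + 1) (by omega) (by omega) with h | h
      · exact absurd h hr1
      · exact absurd h hr2
    · exact heq
    · rcases hin (d + 1) (by omega) (by omega) with h | h
      · exact absurd h hr1'
      · exact absurd h hr2'

/-- piece `B6-R1`: from the maximal segments to `Loc`.
Proof. `ty t := ∃ t₁ ≤ t, (∀ s, t₁ ≤ s → s ≤ t → f s = i ∨ f s = i + 1) ∧ f (t₁ - 1) ≠ i ∧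
f (t₁ - 1) ≠ i + 1 ∧ f t₁ = i` (the segment of `t` starts with the index `i`). If `t`, `t + 1` both have
their index in `{i, i+1}` they have the same start. Let `f t ∈ {i, i+1}` and let `[t₁, t₂]` be the
maximal segment with `t` (`hex`). The start of a segment is unique: if `t₁'` is another start for `t`
(say `t₁' < t₁`, then `t₁ - 1` is in `[t₁', t]` and has an index in `{i, i+1}`: contradiction). So `ty t`
iff `f t₁ = i`, that is, iff the first alternative of `hpat` holds. In this case, if `f t = i` then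
`(t - t₁) % 2 = 0`, so `t < t₂` (as `t₂ - t₁` is odd), and `t + 1` has odd distance: the claims. The other
cases are the same. -/
theorem loc_of_seg {f : ℤ → ℕ} {P Q : ℤ → Prop} {i : ℕ}
    (hex : ∀ t, (f t = i ∨ f t = i + 1) → ∃ t₁ t₂, t₁ ≤ t ∧ t ≤ t₂ ∧ MaxSeg f i t₁ t₂)
    (hpat : ∀ t₁ t₂, MaxSeg f i t₁ t₂ →
      ((t₂ - t₁) % 2 = 1 ∧ ∀ s, t₁ ≤ s → s ≤ t₂ →
        ((s - t₁) % 2 = 0 → f s = i ∧ P s) ∧ ((s - t₁) % 2 = 1 → f s = i + 1 ∧ P s)) ∨
      ((t₂ - t₁) % 2 = 1 ∧ ∀ s, t₁ ≤ s → s ≤ t₂ →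
        ((s - t₁) % 2 = 0 → f s = i + 1 ∧ Q s) ∧ ((s - t₁) % 2 = 1 → f s = i ∧ Q s))) :
    Loc f P Q i := by
  have hty : ∀ {t t₁ t₂ : ℤ}, MaxSeg f i t₁ t₂ → t₁ ≤ t → t ≤ t₂ →
      ((∃ a b, MaxSeg f i a b ∧ a ≤ t ∧ t ≤ b ∧ f a = i) ↔ f t₁ = i) := by
    intro t t₁ t₂ hm h1 h2
    constructor
    · rintro ⟨a, b, hab, ha, hb, hf⟩
      obtain ⟨rfl, -⟩ := maxSeg_unique hab hm ha hb h1 h2
      exact hf
    · intro hf
      exact ⟨t₁, t₂, hm, h1, h2, hf⟩
  refine ⟨fun t => ∃ a b, MaxSeg f i a b ∧ a ≤ t ∧ t ≤ b ∧ f a = i, ?_, ?_, ?_, ?_, ?_⟩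
  · intro t h h'
    obtain ⟨t₁, t₂, h1, h2, hm⟩ := hex t h
    have h3 : t + 1 ≤ t₂ := by
      by_contra hlt
      have h4 : t = t₂ := by omega
      subst h4
      obtain ⟨-, -, -, hr1, hr2⟩ := hm
      rcases h' with h' | h'
      · exact hr1 h'
      · exact hr2 h'
    show (∃ a b, MaxSeg f i a b ∧ a ≤ t ∧ t ≤ b ∧ f a = i) ↔
      (∃ a b, MaxSeg f i a b ∧ a ≤ t + 1 ∧ t + 1 ≤ b ∧ f a = i)
    rw [hty hm h1 h2, hty hm (by omega) h3]
  · intro t hf ht
    obtain ⟨t₁, t₂, hm, h1, h2, hfa⟩ := ht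
    rcases hpat t₁ t₂ hm with ⟨hodd, hall⟩ | ⟨hodd, hall⟩
    · have hpar : (t - t₁) % 2 = 0 := by
        rcases Int.emod_two_eq_zero_or_one (t - t₁) with h | h
        · exact h
        · have := ((hall t h1 h2).2 h).1
          omega
      have hlt : t + 1 ≤ t₂ := by
        by_contra hlt
        have h4 : t = t₂ := by omega
        subst h4
        omega
      have h5 := (hall (t + 1) (by omega) hlt).2 (by omega)
      exact ⟨((hall t h1 h2).1 hpar).2, h5.1, h5.2⟩
    · have := ((hall t₁ le_rfl (by omega)).1 (by simp)).1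
      omega
  · intro t hf ht
    obtain ⟨t₁, t₂, h1, h2, hm⟩ := hex t (Or.inl hf)
    have hne : f t₁ ≠ i := fun h => ht ⟨t₁, t₂, hm, h1, h2, h⟩
    rcases hpat t₁ t₂ hm with ⟨hodd, hall⟩ | ⟨hodd, hall⟩
    · exact absurd ((hall t₁ le_rfl (by omega)).1 (by simp)).1 hne
    · have hpar : (t - t₁) % 2 = 1 := by
        rcases Int.emod_two_eq_zero_or_one (t - t₁) with h | h
        · have := ((hall t h1 h2).1 h).1
          omega
        · exact h
      have h5 := (hall (t - 1) (by omega) (by omega)).1 (by omega)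
      exact ⟨((hall t h1 h2).2 hpar).2, h5.1, h5.2⟩
  · intro t hf ht
    obtain ⟨t₁, t₂, hm, h1, h2, hfa⟩ := ht
    rcases hpat t₁ t₂ hm with ⟨hodd, hall⟩ | ⟨hodd, hall⟩
    · have hpar : (t - t₁) % 2 = 1 := by
        rcases Int.emod_two_eq_zero_or_one (t - t₁) with h | h
        · have := ((hall t h1 h2).1 h).1
          omega
        · exact h
      have h5 := (hall (t - 1) (by omega) (by omega)).1 (by omega)
      exact ⟨((hall t h1 h2).2 hpar).2, h5.1, h5.2⟩
    · have := ((hall t₁ le_rfl (by omega)).1 (by simp)).1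
      omega
  · intro t hf ht
    obtain ⟨t₁, t₂, h1, h2, hm⟩ := hex t (Or.inr hf)
    have hne : f t₁ ≠ i := fun h => ht ⟨t₁, t₂, hm, h1, h2, h⟩
    rcases hpat t₁ t₂ hm with ⟨hodd, hall⟩ | ⟨hodd, hall⟩
    · exact absurd ((hall t₁ le_rfl (by omega)).1 (by simp)).1 hne
    · have hpar : (t - t₁) % 2 = 0 := by
        rcases Int.emod_two_eq_zero_or_one (t - t₁) with h | h
        · exact h
        · have := ((hall t h1 h2).2 h).1
          omega
      have hlt : t + 1 ≤ t₂ := by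
        by_contra hlt
        have h4 : t = t₂ := by omega
        subst h4
        omega
      have h5 := (hall (t + 1) (by omega) hlt).2 (by omega)
      exact ⟨((hall t h1 h2).1 hpar).2, h5.1, h5.2⟩

section
variable {f : ℤ → ℕ} {P Q : ℤ → Prop} {p p' : ℕ}

/-- piece `B6-R2`: every letter of the run is ascending or descending.
Proof. Let `j = f t`. If `j < p'` let `ty` be from `hL j`, if `p < j` let `ty'` be from `hL (j - 1)`
(`j = (j-1) + 1`). `p < j < p'`: `ty t ∧ ty' t`: next index `j + 1`, previous index `j - 1`, `P` at `t`,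
`t ± 1`: `UpT`. `¬ ty t ∧ ¬ ty' t`: `DnT`. `ty t ∧ ¬ ty' t`: the next index is `j + 1` and `j - 1`:
contradiction; `¬ ty t ∧ ty' t`: the same with the previous one. `j = p < p'`: only `ty`; `j = p' > p`:
only `ty'`. -/
theorem up_or_dn (hp : p < p') (hL : ∀ i, p ≤ i → i < p' → Loc f P Q i) {t : ℤ}
    (h1 : p ≤ f t) (h2 : f t ≤ p') : UpT f P p p' t ∨ DnT f Q p p' t := by
  rcases Nat.lt_or_ge (f t) p' with hj | hj
  · obtain ⟨ty, a0, a1, a2, a3, a4⟩ := hL (f t) h1 hj
    rcases Nat.lt_or_ge p (f t) with hp1 | hp1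
    · obtain ⟨ty', b0, b1, b2, b3, b4⟩ := hL (f t - 1) (by omega) (by omega)
      have e : f t = f t - 1 + 1 := by omega
      by_cases hty : ty t
      · obtain ⟨c1, c2, c3⟩ := a1 t rfl hty
        by_cases hty' : ty' t
        · obtain ⟨d1, d2, d3⟩ := b3 t e hty'
          exact Or.inl ⟨c1, fun _ => ⟨c2, c3⟩, fun _ => ⟨by omega, d3⟩⟩
        · obtain ⟨d1, d2, d3⟩ := b4 t e hty'
          omega
      · obtain ⟨c1, c2, c3⟩ := a2 t rfl hty
        by_cases hty' : ty' t
        · obtain ⟨d1, d2, d3⟩ := b3 t e hty'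
          omega
        · obtain ⟨d1, d2, d3⟩ := b4 t e hty'
          exact Or.inr ⟨c1, fun _ => ⟨c2, c3⟩, fun _ => ⟨by omega, d3⟩⟩
    · by_cases hty : ty t
      · obtain ⟨c1, c2, c3⟩ := a1 t rfl hty
        exact Or.inl ⟨c1, fun _ => ⟨c2, c3⟩, fun h => by omega⟩
      · obtain ⟨c1, c2, c3⟩ := a2 t rfl hty
        exact Or.inr ⟨c1, fun _ => ⟨c2, c3⟩, fun h => by omega⟩
  · obtain ⟨ty', b0, b1, b2, b3, b4⟩ := hL (f t - 1) (by omega) (by omega)
    have e : f t = f t - 1 + 1 := by omega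
    by_cases hty' : ty' t
    · obtain ⟨d1, d2, d3⟩ := b3 t e hty'
      exact Or.inl ⟨d1, fun h => by omega, fun _ => ⟨by omega, d3⟩⟩
    · obtain ⟨d1, d2, d3⟩ := b4 t e hty'
      exact Or.inr ⟨d1, fun h => by omega, fun _ => ⟨by omega, d3⟩⟩

/-- piece `B6-R2`: ascending letters are followed by ascending letters.
Proof. Let `j = f t`, `j' = f (t+1)`. If `j < p'`: `j' = j + 1` and `P (t+1)`. If `j + 1 < p'`, `t + 1` is
ascending or descending (`up_or_dn`); descending would give `f t = j' + 1 = j + 2`. If `j + 1 = p'`,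
`UpT (t+1)` holds by definition (`f (t+1-1) = f t`).
If `j = p'`: `j' < p'` (`hadj`). If `j' = p`: `t + 1` is ascending, because otherwise
`f t = p + 1 = p'`, against `hp`. If `p < j' < p'`: `t + 1` is not ascending (`f t + 1 = j'` is
impossible), so it is descending: `f t = j' + 1`, so `j' = p' - 1`, and `f (t+2) = p' - 2`. And
`f (t-1) = p' - 1` by `UpT t`. Let `ty` be from `hL (p' - 1)`; `t - 1`, `t`, `t + 1` have the same type.
If `ty (t+1)` then `f (t+2) = p'`: contradiction. If `¬ ty (t-1)` then `f (t-2) = p'`; but `t - 1`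
(interior: `p < p' - 1 < p'`) is ascending or descending: ascending gives `f (t-2) = p' - 2`, descending
gives `f t + 1 = p' - 1`: contradiction. -/
theorem up_next (hp : p + 2 ≤ p') (hL : ∀ i, p ≤ i → i < p' → Loc f P Q i)
    (hadj : ∀ t, p ≤ f t → f t ≤ p' → f t ≠ f (t + 1)) {t : ℤ}
    (h1 : p ≤ f t) (h2 : f t ≤ p') (h1' : p ≤ f (t + 1)) (h2' : f (t + 1) ≤ p')
    (h : UpT f P p p' t) : UpT f P p p' (t + 1) := by
  have e1 : t + 1 - 1 = t := by ring
  obtain ⟨hP, hn, hpv⟩ := h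
  have hp1 : p < p' := by omega
  rcases Nat.lt_or_ge (f t) p' with hj | hj
  · obtain ⟨a, b⟩ := hn hj
    rcases Nat.lt_or_ge (f (t + 1)) p' with hj' | hj'
    · rcases up_or_dn hp1 hL h1' h2' with hu | hd
      · exact hu
      · exfalso
        have h3 := (hd.2.1 hj').1
        rw [e1] at h3
        omega
    · refine ⟨b, fun hlt => by omega, fun _ => ?_⟩
      rw [e1]
      exact ⟨a.symm, hP⟩
  · have hne := hadj t h1 h2
    have hlt' : f (t + 1) < p' := by omega
    rcases up_or_dn hp1 hL h1' h2' with hu | hd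
    · exact hu
    · exfalso
      have h3 := (hd.2.1 hlt').1
      rw [e1] at h3
      have h4 := (hd.2.2 (by omega)).1
      have h5 := (hpv (by omega)).1
      obtain ⟨ty, c1, c2, c3, c4, c5⟩ := hL (p' - 1) (by omega) (by omega)
      have d1 := c1 (t - 1) (Or.inl (by omega)) (Or.inr (by rw [sub_add_cancel]; omega))
      rw [sub_add_cancel] at d1
      have d2 := c1 t (Or.inr (by omega)) (Or.inl (by omega))
      by_cases hty : ty (t + 1)
      · have h6 := (c2 (t + 1) (by omega) hty).2.1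
        omega
      · rcases up_or_dn hp1 hL (t := t - 1) (by omega) (by omega) with hu' | hd'
        · have hty2 : ¬ ty (t - 1) := fun h' => hty (d2.mp (d1.mp h'))
          have h6 := (c3 (t - 1) (by omega) hty2).2.1
          have h7 := (hu'.2.2 (by omega)).1
          omega
        · have h7 := (hd'.2.2 (by omega)).1
          rw [sub_add_cancel] at h7
          omega

/-- piece `B6-R3`: ascending letters come after ascending letters.
Proof. Let `j = f (t+1)`, `j' = f t`. If `p < j`: `j' = j - 1` and `P t`. If `p < j - 1`: `t` is ascending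
or descending, and descending would give `f (t+1) + 1 = f t`. If `j - 1 = p`: `UpT t` by definition.
If `j = p`: `j' ≠ p` (`hadj`). If `j' = p'`: `t` is ascending, because descending gives
`f (t+1) + 1 = p'`, `p + 1 = p'`. If `p < j' < p'`: `t` is not ascending (`f (t+1) = j' + 1` is
impossible), so it is descending: `f (t+1) + 1 = j'`, `j' = p + 1` and `f (t-1) = p + 2`; and
`f (t+2) = p + 1` by `UpT (t+1)`. Let `ty` be from `hL p`; `t`, `t+1`, `t+2` have the same type. If `ty t`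
then `f (t-1) = p`: contradiction. If `¬ ty (t+2)`: `f (t+3) = p`; but `t + 2` is ascending or
descending: ascending gives `f (t+3) = p + 2`, descending gives `f (t+1) = p + 2`: contradiction. -/
theorem up_prev (hp : p + 2 ≤ p') (hL : ∀ i, p ≤ i → i < p' → Loc f P Q i)
    (hadj : ∀ t, p ≤ f t → f t ≤ p' → f t ≠ f (t + 1)) {t : ℤ}
    (h1 : p ≤ f t) (h2 : f t ≤ p') (h1' : p ≤ f (t + 1)) (h2' : f (t + 1) ≤ p')
    (h : UpT f P p p' (t + 1)) : UpT f P p p' t := by
  have e1 : t + 1 - 1 = t := by ring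
  obtain ⟨hP, hn, hpv⟩ := h
  rw [e1] at hpv
  have hp1 : p < p' := by omega
  rcases Nat.lt_or_ge p (f (t + 1)) with hj | hj
  · obtain ⟨a, b⟩ := hpv hj
    rcases up_or_dn hp1 hL h1 h2 with hu | hd
    · exact hu
    · refine ⟨b, fun _ => ⟨a.symm, hP⟩, fun hlt => ?_⟩
      have h3 := (hd.2.2 hlt).1
      omega
  · have hjp : f (t + 1) = p := le_antisymm hj h1'
    have hne := hadj t h1 h2
    rcases up_or_dn hp1 hL h1 h2 with hu | hd
    · exact hu
    · exfalso
      have hlt : p < f t := by omega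
      have ha := (hd.2.2 hlt).1
      have hb := (hd.2.1 (by omega)).1
      have hc := (hn (by omega)).1
      obtain ⟨ty, c1, c2, c3, c4, c5⟩ := hL p le_rfl hp1
      have d1 := c1 t (Or.inr (by omega)) (Or.inl hjp)
      have d2 := c1 (t + 1) (Or.inl hjp) (Or.inr (by omega))
      by_cases hty : ty t
      · have h3 := (c4 t (by omega) hty).2.1
        omega
      · have hty2 : ¬ ty (t + 1 + 1) := fun h' => hty (d1.mpr (d2.mpr h'))
        have h3 := (c5 (t + 1 + 1) (by omega) hty2).2.1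
        rcases up_or_dn hp1 hL (t := t + 1 + 1) (by omega) (by omega) with hu' | hd'
        · have h4 := (hu'.2.1 (by omega)).1
          omega
        · have h4 := (hd'.2.1 (by omega)).1
          rw [show t + 1 + 1 - 1 = t + 1 by ring] at h4
          omega

/-- piece `B6-R4`: the segments of a run are ascending or descending.
Proof. If `p' = p + 1`: let `ty` be from `hL p` and `up = ty`; all is clear by definition. If
`p + 2 ≤ p'`: `up = UpT f P p p'`, with `up_or_dn`, `up_next` and `up_prev`. -/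
theorem run (hp : p < p') (hL : ∀ i, p ≤ i → i < p' → Loc f P Q i)
    (hadj : ∀ t, p ≤ f t → f t ≤ p' → f t ≠ f (t + 1)) :
    ∃ up : ℤ → Prop,
      (∀ t, p ≤ f t → f t ≤ p' → p ≤ f (t + 1) → f (t + 1) ≤ p' → (up t ↔ up (t + 1))) ∧
      (∀ t, p ≤ f t → f t ≤ p' → up t → UpT f P p p' t) ∧
      (∀ t, p ≤ f t → f t ≤ p' → ¬ up t → DnT f Q p p' t) := by
  rcases Nat.lt_or_ge (p + 1) p' with hlt | hge
  · refine ⟨UpT f P p p', ?_, fun t _ _ h => h, ?_⟩
    · intro t h1 h2 h1' h2'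
      exact ⟨up_next hlt hL hadj h1 h2 h1' h2', up_prev hlt hL hadj h1 h2 h1' h2'⟩
    · intro t h1 h2 h
      exact (up_or_dn hp hL h1 h2).resolve_left h
  · have hpp : p' = p + 1 := by omega
    subst hpp
    obtain ⟨ty, e0, e1, e2, e3, e4⟩ := hL p le_rfl (Nat.lt_succ_self p)
    have hc : ∀ t, p ≤ f t → f t ≤ p + 1 → (f t = p ∨ f t = p + 1) := fun t h1 h2 => by omega
    refine ⟨ty, fun t h1 h2 h1' h2' => e0 t (hc t h1 h2) (hc (t + 1) h1' h2'), ?_, ?_⟩
    · intro t h1 h2 h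
      rcases hc t h1 h2 with hf | hf
      · obtain ⟨a1, a2, a3⟩ := e1 t hf h
        exact ⟨a1, fun _ => ⟨by rw [a2, hf], a3⟩, fun hh => absurd hh (by omega)⟩
      · obtain ⟨a1, a2, a3⟩ := e3 t hf h
        exact ⟨a1, fun hh => absurd hh (by omega), fun _ => ⟨by rw [a2, hf], a3⟩⟩
    · intro t h1 h2 h
      rcases hc t h1 h2 with hf | hf
      · obtain ⟨a1, a2, a3⟩ := e2 t hf h
        exact ⟨a1, fun _ => ⟨by rw [a2, hf], a3⟩, fun hh => absurd hh (by omega)⟩
      · obtain ⟨a1, a2, a3⟩ := e4 t hf h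
        exact ⟨a1, fun hh => absurd hh (by omega), fun _ => ⟨by rw [a2, hf], a3⟩⟩

end

end Pool.Agent.Helper38.BN
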