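import Pool.Agent.Helper38.BN.Acts
import Pool.Agent.Helper38.BN.B6L
import Pool.Agent.Helper7.AG.Frot
import Pool.Agent.Helper7.AG.Fcyc
import Pool.Agent.Helper7.AG.Fsum

/-!
# Project BN, block B6: words in free products, definitions

Block B6 (helper7): conjugacy classes which are invariant under the squares of the half twists.

Let `Γ = CoprodI M` be the free product of the groups `M o`, `o : ι`; a *syllable* is a pair
`⟨o, x⟩`, `x : M o`.  `vl l` is the product of a list of syllables, `RW l` says that it is reduced.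
`AS M S` is the free product of the factors in `S` with the homomorphism `iS M S` to `Γ`.

The factors are enumerated by `e : ℕ → ι`, `ix : ι → ℕ` (`Enum m e ix`), with chosen elements
`γ o : M o`; `gs t` is the element `γ (e t)` of `Γ` and `gseg γ e p q = gs p * gs (p+1) * ⋯ * gs (p+q)`.
-/

namespace Pool.Agent.Helper38.BN

open Monoid
open Pool.Agent.Helper7.AG (FreeProd PNt pv Red nt val sv)

section
variable {ι : Type} {M : ι → Type} [∀ o, Group (M o)]

/-- the product of a list of syllables -/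
def vl (l : List (Σ o, M o)) : CoprodI M := (l.map fun p => CoprodI.of p.2).prod

/-- reduced lists of syllables -/
def RW (l : List (Σ o, M o)) : Prop :=
  (∀ p ∈ l, p.2 ≠ 1) ∧ l.IsChain (fun p q => p.1 ≠ q.1)

/-- all syllables are in factors of `S` -/
def InS (S : ι → Prop) (l : List (Σ o, M o)) : Prop := ∀ p ∈ l, S p.1

/-- the inverse of a list of syllables -/
def wi (l : List (Σ o, M o)) : List (Σ o, M o) :=
  (l.map fun p => (⟨p.1, p.2⁻¹⟩ : Σ o, M o)).reverse

@[simp] lemma vl_nil : vl ([] : List (Σ o, M o)) = 1 := rfl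

@[simp] lemma vl_cons (p : Σ o, M o) (l : List (Σ o, M o)) :
    vl (p :: l) = CoprodI.of p.2 * vl l := by
  simp [vl]

@[simp] lemma vl_append (l l' : List (Σ o, M o)) : vl (l ++ l') = vl l * vl l' := by
  simp [vl]

@[simp] lemma vl_wi (l : List (Σ o, M o)) : vl (wi l) = (vl l)⁻¹ := by
  induction l with
  | nil => simp [wi]
  | cons p l ih =>
    have e : wi (p :: l) = wi l ++ [⟨p.1, p.2⁻¹⟩] := by simp [wi]
    rw [e, vl_append, ih]
    simp

lemma RW_nil : RW ([] : List (Σ o, M o)) := ⟨by simp, by simp⟩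

lemma RW_single {p : Σ o, M o} (h : p.2 ≠ 1) : RW [p] := ⟨by simpa using h, by simp⟩

lemma RW_append {l l' : List (Σ o, M o)} :
    RW (l ++ l') ↔ RW l ∧ RW l' ∧ ∀ p ∈ l.getLast?, ∀ q ∈ l'.head?, p.1 ≠ q.1 := by
  unfold RW
  rw [List.isChain_append]
  simp only [List.mem_append]
  constructor
  · rintro ⟨h1, h2, h3, h4⟩
    exact ⟨⟨fun s hs => h1 s (Or.inl hs), h2⟩, ⟨fun s hs => h1 s (Or.inr hs), h3⟩, h4⟩
  · rintro ⟨⟨h1, h2⟩, ⟨h3, h4⟩, h5⟩
    exact ⟨fun s hs => hs.elim (h1 s) (h3 s), h2, h4, h5⟩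

lemma RW_cons {p : Σ o, M o} {l : List (Σ o, M o)} :
    RW (p :: l) ↔ p.2 ≠ 1 ∧ RW l ∧ ∀ q ∈ l.head?, p.1 ≠ q.1 := by
  have h := RW_append (l := [p]) (l' := l)
  rw [List.singleton_append] at h
  rw [h]
  constructor
  · rintro ⟨h1, h2, h3⟩
    exact ⟨h1.1 p (by simp), h2, fun q hq => h3 p (by simp) q hq⟩
  · rintro ⟨h1, h2, h3⟩
    exact ⟨RW_single h1, h2, fun p' hp' q hq => by
      simp only [List.getLast?_singleton, Option.mem_def, Option.some.injEq] at hp'
      subst hp'
      exact h3 q hq⟩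

lemma RW_wi {l : List (Σ o, M o)} (h : RW l) : RW (wi l) := by
  refine ⟨?_, ?_⟩
  · intro s hs
    simp only [wi, List.mem_reverse, List.mem_map] at hs
    obtain ⟨s', h1, rfl⟩ := hs
    simpa using h.1 _ h1
  · unfold wi
    rw [List.isChain_reverse, List.isChain_map]
    exact h.2.imp fun s s' h1 => h1.symm

variable (M) in
/-- the free product of the factors in `S` -/
abbrev AS (S : ι → Prop) : Type := CoprodI (fun o : {o // S o} => M o)

variable (M) in
/-- the homomorphism from the free product of the factors in `S` -/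
def iS (S : ι → Prop) : AS M S →* CoprodI M :=
  CoprodI.lift fun o : {o // S o} => (CoprodI.of : M o.1 →* CoprodI M)

@[simp] lemma iS_of (S : ι → Prop) (o : {o // S o}) (x : M o) :
    iS M S (CoprodI.of (M := fun o : {o // S o} => M o) (i := o) x) = CoprodI.of x :=
  CoprodI.lift_of _ _

/-- repetitions of a list -/
def rep {α : Type} (n : ℕ) (l : List α) : List α := (List.replicate n l).flatten

@[simp] lemma rep_zero {α : Type} (l : List α) : rep 0 l = [] := rfl

lemma rep_succ {α : Type} (n : ℕ) (l : List α) : rep (n + 1) l = l ++ rep n l := by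
  simp [rep, List.replicate_succ]

lemma vl_rep (n : ℕ) (l : List (Σ o, M o)) : vl (rep n l) = vl l ^ n := by
  induction n with
  | zero => simp
  | succ n ih => rw [rep_succ, vl_append, ih, pow_succ']

/-- `e 0, …, e m` are the indices -/
structure Enum (m : ℕ) (e : ℕ → ι) (ix : ι → ℕ) : Prop where
  le : ∀ o, ix o ≤ m
  e_ix : ∀ o, e (ix o) = o
  ix_e : ∀ t, t ≤ m → ix (e t) = t

/-- the chosen generators -/
def gs (γ : ∀ o, M o) (e : ℕ → ι) (t : ℕ) : CoprodI M := CoprodI.of (γ (e t))

/-- the product of the chosen generators `gs p * ⋯ * gs (p + q)` -/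
def gseg (γ : ∀ o, M o) (e : ℕ → ι) (p : ℕ) : ℕ → CoprodI M
  | 0 => gs γ e p
  | q + 1 => gseg γ e p q * gs γ e (p + q + 1)

/-- the syllable of the chosen generator -/
def sy (γ : ∀ o, M o) (e : ℕ → ι) (t : ℕ) : Σ o, M o := ⟨e t, γ (e t)⟩
/-- the syllable of the inverse of the chosen generator -/
def sy' (γ : ∀ o, M o) (e : ℕ → ι) (t : ℕ) : Σ o, M o := ⟨e t, (γ (e t))⁻¹⟩

/-- the index of a letter, `m + 7` if there is none -/
def idx (m : ℕ) (ix : ι → ℕ) (c : ℤ → Option (Σ o, M o)) (t : ℤ) : ℕ :=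
  match c t with
  | none => m + 7
  | some p => ix p.1

/-- the letter is a chosen generator -/
def Po (γ : ∀ o, M o) (c : ℤ → Option (Σ o, M o)) (t : ℤ) : Prop := ∃ p, c t = some p ∧ p.2 = γ p.1

/-- the letter is the inverse of a chosen generator -/
def Ne (γ : ∀ o, M o) (c : ℤ → Option (Σ o, M o)) (t : ℤ) : Prop :=
  ∃ p, c t = some p ∧ p.2 = (γ p.1)⁻¹

/-- the cyclic sequence of a list -/
def cyc (W : List (Σ o, M o)) (t : ℤ) : Option (Σ o, M o) := W[(t % W.length).toNat]?

/-- the sequence of a list -/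
def lin (W : List (Σ o, M o)) (t : ℤ) : Option (Σ o, M o) := if 0 ≤ t then W[t.toNat]? else none

end

end Pool.Agent.Helper38.BN
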