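import Pool.Agent.Helper38.BN.B6Def

/-!
# Project BN, block B6, pieces B6-P1, B6-P2, B6-P3: from lists to sequences
-/

namespace Pool.Agent.Helper38.BN

open Monoid

/-- piece `B6-P1`. Proof. Induction on `N` (`rep_succ`). -/
theorem rep_length {α : Type} (N : ℕ) (a b : α) : (rep N [a, b]).length = 2 * N := by
  induction N with
  | zero => simp
  | succ n ih =>
    rw [rep_succ, List.length_append, ih]
    simp only [List.length_cons, List.length_nil]
    ring

/-- piece `B6-P1`. Proof. Induction on `N` (`rep_succ`; `q = 0`, `q = 1`, `q + 2`). -/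
theorem rep_get {α : Type} (N : ℕ) (a b : α) {q : ℕ} (hq : q < 2 * N) :
    (rep N [a, b])[q]? = if q % 2 = 0 then some a else some b := by
  induction N generalizing q with
  | zero => omega
  | succ n ih =>
    rw [rep_succ]
    match q, hq with
    | 0, _ => simp
    | 1, _ => simp
    | q + 2, hq =>
      have h1 := ih (q := q) (by omega)
      have h2 : ([a, b] ++ rep n [a, b])[q + 2]? = (rep n [a, b])[q]? := by simp
      rw [h2, h1]
      have h3 : (q + 2) % 2 = q % 2 := by omega
      rw [h3]

section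
variable {ι : Type} {M : ι → Type} [∀ o, Group (M o)]

/-- piece `B6-P1`: the cyclic sequence of a list and its rotations.
Proof. `List.getElem?_rotate` and `Int` arithmetic: `((t + q) % L).toNat = (q + n) % L` for
`n = (t % L).toNat`. -/
theorem cyc_rotate {W : List (Σ o, M o)} (hW : W ≠ []) (t : ℤ) {q : ℕ} (hq : q < W.length) :
    (W.rotate (t % W.length).toNat)[q]? = cyc W (t + q) := by
  have hL : 0 < W.length := List.length_pos_iff.2 hW
  rw [List.getElem?_rotate hq]
  unfold cyc
  congr 1
  have hL' : (0 : ℤ) < (W.length : ℤ) := by exact_mod_cast hL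
  have h0 : 0 ≤ t % (W.length : ℤ) := Int.emod_nonneg _ hL'.ne'
  have h1 : 0 ≤ (t + q) % (W.length : ℤ) := Int.emod_nonneg _ hL'.ne'
  apply Int.natCast_inj.1
  push_cast
  rw [Int.toNat_of_nonneg h0, Int.toNat_of_nonneg h1, add_comm, Int.emod_add_emod]

/-- piece `B6-P1`: periodicity -/
theorem cyc_period (W : List (Σ o, M o)) (t : ℤ) : cyc W (t + W.length) = cyc W t := by
  unfold cyc
  rw [Int.add_emod_right]

/-- piece `B6-P1`: every letter of the cyclic sequence is a letter of the list -/
theorem cyc_some {W : List (Σ o, M o)} (hW : W ≠ []) (t : ℤ) : ∃ p ∈ W, cyc W t = some p := by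
  have hL : 0 < W.length := List.length_pos_iff.2 hW
  have hL' : (0 : ℤ) < (W.length : ℤ) := by exact_mod_cast hL
  have h0 : 0 ≤ t % (W.length : ℤ) := Int.emod_nonneg _ hL'.ne'
  have h1 : t % (W.length : ℤ) < W.length := Int.emod_lt_of_pos _ hL'
  have h2 : (t % (W.length : ℤ)).toNat < W.length := by omega
  exact ⟨W[(t % (W.length : ℤ)).toNat], List.getElem_mem h2, List.getElem?_eq_getElem h2⟩

/-- piece `B6-P1`: every letter of the list occurs in every window of the length of the list.
Proof. `p = W[j]`; take `t' = t + ((j - t) % L)`. -/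
theorem cyc_mem {W : List (Σ o, M o)} {p : Σ o, M o} (hp : p ∈ W) (t : ℤ) :
    ∃ t', t ≤ t' ∧ t' < t + W.length ∧ cyc W t' = some p := by
  obtain ⟨j, hj, rfl⟩ := List.getElem_of_mem hp
  have hL : 0 < W.length := by omega
  have hL' : (0 : ℤ) < (W.length : ℤ) := by exact_mod_cast hL
  have h0 : 0 ≤ (j - t) % (W.length : ℤ) := Int.emod_nonneg _ hL'.ne'
  have h1 : (j - t) % (W.length : ℤ) < W.length := Int.emod_lt_of_pos _ hL'
  refine ⟨t + (j - t) % (W.length : ℤ), by omega, by omega, ?_⟩
  unfold cyc
  have h2 : (t + (j - t) % (W.length : ℤ)) % (W.length : ℤ) = j := by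
    rw [Int.add_emod_emod]
    have : t + ((j : ℤ) - t) = j := by ring
    rw [this]
    exact Int.emod_eq_of_lt (by positivity) (by exact_mod_cast hj)
  rw [h2, Int.toNat_natCast]
  exact List.getElem?_eq_getElem hj

variable {m : ℕ} {e : ℕ → ι} {ix : ι → ℕ}

private theorem lc_idx {c : ℤ → Option (Σ o, M o)} {t : ℤ} {p : Σ o, M o} (h : c t = some p) :
    idx m ix c t = ix p.1 := by
  unfold idx
  rw [h]

/-- maximal segments exist -/
private theorem lc_seg {f : ℤ → ℕ} {i : ℕ} {t : ℤ} (ht : f t = i ∨ f t = i + 1)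
    (hlo : ∃ s, s < t ∧ ¬ (f s = i ∨ f s = i + 1))
    (hhi : ∃ s, t < s ∧ ¬ (f s = i ∨ f s = i + 1)) :
    ∃ t₁ t₂, t₁ ≤ t ∧ t ≤ t₂ ∧ MaxSeg f i t₁ t₂ := by
  obtain ⟨u, ⟨hu1, hu2⟩, hu3⟩ := Int.exists_greatest_of_bdd
    (P := fun s => s < t ∧ ¬ (f s = i ∨ f s = i + 1)) ⟨t, fun z hz => hz.1.le⟩ hlo
  obtain ⟨v, ⟨hv1, hv2⟩, hv3⟩ := Int.exists_least_of_bdd
    (P := fun s => t < s ∧ ¬ (f s = i ∨ f s = i + 1)) ⟨t, fun z hz => hz.1.le⟩ hhi
  refine ⟨u + 1, v - 1, by omega, by omega, by omega, ?_, ?_, ?_⟩
  · intro s hs1 hs2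
    by_contra hc
    rcases lt_trichotomy s t with h | h | h
    · have := hu3 s ⟨h, hc⟩
      omega
    · rw [h] at hc
      exact hc ht
    · have := hv3 s ⟨h, hc⟩
      omega
  · rw [add_sub_cancel_right]
    exact not_or.1 hu2
  · rw [sub_add_cancel]
    exact not_or.1 hv2

/-- piece `B6-P2`: the local structure of the cyclic sequence of a list `W`.
Proof. `loc_of_seg`, with `f = idx m ix (cyc W)`, `L = W.length`; `f` has the period `L`
(`cyc_period`), and its values are `ix p.1`, `p ∈ W` (`cyc_some`).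
`hex`: let `p ∈ W` be the letter of `hnot`. For given `t` there are, by `cyc_mem`, positions
`< t` and `> t` with the letter `p`; let `t₁ - 1` be the largest position `< t` with the index not
in `{i, i+1}` and `t₂ + 1` the smallest such position `> t` (`Nat.find` for the distances).
`hpat`: let `[t₁, t₂]` be a maximal segment. As the letter `p` occurs in every window of length `L`,
`ℓ = t₂ - t₁ + 1 < L`. Let `n = (t₁ % L).toNat`, `W' = W.rotate n`, `U = W'.take ℓ`, `V = W'.drop ℓ`. By
`cyc_rotate` the `q`-th letter of `W'` is `cyc W (t₁ + q)`, so `U` is in `{i, i+1}`, the first letter of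
`V` is that of `t₂ + 1`, and the last one is that of `t₁ + L - 1`, the same as that of `t₁ - 1`. `hseg`
says that `U` is `rep N [⟨_, γ⟩, ⟨_, γ⟩]` or `rep N [⟨_, γ⁻¹⟩, ⟨_, γ⁻¹⟩]`: `ℓ = 2 N` (`rep_length`) and the
letters are given by `rep_get` and `hE.ix_e`. -/
theorem loc_cyc (hE : Enum m e ix) {γ : ∀ o, M o} {W : List (Σ o, M o)} {i : ℕ} (hi : i < m)
    (hnot : ∃ p ∈ W, ¬ (ix p.1 = i ∨ ix p.1 = i + 1))
    (hseg : ∀ (n : ℕ) (U V : List (Σ o, M o)), W.rotate n = U ++ V → U ≠ [] → V ≠ [] →
      InS (fun o => ix o = i ∨ ix o = i + 1) U →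
      (∀ p ∈ V.head?, ¬ (ix p.1 = i ∨ ix p.1 = i + 1)) →
      (∀ p ∈ V.getLast?, ¬ (ix p.1 = i ∨ ix p.1 = i + 1)) →
      ∃ N : ℕ, 0 < N ∧ (U = rep N [sy γ e i, sy γ e (i + 1)] ∨
        U = rep N [sy' γ e (i + 1), sy' γ e i])) :
    Loc (idx m ix (cyc W)) (Po γ (cyc W)) (Ne γ (cyc W)) i := by
  obtain ⟨p, hp, hbad⟩ := hnot
  have hW : W ≠ [] := List.ne_nil_of_mem hp
  have hL : 0 < W.length := List.length_pos_iff.2 hW
  have hiE : ix (e i) = i := hE.ix_e i hi.le
  have hiE' : ix (e (i + 1)) = i + 1 := hE.ix_e (i + 1) hi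
  refine loc_of_seg ?_ ?_
  · intro t ht
    refine lc_seg ht ?_ ?_
    · obtain ⟨t', h1, h2, h3⟩ := cyc_mem hp (t - W.length)
      exact ⟨t', by omega, by rw [lc_idx h3]; exact hbad⟩
    · obtain ⟨t', h1, h2, h3⟩ := cyc_mem hp (t + 1)
      exact ⟨t', by omega, by rw [lc_idx h3]; exact hbad⟩
  · rintro t₁ t₂ ⟨h12, hin, hl, hr⟩
    -- the length of the segment
    obtain ⟨ℓ, hℓ⟩ : ∃ ℓ : ℕ, (ℓ : ℤ) = t₂ - t₁ + 1 := ⟨(t₂ - t₁ + 1).toNat, by omega⟩
    have hℓL : ℓ < W.length := by
      obtain ⟨t', h1, h2, h3⟩ := cyc_mem hp t₁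
      have h4 : t₂ < t' := by
        by_contra hc
        have h5 := hin t' h1 (not_lt.1 hc)
        rw [lc_idx h3] at h5
        exact hbad h5
      omega
    set W' := W.rotate (t₁ % W.length).toNat with hW'
    have hlen : W'.length = W.length := List.length_rotate _ _
    have hget : ∀ q : ℕ, q < W.length → W'[q]? = cyc W (t₁ + q) := fun q hq =>
      cyc_rotate hW t₁ hq
    have hUget : ∀ q : ℕ, q < ℓ → (W'.take ℓ)[q]? = cyc W (t₁ + q) := by
      intro q hq
      rw [List.getElem?_take_of_lt hq]
      exact hget q (by omega)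
    have hUlen : (W'.take ℓ).length = ℓ := by
      rw [List.length_take, hlen]
      omega
    obtain ⟨N, hN, hU⟩ := hseg (t₁ % W.length).toNat (W'.take ℓ) (W'.drop ℓ)
      (List.take_append_drop ℓ W').symm (by
        intro h
        rw [h, List.length_nil] at hUlen
        omega) (by
        intro h
        have h1 := congrArg List.length h
        rw [List.length_drop, hlen, List.length_nil] at h1
        omega) (by
        intro s hs
        obtain ⟨q, hq, rfl⟩ := List.getElem_of_mem hs
        rw [hUlen] at hq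
        have h1 : (W'.take ℓ)[q]? = some (W'.take ℓ)[q] := List.getElem?_eq_getElem _
        rw [hUget q hq] at h1
        have h2 := hin (t₁ + q) (by omega) (by omega)
        rw [lc_idx h1] at h2
        exact h2) (by
        intro s hs
        rw [List.head?_drop, hget ℓ hℓL] at hs
        have h1 : cyc W (t₂ + 1) = some s := by
          rw [← hs]
          congr 1
          omega
        have h2 := hr
        rw [lc_idx h1] at h2
        exact not_or.2 h2) (by
        intro s hs
        rw [List.getLast?_drop, if_neg (by omega), List.getLast?_eq_getElem?, hlen,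
          hget (W.length - 1) (by omega)] at hs
        have h1 : cyc W (t₁ - 1) = some s := by
          rw [← hs, ← cyc_period W (t₁ - 1)]
          congr 1
          omega
        have h2 := hl
        rw [lc_idx h1] at h2
        exact not_or.2 h2)
    have key : ∀ s, t₁ ≤ s → s ≤ t₂ → ∃ q : ℕ, (q : ℤ) = s - t₁ ∧ q < ℓ ∧
        (W'.take ℓ)[q]? = cyc W s := by
      intro s h1 h2
      refine ⟨(s - t₁).toNat, by omega, by omega, ?_⟩
      rw [hUget _ (by omega)]
      congr 1
      omega
    rcases hU with hU | hU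
    · left
      rw [hU, rep_length] at hUlen
      refine ⟨by omega, fun s h1 h2 => ?_⟩
      obtain ⟨q, hq1, hq2, hq3⟩ := key s h1 h2
      rw [hU, rep_get N _ _ (by omega)] at hq3
      constructor
      · intro h3
        rw [if_pos (by omega)] at hq3
        exact ⟨by rw [lc_idx hq3.symm]; exact hiE, _, hq3.symm, rfl⟩
      · intro h3
        rw [if_neg (by omega)] at hq3
        exact ⟨by rw [lc_idx hq3.symm]; exact hiE', _, hq3.symm, rfl⟩
    · right
      rw [hU, rep_length] at hUlen
      refine ⟨by omega, fun s h1 h2 => ?_⟩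
      obtain ⟨q, hq1, hq2, hq3⟩ := key s h1 h2
      rw [hU, rep_get N _ _ (by omega)] at hq3
      constructor
      · intro h3
        rw [if_pos (by omega)] at hq3
        exact ⟨by rw [lc_idx hq3.symm]; exact hiE', _, hq3.symm, rfl⟩
      · intro h3
        rw [if_neg (by omega)] at hq3
        exact ⟨by rw [lc_idx hq3.symm]; exact hiE, _, hq3.symm, rfl⟩

lemma idx_lin_none {W : List (Σ o, M o)} {t : ℤ} (h : t < 0 ∨ (W.length : ℤ) ≤ t) :
    idx m ix (lin W) t = m + 7 := by
  have h1 : lin W t = none := by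
    unfold lin
    rcases h with h | h
    · rw [if_neg (by omega)]
    · by_cases h0 : 0 ≤ t
      · rw [if_pos h0, List.getElem?_eq_none]
        omega
      · rw [if_neg h0]
  unfold idx
  rw [h1]

lemma idx_lin_some {W : List (Σ o, M o)} {t : ℤ} {p : Σ o, M o} (h : lin W t = some p) :
    idx m ix (lin W) t = ix p.1 := by
  unfold idx
  rw [h]

/-- maximal segments exist -/
lemma maxSeg_ex {f : ℤ → ℕ} {i : ℕ} {t : ℤ} (ht : f t = i ∨ f t = i + 1)
    (hl : ∃ n : ℕ, ¬ (f (t - n) = i ∨ f (t - n) = i + 1))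
    (hr : ∃ n : ℕ, ¬ (f (t + n) = i ∨ f (t + n) = i + 1)) :
    ∃ t₁ t₂, t₁ ≤ t ∧ t ≤ t₂ ∧ MaxSeg f i t₁ t₂ := by
  classical
  set a := Nat.find hl with ha
  set b := Nat.find hr with hb
  have ha1 := Nat.find_spec hl
  have hb1 := Nat.find_spec hr
  have ha2 : ∀ n < a, f (t - n) = i ∨ f (t - n) = i + 1 := fun n hn => not_not.1 (Nat.find_min hl hn)
  have hb2 : ∀ n < b, f (t + n) = i ∨ f (t + n) = i + 1 := fun n hn => not_not.1 (Nat.find_min hr hn)
  rw [← ha] at ha1
  rw [← hb] at hb1
  have ha0 : a ≠ 0 := by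
    intro h0
    rw [h0] at ha1
    simp only [Nat.cast_zero, sub_zero] at ha1
    exact ha1 ht
  have hb0 : b ≠ 0 := by
    intro h0
    rw [h0] at hb1
    simp only [Nat.cast_zero, add_zero] at hb1
    exact hb1 ht
  refine ⟨t - a + 1, t + b - 1, by omega, by omega, by omega, ?_, ?_, ?_⟩
  · intro s h1 h2
    rcases le_total s t with h | h
    · have h3 := ha2 (t - s).toNat (by omega)
      have h4 : t - ((t - s).toNat : ℤ) = s := by omega
      rw [h4] at h3
      exact h3
    · have h3 := hb2 (s - t).toNat (by omega)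
      have h4 : t + ((s - t).toNat : ℤ) = s := by omega
      rw [h4] at h3
      exact h3
  · have h4 : t - (a : ℤ) + 1 - 1 = t - a := by ring
    rw [h4]
    exact not_or.1 ha1
  · have h4 : t + (b : ℤ) - 1 + 1 = t + b := by ring
    rw [h4]
    exact not_or.1 hb1

/-- piece `B6-P3`: the local structure of the sequence of a list `W`.
Proof. `loc_of_seg`, `f = idx m ix (lin W)`; `f t = m + 7` outside of `[0, L)`, `L = W.length`, and this
is not in `{i, i+1}`. `hex`: as in `loc_cyc` (now there are always such positions: `-1` and `L`).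
`hpat`: a maximal segment `[t₁, t₂]` is in `[0, L)`; `V₁ = W.take t₁`, `U = (W.drop t₁).take (t₂ - t₁ + 1)`,
`V₂ = W.drop (t₂ + 1)`. -/
theorem loc_lin (hE : Enum m e ix) {γ : ∀ o, M o} {W : List (Σ o, M o)} {i : ℕ} (hi : i < m)
    (hseg : ∀ V₁ U V₂ : List (Σ o, M o), W = V₁ ++ (U ++ V₂) → U ≠ [] →
      InS (fun o => ix o = i ∨ ix o = i + 1) U →
      (∀ p ∈ V₂.head?, ¬ (ix p.1 = i ∨ ix p.1 = i + 1)) →
      (∀ p ∈ V₁.getLast?, ¬ (ix p.1 = i ∨ ix p.1 = i + 1)) →
      ∃ N : ℕ, 0 < N ∧ (U = rep N [sy γ e i, sy γ e (i + 1)] ∨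
        U = rep N [sy' γ e (i + 1), sy' γ e i])) :
    Loc (idx m ix (lin W)) (Po γ (lin W)) (Ne γ (lin W)) i := by
  have hin : ∀ t, (idx m ix (lin W) t = i ∨ idx m ix (lin W) t = i + 1) →
      0 ≤ t ∧ t < (W.length : ℤ) := by
    intro t ht
    by_contra hcon
    have h1 : t < 0 ∨ (W.length : ℤ) ≤ t := by omega
    have h2 := idx_lin_none (m := m) (ix := ix) h1
    omega
  have hlin : ∀ t : ℤ, 0 ≤ t → lin W t = W[t.toNat]? := fun t ht => by
    unfold lin
    rw [if_pos ht]
  refine loc_of_seg ?_ ?_
  · intro t ht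
    have h0 := hin t ht
    refine maxSeg_ex ht ⟨(t + 1).toNat, fun hc => ?_⟩ ⟨(W.length - t).toNat, fun hc => ?_⟩
    · have := hin _ hc
      omega
    · have := hin _ hc
      omega
  · rintro t₁ t₂ ⟨h12, hA, hL, hR⟩
    have hb1 := hin t₁ (hA t₁ le_rfl h12)
    have hb2 := hin t₂ (hA t₂ h12 le_rfl)
    set a := t₁.toNat with ha
    set b := (t₂ - t₁ + 1).toNat with hb
    have hget : ∀ q : ℕ, q < b → ((W.drop a).take b)[q]? = lin W (t₁ + q) := by
      intro q hq
      rw [hlin _ (by omega), List.getElem?_take, if_pos hq, List.getElem?_drop]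
      congr 1
      omega
    have hlen : ((W.drop a).take b).length = b := by
      rw [List.length_take, List.length_drop]
      omega
    have hbpos : 0 < b := by omega
    obtain ⟨N, hN, hU⟩ := hseg (W.take a) ((W.drop a).take b) ((W.drop a).drop b)
      (by rw [List.take_append_drop, List.take_append_drop])
      (by
        intro h0
        rw [h0] at hlen
        simp only [List.length_nil] at hlen
        omega)
      (by
        intro p hp
        obtain ⟨q, hq⟩ := List.mem_iff_getElem?.1 hp
        have hqb : q < b := by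
          by_contra hcon
          rw [List.getElem?_eq_none (by omega)] at hq
          exact absurd hq (by simp)
        have h1 := hget q hqb
        rw [hq] at h1
        have h2 := hA (t₁ + q) (by omega) (by omega)
        rw [idx_lin_some h1.symm] at h2
        exact h2)
      (by
        intro p hp
        rw [List.head?_drop, List.getElem?_drop] at hp
        have h1 : lin W (t₂ + 1) = some p := by
          rw [hlin _ (by omega), ← Option.mem_def]
          have h3 : (t₂ + 1).toNat = a + b := by omega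
          rw [h3]
          exact hp
        have h2 := hR
        rw [idx_lin_some h1] at h2
        exact fun h => h.elim h2.1 h2.2)
      (by
        intro p hp
        rw [List.getLast?_eq_getElem?, Option.mem_def] at hp
        rw [List.length_take, List.getElem?_take] at hp
        by_cases ha0 : min a W.length - 1 < a
        · rw [if_pos ha0] at hp
          have h3 : min a W.length - 1 = (t₁ - 1).toNat := by omega
          have h1 : lin W (t₁ - 1) = some p := by
            rw [hlin _ (by omega), ← h3]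
            exact hp
          have h2 := hL
          rw [idx_lin_some h1] at h2
          exact fun h => h.elim h2.1 h2.2
        · rw [if_neg ha0] at hp
          exact absurd hp (by simp))
    rcases hU with hU | hU
    · left
      have hl : b = 2 * N := by rw [← hlen, hU, rep_length]
      refine ⟨by omega, fun s hs1 hs2 => ?_⟩
      have hq : (s - t₁).toNat < b := by omega
      have h1 := hget _ hq
      have hs : t₁ + ((s - t₁).toNat : ℤ) = s := by omega
      rw [hs, hU, rep_get N _ _ (by omega)] at h1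
      constructor
      · intro hpar
        rw [if_pos (by omega)] at h1
        refine ⟨?_, _, h1.symm, rfl⟩
        rw [idx_lin_some h1.symm]
        exact hE.ix_e i (by omega)
      · intro hpar
        rw [if_neg (by omega)] at h1
        refine ⟨?_, _, h1.symm, rfl⟩
        rw [idx_lin_some h1.symm]
        exact hE.ix_e (i + 1) (by omega)
    · right
      have hl : b = 2 * N := by rw [← hlen, hU, rep_length]
      refine ⟨by omega, fun s hs1 hs2 => ?_⟩
      have hq : (s - t₁).toNat < b := by omega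
      have h1 := hget _ hq
      have hs : t₁ + ((s - t₁).toNat : ℤ) = s := by omega
      rw [hs, hU, rep_get N _ _ (by omega)] at h1
      constructor
      · intro hpar
        rw [if_pos (by omega)] at h1
        refine ⟨?_, _, h1.symm, rfl⟩
        rw [idx_lin_some h1.symm]
        exact hE.ix_e (i + 1) (by omega)
      · intro hpar
        rw [if_neg (by omega)] at h1
        refine ⟨?_, _, h1.symm, rfl⟩
        rw [idx_lin_some h1.symm]
        exact hE.ix_e i (by omega)

end

end Pool.Agent.Helper38.BN
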