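import Pool.Agent.Helper38.BN.B6S

/-!
# Project BN, block B6, pieces B6-Q1, B6-Q2: the segments of an invariant word
-/

namespace Pool.Agent.Helper38.BN

open Monoid
open Pool.Agent.Helper7.AG (FreeProd PNt pv Red nt val sv)

section
variable {ι : Type} {M : ι → Type} [∀ o, Group (M o)]

/-- `T` on the pairs -/
private def B6Q1_g {S : ι → Prop} (s : AS M S) (p : AS M S × AS M (fun o => ¬ S o)) :
    AS M S × AS M (fun o => ¬ S o) := (s * p.1 * s⁻¹, p.2)

private lemma B6Q1_iter {S : ι → Prop} (s : AS M S) (m : ℕ)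
    (p : AS M S × AS M (fun o => ¬ S o)) : (B6Q1_g s)^[m] p = (s ^ m * p.1 * (s ^ m)⁻¹, p.2) := by
  induction m with
  | zero => simp
  | succ m ih =>
    rw [Function.iterate_succ_apply', ih]
    unfold B6Q1_g
    rw [pow_succ', mul_inv_rev]
    simp only [mul_assoc]

private lemma B6Q1_pv {S : ι → Prop} {T : CoprodI M →* CoprodI M} {s : AS M S}
    (hT : ∀ o, S o → ∀ x : M o, T (CoprodI.of x) = iS M S s * CoprodI.of x * (iS M S s)⁻¹)
    (hT' : ∀ o, ¬ S o → ∀ x : M o, T (CoprodI.of x) = CoprodI.of x)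
    (L : List (AS M S × AS M (fun o => ¬ S o))) :
    T (pv (iS M S) (iS M fun o => ¬ S o) L) =
      pv (iS M S) (iS M fun o => ¬ S o) (L.map (B6Q1_g s)) := by
  induction L with
  | nil => simp [pv]
  | cons p L ih =>
    have e1 : pv (iS M S) (iS M fun o => ¬ S o) (p :: L) =
        iS M S p.1 * iS M (fun o => ¬ S o) p.2 * pv (iS M S) (iS M fun o => ¬ S o) L := by
      simp [pv]
    have e2 : pv (iS M S) (iS M fun o => ¬ S o) ((p :: L).map (B6Q1_g s)) =
        iS M S (s * p.1 * s⁻¹) * iS M (fun o => ¬ S o) p.2 *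
          pv (iS M S) (iS M fun o => ¬ S o) (L.map (B6Q1_g s)) := by
      simp only [pv, B6Q1_g, List.map_cons, List.prod_cons]
    rw [e1, e2, map_mul, map_mul, T_iS hT, T_iS' hT', ih, map_mul, map_mul, map_inv]

private lemma B6Q1_map {S : ι → Prop} {s : AS M S} {L : List (AS M S × AS M (fun o => ¬ S o))}
    {n : ℕ} (h : L.map (B6Q1_g s) = L.rotate n) (m : ℕ) :
    L.map (B6Q1_g s)^[m] = L.rotate (m * n) := by
  induction m with
  | zero => simp
  | succ m ih =>
    have e : L.map (B6Q1_g s)^[m + 1] = (L.map (B6Q1_g s)).map (B6Q1_g s)^[m] := by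
      rw [List.map_map, ← Function.iterate_succ]
    rw [e, h, List.map_rotate, ih, List.rotate_rotate]
    congr 1
    ring

/-- piece `B6-Q1`: `T` is the conjugation with `s ∈ AS M S` on the factors in `S` and the identity
on the others; `U ++ V` is a reduced list, `U` in the factors of `S`, and `V` starts and ends with
syllables which are not in `S`. If `T` fixes the conjugacy class of `vl (U ++ V)`, then a power of
`s` commutes with `vl U`.
Proof. Let `iS M S a = vl U` (`exists_iS`), `a ≠ 1` (`rw_ne_one`). Let `l'` be the list of `V`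
(`group`): reduced, not empty, first and last syllable in the right factor. Then `.inl a :: l'` is
reduced, starts in the left factor and ends in the right one: by `pairs_of_red`
(`Pool/Agent/Helper7/AG/Fcyc.lean`) it is `L.flatMap (fun p => [inl p.1, inr p.2])` with a list `L`
of pairs with nontrivial entries, and the first entry of the first pair of `L` is `a`. So
`PNt L`, `vl (U ++ V) = pv _ _ L` (`val_words`, `words` of `Pool/Agent/Helper7/AG/Frot.lean`).
`T (pv L) = pv (L.map g)` with `g p = (s p.1 s⁻¹, p.2)` (induction on `L`, `T_iS`, `T_iS'`), so by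
`FreeProd.rotate` (`split S`) there is `n` with `L.map g = L.rotate n`. Iterating,
`L.map g^[m] = L.rotate (m n)`, and for `m = L.length` the right side is `L`: hence
`s^m p.1 s^-m = p.1` for all pairs `p` of `L`, in particular for `a`. (Compare the proof of
`al_conj` in `Pool/Agent/Helper7/AG/Fixal.lean`: `gm_iter`, `al_pv`, `map_iter`.) `m > 0`. -/
theorem seg_comm {S : ι → Prop} {T : CoprodI M →* CoprodI M} {s : AS M S}
    (hT : ∀ o, S o → ∀ x : M o, T (CoprodI.of x) = iS M S s * CoprodI.of x * (iS M S s)⁻¹)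
    (hT' : ∀ o, ¬ S o → ∀ x : M o, T (CoprodI.of x) = CoprodI.of x)
    {U V : List (Σ o, M o)} (hr : RW (U ++ V)) (hU : InS S U) (hU0 : U ≠ []) (hV0 : V ≠ [])
    (hh : ∀ p ∈ V.head?, ¬ S p.1) (hl : ∀ p ∈ V.getLast?, ¬ S p.1) {y : CoprodI M}
    (hy : y * vl (U ++ V) * y⁻¹ = T (vl (U ++ V))) :
    ∃ n : ℕ, 0 < n ∧ iS M S s ^ n * vl U = vl U * iS M S s ^ n := by
  obtain ⟨a, ha⟩ := exists_iS hU
  obtain ⟨hrU, hrV, -⟩ := RW_append.1 hr
  have ha1 : a ≠ 1 := by
    intro h
    apply rw_ne_one hrU hU0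
    rw [← ha, h, map_one]
  obtain ⟨l', hl1, hl2, hl3, hl4, hl5⟩ := group S hrV
  have hl0 : l' ≠ [] := fun h => hV0 (hl3.2 h)
  have hhd : ∀ q ∈ l'.head?, q.isLeft = false := by
    intro q hq
    have h1 : V.head? = some (V.head hV0) := List.head?_eq_some_head hV0
    have h2 := hl4 _ h1 q hq
    have h3 := hh _ h1
    cases h : q.isLeft
    · rfl
    · exact absurd (h2.1 h) h3
  have hlt : ∀ q ∈ l'.getLast?, q.isLeft = false := by
    intro q hq
    have h1 : V.getLast? = some (V.getLast hV0) := List.getLast?_eq_some_getLast hV0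
    have h2 := hl5 _ h1 q hq
    have h3 := hl _ h1
    cases h : q.isLeft
    · rfl
    · exact absurd (h2.1 h) h3
  have hred : Red (Sum.inl a :: l') := by
    have h1 : Red ([Sum.inl a] ++ l') := by
      refine Pool.Agent.Helper7.AG.red_append.2
        ⟨Pool.Agent.Helper7.AG.red_single ha1, hl1, ?_⟩
      intro q hq q' hq'
      simp only [List.getLast?_singleton, Option.mem_def, Option.some.injEq] at hq
      subst hq
      rw [hhd q' hq']
      simp
    exact h1
  obtain ⟨L, hL1, hL2⟩ := Pool.Agent.Helper7.AG.pairs_of_red hred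
    (by
      intro q hq
      simp only [List.head?_cons, Option.mem_def, Option.some.injEq] at hq
      subst hq
      rfl)
    (by
      intro q hq
      rw [List.getLast?_cons_of_ne_nil hl0] at hq
      exact hlt q hq)
  have hval : vl (U ++ V) = pv (iS M S) (iS M fun o => ¬ S o) L := by
    rw [← Pool.Agent.Helper7.AG.val_words]
    have h1 : Pool.Agent.Helper7.AG.words L = Sum.inl a :: l' := hL2.symm
    rw [h1, Pool.Agent.Helper7.AG.val_cons, hl2, vl_append, ← ha]
    rfl
  obtain ⟨p, L', hpL⟩ : ∃ p L', L = p :: L' := by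
    cases hLc : L with
    | nil =>
      rw [hLc] at hL2
      simp at hL2
    | cons p L' => exact ⟨p, L', rfl⟩
  have hpa : p.1 = a := by
    rw [hpL, List.flatMap_cons, List.cons_append, List.cons.injEq] at hL2
    exact (Sum.inl.inj hL2.1).symm
  have hLne : L ≠ [] := by rw [hpL]; simp
  have hPN : PNt L := ⟨hLne, hL1⟩
  have hPN' : PNt (L.map (B6Q1_g s)) := by
    refine ⟨by simpa using hLne, ?_⟩
    intro q hq
    obtain ⟨q', hq', rfl⟩ := List.mem_map.1 hq
    refine ⟨?_, (hL1 q' hq').2⟩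
    intro h1
    apply (hL1 q' hq').1
    have h2 : s * q'.1 * s⁻¹ = 1 := h1
    rw [mul_inv_eq_one] at h2
    exact mul_eq_left.1 h2
  rw [hval, B6Q1_pv hT hT'] at hy
  obtain ⟨n, hn⟩ := (split S).rotate hPN hPN' hy
  have h1 := B6Q1_map hn L.length
  rw [List.rotate_length_mul] at h1
  have h2 : ∀ q ∈ L, (B6Q1_g s)^[L.length] q = q :=
    List.map_inj_left.1 (h1.trans (List.map_id L).symm)
  have h3 := h2 p (by rw [hpL]; simp)
  rw [B6Q1_iter] at h3
  have h4 : s ^ L.length * p.1 * (s ^ L.length)⁻¹ = p.1 := congrArg Prod.fst h3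
  rw [hpa, mul_inv_eq_iff_eq_mul] at h4
  refine ⟨L.length, List.length_pos_of_ne_nil hLne, ?_⟩
  rw [← ha, ← map_pow, ← map_mul, h4, map_mul]

/-- conjugation with `s` on the left syllables -/
private def Q2_g (S : ι → Prop) (s : AS M S) :
    AS M S ⊕ AS M (fun o => ¬ S o) → AS M S ⊕ AS M (fun o => ¬ S o)
  | .inl a => .inl (s * a * s⁻¹)
  | .inr b => .inr b

private lemma Q2_left (S : ι → Prop) (s : AS M S) (t : AS M S ⊕ AS M (fun o => ¬ S o)) :
    (Q2_g S s t).isLeft = t.isLeft := by
  cases t <;> rfl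

private lemma Q2_nt (S : ι → Prop) (s : AS M S) {t : AS M S ⊕ AS M (fun o => ¬ S o)}
    (h : nt t) : nt (Q2_g S s t) := by
  cases t with
  | inl a =>
    intro h1
    apply h
    have h2 : s * a * s⁻¹ = 1 := h1
    have h3 : s * a = s := by
      have := congrArg (· * s) h2
      simpa [mul_assoc] using this
    simpa using h3
  | inr b => exact h

private lemma Q2_red (S : ι → Prop) (s : AS M S) {l : List (AS M S ⊕ AS M (fun o => ¬ S o))}
    (h : Red l) : Red (l.map (Q2_g S s)) := by
  refine ⟨?_, ?_⟩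
  · intro t ht
    rw [List.mem_map] at ht
    obtain ⟨t', h1, rfl⟩ := ht
    exact Q2_nt S s (h.1 _ h1)
  · rw [List.isChain_map]
    refine h.2.imp ?_
    intro t t' h1
    rwa [Q2_left, Q2_left]

private lemma Q2_val {S : ι → Prop} {T : CoprodI M →* CoprodI M} {s : AS M S}
    (hT : ∀ o, S o → ∀ x : M o, T (CoprodI.of x) = iS M S s * CoprodI.of x * (iS M S s)⁻¹)
    (hT' : ∀ o, ¬ S o → ∀ x : M o, T (CoprodI.of x) = CoprodI.of x)
    (l : List (AS M S ⊕ AS M (fun o => ¬ S o))) :
    val (iS M S) (iS M fun o => ¬ S o) (l.map (Q2_g S s)) =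
      T (val (iS M S) (iS M fun o => ¬ S o) l) := by
  induction l with
  | nil => simp
  | cons t l ih =>
    rw [List.map_cons, Pool.Agent.Helper7.AG.val_cons, Pool.Agent.Helper7.AG.val_cons, map_mul, ih]
    congr 1
    cases t with
    | inl a =>
      change iS M S (s * a * s⁻¹) = T (iS M S a)
      rw [T_iS hT, map_mul, map_mul, map_inv]
    | inr b =>
      change iS M (fun o => ¬ S o) b = T (iS M (fun o => ¬ S o) b)
      rw [T_iS' hT']

/-- piece `B6-Q2`: the version for fixed elements.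
Proof. Let `l₁`, `l₂` be the lists of `V₁`, `V₂` (`group`), `iS M S a = vl U`, `a ≠ 1`. The list
`l₁ ++ (.inl a :: l₂)` is reduced (`red_append`, `red_cons_cons`): the last syllable of `l₁` and the
first syllable of `l₂` (if any) are in the right factor. Its value is `x = vl (V₁ ++ (U ++ V₂))`.
Apply `g = Sum.map (conj s) id` to its syllables: the list is still reduced and its value is
`T x = x` (`T_iS`, `T_iS'`), so by `(split S).uniq` it is the same list; comparing the syllable at the
position `l₁.length`: `s a s⁻¹ = a`. -/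
theorem seg_fix {S : ι → Prop} {T : CoprodI M →* CoprodI M} {s : AS M S}
    (hT : ∀ o, S o → ∀ x : M o, T (CoprodI.of x) = iS M S s * CoprodI.of x * (iS M S s)⁻¹)
    (hT' : ∀ o, ¬ S o → ∀ x : M o, T (CoprodI.of x) = CoprodI.of x)
    {V₁ U V₂ : List (Σ o, M o)} (hr : RW (V₁ ++ (U ++ V₂))) (hU : InS S U) (hU0 : U ≠ [])
    (hh : ∀ p ∈ V₂.head?, ¬ S p.1) (hl : ∀ p ∈ V₁.getLast?, ¬ S p.1)
    (hx : T (vl (V₁ ++ (U ++ V₂))) = vl (V₁ ++ (U ++ V₂))) :
    iS M S s * vl U = vl U * iS M S s := by
  obtain ⟨hr1, hr2, -⟩ := RW_append.mp hr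
  obtain ⟨hrU, hrV, -⟩ := RW_append.mp hr2
  obtain ⟨l₁, r1, v1, n1, -, e1⟩ := group S hr1
  obtain ⟨l₂, r2, v2, n2, e2, -⟩ := group S hrV
  obtain ⟨a, ha⟩ := exists_iS hU
  have ha1 : a ≠ 1 := by
    rintro rfl
    exact rw_ne_one hrU hU0 (by rw [← ha, map_one])
  -- the first syllable of `l₂` is in the right factor
  have q2 : ∀ t ∈ l₂.head?, t.isLeft = false := by
    intro t ht
    have hV : V₂ ≠ [] := by
      intro h0
      rw [n2.mp h0] at ht
      simp at ht
    obtain ⟨p, V, rfl⟩ := List.exists_cons_of_ne_nil hV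
    have h3 := e2 p (by simp) t ht
    have h4 := hh p (by simp)
    cases h5 : t.isLeft with
    | false => rfl
    | true => exact absurd (h3.mp h5) h4
  have q1 : ∀ t ∈ l₁.getLast?, t.isLeft = false := by
    intro t ht
    have hV : V₁ ≠ [] := by
      intro h0
      rw [n1.mp h0] at ht
      simp at ht
    have h2 : V₁.getLast hV ∈ V₁.getLast? := by
      rw [List.getLast?_eq_getLast_of_ne_nil hV]
      rfl
    have h3 := e1 _ h2 t ht
    have h4 := hl _ h2
    cases h5 : t.isLeft with
    | false => rfl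
    | true => exact absurd (h3.mp h5) h4
  have red2 : Red ((.inl a : AS M S ⊕ AS M (fun o => ¬ S o)) :: l₂) := by
    cases l₂ with
    | nil => exact Pool.Agent.Helper7.AG.red_single ha1
    | cons t l =>
      rw [Pool.Agent.Helper7.AG.red_cons_cons]
      refine ⟨ha1, ?_, r2⟩
      rw [q2 t (by simp)]
      simp
  have red : Red (l₁ ++ ((.inl a : AS M S ⊕ AS M (fun o => ¬ S o)) :: l₂)) := by
    rw [Pool.Agent.Helper7.AG.red_append]
    refine ⟨r1, red2, ?_⟩
    intro t ht t' ht'
    rw [q1 t ht]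
    simp only [List.head?_cons, Option.mem_def, Option.some.injEq] at ht'
    subst ht'
    simp
  have hval : val (iS M S) (iS M fun o => ¬ S o)
      (l₁ ++ ((.inl a : AS M S ⊕ AS M (fun o => ¬ S o)) :: l₂)) = vl (V₁ ++ (U ++ V₂)) := by
    rw [Pool.Agent.Helper7.AG.val_append, Pool.Agent.Helper7.AG.val_cons, v1, v2, vl_append,
      vl_append, ← ha]
    rfl
  have hu := (split S).uniq _ _ (Q2_red S s red) red (by rw [Q2_val hT hT', hval, hx])
  rw [List.map_append] at hu
  have hu2 := (List.append_inj hu (by simp)).2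
  rw [List.map_cons] at hu2
  have h6 : (Sum.inl (s * a * s⁻¹) : AS M S ⊕ AS M (fun o => ¬ S o)) = .inl a :=
    (List.cons.inj hu2).1
  have h7 : s * a * s⁻¹ = a := Sum.inl.inj h6
  have h8 : s * a = a * s := by
    rw [mul_inv_eq_iff_eq_mul] at h7
    exact h7
  rw [← ha, ← map_mul, ← map_mul, h8]

end

end Pool.Agent.Helper38.BN
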