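import Pool.Agent.Helper38.BN.B6Def

/-!
# Project BN, block B6, pieces B6-W1, B6-W2: reduced words in free products
-/

namespace Pool.Agent.Helper38.BN

open Monoid

section
variable {ι : Type} {M : ι → Type} [∀ o, Group (M o)]

/-- piece `B6-W1`: every element is the value of a reduced list.
Proof. `classical`; `w := CoprodI.Word.equiv x`, the list `w.toList` (`w.ne_one`, `w.chain_ne`), and
`CoprodI.Word.equiv.symm_apply_apply x` (see the proof of `Fs_freeProd` in
`Pool/Agent/Helper7/AG/Fsum.lean`). -/
theorem rw_ex (x : CoprodI M) : ∃ l : List (Σ o, M o), RW l ∧ vl l = x := by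
  classical
  set w := CoprodI.Word.equiv x with hw
  exact ⟨w.toList, ⟨fun p hp => w.ne_one p hp, w.chain_ne⟩, CoprodI.Word.equiv.symm_apply_apply x⟩

/-- piece `B6-W1`: uniqueness.
Proof. `⟨l, h.1, h.2⟩ : CoprodI.Word M`, and `CoprodI.Word.equiv.symm.injective` (see the proof of
`Fs_freeProd` in `Pool/Agent/Helper7/AG/Fsum.lean`). -/
theorem rw_uniq {l l' : List (Σ o, M o)} (h : RW l) (h' : RW l') (hv : vl l = vl l') : l = l' := by
  classical
  set w : CoprodI.Word M := ⟨l, h.1, h.2⟩ with hw
  set w' : CoprodI.Word M := ⟨l', h'.1, h'.2⟩ with hw'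
  have h4 : w = w' := CoprodI.Word.equiv.symm.injective hv
  exact congrArg CoprodI.Word.toList h4

/-- piece `B6-W1`. Proof. `rw_uniq` with `[]`. -/
theorem rw_ne_one {l : List (Σ o, M o)} (h : RW l) (h0 : l ≠ []) : vl l ≠ 1 :=
  fun h1 => h0 (rw_uniq h RW_nil (h1.trans vl_nil.symm))

private lemma rw_len_ex (l : List (Σ o, M o)) :
    ∃ l'' : List (Σ o, M o), RW l'' ∧ vl l'' = vl l ∧ l''.length ≤ l.length := by
  classical
  induction l with
  | nil => exact ⟨[], RW_nil, rfl, le_refl _⟩
  | cons p l₁ ih =>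
    obtain ⟨m, hm, hv, hlen⟩ := ih
    by_cases hp : p.2 = 1
    · exact ⟨m, hm, by simp [hv, hp], by simp; omega⟩
    · cases m with
      | nil => exact ⟨[p], RW_single hp, by simp only [vl_cons, ← hv], by simp⟩
      | cons q l₂ =>
        by_cases hq : p.1 = q.1
        · obtain ⟨o, x⟩ := p
          obtain ⟨o', y⟩ := q
          obtain rfl : o = o' := hq
          have h2 := RW_cons.1 hm
          simp only [vl_cons] at hv
          have hlen' : l₂.length + 1 ≤ l₁.length := by simpa using hlen
          by_cases hxy : x * y = 1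
          · refine ⟨l₂, h2.2.1, ?_, by simp; omega⟩
            rw [vl_cons, ← hv, ← mul_assoc]
            simp only
            rw [← map_mul, hxy, map_one, one_mul]
          · refine ⟨⟨o, x * y⟩ :: l₂, RW_cons.2 ⟨hxy, h2.2.1, h2.2.2⟩, ?_, by simp; omega⟩
            rw [vl_cons, vl_cons, ← hv, ← mul_assoc]
            simp only
            rw [← map_mul]
        · refine ⟨p :: q :: l₂, RW_cons.2 ⟨hp, hm, ?_⟩, ?_, by simpa using hlen⟩
          · intro r hr
            simp only [List.head?_cons, Option.mem_def, Option.some.injEq] at hr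
            subst hr; exact hq
          · rw [vl_cons, hv, vl_cons]

/-- piece `B6-W3`: the reduced list is the shortest one.
Proof. There is a reduced `l''` with `vl l'' = vl l` and `l''.length ≤ l.length`: induction on `l`:
`l = p :: l₁`, `l₁''` reduced for `l₁`; if `p.2 = 1` take `l₁''`; if `l₁''` is empty or its first
syllable `q` is in another factor take `p :: l₁''`; if `q = ⟨p.1, y⟩`, `l₁'' = q :: l₂`, take
`⟨p.1, p.2 * y⟩ :: l₂` or (if `p.2 * y = 1`) `l₂`. By `rw_uniq`, `l'' = l'`. -/
theorem rw_len {l l' : List (Σ o, M o)} (h' : RW l') (hv : vl l' = vl l) :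
    l'.length ≤ l.length := by
  obtain ⟨l'', h, hv', hlen⟩ := rw_len_ex l
  obtain rfl := rw_uniq h h' (hv'.trans hv.symm)
  exact hlen

private theorem rw_cyc_aux (n : ℕ) : ∀ l : List (Σ o, M o), l.length ≤ n → RW l →
    ∃ (g : CoprodI M) (l' : List (Σ o, M o)), RW l' ∧ vl l = g * vl l' * g⁻¹ ∧
      (l'.length ≤ 1 ∨ ∀ p ∈ l'.head?, ∀ q ∈ l'.getLast?, p.1 ≠ q.1) := by
  induction n with
  | zero =>
    intro l hl h
    exact ⟨1, l, h, by simp, Or.inl (by omega)⟩
  | succ n ih =>
    intro l hl h
    by_cases h1 : l.length ≤ 1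
    · exact ⟨1, l, h, by simp, Or.inl h1⟩
    · obtain ⟨p, t, rfl⟩ : ∃ p t, l = p :: t :=
        List.exists_cons_of_ne_nil (by rintro rfl; simp at h1)
      have ht : t ≠ [] := by rintro rfl; simp at h1
      obtain ⟨l₁, q, rfl⟩ : ∃ l₁ q, t = l₁ ++ [q] :=
        ⟨t.dropLast, t.getLast ht, (List.dropLast_append_getLast ht).symm⟩
      by_cases hpq : p.1 = q.1
      · obtain ⟨o, x⟩ := p
        obtain ⟨o', y⟩ := q
        obtain rfl : o = o' := hpq
        have h2 := RW_cons.1 h
        have h3 := RW_append.1 h2.2.1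
        simp only [List.length_cons, List.length_append, List.length_nil] at hl
        by_cases hyx : y * x = 1
        · obtain ⟨g, l', a, b, c⟩ := ih l₁ (by omega) h3.1
          refine ⟨CoprodI.of x * g, l', a, ?_, c⟩
          have hy : y = x⁻¹ := eq_inv_of_mul_eq_one_left hyx
          rw [vl_cons, vl_append, vl_cons, vl_nil, b, hy, map_inv]
          group
        · obtain ⟨g, l', a, b, c⟩ := ih (l₁ ++ [⟨o, y * x⟩]) (by simp; omega)
            (RW_append.2 ⟨h3.1, RW_single hyx, fun p' hp' q' hq' => by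
              simp only [List.head?_cons, Option.mem_def, Option.some.injEq] at hq'
              subst hq'
              exact h3.2.2 p' hp' ⟨o, y⟩ (by simp)⟩)
          refine ⟨CoprodI.of x * g, l', a, ?_, c⟩
          rw [vl_append, vl_cons, vl_nil, mul_one] at b
          simp only at b
          rw [map_mul, ← mul_assoc] at b
          have b' : vl l₁ * CoprodI.of y = g * vl l' * g⁻¹ * (CoprodI.of x)⁻¹ :=
            eq_mul_inv_of_mul_eq b
          rw [vl_cons, vl_append, vl_cons, vl_nil, mul_one]
          simp only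
          rw [b']
          group
      · refine ⟨1, _, h, by simp, Or.inr ?_⟩
        intro p' hp' q' hq'
        rw [← List.cons_append, List.getLast?_concat] at hq'
        simp only [List.head?_cons, Option.mem_def, Option.some.injEq] at hp' hq'
        subst hp' hq'
        exact hpq

/-- piece `B6-W2`: every element is conjugate to the value of a cyclically reduced list.
Proof. `rw_ex` and strong induction on the length of the list `l` (statement: for every reduced `l`,
`vl l` has such a form). If `l.length ≤ 1` take `g = 1`. Otherwise `l = p :: (l₁ ++ [q])`. If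
`p.1 ≠ q.1` take `g = 1`. If `p.1 = q.1` (write `p = ⟨o, x⟩`, `q = ⟨o, y⟩`): conjugating with
`of x`, `vl l = of x * (vl l₁ * of (y * x)) * (of x)⁻¹`. If `y * x = 1` this is the value of `l₁`
(reduced, shorter); if `y * x ≠ 1` it is the value of `l₁ ++ [⟨o, y * x⟩]` (reduced, because
`l₁ ++ [⟨o, y⟩]` is, and shorter). Induction. -/
theorem rw_cyc (x : CoprodI M) : ∃ (g : CoprodI M) (l : List (Σ o, M o)), RW l ∧
    x = g * vl l * g⁻¹ ∧ (l.length ≤ 1 ∨ ∀ p ∈ l.head?, ∀ q ∈ l.getLast?, p.1 ≠ q.1) := by
  obtain ⟨l, hl, hv⟩ := rw_ex x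
  obtain ⟨g, l', a, b, c⟩ := rw_cyc_aux l.length l le_rfl hl
  exact ⟨g, l', a, hv.symm.trans b, c⟩

end

end Pool.Agent.Helper38.BN
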