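import Pool.Agent.Helper38.BN.IntH

/-!
# Project BN, block B8: the endomorphism `Sp`
-/

namespace Pool.Agent.Helper38.BN

variable {k : ℕ}

private lemma Sp_a {j : ℕ} (hj : j < k) : Sp k (aH j) = (aH j)⁻¹ := liftH_a _ hj

private lemma Sp_d : Sp k dH = Dd k aH dH := liftH_d _

private lemma Sp_kap_le {n : ℕ} (hn : n ≤ k) : Sp k (kap aH n) = (krev aH n)⁻¹ := by
  induction n with
  | zero =>
    change Sp k 1 = (1 : HB k)⁻¹
    rw [map_one, inv_one]
  | succ n ih =>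
    change Sp k (kap aH n * aH n) = (aH n * krev aH n)⁻¹
    rw [map_mul, ih (by omega), Sp_a (by omega), mul_inv_rev]

private lemma Sp_krev_le {n : ℕ} (hn : n ≤ k) : Sp k (krev aH n) = (kap aH n)⁻¹ := by
  induction n with
  | zero =>
    change Sp k 1 = (1 : HB k)⁻¹
    rw [map_one, inv_one]
  | succ n ih =>
    change Sp k (aH n * krev aH n) = (kap aH n * aH n)⁻¹
    rw [map_mul, ih (by omega), Sp_a (by omega), mul_inv_rev]

/-- piece `BN-B8-5`: `Sp κ = a_0⁻¹ ⋯ a_{k-1}⁻¹ = (κ')⁻¹`, `κ' = krev aH k` (induction on the length;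
`Sp (aH j) = (aH j)⁻¹` for `j < k`). -/
theorem Sp_kap (k : ℕ) : Sp k (kap aH k) = (krev aH k)⁻¹ := Sp_kap_le le_rfl

/-- piece `BN-B8-5` -/
theorem Sp_krev (k : ℕ) : Sp k (krev aH k) = (kap aH k)⁻¹ := Sp_krev_le le_rfl

private lemma Sp_rho (k : ℕ) : Sp k (dH * kap aH k) = dH * kap aH k := by
  rw [map_mul, Sp_d, Sp_kap]
  unfold Dd
  group

private lemma Sp_Dd (k : ℕ) : Sp k (Dd k aH dH) = dH := by
  change Sp k (dH * kap aH k * krev aH k) = dH
  rw [map_mul, Sp_rho, Sp_krev, mul_inv_cancel_right]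

/-- piece `BN-B8-5`: `Sp D = Sp (d κ κ') = D κ'⁻¹ κ⁻¹ = d` (`Dd k aH dH = dH * kap aH k * krev aH k`), so
`Sp ∘ Sp = id` by `homH_ext`. -/
theorem Sp_Sp' (x : HB k) : Sp k (Sp k x) = x := by
  have h : (Sp k).comp (Sp k) = MonoidHom.id (HB k) := by
    apply homH_ext
    · intro j hj
      rw [MonoidHom.comp_apply, Sp_a hj, map_inv, Sp_a hj, inv_inv, MonoidHom.id_apply]
    · rw [MonoidHom.comp_apply, Sp_d, Sp_Dd, MonoidHom.id_apply]
  exact DFunLike.congr_fun h x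

/-- piece `BN-B8-5`: `Sp ρ = D κ'⁻¹ = d κ = ρ`, `ρ = d κ`, `ζ = ρ^(k+1)`. -/
theorem Sp_zeta' (k : ℕ) : Sp k (zeH k) = zeH k := by
  change Sp k ((dH * kap aH k) ^ (k + 1)) = (dH * kap aH k) ^ (k + 1)
  rw [map_pow, Sp_rho]

private lemma inv_word {K : Type*} [Group K] (f : HB k →* K)
    (hf : ∀ j, j < k → (f (aH j))⁻¹ = f (aH j)) {n : ℕ} (hn : n ≤ k) :
    f (krev aH n) = (f (kap aH n))⁻¹ := by
  induction n with
  | zero =>
    change f 1 = (f 1)⁻¹
    rw [map_one, inv_one]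
  | succ n ih =>
    change f (aH n * krev aH n) = (f (kap aH n * aH n))⁻¹
    rw [map_mul, map_mul, ih (by omega), mul_inv_rev, hf n (by omega)]

/-- piece `BN-B8-5`: `homH_ext`; `π κ * π κ' = 1` (the reversed word of involutions). -/
theorem piH_Sp' (x : HB k) : piH k (Sp k x) = piH k x := by
  have ha : ∀ j, j < k → (piH k (aH j))⁻¹ = piH k (aH j) := by
    intro j hj
    have e : piH k (aH j) = Equiv.swap j (j + 1) := liftH_a _ hj
    rw [e, Equiv.swap_inv]
  have h : (piH k).comp (Sp k) = piH k := by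
    apply homH_ext
    · intro j hj
      rw [MonoidHom.comp_apply, Sp_a hj, map_inv, ha j hj]
    · rw [MonoidHom.comp_apply, Sp_d]
      change piH k (dH * kap aH k * krev aH k) = piH k dH
      rw [map_mul, map_mul, inv_word (piH k) ha le_rfl, mul_inv_cancel_right]
  exact DFunLike.congr_fun h x

/-- the automorphism `Sp` -/
def SpA (k : ℕ) : MulAut (HB k) where
  toFun := Sp k
  invFun := Sp k
  left_inv := Sp_Sp'
  right_inv := Sp_Sp'
  map_mul' := map_mul _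

/-- piece `BN-B8-5`: `Sp z_0 = D` (`zz aH dH 0 = dH`, `zH`, `liftF_z`). -/
theorem Sp_z0 (k : ℕ) : Sp k (zH k (zF 0)) = Dd k aH dH := by
  have e : zH k (zF 0) = dH := liftF_z _ (Nat.zero_le _)
  rw [e]
  exact Sp_d

end Pool.Agent.Helper38.BN
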