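import Pool.Agent.Helper38.BN.IntK

/-!
# Project BN, block B8: the linking cocycle

The vertices are `0` (the puncture) and `j + 1` (the strand `j`).
-/

namespace Pool.Agent.Helper38.BN

variable {m : ℕ}

/-- the action of a permutation of the strands on the vertices -/
def vx (σ : Equiv.Perm ℕ) : Equiv.Perm ℕ where
  toFun i := match i with
    | 0 => 0
    | j + 1 => σ j + 1
  invFun i := match i with
    | 0 => 0
    | j + 1 => σ.symm j + 1
  left_inv i := by cases i <;> simp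
  right_inv i := by cases i <;> simp

@[simp] lemma vx_zero (σ : Equiv.Perm ℕ) : vx σ 0 = 0 := rfl
@[simp] lemma vx_succ (σ : Equiv.Perm ℕ) (j : ℕ) : vx σ (j + 1) = σ j + 1 := rfl
@[simp] lemma vx_one : vx 1 = 1 := by ext i; cases i <;> rfl
lemma vx_mul (σ τ : Equiv.Perm ℕ) : vx (σ * τ) = vx σ * vx τ := by ext i; cases i <;> rfl
lemma vx_inv (σ : Equiv.Perm ℕ) : vx σ⁻¹ = (vx σ)⁻¹ := by ext i; cases i <;> rfl

/-- the functions on the ordered pairs of vertices -/
abbrev VF : Type := Multiplicative (ℕ → ℕ → ℤ)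

/-- the action of a permutation of the strands on the functions -/
def actVF (σ : Equiv.Perm ℕ) : VF ≃* VF where
  toFun f := Multiplicative.ofAdd fun i j => f.toAdd ((vx σ)⁻¹ i) ((vx σ)⁻¹ j)
  invFun f := Multiplicative.ofAdd fun i j => f.toAdd (vx σ i) (vx σ j)
  left_inv f := by
    change Multiplicative.ofAdd (fun i j => f.toAdd ((vx σ)⁻¹ (vx σ i)) ((vx σ)⁻¹ (vx σ j))) = f
    simp
  right_inv f := by
    change Multiplicative.ofAdd (fun i j => f.toAdd (vx σ ((vx σ)⁻¹ i)) (vx σ ((vx σ)⁻¹ j))) = f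
    simp
  map_mul' f g := rfl

/-- the action of the permutations on the functions -/
def actV : Equiv.Perm ℕ →* MulAut VF where
  toFun := actVF
  map_one' := by
    refine MulEquiv.ext fun f => ?_
    change Multiplicative.ofAdd (fun i j => f.toAdd ((vx 1)⁻¹ i) ((vx 1)⁻¹ j)) = f
    simp
  map_mul' σ τ := by
    refine MulEquiv.ext fun f => ?_
    change Multiplicative.ofAdd (fun i j => f.toAdd ((vx (σ * τ))⁻¹ i) ((vx (σ * τ))⁻¹ j)) =
      Multiplicative.ofAdd (fun i j => f.toAdd ((vx τ)⁻¹ ((vx σ)⁻¹ i)) ((vx τ)⁻¹ ((vx σ)⁻¹ j)))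
    rw [vx_mul, mul_inv_rev]
    rfl

lemma actV_apply (σ : Equiv.Perm ℕ) (f : VF) (i j : ℕ) :
    (actV σ f).toAdd i j = f.toAdd ((vx σ)⁻¹ i) ((vx σ)⁻¹ j) := rfl

/-- the indicator function of the ordered pair `(p, q)` -/
def dl (p q : ℕ) : VF := Multiplicative.ofAdd fun i j => if i = p ∧ j = q then 1 else 0

/-- piece `BN-B8-1`: `σ` maps the indicator of `(p, q)` to that of `(σ p, σ q)`. -/
theorem actV_dl (σ : Equiv.Perm ℕ) (p q : ℕ) : actV σ (dl p q) = dl (vx σ p) (vx σ q) := by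
  refine congrArg Multiplicative.ofAdd (funext fun i => funext fun j => ?_)
  change (if (vx σ)⁻¹ i = p ∧ (vx σ)⁻¹ j = q then (1 : ℤ) else 0) =
    if i = vx σ p ∧ j = vx σ q then 1 else 0
  simp only [Equiv.Perm.inv_eq_iff_eq]

/-- the group of the linking cocycle -/
abbrev LG : Type := VF ⋊[actV] Equiv.Perm ℕ

private lemma b8_sw {a x : ℕ} (h1 : x ≠ a) (h2 : x ≠ a + 1) : Equiv.swap a (a + 1) x = x :=
  Equiv.swap_apply_of_ne_of_ne h1 h2

private lemma b8_comm (i j : ℕ) (h : i + 2 ≤ j) :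
    (⟨dl (i + 1) (i + 2), Equiv.swap i (i + 1)⟩ : LG) * ⟨dl (j + 1) (j + 2), Equiv.swap j (j + 1)⟩ =
      ⟨dl (j + 1) (j + 2), Equiv.swap j (j + 1)⟩ * ⟨dl (i + 1) (i + 2), Equiv.swap i (i + 1)⟩ := by
  refine SemidirectProduct.ext ?_ ?_
  · change dl (i + 1) (i + 2) * actV (Equiv.swap i (i + 1)) (dl (j + 1) (j + 2)) =
      dl (j + 1) (j + 2) * actV (Equiv.swap j (j + 1)) (dl (i + 1) (i + 2))
    rw [actV_dl, actV_dl, vx_succ, vx_succ, vx_succ, vx_succ,
      b8_sw (a := i) (x := j) (by omega) (by omega),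
      b8_sw (a := i) (x := j + 1) (by omega) (by omega),
      b8_sw (a := j) (x := i) (by omega) (by omega),
      b8_sw (a := j) (x := i + 1) (by omega) (by omega)]
    exact mul_comm _ _
  · exact (perm_relA j).comm i j h (by omega)

private lemma b8_braid (i : ℕ) :
    (⟨dl (i + 1) (i + 2), Equiv.swap i (i + 1)⟩ : LG) *
      ⟨dl (i + 1 + 1) (i + 1 + 2), Equiv.swap (i + 1) (i + 1 + 1)⟩ *
      ⟨dl (i + 1) (i + 2), Equiv.swap i (i + 1)⟩ =
    ⟨dl (i + 1 + 1) (i + 1 + 2), Equiv.swap (i + 1) (i + 1 + 1)⟩ *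
      ⟨dl (i + 1) (i + 2), Equiv.swap i (i + 1)⟩ *
      ⟨dl (i + 1 + 1) (i + 1 + 2), Equiv.swap (i + 1) (i + 1 + 1)⟩ := by
  refine SemidirectProduct.ext ?_ ?_
  · change dl (i + 1) (i + 1 + 1) * actV (Equiv.swap i (i + 1)) (dl (i + 1 + 1) (i + 1 + 1 + 1)) *
        actV (Equiv.swap i (i + 1) * Equiv.swap (i + 1) (i + 1 + 1)) (dl (i + 1) (i + 1 + 1)) =
      dl (i + 1 + 1) (i + 1 + 1 + 1) *
        actV (Equiv.swap (i + 1) (i + 1 + 1)) (dl (i + 1) (i + 1 + 1)) *
        actV (Equiv.swap (i + 1) (i + 1 + 1) * Equiv.swap i (i + 1))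
          (dl (i + 1 + 1) (i + 1 + 1 + 1))
    have e1 : Equiv.swap i (i + 1) (i + 1) = i := Equiv.swap_apply_right _ _
    have e2 : Equiv.swap i (i + 1) i = i + 1 := Equiv.swap_apply_left _ _
    have e3 : Equiv.swap (i + 1) (i + 1 + 1) (i + 1 + 1) = i + 1 := Equiv.swap_apply_right _ _
    have e4 : Equiv.swap (i + 1) (i + 1 + 1) (i + 1) = i + 1 + 1 := Equiv.swap_apply_left _ _
    have e5 : Equiv.swap i (i + 1) (i + 1 + 1) = i + 1 + 1 := b8_sw (by omega) (by omega)
    have e6 : Equiv.swap (i + 1) (i + 1 + 1) i = i := b8_sw (by omega) (by omega)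
    simp only [actV_dl, vx_succ, Equiv.Perm.mul_apply, e1, e2, e3, e4, e5, e6]
    rw [mul_comm (dl (i + 1 + 1) (i + 1 + 1 + 1)) (dl (i + 1) (i + 1 + 1 + 1)),
      mul_comm _ (dl (i + 1) (i + 1 + 1)), mul_assoc]
  · exact (perm_relA i).braid i (by omega)

private lemma b8_dcomm (i : ℕ) (h : 0 < i) :
    (⟨dl (i + 1) (i + 2), Equiv.swap i (i + 1)⟩ : LG) * ⟨dl 0 1, 1⟩ =
      ⟨dl 0 1, 1⟩ * ⟨dl (i + 1) (i + 2), Equiv.swap i (i + 1)⟩ := by
  refine SemidirectProduct.ext ?_ ?_
  · change dl (i + 1) (i + 2) * actV (Equiv.swap i (i + 1)) (dl 0 (0 + 1)) =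
      dl 0 1 * actV 1 (dl (i + 1) (i + 2))
    rw [actV_dl, vx_zero, vx_succ, b8_sw (a := i) (x := 0) (by omega) (by omega), map_one]
    exact mul_comm _ _
  · exact (mul_one _).trans (one_mul _).symm

private lemma b8_four :
    (⟨dl (0 + 1) (0 + 2), Equiv.swap 0 (0 + 1)⟩ : LG) * ⟨dl 0 1, 1⟩ *
      ⟨dl (0 + 1) (0 + 2), Equiv.swap 0 (0 + 1)⟩ * ⟨dl 0 1, 1⟩ =
    ⟨dl 0 1, 1⟩ * ⟨dl (0 + 1) (0 + 2), Equiv.swap 0 (0 + 1)⟩ * ⟨dl 0 1, 1⟩ *
      ⟨dl (0 + 1) (0 + 2), Equiv.swap 0 (0 + 1)⟩ := by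
  refine SemidirectProduct.ext ?_ ?_
  · change dl (0 + 1) (0 + 1 + 1) * actV (Equiv.swap 0 (0 + 1)) (dl 0 (0 + 1)) *
        actV (Equiv.swap 0 (0 + 1) * 1) (dl (0 + 1) (0 + 1 + 1)) *
        actV (Equiv.swap 0 (0 + 1) * 1 * Equiv.swap 0 (0 + 1)) (dl 0 (0 + 1)) =
      dl 0 (0 + 1) * actV 1 (dl (0 + 1) (0 + 1 + 1)) *
        actV (1 * Equiv.swap 0 (0 + 1)) (dl 0 (0 + 1)) *
        actV (1 * Equiv.swap 0 (0 + 1) * 1) (dl (0 + 1) (0 + 1 + 1))
    have e1 : Equiv.swap 0 (0 + 1) (0 + 1) = 0 := Equiv.swap_apply_right _ _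
    have e2 : Equiv.swap 0 (0 + 1) 0 = 0 + 1 := Equiv.swap_apply_left _ _
    rw [mul_one, one_mul, mul_one, map_one, MulAut.one_apply]
    simp only [actV_dl, vx_succ, vx_zero, Equiv.Perm.mul_apply, e1, e2]
    rw [mul_comm _ (dl 0 (0 + 1)), mul_assoc, mul_assoc, mul_assoc]
  · change Equiv.swap 0 (0 + 1) * 1 * Equiv.swap 0 (0 + 1) * 1 =
      1 * Equiv.swap 0 (0 + 1) * 1 * Equiv.swap 0 (0 + 1)
    rw [mul_one, mul_one, one_mul, mul_one]

/-- piece `BN-B8-1`: the relations.
Proof. `SemidirectProduct.ext`; the right components are `perm_relA`; the left component of a product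
`(f, σ) (g, τ)` is `f * actV σ g`; `actV_dl`. `comm`: `s_i` fixes `j+1, j+2`. `braid`: both sides give
`δ(i+1,i+2) δ(i+1,i+3) δ(i+2,i+3)`. `b` commutes with `a_{k-1}`: both have the same value. `d`, `a_j`
(`j ≥ 1`): `swap j (j+1)` fixes the strand `0`. `four`: both sides of `d a_0 d a_0 = a_0 d a_0 d` give
`δ(0,1) δ(0,2) δ(1,2) δ(2,1)`. (`VF` is commutative: `mul_comm`, `mul_left_comm`.) -/
theorem lk_rel (m : ℕ) : RelA m (fun j => (⟨dl (j + 1) (j + 2), Equiv.swap j (j + 1)⟩ : LG))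
    ⟨dl (m + 2) (m + 3), Equiv.swap (m + 1) (m + 2)⟩ ⟨dl 0 1, 1⟩ where
  comm i j h _ := b8_comm i j h
  braid i _ := b8_braid i
  dcomm i h _ := b8_dcomm i h
  four _ := b8_four
  ba := rfl
  bb := (b8_braid m).symm
  bc i h := (b8_comm i (m + 1) (by omega)).symm
  bd := b8_dcomm (m + 1) (by omega)

/-- the linking cocycle -/
def LK (m : ℕ) : A m →* LG := liftA (lk_rel m)

/-- piece `BN-B8-2`: the second component (`homA_ext`). -/
theorem LK_right (x : A m) : (LK m x).right = piA m x := by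
  have h : (SemidirectProduct.rightHom : LG →* Equiv.Perm ℕ).comp (LK m) = piA m := by
    refine homA_ext (fun j hj => ?_) ?_ ?_
    · have h1 : LK m (aA j) = ⟨dl (j + 1) (j + 2), Equiv.swap j (j + 1)⟩ := liftA_a _ hj
      have h2 : piA m (aA j) = Equiv.swap j (j + 1) := liftA_a _ hj
      rw [MonoidHom.comp_apply, h1, h2]
      rfl
    · have h1 : LK m bA = ⟨dl (m + 2) (m + 3), Equiv.swap (m + 1) (m + 2)⟩ := liftA_b _
      have h2 : piA m bA = Equiv.swap (m + 1) (m + 2) := liftA_b _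
      rw [MonoidHom.comp_apply, h1, h2]
      rfl
    · have h1 : LK m dA = ⟨dl 0 1, 1⟩ := liftA_d _
      have h2 : piA m dA = 1 := liftA_d _
      rw [MonoidHom.comp_apply, h1, h2]
      rfl
  exact DFunLike.congr_fun h x

/-- the linking functions of the elements of `P m` -/
def lkP (m : ℕ) : P m →* VF where
  toFun x := (LK m x.1).left
  map_one' := by
    change (LK m 1).left = 1
    rw [map_one]; rfl
  map_mul' x y := by
    change (LK m (x.1 * y.1)).left = _
    rw [map_mul, SemidirectProduct.mul_left, LK_right]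
    have h : piA m x.1 = 1 := x.2
    rw [h, map_one]; rfl

/-- piece `BN-B8-2`: the value at a conjugate (`SemidirectProduct`: `(f, σ) (g, 1) (f, σ)⁻¹ = (σ g, 1)`
since `VF` is commutative). -/
theorem lkP_conj (h : A m) (x : P m) (hx : h * x.1 * h⁻¹ ∈ P m) :
    lkP m ⟨h * x.1 * h⁻¹, hx⟩ = actV (piA m h) (lkP m x) := by
  change (LK m (h * x.1 * h⁻¹)).left = actV (piA m h) (LK m x.1).left
  have hx1 : piA m x.1 = 1 := x.2
  rw [map_mul, map_mul, map_inv, SemidirectProduct.mul_left, SemidirectProduct.mul_left,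
    SemidirectProduct.mul_right, SemidirectProduct.inv_left, LK_right, LK_right, hx1, mul_one]
  have e : actV (piA m h) (actV (piA m h)⁻¹ (LK m h).left⁻¹) = (LK m h).left⁻¹ := by
    rw [← MulAut.mul_apply, ← map_mul, mul_inv_cancel, map_one]
    rfl
  rw [e, mul_comm (LK m h).left, mul_inv_cancel_right]

/-- piece `BN-B8-2`: `LK (a_0²) = (δ(1,2) δ(2,1), 1)`, then `lkP_conj`, `actV_dl`. -/
theorem lkP_sq (h : A m) : lkP m (sqP h) = dl (piA m h 0 + 1) (piA m h 1 + 1) *
    dl (piA m h 1 + 1) (piA m h 0 + 1) := by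
  have hm : (aA 0 * aA 0 : A m) ∈ P m := by
    have h1 := sq_mem (1 : A m)
    rwa [one_mul, inv_one, mul_one] at h1
  have h0 := lkP_conj h ⟨aA 0 * aA 0, hm⟩ (sq_mem h)
  have h1 : LK m (aA 0) = ⟨dl 1 2, Equiv.swap 0 1⟩ := liftA_a _ (by omega)
  have h2 : lkP m ⟨aA 0 * aA 0, hm⟩ = dl 1 2 * dl 2 1 := by
    change (LK m (aA 0 * aA 0)).left = _
    rw [map_mul, h1, SemidirectProduct.mul_left]
    change dl 1 2 * actV (Equiv.swap 0 1) (dl 1 2) = _
    rw [actV_dl]
    congr 2
  have h3 : lkP m (sqP h) = actV (piA m h) (lkP m ⟨aA 0 * aA 0, hm⟩) := h0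
  rw [h3, h2, map_mul, actV_dl, actV_dl]
  rfl

/-- piece `BN-B8-2` -/
theorem lkP_d (h : A m) : lkP m (dP h) = dl 0 (piA m h 0 + 1) := by
  have hm : (dA : A m) ∈ P m := by
    have h1 := d_mem (1 : A m)
    rwa [one_mul, inv_one, mul_one] at h1
  have h1 : LK m dA = ⟨dl 0 1, 1⟩ := liftA_d _
  have h2 : lkP m ⟨dA, hm⟩ = dl 0 1 := by
    change (LK m dA).left = _
    rw [h1]
  have h3 : lkP m (dP h) = actV (piA m h) (lkP m ⟨dA, hm⟩) := lkP_conj h ⟨dA, hm⟩ (d_mem h)
  rw [h3, h2, actV_dl]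
  rfl

/-- piece `BN-B8-2`: `LK (b a_{k-1}⁻¹) = 1`. -/
theorem lkP_u (h : A m) : lkP m (uP h) = 1 := by
  have hm : (uA : A m) ∈ P m := by
    have h1 := u_mem (1 : A m)
    rwa [one_mul, inv_one, mul_one] at h1
  have h1 : LK m bA = ⟨dl (m + 2) (m + 3), Equiv.swap (m + 1) (m + 2)⟩ := liftA_b _
  have h1' : LK m (aA (m + 1)) = ⟨dl (m + 1 + 1) (m + 1 + 2), Equiv.swap (m + 1) (m + 1 + 1)⟩ :=
    liftA_a _ (by omega)
  have h2 : lkP m ⟨uA, hm⟩ = 1 := by
    change (LK m uA).left = 1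
    have h4 : LK m (uA : A m) = 1 := by
      unfold uA
      rw [map_mul, map_inv, h1, h1']
      exact mul_inv_cancel _
    rw [h4]
    rfl
  have h3 : lkP m (uP h) = actV (piA m h) (lkP m ⟨uA, hm⟩) := lkP_conj h ⟨uA, hm⟩ (u_mem h)
  rw [h3, h2, map_one]

/-- the linking number of the vertices `p` and `q` (`p < q` or both positive) -/
def lk (x : P m) (p q : ℕ) : ℤ := (lkP m x).toAdd p q

@[simp] lemma lk_one (p q : ℕ) : lk (1 : P m) p q = 0 := by unfold lk; rw [map_one]; rfl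
lemma lk_mul (x y : P m) (p q : ℕ) : lk (x * y) p q = lk x p q + lk y p q := by
  unfold lk; rw [map_mul]; rfl
lemma lk_inv (x : P m) (p q : ℕ) : lk x⁻¹ p q = - lk x p q := by
  unfold lk; rw [map_inv]; rfl

/-- the linking number as a homomorphism -/
def lkh (m p q : ℕ) : P m →* Multiplicative ℤ where
  toFun x := Multiplicative.ofAdd (lk x p q)
  map_one' := by rw [lk_one]; rfl
  map_mul' x y := by rw [lk_mul]; rfl

lemma lk_pow (x : P m) (e : ℤ) (p q : ℕ) : lk (x ^ e) p q = e * lk x p q := by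
  have h : lkh m p q (x ^ e) = lkh m p q x ^ e := map_zpow _ _ _
  have h1 := congrArg Multiplicative.toAdd h
  rw [toAdd_zpow, smul_eq_mul] at h1
  exact h1

lemma lk_conj' (x y : P m) (p q : ℕ) : lk (y * x * y⁻¹) p q = lk x p q := by
  rw [lk_mul, lk_mul, lk_inv]; ring

/-- piece `BN-B8-3`: `(lkP_conj)` the linking numbers of a conjugate -/
theorem lk_conj (h : A m) (x : P m) (hx : h * x.1 * h⁻¹ ∈ P m) (p q : ℕ) :
    lk ⟨h * x.1 * h⁻¹, hx⟩ (vx (piA m h) p) (vx (piA m h) q) = lk x p q := by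
  unfold lk
  rw [lkP_conj, actV_apply]
  simp

/-- piece `BN-B8-3`: the linking number of two strands is symmetric (`P_hom_ext` for `lkh m p q` and
`lkh m q p`, `p, q ≥ 1`; `lkP_sq`, `lkP_d`, `lkP_u`). -/
theorem lk_symm (x : P m) (p q : ℕ) : lk x (p + 1) (q + 1) = lk x (q + 1) (p + 1) := by
  have h : lkh m (p + 1) (q + 1) = lkh m (q + 1) (p + 1) := by
    refine P_hom_ext (fun h => ?_) (fun h => ?_) (fun h => ?_)
    · change Multiplicative.ofAdd ((lkP m (sqP h)).toAdd (p + 1) (q + 1)) =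
        Multiplicative.ofAdd ((lkP m (sqP h)).toAdd (q + 1) (p + 1))
      rw [lkP_sq]
      have e : ∀ i j a b : ℕ, (dl i j * dl j i).toAdd a b =
          (if a = i ∧ b = j then (1 : ℤ) else 0) + (if a = j ∧ b = i then (1 : ℤ) else 0) :=
        fun _ _ _ _ => rfl
      rw [e, e]
      congr 1
      split_ifs <;> first | rfl | omega
    · change Multiplicative.ofAdd ((lkP m (dP h)).toAdd (p + 1) (q + 1)) =
        Multiplicative.ofAdd ((lkP m (dP h)).toAdd (q + 1) (p + 1))
      rw [lkP_d]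
      have e : ∀ i a b : ℕ, (dl 0 i).toAdd (a + 1) (b + 1) = 0 := by
        intro i a b
        change (if a + 1 = 0 ∧ b + 1 = i then (1 : ℤ) else 0) = 0
        rw [if_neg (by omega)]
      rw [e, e]
    · change Multiplicative.ofAdd ((lkP m (uP h)).toAdd (p + 1) (q + 1)) =
        Multiplicative.ofAdd ((lkP m (uP h)).toAdd (q + 1) (p + 1))
      rw [lkP_u]
      rfl
  exact congrArg Multiplicative.toAdd (DFunLike.congr_fun h x)

private lemma b84_ind (c : ℕ → ℕ → ℤ) (M i j : ℕ) (hi : i < M) (hj : j < M) :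
    (∑ p ∈ Finset.range M, ∑ q ∈ Finset.range M,
      if p < q then (if p = i ∧ q = j then (1 : ℤ) else 0) * c p q else 0) =
      if i < j then c i j else 0 := by
  rw [Finset.sum_eq_single i, Finset.sum_eq_single j]
  · simp
  · intro q _ hq
    by_cases h : i < q
    · rw [if_pos h, if_neg (fun h1 => hq h1.2), zero_mul]
    · rw [if_neg h]
  · intro h
    exact absurd (Finset.mem_range.2 hj) h
  · intro p _ hp
    refine Finset.sum_eq_zero fun q _ => ?_
    by_cases h : p < q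
    · rw [if_pos h, if_neg (fun h1 => hp h1.1), zero_mul]
    · rw [if_neg h]
  · intro h
    exact absurd (Finset.mem_range.2 hi) h

private def b84_hom (c : ℕ → ℕ → ℤ) (m : ℕ) : P m →* Multiplicative ℤ where
  toFun x := Multiplicative.ofAdd (∑ p ∈ Finset.range (m + 4), ∑ q ∈ Finset.range (m + 4),
      if p < q then lk x p q * c p q else 0)
  map_one' := by
    rw [← ofAdd_zero]
    congr 1
    refine Finset.sum_eq_zero fun p _ => Finset.sum_eq_zero fun q _ => ?_
    rw [lk_one, zero_mul, ite_self]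
  map_mul' x y := by
    rw [← ofAdd_add]
    congr 1
    rw [← Finset.sum_add_distrib]
    refine Finset.sum_congr rfl fun p _ => ?_
    rw [← Finset.sum_add_distrib]
    refine Finset.sum_congr rfl fun q _ => ?_
    by_cases h : p < q
    · rw [if_pos h, if_pos h, if_pos h, lk_mul, add_mul]
    · rw [if_neg h, if_neg h, if_neg h, add_zero]

private lemma b84_eval (c : ℕ → ℕ → ℤ) (m : ℕ) (x : P m) :
    b84_hom c m x = Multiplicative.ofAdd (∑ p ∈ Finset.range (m + 4),
      ∑ q ∈ Finset.range (m + 4), if p < q then lk x p q * c p q else 0) := rfl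

/-- piece `BN-B8-4`: every homomorphism to `ℤ` is a combination of linking numbers.
Proof. Both sides are homomorphisms in `x`: define the right hand side as a product over
`Finset.range (m+4)` of the homomorphisms `(zpowGroupHom (toAdd (vW v p q))).comp (lkh m p q)` (or prove
the additivity directly with `lk_mul` and `Finset.sum_add_distrib`). `P_hom_ext`: at `sqP h`:
`i = π h 0 + 1`, `j = π h 1 + 1`, `i ≠ j`, `i, j ≤ m + 3` (`piA_le`): the only nonzero term is that of
`{p, q} = {i, j}`, `p < q`, with the coefficient `1` (`lkP_sq`) and `vW v p q = vE .. = v (sqP h)`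
(`vE_eq`, `vW_symm`); at `dP h`: the only nonzero term is `p = 0`, `q = π h 0 + 1` (`lkP_d`, `vZ_eq`);
at `uP h`: `v_u`, `lkP_u`. -/
theorem lk_expand (hm : 1 ≤ m) (v : P m →* Multiplicative ℤ) (x : P m) :
    (v x).toAdd = ∑ p ∈ Finset.range (m + 4), ∑ q ∈ Finset.range (m + 4),
      if p < q then lk x p q * (vW v p q).toAdd else 0 := by
  have key : v = b84_hom (fun p q => (vW v p q).toAdd) m := by
    refine P_hom_ext (fun h => ?_) (fun h => ?_) (fun h => ?_)
    · have hi : piA m h 0 ≤ m + 2 := piA_le h (by omega)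
      have hj : piA m h 1 ≤ m + 2 := piA_le h (by omega)
      have hne : piA m h 0 ≠ piA m h 1 := fun e => by
        have := (piA m h).injective e
        omega
      rw [b84_eval, vE_eq hm v h]
      have e0 : vE v (piA m h 0) (piA m h 1) = vW v (piA m h 0 + 1) (piA m h 1 + 1) := rfl
      rw [e0]
      have e1 : ∀ p q, lk (sqP h) p q =
          (if p = piA m h 0 + 1 ∧ q = piA m h 1 + 1 then (1 : ℤ) else 0) +
            (if p = piA m h 1 + 1 ∧ q = piA m h 0 + 1 then (1 : ℤ) else 0) := by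
        intro p q
        unfold lk
        rw [lkP_sq]
        rfl
      have e2 : (∑ p ∈ Finset.range (m + 4), ∑ q ∈ Finset.range (m + 4),
          if p < q then lk (sqP h) p q * (vW v p q).toAdd else 0) =
          (if piA m h 0 + 1 < piA m h 1 + 1 then
            (vW v (piA m h 0 + 1) (piA m h 1 + 1)).toAdd else 0) +
          (if piA m h 1 + 1 < piA m h 0 + 1 then
            (vW v (piA m h 1 + 1) (piA m h 0 + 1)).toAdd else 0) := by
        rw [← b84_ind (fun p q => (vW v p q).toAdd) (m + 4) (piA m h 0 + 1) (piA m h 1 + 1)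
            (by omega) (by omega),
          ← b84_ind (fun p q => (vW v p q).toAdd) (m + 4) (piA m h 1 + 1) (piA m h 0 + 1)
            (by omega) (by omega), ← Finset.sum_add_distrib]
        refine Finset.sum_congr rfl fun p _ => ?_
        rw [← Finset.sum_add_distrib]
        refine Finset.sum_congr rfl fun q _ => ?_
        by_cases hpq : p < q
        · rw [if_pos hpq, if_pos hpq, if_pos hpq, e1, add_mul]
        · rw [if_neg hpq, if_neg hpq, if_neg hpq, add_zero]
      rw [e2]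
      rcases lt_or_gt_of_ne hne with hlt | hgt
      · rw [if_pos (by omega), if_neg (by omega), add_zero]
        rfl
      · rw [if_neg (by omega), if_pos (by omega), zero_add, vW_symm hm v]
        rfl
    · have hi : piA m h 0 ≤ m + 2 := piA_le h (by omega)
      rw [b84_eval, vZ_eq hm v h]
      have e0 : vZ v (piA m h 0) = vW v 0 (piA m h 0 + 1) := rfl
      rw [e0]
      have e1 : ∀ p q, lk (dP h) p q =
          (if p = 0 ∧ q = piA m h 0 + 1 then (1 : ℤ) else 0) := by
        intro p q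
        unfold lk
        rw [lkP_d]
        rfl
      have e2 : (∑ p ∈ Finset.range (m + 4), ∑ q ∈ Finset.range (m + 4),
          if p < q then lk (dP h) p q * (vW v p q).toAdd else 0) =
          (vW v 0 (piA m h 0 + 1)).toAdd := by
        have e3 := b84_ind (fun p q => (vW v p q).toAdd) (m + 4) 0 (piA m h 0 + 1)
            (by omega) (by omega)
        rw [if_pos (by omega)] at e3
        rw [← e3]
        refine Finset.sum_congr rfl fun p _ => Finset.sum_congr rfl fun q _ => ?_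
        rw [e1]
      rw [e2]
      rfl
    · rw [b84_eval, v_u hm v h]
      have e1 : ∀ p q, lk (uP h) p q = 0 := by
        intro p q
        unfold lk
        rw [lkP_u]
        rfl
      rw [← ofAdd_zero]
      congr 1
      symm
      refine Finset.sum_eq_zero fun p _ => Finset.sum_eq_zero fun q _ => ?_
      rw [e1, zero_mul, ite_self]
  have h1 := DFunLike.congr_fun key x
  rw [h1]
  rfl

/-- piece `BN-B8-4`: for homomorphisms that vanish on the puncture edges and elements whose linking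
numbers of pairs of strands are all equal to `c`: `v x = c * v y` if those of `y` are `1`; in the form
used: if all the linking numbers of the pairs of strands of `x` are `c` times those of `y` then
`v x = (v y)^c`. Proof: `lk_expand` for `x` and `y`, the terms with `p = 0` vanish. -/
theorem v_prop (hm : 1 ≤ m) (v : P m →* Multiplicative ℤ)
    (hv : ∀ j, j ≤ m + 2 → vW v 0 (j + 1) = 1) {x y : P m} {c : ℤ}
    (h : ∀ p q, p ≤ m + 2 → q ≤ m + 2 → p ≠ q → lk x (p + 1) (q + 1) = c * lk y (p + 1) (q + 1)) :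
    v x = v y ^ c := by
  apply Multiplicative.toAdd.injective
  rw [toAdd_zpow, smul_eq_mul, lk_expand hm v x, lk_expand hm v y, Finset.mul_sum]
  refine Finset.sum_congr rfl fun p hp => ?_
  rw [Finset.mul_sum]
  refine Finset.sum_congr rfl fun q hq => ?_
  rw [Finset.mem_range] at hp hq
  by_cases hpq : p < q
  · rw [if_pos hpq, if_pos hpq]
    obtain ⟨q', rfl⟩ : ∃ q', q = q' + 1 := ⟨q - 1, by omega⟩
    cases p with
    | zero =>
      rw [hv q' (by omega), toAdd_one, mul_zero, mul_zero, mul_zero]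
    | succ p' =>
      rw [h p' q' (by omega) (by omega) (by omega), mul_assoc]
  · rw [if_neg hpq, if_neg hpq, mul_zero]

end Pool.Agent.Helper38.BN
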