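import Pool.Agent.Helper38.BN.D0
import Pool.Agent.Helper38.BN.D1
import Pool.Agent.Helper38.BN.IntP
import Pool.Agent.Helper38.BN.IntC
import Pool.Agent.Helper54.BN.E2

/-!
# Project BN, block B8: the dichotomy
-/

namespace Pool.Agent.Helper38.BN

variable {m k : ℕ} {V : Type*} [CommGroup V]

/-- `inc` on the pure subgroups -/
def iP (m : ℕ) : PH (m + 2) →* P m where
  toFun h := ⟨inc m h.1, inc_mem_P.2 h.2⟩
  map_one' := Subtype.ext (map_one (inc m))
  map_mul' x y := Subtype.ext (map_mul (inc m) x.1 y.1)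

/-- `fold` on the pure subgroups -/
def fP (m : ℕ) : P m →* PH (m + 2) where
  toFun x := ⟨fold m x.1, fold_mem_PH.2 x.2⟩
  map_one' := Subtype.ext (map_one (fold m))
  map_mul' x y := Subtype.ext (map_mul (fold m) x.1 y.1)

@[simp] lemma fP_iP (h : PH (m + 2)) : fP m (iP m h) = h := Subtype.ext (fold_inc h.1)

/-- `F k → PH k` -/
def zP (k : ℕ) : F k →* PH k where
  toFun x := ⟨zH k x, piH_zH x⟩
  map_one' := Subtype.ext (map_one (zH k))
  map_mul' x y := Subtype.ext (map_mul (zH k) x y)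

/-- piece `BN-B8-6`: `ζ` is pure: `inc ζ = ζ = nA r ∈ P m` (`inc_zeta`, `nA_r`, `nA_mem_P`, `inc_mem_P`). -/
theorem zeH_mem (m : ℕ) : zeH (m + 2) ∈ PH (m + 2) := by
  rw [← inc_mem_P, inc_zeta, ← nA_r]
  exact nA_mem_P _

/-- `ζ` as an element of `PH` -/
def ztP (m : ℕ) : PH (m + 2) := ⟨zeH (m + 2), zeH_mem m⟩

/-- the restriction of an automorphism with `π φ = π` to the pure subgroup -/
def aP (φ : MulAut (HB k)) (hπ : ∀ x, piH k (φ x) = piH k x) : PH k →* PH k where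
  toFun h := ⟨φ h.1, by
    have h1 : piH k h.1 = 1 := h.2
    change piH k (φ h.1) = 1
    rw [hπ, h1]⟩
  map_one' := Subtype.ext (map_one φ)
  map_mul' x y := Subtype.ext (map_mul φ x.1 y.1)

/-- piece `BN-B8-6`: `h = φ (φ⁻¹ h)` and `π (φ⁻¹ h) = π h`. -/
theorem aP_surj (φ : MulAut (HB k)) (hπ : ∀ x, piH k (φ x) = piH k x) :
    Function.Surjective (aP φ hπ) := by
  intro h
  have h0 : φ (φ⁻¹ h.1) = h.1 := MulAut.apply_inv_self _ _ _
  have h1 : φ⁻¹ h.1 ∈ PH k := by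
    change piH k (φ⁻¹ h.1) = 1
    rw [← hπ, h0]
    exact h.2
  exact ⟨⟨φ⁻¹ h.1, h1⟩, Subtype.ext h0⟩

/-- piece `BN-B8-6`: `fold (h d h⁻¹) = h' d h'⁻¹ = zH (Chi h' z_0)` (`h' = fold h`, `zH_conj`),
`Chi h' z_0 = c z_i c⁻¹`, `i = π h 0` (`Helper54.BN.chi_z_conj`, `piH_fold`). -/
theorem fP_d (h : A m) : ∃ y : PH (m + 2), fP m (dP h) = y * zP (m + 2) (zF (piA m h 0)) * y⁻¹ := by
  obtain ⟨-, c, hc⟩ := Helper54.BN.chi_z_conj (fold m h) (Nat.zero_le (m + 2))
  rw [piH_fold] at hc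
  refine ⟨zP (m + 2) c, Subtype.ext ?_⟩
  change fold m (h * dA * h⁻¹) = zH (m + 2) c * zH (m + 2) (zF (piA m h 0)) * (zH (m + 2) c)⁻¹
  have hd : fold m dA = zH (m + 2) (zF 0) := by
    unfold fold zH
    rw [liftA_d, liftF_z _ (Nat.zero_le (m + 2))]
    rfl
  rw [map_mul, map_mul, map_inv, hd, zH_conj, hc, map_mul, map_mul, map_inv]

/-- piece `BN-B8-6`: the value at the puncture edge `{0, j + 1}` is `v z_j` (`vZ_eq` for `h` with
`π h 0 = j` (`exists_perm` or `exists_three`), `fP_d`, `V` commutative). -/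
theorem vW_zero (hm : 1 ≤ m) (v : PH (m + 2) →* V) {j : ℕ} (hj : j ≤ m + 2) :
    vW (v.comp (fP m)) 0 (j + 1) = v (zP (m + 2) (zF j)) := by
  obtain ⟨h, hh⟩ := exists_perm (m := m) (Equiv.swap 0 j)
    (fun i hi => Equiv.swap_apply_of_ne_of_ne (by omega) (by omega))
  have h0 : piA m h 0 = j := by rw [hh, Equiv.swap_apply_left]
  have h1 := vZ_eq hm (v.comp (fP m)) h
  rw [h0] at h1
  obtain ⟨y, hy⟩ := fP_d h
  rw [h0] at hy
  change vZ (v.comp (fP m)) j = _
  rw [← h1, MonoidHom.comp_apply, hy, map_mul, map_mul, map_inv, mul_inv_cancel_comm]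

/-- piece `BN-B8-7`: the linking numbers of `φ z_i`: equivariance.
Proof. `h z_i h⁻¹ = zH (Chi h z_i) = (zH c) z_{σ i} (zH c)⁻¹`, `σ = π h` (`zH_conj`, `chi_z_conj`), so
`φ z_{σ i} = φ(zH c)⁻¹ φ(h) φ(z_i) φ(h)⁻¹ φ(zH c)`, `φ (zH c)` is pure (`lk_conj'`), and `lk_conj` for
`inc (φ h)`, whose permutation is `π (φ h) = σ` (`piA_inc`). -/
theorem coef_equiv (φ : MulAut (HB (m + 2))) (hπ : ∀ x, piH (m + 2) (φ x) = piH (m + 2) x)
    (h : HB (m + 2)) {i : ℕ} (hi : i ≤ m + 2) (p q : ℕ) :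
    lk (iP m (aP φ hπ (zP (m + 2) (zF (piH (m + 2) h i))))) (vx (piH (m + 2) h) p)
      (vx (piH (m + 2) h) q) = lk (iP m (aP φ hπ (zP (m + 2) (zF i)))) p q := by
  obtain ⟨-, c, hc⟩ := Helper54.BN.chi_z_conj h hi
  have h1 : piA m (inc m (φ h)) = piH (m + 2) h := by rw [piA_inc, hπ]
  have e : zH (m + 2) c * zH (m + 2) (zF (piH (m + 2) h i)) * (zH (m + 2) c)⁻¹ =
      h * zH (m + 2) (zF i) * h⁻¹ := by
    rw [zH_conj h, hc, map_mul, map_mul, map_inv]
  have hx : inc m (φ h) * (iP m (aP φ hπ (zP (m + 2) (zF i)))).1 * (inc m (φ h))⁻¹ ∈ P m := by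
    have h2 : piA m (iP m (aP φ hπ (zP (m + 2) (zF i)))).1 = 1 :=
      (iP m (aP φ hπ (zP (m + 2) (zF i)))).2
    change piA m _ = 1
    rw [map_mul, map_mul, map_inv, h2, mul_one, mul_inv_cancel]
  have key : iP m (aP φ hπ (zP (m + 2) c)) *
      iP m (aP φ hπ (zP (m + 2) (zF (piH (m + 2) h i)))) *
      (iP m (aP φ hπ (zP (m + 2) c)))⁻¹ =
      ⟨inc m (φ h) * (iP m (aP φ hπ (zP (m + 2) (zF i)))).1 * (inc m (φ h))⁻¹, hx⟩ := by
    apply Subtype.ext
    change inc m (φ (zH (m + 2) c)) * inc m (φ (zH (m + 2) (zF (piH (m + 2) h i)))) *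
      (inc m (φ (zH (m + 2) c)))⁻¹ = inc m (φ h) * inc m (φ (zH (m + 2) (zF i))) *
      (inc m (φ h))⁻¹
    have e' := congrArg (fun t => inc m (φ t)) e
    simpa only [map_mul, map_inv] using e'
  rw [← lk_conj' _ (iP m (aP φ hπ (zP (m + 2) c))), key, ← h1]
  exact lk_conj _ _ hx p q

/-- the linking numbers of the pairs of strands of the elements `φ z_i` -/
def Coef (φ : MulAut (HB (m + 2))) (hπ : ∀ x, piH (m + 2) (φ x) = piH (m + 2) x) (z t : ℤ) : Prop :=
  ∀ i j l, i ≤ m + 2 → j ≤ m + 2 → l ≤ m + 2 → j ≠ l →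
    lk (iP m (aP φ hπ (zP (m + 2) (zF i)))) (j + 1) (l + 1) = if i = j ∨ i = l then z else t

/-- piece `BN-B8-8`: Proof. `z` := the value for `(i, j, l) = (0, 0, 1)`, `t` := for `(0, 1, 2)`. For
`i = j ≠ l` take `h ∈ A m` with `π h (0, 1) = (i, l)` (`exists_three` with a third strand) and
`coef_equiv` for `fold h` (`piH_fold`); `i = l ≠ j`: `lk_symm`; `i, j, l` different: `exists_three`. -/
theorem exists_coef (hm : 1 ≤ m) (φ : MulAut (HB (m + 2)))
    (hπ : ∀ x, piH (m + 2) (φ x) = piH (m + 2) x) : ∃ z t : ℤ, Coef φ hπ z t := by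
  set L : ℕ → ℕ → ℕ → ℤ := fun i p q => lk (iP m (aP φ hπ (zP (m + 2) (zF i)))) (p + 1) (q + 1)
    with hL
  have hsymm : ∀ i p q, L i p q = L i q p := fun i p q => lk_symm _ _ _
  have key : ∀ (h : A m) (i p q : ℕ), i ≤ m + 2 →
      L (piA m h i) (piA m h p) (piA m h q) = L i p q := by
    intro h i p q hi
    have h1 := coef_equiv φ hπ (fold m h) hi (p + 1) (q + 1)
    rw [piH_fold] at h1
    exact h1
  have hz : ∀ i l, i ≤ m + 2 → l ≤ m + 2 → i ≠ l → L i i l = L 0 0 1 := by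
    intro i l hi hl hil
    obtain ⟨r, hr, hir, hlr⟩ : ∃ r, r ≤ m + 2 ∧ i ≠ r ∧ l ≠ r := by
      by_cases h0 : i ≠ 0 ∧ l ≠ 0
      · exact ⟨0, by omega, h0.1, h0.2⟩
      · by_cases h1 : i ≠ 1 ∧ l ≠ 1
        · exact ⟨1, by omega, h1.1, h1.2⟩
        · exact ⟨2, by omega, by omega, by omega⟩
    obtain ⟨h, e0, e1, -⟩ := exists_three (m := m) hi hl hr hil hir hlr
    have := key h 0 0 1 (by omega)
    rw [e0, e1] at this
    exact this
  have ht : ∀ i j l, i ≤ m + 2 → j ≤ m + 2 → l ≤ m + 2 → i ≠ j → i ≠ l → j ≠ l →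
      L i j l = L 0 1 2 := by
    intro i j l hi hj hl hij hil hjl
    obtain ⟨h, e0, e1, e2'⟩ := exists_three (m := m) hi hj hl hij hil hjl
    have := key h 0 1 2 (by omega)
    rw [e0, e1, e2'] at this
    exact this
  refine ⟨L 0 0 1, L 0 1 2, ?_⟩
  intro i j l hi hj hl hjl
  change L i j l = _
  by_cases hij : i = j
  · subst hij
    rw [if_pos (Or.inl rfl)]
    exact hz i l hi hl hjl
  · by_cases hil : i = l
    · subst hil
      rw [if_pos (Or.inr rfl), hsymm]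
      exact hz i j hi hj hij
    · rw [if_neg (by tauto)]
      exact ht i j l hi hj hl hij hil hjl

/-- piece `BN-B8-9`: the linking numbers of `F` vanish for the pairs of strands: for `x = z_i` it is a
conjugate of `d` (`fP_d`, `lkP_d`; `iP (fP (dP h)) `... directly: `inc (zH z_i)` is a conjugate of `d` in
`A m`: `zz`); in general a homomorphism in `x`. -/
theorem lk_zH (x : F (m + 2)) (p q : ℕ) : lk (iP m (zP (m + 2) x)) (p + 1) (q + 1) = 0 := by
  have hz : ∀ i, zz (aH : ℕ → HB (m + 2)) dH i = (kap aH i)⁻¹ * dH * kap aH i := by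
    intro i
    induction i with
    | zero =>
      change dH = (1 : HB (m + 2))⁻¹ * dH * 1
      rw [inv_one, one_mul, mul_one]
    | succ i ih =>
      change (aH i)⁻¹ * zz aH dH i * aH i = (kap aH i * aH i)⁻¹ * dH * (kap aH i * aH i)
      rw [ih, mul_inv_rev]
      simp only [mul_assoc]
  have key : (lkh m (p + 1) (q + 1)).comp ((iP m).comp (zP (m + 2))) = 1 := by
    refine homF_ext fun i hi => ?_
    have e1 : iP m (zP (m + 2) (zF i)) = dP (inc m (kap aH i))⁻¹ := by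
      apply Subtype.ext
      change inc m (zH (m + 2) (zF i)) = (inc m (kap aH i))⁻¹ * dA * (inc m (kap aH i))⁻¹⁻¹
      have h1 : zH (m + 2) (zF i) = zz aH dH i := liftF_z _ hi
      have h2 : inc m dH = dA := liftH_d _
      rw [h1, hz, map_mul, map_mul, map_inv, h2, inv_inv]
    change Multiplicative.ofAdd (lk (iP m (zP (m + 2) (zF i))) (p + 1) (q + 1)) = 1
    rw [e1]
    unfold lk
    rw [lkP_d]
    rfl
  have h1 := DFunLike.congr_fun key x
  exact congrArg Multiplicative.toAdd h1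

/-- piece `BN-B8-9`: the linking numbers of `ζ`: all pairs of strands have the same value, and it is not
`0`. Proof. `ζ` is central in `HB`, so `lk_conj` (for `h = inc h'`, `exists_three`, `fold`) gives the
equality. If it is `0`: `lk_expand` for `v :=` the first coordinate of `ab m` restricted to `P m`
(`vW v 0 (j+1) = 1`, as `ab d = (0, 1)`) gives `v ζ = 0`, but `ab ζ = ((k+1) k, k+1)` (`nA_r`, `ab_nA`, or
`map_zeta`). -/
theorem lk_zeta (hm : 1 ≤ m) : ∃ c : ℤ, c ≠ 0 ∧ ∀ p q, p ≤ m + 2 → q ≤ m + 2 → p ≠ q →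
    lk (iP m (ztP m)) (p + 1) (q + 1) = c := by
  have heq : ∀ p q, p ≤ m + 2 → q ≤ m + 2 → p ≠ q →
      lk (iP m (ztP m)) (p + 1) (q + 1) = lk (iP m (ztP m)) 1 2 := by
    intro p q hp hq hpq
    obtain ⟨r, hr, hpr, hqr⟩ : ∃ r, r ≤ m + 2 ∧ p ≠ r ∧ q ≠ r := by
      by_cases h0 : p ≠ 0 ∧ q ≠ 0
      · exact ⟨0, by omega, h0.1, h0.2⟩
      · by_cases h1 : p ≠ 1 ∧ q ≠ 1
        · exact ⟨1, by omega, h1.1, h1.2⟩
        · exact ⟨2, by omega, by omega, by omega⟩
    obtain ⟨h, h1, h2, -⟩ := exists_three (m := m) hp hq hr hpq hpr hqr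
    have hpi : piA m (inc m (fold m h)) = piA m h := by rw [piA_inc, piH_fold]
    have hc : inc m (fold m h) * (iP m (ztP m)).1 * (inc m (fold m h))⁻¹ = (iP m (ztP m)).1 := by
      change inc m (fold m h) * inc m (zeH (m + 2)) * (inc m (fold m h))⁻¹ = inc m (zeH (m + 2))
      rw [← map_mul, zeH_comm, map_mul, mul_inv_cancel_right]
    have hx : inc m (fold m h) * (iP m (ztP m)).1 * (inc m (fold m h))⁻¹ ∈ P m := by
      rw [hc]
      exact (iP m (ztP m)).2
    have h3 := lk_conj (inc m (fold m h)) (iP m (ztP m)) hx 1 2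
    have e1 : (⟨_, hx⟩ : P m) = iP m (ztP m) := Subtype.ext hc
    rw [e1, hpi] at h3
    have e2 : vx (piA m h) 1 = p + 1 := by
      change piA m h 0 + 1 = p + 1
      rw [h1]
    have e3 : vx (piA m h) 2 = q + 1 := by
      change piA m h 1 + 1 = q + 1
      rw [h2]
    rw [e2, e3] at h3
    exact h3
  refine ⟨lk (iP m (ztP m)) 1 2, fun h0 => ?_, heq⟩
  -- the first exponent as a homomorphism
  let f1 : Multiplicative (ℤ × ℤ) →* Multiplicative ℤ :=
    AddMonoidHom.toMultiplicative (AddMonoidHom.fst ℤ ℤ)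
  let v : P m →* Multiplicative ℤ := (f1.comp (ab m)).comp (P m).subtype
  have hvd : ∀ j, j ≤ m + 2 → vW v 0 (j + 1) = 1 := by
    intro j hj
    obtain ⟨h, hh⟩ := exists_perm (m := m) (Equiv.swap 0 j) (fun i hi =>
      Equiv.swap_apply_of_ne_of_ne (by omega) (by omega))
    have h1 : piA m h 0 = j := by rw [hh, Equiv.swap_apply_left]
    change vZ v j = 1
    rw [← h1, ← vZ_eq hm v h]
    change f1 (ab m (h * dA * h⁻¹)) = 1
    have h2 : ab m dA = Multiplicative.ofAdd ((0, 1) : ℤ × ℤ) := by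
      unfold ab
      exact liftA_d _
    have h3 : ab m (h * dA * h⁻¹) = ab m dA := by
      rw [map_mul, map_mul, map_inv, mul_right_comm, mul_inv_cancel, one_mul]
    rw [h3, h2]
    rfl
  have hz : v (iP m (ztP m)) = 1 := by
    have h1 := lk_expand hm v (iP m (ztP m))
    have h2 : (v (iP m (ztP m))).toAdd = 0 := by
      rw [h1]
      refine Finset.sum_eq_zero fun p hp => Finset.sum_eq_zero fun q hq => ?_
      rw [Finset.mem_range] at hp hq
      split_ifs with hpq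
      · obtain ⟨q, rfl⟩ : ∃ q', q = q' + 1 := ⟨q - 1, by omega⟩
        rcases Nat.eq_zero_or_pos p with rfl | hp0
        · rw [hvd q (by omega)]
          exact mul_zero _
        · obtain ⟨p, rfl⟩ : ∃ p', p = p' + 1 := ⟨p - 1, by omega⟩
          rw [heq p q (by omega) (by omega) (by omega), h0, zero_mul]
      · rfl
    exact congrArg Multiplicative.ofAdd h2
  have hxw : ∀ j, liftG (k := m + 2) (fun _ => (1 : Multiplicative (ℤ × ℤ)))
      (fun _ _ => one_mul 1)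
      (Multiplicative.ofAdd ((((m + 3) * (m + 2) : ℕ) : ℤ), ((m + 3 : ℕ) : ℤ))) (xw j) = 1 := by
    have hx : ∀ i, liftG (k := m + 2) (fun _ => (1 : Multiplicative (ℤ × ℤ)))
        (fun _ _ => one_mul 1)
        (Multiplicative.ofAdd ((((m + 3) * (m + 2) : ℕ) : ℤ), ((m + 3 : ℕ) : ℤ))) (xG i) = 1 := by
      intro i
      by_cases h : i ≤ m + 2
      · rw [liftG_x _ _ _ h]
      · rw [xG_ge (by omega), map_one]
    intro j
    induction j with
    | zero => exact hx 0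
    | succ j ih =>
      change liftG (k := m + 2) _ _ _ (xw j * xG (j + 1)) = 1
      rw [map_mul, ih, hx, mul_one]
  have hab : ab m (zeA m) =
      Multiplicative.ofAdd ((((m + 3) * (m + 2) : ℕ) : ℤ), ((m + 3 : ℕ) : ℤ)) := by
    rw [← nA_r, ab_nA]
    change liftG _ _ _ (yG * xw (m + 2)) = _
    rw [map_mul, hxw, mul_one, liftG_y]
  have h3 : f1 (ab m (inc m (zeH (m + 2)))) = 1 := hz
  rw [inc_zeta, hab] at h3
  have h4 : (((m + 3) * (m + 2) : ℕ) : ℤ) = 0 := congrArg Multiplicative.toAdd h3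
  have h5 : (m + 3) * (m + 2) = 0 := by exact_mod_cast h4
  have h6 : 0 < (m + 3) * (m + 2) := by positivity
  omega

/-- piece `BN-B8-10`: the values of `fF`: puncture edges (`vW_zero`, `fF_z`). -/
theorem fF_W0 (hm : 1 ≤ m) {j : ℕ} (hj : j ≤ m + 2) :
    vW (e2.comp ((fF m).comp (fP m))) 0 (j + 1) = 1 := by
  have h := vW_zero hm (e2.comp (fF m)) hj
  rw [MonoidHom.comp_assoc] at h
  rw [h, MonoidHom.comp_apply, fF_z m (zP (m + 2) (zF j)) (x := zF j) rfl, map_one]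

private lemma w1_zz (K : Type*) [Group K] (a : ℕ → K) (d : K) (l : ℕ) :
    zz a d l = (kap a l)⁻¹ * d * kap a l := by
  induction l with
  | zero => simp [zz, kap]
  | succ l ih =>
    rw [zz, kap, ih]
    group

private lemma w1_pi (k l : ℕ) (hl : l ≤ k) : piH k (kap aH l) l = 0 := by
  induction l with
  | zero => rw [kap, map_one]; rfl
  | succ l ih =>
    have h1 : piH k (aH l) = Equiv.swap l (l + 1) := liftH_a _ (by omega)
    rw [kap, map_mul, h1, Equiv.Perm.mul_apply, Equiv.swap_apply_right]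
    exact ih (by omega)

private lemma w1_k01 {l : ℕ} (hl : l ≤ m + 1) :
    e2 (k01 (m + 1) (zF l)) = if l = 0 then Multiplicative.ofAdd (1, 0) else
        if l = 1 then Multiplicative.ofAdd (0, 1) else 1 := by
  unfold k01
  rw [liftF_z _ hl]
  by_cases h0 : l = 0
  · subst h0
    rw [if_pos (by omega), if_pos rfl, zF_of (by omega)]
    rfl
  · by_cases h1 : l = 1
    · subst h1
      rw [if_pos le_rfl, if_neg (by omega), if_pos rfl, zF_of (by omega)]
      rfl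
    · rw [if_neg (by omega), if_neg h0, if_neg h1]
      exact map_one _

/-- piece `BN-B8-10`: the edges `{strand 0, strand l + 1}`, `l ≤ m + 1`.
Proof. `iota (z_l) = g a_0² g⁻¹` with `g = iota (a_{l-1}⁻¹ ⋯ a_0⁻¹)` (`zz`; `iota d = a_0²`),
`π g (0, 1) = (0, l + 1)` (`piH_iota`, `piH_iota_zero`, `π(a_{l-1}⁻¹ ⋯ a_0⁻¹) 0 = l`), so it is
`fP (sqP (inc g))`, and `fF_iota`: the value is `k01 z_l` = `z_0, z_1, 1`; `e2 z_0 = (1,0)`,
`e2 z_1 = (0,1)`. `vE_eq`. -/
theorem fF_W1 (hm : 1 ≤ m) {l : ℕ} (hl : l ≤ m + 1) :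
    vW (e2.comp ((fF m).comp (fP m))) 1 (l + 2) =
      if l = 0 then Multiplicative.ofAdd (1, 0) else
        if l = 1 then Multiplicative.ofAdd (0, 1) else 1 := by
  obtain ⟨κ, hκ⟩ : ∃ κ : HB (m + 1), κ = kap aH l := ⟨_, rfl⟩
  obtain ⟨g, hg⟩ : ∃ g : HB (m + 2), g = (iota (m + 1) κ)⁻¹ := ⟨_, rfl⟩
  have hz : zH (m + 1) (zF l) = κ⁻¹ * dH * κ := by
    unfold zH
    rw [liftF_z _ hl, w1_zz, hκ]
  have hid : iota (m + 1) (dH : HB (m + 1)) = aH 0 * aH 0 := liftH_d _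
  have hiz : iota (m + 1) (zH (m + 1) (zF l)) = g * (aH 0 * aH 0) * g⁻¹ := by
    rw [hz, map_mul, map_mul, map_inv, hid, hg, inv_inv]
  have hfa : fold m (aA 0) = aH 0 := liftA_a _ (by omega)
  have hfs : (fP m (sqP (inc m g))).1 = iota (m + 1) (zH (m + 1) (zF l)) := by
    show fold m (inc m g * (aA 0 * aA 0) * (inc m g)⁻¹) = _
    rw [hiz, map_mul, map_mul, map_inv, fold_inc, map_mul, hfa]
  have hπ0 : piA m (inc m g) 0 = 0 := by
    rw [piA_inc, hg, ← map_inv]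
    exact piH_iota_zero _
  have hπ1 : piA m (inc m g) 1 = l + 1 := by
    have h1 : piH (m + 1) κ⁻¹ 0 = l := by
      rw [map_inv, Equiv.Perm.inv_eq_iff_eq, hκ, w1_pi _ _ hl]
    rw [piA_inc, hg, ← map_inv]
    have h2 := piH_iota (κ⁻¹) 0
    rw [h1] at h2
    exact h2
  have hv := vE_eq hm (e2.comp ((fF m).comp (fP m))) (inc m g)
  rw [hπ0, hπ1] at hv
  have hW : vW (e2.comp ((fF m).comp (fP m))) 1 (l + 2) =
      vE (e2.comp ((fF m).comp (fP m))) 0 (l + 1) := rfl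
  rw [hW, ← hv]
  show e2 (fF m (fP m (sqP (inc m g)))) = _
  rw [fF_iota m _ hfs]
  exact w1_k01 hl

/-- piece `BN-B8-10`: the edge of the strands `1, 2`: `a_1² = (a_0 a_1) a_0² (a_0 a_1)⁻¹`, `fF_a1`:
`e2 ((z_1 z_0)⁻¹) = (-1, -1)`. -/
theorem fF_W2 (hm : 1 ≤ m) :
    vW (e2.comp ((fF m).comp (fP m))) 2 3 = Multiplicative.ofAdd (-1, -1) := by
  have p0 : piA m (aA 0) = Equiv.swap 0 1 := liftA_a _ (by omega)
  have p1 : piA m (aA 1) = Equiv.swap 1 2 := liftA_a _ (by omega)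
  have h0 : piA m (aA 0 * aA 1) 0 = 1 := by
    rw [map_mul, p0, p1, Equiv.Perm.mul_apply]
    rfl
  have h1 : piA m (aA 0 * aA 1) 1 = 2 := by
    rw [map_mul, p0, p1, Equiv.Perm.mul_apply]
    rfl
  have hv := vE_eq hm (e2.comp ((fF m).comp (fP m))) (aA 0 * aA 1)
  rw [h0, h1] at hv
  change vE (e2.comp ((fF m).comp (fP m))) 1 2 = _
  rw [← hv]
  have hbr : (aA 0 * aA 1 * aA 0 : A m) = aA 1 * aA 0 * aA 1 := (relA m).braid 0 (by omega)
  have hc : (aA 0 * aA 1 * (aA 0 * aA 0) * (aA 0 * aA 1)⁻¹ : A m) = aA 1 * aA 1 := by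
    have e1 : (aA 0 * aA 1 * aA 0 * (aA 0 * aA 1)⁻¹ : A m) = aA 1 := by
      rw [hbr]
      group
    calc (aA 0 * aA 1 * (aA 0 * aA 0) * (aA 0 * aA 1)⁻¹ : A m)
        = (aA 0 * aA 1 * aA 0 * (aA 0 * aA 1)⁻¹) * (aA 0 * aA 1 * aA 0 * (aA 0 * aA 1)⁻¹) := by
          group
      _ = aA 1 * aA 1 := by rw [e1]
  have hf : fold m (aA 1) = aH 1 := liftA_a _ (by omega)
  have hx : (fP m (sqP (aA 0 * aA 1))).1 = aH 1 * aH 1 := by
    change fold m (aA 0 * aA 1 * (aA 0 * aA 0) * (aA 0 * aA 1)⁻¹) = _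
    rw [hc, map_mul, hf]
  change e2 (fF m (fP m (sqP (aA 0 * aA 1)))) = _
  rw [fF_a1 m _ hx]
  rfl

/-- piece `BN-B8-11`: all other edges have the value `1`.
Proof. `W` is admissible (`adm_of_hom`); the triangle `2, 1, 3` (strands `1, 0, 2`) has independent values
`(1,0)`, `(0,1)`. For `p ≥ 4`: `W p 1 = 1`, so the first alternative of `adm_four`; for `p, q ≥ 4`
`adm_five`; `p = 0`: `fF_W0`. -/
theorem fF_W3 (hm : 1 ≤ m) {p q : ℕ} (hp : 1 ≤ p) (hpq : p < q) (hq : 4 ≤ q) (hq' : q ≤ m + 3) :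
    vW (e2.comp ((fF m).comp (fP m))) p q = 1 := by
  have hA := adm_of_hom hm ((fF m).comp (fP m))
  have h12 : vW (e2.comp ((fF m).comp (fP m))) 1 2 = Multiplicative.ofAdd (1, 0) := by
    have h := fF_W1 hm (l := 0) (by omega)
    rwa [if_pos rfl] at h
  have h13 : vW (e2.comp ((fF m).comp (fP m))) 1 3 = Multiplicative.ofAdd (0, 1) := by
    have h := fF_W1 hm (l := 1) (by omega)
    rwa [if_neg one_ne_zero, if_pos rfl] at h
  have h1 : ∀ r, 4 ≤ r → r ≤ m + 3 → vW (e2.comp ((fF m).comp (fP m))) 1 r = 1 := by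
    intro r hr hr'
    obtain ⟨l, rfl⟩ : ∃ l, r = l + 2 := ⟨r - 2, by omega⟩
    have h := fF_W1 hm (l := l) (by omega)
    rwa [if_neg (by omega), if_neg (by omega)] at h
  have hdet : det2 (vW (e2.comp ((fF m).comp (fP m))) 2 1)
      (vW (e2.comp ((fF m).comp (fP m))) 1 3) ≠ 0 := by
    rw [hA.symm 2 1, h12, h13]
    decide
  have hfour : vW (e2.comp ((fF m).comp (fP m))) q 2 = 1 ∧
      vW (e2.comp ((fF m).comp (fP m))) q 1 = 1 ∧
      vW (e2.comp ((fF m).comp (fP m))) q 3 = 1 := by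
    rcases adm_four hA (i := 2) (j := 1) (l := 3) (p := q) (by omega) (by omega) (by omega) hq'
      (by omega) (by omega) (by omega) (by omega) (by omega) (by omega) hdet with h | h
    · exact h
    · exfalso
      have h2 := h.2.1
      rw [hA.symm q 1, h1 q hq hq', fF_W2 hm] at h2
      exact absurd h2 (by decide)
  rcases Nat.lt_or_ge p 4 with h | h
  · have h3 : p = 1 ∨ p = 2 ∨ p = 3 := by omega
    rcases h3 with rfl | rfl | rfl
    · exact h1 q hq hq'
    · rw [hA.symm 2 q]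
      exact hfour.1
    · rw [hA.symm 3 q]
      exact hfour.2.2
  · exact (adm_five hA (i := 2) (j := 1) (l := 3) (p := p) (q := q) (by omega) (by omega)
      (by omega) (by omega) hq' (by omega) (by omega) (by omega) (by omega) (by omega) (by omega)
      (by omega) (by omega) (by omega) (by omega) hdet).1

/-- the right hand side of `fF_lk` as a homomorphism -/
private def d12_R (m : ℕ) : P m →* Multiplicative (ℤ × ℤ) where
  toFun x := Multiplicative.ofAdd (lk x 1 2 - lk x 2 3, lk x 1 3 - lk x 2 3)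
  map_one' := by
    rw [lk_one, lk_one, lk_one]
    rfl
  map_mul' x y := by
    rw [lk_mul, lk_mul, lk_mul, ← ofAdd_add]
    refine congrArg Multiplicative.ofAdd (Prod.ext ?_ ?_)
    · simp only [Prod.fst_add]
      ring
    · simp only [Prod.snd_add]
      ring

private lemma d12_sq (h : A m) (a b : ℕ) : lk (sqP h) a b =
    (if a = piA m h 0 + 1 ∧ b = piA m h 1 + 1 then 1 else 0) +
      (if a = piA m h 1 + 1 ∧ b = piA m h 0 + 1 then 1 else 0) := by
  unfold lk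
  rw [lkP_sq]
  rfl

private lemma d12_case (hm : 1 ≤ m) {p q : ℕ} (hpq : p < q) (hq : q ≤ m + 2) :
    vW (e2.comp ((fF m).comp (fP m))) (p + 1) (q + 1) = Multiplicative.ofAdd
      (((if 1 = p + 1 ∧ 2 = q + 1 then 1 else 0) + (if 1 = q + 1 ∧ 2 = p + 1 then 1 else 0) -
        ((if 2 = p + 1 ∧ 3 = q + 1 then 1 else 0) + (if 2 = q + 1 ∧ 3 = p + 1 then 1 else 0)),
      (if 1 = p + 1 ∧ 3 = q + 1 then 1 else 0) + (if 1 = q + 1 ∧ 3 = p + 1 then 1 else 0) -
        ((if 2 = p + 1 ∧ 3 = q + 1 then 1 else 0) +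
          (if 2 = q + 1 ∧ 3 = p + 1 then 1 else 0))) : ℤ × ℤ) := by
  rcases Nat.lt_or_ge q 3 with h3 | h3
  · have h : (p = 0 ∧ q = 1) ∨ (p = 0 ∧ q = 2) ∨ (p = 1 ∧ q = 2) := by omega
    rcases h with ⟨rfl, rfl⟩ | ⟨rfl, rfl⟩ | ⟨rfl, rfl⟩
    · exact (fF_W1 hm (l := 0) (by omega)).trans rfl
    · exact (fF_W1 hm (l := 1) (by omega)).trans rfl
    · exact (fF_W2 hm).trans rfl
  · rw [fF_W3 hm (by omega) (by omega) (by omega) (by omega)]
    rw [if_neg (by omega), if_neg (by omega), if_neg (by omega), if_neg (by omega),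
      if_neg (by omega), if_neg (by omega)]
    rfl

/-- piece `BN-B8-12`: `fF` in terms of the linking numbers (strands `0, 1, 2` = vertices `1, 2, 3`).
Proof. Both sides are homomorphisms in `x`; `P_hom_ext`: at `sqP h`: `fF_W1`, `fF_W2`, `fF_W3`
(`vE_eq`, `vW_symm`) versus `lkP_sq`; at `dP h`: `fF_W0` (`vZ_eq`) versus `lkP_d`; at `uP h`: `v_u`
versus `lkP_u`. (Or `lk_expand` for the two coordinates.) -/
theorem fF_lk (hm : 1 ≤ m) (x : P m) : e2 (fF m (fP m x)) =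
    Multiplicative.ofAdd (lk x 1 2 - lk x 2 3, lk x 1 3 - lk x 2 3) := by
  have key : e2.comp ((fF m).comp (fP m)) = d12_R m := by
    refine P_hom_ext ?_ ?_ ?_
    · intro h
      have hp : piA m h 0 ≤ m + 2 := piA_le h (by omega)
      have hq : piA m h 1 ≤ m + 2 := piA_le h (by omega)
      have hpq : piA m h 0 ≠ piA m h 1 := fun e => absurd ((piA m h).injective e) (by omega)
      rw [vE_eq hm]
      change vW (e2.comp ((fF m).comp (fP m))) (piA m h 0 + 1) (piA m h 1 + 1) =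
        Multiplicative.ofAdd (lk (sqP h) 1 2 - lk (sqP h) 2 3, lk (sqP h) 1 3 - lk (sqP h) 2 3)
      simp only [d12_sq]
      rcases Nat.lt_or_ge (piA m h 0) (piA m h 1) with hlt | hge
      · exact d12_case hm hlt hq
      · have hlt : piA m h 1 < piA m h 0 := by omega
        rw [vW_symm hm, d12_case hm hlt hp]
        refine congrArg Multiplicative.ofAdd (Prod.ext ?_ ?_)
        · simp only [add_comm]
        · simp only [add_comm]
    · intro h
      have hp : piA m h 0 ≤ m + 2 := piA_le h (by omega)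
      rw [vZ_eq hm]
      change vW (e2.comp ((fF m).comp (fP m))) 0 (piA m h 0 + 1) =
        Multiplicative.ofAdd (lk (dP h) 1 2 - lk (dP h) 2 3, lk (dP h) 1 3 - lk (dP h) 2 3)
      rw [fF_W0 hm hp]
      have h0 : ∀ a b, lk (dP h) (a + 1) b = 0 := by
        intro a b
        unfold lk
        rw [lkP_d]
        change (if a + 1 = 0 ∧ b = piA m h 0 + 1 then (1 : ℤ) else 0) = 0
        rw [if_neg (by omega)]
      rw [h0, h0, h0]
      rfl
    · intro h
      rw [v_u hm]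
      have h0 : ∀ a b, lk (uP h) a b = 0 := by
        intro a b
        unfold lk
        rw [lkP_u]
        rfl
      change 1 = Multiplicative.ofAdd (lk (uP h) 1 2 - lk (uP h) 2 3, lk (uP h) 1 3 - lk (uP h) 2 3)
      rw [h0, h0, h0]
      rfl
  exact DFunLike.congr_fun key x

/-- piece `BN-B8-12`: `fF_lk` for `x = iP (aP φ z_i)` (`fP_iP`) and the definition of `Coef`. -/
theorem gphi_z (hm : 1 ≤ m) {φ : MulAut (HB (m + 2))}
    {hπ : ∀ x, piH (m + 2) (φ x) = piH (m + 2) x} {z t : ℤ} (hc : Coef φ hπ z t) {i : ℕ}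
    (hi : i ≤ m + 2) : e2 (fF m (aP φ hπ (zP (m + 2) (zF i)))) =
      if i = 0 then Multiplicative.ofAdd (z - t, z - t) else
        if i = 1 then Multiplicative.ofAdd (0, t - z) else
          if i = 2 then Multiplicative.ofAdd (t - z, 0) else 1 := by
  have h := fF_lk hm (iP m (aP φ hπ (zP (m + 2) (zF i))))
  rw [fP_iP] at h
  rw [h]
  have h1 := hc i 0 1 hi (by omega) (by omega) (by omega)
  have h2 := hc i 0 2 hi (by omega) (by omega) (by omega)
  have h3 := hc i 1 2 hi (by omega) (by omega) (by omega)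
  have e1 : lk (iP m (aP φ hπ (zP (m + 2) (zF i)))) 1 2 = if i = 0 ∨ i = 1 then z else t := h1
  have e2' : lk (iP m (aP φ hπ (zP (m + 2) (zF i)))) 1 3 = if i = 0 ∨ i = 2 then z else t := h2
  have e3 : lk (iP m (aP φ hπ (zP (m + 2) (zF i)))) 2 3 = if i = 1 ∨ i = 2 then z else t := h3
  rw [e1, e2', e3]
  by_cases h0 : i = 0
  · subst h0
    rfl
  by_cases h1' : i = 1
  · subst h1'
    rw [if_pos (Or.inr rfl), if_pos (Or.inl rfl), if_neg (by omega), if_neg (by omega),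
      if_pos rfl, sub_self]
  by_cases h2' : i = 2
  · subst h2'
    rw [if_neg (by omega), if_pos (Or.inr rfl), if_pos (Or.inr rfl), if_neg (by omega),
      if_neg (by omega), if_pos rfl, sub_self]
  rw [if_neg (by omega), if_neg (by omega), if_neg (by omega), if_neg h0, if_neg h1', if_neg h2',
    sub_self]
  rfl

/-- piece `BN-B8-13`: `iota` maps pure elements to pure elements (`piH_iota`, `piH_iota_zero`). -/
theorem iota_mem {h : HB k} (hh : h ∈ PH k) : iota k h ∈ PH (k + 1) := by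
  have h1 : piH k h = 1 := hh
  refine MonoidHom.mem_ker.2 (Equiv.ext fun i => ?_)
  cases i with
  | zero => rw [piH_iota_zero]; rfl
  | succ i => rw [piH_iota, h1]; rfl

private theorem b13_key (h : PH (k + 1)) :
    ∃ h' ∈ PH k, (Th k (cP (k + 1) h)).1 = Chi k h' := by
  obtain ⟨x, h', hh', hx⟩ := PH_decomp h.2
  have p1 : zH (k + 1) x ∈ PH (k + 1) := MonoidHom.mem_ker.2 (piH_zH x)
  have h12 : cP (k + 1) h = cP (k + 1) ⟨zH (k + 1) x, p1⟩ *
      cP (k + 1) ⟨iota k h', iota_mem hh'⟩ := by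
    rw [← map_mul]
    exact congrArg _ (Subtype.ext hx)
  have hT1 : Th k (cP (k + 1) ⟨zH (k + 1) x, p1⟩) = 1 := Th_conj (x := x) (chi_zH x)
  refine ⟨h', hh', ?_⟩
  rw [h12, map_mul, hT1, one_mul]
  exact Th_iota (h := h') (α := cP (k + 1) ⟨iota k h', iota_mem hh'⟩) rfl

/-- piece `BN-B8-13`: the homomorphism `Th ∘ Chi : PH (k+1) → Q k`.
Proof. `Th (cP h) ∈ Q k`: `h = zH x iota h'` (`PH_decomp`), `Th_conj` (`chi_zH`), `Th_iota`. -/
theorem exists_TQ (k : ℕ) : ∃ T : PH (k + 1) →* Q k,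
    ∀ h : PH (k + 1), (T h : MulAut (F k)) = (Th k (cP (k + 1) h)).1 := by
  refine ⟨((PA k).subtype.comp ((Th k).comp (cP (k + 1)))).codRestrict (Q k) fun h => ?_,
    fun h => rfl⟩
  obtain ⟨h', hh', e⟩ := b13_key h
  exact ⟨h', hh', e.symm⟩

/-- the homomorphism `Th ∘ Chi : PH (k+1) → Q k` -/
noncomputable def TQ (k : ℕ) : PH (k + 1) →* Q k := Classical.choose (exists_TQ k)

theorem TQ_spec (k : ℕ) (h : PH (k + 1)) : (TQ k h : MulAut (F k)) = (Th k (cP (k + 1) h)).1 :=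
  Classical.choose_spec (exists_TQ k) h

/-- piece `BN-B8-13` -/
theorem TQ_z (x : F (k + 1)) : TQ k (zP (k + 1) x) = 1 := by
  apply Subtype.ext
  rw [TQ_spec]
  exact congrArg Subtype.val (Th_conj (α := cP (k + 1) (zP (k + 1) x)) (x := x) (chi_zH x))

/-- piece `BN-B8-13`: `chi_zeta`. -/
theorem TQ_zeta (m : ℕ) : TQ (m + 1) (ztP m) = 1 := by
  apply Subtype.ext
  rw [TQ_spec]
  refine congrArg Subtype.val (Th_conj (α := cP (m + 2) (ztP m)) (x := 1) ?_)
  rw [map_one]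
  exact chi_zeta (m + 2)

/-- piece `BN-B8-13`: `Q k` is the image of `PH k` under `Chi k` and `TQ (iota h) = Chi h`. -/
theorem TQ_surj (k : ℕ) : Function.Surjective (TQ k) := by
  rintro ⟨_, h, hh, rfl⟩
  refine ⟨⟨iota k h, iota_mem hh⟩, Subtype.ext ?_⟩
  rw [TQ_spec]
  exact Th_iota (h := h) (α := cP (k + 1) ⟨iota k h, iota_mem hh⟩) rfl

/-- piece `BN-B8-14`: the kernel of `TQ`.
Proof. `h = zH x iota h'` (`PH_decomp`), `TQ h = Chi h' = 1`, `h' = ζ^e` (`faithful`),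
`iota ζ^e = Ω^e` (`iota_zeta`), `ζ = w Ω` (`zeH_eq`: `zeH = zH wF * Om`), `ζ` central: `Ω^e = w^{-e} ζ^e`. -/
theorem TQ_ker {h : PH (k + 1)} (hh : TQ k h = 1) :
    ∃ (x : F (k + 1)) (e : ℤ), h.1 = zH (k + 1) x * zeH (k + 1) ^ e := by
  obtain ⟨x, h', _, hx⟩ := PH_decomp h.2
  have p1 : zH (k + 1) x ∈ PH (k + 1) := MonoidHom.mem_ker.2 (piH_zH x)
  have p2 : iota k h' ∈ PH (k + 1) := by
    have e : iota k h' = (zH (k + 1) x)⁻¹ * h.1 := by rw [hx]; group
    rw [e]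
    exact (PH (k + 1)).mul_mem ((PH (k + 1)).inv_mem p1) h.2
  have h0 : Th k (cP (k + 1) h) = 1 := by
    apply Subtype.ext
    rw [← TQ_spec, hh]
    rfl
  have h12 : cP (k + 1) h = cP (k + 1) ⟨zH (k + 1) x, p1⟩ * cP (k + 1) ⟨iota k h', p2⟩ := by
    rw [← map_mul]
    exact congrArg _ (Subtype.ext hx)
  have hT1 : Th k (cP (k + 1) ⟨zH (k + 1) x, p1⟩) = 1 := Th_conj (x := x) (chi_zH x)
  have hT2 : Th k (cP (k + 1) ⟨iota k h', p2⟩) = 1 := by
    rw [h12, map_mul, hT1, one_mul] at h0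
    exact h0
  have hC : Chi k h' = 1 := by
    have e := Th_iota (h := h') (α := cP (k + 1) ⟨iota k h', p2⟩) rfl
    rw [hT2] at e
    exact e.symm
  obtain ⟨n, hn⟩ := Subgroup.mem_zpowers_iff.1 (faithful hC)
  have hOm : (Om (k + 1) aH : HB (k + 1)) = (zH (k + 1) (wF (k + 1)))⁻¹ * zeH (k + 1) := by
    rw [zeH_eq (k + 1)]; group
  have hi : iota k h' = zH (k + 1) ((wF (k + 1))⁻¹ ^ n) * zeH (k + 1) ^ n := by
    have hcm : Commute (zH (k + 1) (wF (k + 1)))⁻¹ (zeH (k + 1)) := zeH_comm _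
    rw [← hn, map_zpow, iota_zeta, hOm, hcm.mul_zpow, map_zpow, map_inv]
  exact ⟨x * (wF (k + 1))⁻¹ ^ n, n, by rw [hx, hi, map_mul, mul_assoc]⟩

/-- piece `BN-B8-15`: homomorphisms to `ℤ` that vanish on `F` and on `ζ` vanish on `φ z_i` if `z = t`.
Proof. `c` from `lk_zeta`. `v_prop` for `v ∘ fP` (`vW_zero`), `x := (iP (aP φ z_i))^c`, `y := iP ζ`, `c := t`:
`lk x = c t = t lk y` for all pairs of strands (`lk_pow`). So `(v (φ z_i))^c = (v ζ)^t = 1`, `c ≠ 0`. -/
theorem kill_v (hm : 1 ≤ m) {φ : MulAut (HB (m + 2))}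
    {hπ : ∀ x, piH (m + 2) (φ x) = piH (m + 2) x} {t : ℤ} (hc : Coef φ hπ t t)
    (v : PH (m + 2) →* Multiplicative ℤ) (hv : ∀ j, j ≤ m + 2 → v (zP (m + 2) (zF j)) = 1)
    (hz : v (ztP m) = 1) {i : ℕ} (hi : i ≤ m + 2) : v (aP φ hπ (zP (m + 2) (zF i))) = 1 := by
  obtain ⟨c, hc0, hlk⟩ := lk_zeta (m := m) hm
  have hv' : ∀ j, j ≤ m + 2 → vW (v.comp (fP m)) 0 (j + 1) = 1 := by
    intro j hj
    rw [vW_zero hm v hj, hv j hj]
  have h := v_prop hm (v.comp (fP m)) hv'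
    (x := iP m (aP φ hπ (zP (m + 2) (zF i))) ^ c) (y := iP m (ztP m)) (c := t) (by
      intro p q hp hq hpq
      rw [lk_pow, hc i p q hi hp hq hpq, ite_self, hlk p q hp hq hpq, mul_comm])
  rw [map_zpow, MonoidHom.comp_apply, MonoidHom.comp_apply, fP_iP, fP_iP, hz, one_zpow] at h
  have h2 := congrArg Multiplicative.toAdd h
  rw [toAdd_zpow, toAdd_one, smul_eq_mul, mul_eq_zero] at h2
  rcases h2 with h2 | h2
  · exact absurd h2 hc0
  · exact toAdd_eq_zero.mp h2

/-- piece `BN-B8-16`: surjections `PH → F_2` that kill `F` and `ζ` kill `φ F` if `z = t`.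
Proof. It is enough to take `x = z_i` (`homF_ext`). `g' := g ∘ aP φ ∘ fP : P m → F_2` is surjective
(`aP_surj`, `fP_iP`). Choose `h` with `π h 0 = i`. `fP (dP h) = y z_i y⁻¹` (`fP_d`), so
`e2 (g' (dP h)) = e2 (g (φ z_i)) = 1` by `kill_v` for the two coordinates of `e2 ∘ g`. `g_d`. -/
theorem kill_g (hm : 1 ≤ m) {φ : MulAut (HB (m + 2))}
    {hπ : ∀ x, piH (m + 2) (φ x) = piH (m + 2) x} {t : ℤ} (hc : Coef φ hπ t t)
    (g : PH (m + 2) →* FreeGroup (Fin 2)) (hg : Function.Surjective g)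
    (hv : ∀ j, j ≤ m + 2 → g (zP (m + 2) (zF j)) = 1) (hz : g (ztP m) = 1) (x : F (m + 2)) :
    g (aP φ hπ (zP (m + 2) x)) = 1 := by
  have key : ∀ i, i ≤ m + 2 → g (aP φ hπ (zP (m + 2) (zF i))) = 1 := by
    intro i hi
    -- the two coordinates
    have hc1 : e2 (g (aP φ hπ (zP (m + 2) (zF i)))) = 1 := by
      have c1 := kill_v hm hc
        ((AddMonoidHom.toMultiplicative (AddMonoidHom.fst ℤ ℤ)).comp (e2.comp g))
        (fun j hj => by
          rw [MonoidHom.comp_apply, MonoidHom.comp_apply, hv j hj, map_one, map_one])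
        (by rw [MonoidHom.comp_apply, MonoidHom.comp_apply, hz, map_one, map_one]) hi
      have c2 := kill_v hm hc
        ((AddMonoidHom.toMultiplicative (AddMonoidHom.snd ℤ ℤ)).comp (e2.comp g))
        (fun j hj => by
          rw [MonoidHom.comp_apply, MonoidHom.comp_apply, hv j hj, map_one, map_one])
        (by rw [MonoidHom.comp_apply, MonoidHom.comp_apply, hz, map_one, map_one]) hi
      rw [MonoidHom.comp_apply, MonoidHom.comp_apply] at c1 c2
      have d1 : (e2 (g (aP φ hπ (zP (m + 2) (zF i))))).toAdd.1 = 0 := congrArg Multiplicative.toAdd c1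
      have d2 : (e2 (g (aP φ hπ (zP (m + 2) (zF i))))).toAdd.2 = 0 := congrArg Multiplicative.toAdd c2
      exact Multiplicative.toAdd.injective (Prod.ext d1 d2)
    obtain ⟨h, hh⟩ : ∃ h : A m, piA m h = Equiv.swap 0 i := exists_perm _ fun j hj =>
      Equiv.swap_apply_of_ne_of_ne (by omega) (by omega)
    have hh0 : piA m h 0 = i := by rw [hh, Equiv.swap_apply_left]
    obtain ⟨y, hy⟩ := fP_d h
    rw [hh0] at hy
    have hsurj : Function.Surjective ((g.comp (aP φ hπ)).comp (fP m)) := by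
      intro w
      obtain ⟨u, rfl⟩ := hg w
      obtain ⟨u', rfl⟩ := aP_surj φ hπ u
      exact ⟨iP m u', by rw [MonoidHom.comp_apply, MonoidHom.comp_apply, fP_iP]⟩
    have hval : ((g.comp (aP φ hπ)).comp (fP m)) (dP h) =
        g (aP φ hπ y) * g (aP φ hπ (zP (m + 2) (zF i))) * (g (aP φ hπ y))⁻¹ := by
      rw [MonoidHom.comp_apply, MonoidHom.comp_apply, hy, map_mul, map_mul, map_inv, map_mul,
        map_mul, map_inv]
    have h1 : e2 (((g.comp (aP φ hπ)).comp (fP m)) (dP h)) = 1 := by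
      rw [hval, map_mul, map_mul, map_inv, hc1, mul_one, mul_inv_cancel]
    have h2 := g_d hm _ hsurj h h1
    rw [hval] at h2
    exact conj_eq_one_iff.1 h2
  have h3 : (g.comp (aP φ hπ)).comp (zP (m + 2)) = 1 := homF_ext fun i hi => by
    rw [MonoidHom.comp_apply, MonoidHom.comp_apply, key i hi, MonoidHom.one_apply]
  have h4 := DFunLike.congr_fun h3 x
  rw [MonoidHom.comp_apply, MonoidHom.comp_apply, MonoidHom.one_apply] at h4
  exact h4

/-- the homomorphism `x ↦ TQ (φ (zH x))` -/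
private noncomputable def d17_f (φ : MulAut (HB (m + 2)))
    (hπ : ∀ x, piH (m + 2) (φ x) = piH (m + 2) x) : F (m + 2) →* MulAut (F (m + 1)) :=
  (Q (m + 1)).subtype.comp ((TQ (m + 1)).comp ((aP φ hπ).comp (zP (m + 2))))

private theorem d17_norm (φ : MulAut (HB (m + 2)))
    (hπ : ∀ x, piH (m + 2) (φ x) = piH (m + 2) x) {q : MulAut (F (m + 1))} (hq : q ∈ Q (m + 1))
    (y : F (m + 2)) : q * d17_f φ hπ y * q⁻¹ ∈ (d17_f φ hπ).range := by
  obtain ⟨h', hh'⟩ := TQ_surj (m + 1) ⟨q, hq⟩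
  obtain ⟨h'', rfl⟩ := aP_surj φ hπ h'
  have h1 : zP (m + 2) (Chi (m + 2) h''.1 y) = h'' * zP (m + 2) y * h''⁻¹ :=
    Subtype.ext (zH_conj h''.1 y).symm
  have h2 : q = (TQ (m + 1) (aP φ hπ h'')).1 := (congrArg Subtype.val hh').symm
  refine ⟨Chi (m + 2) h''.1 y, ?_⟩
  change (TQ (m + 1) (aP φ hπ (zP (m + 2) (Chi (m + 2) h''.1 y)))).1 =
    q * (TQ (m + 1) (aP φ hπ (zP (m + 2) y))).1 * q⁻¹
  rw [h1, h2, map_mul, map_mul, map_inv]
  erw [map_mul, map_mul, map_inv]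
  rfl

/-- piece `BN-B8-17`: the case `z = t`.
Proof. `M :=` the image of `F` under `TQ ∘ aP φ ∘ zP`, as a subgroup of `MulAut (F (m+1))`; `claim (m+1)`:
`M ≤ Q`; f.g. (`F` is f.g.); normalized by `Q`: `q = TQ h'` (`TQ_surj`), `h' = φ h''` (`aP_surj`),
`q TQ(φ x) q⁻¹ = TQ (φ (h'' x h''⁻¹))` (`zH_conj`); killed by the surjections `g` : apply `kill_g` to
`g ∘ TQ` (`TQ_z`, `TQ_zeta`). So `TQ (φ (zH x)) = 1`, `TQ_ker`. -/
theorem mapsF_of_eq (hm : 1 ≤ m) {φ : MulAut (HB (m + 2))}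
    {hπ : ∀ x, piH (m + 2) (φ x) = piH (m + 2) x} {t : ℤ} (hc : Coef φ hπ t t) (x : F (m + 2)) :
    ∃ (x' : F (m + 2)) (e : ℤ), φ (zH (m + 2) x) = zH (m + 2) x' * zeH (m + 2) ^ e := by
  have hbot : (d17_f φ hπ).range = ⊥ := by
    refine claim (m + 1) (d17_f φ hπ).range ?_ ?_ ?_ ?_
    · rintro _ ⟨y, rfl⟩
      exact (TQ (m + 1) (aP φ hπ (zP (m + 2) y))).2
    · rintro q hq _ ⟨y, rfl⟩
      exact d17_norm φ hπ hq y
    · exact (Group.fg_iff_subgroup_fg _).1 (Group.fg_range (d17_f φ hπ))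
    · rintro g hg _ ⟨y, rfl⟩
      exact kill_g hm hc (g.comp (TQ (m + 1))) (hg.comp (TQ_surj (m + 1)))
        (fun j _ => by
          change g (TQ (m + 1) (zP (m + 1 + 1) (zF j))) = 1
          rw [TQ_z, map_one])
        (by
          change g (TQ (m + 1) (ztP m)) = 1
          rw [TQ_zeta, map_one]) y
  have h1 : d17_f φ hπ x = 1 := by
    have h2 : d17_f φ hπ x ∈ (d17_f φ hπ).range := ⟨x, rfl⟩
    rw [hbot, Subgroup.mem_bot] at h2
    exact h2
  have h3 : TQ (m + 1) (aP φ hπ (zP (m + 2) x)) = 1 := Subtype.ext h1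
  exact TQ_ker h3

/-- piece `BN-B8-18`: `D` is pure: `inc D = Dd (m+2) aA dA` and `π D = π d = 1`. -/
theorem Dd_mem (m : ℕ) : Dd (m + 2) aH dH ∈ PH (m + 2) := by
  change piH (m + 2) (Dd (m + 2) aH dH) = 1
  rw [← Sp_z0 (m + 2), piH_Sp', piH_zH]

/-- `D` as an element of `PH` -/
def DP (m : ℕ) : PH (m + 2) := ⟨Dd (m + 2) aH dH, Dd_mem m⟩

private lemma b18_inc_kap {n : ℕ} (hn : n ≤ m + 2) : inc m (kap aH n) = kap aA n := by
  induction n with
  | zero => exact map_one _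
  | succ n ih =>
    change inc m (kap aH n * aH n) = kap aA n * aA n
    rw [map_mul, ih (by omega)]
    congr 1
    exact liftH_a _ (by omega)

private lemma b18_inc_krev {n : ℕ} (hn : n ≤ m + 2) : inc m (krev aH n) = krev aA n := by
  induction n with
  | zero => exact map_one _
  | succ n ih =>
    change inc m (aH n * krev aH n) = aA n * krev aA n
    rw [map_mul, ih (by omega)]
    congr 1
    exact liftH_a _ (by omega)

private lemma b18_pi {n : ℕ} (hn : n ≤ m + 2) (x : ℕ) : piA m (kap aA n) x =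
      if x < n then x + 1 else if x = n then 0 else x := by
  induction n generalizing x with
  | zero =>
    change piA m 1 x = _
    rw [map_one]
    change x = _
    split_ifs <;> omega
  | succ n ih =>
    have e : piA m (aA n) = Equiv.swap n (n + 1) := liftA_a _ (by omega)
    change piA m (kap aA n * aA n) x = _
    rw [map_mul, e, Equiv.Perm.mul_apply, ih (by omega), Equiv.swap_apply_def]
    split_ifs <;> omega

private lemma b18_val (hm : 1 ≤ m) (v : P m →* V) {n : ℕ} (hn : n ≤ m + 2) :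
    ∃ hx : (kap aA n * krev aA n : A m) ∈ P m,
      v ⟨kap aA n * krev aA n, hx⟩ = ∏ p ∈ Finset.range n, vW v 1 (p + 2) := by
  induction n with
  | zero =>
    have e : (kap aA 0 * krev aA 0 : A m) = 1 := one_mul 1
    refine ⟨e ▸ one_mem _, ?_⟩
    have e' : (⟨kap aA 0 * krev aA 0, e ▸ one_mem _⟩ : P m) = 1 := Subtype.ext e
    rw [e', map_one, Finset.prod_range_zero]
  | succ n ih =>
    obtain ⟨hx, h⟩ := ih (by omega)
    obtain ⟨g, h1, h2, h3⟩ := exists_conj (m := m) (j := n) (by omega)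
    have key : (sqP (kap aA n * g) : A m) * (kap aA n * krev aA n) =
        kap aA (n + 1) * krev aA (n + 1) := by
      change (kap aA n * g) * (aA 0 * aA 0) * (kap aA n * g)⁻¹ * (kap aA n * krev aA n) =
        (kap aA n * aA n) * (aA n * krev aA n)
      rw [← h1]
      group
    have hx' : (kap aA (n + 1) * krev aA (n + 1) : A m) ∈ P m := by
      rw [← key]
      exact mul_mem (sqP (kap aA n * g)).2 hx
    refine ⟨hx', ?_⟩
    have e' : (⟨kap aA (n + 1) * krev aA (n + 1), hx'⟩ : P m) =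
        sqP (kap aA n * g) * ⟨kap aA n * krev aA n, hx⟩ := Subtype.ext key.symm
    have p0 : piA m (kap aA n * g) 0 = 0 := by
      rw [map_mul, Equiv.Perm.mul_apply, h2, b18_pi (by omega)]
      simp
    have p1 : piA m (kap aA n * g) 1 = n + 1 := by
      rw [map_mul, Equiv.Perm.mul_apply, h3, b18_pi (by omega)]
      simp
    rw [e', map_mul, h, vE_eq hm, p0, p1, Finset.prod_range_succ, mul_comm]
    rfl

/-- piece `BN-B8-18`: the values of homomorphisms at `D = d κ κ'`.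
Proof. `kap (p+1) krev (p+1) = kap p a_p² krev p = (kap p a_p² (kap p)⁻¹) (kap p krev p)`; the first
factor is `sqP (kap aA p * g)` with `g a_0 g⁻¹ = a_p`, `π g (0,1) = (p, p+1)` (`exists_conj`), and
`π (kap p)` maps `p, p+1` to `0, p + 1`. So it has the value `vE v 0 (p+1) = vW v 1 (p+2)` (`vE_eq`), and
`v d = vZ v 0` (`vZ_eq`). -/
theorem Dd_val (hm : 1 ≤ m) (v : P m →* V) :
    v (iP m (DP m)) = vW v 0 1 * ∏ p ∈ Finset.range (m + 2), vW v 1 (p + 2) := by
  obtain ⟨hx, h⟩ := b18_val hm v (le_refl (m + 2))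
  have e : iP m (DP m) = dP 1 * ⟨kap aA (m + 2) * krev aA (m + 2), hx⟩ := by
    apply Subtype.ext
    change inc m (dH * kap aH (m + 2) * krev aH (m + 2)) =
      (1 * dA * 1⁻¹) * (kap aA (m + 2) * krev aA (m + 2))
    have ed : inc m dH = dA := liftH_d _
    rw [map_mul, map_mul, ed, b18_inc_kap le_rfl, b18_inc_krev le_rfl]
    group
  rw [e, map_mul, h, vZ_eq hm, map_one]
  rfl

/-- piece `BN-B8-19`: `W' := vW (e2 ∘ fF ∘ aP φ ∘ fP)`, `z ≠ t`: `W' 0 1 = (z-t, z-t)`,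
`W' 0 2 = (0, t-z)`, `W' 0 3 = (t-z, 0)`, `W' 0 (j+1) = 1` for `j ≥ 3` (`vW_zero`, `gphi_z`). The triangle
`1, 0, 2` has independent values. `adm_tri`: `W' 1 2 = (t-z, 0)`. `adm_four` for `p = 3`: `W' 3 0 ≠ 1`, so
`W' 3 1 = W' 0 2 = (0, t-z)`. For `p ≥ 4`: `W' p 0 = 1`, so `W' p 1 = 1`. So by `Dd_val` the value at `D` is
`(z-t, z-t) + (t-z, 0) + (0, t-z) = 0`. (`fP (iP x) = x`.) -/
theorem gphi_D (hm : 1 ≤ m) {φ : MulAut (HB (m + 2))}
    {hπ : ∀ x, piH (m + 2) (φ x) = piH (m + 2) x} {z t : ℤ} (hc : Coef φ hπ z t) (hne : z ≠ t) :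
    e2 (fF m (aP φ hπ (DP m))) = 1 := by
  set v : P m →* Multiplicative (ℤ × ℤ) := (e2.comp ((fF m).comp (aP φ hπ))).comp (fP m) with hv
  have hA : Adm (m + 3) (vW v) := adm_of_hom hm (((fF m).comp (aP φ hπ)).comp (fP m))
  have h0 : ∀ j, j ≤ m + 2 → vW v 0 (j + 1) = if j = 0 then Multiplicative.ofAdd (z - t, z - t) else
      if j = 1 then Multiplicative.ofAdd (0, t - z) else
        if j = 2 then Multiplicative.ofAdd (t - z, 0) else 1 :=
    fun j hj => (vW_zero hm _ hj).trans (gphi_z hm hc hj)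
  have h01 : vW v 0 1 = Multiplicative.ofAdd (z - t, z - t) := h0 0 (by omega)
  have h02 : vW v 0 2 = Multiplicative.ofAdd (0, t - z) := h0 1 (by omega)
  have h03 : vW v 0 3 = Multiplicative.ofAdd (t - z, 0) := h0 2 (by omega)
  have hzt : z - t ≠ 0 := sub_ne_zero.2 hne
  have hdet : det2 (vW v 1 0) (vW v 0 2) ≠ 0 := by
    rw [vW_symm hm v 1 0, h01, h02]
    unfold det2
    simp only [toAdd_ofAdd, mul_zero, sub_zero]
    exact mul_ne_zero hzt (by omega)
  have h12 : vW v 1 2 = Multiplicative.ofAdd (t - z, 0) := by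
    have h := adm_tri hA (i := 1) (j := 0) (l := 2) (by omega) (by omega) (by omega) (by omega)
      (by omega) (by omega) hdet
    rw [vW_symm hm v 1 0, h01, h02] at h
    rw [← inv_eq_of_mul_eq_one_right h, ← ofAdd_add, ← ofAdd_neg]
    refine congrArg Multiplicative.ofAdd (Prod.ext ?_ ?_)
    · simp
    · simp
  have h13 : vW v 1 3 = Multiplicative.ofAdd (0, t - z) := by
    rcases adm_four hA (i := 1) (j := 0) (l := 2) (p := 3) (by omega) (by omega) (by omega)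
      (by omega) (by omega) (by omega) (by omega) (by omega) (by omega) (by omega) hdet with
      ⟨-, h, -⟩ | ⟨h, -, -⟩
    · exfalso
      rw [vW_symm hm v 3 0, h03, ← ofAdd_zero] at h
      have h1 := congrArg Prod.fst (Multiplicative.ofAdd.injective h)
      simp only [Prod.fst_zero] at h1
      omega
    · rw [vW_symm hm v 1 3, h, h02]
  have h1p : ∀ p, 2 ≤ p → p < m + 2 → vW v 1 (p + 2) = 1 := by
    intro p hp hp'
    have hp0 : vW v (p + 2) 0 = 1 := by
      rw [vW_symm hm v (p + 2) 0]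
      refine (h0 (p + 1) (by omega)).trans ?_
      rw [if_neg (by omega), if_neg (by omega), if_neg (by omega)]
    rcases adm_four hA (i := 1) (j := 0) (l := 2) (p := p + 2) (by omega) (by omega) (by omega)
      (by omega) (by omega) (by omega) (by omega) (by omega) (by omega) (by omega) hdet with
      ⟨h, -, -⟩ | ⟨-, h, -⟩
    · rw [vW_symm hm v 1 (p + 2), h]
    · exfalso
      rw [hp0, h12, ← ofAdd_zero] at h
      have h1 := congrArg Prod.fst (Multiplicative.ofAdd.injective h)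
      simp only [Prod.fst_zero] at h1
      omega
  have hD : v (iP m (DP m)) = e2 (fF m (aP φ hπ (DP m))) := by
    change e2 (fF m (aP φ hπ (fP m (iP m (DP m))))) = _
    rw [fP_iP]
  rw [← hD, Dd_val hm v]
  have hs : ∏ p ∈ Finset.range (m + 2), vW v 1 (p + 2) = vW v 1 2 * vW v 1 3 := by
    have h2 : Finset.range 2 ⊆ Finset.range (m + 2) :=
      Finset.range_subset_range.2 (by omega)
    rw [← Finset.prod_subset h2 fun p hp hp' => h1p p (by
      rw [Finset.mem_range] at hp'; omega) (Finset.mem_range.1 hp), Finset.prod_range_succ,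
      Finset.prod_range_one]
  rw [hs, h01, h12, h13, ← ofAdd_add, ← ofAdd_add, ← ofAdd_zero]
  refine congrArg Multiplicative.ofAdd (Prod.ext ?_ ?_)
  · simp
  · simp

/-- piece `BN-B8-20`: the dichotomy.
Proof. `exists_coef`. `z = t`: `mapsF_of_eq`. Otherwise `φ' := φ * SpA`, `π φ' = π` (`piH_Sp'`);
`exists_coef` for `φ'`: `z', t'`; `gphi_z` for `i = 0`: `aP φ' z_0 = aP φ D` (`Sp_z0`), so
`(z'-t', z'-t') = 0` by `gphi_D`; `mapsF_of_eq` for `φ'`. -/
theorem dich' (hm : 1 ≤ m) (φ : MulAut (HB (m + 2)))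
    (hπ : ∀ x, piH (m + 2) (φ x) = piH (m + 2) x) :
    (∀ x : F (m + 2), ∃ (x' : F (m + 2)) (e : ℤ),
      φ (zH (m + 2) x) = zH (m + 2) x' * zeH (m + 2) ^ e) ∨
    (∀ x : F (m + 2), ∃ (x' : F (m + 2)) (e : ℤ),
      φ (Sp (m + 2) (zH (m + 2) x)) = zH (m + 2) x' * zeH (m + 2) ^ e) := by
  obtain ⟨z, t, hc⟩ := exists_coef hm φ hπ
  by_cases hzt : z = t
  · subst hzt
    exact Or.inl (mapsF_of_eq hm hc)
  · right
    have hπ' : ∀ x, piH (m + 2) ((φ * SpA (m + 2)) x) = piH (m + 2) x := by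
      intro x
      rw [MulAut.mul_apply, hπ]
      exact piH_Sp' x
    obtain ⟨z', t', hc'⟩ := exists_coef hm (φ * SpA (m + 2)) hπ'
    have h1 := gphi_z hm hc' (i := 0) (by omega)
    have h2 : aP (φ * SpA (m + 2)) hπ' (zP (m + 2) (zF 0)) = aP φ hπ (DP m) := by
      apply Subtype.ext
      change φ (Sp (m + 2) (zH (m + 2) (zF 0))) = φ (Dd (m + 2) aH dH)
      rw [Sp_z0 (m + 2)]
    have h3 := gphi_D hm hc hzt
    rw [if_pos rfl, h2, h3] at h1
    have h4 : z' = t' := by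
      have h5 := congrArg (fun y : Multiplicative (ℤ × ℤ) => (Multiplicative.toAdd y).1) h1
      simp only [toAdd_one, toAdd_ofAdd, Prod.fst_zero] at h5
      omega
    subst h4
    intro x
    obtain ⟨x', e, h⟩ := mapsF_of_eq hm hc' x
    exact ⟨x', e, h⟩

private theorem nm_vE (hm : 1 ≤ m) (a b : ℕ) {p : ℕ} (hp : p < m + 2) :
    vE (lkh m a b) 0 (p + 1) = Multiplicative.ofAdd
      ((if a = 1 ∧ b = p + 2 then (1 : ℤ) else 0) + (if a = p + 2 ∧ b = 1 then 1 else 0)) := by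
  obtain ⟨h, hh⟩ := exists_perm (m := m) (Equiv.swap 1 (p + 1)) (by
    intro i hi
    exact Equiv.swap_apply_of_ne_of_ne (by omega) (by omega))
  have h0 : piA m h 0 = 0 := by
    rw [hh]; exact Equiv.swap_apply_of_ne_of_ne (by omega) (by omega)
  have h1 : piA m h 1 = p + 1 := by
    rw [hh]; exact Equiv.swap_apply_left _ _
  have h2 := vE_eq hm (lkh m a b) h
  rw [h0, h1] at h2
  rw [← h2]
  change Multiplicative.ofAdd (lk (sqP h) a b) = _
  unfold lk
  rw [lkP_sq, h0, h1]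
  rfl

private theorem nm_vZ (hm : 1 ≤ m) (a b : ℕ) (ha : 1 ≤ a) : vW (lkh m a b) 0 1 = 1 := by
  change vZ (lkh m a b) 0 = 1
  have h2 := vZ_eq hm (lkh m a b) 1
  rw [map_one, Equiv.Perm.one_apply] at h2
  rw [← h2]
  change Multiplicative.ofAdd (lk (dP 1) a b) = 1
  unfold lk
  rw [lkP_d]
  change Multiplicative.ofAdd (if a = 0 ∧ b = _ then (1 : ℤ) else 0) = 1
  rw [if_neg (by omega)]
  rfl

private theorem nm_val (hm : 1 ≤ m) (a b : ℕ) (ha : 1 ≤ a) :
    lk (iP m (DP m)) a b = ∑ p ∈ Finset.range (m + 2),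
      ((if a = 1 ∧ b = p + 2 then (1 : ℤ) else 0) + (if a = p + 2 ∧ b = 1 then 1 else 0)) := by
  have h1 := Dd_val hm (lkh m a b)
  rw [nm_vZ hm a b ha, one_mul] at h1
  have h2 : ∏ p ∈ Finset.range (m + 2), vW (lkh m a b) 1 (p + 2) =
      ∏ p ∈ Finset.range (m + 2), Multiplicative.ofAdd
        ((if a = 1 ∧ b = p + 2 then (1 : ℤ) else 0) + (if a = p + 2 ∧ b = 1 then 1 else 0)) :=
    Finset.prod_congr rfl fun p hp => nm_vE hm a b (Finset.mem_range.1 hp)
  rw [h2, ← ofAdd_sum] at h1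
  exact congrArg Multiplicative.toAdd h1

/-- piece `BN-B8-20`: `Sp z_0 = D` is not in `F ⟨ζ⟩`.
Proof. Suppose `D = zH x ζ^e`. The linking numbers of the pairs of strands `(0,1)` and `(1,2)` of the right
side are equal (`lk_mul`, `lk_zH`, `lk_pow`, `lk_zeta`); those of `D` are `1` and `0`: `Dd_val` for
`v = lkh m 1 2` and `v = lkh m 2 3`, whose values `vW` are (`exists_four` or `exists_three`, `vE_eq`,
`lkP_sq`): `vW (lkh m 1 2) 1 2 = ofAdd 1`, the others in the product `1`. -/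
theorem Sp_not_mapsF' (hm : 1 ≤ m) : ¬ ∀ x : F (m + 2), ∃ (x' : F (m + 2)) (e : ℤ),
      Sp (m + 2) (zH (m + 2) x) = zH (m + 2) x' * zeH (m + 2) ^ e := by
  intro H
  obtain ⟨x', e, hx⟩ := H (zF 0)
  rw [Sp_z0] at hx
  have h1 : DP m = zP (m + 2) x' * (ztP m) ^ e := Subtype.ext hx
  obtain ⟨c, -, hc⟩ := lk_zeta (m := m) hm
  have h2 : ∀ p q, p ≤ m + 2 → q ≤ m + 2 → p ≠ q →
      lk (iP m (DP m)) (p + 1) (q + 1) = e * c := by
    intro p q hp hq hpq
    rw [h1, map_mul, map_zpow, lk_mul, lk_pow, lk_zH, hc p q hp hq hpq, zero_add]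
  have h3 := h2 0 1 (by omega) (by omega) (by omega)
  have h4 := h2 1 2 (by omega) (by omega) (by omega)
  rw [← h4, nm_val hm _ _ (by omega), nm_val hm _ _ (by omega)] at h3
  rw [Finset.sum_eq_single 0] at h3
  · rw [Finset.sum_eq_zero] at h3
    · simp at h3
    · intro p _
      rw [if_neg (by omega), if_neg (by omega), add_zero]
  · intro p _ hp
    rw [if_neg (by omega), if_neg (by omega), add_zero]
  · intro h; exact absurd (Finset.mem_range.2 (by omega)) h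

end Pool.Agent.Helper38.BN
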