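import Pool.Agent.Helper7.AG.Defs
import Pool.Agent.Helper7.AG.FP

/-!
# Project BN (MP_2ec7a7_al): the Artin groups of type `B̃_n`, definitions

`Bt n` is the Coxeter matrix of the affine type `B̃_n` (`n ≥ 3`) on the nodes `0, 1, …, n`: the
leaves `0` and `1` of the fork are joined to `2`, the path is `2 - 3 - ⋯ - n` and the last edge
`n-1 - n` has the label `4`.

In the development `n = m + 3`, `k = m + 2`, and the *strands* are `0, 1, …, k` (there are `n`).
The generators of `A m = Artin (Bt (m+3))` are `aA j` (`j < k`; it exchanges the strands `j` and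
`j + 1`), `bA` (the twin of `aA (k-1)`) and `dA` (attached to the strand `0`; label `4` with
`aA 0`).  `HB k` is the Artin group of the spherical type `B_{k+1}` with the generators `aH j`
(`j < k`) and `dH`.
-/

namespace Pool.Agent.Helper38.BN

open Pool.Agent.Helper7.AG (alt rels Artin)

/-- the entries of the Coxeter matrix of type `B̃_n` -/
def btE (n i j : ℕ) : ℕ :=
  if i = j then 1
  else if (i = 0 ∧ j = 2) ∨ (j = 0 ∧ i = 2) then 3
  else if (i ≠ 0 ∧ j = i + 1) ∨ (j ≠ 0 ∧ i = j + 1) then (if i = n ∨ j = n then 4 else 3)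
  else 2

lemma btE_symm (n i j : ℕ) : btE n i j = btE n j i := by
  unfold btE
  split_ifs <;> first | rfl | omega

lemma btE_self (n i : ℕ) : btE n i i = 1 := by simp [btE]

lemma btE_off (n i j : ℕ) (h : i ≠ j) : btE n i j ≠ 1 := by
  unfold btE
  split_ifs <;> omega

/-- the Coxeter matrix of the affine type `B̃_n` -/
def Bt (n : ℕ) : CoxeterMatrix (Fin (n + 1)) where
  M := Matrix.of fun i j => btE n i j
  isSymm := by ext i j; simp [btE_symm n i j]
  diagonal := by intro i; simp [btE_self]
  off_diagonal := by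
    intro i j h
    simpa using btE_off n i j (fun e => h (Fin.ext e))

/-- the entries of the Coxeter matrix of type `B` -/
def bE (i j : ℕ) : ℕ :=
  if i = j then 1
  else if j = i + 1 ∨ i = j + 1 then (if i = 0 ∨ j = 0 then 4 else 3)
  else 2

lemma bE_symm (i j : ℕ) : bE i j = bE j i := by
  unfold bE
  split_ifs <;> first | rfl | omega

lemma bE_self (i : ℕ) : bE i i = 1 := by simp [bE]

lemma bE_off (i j : ℕ) (h : i ≠ j) : bE i j ≠ 1 := by
  unfold bE
  split_ifs <;> omega

/-- the Coxeter matrix of the spherical type `B_{k+1}` -/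
def Bs (k : ℕ) : CoxeterMatrix (Fin (k + 1)) where
  M := Matrix.of fun i j => bE i j
  isSymm := by ext i j; simp [bE_symm i j]
  diagonal := by intro i; simp [bE_self]
  off_diagonal := by
    intro i j h
    simpa using bE_off i j (fun e => h (Fin.ext e))

/-- the Artin group of type `B̃_{m+3}` -/
abbrev A (m : ℕ) : Type := Artin (Bt (m + 3))

/-- the Artin group of type `B_{k+1}` -/
abbrev HB (k : ℕ) : Type := Artin (Bs k)

/-- the generators `a_j` of `A m`, `j ≤ m + 1` (for larger `j`: the element `1`) -/
def aA {m : ℕ} (j : ℕ) : A m :=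
  if j < m + 2 then PresentedGroup.of (⟨m + 2 - j, by omega⟩ : Fin (m + 3 + 1)) else 1
/-- the generator `b` of `A m` -/
def bA {m : ℕ} : A m := PresentedGroup.of (⟨0, by omega⟩ : Fin (m + 3 + 1))
/-- the generator `d` of `A m` -/
def dA {m : ℕ} : A m := PresentedGroup.of (⟨m + 3, by omega⟩ : Fin (m + 3 + 1))

/-- the generators `a_j` of `HB k`, `j < k` (for larger `j`: the element `1`) -/
def aH {k : ℕ} (j : ℕ) : HB k :=
  if h : j < k then PresentedGroup.of (⟨j + 1, by omega⟩ : Fin (k + 1)) else 1
/-- the generator `d` of `HB k` -/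
def dH {k : ℕ} : HB k := PresentedGroup.of (⟨0, by omega⟩ : Fin (k + 1))

section
variable {K : Type*} [Group K]

/-- the relations of the braid group with the generators `a 0, …, a (k-1)` -/
structure RelBr (k : ℕ) (a : ℕ → K) : Prop where
  comm : ∀ i j, i + 2 ≤ j → j < k → a i * a j = a j * a i
  braid : ∀ i, i + 1 < k → a i * a (i + 1) * a i = a (i + 1) * a i * a (i + 1)

/-- the relations of the Artin group of type `B_{k+1}` -/
structure RelB (k : ℕ) (a : ℕ → K) (d : K) : Prop extends RelBr k a where
  dcomm : ∀ i, 0 < i → i < k → a i * d = d * a i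
  four : 0 < k → a 0 * d * a 0 * d = d * a 0 * d * a 0

/-- the relations of the Artin group of type `B̃_{m+3}` (`b` is the twin of `a (m+1)`) -/
structure RelA (m : ℕ) (a : ℕ → K) (b d : K) : Prop extends RelB (m + 2) a d where
  ba : b * a (m + 1) = a (m + 1) * b
  bb : b * a m * b = a m * b * a m
  bc : ∀ i, i < m → b * a i = a i * b
  bd : b * d = d * b
end

end Pool.Agent.Helper38.BN
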