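import Pool.Agent.Helper38.BN.Pres

/-!
# Project BN: the free group `F k` and the group `G k`

`F k` is free on `zF 0, …, zF k`; `G k` is generated by the involutions `xG 0, …, xG k` and the
element `yG` of infinite order (free product).
-/

namespace Pool.Agent.Helper38.BN

/-- the free group on `z_0, …, z_k` -/
abbrev F (k : ℕ) : Type := FreeGroup (Fin (k + 1))

/-- the generators of `F k` (the element `1` for `i > k`) -/
def zF {k : ℕ} (i : ℕ) : F k := if h : i < k + 1 then FreeGroup.of ⟨i, h⟩ else 1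

/-- the product `z_j ⋯ z_1 z_0` -/
def wF {k : ℕ} : ℕ → F k
  | 0 => zF 0
  | j + 1 => zF (j + 1) * wF j

section
variable {k : ℕ} {K : Type*} [Group K]

lemma zF_of {i : ℕ} (h : i < k + 1) : (zF i : F k) = FreeGroup.of ⟨i, h⟩ := dif_pos h

lemma zF_ge {i : ℕ} (h : k + 1 ≤ i) : (zF i : F k) = 1 := dif_neg (by omega)

/-- the universal property of `F k` -/
def liftF (c : ℕ → K) : F k →* K := FreeGroup.lift (fun i : Fin (k + 1) => c i)

lemma liftF_z (c : ℕ → K) {i : ℕ} (h : i ≤ k) : liftF c (zF i : F k) = c i := by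
  rw [zF_of (by omega)]; simp [liftF]

lemma homF_ext {f g : F k →* K} (h : ∀ i, i ≤ k → f (zF i) = g (zF i)) : f = g := by
  ext i
  have h1 := h i.val (by omega)
  rwa [zF_of i.isLt] at h1

lemma autF_ext {f g : MulAut (F k)} (h : ∀ i, i ≤ k → f (zF i) = g (zF i)) : f = g := by
  have h1 : f.toMonoidHom = g.toMonoidHom := homF_ext h
  ext x
  exact DFunLike.congr_fun h1 x

end

/-- the factors of `G k` -/
def GK (k : ℕ) : Option (Fin (k + 1)) → Type
  | none => Multiplicative ℤ
  | some _ => ℤˣ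

instance (k : ℕ) : ∀ o, Group (GK k o)
  | none => inferInstanceAs (Group (Multiplicative ℤ))
  | some _ => inferInstanceAs (Group ℤˣ)

/-- the group `⟨x_0, …, x_k, y | x_i² = 1⟩` -/
abbrev G (k : ℕ) : Type := Monoid.CoprodI (GK k)

/-- the involutions of `G k` (the element `1` for `i > k`) -/
def xG {k : ℕ} (i : ℕ) : G k :=
  if h : i < k + 1 then
    Monoid.CoprodI.of (M := GK k) (i := some ⟨i, h⟩) (show GK k (some ⟨i, h⟩) from (-1 : ℤˣ))
  else 1

/-- the generator `y` of `G k` -/
def yG {k : ℕ} : G k :=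
  Monoid.CoprodI.of (M := GK k) (i := none) (show GK k none from Multiplicative.ofAdd (1 : ℤ))

section
variable {k : ℕ} {K : Type*} [Group K]

/-- the homomorphism from the group of order two with the value `p` at the generator -/
def c2hom (p : K) (hp : p * p = 1) : ℤˣ →* K where
  toFun x := if x = 1 then 1 else p
  map_one' := by simp
  map_mul' := by
    intro x y
    rcases Int.units_eq_one_or x with rfl | rfl <;> rcases Int.units_eq_one_or y with rfl | rfl <;>
      simp [hp]

@[simp] lemma c2hom_neg (p : K) (hp : p * p = 1) : c2hom p hp (-1) = p := by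
  simp [c2hom]

lemma homC2_ext {f g : ℤˣ →* K} (h : f (-1) = g (-1)) : f = g := by
  ext x
  rcases Int.units_eq_one_or x with rfl | rfl
  · simp
  · exact h

lemma xG_of {i : ℕ} (h : i < k + 1) : (xG i : G k) =
    Monoid.CoprodI.of (M := GK k) (i := some ⟨i, h⟩) (show GK k (some ⟨i, h⟩) from (-1 : ℤˣ)) :=
  dif_pos h

lemma xG_ge {i : ℕ} (h : k + 1 ≤ i) : (xG i : G k) = 1 := dif_neg (by omega)

@[simp] lemma xG_sq (i : ℕ) : (xG i : G k) * xG i = 1 := by
  rcases Nat.lt_or_ge i (k + 1) with h | h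
  · rw [xG_of h, ← map_mul]
    have : (show GK k (some ⟨i, h⟩) from (-1 : ℤˣ)) * (show GK k (some ⟨i, h⟩) from (-1 : ℤˣ)) =
      1 := by
      change (-1 : ℤˣ) * (-1) = 1
      simp
    rw [this, map_one]
  · rw [xG_ge h, one_mul]

@[simp] lemma xG_sq' (i : ℕ) (g : G k) : (xG i : G k) * (xG i * g) = g := by
  rw [← mul_assoc, xG_sq, one_mul]

@[simp] lemma xG_inv (i : ℕ) : (xG i : G k)⁻¹ = xG i := inv_eq_of_mul_eq_one_left (xG_sq i)

/-- the factors of the universal homomorphism on `G k` -/
def liftGf (X : ℕ → K) (hX : ∀ i, i ≤ k → X i * X i = 1) (Y : K) :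
    ∀ o : Option (Fin (k + 1)), GK k o →* K
  | none => (zpowersHom K Y : Multiplicative ℤ →* K)
  | some i => (c2hom (X i) (hX i (by omega)) : ℤˣ →* K)

/-- the universal property of `G k` -/
def liftG (X : ℕ → K) (hX : ∀ i, i ≤ k → X i * X i = 1) (Y : K) : G k →* K :=
  Monoid.CoprodI.lift (liftGf X hX Y)

lemma liftG_x (X : ℕ → K) (hX : ∀ i, i ≤ k → X i * X i = 1) (Y : K) {i : ℕ} (h : i ≤ k) :
    liftG X hX Y (xG i) = X i := by
  rw [xG_of (by omega)]
  unfold liftG
  rw [Monoid.CoprodI.lift_of]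
  exact c2hom_neg (X i) (hX i h)

@[simp] lemma liftG_y (X : ℕ → K) (hX : ∀ i, i ≤ k → X i * X i = 1) (Y : K) :
    liftG X hX Y (yG : G k) = Y := by
  unfold liftG yG
  rw [Monoid.CoprodI.lift_of]
  change zpowersHom K Y (Multiplicative.ofAdd 1) = Y
  simp

lemma homG_ext {f g : G k →* K} (hx : ∀ i, i ≤ k → f (xG i) = g (xG i))
    (hy : f yG = g yG) : f = g := by
  apply Monoid.CoprodI.ext_hom
  intro o
  cases o with
  | none =>
    have h1 : ∀ n : Multiplicative ℤ, f (Monoid.CoprodI.of (M := GK k) (i := none) n) =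
        g (Monoid.CoprodI.of (M := GK k) (i := none) n) := by
      intro n
      have h2 : (f.comp (Monoid.CoprodI.of (M := GK k) (i := none)) :
          Multiplicative ℤ →* K) = (g.comp (Monoid.CoprodI.of (M := GK k) (i := none)) :
          Multiplicative ℤ →* K) := by
        ext
        exact hy
      exact DFunLike.congr_fun h2 n
    exact MonoidHom.ext h1
  | some i =>
    have h2 : (f.comp (Monoid.CoprodI.of (M := GK k) (i := some i)) : ℤˣ →* K) =
        (g.comp (Monoid.CoprodI.of (M := GK k) (i := some i)) : ℤˣ →* K) := by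
      apply homC2_ext
      have h3 := hx i.val (by omega)
      rwa [xG_of i.isLt] at h3
    exact h2

lemma autG_ext {f g : MulAut (G k)} (hx : ∀ i, i ≤ k → f (xG i) = g (xG i))
    (hy : f yG = g yG) : f = g := by
  have h1 : f.toMonoidHom = g.toMonoidHom := homG_ext hx hy
  ext x
  exact DFunLike.congr_fun h1 x

end

end Pool.Agent.Helper38.BN
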