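import Pool.Agent.Helper38.BN.Hat
import Pool.Agent.Helper38.BN.IntH

/-!
# Project BN, block B1: the relations between the generators of `A m` and the elements `xh j`, `yh`
of `Ah m`

`k = m + 2`, `th = xh k`, `xh j = a_j (xh (j+1)) a_j⁻¹` (`xh_step`, Hat.lean), `xh_sq`,
`th_conj : th * iA x = iA (tau m x) * th` with `tau a_{k-1} = b`, `tau b = a_{k-1}`, `tau a_j = a_j`
(`j < k-1`), `tau d = d` (`tauHom_a`, ...).  Write `a_j` for `iA (aA j)`, `d` for `iA dA`.
-/

namespace Pool.Agent.Helper38.BN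

variable {m : ℕ}

/-- piece `BN-B1-G1`, (i): `a_j` commutes with `x_i` for `i > j + 1`.
Proof. Descending induction on `i` (from `i = m + 2`): `x_{m+2} = th` and `th_conj` with
`tau a_j = a_j` (`j + 1 < m + 2`); `x_i = a_i x_{i+1} a_i⁻¹` and `a_j` commutes with `a_i`
(`(relA m).comm`, mapped with `iA`). -/
theorem xh_comm_hi {i j : ℕ} (hj : j < m + 2) (hi : i ≤ m + 2) (h : j + 1 < i) :
    (iA (aA j) : Ah m) * xh i = xh i * iA (aA j) := by
  induction hi using Nat.decreasingInduction with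
  | self =>
    rw [xh_last, th_conj]
    congr 2
    exact (tauHom_a (by omega)).symm
  | of_succ i hi ih =>
    have ih' := ih (by omega)
    have hc : (iA (aA j) : Ah m) * iA (aA i) = iA (aA i) * iA (aA j) := by
      rw [← map_mul, ← map_mul, (relA m).comm j i (by omega) (by omega)]
    rw [xh_step (by omega)]
    have hc' : (iA (aA j) : Ah m) * (iA (aA i))⁻¹ = (iA (aA i))⁻¹ * iA (aA j) :=
      (Commute.inv_right (show Commute _ _ from hc)).eq
    calc (iA (aA j) : Ah m) * (iA (aA i) * xh (i + 1) * (iA (aA i))⁻¹)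
        = (iA (aA j) * iA (aA i)) * xh (i + 1) * (iA (aA i))⁻¹ := by simp only [mul_assoc]
      _ = iA (aA i) * (iA (aA j) * xh (i + 1)) * (iA (aA i))⁻¹ := by
          rw [hc]; simp only [mul_assoc]
      _ = iA (aA i) * xh (i + 1) * (iA (aA j) * (iA (aA i))⁻¹) := by
          rw [ih']; simp only [mul_assoc]
      _ = _ := by rw [hc']; simp only [mul_assoc]

/-- piece `BN-B1-G1`, (ii): `a_j` commutes with `x_i` for `i < j`.
Proof. Descending induction on `i` (from `i = j - 1`). `i = j - 1`: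
`x_{j-1} = a_{j-1} a_j x_{j+1} a_j⁻¹ a_{j-1}⁻¹`, `a_j a_{j-1} a_j = a_{j-1} a_j a_{j-1}`, and `a_{j-1}`
commutes with `x_{j+1}` by (i). `i + 1 < j`: `x_i = a_i x_{i+1} a_i⁻¹`, `a_j` commutes with `a_i`. -/
theorem xh_comm_lo {i j : ℕ} (hj : j < m + 2) (h : i < j) :
    (iA (aA j) : Ah m) * xh i = xh i * iA (aA j) := by
  obtain ⟨l, rfl⟩ : ∃ l, j = l + 1 := ⟨j - 1, by omega⟩
  have hi : i ≤ l := by omega
  clear h
  induction hi using Nat.decreasingInduction with
  | self =>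
    have hb : (iA (aA (l + 1)) : Ah m) * iA (aA l) * iA (aA (l + 1))
        = iA (aA l) * iA (aA (l + 1)) * iA (aA l) := by
      rw [← map_mul, ← map_mul, ← map_mul, ← map_mul, (relA m).braid l (by omega)]
    have hc : (iA (aA l) : Ah m) * xh (l + 1 + 1) = xh (l + 1 + 1) * iA (aA l) :=
      xh_comm_hi (by omega) (by omega) (by omega)
    have hx : (xh l : Ah m) = iA (aA l) * iA (aA (l + 1)) * xh (l + 1 + 1)
        * (iA (aA l) * iA (aA (l + 1)))⁻¹ := by
      rw [xh_step (show l < m + 2 by omega), xh_step (show l + 1 < m + 2 by omega), mul_inv_rev]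
      simp only [mul_assoc]
    generalize (iA (aA (l + 1)) : Ah m) = b at *
    generalize (iA (aA l) : Ah m) = a at *
    generalize (xh (l + 1 + 1) : Ah m) = x at *
    rw [hx]
    have h1 : (a * b)⁻¹ * b = a * (a * b)⁻¹ := by
      have : b * (a * b) = (a * b) * a := by
        rw [← mul_assoc, hb]
      rw [inv_mul_eq_iff_eq_mul, ← mul_assoc, ← this, mul_inv_cancel_right]
    calc b * (a * b * x * (a * b)⁻¹) = (b * a * b) * x * (a * b)⁻¹ := by simp only [mul_assoc]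
      _ = a * b * (a * x) * (a * b)⁻¹ := by rw [hb]; simp only [mul_assoc]
      _ = a * b * x * (a * (a * b)⁻¹) := by rw [hc]; simp only [mul_assoc]
      _ = _ := by rw [← h1]; simp only [mul_assoc]
  | of_succ i hi ih =>
    have hc : (iA (aA (l + 1)) : Ah m) * iA (aA i) = iA (aA i) * iA (aA (l + 1)) := by
      rw [← map_mul, ← map_mul, (relA m).comm i (l + 1) (by omega) (by omega)]
    rw [xh_step (by omega)]
    have hc' : (iA (aA (l + 1)) : Ah m) * (iA (aA i))⁻¹ = (iA (aA i))⁻¹ * iA (aA (l + 1)) :=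
      (Commute.inv_right (show Commute _ _ from hc)).eq
    calc (iA (aA (l + 1)) : Ah m) * (iA (aA i) * xh (i + 1) * (iA (aA i))⁻¹)
        = (iA (aA (l + 1)) * iA (aA i)) * xh (i + 1) * (iA (aA i))⁻¹ := by simp only [mul_assoc]
      _ = iA (aA i) * (iA (aA (l + 1)) * xh (i + 1)) * (iA (aA i))⁻¹ := by
          rw [hc]; simp only [mul_assoc]
      _ = iA (aA i) * xh (i + 1) * (iA (aA (l + 1)) * (iA (aA i))⁻¹) := by
          rw [ih]; simp only [mul_assoc]
      _ = _ := by rw [hc']; simp only [mul_assoc]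

/-- piece `BN-B1-G2`, (iii): `a_j x_j a_j⁻¹ = x_j x_{j+1} x_j`.
Proof. Descending induction on `j` from `j = k - 1 = m + 1`, `a = a_{k-1}`, `th a th = b`, `a b = b a`:
`x_{k-1} = a th a⁻¹` and `x_{k-1} x_k x_{k-1} = a th a⁻¹ th a th a⁻¹ = a th a⁻¹ b a⁻¹ = a th b a⁻²
= a (th b th) th a⁻² = a² th a⁻² = a x_{k-1} a⁻¹`. For `j < k - 1` from `j + 1`: conjugate the identity
`a_{j+1} x_{j+1} a_{j+1}⁻¹ = x_{j+1} x_{j+2} x_{j+1}` with `g = a_{j+1} a_j`:
`g x_{j+1} g⁻¹ = a_{j+1} x_j a_{j+1}⁻¹ = x_j` (ii), `g x_{j+2} g⁻¹ = a_{j+1} x_{j+2} a_{j+1}⁻¹ = x_{j+1}`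
((i): `a_j` commutes with `x_{j+2}`), `g a_{j+1} g⁻¹ = a_j` (braid relation). -/
theorem xh_self {j : ℕ} (hj : j < m + 2) :
    (iA (aA j) : Ah m) * xh j * (iA (aA j))⁻¹ = xh j * xh (j + 1) * xh j := by
  have hj' : j ≤ m + 1 := by omega
  clear hj
  induction hj' using Nat.decreasingInduction with
  | self =>
    have h1 : (th : Ah m) * iA (aA (m + 1)) = iA bA * th := by
      rw [th_conj]
      congr 2
      exact tauHom_a'
    have h2 : (th : Ah m) * iA bA = iA (aA (m + 1)) * th := by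
      rw [th_conj]
      congr 2
      exact tauHom_b
    have h3 : (iA bA : Ah m) * iA (aA (m + 1)) = iA (aA (m + 1)) * iA bA := by
      rw [← map_mul, ← map_mul, (relA m).ba]
    have h4 := th_sq (m := m)
    have hx : (xh (m + 1) : Ah m) = iA (aA (m + 1)) * th * (iA (aA (m + 1)))⁻¹ := by
      rw [xh_step (by omega), ← xh_last]
    rw [show m + 1 + 1 = m + 2 from rfl, xh_last, hx]
    generalize (iA (aA (m + 1)) : Ah m) = a at *
    generalize (iA bA : Ah m) = b at *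
    generalize (th : Ah m) = t at *
    have e1 : t * a * t = b := by rw [h1, mul_assoc, h4, mul_one]
    have e2 : t * a⁻¹ * b = a * t * a⁻¹ := by
      rw [eq_mul_inv_iff_mul_eq]
      calc t * a⁻¹ * b * a = t * (a⁻¹ * (b * a)) := by simp only [mul_assoc]
        _ = t * b := by rw [h3, inv_mul_cancel_left]
        _ = a * t := h2
    calc a * (a * t * a⁻¹) * a⁻¹ = a * (t * a⁻¹ * b) * a⁻¹ := by rw [e2]
      _ = a * (t * a⁻¹ * (t * a * t)) * a⁻¹ := by rw [e1]
      _ = a * t * a⁻¹ * t * (a * t * a⁻¹) := by simp only [mul_assoc]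
  | of_succ i hi ih =>
    have hb : (iA (aA (i + 1)) : Ah m) * iA (aA i) * iA (aA (i + 1))
        = iA (aA i) * iA (aA (i + 1)) * iA (aA i) := by
      rw [← map_mul, ← map_mul, ← map_mul, ← map_mul, (relA m).braid i (by omega)]
    have h1 : (iA (aA (i + 1)) : Ah m) * xh i = xh i * iA (aA (i + 1)) :=
      xh_comm_lo (by omega) (by omega)
    have h2 : (iA (aA i) : Ah m) * xh (i + 1 + 1) = xh (i + 1 + 1) * iA (aA i) :=
      xh_comm_hi (by omega) (by omega) (by omega)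
    have h3 := xh_step (m := m) (j := i) (by omega)
    have h4 := xh_step (m := m) (j := i + 1) (by omega)
    generalize (iA (aA (i + 1)) : Ah m) = b at *
    generalize (iA (aA i) : Ah m) = a at *
    generalize (xh (i + 1 + 1) : Ah m) = x2 at *
    generalize (xh (i + 1) : Ah m) = x1 at *
    generalize (xh i : Ah m) = x0 at *
    have e1 : (b * a) * b * (b * a)⁻¹ = a := by
      rw [mul_inv_eq_iff_eq_mul, ← mul_assoc]
      exact hb
    have e2 : (b * a) * x1 * (b * a)⁻¹ = x0 := by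
      calc (b * a) * x1 * (b * a)⁻¹ = b * (a * x1 * a⁻¹) * b⁻¹ := by group
        _ = b * x0 * b⁻¹ := by rw [← h3]
        _ = x0 := by rw [h1, mul_inv_cancel_right]
    have e3 : (b * a) * x2 * (b * a)⁻¹ = x1 := by
      calc (b * a) * x2 * (b * a)⁻¹ = b * (a * x2 * a⁻¹) * b⁻¹ := by group
        _ = b * x2 * b⁻¹ := by rw [h2, mul_inv_cancel_right]
        _ = x1 := h4.symm
    calc a * x0 * a⁻¹ = ((b * a) * b * (b * a)⁻¹) * ((b * a) * x1 * (b * a)⁻¹) *
          ((b * a) * b * (b * a)⁻¹)⁻¹ := by rw [e1, e2]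
      _ = (b * a) * (b * x1 * b⁻¹) * (b * a)⁻¹ := by group
      _ = (b * a) * (x1 * x2 * x1) * (b * a)⁻¹ := by rw [ih]
      _ = ((b * a) * x1 * (b * a)⁻¹) * ((b * a) * x2 * (b * a)⁻¹) *
          ((b * a) * x1 * (b * a)⁻¹) := by group
      _ = x0 * x1 * x0 := by rw [e2, e3]

/-- piece `BN-B1-G2`, (iv): `d` commutes with `x_j` for `j ≥ 1`: descending induction; `d` commutes
with `th` and with `a_j`, `j ≥ 1`. -/
theorem xh_d {j : ℕ} (hj : 1 ≤ j) (hj' : j ≤ m + 2) :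
    (iA dA : Ah m) * xh j = xh j * iA dA := by
  induction hj' using Nat.decreasingInduction with
  | self =>
    rw [xh_last, th_conj]
    congr 2
    exact tauHom_d.symm
  | of_succ i hi ih =>
    have ih' := ih (by omega)
    have hc : (iA dA : Ah m) * iA (aA i) = iA (aA i) * iA dA := by
      rw [← map_mul, ← map_mul, (relA m).dcomm i (by omega) (by omega)]
    have hc' : (iA dA : Ah m) * (iA (aA i))⁻¹ = (iA (aA i))⁻¹ * iA dA :=
      (Commute.inv_right (show Commute _ _ from hc)).eq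
    rw [xh_step (by omega)]
    calc (iA dA : Ah m) * (iA (aA i) * xh (i + 1) * (iA (aA i))⁻¹)
        = (iA dA * iA (aA i)) * xh (i + 1) * (iA (aA i))⁻¹ := by simp only [mul_assoc]
      _ = iA (aA i) * (iA dA * xh (i + 1)) * (iA (aA i))⁻¹ := by
          rw [hc]; simp only [mul_assoc]
      _ = iA (aA i) * xh (i + 1) * (iA dA * (iA (aA i))⁻¹) := by
          rw [ih']; simp only [mul_assoc]
      _ = _ := by rw [hc']; simp only [mul_assoc]

/-- piece `BN-B1-G3`: `a_j` commutes with `x_0 ⋯ x_i` for `i ≥ j + 1` (and with `x_0 ⋯ x_i` for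
`i < j`).
Proof. Induction on `i`. `x_0 ⋯ x_{j-1}` commutes with `a_j` by (ii);
`a_j x_j x_{j+1} a_j⁻¹ = (x_j x_{j+1} x_j) x_j = x_j x_{j+1}` by (iii), `xh_step` and `xh_sq`; the rest
by (i). -/
theorem xwh_comm {i j : ℕ} (hj : j < m + 2) (hi : i ≤ m + 2) (h : i ≠ j) :
    (iA (aA j) : Ah m) * xwh i = xwh i * iA (aA j) := by
  have hlo : ∀ i, i < j → Commute (iA (aA j) : Ah m) (xwh i) := by
    intro i
    induction i with
    | zero =>
      intro h0
      exact xh_comm_lo hj h0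
    | succ i ih =>
      intro h0
      exact (ih (by omega)).mul_right (xh_comm_lo hj h0)
  have hpair : Commute (iA (aA j) : Ah m) (xh j * xh (j + 1)) := by
    have h1 := xh_self (m := m) hj
    have h2 := xh_step (m := m) hj
    have h3 := xh_sq (m := m) j
    change (iA (aA j) : Ah m) * (xh j * xh (j + 1)) = xh j * xh (j + 1) * iA (aA j)
    have h4 : (iA (aA j) : Ah m) * (xh j * xh (j + 1)) =
        (iA (aA j) * xh j * (iA (aA j))⁻¹) * (iA (aA j) * xh (j + 1) * (iA (aA j))⁻¹) *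
          iA (aA j) := by
      group
    rw [h4, h1, ← h2, mul_assoc (xh j * xh (j + 1)) (xh j) (xh j), h3, mul_one]
  have hhi : ∀ n, j + 1 + n ≤ m + 2 → Commute (iA (aA j) : Ah m) (xwh (j + 1 + n)) := by
    intro n
    induction n with
    | zero =>
      intro _
      rcases Nat.eq_zero_or_pos j with h0 | h0
      · subst h0
        exact hpair
      · obtain ⟨j', rfl⟩ : ∃ j', j = j' + 1 := ⟨j - 1, by omega⟩
        have h1 : (xwh (j' + 1 + 1 + 0) : Ah m) = xwh j' * (xh (j' + 1) * xh (j' + 1 + 1)) := by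
          rw [← mul_assoc]
          rfl
        rw [h1]
        exact (hlo j' (by omega)).mul_right hpair
    | succ n ih =>
      intro hn
      exact (ih (by omega)).mul_right (xh_comm_hi (i := j + 1 + (n + 1)) hj hn (by omega))
  rcases lt_or_gt_of_ne h with h1 | h1
  · exact hlo i h1
  · obtain ⟨n, rfl⟩ := Nat.exists_eq_add_of_le (show j + 1 ≤ i by omega)
    exact hhi n hi

/-- piece `BN-B1-G3`, (v): `a_j` commutes with `y = ζ X⁻¹` (`zeta_comm_a` of Br1.lean). -/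
theorem yh_comm {j : ℕ} (hj : j < m + 2) :
    (iA (aA j) : Ah m) * yh = yh * iA (aA j) := by
  have h1 : Commute (iA (aA j) : Ah m) (iA (zeA m)) := by
    have h2 := zeta_comm_a (relA m).toRelB hj
    change (iA (aA j) : Ah m) * iA (zeA m) = iA (zeA m) * iA (aA j)
    rw [← map_mul, ← map_mul]
    exact congrArg _ h2.symm
  have h2 : Commute (iA (aA j) : Ah m) (xwh (m + 2)) := xwh_comm hj le_rfl (by omega)
  exact h1.mul_right h2.inv_right

private theorem kapx_succ {p : ℕ} (x : Ah m) :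
    (iA (kap aA (p + 1)) : Ah m) * x * (iA (kap aA (p + 1)))⁻¹
      = iA (kap aA p) * ((iA (aA p) : Ah m) * x * (iA (aA p))⁻¹) * (iA (kap aA p))⁻¹ := by
  rw [show (kap aA (p + 1) : A m) = kap aA p * aA p from rfl, map_mul]
  group

private theorem kapx_last {p : ℕ} (hp : p ≤ m + 2) :
    (iA (kap aA p) : Ah m) * xh p * (iA (kap aA p))⁻¹ = xh 0 := by
  induction p with
  | zero =>
    rw [show (kap aA 0 : A m) = 1 from rfl, map_one]
    group
  | succ p ih =>
    rw [kapx_succ, ← xh_step (by omega), ih (by omega)]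

private theorem kapx_comm {p i : ℕ} (hi : i ≤ m + 2) (h : p < i) :
    (iA (kap aA p) : Ah m) * xh i * (iA (kap aA p))⁻¹ = xh i := by
  induction p with
  | zero =>
    rw [show (kap aA 0 : A m) = 1 from rfl, map_one]
    group
  | succ p ih =>
    rw [kapx_succ, xh_comm_hi (by omega) hi h, mul_inv_cancel_right, ih (by omega)]

private theorem kapx_gen {j p : ℕ} (hp : p ≤ m + 2) (h : j < p) :
    (iA (kap aA p) : Ah m) * xh j * (iA (kap aA p))⁻¹ = xh 0 * xh (j + 1) * xh 0 := by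
  induction p with
  | zero => omega
  | succ p ih =>
    rcases Nat.lt_or_ge j p with h1 | h1
    · rw [kapx_succ, xh_comm_lo (by omega) h1, mul_inv_cancel_right, ih (by omega) h1]
    · have e : j = p := by omega
      subst e
      have e0 := kapx_last (m := m) (p := j) (by omega)
      have e1 := kapx_comm (m := m) (p := j) (i := j + 1) (by omega) (by omega)
      rw [kapx_succ, xh_self (by omega)]
      have e2 : (iA (kap aA j) : Ah m) * (xh j * xh (j + 1) * xh j) * (iA (kap aA j))⁻¹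
          = (iA (kap aA j) * xh j * (iA (kap aA j))⁻¹)
            * (iA (kap aA j) * xh (j + 1) * (iA (kap aA j))⁻¹)
            * (iA (kap aA j) * xh j * (iA (kap aA j))⁻¹) := by group
      rw [e2, e0, e1]

/-- piece `BN-B1-G4`: `κ = a_0 ⋯ a_{k-1}` acts by `κ x_j κ⁻¹ = x_0 x_{j+1} x_0` (`j < k`).
Proof. More generally for `kap aA p`, `p > j`: `kap aA p = kap aA j * a_j * (a_{j+1} ⋯ a_{p-1})`, the
last factors commute with `x_j` (ii), `a_j x_j a_j⁻¹ = x_j x_{j+1} x_j`, and `kap aA j` commutes with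
`x_{j+1}` (i) and maps `x_j` to `x_0` (`xh_step`). -/
theorem kap_xh {j : ℕ} (hj : j < m + 2) :
    (iA (kap aA (m + 2)) : Ah m) * xh j * (iA (kap aA (m + 2)))⁻¹ = xh 0 * xh (j + 1) * xh 0 :=
  kapx_gen le_rfl hj

/-- piece `BN-B1-G4`: `κ x_k κ⁻¹ = x_0`: `kap aA p * x_p * (kap aA p)⁻¹ = x_0` by induction on `p`
(`xh_step`). -/
theorem kap_xh_last :
    (iA (kap aA (m + 2)) : Ah m) * xh (m + 2) * (iA (kap aA (m + 2)))⁻¹ = xh 0 :=
  kapx_last le_rfl

private theorem G5_c {j : ℕ} (hj : j < m + 2) :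
    (xh 0 * iA (kap aA (m + 2)) : Ah m) * xh j = xh (j + 1) * (xh 0 * iA (kap aA (m + 2))) := by
  have h := kap_xh (m := m) hj
  rw [mul_inv_eq_iff_eq_mul] at h
  calc (xh 0 * iA (kap aA (m + 2)) : Ah m) * xh j
      = xh 0 * (iA (kap aA (m + 2)) * xh j) := by rw [mul_assoc]
    _ = (xh 0 * xh 0) * xh (j + 1) * xh 0 * iA (kap aA (m + 2)) := by
        rw [h]; simp only [mul_assoc]
    _ = xh (j + 1) * (xh 0 * iA (kap aA (m + 2))) := by
        rw [xh_sq, one_mul, mul_assoc]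

private theorem G5_c_last :
    (xh 0 * iA (kap aA (m + 2)) : Ah m) * xh (m + 2) = xh 0 * (xh 0 * iA (kap aA (m + 2))) := by
  have h := kap_xh_last (m := m)
  rw [mul_inv_eq_iff_eq_mul] at h
  rw [mul_assoc, h]

private theorem G5_pow {i j : ℕ} (h : j + i ≤ m + 2) :
    (xh 0 * iA (kap aA (m + 2)) : Ah m) ^ i * xh j =
      xh (j + i) * (xh 0 * iA (kap aA (m + 2))) ^ i := by
  induction i with
  | zero => simp
  | succ i ih =>
    rw [pow_succ', mul_assoc, ih (by omega), ← mul_assoc, G5_c (by omega), mul_assoc,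
      ← add_assoc]

private theorem G5_kap (i : ℕ) (h : i ≤ m + 2) :
    (iA (kap aA (m + 2)) : Ah m) ^ (i + 1) =
      xwh i * (xh 0 * iA (kap aA (m + 2))) ^ (i + 1) := by
  have hk : (iA (kap aA (m + 2)) : Ah m) = xh 0 * (xh 0 * iA (kap aA (m + 2))) := by
    rw [← mul_assoc, xh_sq, one_mul]
  induction i with
  | zero =>
    rw [zero_add, pow_one, pow_one]
    exact hk
  | succ i ih =>
    have e := G5_pow (m := m) (i := i + 1) (j := 0) (by omega)
    rw [zero_add] at e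
    calc (iA (kap aA (m + 2)) : Ah m) ^ (i + 1 + 1)
        = iA (kap aA (m + 2)) ^ (i + 1) * iA (kap aA (m + 2)) := pow_succ _ _
      _ = xwh i * (xh 0 * iA (kap aA (m + 2))) ^ (i + 1) *
          (xh 0 * (xh 0 * iA (kap aA (m + 2)))) := by
          rw [ih (by omega), ← hk]
      _ = xwh i * ((xh 0 * iA (kap aA (m + 2))) ^ (i + 1) * xh 0) *
          (xh 0 * iA (kap aA (m + 2))) := by simp only [mul_assoc]
      _ = xwh i * xh (i + 1) * ((xh 0 * iA (kap aA (m + 2))) ^ (i + 1) *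
          (xh 0 * iA (kap aA (m + 2)))) := by rw [e]; simp only [mul_assoc]
      _ = xwh (i + 1) * (xh 0 * iA (kap aA (m + 2))) ^ (i + 1 + 1) := by
          rw [← pow_succ]; rfl

private theorem G5_comm {j : ℕ} (hj : j ≤ m + 2) :
    (xh 0 * iA (kap aA (m + 2)) : Ah m) ^ (m + 2 + 1) * xh j =
      xh j * (xh 0 * iA (kap aA (m + 2))) ^ (m + 2 + 1) := by
  have e1 := G5_pow (m := m) (i := m + 2 - j) (j := j) (by omega)
  rw [show j + (m + 2 - j) = m + 2 by omega] at e1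
  have e2 := G5_pow (m := m) (i := j) (j := 0) (by omega)
  rw [zero_add] at e2
  have e3 := G5_c_last (m := m)
  have hn : ∀ c : Ah m, c ^ (m + 2 + 1) = c ^ j * (c * c ^ (m + 2 - j)) := by
    intro c
    rw [← pow_succ', ← pow_add]
    congr 1
    omega
  rw [hn]
  generalize (xh 0 * iA (kap aA (m + 2)) : Ah m) = c at *
  calc c ^ j * (c * c ^ (m + 2 - j)) * xh j
      = c ^ j * (c * (c ^ (m + 2 - j) * xh j)) := by simp only [mul_assoc]
    _ = c ^ j * ((c * xh (m + 2)) * c ^ (m + 2 - j)) := by rw [e1]; simp only [mul_assoc]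
    _ = (c ^ j * xh 0) * (c * c ^ (m + 2 - j)) := by rw [e3]; simp only [mul_assoc]
    _ = xh j * (c ^ j * (c * c ^ (m + 2 - j))) := by rw [e2]; simp only [mul_assoc]

/-- piece `BN-B1-G5`: `Ω = κ^(k+1)` acts on the `x_j` as the conjugation with `X = x_0 ⋯ x_k`.
Proof. Put `c = x_0 κ`. Then `c x_j c⁻¹ = x_{j+1}` (`j < k`) and `c x_k c⁻¹ = x_0` by `kap_xh`,
`kap_xh_last`, `xh_sq`. `κ = x_0 c` and `κ^(i+1) = x_0 (c x_0 c⁻¹) ⋯ (c^i x_0 c^{-i}) c^(i+1)
= xwh i * c^(i+1)` for `i ≤ k` (induction on `i`), so `Ω = X c^(k+1)`, and `c^(k+1)` commutes with all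
`x_j` (`j ≤ k`). -/
theorem Om_xh {j : ℕ} (hj : j ≤ m + 2) :
    (iA (Om (m + 2) aA) : Ah m) * xh j * (iA (Om (m + 2) aA))⁻¹
      = xwh (m + 2) * xh j * (xwh (m + 2))⁻¹ := by
  have h1 : (iA (Om (m + 2) aA) : Ah m) =
      xwh (m + 2) * (xh 0 * iA (kap aA (m + 2))) ^ (m + 2 + 1) := by
    unfold Om
    rw [map_pow]
    exact G5_kap (m + 2) le_rfl
  rw [h1, mul_inv_rev, mul_assoc (xwh (m + 2)), G5_comm hj]
  group

/-- piece `BN-B1-G6`: `z_j` (`j ≥ 1`) commutes with `d x_0 d⁻¹`.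
Proof. Induction on `j`. `j = 1`: `z_1 = a_0⁻¹ d a_0`; equivalently `d` commutes with
`a_0 d x_0 d⁻¹ a_0⁻¹ = (a_0 d a_0) x_1 (a_0 d a_0)⁻¹` (`x_0 = a_0 x_1 a_0⁻¹`); but `d` commutes with
`a_0 d a_0` (relation `four`) and with `x_1`. Step: `z_{j+1} = a_j⁻¹ z_j a_j`, and `a_j` (`j ≥ 1`)
commutes with `d` and with `x_0` (ii). -/
theorem zz_dx {j : ℕ} (hj : 1 ≤ j) (hj' : j ≤ m + 2) :
    (iA (zz aA dA j) : Ah m) * (iA dA * xh 0 * (iA dA)⁻¹)
      = (iA dA * xh 0 * (iA dA)⁻¹) * iA (zz aA dA j) := by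
  induction j, hj using Nat.le_induction with
  | base =>
    have h0 : (zz aA dA 1 : A m) = (aA 0)⁻¹ * dA * aA 0 := rfl
    have hx : Commute (iA dA : Ah m) (xh 1) := xh_d (m := m) le_rfl (by omega)
    have hc : Commute (iA dA : Ah m) (iA (aA 0) * iA dA * iA (aA 0)) := by
      have h1 := congrArg (iA : A m → Ah m) ((relA m).four (by omega))
      rw [map_mul, map_mul, map_mul, map_mul, map_mul, map_mul] at h1
      change (iA dA : Ah m) * (iA (aA 0) * iA dA * iA (aA 0)) =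
        iA (aA 0) * iA dA * iA (aA 0) * iA dA
      rw [h1, mul_assoc, mul_assoc, mul_assoc]
    rw [h0, map_mul, map_mul, map_inv, xh_step (show 0 < m + 2 by omega)]
    generalize (xh (0 + 1) : Ah m) = x at hx ⊢
    generalize (iA dA : Ah m) = d at hx hc ⊢
    generalize (iA (aA 0) : Ah m) = a at hc ⊢
    have h1 : d * (a * d * a * x * (a * d * a)⁻¹) = a * d * a * x * (a * d * a)⁻¹ * d :=
      (hc.mul_right hx).mul_right hc.inv_right
    calc a⁻¹ * d * a * (d * (a * x * a⁻¹) * d⁻¹)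
        = a⁻¹ * (d * (a * d * a * x * (a * d * a)⁻¹)) * a := by group
      _ = d * (a * x * a⁻¹) * d⁻¹ * (a⁻¹ * d * a) := by rw [h1]; group
  | succ j hj ih =>
    have h0 : (zz aA dA (j + 1) : A m) = (aA j)⁻¹ * zz aA dA j * aA j := rfl
    have ih' : Commute (iA (zz aA dA j) : Ah m) (iA dA * xh 0 * (iA dA)⁻¹) := ih (by omega)
    have hd : Commute (iA (aA j) : Ah m) (iA dA) := by
      change (iA (aA j) : Ah m) * iA dA = iA dA * iA (aA j)
      rw [← map_mul, (relA m).dcomm j (by omega) (by omega), map_mul]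
    have hx : Commute (iA (aA j) : Ah m) (xh 0) := xh_comm_lo (by omega) (by omega)
    have ht : Commute (iA (aA j) : Ah m) (iA dA * xh 0 * (iA dA)⁻¹) :=
      (hd.mul_right hx).mul_right hd.inv_right
    rw [h0, map_mul, map_mul, map_inv]
    exact (ht.inv_left.mul_left ih').mul_left ht

private lemma G7_Om_xwh : ∀ i : ℕ, i ≤ m + 2 →
    (iA (Om (m + 2) aA) : Ah m) * xwh i * (iA (Om (m + 2) aA))⁻¹
      = xwh (m + 2) * xwh i * (xwh (m + 2))⁻¹ := by
  intro i
  induction i with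
  | zero => intro hi; exact Om_xh hi
  | succ i ih =>
    intro hi
    have h1 := ih (by omega)
    have h2 := Om_xh (m := m) hi
    rw [show (xwh (i + 1) : Ah m) = xwh i * xh (i + 1) from rfl]
    generalize (iA (Om (m + 2) aA) : Ah m) = o at h1 h2 ⊢
    generalize (xwh (m + 2) : Ah m) = X at h1 h2 ⊢
    calc o * (xwh i * xh (i + 1)) * o⁻¹ = (o * xwh i * o⁻¹) * (o * xh (i + 1) * o⁻¹) := by group
      _ = X * (xwh i * xh (i + 1)) * X⁻¹ := by rw [h1, h2]; group

private lemma G7_wz : ∀ i : ℕ, i ≤ m + 2 →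
    (iA (wz aA dA i) : Ah m) * xh 0 * (iA (wz aA dA i))⁻¹ = iA dA * xh 0 * (iA dA)⁻¹ := by
  intro i
  induction i with
  | zero => intro _; rfl
  | succ i ih =>
    intro hi
    have h1 := ih (by omega)
    have h2 := zz_dx (m := m) (j := i + 1) (by omega) hi
    rw [show (wz aA dA (i + 1) : A m) = zz aA dA (i + 1) * wz aA dA i from rfl, map_mul]
    generalize (iA (zz aA dA (i + 1)) : Ah m) = z at h2 ⊢
    generalize (iA (wz aA dA i) : Ah m) = w at h1 ⊢
    generalize (iA dA * xh 0 * (iA dA)⁻¹ : Ah m) = t at h1 h2 ⊢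
    calc z * w * xh 0 * (z * w)⁻¹ = z * (w * xh 0 * w⁻¹) * z⁻¹ := by group
      _ = t := by rw [h1, h2]; group

/-- piece `BN-B1-G7`, (vi): `d x_0 d⁻¹ = y x_0 y⁻¹`.
Proof. `ζ = (z_k ⋯ z_0) Ω` (`zeta_eq` of Br1.lean: `zeta k a d = wz a d k * Om k a`), `y = ζ X⁻¹`. So
`y x_0 y⁻¹ = ζ X⁻¹ x_0 X ζ⁻¹ = z_k ⋯ z_1 z_0 x_0 z_0⁻¹ (⋯)⁻¹` by `Om_xh`; `z_0 = d`; and `z_j`
(`j ≥ 1`) commutes with `d x_0 d⁻¹` (`zz_dx`). -/
theorem d_x0 : (iA dA : Ah m) * xh 0 * (iA dA)⁻¹ = yh * xh 0 * yh⁻¹ := by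
  have h0 := Om_xh (m := m) (j := 0) (by omega)
  have h1 := G7_Om_xwh (m := m) (m + 2) le_rfl
  have h2 := G7_wz (m := m) (m + 2) le_rfl
  have h3 : (zeA m : A m) = wz aA dA (m + 2) * Om (m + 2) aA := zeta_eq (relA m).toRelB
  have h4 : (yh : Ah m) = iA (wz aA dA (m + 2)) * iA (Om (m + 2) aA) * (xwh (m + 2))⁻¹ := by
    rw [show (yh : Ah m) = iA (zeA m) * (xwh (m + 2))⁻¹ from rfl, h3, map_mul]
  rw [h4, ← h2]
  generalize (iA (Om (m + 2) aA) : Ah m) = o at h0 h1 ⊢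
  generalize (iA (wz aA dA (m + 2)) : Ah m) = w
  generalize (xwh (m + 2) : Ah m) = X at h0 h1 ⊢
  have h5 : o * X * o⁻¹ = X := by rw [h1]; group
  have h6 : o * (X⁻¹ * xh 0 * X) * o⁻¹ = xh 0 := by
    calc o * (X⁻¹ * xh 0 * X) * o⁻¹ = (o * X * o⁻¹)⁻¹ * (o * xh 0 * o⁻¹) * (o * X * o⁻¹) := by
          group
      _ = xh 0 := by rw [h5, h0]; group
  calc w * xh 0 * w⁻¹ = w * (o * (X⁻¹ * xh 0 * X) * o⁻¹) * w⁻¹ := by rw [h6]
    _ = w * o * X⁻¹ * xh 0 * (w * o * X⁻¹)⁻¹ := by group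

private lemma G7_d_xwh : ∀ i : ℕ, i ≤ m + 2 →
    (iA dA : Ah m) * xwh i * (iA dA)⁻¹ = iA dA * xh 0 * (iA dA)⁻¹ * xh 0 * xwh i := by
  intro i
  induction i with
  | zero =>
    intro _
    rw [show (xwh 0 : Ah m) = xh 0 from rfl, mul_assoc _ (xh 0) (xh 0), xh_sq, mul_one]
  | succ i ih =>
    intro hi
    have h1 := ih (by omega)
    have h2 := xh_d (m := m) (j := i + 1) (by omega) hi
    rw [show (xwh (i + 1) : Ah m) = xwh i * xh (i + 1) from rfl]
    generalize (iA dA : Ah m) = d at h1 h2 ⊢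
    calc d * (xwh i * xh (i + 1)) * d⁻¹ = (d * xwh i * d⁻¹) * (d * xh (i + 1)) * d⁻¹ := by group
      _ = d * xh 0 * d⁻¹ * xh 0 * (xwh i * xh (i + 1)) := by rw [h1, h2]; group

/-- piece `BN-B1-G7`, (vii): `d y d⁻¹ = y x_0 y x_0 y⁻¹`.
Proof. `X = x_0 · rest` and `rest` commutes with `d` by (iv), so
`d X d⁻¹ = (d x_0 d⁻¹) x_0 X = y x_0 y⁻¹ x_0 X`. `d` commutes with `ζ` (`zeta_comm_d`), so
`d y d⁻¹ = ζ (d X d⁻¹)⁻¹ = ζ X⁻¹ x_0 y x_0 y⁻¹ = y x_0 y x_0 y⁻¹`. -/
theorem d_y : (iA dA : Ah m) * yh * (iA dA)⁻¹ = yh * xh 0 * yh * xh 0 * yh⁻¹ := by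
  have h1 := G7_d_xwh (m := m) (m + 2) le_rfl
  rw [d_x0] at h1
  have h2 : zeA m * dA = dA * zeA m := zeta_comm_d (relA m).toRelB
  have h3 : (iA (zeA m) : Ah m) * iA dA = iA dA * iA (zeA m) := by
    rw [← map_mul, h2, map_mul]
  have h4 : (yh : Ah m) = iA (zeA m) * (xwh (m + 2))⁻¹ := rfl
  have h5 : (xh 0 : Ah m)⁻¹ = xh 0 := inv_eq_of_mul_eq_one_left (xh_sq 0)
  generalize (xh 0 : Ah m) = x at h1 h5 ⊢
  generalize (xwh (m + 2) : Ah m) = X at h1 h4
  generalize (iA (zeA m) : Ah m) = z at h3 h4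
  generalize (iA dA : Ah m) = d at h1 h3 ⊢
  generalize (yh : Ah m) = y at h1 h4 ⊢
  have h6 : d * z * d⁻¹ = z := by rw [← h3]; group
  calc d * y * d⁻¹ = (d * z * d⁻¹) * (d * X * d⁻¹)⁻¹ := by rw [h4]; group
    _ = z * X⁻¹ * x⁻¹ * y * x⁻¹ * y⁻¹ := by rw [h6, h1]; group
    _ = y * x * y * x * y⁻¹ := by rw [h5, ← h4]

end Pool.Agent.Helper38.BN
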