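import Pool.Agent.Helper38.BN.G1
import Pool.Agent.Helper38.BN.IntC

/-!
# Project BN, block B1: words under homomorphisms; the action of `ζ` on `G k`; generation of `Ah m`
-/

namespace Pool.Agent.Helper38.BN

section
variable {K L : Type*} [Group K] [Group L]

theorem kap_congr {a a' : ℕ → K} {p : ℕ} (h : ∀ j, j < p → a j = a' j) : kap a p = kap a' p := by
  induction p with
  | zero => rfl
  | succ p ih =>
    change kap a p * a p = kap a' p * a' p
    rw [ih (fun j hj => h j (by omega)), h p (by omega)]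

theorem map_kap (f : K →* L) (a : ℕ → K) (p : ℕ) : f (kap a p) = kap (fun j => f (a j)) p := by
  induction p with
  | zero => exact map_one f
  | succ p ih =>
    change f (kap a p * a p) = kap (fun j => f (a j)) p * f (a p)
    rw [map_mul, ih]

theorem map_zeta (f : K →* L) (k : ℕ) (a : ℕ → K) (d : K) :
    f (zeta k a d) = zeta k (fun j => f (a j)) (f d) := by
  unfold zeta rho
  rw [map_pow, map_mul, map_kap]

theorem zeta_congr {k : ℕ} {a a' : ℕ → K} (h : ∀ j, j < k → a j = a' j) (d : K) :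
    zeta k a d = zeta k a' d := by
  unfold zeta rho
  rw [kap_congr h]

end

section
variable {k : ℕ}

private theorem gkap_fix {i : ℕ} (hi : i ≤ k) : ∀ p, p < i →
    kap (gA : ℕ → MulAut (G k)) p (xG i) = xG i := by
  intro p
  induction p with
  | zero => intro _; rfl
  | succ p ih =>
    intro hp
    change kap (gA : ℕ → MulAut (G k)) p (gA p (xG i)) = xG i
    rw [gA_x (by omega) hi]
    unfold gC
    rw [if_neg (by omega), if_neg (by omega)]
    exact ih (by omega)

private theorem gkap_top : ∀ p, p ≤ k → kap (gA : ℕ → MulAut (G k)) p (xG p) = xG 0 := by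
  intro p
  induction p with
  | zero => intro _; rfl
  | succ p ih =>
    intro hp
    change kap (gA : ℕ → MulAut (G k)) p (gA p (xG (p + 1))) = xG 0
    rw [gA_x (by omega) hp]
    unfold gC
    rw [if_neg (by omega), if_pos rfl]
    exact ih (by omega)

private theorem gkap_low {j : ℕ} : ∀ p, p ≤ k → j < p →
    kap (gA : ℕ → MulAut (G k)) p (xG j) = xG 0 * xG (j + 1) * xG 0 := by
  intro p
  induction p with
  | zero => intro _ h; omega
  | succ p ih =>
    intro hp hj
    change kap (gA : ℕ → MulAut (G k)) p (gA p (xG j)) = _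
    rw [gA_x (by omega) (by omega)]
    unfold gC
    rcases Nat.lt_or_ge j p with h | h
    · rw [if_neg (by omega), if_neg (by omega)]
      exact ih (by omega) h
    · obtain rfl : j = p := by omega
      rw [if_pos rfl, map_mul, map_mul, gkap_top j (by omega), gkap_fix hp j (by omega)]

/-- piece `BN-B1-G8`: `κ = α_0 ⋯ α_{k-1}` on `G k`: `x_j ↦ x_0 x_{j+1} x_0` (`j < k`).
Proof. For `kap gA p`, `j < p ≤ k`, by induction on `p`: `α_j x_j = x_j x_{j+1} x_j`,
`α_i x_j = x_j` for `i > j`; `kap gA j` fixes `x_{j+1}` and maps `x_j` to `x_0` (`α_i x_{i+1} = x_i`).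
(`gA_x`, unfold `gC`.) -/
theorem gkap_x {j : ℕ} (hj : j < k) :
    kap (gA : ℕ → MulAut (G k)) k (xG j) = xG 0 * xG (j + 1) * xG 0 := gkap_low k le_rfl hj

/-- piece `BN-B1-G8` -/
theorem gkap_x_last : kap (gA : ℕ → MulAut (G k)) k (xG k) = xG 0 := gkap_top k le_rfl

private theorem gkap_y_aux : ∀ p, kap (gA : ℕ → MulAut (G k)) p yG = yG := by
  intro p
  induction p with
  | zero => rfl
  | succ p ih =>
    change kap (gA : ℕ → MulAut (G k)) p (gA p yG) = yG
    rw [gA_y]
    exact ih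

/-- piece `BN-B1-G8` -/
theorem gkap_y : kap (gA : ℕ → MulAut (G k)) k yG = yG := gkap_y_aux k

/-- `σ conj c = conj (σ c) σ` -/
private lemma g9_mul_conj {K : Type*} [Group K] (s : MulAut K) (c : K) :
    s * MulAut.conj c = MulAut.conj (s c) * s := by
  ext x
  simp [MulAut.mul_apply, MulAut.conj_apply]

/-- the involution `c = y x_0 y⁻¹` -/
private def g9c (k : ℕ) : G k := yG * xG 0 * yG⁻¹

private lemma g9c_sq : (g9c k) * g9c k = 1 := by
  unfold g9c
  simp [mul_assoc]

private lemma g9c_inv : (g9c k)⁻¹ = g9c k := inv_eq_of_mul_eq_one_left g9c_sq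

/-- the automorphism `ρ' = conj c * ρ` -/
private def g9r (k : ℕ) : MulAut (G k) :=
  MulAut.conj (g9c k) * rho k (gA : ℕ → MulAut (G k)) gD

private lemma g9r_apply (x : G k) :
    g9r k x = g9c k * gD (kap (gA : ℕ → MulAut (G k)) k x) * g9c k := by
  unfold g9r rho
  rw [MulAut.mul_apply, MulAut.mul_apply, MulAut.conj_apply, g9c_inv]

private lemma g9_gD_x0 : gD (xG 0 : G k) = g9c k := by
  rw [gD_x (Nat.zero_le k)]
  simp [gDC, g9c]

private lemma g9_gD_xs {j : ℕ} (hj : j < k) : gD (xG (j + 1) : G k) = xG (j + 1) := by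
  rw [gD_x (by omega)]
  simp [gDC]

private lemma g9r_x {j : ℕ} (hj : j < k) : g9r k (xG j) = xG (j + 1) := by
  rw [g9r_apply, gkap_x hj, map_mul, map_mul, g9_gD_x0, g9_gD_xs hj]
  have h := g9c_sq (k := k)
  calc g9c k * (g9c k * xG (j + 1) * g9c k) * g9c k
      = (g9c k * g9c k) * xG (j + 1) * (g9c k * g9c k) := by simp only [mul_assoc]
    _ = xG (j + 1) := by rw [h, one_mul, mul_one]

private lemma g9r_x_last : g9r k (xG k) = g9c k := by
  rw [g9r_apply, gkap_x_last, g9_gD_x0, g9c_sq, one_mul]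

private lemma g9r_y : g9r k yG = yG := by
  rw [g9r_apply, gkap_y, gD_y]
  unfold g9c
  simp [mul_assoc]

private lemma g9r_pow_x (i : ℕ) (hi : i ≤ k) : (g9r k ^ i) (xG 0) = xG i := by
  induction i with
  | zero => simp
  | succ i ih =>
    rw [pow_succ', MulAut.mul_apply, ih (by omega), g9r_x (by omega)]

private lemma g9r_pow_y (i : ℕ) : (g9r k ^ i) yG = yG := by
  induction i with
  | zero => simp
  | succ i ih =>
    rw [pow_succ', MulAut.mul_apply, ih, g9r_y]

private lemma g9r_pow_c (i : ℕ) (hi : i ≤ k) : (g9r k ^ i) (g9c k) = yG * xG i * yG⁻¹ := by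
  unfold g9c
  rw [map_mul, map_mul, map_inv, g9r_pow_x i hi, g9r_pow_y]

private lemma g9r_top : g9r k ^ (k + 1) = MulAut.conj (yG : G k) := by
  apply autG_ext
  · intro j hj
    rw [MulAut.conj_apply]
    have h1 : (g9r k ^ (k + 1)) (xG j) = (g9r k ^ j) ((g9r k ^ (k + 1)) (xG 0)) := by
      rw [← MulAut.mul_apply, ← g9r_pow_x j hj, ← MulAut.mul_apply]
      exact congrArg (fun s : MulAut (G k) => s (xG 0)) (pow_mul_comm (g9r k) (k + 1) j)
    rw [h1, pow_succ', MulAut.mul_apply, g9r_pow_x k le_rfl, g9r_x_last, g9r_pow_c j hj]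
  · rw [g9r_pow_y, MulAut.conj_apply, mul_assoc, mul_inv_cancel, mul_one]

private lemma g9_rho : rho k (gA : ℕ → MulAut (G k)) gD = MulAut.conj (g9c k) * g9r k := by
  unfold g9r
  rw [← mul_assoc, ← map_mul, g9c_sq, map_one, one_mul]

private lemma g9_rho_pow (i : ℕ) (hi : i ≤ k) : rho k (gA : ℕ → MulAut (G k)) gD ^ (i + 1) =
    MulAut.conj (yG * xw i * yG⁻¹) * g9r k ^ (i + 1) := by
  induction i with
  | zero =>
    rw [zero_add, pow_one, pow_one, g9_rho]
    rfl
  | succ i ih =>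
    have h1 : (yG * xw (i + 1) * yG⁻¹ : G k) = (yG * xw i * yG⁻¹) * (yG * xG (i + 1) * yG⁻¹) := by
      simp [xw, mul_assoc]
    calc rho k (gA : ℕ → MulAut (G k)) gD ^ (i + 1 + 1)
        = (MulAut.conj (yG * xw i * yG⁻¹) * g9r k ^ (i + 1)) * (MulAut.conj (g9c k) * g9r k) := by
          rw [pow_succ, ih (by omega), g9_rho]
      _ = MulAut.conj (yG * xw i * yG⁻¹) * (g9r k ^ (i + 1) * MulAut.conj (g9c k)) * g9r k := by
          simp only [mul_assoc]
      _ = MulAut.conj (yG * xw i * yG⁻¹) * MulAut.conj (yG * xG (i + 1) * yG⁻¹) *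
            (g9r k ^ (i + 1) * g9r k) := by
          rw [g9_mul_conj, g9r_pow_c (i + 1) hi]
          simp only [mul_assoc]
      _ = MulAut.conj (yG * xw (i + 1) * yG⁻¹) * g9r k ^ (i + 1 + 1) := by
          rw [← map_mul, ← h1, ← pow_succ]

/-- piece `BN-B1-G9`: `ζ` acts on `G k` as the conjugation with `r = y x_0 ⋯ x_k`.
Proof. `ρ = gD * κ`; put `c = y x_0 y⁻¹ = gD x_0` (an involution) and `ρ' = conj c * ρ` (or
`conj c⁻¹`). By `gkap_*`, `gD_x`, `gD_y`: `ρ x_j = c x_{j+1} c` (`j < k`), `ρ x_k = c`,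
`ρ y = y x_0 y x_0 y⁻¹ = c y c⁻¹`. So `ρ' x_j = x_{j+1}`, `ρ' x_k = c = y x_0 y⁻¹`, `ρ' y = y`, hence
`ρ'^(k+1) = conj y` (on `x_j`: `ρ'^(k-j) x_j = x_k`, then `y x_0 y⁻¹`, then `y x_j y⁻¹`), and
`ρ^(k+1) = (conj c * ρ')^(k+1) = conj (c · ρ' c ⋯ ρ'^k c) * ρ'^(k+1)` with `ρ'^i c = y x_i y⁻¹`, so it
is `conj (y X y⁻¹) * conj y = conj (y X)`, `X = xw k = x_0 ⋯ x_k`, `rG k = yG * xw k`. -/
theorem zeta_G (k : ℕ) : zeta k (gA : ℕ → MulAut (G k)) gD = MulAut.conj (rG k) := by
  unfold zeta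
  rw [g9_rho_pow k le_rfl, g9r_top, ← map_mul]
  congr 1
  simp [rG, mul_assoc]

/-- piece `BN-B1-G10`: `G k` has trivial center.
Proof. `g` commutes with `y`, so `g ∈ ⟨y⟩` by `cent_y` (n = 1), `g = y^a`; if `a ≠ 0` then `x_0`
commutes with `y^|a|`, so `x_0 ∈ ⟨y⟩` by `cent_y`; but the homomorphism `G k → ℤˣ` with
`x_i ↦ -1`, `y ↦ 1` maps `x_0` to `-1`. -/
theorem G_center' {g : G k} (hg : ∀ g' : G k, g * g' = g' * g) : g = 1 := by
  have h1 : g ∈ Subgroup.zpowers (yG : G k) :=
    cent_y (n := 1) Nat.one_pos (by rw [pow_one]; exact hg yG)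
  obtain ⟨a, rfl⟩ := Subgroup.mem_zpowers_iff.mp h1
  rcases eq_or_ne a 0 with rfl | ha
  · exact zpow_zero _
  exfalso
  have hx : Commute (xG 0 : G k) (yG ^ a) := (hg (xG 0)).symm
  have hx' : Commute (xG 0 : G k) (yG ^ a.natAbs) := by
    rcases Int.natAbs_eq a with e | e
    · rw [e, zpow_natCast] at hx
      exact hx
    · rw [e, zpow_neg, zpow_natCast] at hx
      exact Commute.inv_right_iff.mp hx
  have h2 : (xG 0 : G k) ∈ Subgroup.zpowers (yG : G k) :=
    cent_y (Int.natAbs_pos.mpr ha) hx'.eq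
  obtain ⟨b, hb⟩ := Subgroup.mem_zpowers_iff.mp h2
  have h3 := congrArg (liftG (k := k) (fun _ => (-1 : ℤˣ)) (fun _ _ => by simp) 1) hb
  rw [map_zpow, liftG_y, liftG_x _ _ _ (Nat.zero_le k), one_zpow] at h3
  exact absurd h3 (by decide)

end

section
variable {m : ℕ}

/-- piece `BN-B1-G11`: `Ah m` is generated by `th`, `d` and the `a_j` (`b = th a_{k-1} th`).
Proof. Every element of the semidirect product is `iA x * inr e`, `e = 1` or `e = -1`
(`SemidirectProduct.inl_left_mul_inr_right`); `iA x` is in the closure by `closure_A` (closure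
induction) and `iA bA = th * iA (aA (m+1)) * th` (`th_conj`, `th_sq`). -/
theorem closure_Ah : Subgroup.closure
    ({th, iA dA} ∪ (fun j => iA (aA j)) '' {j | j < m + 2} : Set (Ah m)) = ⊤ := by
  set S : Subgroup (Ah m) := Subgroup.closure
    ({th, iA dA} ∪ (fun j => iA (aA j)) '' {j | j < m + 2} : Set (Ah m)) with hS
  have hth : (th : Ah m) ∈ S := Subgroup.subset_closure (by simp)
  have hd : (iA dA : Ah m) ∈ S := Subgroup.subset_closure (by simp)
  have ha : ∀ j, j < m + 2 → (iA (aA j) : Ah m) ∈ S := fun j hj =>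
    Subgroup.subset_closure (Or.inr ⟨j, hj, rfl⟩)
  have hb : (iA bA : Ah m) ∈ S := by
    have e : (iA bA : Ah m) = th * iA (aA (m + 1)) * th := by
      rw [th_conj, mul_assoc, th_sq, mul_one]
      exact congrArg iA tauHom_a'.symm
    rw [e]
    exact S.mul_mem (S.mul_mem hth (ha _ (by omega))) hth
  have hA : ∀ x : A m, (iA x : Ah m) ∈ S := by
    have h : (⊤ : Subgroup (A m)) ≤ S.comap iA := by
      rw [← closure_A, Subgroup.closure_le]
      rintro x ((h | h) | ⟨j, hj, rfl⟩)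
      · rw [h]; exact hb
      · rw [Set.mem_singleton_iff] at h; rw [h]; exact hd
      · exact ha j hj
    exact fun x => h (Subgroup.mem_top x)
  rw [eq_top_iff]
  intro g _
  rw [← SemidirectProduct.inl_left_mul_inr_right g]
  refine S.mul_mem (hA _) ?_
  rcases Int.units_eq_one_or g.right with h | h
  · rw [h, map_one]; exact S.one_mem
  · rw [h]; exact hth

end

end Pool.Agent.Helper38.BN
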