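import Pool.Agent.Helper38.BN.Core
import Pool.Agent.Helper18.BN4.FreeLem

/-!
# Project BN, block B2: tools and easy statements
-/

namespace Pool.Agent.Helper38.BN.BTwo

section
variable {K L : Type*} [Group K] [Group L]

lemma map_kap (f : K →* L) (a : ℕ → K) (j : ℕ) : f (kap a j) = kap (fun i => f (a i)) j := by
  induction j with
  | zero => exact map_one f
  | succ j ih => change f (kap a j * a j) = _; rw [map_mul, ih]; rfl

lemma kap_congr {a a' : ℕ → K} {j : ℕ} (h : ∀ i, i < j → a i = a' i) : kap a j = kap a' j := by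
  induction j with
  | zero => rfl
  | succ j ih =>
    change kap a j * a j = kap a' j * a' j
    rw [ih fun i hi => h i (by omega), h j (by omega)]

/-- the first letter of `kap` -/
lemma kap_succ' (a : ℕ → K) (j : ℕ) : kap a (j + 1) = a 0 * kap (fun i => a (i + 1)) j := by
  induction j with
  | zero => change 1 * a 0 = a 0 * 1; rw [one_mul, mul_one]
  | succ j ih =>
    change kap a (j + 1) * a (j + 1) = a 0 * (kap (fun i => a (i + 1)) j * a (j + 1))
    rw [ih, mul_assoc]

end

variable {k : ℕ}

/-- induction on elements of `HB k` (left multiplication with generators and inverses) -/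
theorem HB_induct {p : HB k → Prop} (one : p 1) (ha : ∀ j, j < k → ∀ y, p y → p (aH j * y))
    (ha' : ∀ j, j < k → ∀ y, p y → p ((aH j)⁻¹ * y)) (hd : ∀ y, p y → p (dH * y))
    (hd' : ∀ y, p y → p (dH⁻¹ * y)) (x : HB k) : p x := by
  have hx : x ∈ Subgroup.closure ({dH} ∪ aH '' {j | j < k} : Set (HB k)) := by
    rw [closure_H]; trivial
  induction hx using Subgroup.closure_induction_left with
  | one => exact one
  | mul_left s hs y _ hy =>
    rcases hs with hs | ⟨j, hj, rfl⟩
    · rw [Set.mem_singleton_iff.1 hs]; exact hd y hy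
    · exact ha j hj y hy
  | inv_mul_cancel s hs y _ hy =>
    rcases hs with hs | ⟨j, hj, rfl⟩
    · rw [Set.mem_singleton_iff.1 hs]; exact hd' y hy
    · exact ha' j hj y hy

/-- a subgroup of `HB k` which contains the generators is everything -/
theorem HB_le {S : Subgroup (HB k)} (ha : ∀ j, j < k → aH j ∈ S) (hd : dH ∈ S) (x : HB k) :
    x ∈ S := by
  induction x using HB_induct with
  | one => exact S.one_mem
  | ha j hj y hy => exact S.mul_mem (ha j hj) hy
  | ha' j hj y hy => exact S.mul_mem (S.inv_mem (ha j hj)) hy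
  | hd y hy => exact S.mul_mem hd hy
  | hd' y hy => exact S.mul_mem (S.inv_mem hd) hy

lemma zH_z {i : ℕ} (hi : i ≤ k) : zH k (zF i) = zz aH dH i := liftF_z _ hi

lemma Chi_a {j : ℕ} (hj : j < k) : Chi k (aH j) = chiA j := liftH_a _ hj
@[simp] lemma Chi_d : Chi k dH = chiD := liftH_d _
lemma iota_a {j : ℕ} (hj : j < k) : iota k (aH j) = aH (j + 1) := liftH_a _ hj
@[simp] lemma iota_d : iota k dH = aH 0 * aH 0 := liftH_d _
lemma piH_a {j : ℕ} (hj : j < k) : piH k (aH j) = Equiv.swap j (j + 1) := liftH_a _ hj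
@[simp] lemma piH_d : piH k dH = 1 := liftH_d _

theorem zeH_comm (h : HB k) : h * zeH k = zeH k * h := by
  have : h ∈ Subgroup.centralizer ({zeH k} : Set (HB k)) := by
    apply HB_le
    · intro j hj
      rw [Subgroup.mem_centralizer_singleton_iff]
      exact (zeta_comm_a (relH k) hj).symm
    · rw [Subgroup.mem_centralizer_singleton_iff]
      exact (zeta_comm_d (relH k)).symm
  exact Subgroup.mem_centralizer_singleton_iff.1 this

lemma zH_w {j : ℕ} (hj : j ≤ k) : zH k (wF j) = wz aH dH j := by
  induction j with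
  | zero => exact zH_z hj
  | succ j ih =>
    change zH k (zF (j + 1) * wF j) = zz aH dH (j + 1) * wz aH dH j
    rw [map_mul, ih (by omega), zH_z hj]

theorem zeH_eq (k : ℕ) : zeH k = zH k (wF k) * Om k aH := by
  rw [zH_w le_rfl]
  exact zeta_eq (relH k)

theorem F_center {x : F (k + 1)} (hx : ∀ y : F (k + 1), x * y = y * x) : x = 1 := by
  by_contra h
  have h1 := Pool.Agent.Helper18.BN4.comm_trans h (hx (FreeGroup.of 0)).symm (hx (FreeGroup.of 1))
  have h2 := Pool.Agent.Helper18.BN4.of_comm h1
  simp at h2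

/-- the exponent of the generator `d` -/
def elD (k : ℕ) : HB k →* Multiplicative ℤ :=
  liftH (a := fun _ => (1 : Multiplicative ℤ)) (d := Multiplicative.ofAdd 1)
    { comm := fun _ _ _ _ => rfl
      braid := fun _ _ => rfl
      dcomm := fun _ _ _ => mul_comm _ _
      four := fun _ => by simp only [one_mul, mul_one] }

lemma elD_kap {j : ℕ} (hj : j ≤ k) : elD k (kap aH j) = 1 := by
  induction j with
  | zero => exact map_one _
  | succ j ih =>
    change elD k (kap aH j * aH j) = 1
    rw [map_mul, ih (by omega), one_mul, elD, liftH_a _ (by omega)]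

lemma elD_zeH (k : ℕ) : elD k (zeH k) = Multiplicative.ofAdd ((k : ℤ) + 1) := by
  unfold zeH zeta rho
  rw [map_pow, map_mul, elD_kap le_rfl, mul_one, elD, liftH_d, ← ofAdd_nsmul]
  simp

theorem zeH_pow {n : ℤ} (h : zeH k ^ n = 1) : n = 0 := by
  have h1 := congrArg (elD k) h
  rw [map_zpow, elD_zeH, map_one, ← ofAdd_zsmul, ← ofAdd_zero] at h1
  have h2 := Multiplicative.ofAdd.injective h1
  rw [smul_eq_mul] at h2
  rcases mul_eq_zero.1 h2 with h3 | h3
  · exact h3
  · omega

end Pool.Agent.Helper38.BN.BTwo
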