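import Pool.Agent.Helper38.BN.H0

/-!
# Project BN, block B2: piece B2-1: `zH` is equivariant
-/

namespace Pool.Agent.Helper38.BN.BTwo

variable {k : ℕ}

/-- piece B2-1: `a_j z_i a_j⁻¹` for the generators `z_i`, `i ≤ k`: unfold `chiC`; the cases `i = j`
(`az_self` of Br1), `i = j + 1` (`az_succ`) and the others (`az_comm`), with `relH k` and `zH_z`. -/
theorem conj_a {i j : ℕ} (hj : j < k) (hi : i ≤ k) :
    aH j * zz aH dH i * (aH j)⁻¹ = zH k (chiC j i) := by
  unfold chiC
  split_ifs with h1 h2
  · subst h1
    rw [map_mul, map_mul, map_inv, zH_z hi, zH_z (by omega)]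
    exact az_self (relH k) hj
  · subst h2
    rw [zH_z (by omega), az_succ, mul_inv_cancel_right]
  · rw [zH_z hi, az_comm (relH k) hj hi (fun e => h1 e.symm) (fun e => h2 e.symm),
      mul_inv_cancel_right]

/-- the elements `h` for which `zH` is equivariant -/
private def eqS (k : ℕ) : Subgroup (HB k) where
  carrier := {h | ∀ x : F k, h * zH k x * h⁻¹ = zH k (Chi k h x)}
  one_mem' := by
    intro x
    rw [map_one, MulAut.one_apply, one_mul, inv_one, mul_one]
  mul_mem' := by
    intro a b ha hb x
    rw [map_mul, MulAut.mul_apply, ← ha, ← hb]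
    group
  inv_mem' := by
    intro a ha x
    have h1 := ha (Chi k a⁻¹ x)
    rw [← MulAut.mul_apply, ← map_mul, mul_inv_cancel, map_one, MulAut.one_apply] at h1
    rw [← h1]
    group

private theorem eqS_of_gen {h : HB k} (hz : ∀ i, i ≤ k → h * zH k (zF i) * h⁻¹ = zH k (Chi k h (zF i))) :
    h ∈ eqS k := by
  intro x
  have e : (MulAut.conj h).toMonoidHom.comp (zH k) = (zH k).comp (Chi k h).toMonoidHom := by
    apply homF_ext
    intro i hi
    exact hz i hi
  exact DFunLike.congr_fun e x

/-- piece B2-1: `zH` is equivariant.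
Proof. The set of `h` such that the claim holds for all `x` is closed under products and inverses
(for `h⁻¹` apply the claim for `h` to `Chi k h⁻¹ x`); so a generator `h` is enough (`HB_induct`, or
`HB_le` for a suitable subgroup). For fixed `h` both sides are homomorphisms in `x`
(`(MulAut.conj h).toMonoidHom.comp (zH k)` and `(zH k).comp (Chi k h).toMonoidHom`), so `x = z_i`,
`i ≤ k`, is enough (`homF_ext`). For `h = a_j`: `conj_a`, `chiA_z`, `Chi_a`. For `h = d`:
`Chi_d`, `chiD = MulAut.conj (zF 0)` and `zH_z` for `z_0` (`zz aH dH 0 = dH`). -/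
theorem zH_conj (h : HB k) (x : F k) : h * zH k x * h⁻¹ = zH k (Chi k h x) := by
  have hm : h ∈ eqS k := by
    apply HB_le
    · intro j hj
      apply eqS_of_gen
      intro i hi
      rw [Chi_a hj, chiA_z hj hi, zH_z hi]
      exact conj_a hj hi
    · apply eqS_of_gen
      intro i _
      rw [Chi_d]
      unfold chiD
      rw [MulAut.conj_apply, map_mul, map_mul, map_inv, zH_z (Nat.zero_le k)]
      rfl
  exact hm x

end Pool.Agent.Helper38.BN.BTwo
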