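import Pool.Agent.Helper38.BN.H0

/-!
# Project BN, block B2: piece B2-2: `F k` acts by conjugation
-/

namespace Pool.Agent.Helper38.BN.BTwo

variable {k : ℕ}

private lemma chi_zz {i : ℕ} (hi : i ≤ k) :
    Chi k (zz aH dH i) = MulAut.conj (zF i : F k) := by
  induction i with
  | zero => exact Chi_d
  | succ i ih =>
    have h1 : (zz aH dH (i + 1) : HB k) = (aH i)⁻¹ * zz aH dH i * aH i := rfl
    have h2 : (chiA i : MulAut (F k)) (zF (i + 1)) = zF i := by
      rw [chiA_z (by omega) hi]
      unfold chiC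
      rw [if_neg (by omega), if_pos rfl]
    rw [h1, map_mul, map_mul, map_inv, ih (by omega), Chi_a (by omega)]
    ext y
    apply (chiA i : MulAut (F k)).injective
    simp only [MulAut.mul_apply, MulAut.conj_apply, MulAut.apply_inv_self, map_mul, map_inv, h2]

/-- piece B2-2: `F k` acts on `F k` by conjugation.
Proof. Both sides are homomorphisms `F k →* MulAut (F k)` in `x`, so by `homF_ext` it is enough to
take `x = z_i`, `i ≤ k`: `Chi k (zz aH dH i) = MulAut.conj (zF i)` by induction on `i`: `i = 0`: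
`Chi_d`, `chiD`. Step: `zz aH dH (i + 1) = (aH i)⁻¹ * zz aH dH i * aH i`, so the image is
`(chiA i)⁻¹ * MulAut.conj (zF i) * chiA i = MulAut.conj ((chiA i)⁻¹ (zF i))` and
`(chiA i)⁻¹ (zF i) = zF (i + 1)` as `chiA i (zF (i + 1)) = zF i` (`chiA_z`, `chiC`). -/
theorem chi_zH (x : F k) : Chi k (zH k x) = MulAut.conj x := by
  have h : (Chi k).comp (zH k) = MulAut.conj := by
    apply homF_ext
    intro i hi
    rw [MonoidHom.comp_apply, zH_z hi]
    exact chi_zz hi
  exact DFunLike.congr_fun h x

end Pool.Agent.Helper38.BN.BTwo
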