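import Pool.Agent.Helper38.BN.H2

/-!
# Project BN, block B2: piece B2-3: `ζ` acts trivially
-/

namespace Pool.Agent.Helper38.BN.BTwo

variable {k : ℕ}

/-- piece B2-3: `ζ` acts trivially on `F k`.
Proof. `k = 0`: every automorphism in the image of `Chi 0` is trivial: `zeH 0 = dH` (`zeta`, `rho`,
`kap aH 0 = 1`), `Chi 0 dH = chiD = MulAut.conj (zF 0)`, and `F 0 = FreeGroup (Fin 1)` is
commutative (every element is a power of `zF 0`; or `autF_ext`: it is enough to apply it to
`zF 0`). `k = l + 1`: let `α = Chi k (zeH k)`. For `x : F k`: `zeH k` commutes with `zH k x`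
(`zeH_comm`), so `α` commutes with `MulAut.conj x` (`chi_zH`), hence
`MulAut.conj (α x) = α * MulAut.conj x * α⁻¹ = MulAut.conj x`, so `x⁻¹ * α x` commutes with all
elements, and is `1` by `F_center`. -/
theorem chi_zeta (k : ℕ) : Chi k (zeH k) = 1 := by
  rcases k with _ | l
  · have h1 : zeH 0 = dH := by
      have h0 : (dH * kap aH 0 : HB 0) ^ 1 = dH := by
        rw [pow_one]
        exact mul_one _
      exact h0
    rw [h1, Chi_d]
    refine autF_ext fun i hi => ?_
    have h2 : i = 0 := by omega
    subst h2
    rw [chiD, MulAut.conj_apply, MulAut.one_apply, mul_inv_cancel_right]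
  · have key : ∀ x : F (l + 1), Chi (l + 1) (zeH (l + 1)) x = x := by
      intro x
      have hc : Chi (l + 1) (zeH (l + 1)) * MulAut.conj x =
          MulAut.conj x * Chi (l + 1) (zeH (l + 1)) := by
        rw [← chi_zH x, ← map_mul, ← map_mul, zeH_comm]
      generalize Chi (l + 1) (zeH (l + 1)) = α at hc
      have h2 : x⁻¹ * α x = 1 := by
        apply F_center
        intro y
        obtain ⟨z, rfl⟩ := α.surjective y
        have h3 := DFunLike.congr_fun hc z
        rw [MulAut.mul_apply, MulAut.mul_apply, MulAut.conj_apply, MulAut.conj_apply, map_mul,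
          map_mul, map_inv] at h3
        calc x⁻¹ * α x * α z = x⁻¹ * (α x * α z * (α x)⁻¹) * α x := by group
          _ = x⁻¹ * (x * α z * x⁻¹) * α x := by rw [h3]
          _ = α z * (x⁻¹ * α x) := by group
      exact (inv_mul_eq_one.1 h2).symm
    ext x
    rw [MulAut.one_apply]
    exact key x

end Pool.Agent.Helper38.BN.BTwo
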