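import Pool.Agent.Helper38.BN.H1

/-!
# Project BN, block B2: piece B2-5: the decomposition
-/

namespace Pool.Agent.Helper38.BN.BTwo

variable {k : ℕ}

/-- the braid subgroup of `HB k` -/
def Brs (k : ℕ) : Subgroup (HB k) := Subgroup.closure (aH '' {j | j < k})

private lemma h5_mem {j : ℕ} (hj : j < k) : (aH j : HB k) ∈ Brs k :=
  Subgroup.subset_closure ⟨j, hj, rfl⟩

private lemma h5_d : zH k (zF 0) = dH := zH_z (Nat.zero_le k)

/-- piece B2-5: `HB k = F ⋊ Br` (the decomposition).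
Proof. `HB_induct`. `1 = zH 1 * 1`. `d * (zH x * b) = zH (zF 0 * x) * b` (`zH_z`, `zz aH dH 0 = dH`),
the same with `d⁻¹`. `a_j * (zH x * b) = zH (Chi (a_j) x) * (a_j * b)` (`zH_conj`), the same with
`a_j⁻¹`. -/
theorem HB_decomp (h : HB k) : ∃ x : F k, ∃ b ∈ Brs k, h = zH k x * b := by
  induction h using HB_induct with
  | one => exact ⟨1, 1, (Brs k).one_mem, by rw [map_one, one_mul]⟩
  | ha j hj y hy =>
    obtain ⟨x, b, hb, rfl⟩ := hy
    refine ⟨Chi k (aH j) x, aH j * b, (Brs k).mul_mem (h5_mem hj) hb, ?_⟩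
    rw [← zH_conj]
    group
  | ha' j hj y hy =>
    obtain ⟨x, b, hb, rfl⟩ := hy
    refine ⟨Chi k (aH j)⁻¹ x, (aH j)⁻¹ * b,
      (Brs k).mul_mem ((Brs k).inv_mem (h5_mem hj)) hb, ?_⟩
    rw [← zH_conj]
    group
  | hd y hy =>
    obtain ⟨x, b, hb, rfl⟩ := hy
    exact ⟨zF 0 * x, b, hb, by rw [map_mul, h5_d, mul_assoc]⟩
  | hd' y hy =>
    obtain ⟨x, b, hb, rfl⟩ := hy
    exact ⟨(zF 0)⁻¹ * x, b, hb, by rw [map_mul, map_inv, h5_d, mul_assoc]⟩

end Pool.Agent.Helper38.BN.BTwo
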