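import Pool.Agent.Helper38.BN.H0

/-!
# Project BN, block B2: piece B2-6: permutations of the strands
-/

namespace Pool.Agent.Helper38.BN.BTwo

variable {k : ℕ}

private lemma swap_succ (j n : ℕ) :
    Equiv.swap (j + 1) (j + 2) (n + 1) = Equiv.swap j (j + 1) n + 1 := by
  rw [Equiv.swap_apply_def, Equiv.swap_apply_def]
  split_ifs <;> omega

private lemma swap_le {j n k : ℕ} (hj : j < k) (hn : n ≤ k) : Equiv.swap j (j + 1) n ≤ k := by
  rw [Equiv.swap_apply_def]
  split_ifs <;> omega

private lemma piH_ai {j : ℕ} (hj : j < k) : piH k (aH j)⁻¹ = Equiv.swap j (j + 1) := by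
  rw [map_inv, piH_a hj, Equiv.swap_inv]

private lemma iota_ai {j : ℕ} (hj : j < k) : iota k (aH j)⁻¹ = (aH (j + 1))⁻¹ := by
  rw [map_inv, iota_a hj]

private lemma piH_aa : piH (k + 1) (aH 0 * aH 0) = 1 := by
  rw [map_mul, piH_a (by omega), Equiv.swap_mul_self]

/-- piece B2-6: the permutation of `ι(h)`.
Proof. `HB_induct` with the claim for all `i`. Generators: `iota_a`, `piH_a`:
`swap (j+1) (j+2) (i+1) = swap j (j+1) i + 1` (`Equiv.swap_apply_def`, cases); `iota_d`:
`piH (aH 0 * aH 0) = 1`. Inverses are the same, as the permutations of the generators are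
involutions. -/
theorem piH_iota (h : HB k) (i : ℕ) : piH (k + 1) (iota k h) (i + 1) = piH k h i + 1 := by
  induction h using HB_induct generalizing i with
  | one => simp
  | ha j hj y ih =>
    rw [map_mul, map_mul, map_mul, Equiv.Perm.mul_apply, Equiv.Perm.mul_apply, iota_a hj,
      piH_a (by omega), piH_a hj, ih, swap_succ]
  | ha' j hj y ih =>
    rw [map_mul, map_mul, map_mul, Equiv.Perm.mul_apply, Equiv.Perm.mul_apply, iota_ai hj,
      piH_ai (by omega), piH_ai hj, ih, swap_succ]
  | hd y ih =>
    rw [map_mul, map_mul, map_mul, iota_d, piH_aa, piH_d, one_mul, one_mul, ih]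
  | hd' y ih =>
    rw [map_mul, map_mul, map_mul, map_inv, map_inv, map_inv, iota_d, piH_aa, piH_d, inv_one,
      one_mul, one_mul, ih]

/-- piece B2-6: the same proof -/
theorem piH_iota_zero (h : HB k) : piH (k + 1) (iota k h) 0 = 0 := by
  induction h using HB_induct with
  | one => simp
  | ha j hj y ih =>
    rw [map_mul, map_mul, Equiv.Perm.mul_apply, iota_a hj, piH_a (by omega), ih,
      Equiv.swap_apply_of_ne_of_ne (by omega) (by omega)]
  | ha' j hj y ih =>
    rw [map_mul, map_mul, Equiv.Perm.mul_apply, iota_ai hj, piH_ai (by omega), ih,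
      Equiv.swap_apply_of_ne_of_ne (by omega) (by omega)]
  | hd y ih =>
    rw [map_mul, map_mul, iota_d, piH_aa, one_mul, ih]
  | hd' y ih =>
    rw [map_mul, map_mul, map_inv, map_inv, iota_d, piH_aa, inv_one, one_mul, ih]

/-- piece B2-6. Proof: `(piH k).comp (zH k) = 1` by `homF_ext`: `piH k (zz aH dH i) = 1` by induction
on `i`. -/
theorem piH_zH (x : F k) : piH k (zH k x) = 1 := by
  have key : ∀ i, i ≤ k → piH k (zz aH dH i) = 1 := by
    intro i
    induction i with
    | zero => intro _; exact piH_d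
    | succ i ih =>
      intro hi
      change piH k ((aH i)⁻¹ * zz aH dH i * aH i) = 1
      rw [map_mul, map_mul, ih (by omega), mul_one, ← map_mul, inv_mul_cancel, map_one]
  have h : (piH k).comp (zH k) = 1 := by
    apply homF_ext
    intro i hi
    rw [MonoidHom.comp_apply, zH_z hi, key i hi, MonoidHom.one_apply]
  exact DFunLike.congr_fun h x

/-- piece B2-6: the strands `0, …, k` are preserved. Proof: `HB_induct`. -/
theorem piH_le (h : HB k) {i : ℕ} (hi : i ≤ k) : piH k h i ≤ k := by
  induction h using HB_induct with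
  | one => simpa using hi
  | ha j hj y ih =>
    rw [map_mul, Equiv.Perm.mul_apply, piH_a hj]
    exact swap_le hj ih
  | ha' j hj y ih =>
    rw [map_mul, Equiv.Perm.mul_apply, piH_ai hj]
    exact swap_le hj ih
  | hd y ih =>
    rwa [map_mul, piH_d, one_mul]
  | hd' y ih =>
    rwa [map_mul, map_inv, piH_d, inv_one, one_mul]

/-- piece B2-6: the other numbers are fixed. Proof: `HB_induct`. -/
theorem piH_gt (h : HB k) {i : ℕ} (hi : k < i) : piH k h i = i := by
  induction h using HB_induct with
  | one => simp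
  | ha j hj y ih =>
    rw [map_mul, Equiv.Perm.mul_apply, piH_a hj, ih,
      Equiv.swap_apply_of_ne_of_ne (by omega) (by omega)]
  | ha' j hj y ih =>
    rw [map_mul, Equiv.Perm.mul_apply, piH_ai hj, ih,
      Equiv.swap_apply_of_ne_of_ne (by omega) (by omega)]
  | hd y ih =>
    rw [map_mul, piH_d, one_mul, ih]
  | hd' y ih =>
    rw [map_mul, map_inv, piH_d, inv_one, one_mul, ih]

end Pool.Agent.Helper38.BN.BTwo
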