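import Pool.Agent.Helper38.BN.H0

/-!
# Project BN, block B2: piece B2-7: the elements `t_i a_i² t_i⁻¹`
-/

namespace Pool.Agent.Helper38.BN.BTwo

variable {k : ℕ}

/-- piece B2-7: `a_i` for `i ≥ 1` and `a_0²` are in the range of `ι`: `iota_a`, `iota_d`. -/
theorem a_mem_range {i : ℕ} (h0 : 0 < i) (hi : i < k + 1) : (aH i : HB (k + 1)) ∈ (iota k).range := by
  obtain ⟨j, rfl⟩ : ∃ j, i = j + 1 := ⟨i - 1, by omega⟩
  exact ⟨aH j, iota_a (by omega)⟩

/-- piece B2-7 -/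
theorem sq_mem_range : (aH 0 * aH 0 : HB (k + 1)) ∈ (iota k).range := ⟨dH, iota_d⟩

/-- piece B2-7: `t_i a_i² t_i⁻¹` is in the range of `ι`, `t_i = kap aH i = a_0 ⋯ a_{i-1}`.
Proof. Induction on `i`. `i = 0`: `sq_mem_range`. Step: from the braid relation
`a_i a_{i+1} a_i⁻¹ = a_{i+1}⁻¹ a_i a_{i+1}`, so `a_i a_{i+1}² a_i⁻¹ = a_{i+1}⁻¹ a_i² a_{i+1}`;
`t_{i+1} = t_i a_i` and `t_i` commutes with `a_{i+1}` (`kap_comm` of Br1), so
`t_{i+1} a_{i+1}² t_{i+1}⁻¹ = a_{i+1}⁻¹ (t_i a_i² t_i⁻¹) a_{i+1}`, in the range by induction and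
`a_mem_range`. -/
theorem tsq_mem_range {i : ℕ} (hi : i < k + 1) :
    (kap aH i * (aH i * aH i) * (kap aH i)⁻¹ : HB (k + 1)) ∈ (iota k).range := by
  induction i with
  | zero =>
    change (1 * (aH 0 * aH 0) * 1⁻¹ : HB (k + 1)) ∈ (iota k).range
    rw [one_mul, inv_one, mul_one]
    exact sq_mem_range
  | succ i ih =>
    have h1 := ih (by omega)
    have hb : (aH i * aH (i + 1) * aH i : HB (k + 1)) = aH (i + 1) * aH i * aH (i + 1) :=
      (relH (k + 1)).braid i hi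
    have hc : (kap aH i * aH (i + 1) : HB (k + 1)) = aH (i + 1) * kap aH i :=
      kap_comm (relH (k + 1)).toRelBr (by omega) hi
    have h2 : (kap aH (i + 1) * (aH (i + 1) * aH (i + 1)) * (kap aH (i + 1))⁻¹ : HB (k + 1)) =
        (aH (i + 1))⁻¹ * (kap aH i * (aH i * aH i) * (kap aH i)⁻¹) * aH (i + 1) := by
      change (kap aH i * aH i) * (aH (i + 1) * aH (i + 1)) * (kap aH i * aH i)⁻¹ = _
      generalize (aH i : HB (k + 1)) = a at hb hc ⊢
      generalize (aH (i + 1) : HB (k + 1)) = b at hb hc ⊢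
      generalize (kap aH i : HB (k + 1)) = t at hb hc ⊢
      have e1 : a * b * a⁻¹ = b⁻¹ * a * b := by
        rw [mul_inv_eq_iff_eq_mul, mul_assoc, mul_assoc, ← mul_assoc a b a, hb]
        group
      have e2 : a * (b * b) * a⁻¹ = b⁻¹ * (a * a) * b := by
        calc a * (b * b) * a⁻¹ = (a * b * a⁻¹) * (a * b * a⁻¹) := by group
          _ = b⁻¹ * (a * a) * b := by rw [e1]; group
      have hc' : t * b⁻¹ = b⁻¹ * t := by
        rw [mul_inv_eq_iff_eq_mul, mul_assoc, hc]; group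
      calc t * a * (b * b) * (t * a)⁻¹ = t * (a * (b * b) * a⁻¹) * t⁻¹ := by group
        _ = (t * b⁻¹) * (a * a) * (b * t⁻¹) := by rw [e2]; group
        _ = (t * b⁻¹) * (a * a) * (t * b⁻¹)⁻¹ := by group
        _ = (b⁻¹ * t) * (a * a) * (b⁻¹ * t)⁻¹ := by rw [hc']
        _ = _ := by group
    rw [h2]
    exact mul_mem (mul_mem (inv_mem (a_mem_range (by omega) hi)) h1) (a_mem_range (by omega) hi)

end Pool.Agent.Helper38.BN.BTwo
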