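import Pool.Agent.Helper38.BN.H5
import Pool.Agent.Helper38.BN.H6
import Pool.Agent.Helper38.BN.H7

/-!
# Project BN, block B2: piece B2-8: the stabilizer of the strand `0`
-/

namespace Pool.Agent.Helper38.BN.BTwo

variable {k : ℕ}

/-- piece B2-8: coset representatives.
Proof. `Subgroup.closure_induction_right` on `b ∈ Brs (k + 1)`: the claim is true for `1`
(`kap aH 0 = 1`) and stays true under right multiplication with `a_j` and `a_j⁻¹`, `j < k + 1`.
Write `t_i = kap aH i` and `b = r t_i`. `j > i`: `t_i a_j = a_j t_i` (`kap_comm`) and `a_j` is in the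
range (`a_mem_range`). `j = i`: `t_i a_i = t_{i+1}`, `t_i a_i⁻¹ = (t_i a_i² t_i⁻¹)⁻¹ t_{i+1}`
(`tsq_mem_range`). `i = j + 1`: `t_i a_j⁻¹ = t_j`, `t_i a_j = (t_j a_j² t_j⁻¹) t_j`.
`j + 1 < i`: `t_i a_j = a_{j+1} t_i` (`kap_shift`), and the same with inverses. -/
theorem Br_cosets {b : HB (k + 1)} (hb : b ∈ Brs (k + 1)) :
    ∃ r ∈ (iota k).range, ∃ i, i ≤ k + 1 ∧ b = r * kap aH i := by
  have hR := relH (k + 1)
  unfold Brs at hb
  induction hb using Subgroup.closure_induction_right with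
  | one => exact ⟨1, one_mem _, 0, Nat.zero_le _, (mul_one 1).symm⟩
  | mul_right x hx y hy ih =>
    obtain ⟨j, hj, rfl⟩ := hy
    have hj' : j < k + 1 := hj
    obtain ⟨r, hr, i, hi, rfl⟩ := ih
    rcases Nat.lt_trichotomy i j with h1 | h1 | h1
    · refine ⟨r * aH j, mul_mem hr (a_mem_range (by omega) hj'), i, hi, ?_⟩
      rw [mul_assoc, kap_comm hR.toRelBr h1 hj', mul_assoc]
    · subst h1
      exact ⟨r, hr, i + 1, hj', mul_assoc _ _ _⟩
    · rcases Nat.lt_or_ge (j + 1) i with h2 | h2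
      · refine ⟨r * aH (j + 1), mul_mem hr (a_mem_range (by omega) (by omega)), i, hi, ?_⟩
        rw [mul_assoc, kap_shift hR.toRelBr hi h2, mul_assoc]
      · obtain rfl : i = j + 1 := by omega
        refine ⟨r * (kap aH j * (aH j * aH j) * (kap aH j)⁻¹), mul_mem hr (tsq_mem_range hj'),
          j, by omega, ?_⟩
        change r * (kap aH j * aH j) * aH j = _
        group
  | mul_inv_cancel x hx y hy ih =>
    obtain ⟨j, hj, rfl⟩ := hy
    have hj' : j < k + 1 := hj
    obtain ⟨r, hr, i, hi, rfl⟩ := ih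
    rcases Nat.lt_trichotomy i j with h1 | h1 | h1
    · refine ⟨r * (aH j)⁻¹, mul_mem hr (inv_mem (a_mem_range (by omega) hj')), i, hi, ?_⟩
      have e : Commute (kap aH i : HB (k + 1)) (aH j) := kap_comm hR.toRelBr h1 hj'
      rw [mul_assoc, e.inv_right.eq, mul_assoc]
    · subst h1
      refine ⟨r * (kap aH i * (aH i * aH i) * (kap aH i)⁻¹)⁻¹,
        mul_mem hr (inv_mem (tsq_mem_range hj')), i + 1, hj', ?_⟩
      change _ = _ * (kap aH i * aH i)
      group
    · rcases Nat.lt_or_ge (j + 1) i with h2 | h2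
      · refine ⟨r * (aH (j + 1))⁻¹, mul_mem hr (inv_mem (a_mem_range (by omega) (by omega))),
          i, hi, ?_⟩
        have e : SemiconjBy (kap aH i : HB (k + 1)) (aH j) (aH (j + 1)) :=
          kap_shift hR.toRelBr hi h2
        rw [mul_assoc, e.inv_right.eq, mul_assoc]
      · obtain rfl : i = j + 1 := by omega
        refine ⟨r, hr, j, by omega, ?_⟩
        change r * (kap aH j * aH j) * (aH j)⁻¹ = _
        group

/-- piece B2-8. Proof: induction on `i`: `kap aH (i + 1) = kap aH i * aH i`, and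
`swap i (i + 1)` fixes `0` if `i ≥ 1`. -/
theorem piH_kap {i : ℕ} (h0 : 0 < i) (hi : i ≤ k + 1) : piH (k + 1) (kap aH i) 0 = 1 := by
  induction i with
  | zero => exact absurd h0 (lt_irrefl _)
  | succ i ih =>
    change piH (k + 1) (kap aH i * aH i) 0 = 1
    rw [map_mul, piH_a (by omega), Equiv.Perm.mul_apply]
    rcases Nat.eq_zero_or_pos i with h | h
    · subst h
      rw [Equiv.swap_apply_left]
      change piH (k + 1) 1 (0 + 1) = 1
      rw [map_one]
      rfl
    · rw [Equiv.swap_apply_of_ne_of_ne (by omega) (by omega)]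
      exact ih h (by omega)

/-- piece B2-8: the stabilizer of the strand `0` in the braid group.
Proof. `Br_cosets`: `b = r t_i`, `r = iota k h`. If `i > 0`: `piH b 0 = piH r 1` (`piH_kap`), and
`piH r 0 = 0` (`piH_iota_zero`), so `piH b 0 ≠ 0`. So `i = 0`. -/
theorem Br_stab {b : HB (k + 1)} (hb : b ∈ Brs (k + 1)) (h0 : piH (k + 1) b 0 = 0) :
    ∃ h : HB k, b = iota k h := by
  obtain ⟨r, ⟨h, rfl⟩, i, hi, rfl⟩ := Br_cosets hb
  rcases Nat.eq_zero_or_pos i with h1 | h1
  · subst h1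
    exact ⟨h, mul_one _⟩
  · exfalso
    rw [map_mul, Equiv.Perm.mul_apply, piH_kap h1 hi] at h0
    have h2 := piH_iota h 0
    rw [show (0 + 1 : ℕ) = 1 from rfl, h0] at h2
    omega

end Pool.Agent.Helper38.BN.BTwo
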