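import Pool.Agent.Helper38.BN.IntD
import Pool.Agent.Helper38.BT.Out

/-!
# Project BN, block B11: the final statement (interface)
-/

namespace Pool.Agent.Helper38.BN

open Pool.Agent.Helper7.AG Pool.Agent.Helper38.BT (UniqueForm2 OutKlein)

/-- `τ` exchanges the generators `0` and `1` and fixes the generators `2, 3, …, n` -/
def SwapsLeaves (n : ℕ) (τ : MulAut (Artin (Bt n))) : Prop :=
  ∀ i j : Fin (n + 1), ((i.val = 0 ∧ j.val = 1) ∨ (i.val = 1 ∧ j.val = 0) ∨ (2 ≤ i.val ∧ j = i)) →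
    τ (PresentedGroup.of i) = PresentedGroup.of j

/-- block B11: the result for one `n` -/
def Res (n : ℕ) : Prop :=
  ∃ ε τ : MulAut (Artin (Bt n)), InvertsGens (Bt n) ε ∧ SwapsLeaves n τ ∧
    SqOne (Artin (Bt n)) ε ∧ SqOne (Artin (Bt n)) τ ∧ ε * τ = τ * ε ∧
    UniqueForm2 (Artin (Bt n)) ε τ ∧ OutKlein (Artin (Bt n)) ε τ ∧ Splits (Artin (Bt n))

/-- block B11: a general lemma -/
theorem out_general {G : Type} [Group G] (ε τ : MulAut G) (hc : Subgroup.center G = ⊥)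
    (h1 : ε * ε = 1) (h2 : τ * τ = 1) (h3 : ε * τ = τ * ε) (n1 : ∀ x, ε ≠ MulAut.conj x)
    (n2 : ∀ x, τ ≠ MulAut.conj x) (n3 : ∀ x, ε * τ ≠ MulAut.conj x)
    (h : ∀ φ : MulAut G, ∃ s, φ = MulAut.conj s ∨ φ = MulAut.conj s * ε ∨
      φ = MulAut.conj s * τ ∨ φ = MulAut.conj s * (ε * τ)) :
    UniqueForm2 G ε τ ∧ OutKlein G ε τ ∧ Splits G := sorry

/-- block B11: the center is trivial -/
theorem center_A {m : ℕ} (hm : 1 ≤ m) : Subgroup.center (A m) = ⊥ := sorry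

/-- block B11 -/
theorem eps_not_inner {m : ℕ} (x : A m) : eps m ≠ MulAut.conj x := sorry

/-- block B11 -/
theorem tau_not_inner {m : ℕ} (x : A m) : tau m ≠ MulAut.conj x := sorry

/-- block B11 -/
theorem epstau_not_inner {m : ℕ} (x : A m) : eps m * tau m ≠ MulAut.conj x := sorry

/-- block B11: `n ≥ 4` -/
theorem res_ge_four {m : ℕ} (hm : 1 ≤ m) : Res (m + 3) := sorry

/-- block B11: `n = 3` (from project BT) -/
theorem res_three : Res 3 := sorry

/-- block B11: all `n` -/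
theorem res_all (n : ℕ) (hn : 3 ≤ n) : Res n := by
  obtain ⟨m, rfl⟩ : ∃ m, n = m + 3 := ⟨n - 3, by omega⟩
  rcases Nat.eq_zero_or_pos m with rfl | h
  · exact res_three
  · exact res_ge_four h

end Pool.Agent.Helper38.BN
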