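import Pool.Agent.Helper38.BN.Core
import Pool.Agent.Helper38.BN.IntArtin
import Pool.Agent.Helper38.BN.H3
import Pool.Agent.Helper38.BN.H4
import Pool.Agent.Helper38.BN.H9
import Pool.Agent.Helper38.BN.H10

/-!
# Project BN, block B2: the groups of type `B` (interface, without `faithful`)
-/

namespace Pool.Agent.Helper38.BN

variable {k : ℕ}

/-- the braid subgroup of `HB k` -/
def BrH (k : ℕ) : Subgroup (HB k) := Subgroup.closure (aH '' {j | j < k})

/-- block B2: `zH` is equivariant -/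
theorem zH_conj (h : HB k) (x : F k) : h * zH k x * h⁻¹ = zH k (Chi k h x) := BTwo.zH_conj h x

/-- block B2: `F k` acts on `F k` by conjugation -/
theorem chi_zH (x : F k) : Chi k (zH k x) = MulAut.conj x := BTwo.chi_zH x

/-- block B2 -/
theorem zeH_comm (h : HB k) : h * zeH k = zeH k * h := BTwo.zeH_comm h

/-- block B2 -/
theorem chi_zeta (k : ℕ) : Chi k (zeH k) = 1 := BTwo.chi_zeta k

/-- block B2: `ζ = w Ω` -/
theorem zeH_eq (k : ℕ) : zeH k = zH k (wF k) * Om k aH := BTwo.zeH_eq k

/-- block B2: `ι(ζ_k) = Ω_{k+1}` -/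
theorem iota_zeta (k : ℕ) : iota k (zeH k) = Om (k + 1) aH := BTwo.iota_zeta k

/-- block B2: `HB k = F ⋊ Br` (the decomposition) -/
theorem HB_decomp (h : HB k) : ∃ x : F k, ∃ b ∈ BrH k, h = zH k x * b := BTwo.HB_decomp h

/-- block B2: the stabilizer of the strand `0` in the braid group -/
theorem Br_stab {b : HB (k + 1)} (hb : b ∈ BrH (k + 1)) (h0 : piH (k + 1) b 0 = 0) :
    ∃ h : HB k, b = iota k h := BTwo.Br_stab hb h0

/-- block B2: the permutation of `ι(h)` -/
theorem piH_iota (h : HB k) (i : ℕ) : piH (k + 1) (iota k h) (i + 1) = piH k h i + 1 :=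
  BTwo.piH_iota h i

/-- block B2: the permutation of `ι(h)` -/
theorem piH_iota_zero (h : HB k) : piH (k + 1) (iota k h) 0 = 0 := BTwo.piH_iota_zero h

/-- block B2 -/
theorem piH_zH (x : F k) : piH k (zH k x) = 1 := BTwo.piH_zH x

/-- block B2 -/
theorem PH_decomp {h : HB (k + 1)} (hh : h ∈ PH (k + 1)) :
    ∃ x : F (k + 1), ∃ h' ∈ PH k, h = zH (k + 1) x * iota k h' := BTwo.PH_decomp hh

/-- block B2: generation of the pure subgroup (for `k = 0` read `aH 0 = 1`) -/
theorem PH_gen (k : ℕ) : PH k = Subgroup.normalClosure ({aH 0 * aH 0, dH} : Set (HB k)) :=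
  BTwo.PH_gen k

/-- block B2: `ζ` has infinite order and its powers are detected by the exponents -/
theorem zeH_pow {n : ℤ} (h : zeH k ^ n = 1) : n = 0 := BTwo.zeH_pow h

/-- block B2: `F k` has trivial center for `k ≥ 1` -/
theorem F_center {x : F (k + 1)} (hx : ∀ y : F (k + 1), x * y = y * x) : x = 1 := BTwo.F_center hx

end Pool.Agent.Helper38.BN
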