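import Pool.Agent.Helper38.BN.IntL
import Pool.Agent.Helper38.BN.IntG
import Pool.Agent.Helper18.BN4.Core

/-!
# Project BN, block B4: homomorphisms `P → F_2` kill `N` (interface)
-/

namespace Pool.Agent.Helper38.BN

variable {m : ℕ}

private lemma l19_kap (p : ℕ) (x : ℕ) :
    kap (fun j => Equiv.swap j (j + 1) : ℕ → Equiv.Perm ℕ) p x =
      if x < p then x + 1 else if x = p then 0 else x := by
  induction p generalizing x with
  | zero =>
    change x = _
    split_ifs <;> omega
  | succ p ih =>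
    change kap (fun j => Equiv.swap j (j + 1) : ℕ → Equiv.Perm ℕ) p (Equiv.swap p (p + 1) x) = _
    rw [ih, Equiv.swap_apply_def]
    split_ifs <;> omega

private lemma l19_pow (k : ℕ) (i x : ℕ) (h : x + i ≤ k) :
    (kap (fun j => Equiv.swap j (j + 1) : ℕ → Equiv.Perm ℕ) k ^ i) x = x + i := by
  induction i with
  | zero => rfl
  | succ i ih =>
    rw [pow_succ', Equiv.Perm.mul_apply, ih (by omega), l19_kap, if_pos (by omega)]
    rfl

private lemma l19_cycle (k : ℕ) :
    kap (fun j => Equiv.swap j (j + 1) : ℕ → Equiv.Perm ℕ) k ^ (k + 1) = 1 := by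
  apply Equiv.ext
  intro x
  rcases Nat.lt_or_ge k x with hx | hx
  · have h0 : ∀ n : ℕ, (kap (fun j => Equiv.swap j (j + 1) : ℕ → Equiv.Perm ℕ) k ^ n) x = x := by
      intro n
      induction n with
      | zero => rfl
      | succ n ih =>
        rw [pow_succ', Equiv.Perm.mul_apply, ih, l19_kap, if_neg (by omega), if_neg (by omega)]
    exact h0 _
  · have e : k + 1 = x + (1 + (k - x)) := by omega
    rw [e, pow_add, pow_add, Equiv.Perm.mul_apply, Equiv.Perm.mul_apply,
      l19_pow k (k - x) x (by omega), pow_one, l19_kap, if_neg (by omega), if_pos (by omega),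
      l19_pow k x 0 (by omega)]
    exact Nat.zero_add x

private lemma l19_zeta (k : ℕ) : piH k (zeH k) = 1 := by
  have h1 : piH k (zeH k) = zeta k (fun j => piH k (aH j)) (piH k dH) :=
    map_zeta (piH k) k aH dH
  have h2 : piH k dH = 1 := liftH_d _
  have h3 : zeta k (fun j => piH k (aH j)) (1 : Equiv.Perm ℕ) =
      zeta k (fun j => Equiv.swap j (j + 1)) 1 := zeta_congr (fun j hj => liftH_a _ hj) _
  rw [h1, h2, h3]
  unfold zeta rho
  rw [one_mul, l19_cycle]

/-- piece `BN-B4-L19`: `piA x = piH (fold x)` (`piH_fold`), `fold (nA n) = ζ^e` (`fold_nA`) and `piH ζ = 1`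
(`zeH_eq`, `piH_zH`, ...; or `zeH_comm` and the structure of `piH`: `piH ρ` is a cycle of length `k + 1`:
simplest: `zeH = zH (wF) * Om`, or directly `piA`: `ker (piA)` contains `nA n`: `piA m` extended to `Ah m` by
`th ↦ 1`?  Choose the shortest way, e.g. `piH k ζ = (piH ρ)^(k+1) = 1` by `Equiv.ext`: `piH ρ` maps
`k ↦ 0`, `j ↦ j + 1`.) -/
theorem nA_mem_P (n : N (m + 2)) : nA m n ∈ P m := by
  change piA m (nA m n) = 1
  obtain ⟨e, he⟩ := fold_nA n
  rw [← piH_fold, he, map_zpow, l19_zeta, one_zpow]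

/-- piece `BN-B4-L19`: `piA_inc`. -/
theorem inc_mem_P {h : HB (m + 2)} : inc m h ∈ P m ↔ h ∈ PH (m + 2) := by
  change piA m (inc m h) = 1 ↔ piH (m + 2) h = 1
  rw [piA_inc]

/-- piece `BN-B4-L19`: `piH_fold`. -/
theorem fold_mem_PH {x : A m} : fold m x ∈ PH (m + 2) ↔ x ∈ P m := by
  change piH (m + 2) (fold m x) = 1 ↔ piA m x = 1
  rw [piH_fold]

/-- piece `BN-B4-L20`: surjections `P → F_2` kill `N` (holds without `hm`).
Proof (helper18). `a := aA (m+1)`, `b := bA`, `c := aA m`: `Helper18.BN4.kills_central` with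
`P := P m` (normal: a kernel), `uA = b a⁻¹`, `z := ⟨nA m n, nA_mem_P n⟩`: modulo
`normalClosure {u} = ker (fold m)` (`ker_fold`) the element `nA n` is central, since
`fold (nA n) = ζ^e` (`fold_nA`) is central in `HB` (`zeH_comm`); `hf`: `g` is surjective and `F_2` is not
commutative. -/
theorem kills_N (hm : 1 ≤ m) (g : P m →* FreeGroup (Fin 2)) (hg : Function.Surjective g)
    (n : N (m + 2)) : g ⟨nA m n, nA_mem_P n⟩ = 1 := by
  have hPn : (P m).Normal := by
    unfold P
    infer_instance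
  have h1 : piA m (aA (m + 1)) = Equiv.swap (m + 1) (m + 2) := liftA_a _ (by omega)
  have hT : (aA (m + 1) * aA (m + 1) : A m) ∈ P m := by
    change piA m (aA (m + 1) * aA (m + 1)) = 1
    rw [map_mul, h1, Equiv.swap_mul_self]
  have hu : (bA * (aA (m + 1))⁻¹ : A m) ∈ P m := by
    have h2 := u_mem (1 : A m)
    rw [one_mul, inv_one, mul_one] at h2
    exact h2
  have hac : (aA (m + 1) * aA m * aA (m + 1) : A m) = aA m * aA (m + 1) * aA m :=
    ((relA m).braid m (by omega)).symm
  have hbc : (bA * aA m * bA : A m) = aA m * bA * aA m := (relA m).bb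
  have hab : (aA (m + 1) * bA : A m) = bA * aA (m + 1) := ((relA m).ba).symm
  have hf : ∃ p q, g p * g q ≠ g q * g p := by
    obtain ⟨p, hp⟩ := hg (FreeGroup.of 0)
    obtain ⟨q, hq⟩ := hg (FreeGroup.of 1)
    refine ⟨p, q, ?_⟩
    rw [hp, hq]
    intro h
    have h3 := congrArg (FreeGroup.lift (![Equiv.swap 0 1, Equiv.swap 1 2] :
      Fin 2 → Equiv.Perm (Fin 3))) h
    simp only [map_mul, FreeGroup.lift_apply_of] at h3
    revert h3
    decide
  refine Pool.Agent.Helper18.BN4.kills_central hPn hac hbc hab hT hu g hf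
    ⟨nA m n, nA_mem_P n⟩ ?_
  intro p
  have hk : ((nA m n) * (p : A m) * (nA m n)⁻¹ * (p : A m)⁻¹) ∈ (fold m).ker := by
    rw [MonoidHom.mem_ker]
    obtain ⟨e, he⟩ := fold_nA n
    simp only [map_mul, map_inv, he]
    have hc : Commute (zeH (m + 2)) (fold m (p : A m)) := (zeH_comm (fold m (p : A m))).symm
    have hc' := hc.zpow_left e
    rw [hc'.eq, mul_inv_cancel_right, mul_inv_cancel]
  rw [ker_fold] at hk
  exact hk

end Pool.Agent.Helper38.BN
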