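import Pool.Agent.Helper38.BN.Hat
import Pool.Agent.Helper38.BN.IntH
import Pool.Agent.Helper38.BN.IntG

/-!
# Project BN, block B4: permutations of the strands and conjugation of the generators
-/

namespace Pool.Agent.Helper38.BN

variable {m : ℕ}

/-- the subgroup of `A m` generated by `a_p, …, a_{q-1}` -/
def SB (m p q : ℕ) : Subgroup (A m) := Subgroup.closure (aA '' {j | p ≤ j ∧ j < q})

private lemma piA_aA {j : ℕ} (hj : j < m + 2) : piA m (aA j) = Equiv.swap j (j + 1) :=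
  liftA_a _ hj

private lemma SB_mono {p q q' : ℕ} (h : q ≤ q') : SB m p q ≤ SB m p q' :=
  Subgroup.closure_mono (Set.image_mono fun _ hj => ⟨hj.1, lt_of_lt_of_le hj.2 h⟩)

private lemma SB_run {p q : ℕ} (hq : q ≤ m + 2) (n : ℕ) (hn : p + n ≤ q) :
    ∃ c ∈ SB m p q, piA m c q = q - n ∧ ∀ i, i < p ∨ q < i → piA m c i = i := by
  induction n with
  | zero => exact ⟨1, Subgroup.one_mem _, by simp, by simp⟩
  | succ n ih =>
    obtain ⟨c, hc, h1, h2⟩ := ih (by omega)
    have e : piA m (aA (q - (n + 1))) = Equiv.swap (q - (n + 1)) (q - n) := by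
      rw [piA_aA (by omega)]
      congr 1
      omega
    refine ⟨aA (q - (n + 1)) * c, Subgroup.mul_mem _ (Subgroup.subset_closure ?_) hc, ?_, ?_⟩
    · exact ⟨q - (n + 1), ⟨by omega, by omega⟩, rfl⟩
    · rw [map_mul, Equiv.Perm.mul_apply, h1, e, Equiv.swap_apply_right]
    · intro i hi
      rw [map_mul, Equiv.Perm.mul_apply, h2 i hi, e]
      exact Equiv.swap_apply_of_ne_of_ne (by omega) (by omega)

private lemma exists_SB_aux (p n : ℕ) : ∀ (_ : p + n ≤ m + 2) (σ : Equiv.Perm ℕ)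
    (_ : ∀ i, i < p ∨ p + n < i → σ i = i), ∃ c ∈ SB m p (p + n), piA m c = σ := by
  induction n with
  | zero =>
    intro _ σ hσ
    refine ⟨1, Subgroup.one_mem _, ?_⟩
    rw [map_one]
    ext i
    by_cases hi : i = p
    · subst hi
      by_contra hc
      have h1 : σ i ≠ i := fun h => hc h.symm
      have h2 : σ (σ i) = σ i := hσ _ (by omega)
      exact h1 (σ.injective h2)
    · exact (hσ i (by omega)).symm
  | succ n ih =>
    intro hm σ hσ
    have hs : p ≤ σ (p + (n + 1)) ∧ σ (p + (n + 1)) ≤ p + (n + 1) := by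
      by_contra hc
      have h1 : σ (σ (p + (n + 1))) = σ (p + (n + 1)) := hσ _ (by omega)
      have h2 := σ.injective h1
      omega
    obtain ⟨c, hc, h1, h2⟩ := SB_run (m := m) (p := p) (q := p + (n + 1)) hm
      (p + (n + 1) - σ (p + (n + 1))) (by omega)
    have h1' : piA m c (p + (n + 1)) = σ (p + (n + 1)) := by
      rw [h1]
      omega
    obtain ⟨c', hc', h3⟩ := ih (by omega) ((piA m c)⁻¹ * σ) (by
      intro i hi
      rw [Equiv.Perm.mul_apply, Equiv.Perm.inv_eq_iff_eq]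
      by_cases hi' : i = p + (n + 1)
      · rw [hi', h1']
      · have hi2 : i < p ∨ p + (n + 1) < i := by omega
        rw [hσ i hi2, h2 i hi2])
    refine ⟨c * c', Subgroup.mul_mem _ hc (SB_mono (by omega) hc'), ?_⟩
    rw [map_mul, h3, mul_inv_cancel_left]

/-- piece `BN-B4-L1`: every permutation with support in `{p, …, q}`, `q ≤ m + 2`, is the permutation
of an element of `SB m p q`.
Proof. Induction on `q - p` (or on `q`): for `q = p` the permutation is `1`. Otherwise let `s = σ q`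
(`p ≤ s ≤ q`); the element `c = a_s ⋯ a_{q-1}` (or its reverse) of `SB m p q` has a permutation that
maps `q` to `s` and has support in `{p, …, q}`; `π(c)⁻¹ σ` fixes `q`, so it has support in
`{p, …, q-1}`; apply the induction hypothesis and `SB m p (q-1) ≤ SB m p q`.
(`piA m (aA j) = Equiv.swap j (j+1)` for `j < m + 2`: unfold `piA`, `liftA_a`.) -/
theorem exists_SB {p q : ℕ} (hpq : p ≤ q) (hq : q ≤ m + 2) (σ : Equiv.Perm ℕ)
    (hσ : ∀ i, i < p ∨ q < i → σ i = i) : ∃ c ∈ SB m p q, piA m c = σ := by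
  obtain ⟨n, rfl⟩ := Nat.exists_eq_add_of_le hpq
  exact exists_SB_aux p n hq σ hσ

/-- an element which commutes with the generators of `SB m p q` commutes with its elements -/
private lemma SB_comm {p q : ℕ} {x : A m} (h : ∀ j, p ≤ j → j < q → aA j * x = x * aA j)
    {c : A m} (hc : c ∈ SB m p q) : c * x = x * c := by
  have h1 : SB m p q ≤ Subgroup.centralizer {x} := by
    rw [SB, Subgroup.closure_le]
    rintro _ ⟨j, ⟨h2, h3⟩, rfl⟩
    rw [SetLike.mem_coe, Subgroup.mem_centralizer_singleton_iff]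
    exact h j h2 h3
  exact Subgroup.mem_centralizer_singleton_iff.1 (h1 hc)

/-- piece `BN-B4-L2`: the elements of `SB m 1 (m+2)` commute with `d`. -/
theorem SB_d {c : A m} (hc : c ∈ SB m 1 (m + 2)) : c * dA = dA * c :=
  SB_comm (fun j h1 h2 => (relA m).dcomm j (by omega) h2) hc

/-- piece `BN-B4-L2`: the elements of `SB m 2 (m+2)` commute with `a_0`. -/
theorem SB_a {c : A m} (hc : c ∈ SB m 2 (m + 2)) : c * aA 0 = aA 0 * c :=
  SB_comm (fun j h1 h2 => ((relA m).comm 0 j (by omega) h2).symm) hc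

/-- piece `BN-B4-L2`: the elements of `SB m 2 (m+2)` commute with `d`. -/
theorem SB_ad {c : A m} (hc : c ∈ SB m 2 (m + 2)) : c * dA = dA * c :=
  SB_comm (fun j h1 h2 => (relA m).dcomm j (by omega) h2) hc

/-- piece `BN-B4-L2`: the elements of `SB m 0 m` commute with `u = b a_{k-1}⁻¹` and `a_{k-1}`,
`k - 1 = m + 1`. -/
theorem SB_u {c : A m} (hc : c ∈ SB m 0 m) : c * uA = uA * c ∧ c * aA (m + 1) = aA (m + 1) * c := by
  have h1 : c * aA (m + 1) = aA (m + 1) * c :=
    SB_comm (fun j _ h2 => (relA m).comm j (m + 1) (by omega) (by omega)) hc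
  have h2 : c * bA = bA * c := SB_comm (fun j _ h2 => ((relA m).bc j h2).symm) hc
  refine ⟨?_, h1⟩
  have h3 : Commute c (aA (m + 1)) := h1
  have h4 : Commute c bA := h2
  exact (h4.mul_right h3.inv_right).eq

private lemma l3_a {j : ℕ} (hj : j < m + 2) : piA m (aA j) = Equiv.swap j (j + 1) := liftA_a _ hj

private lemma l3_b : piA m bA = Equiv.swap (m + 1) (m + 2) := liftA_b _

private lemma l3_d : piA m dA = 1 := liftA_d _

/-- piece `BN-B4-L3`: `piA m h` fixes all `i > m + 2` (closure induction over `closure_A`) -/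
theorem piA_fix (h : A m) {i : ℕ} (hi : m + 2 < i) : piA m h i = i := by
  have key : (⊤ : Subgroup (A m)) ≤ (MulAction.stabilizer (Equiv.Perm ℕ) i).comap (piA m) := by
    rw [← closure_A, Subgroup.closure_le]
    rintro x ((rfl | rfl) | ⟨j, hj, rfl⟩)
    · show piA m bA i = i
      rw [l3_b]
      exact Equiv.swap_apply_of_ne_of_ne (by omega) (by omega)
    · show piA m dA i = i
      rw [l3_d]
      rfl
    · have hj' : j < m + 2 := hj
      show piA m (aA j) i = i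
      rw [l3_a hj']
      exact Equiv.swap_apply_of_ne_of_ne (by omega) (by omega)
  exact key (Subgroup.mem_top h)

/-- piece `BN-B4-L3`: `piA m h` maps `{0, …, m+2}` to itself -/
theorem piA_le (h : A m) {i : ℕ} (hi : i ≤ m + 2) : piA m h i ≤ m + 2 := by
  by_contra hlt
  have h1 := piA_fix h (i := piA m h i) (by omega)
  have h2 := (piA m h).injective h1
  omega

/-- piece `BN-B4-L3`: the permutations of the elements of `SB m p q` fix the strands outside
`{p, …, q}` (closure induction; `aA j = 1` for `j ≥ m + 2`) -/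
theorem SB_fix {p q : ℕ} {c : A m} (hc : c ∈ SB m p q) {i : ℕ} (hi : i < p ∨ q < i) :
    piA m c i = i := by
  have key : SB m p q ≤ (MulAction.stabilizer (Equiv.Perm ℕ) i).comap (piA m) := by
    unfold SB
    rw [Subgroup.closure_le]
    rintro x ⟨j, ⟨h1, h2⟩, rfl⟩
    show piA m (aA j) i = i
    rcases Nat.lt_or_ge j (m + 2) with hj | hj
    · rw [l3_a hj]
      exact Equiv.swap_apply_of_ne_of_ne (by omega) (by omega)
    · rw [aA_ge hj, map_one]
      rfl
  exact key hc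

/-- piece `BN-B4-L3`: `piA m` maps `dA`, `uA` and `aA 0 * aA 0` to `1`. -/
theorem piA_gens : piA m dA = 1 ∧ piA m uA = 1 ∧ piA m (aA 0 * aA 0) = 1 := by
  refine ⟨l3_d, ?_, ?_⟩
  · unfold uA
    rw [map_mul, map_inv, l3_b, l3_a (by omega)]
    exact mul_inv_cancel _
  · rw [map_mul, l3_a (by omega)]
    exact Equiv.swap_mul_self _ _

private theorem eq_mod_aux {h h' : A m} {i : ℕ} (hi : piA m h i = piA m h' i) :
    piA m (h'⁻¹ * h) i = i := by
  rw [map_mul, map_inv, Equiv.Perm.mul_apply, hi, Equiv.Perm.inv_eq_iff_eq]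

private theorem eq_mod_mem {h h' c : A m} (hc : piA m c = piA m (h'⁻¹ * h)) :
    h * c⁻¹ * h'⁻¹ ∈ P m := by
  unfold P
  rw [MonoidHom.mem_ker, map_mul, map_mul, map_inv, map_inv, hc, map_mul, map_inv]
  group

/-- piece `BN-B4-L4`: two elements with the same images of `0` and `1` differ by an element of `P m`
and an element which commutes with `a_0` and `d`.
Proof. `σ = π(h'⁻¹ h)` fixes `0`, `1` and all `i > m + 2`, so `σ = π(c)`, `c ∈ SB m 2 (m+2)`
(`exists_SB`); put `p = h c⁻¹ h'⁻¹`. -/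
theorem eq_mod2 {h h' : A m} (h0 : piA m h 0 = piA m h' 0) (h1 : piA m h 1 = piA m h' 1) :
    ∃ p ∈ P m, ∃ c ∈ SB m 2 (m + 2), h = p * h' * c := by
  obtain ⟨c, hc, hcs⟩ := exists_SB (m := m) (p := 2) (q := m + 2) (by omega) le_rfl
    (piA m (h'⁻¹ * h)) (by
      intro i hi
      rcases hi with hi | hi
      · obtain rfl | rfl : i = 0 ∨ i = 1 := by omega
        · exact eq_mod_aux h0
        · exact eq_mod_aux h1
      · exact eq_mod_aux (by rw [piA_fix h hi, piA_fix h' hi]))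
  exact ⟨h * c⁻¹ * h'⁻¹, eq_mod_mem hcs, c, hc, by group⟩

/-- piece `BN-B4-L4`: the same with `SB m 1 (m+2)`. -/
theorem eq_mod1 {h h' : A m} (h0 : piA m h 0 = piA m h' 0) :
    ∃ p ∈ P m, ∃ c ∈ SB m 1 (m + 2), h = p * h' * c := by
  obtain ⟨c, hc, hcs⟩ := exists_SB (m := m) (p := 1) (q := m + 2) (by omega) le_rfl
    (piA m (h'⁻¹ * h)) (by
      intro i hi
      rcases hi with hi | hi
      · obtain rfl : i = 0 := by omega
        exact eq_mod_aux h0
      · exact eq_mod_aux (by rw [piA_fix h hi, piA_fix h' hi]))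
  exact ⟨h * c⁻¹ * h'⁻¹, eq_mod_mem hcs, c, hc, by group⟩

private theorem l5_step (N : ℕ) (σ : Equiv.Perm ℕ) (hσ : ∀ s, N < s → σ s = s) {t j : ℕ}
    (ht : t ≤ N) (hj : j ≤ N) : ∃ σ' : Equiv.Perm ℕ, (∀ s, N < s → σ' s = s) ∧ σ' t = j ∧
      ∀ r, r ≠ t → σ r ≠ j → σ' r = σ r := by
  refine ⟨Equiv.swap (σ t) j * σ, fun s hs => ?_, ?_, fun r hr hr' => ?_⟩
  · rw [Equiv.Perm.mul_apply, hσ s hs]
    apply Equiv.swap_apply_of_ne_of_ne
    · intro h
      have h1 : σ s = σ t := (hσ s hs).trans h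
      have h2 := σ.injective h1
      omega
    · omega
  · rw [Equiv.Perm.mul_apply, Equiv.swap_apply_left]
  · rw [Equiv.Perm.mul_apply]
    exact Equiv.swap_apply_of_ne_of_ne (fun h => hr (σ.injective h)) hr'

/-- piece `BN-B4-L5`: an element with prescribed images of `0, 1, 2, 3` (the images are distinct).
Proof. There is a permutation of `{0, …, m+2}` with these values (swaps), then `exists_SB`. -/
theorem exists_four (hm : 1 ≤ m) {i j p q : ℕ} (hi : i ≤ m + 2) (hj : j ≤ m + 2) (hp : p ≤ m + 2)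
    (hq : q ≤ m + 2) (hij : i ≠ j) (hip : i ≠ p) (hiq : i ≠ q) (hjp : j ≠ p) (hjq : j ≠ q)
    (hpq : p ≠ q) : ∃ h : A m, piA m h 0 = i ∧ piA m h 1 = j ∧ piA m h 2 = p ∧ piA m h 3 = q := by
  obtain ⟨σ0, f0, a0, -⟩ := l5_step (m + 2) 1 (fun _ _ => rfl) (Nat.zero_le (m + 2)) hi
  obtain ⟨σ1, f1, a1, b1⟩ := l5_step (m + 2) σ0 f0 (t := 1) (by omega) hj
  have a10 : σ1 0 = i := (b1 0 (by omega) (by rw [a0]; exact hij)).trans a0
  obtain ⟨σ2, f2, a2, b2⟩ := l5_step (m + 2) σ1 f1 (t := 2) (by omega) hp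
  have a20 : σ2 0 = i := (b2 0 (by omega) (by rw [a10]; exact hip)).trans a10
  have a21 : σ2 1 = j := (b2 1 (by omega) (by rw [a1]; exact hjp)).trans a1
  obtain ⟨σ3, f3, a3, b3⟩ := l5_step (m + 2) σ2 f2 (t := 3) (by omega) hq
  have a30 : σ3 0 = i := (b3 0 (by omega) (by rw [a20]; exact hiq)).trans a20
  have a31 : σ3 1 = j := (b3 1 (by omega) (by rw [a21]; exact hjq)).trans a21
  have a32 : σ3 2 = p := (b3 2 (by omega) (by rw [a2]; exact hpq)).trans a2
  obtain ⟨c, -, hc⟩ := exists_SB (m := m) (Nat.zero_le (m + 2)) le_rfl σ3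
    (fun s hs => f3 s (hs.resolve_left (Nat.not_lt_zero s)))
  exact ⟨c, by rw [hc]; exact a30, by rw [hc]; exact a31, by rw [hc]; exact a32,
    by rw [hc]; exact a3⟩

/-- piece `BN-B4-L5`: an element with prescribed images of `0, 1, 2`. -/
theorem exists_three {i j p : ℕ} (hi : i ≤ m + 2) (hj : j ≤ m + 2) (hp : p ≤ m + 2)
    (hij : i ≠ j) (hip : i ≠ p) (hjp : j ≠ p) :
    ∃ h : A m, piA m h 0 = i ∧ piA m h 1 = j ∧ piA m h 2 = p := by
  obtain ⟨σ0, f0, a0, -⟩ := l5_step (m + 2) 1 (fun _ _ => rfl) (Nat.zero_le (m + 2)) hi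
  obtain ⟨σ1, f1, a1, b1⟩ := l5_step (m + 2) σ0 f0 (t := 1) (by omega) hj
  have a10 : σ1 0 = i := (b1 0 (by omega) (by rw [a0]; exact hij)).trans a0
  obtain ⟨σ2, f2, a2, b2⟩ := l5_step (m + 2) σ1 f1 (t := 2) (by omega) hp
  have a20 : σ2 0 = i := (b2 0 (by omega) (by rw [a10]; exact hip)).trans a10
  have a21 : σ2 1 = j := (b2 1 (by omega) (by rw [a1]; exact hjp)).trans a1
  obtain ⟨c, -, hc⟩ := exists_SB (m := m) (Nat.zero_le (m + 2)) le_rfl σ2
    (fun s hs => f2 s (hs.resolve_left (Nat.not_lt_zero s)))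
  exact ⟨c, by rw [hc]; exact a20, by rw [hc]; exact a21, by rw [hc]; exact a2⟩

private theorem L6_perm {p N x y a b : ℕ} (hxy : x ≠ y) (hab : a ≠ b) (hx : p ≤ x) (hx' : x ≤ N)
    (hy : p ≤ y) (hy' : y ≤ N) (ha : p ≤ a) (ha' : a ≤ N) (hb : p ≤ b) (hb' : b ≤ N) :
    ∃ σ : Equiv.Perm ℕ, σ x = a ∧ σ y = b ∧ ∀ i, i < p ∨ N < i → σ i = i := by
  have hc : p ≤ Equiv.swap x a b ∧ Equiv.swap x a b ≤ N := by
    rw [Equiv.swap_apply_def]
    split_ifs <;> omega
  have hcx : Equiv.swap x a b ≠ x := by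
    intro h
    have h1 := congrArg (Equiv.swap x a) h
    rw [Equiv.swap_apply_self, Equiv.swap_apply_left] at h1
    exact hab h1.symm
  refine ⟨Equiv.swap x a * Equiv.swap y (Equiv.swap x a b), ?_, ?_, ?_⟩
  · rw [Equiv.Perm.mul_apply, Equiv.swap_apply_of_ne_of_ne hxy hcx.symm,
      Equiv.swap_apply_left]
  · rw [Equiv.Perm.mul_apply, Equiv.swap_apply_left, Equiv.swap_apply_self]
  · intro i hi
    have h1 : Equiv.swap y (Equiv.swap x a b) i = i :=
      Equiv.swap_apply_of_ne_of_ne (by omega) (by omega)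
    rw [Equiv.Perm.mul_apply, h1]
    exact Equiv.swap_apply_of_ne_of_ne (by omega) (by omega)

private theorem L6_pre (h : A m) {s : ℕ} (hs : s ≤ m + 2) :
    ∃ a, a ≤ m + 2 ∧ piA m h a = s := by
  refine ⟨(piA m h).symm s, ?_, ?_⟩
  · by_contra hc
    have h1 := piA_fix h (i := (piA m h).symm s) (by omega)
    rw [Equiv.apply_symm_apply] at h1
    omega
  · rw [Equiv.apply_symm_apply]

/-- piece `BN-B4-L6`: for distinct images: given `h` and a strand `s` different from `π h 0`, `π h 1`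
(and `t` different from all of them) there is `y` commuting with `a_0` and `d` such that
`π (h y) 0 = π h 0`, `π (h y) 1 = π h 1`, `π (h y) 2 = s`, `π (h y) 3 = t`.
Proof. `exists_SB` with `p = 2`, `q = m + 2` for a permutation of `{2, …, m+2}` which maps `2, 3` to
the preimages of `s`, `t` under `π h`. -/
theorem exists_y2 (hm : 1 ≤ m) (h : A m) {s t : ℕ} (hs : s ≤ m + 2) (ht : t ≤ m + 2) (hst : s ≠ t)
    (h0 : s ≠ piA m h 0) (h1 : s ≠ piA m h 1) (h2 : t ≠ piA m h 0) (h3 : t ≠ piA m h 1) :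
    ∃ y ∈ SB m 2 (m + 2), piA m (h * y) 2 = s ∧ piA m (h * y) 3 = t := by
  obtain ⟨a, ha, hsa⟩ := L6_pre h hs
  obtain ⟨b, hb, htb⟩ := L6_pre h ht
  have ha0 : a ≠ 0 := fun e => h0 (by subst e; exact hsa.symm)
  have ha1 : a ≠ 1 := fun e => h1 (by subst e; exact hsa.symm)
  have hb0 : b ≠ 0 := fun e => h2 (by subst e; exact htb.symm)
  have hb1 : b ≠ 1 := fun e => h3 (by subst e; exact htb.symm)
  have hab : a ≠ b := fun e => hst (by rw [← hsa, ← htb, e])
  obtain ⟨σ, hσ1, hσ2, hσ⟩ := L6_perm (p := 2) (N := m + 2) (x := 2) (y := 3) (by omega) hab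
    (by omega) (by omega) (by omega) (by omega) (by omega) ha (by omega) hb
  obtain ⟨y, hy, hy'⟩ := exists_SB (m := m) (p := 2) (q := m + 2) (by omega) le_rfl σ hσ
  refine ⟨y, hy, ?_, ?_⟩
  · rw [map_mul, Equiv.Perm.mul_apply, hy', hσ1, hsa]
  · rw [map_mul, Equiv.Perm.mul_apply, hy', hσ2, htb]

/-- piece `BN-B4-L6`: the same with one strand. -/
theorem exists_y2' (h : A m) {s : ℕ} (hs : s ≤ m + 2)
    (h0 : s ≠ piA m h 0) (h1 : s ≠ piA m h 1) :
    ∃ y ∈ SB m 2 (m + 2), piA m (h * y) 2 = s := by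
  obtain ⟨a, ha, hsa⟩ := L6_pre h hs
  have ha0 : a ≠ 0 := fun e => h0 (by subst e; exact hsa.symm)
  have ha1 : a ≠ 1 := fun e => h1 (by subst e; exact hsa.symm)
  obtain ⟨y, hy, hy'⟩ := exists_SB (m := m) (p := 2) (q := m + 2) (by omega) le_rfl
    (Equiv.swap 2 a) (fun i hi => Equiv.swap_apply_of_ne_of_ne (by omega) (by omega))
  refine ⟨y, hy, ?_⟩
  rw [map_mul, Equiv.Perm.mul_apply, hy', Equiv.swap_apply_left, hsa]

/-- piece `BN-B4-L6`: given `h` and two strands `s ≠ t` different from `π h 0` there is `y` in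
`SB m 1 (m+2)` with `π (h y) 1 = s`, `π (h y) 2 = t`. -/
theorem exists_y1 (h : A m) {s t : ℕ} (hs : s ≤ m + 2) (ht : t ≤ m + 2) (hst : s ≠ t)
    (h0 : s ≠ piA m h 0) (h1 : t ≠ piA m h 0) :
    ∃ y ∈ SB m 1 (m + 2), piA m (h * y) 1 = s ∧ piA m (h * y) 2 = t := by
  obtain ⟨a, ha, hsa⟩ := L6_pre h hs
  obtain ⟨b, hb, htb⟩ := L6_pre h ht
  have ha0 : a ≠ 0 := fun e => h0 (by subst e; exact hsa.symm)
  have hb0 : b ≠ 0 := fun e => h1 (by subst e; exact htb.symm)
  have hab : a ≠ b := fun e => hst (by rw [← hsa, ← htb, e])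
  obtain ⟨σ, hσ1, hσ2, hσ⟩ := L6_perm (p := 1) (N := m + 2) (x := 1) (y := 2) (by omega) hab
    (by omega) (by omega) (by omega) (by omega) (by omega) ha (by omega) hb
  obtain ⟨y, hy, hy'⟩ := exists_SB (m := m) (p := 1) (q := m + 2) (by omega) le_rfl σ hσ
  refine ⟨y, hy, ?_, ?_⟩
  · rw [map_mul, Equiv.Perm.mul_apply, hy', hσ1, hsa]
  · rw [map_mul, Equiv.Perm.mul_apply, hy', hσ2, htb]

private lemma sw_one (j : ℕ) : Equiv.swap j (j + 1) (Equiv.swap (j + 1) (j + 2) j) = j + 1 := by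
  rw [Equiv.swap_apply_of_ne_of_ne (show j ≠ j + 1 by omega) (show j ≠ j + 2 by omega),
    Equiv.swap_apply_left]

private lemma sw_two (j : ℕ) :
    Equiv.swap j (j + 1) (Equiv.swap (j + 1) (j + 2) (j + 1)) = j + 2 := by
  rw [Equiv.swap_apply_left,
    Equiv.swap_apply_of_ne_of_ne (show j + 2 ≠ j by omega) (show j + 2 ≠ j + 1 by omega)]

/-- piece `BN-B4-L7`: there is `g ∈ A m` with `g a_0 g⁻¹ = a_{k-1}`, `π g 0 = k - 1`, `π g 1 = k`
(or the other way round).
Proof. For all `j < m + 2` there is `g_j` with `g_j a_0 g_j⁻¹ = a_j`, `π g_j 0 = j`,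
`π g_j 1 = j + 1`, by induction: `g_{j+1} = (a_j a_{j+1}) g_j`: `(a_j a_{j+1}) a_j (a_j a_{j+1})⁻¹
= a_{j+1}`, and `π(a_j a_{j+1})` maps `j ↦ j+1`, `j + 1 ↦ j + 2`. -/
theorem exists_conj {j : ℕ} (hj : j < m + 2) : ∃ g : A m, g * aA 0 * g⁻¹ = aA j ∧
    piA m g 0 = j ∧ piA m g 1 = j + 1 := by
  induction j with
  | zero => exact ⟨1, by simp, by simp, by simp⟩
  | succ j ih =>
    obtain ⟨g, h1, h2, h3⟩ := ih (by omega)
    have e1 : piA m (aA j) = Equiv.swap j (j + 1) := liftA_a _ (by omega)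
    have e2 : piA m (aA (j + 1)) = Equiv.swap (j + 1) (j + 2) := liftA_a _ hj
    have e3 : (aA j : A m) * aA (j + 1) * aA j = aA (j + 1) * aA j * aA (j + 1) :=
      (relA m).braid j hj
    refine ⟨aA j * aA (j + 1) * g, ?_, ?_, ?_⟩
    · have e4 : aA j * aA (j + 1) * g * aA 0 * (aA j * aA (j + 1) * g)⁻¹ =
          aA j * aA (j + 1) * (g * aA 0 * g⁻¹) * (aA (j + 1))⁻¹ * (aA j)⁻¹ := by group
      rw [e4, h1, e3]
      group
    · rw [map_mul, map_mul, Equiv.Perm.mul_apply, Equiv.Perm.mul_apply, h2, e1, e2]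
      exact sw_one j
    · rw [map_mul, map_mul, Equiv.Perm.mul_apply, Equiv.Perm.mul_apply, h3, e1, e2]
      exact sw_two j

/-- piece `BN-B4-L7`: the same for `b = (a_{k-2} b) a_{k-2} (a_{k-2} b)⁻¹`. -/
theorem exists_conj_b : ∃ g : A m, g * aA 0 * g⁻¹ = bA ∧
    piA m g 0 = m + 1 ∧ piA m g 1 = m + 2 := by
  obtain ⟨g, h1, h2, h3⟩ := exists_conj (m := m) (j := m) (by omega)
  have e1 : piA m (aA m) = Equiv.swap m (m + 1) := liftA_a _ (by omega)
  have e2 : piA m bA = Equiv.swap (m + 1) (m + 2) := liftA_b _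
  have e3 : (bA : A m) * aA m * bA = aA m * bA * aA m := (relA m).bb
  refine ⟨aA m * bA * g, ?_, ?_, ?_⟩
  · have e4 : aA m * bA * g * aA 0 * (aA m * bA * g)⁻¹ =
        aA m * bA * (g * aA 0 * g⁻¹) * bA⁻¹ * (aA m)⁻¹ := by group
    rw [e4, h1, ← e3]
    group
  · rw [map_mul, map_mul, Equiv.Perm.mul_apply, Equiv.Perm.mul_apply, h2, e1, e2]
    exact sw_one m
  · rw [map_mul, map_mul, Equiv.Perm.mul_apply, Equiv.Perm.mul_apply, h3, e1, e2]
    exact sw_two m

end Pool.Agent.Helper38.BN
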