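import Pool.Agent.Helper38.BN.Defs

/-!
# Project BN: the presentations of `A m` and `HB k`
-/

namespace Pool.Agent.Helper38.BN

open Pool.Agent.Helper7.AG (alt rels Artin)

section gen
variable {S : Type*} (M : CoxeterMatrix S)

private lemma mk_alt (n : ℕ) (x y : FreeGroup S) :
    PresentedGroup.mk (rels M) (alt x y n) =
      alt (PresentedGroup.mk (rels M) x) (PresentedGroup.mk (rels M) y) n := by
  induction n generalizing x y with
  | zero => simp [alt]
  | succ n ih => simp [alt, ih]

lemma artin_rel (s t : S) :
    alt (PresentedGroup.of s : Artin M) (PresentedGroup.of t) (M s t) =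
      alt (PresentedGroup.of t : Artin M) (PresentedGroup.of s) (M s t) := by
  have h : alt (FreeGroup.of s) (FreeGroup.of t) (M s t) *
    (alt (FreeGroup.of t) (FreeGroup.of s) (M s t))⁻¹ ∈ rels M := ⟨s, t, rfl⟩
  have h1 := PresentedGroup.one_of_mem h
  rw [map_mul, map_inv, mul_inv_eq_one, mk_alt, mk_alt] at h1
  exact h1

private lemma map_alt {G H : Type*} [Group G] [Group H] (f : G →* H) (n : ℕ) (x y : G) :
    f (alt x y n) = alt (f x) (f y) n := by
  induction n generalizing x y with
  | zero => simp [alt]
  | succ n ih => simp [alt, ih]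

variable {H : Type*} [Group H]

lemma artin_lift_aux (g : S → H) (h : ∀ s t, alt (g s) (g t) (M s t) = alt (g t) (g s) (M s t)) :
    ∀ r ∈ rels M, FreeGroup.lift g r = 1 := by
  rintro r ⟨s, t, rfl⟩
  rw [map_mul, map_inv, mul_inv_eq_one, map_alt, map_alt]
  simpa using h s t

lemma alt_two (x y : H) : alt x y 2 = x * y := by simp [alt]
lemma alt_three (x y : H) : alt x y 3 = x * y * x := by simp [alt, mul_assoc]
lemma alt_four (x y : H) : alt x y 4 = x * y * x * y := by simp [alt, mul_assoc]
lemma alt_one (x y : H) : alt x y 1 = x := by simp [alt]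

end gen

lemma Bt_apply (n : ℕ) (i j : Fin (n + 1)) : (Bt n) i j = btE n i j := rfl

lemma Bs_apply (k : ℕ) (i j : Fin (k + 1)) : (Bs k) i j = bE i j := rfl

lemma btE_two {n i j : ℕ} (h1 : i ≠ j) (h2 : ¬(i = 0 ∧ j = 2)) (h3 : ¬(j = 0 ∧ i = 2))
    (h4 : ¬(i ≠ 0 ∧ j = i + 1)) (h5 : ¬(j ≠ 0 ∧ i = j + 1)) : btE n i j = 2 := by
  unfold btE
  rw [if_neg h1, if_neg (by tauto), if_neg (by tauto)]

lemma btE_three {n i j : ℕ} (h : (i = 0 ∧ j = 2) ∨ (j = 0 ∧ i = 2) ∨
    ((i ≠ 0 ∧ j = i + 1) ∨ (j ≠ 0 ∧ i = j + 1)) ∧ i ≠ n ∧ j ≠ n) : btE n i j = 3 := by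
  unfold btE
  rw [if_neg (by omega)]
  by_cases h1 : (i = 0 ∧ j = 2) ∨ (j = 0 ∧ i = 2)
  · rw [if_pos h1]
  · rw [if_neg h1, if_pos (by tauto), if_neg (by tauto)]

lemma btE_four {n i j : ℕ} (hn : 3 ≤ n) (h : (i = n ∧ j + 1 = n) ∨ (j = n ∧ i + 1 = n)) :
    btE n i j = 4 := by
  unfold btE
  rw [if_neg (by omega), if_neg (by omega), if_pos (by omega), if_pos (by omega)]

lemma bE_two {i j : ℕ} (h1 : i ≠ j) (h2 : j ≠ i + 1) (h3 : i ≠ j + 1) : bE i j = 2 := by
  unfold bE
  rw [if_neg h1, if_neg (by tauto)]

lemma bE_three {i j : ℕ} (h : j = i + 1 ∨ i = j + 1) (h1 : i ≠ 0) (h2 : j ≠ 0) :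
    bE i j = 3 := by
  unfold bE
  rw [if_neg (by omega), if_pos h, if_neg (by tauto)]

lemma bE_four {i j : ℕ} (h : (i = 0 ∧ j = 1) ∨ (i = 1 ∧ j = 0)) : bE i j = 4 := by
  unfold bE
  rw [if_neg (by omega), if_pos (by omega), if_pos (by omega)]

section A
variable {m : ℕ}

lemma aA_of {j : ℕ} (h : j < m + 2) :
    (aA j : A m) = PresentedGroup.of (⟨m + 2 - j, by omega⟩ : Fin (m + 3 + 1)) := if_pos h

lemma aA_ge {j : ℕ} (h : m + 2 ≤ j) : (aA j : A m) = 1 := if_neg (by omega)

private lemma relA2 {i j : Fin (m + 3 + 1)} (h : btE (m + 3) i j = 2) :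
    (PresentedGroup.of i : A m) * PresentedGroup.of j =
      PresentedGroup.of j * PresentedGroup.of i := by
  have h1 := artin_rel (Bt (m + 3)) i j
  rwa [Bt_apply, h, alt_two, alt_two] at h1

private lemma relA3 {i j : Fin (m + 3 + 1)} (h : btE (m + 3) i j = 3) :
    (PresentedGroup.of i : A m) * PresentedGroup.of j * PresentedGroup.of i =
      PresentedGroup.of j * PresentedGroup.of i * PresentedGroup.of j := by
  have h1 := artin_rel (Bt (m + 3)) i j
  rwa [Bt_apply, h, alt_three, alt_three] at h1

private lemma relA4 {i j : Fin (m + 3 + 1)} (h : btE (m + 3) i j = 4) :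
    (PresentedGroup.of i : A m) * PresentedGroup.of j * PresentedGroup.of i *
        PresentedGroup.of j =
      PresentedGroup.of j * PresentedGroup.of i * PresentedGroup.of j *
        PresentedGroup.of i := by
  have h1 := artin_rel (Bt (m + 3)) i j
  rwa [Bt_apply, h, alt_four, alt_four] at h1

theorem relA (m : ℕ) : RelA m (aA : ℕ → A m) bA dA where
  comm i j h h' := by
    rw [aA_of (by omega), aA_of (by omega)]
    exact relA2 (btE_two (by simp only; omega) (by simp only; omega) (by simp only; omega)
      (by simp only; omega) (by simp only; omega))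
  braid i h := by
    rw [aA_of (by omega), aA_of (by omega)]
    exact relA3 (btE_three (by simp only; omega))
  dcomm i h h' := by
    rw [aA_of (by omega)]
    exact relA2 (btE_two (by simp only; omega) (by simp only; omega) (by simp only; omega)
      (by simp only; omega) (by simp only; omega))
  four h := by
    rw [aA_of (by omega)]
    refine relA4 (btE_four (by omega) (Or.inr ⟨rfl, ?_⟩))
    change m + 2 - 0 + 1 = m + 3
    omega
  ba := by
    rw [aA_of (by omega)]
    exact relA2 (btE_two (by simp only; omega) (by simp only; omega) (by simp only; omega)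
      (by simp only; omega) (by simp only; omega))
  bb := by
    rw [aA_of (by omega)]
    refine relA3 (btE_three (Or.inl ⟨rfl, ?_⟩))
    change m + 2 - m = 2
    omega
  bc i h := by
    rw [aA_of (by omega)]
    exact relA2 (btE_two (by simp only; omega) (by simp only; omega) (by simp only; omega)
      (by simp only; omega) (by simp only; omega))
  bd := relA2 (btE_two (by simp only; omega) (by simp only; omega) (by simp only; omega)
      (by simp only; omega) (by simp only; omega))

variable {K : Type*} [Group K]

/-- the images of the generators -/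
def liftAf (m : ℕ) (a : ℕ → K) (b d : K) (i : Fin (m + 3 + 1)) : K :=
  if i.val = 0 then b else if i.val = m + 3 then d else a (m + 2 - i.val)

private lemma liftA_aux {a : ℕ → K} {b d : K} (h : RelA m a b d) :
    ∀ r ∈ rels (Bt (m + 3)), FreeGroup.lift (liftAf m a b d) r = 1 := by
  apply artin_lift_aux
  -- it is enough to consider `s < t`
  have key : ∀ s t : Fin (m + 3 + 1), s.val < t.val →
      alt (liftAf m a b d s) (liftAf m a b d t) (Bt (m + 3) s t) =
        alt (liftAf m a b d t) (liftAf m a b d s) (Bt (m + 3) s t) := by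
    intro s t hst
    obtain ⟨s, hs⟩ := s
    obtain ⟨t, ht⟩ := t
    simp only at hst
    rw [Bt_apply]
    simp only [liftAf]
    rcases Nat.eq_zero_or_pos s with rfl | hs0
    · -- `s = b`
      rw [if_pos rfl, if_neg (by omega)]
      rcases Nat.lt_or_ge t (m + 3) with ht1 | ht1
      · rw [if_neg (by omega)]
        rcases Nat.lt_trichotomy t 2 with h2 | h2 | h2
        · have e : t = 1 := by omega
          subst e
          have e1 : btE (m + 3) 0 1 = 2 :=
              btE_two (by omega) (by omega) (by omega) (by omega) (by omega)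
          rw [e1, alt_two, alt_two]
          exact h.ba
        · subst h2
          have e1 : btE (m + 3) 0 2 = 3 := btE_three (by omega)
          rw [e1, alt_three, alt_three]
          exact h.bb
        · have e1 : btE (m + 3) 0 t = 2 :=
              btE_two (by omega) (by omega) (by omega) (by omega) (by omega)
          rw [e1, alt_two, alt_two]
          exact h.bc _ (by omega)
      · rw [if_pos (by omega)]
        have e1 : btE (m + 3) 0 t = 2 :=
              btE_two (by omega) (by omega) (by omega) (by omega) (by omega)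
        rw [e1, alt_two, alt_two]
        exact h.bd
    · rw [if_neg (by omega), if_neg (by omega), if_neg (by omega)]
      rcases Nat.lt_or_ge t (m + 3) with ht1 | ht1
      · rw [if_neg (by omega)]
        rcases Nat.lt_or_ge (s + 1) t with h2 | h2
        · have e1 : btE (m + 3) s t = 2 :=
              btE_two (by omega) (by omega) (by omega) (by omega) (by omega)
          rw [e1, alt_two, alt_two]
          exact (h.comm _ _ (by omega) (by omega)).symm
        · have e : t = s + 1 := by omega
          subst e
          have e1 : btE (m + 3) s (s + 1) = 3 := btE_three (by omega)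
          rw [e1, alt_three, alt_three]
          have h3 := h.braid (m + 2 - (s + 1)) (by omega)
          have e2 : m + 2 - (s + 1) + 1 = m + 2 - s := by omega
          rw [e2] at h3
          exact h3.symm
      · rw [if_pos (by omega)]
        rcases Nat.lt_or_ge s (m + 2) with h2 | h2
        · have e1 : btE (m + 3) s t = 2 :=
              btE_two (by omega) (by omega) (by omega) (by omega) (by omega)
          rw [e1, alt_two, alt_two]
          exact h.dcomm _ (by omega) (by omega)
        · have e : s = m + 2 := by omega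
          subst e
          have e1 : btE (m + 3) (m + 2) t = 4 := btE_four (by omega) (by omega)
          rw [e1, alt_four, alt_four]
          have h3 := h.four (by omega)
          simpa using h3
  intro s t
  rcases lt_trichotomy s.val t.val with h1 | h1 | h1
  · exact key s t h1
  · have : s = t := Fin.ext h1
    rw [this]
  · have h2 := key t s h1
    rw [(Bt (m + 3)).symmetric s t]
    exact h2.symm

/-- the universal property of `A m` -/
def liftA {a : ℕ → K} {b d : K} (h : RelA m a b d) : A m →* K :=
  PresentedGroup.toGroup (liftA_aux h)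

@[simp] lemma liftA_b {a : ℕ → K} {b d : K} (h : RelA m a b d) : liftA h bA = b := by
  unfold liftA bA; rw [PresentedGroup.toGroup.of]; simp [liftAf]
@[simp] lemma liftA_d {a : ℕ → K} {b d : K} (h : RelA m a b d) : liftA h dA = d := by
  unfold liftA dA; rw [PresentedGroup.toGroup.of]; simp [liftAf]
lemma liftA_a {a : ℕ → K} {b d : K} (h : RelA m a b d) {j : ℕ} (hj : j < m + 2) :
    liftA h (aA j) = a j := by
  rw [aA_of hj]; unfold liftA; rw [PresentedGroup.toGroup.of]
  have e : m + 2 - (m + 2 - j) = j := by omega
  simp only [liftAf]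
  rw [if_neg (by omega), if_neg (by omega), e]

lemma gen_cases (i : Fin (m + 3 + 1)) : (PresentedGroup.of i : A m) = bA ∨
    (PresentedGroup.of i : A m) = dA ∨ ∃ j, j < m + 2 ∧ (PresentedGroup.of i : A m) = aA j := by
  obtain ⟨i, hi⟩ := i
  rcases Nat.eq_zero_or_pos i with rfl | h0
  · exact Or.inl rfl
  · rcases Nat.lt_or_ge i (m + 3) with h1 | h1
    · refine Or.inr (Or.inr ⟨m + 2 - i, by omega, ?_⟩)
      rw [aA_of (by omega)]
      congr 2
      omega
    · refine Or.inr (Or.inl ?_)
      have e : i = m + 3 := by omega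
      subst e
      rfl

/-- homomorphisms on `A m` are equal if they agree on the generators -/
lemma homA_ext {f g : A m →* K} (ha : ∀ j, j < m + 2 → f (aA j) = g (aA j))
    (hb : f bA = g bA) (hd : f dA = g dA) : f = g := by
  apply PresentedGroup.ext
  intro i
  rcases gen_cases i with h | h | ⟨j, hj, h⟩
  · rw [h, hb]
  · rw [h, hd]
  · rw [h, ha j hj]

lemma closure_A : Subgroup.closure ({bA, dA} ∪ aA '' {j | j < m + 2} : Set (A m)) = ⊤ := by
  rw [eq_top_iff, ← PresentedGroup.closure_range_of, Subgroup.closure_le]
  rintro _ ⟨i, rfl⟩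
  apply Subgroup.subset_closure
  rcases gen_cases i with h | h | ⟨j, hj, h⟩
  · rw [h]; simp
  · rw [h]; simp
  · rw [h]; exact Or.inr ⟨j, hj, rfl⟩

end A

section H
variable {k : ℕ}

lemma aH_of {j : ℕ} (h : j < k) :
    (aH j : HB k) = PresentedGroup.of (⟨j + 1, by omega⟩ : Fin (k + 1)) := dif_pos h

lemma aH_ge {j : ℕ} (h : k ≤ j) : (aH j : HB k) = 1 := dif_neg (by omega)

private lemma relH2 {i j : Fin (k + 1)} (h : bE i j = 2) :
    (PresentedGroup.of i : HB k) * PresentedGroup.of j =
      PresentedGroup.of j * PresentedGroup.of i := by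
  have h1 := artin_rel (Bs k) i j
  rwa [Bs_apply, h, alt_two, alt_two] at h1

private lemma relH3 {i j : Fin (k + 1)} (h : bE i j = 3) :
    (PresentedGroup.of i : HB k) * PresentedGroup.of j * PresentedGroup.of i =
      PresentedGroup.of j * PresentedGroup.of i * PresentedGroup.of j := by
  have h1 := artin_rel (Bs k) i j
  rwa [Bs_apply, h, alt_three, alt_three] at h1

private lemma relH4 {i j : Fin (k + 1)} (h : bE i j = 4) :
    (PresentedGroup.of i : HB k) * PresentedGroup.of j * PresentedGroup.of i *
        PresentedGroup.of j =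
      PresentedGroup.of j * PresentedGroup.of i * PresentedGroup.of j *
        PresentedGroup.of i := by
  have h1 := artin_rel (Bs k) i j
  rwa [Bs_apply, h, alt_four, alt_four] at h1

theorem relH (k : ℕ) : RelB k (aH : ℕ → HB k) dH where
  comm i j h h' := by
    rw [aH_of (by omega), aH_of (by omega)]
    exact relH2 (bE_two (by simp only; omega) (by simp only; omega) (by simp only; omega))
  braid i h := by
    rw [aH_of (by omega), aH_of (by omega)]
    refine relH3 (bE_three (Or.inl ?_) ?_ ?_)
    · change i + 1 + 1 = i + 1 + 1; rfl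
    · change i + 1 ≠ 0; omega
    · change i + 1 + 1 ≠ 0; omega
  dcomm i h h' := by
    rw [aH_of (by omega)]
    exact relH2 (bE_two (by simp only; omega) (by simp only; omega) (by simp only; omega))
  four h := by
    rw [aH_of (by omega)]
    exact relH4 (bE_four (Or.inr ⟨rfl, rfl⟩))

variable {K : Type*} [Group K]

/-- the images of the generators -/
def liftHf (k : ℕ) (a : ℕ → K) (d : K) (i : Fin (k + 1)) : K :=
  if i.val = 0 then d else a (i.val - 1)

private lemma liftH_aux {a : ℕ → K} {d : K} (h : RelB k a d) :
    ∀ r ∈ rels (Bs k), FreeGroup.lift (liftHf k a d) r = 1 := by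
  apply artin_lift_aux
  have key : ∀ s t : Fin (k + 1), s.val < t.val →
      alt (liftHf k a d s) (liftHf k a d t) (Bs k s t) =
        alt (liftHf k a d t) (liftHf k a d s) (Bs k s t) := by
    intro s t hst
    obtain ⟨s, hs⟩ := s
    obtain ⟨t, ht⟩ := t
    simp only at hst
    rw [Bs_apply]
    simp only [liftHf]
    rcases Nat.eq_zero_or_pos s with rfl | hs0
    · rw [if_pos rfl, if_neg (by omega)]
      rcases Nat.lt_or_ge t 2 with ht1 | ht1
      · have e : t = 1 := by omega
        subst e
        have e1 : bE 0 1 = 4 := bE_four (by omega)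
        rw [e1, alt_four, alt_four]
        exact (h.four (by omega)).symm
      · have e1 : bE 0 t = 2 := bE_two (by omega) (by omega) (by omega)
        rw [e1, alt_two, alt_two]
        exact (h.dcomm _ (by omega) (by omega)).symm
    · rw [if_neg (by omega), if_neg (by omega)]
      rcases Nat.lt_or_ge (s + 1) t with h2 | h2
      · have e1 : bE s t = 2 := bE_two (by omega) (by omega) (by omega)
        rw [e1, alt_two, alt_two]
        exact h.comm _ _ (by omega) (by omega)
      · have e : t = s + 1 := by omega
        subst e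
        have e1 : bE s (s + 1) = 3 := bE_three (by omega) (by omega) (by omega)
        rw [e1, alt_three, alt_three]
        have h3 := h.braid (s - 1) (by omega)
        have e2 : s - 1 + 1 = s + 1 - 1 := by omega
        rw [e2] at h3
        exact h3
  intro s t
  rcases lt_trichotomy s.val t.val with h1 | h1 | h1
  · exact key s t h1
  · have : s = t := Fin.ext h1
    rw [this]
  · have h2 := key t s h1
    rw [(Bs k).symmetric s t]
    exact h2.symm

/-- the universal property of `HB k` -/
def liftH {a : ℕ → K} {d : K} (h : RelB k a d) : HB k →* K :=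
  PresentedGroup.toGroup (liftH_aux h)

@[simp] lemma liftH_d {a : ℕ → K} {d : K} (h : RelB k a d) : liftH h dH = d := by
  unfold liftH dH; rw [PresentedGroup.toGroup.of]; simp [liftHf]
lemma liftH_a {a : ℕ → K} {d : K} (h : RelB k a d) {j : ℕ} (hj : j < k) :
    liftH h (aH j) = a j := by
  rw [aH_of hj]; unfold liftH; rw [PresentedGroup.toGroup.of]
  simp [liftHf]

lemma genH_cases (i : Fin (k + 1)) : (PresentedGroup.of i : HB k) = dH ∨
    ∃ j, j < k ∧ (PresentedGroup.of i : HB k) = aH j := by
  obtain ⟨i, hi⟩ := i
  rcases Nat.eq_zero_or_pos i with rfl | h0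
  · exact Or.inl rfl
  · refine Or.inr ⟨i - 1, by omega, ?_⟩
    rw [aH_of (by omega)]
    congr 2
    omega

/-- homomorphisms on `HB k` are equal if they agree on the generators -/
lemma homH_ext {f g : HB k →* K} (ha : ∀ j, j < k → f (aH j) = g (aH j))
    (hd : f dH = g dH) : f = g := by
  apply PresentedGroup.ext
  intro i
  rcases genH_cases i with h | ⟨j, hj, h⟩
  · rw [h, hd]
  · rw [h, ha j hj]

lemma closure_H : Subgroup.closure ({dH} ∪ aH '' {j | j < k} : Set (HB k)) = ⊤ := by
  rw [eq_top_iff, ← PresentedGroup.closure_range_of, Subgroup.closure_le]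
  rintro _ ⟨i, rfl⟩
  apply Subgroup.subset_closure
  rcases genH_cases i with h | ⟨j, hj, h⟩
  · rw [h]; simp
  · rw [h]; exact Or.inr ⟨j, hj, rfl⟩

end H

end Pool.Agent.Helper38.BN
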