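import Pool.Agent.Helper38.BN.Acts
import Pool.Agent.Helper38.BN.Br1

/-!
# Project BN, pieces `BN-RL1` to `BN-RL8`: the relations for the homomorphisms
-/

namespace Pool.Agent.Helper38.BN

variable {K : Type*} [Group K] {k m : ℕ} {a : ℕ → K} {b d : K}

/-- piece `BN-RL1`: the shifted generators. For `k > 0`, `four` says
`a_1 a_0² a_1 a_0² = a_0² a_1 a_0² a_1`, which follows from the braid relation:
`a_1 a_0² a_1 = a_1 a_0 a_0 a_1` commutes with `a_0`:
`a_0 (a_1 a_0 a_0 a_1) = (a_0 a_1 a_0) a_0 a_1 = a_1 a_0 a_1 a_0 a_1 = a_1 a_0 (a_0 a_1 a_0)`. -/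
theorem iota_rel (h : RelBr (k + 1) a) : RelB k (fun j => a (j + 1)) (a 0 * a 0) where
  comm i j h1 h2 := h.comm (i + 1) (j + 1) (by omega) (by omega)
  braid i h1 := h.braid (i + 1) (by omega)
  dcomm i h1 h2 := by
    have e := h.comm 0 (i + 1) (by omega) (by omega)
    have e2 : Commute (a (i + 1)) (a 0) := e.symm
    exact (e2.mul_right e2).eq
  four h1 := by
    have e := h.braid 0 (by omega)
    rw [zero_add] at e
    have e1 : a 0 * (a 1 * a 0 * a 0 * a 1) = (a 1 * a 0 * a 0 * a 1) * a 0 := by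
      calc a 0 * (a 1 * a 0 * a 0 * a 1) = (a 0 * a 1 * a 0) * a 0 * a 1 := by
            simp only [mul_assoc]
        _ = a 1 * a 0 * (a 1 * a 0 * a 1) := by rw [e]; simp only [mul_assoc]
        _ = a 1 * a 0 * (a 0 * a 1 * a 0) := by rw [e]
        _ = (a 1 * a 0 * a 0 * a 1) * a 0 := by simp only [mul_assoc]
    change a 1 * (a 0 * a 0) * a 1 * (a 0 * a 0) = a 0 * a 0 * a 1 * (a 0 * a 0) * a 1
    calc a 1 * (a 0 * a 0) * a 1 * (a 0 * a 0) = ((a 1 * a 0 * a 0 * a 1) * a 0) * a 0 := by
          simp only [mul_assoc]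
      _ = a 0 * ((a 1 * a 0 * a 0 * a 1) * a 0) := by rw [← e1, mul_assoc, e1]
      _ = a 0 * (a 0 * (a 1 * a 0 * a 0 * a 1)) := by rw [e1]
      _ = a 0 * a 0 * a 1 * (a 0 * a 0) * a 1 := by simp only [mul_assoc]

/-- piece `BN-RL2`: inverses: take the inverse of each relation. -/
theorem inv_relB (h : RelB k a d) : RelB k (fun j => (a j)⁻¹) d⁻¹ where
  comm i j h1 h2 := by
    rw [← mul_inv_rev, ← mul_inv_rev, h.comm i j h1 h2]
  braid i h1 := by
    rw [← mul_inv_rev, ← mul_inv_rev, ← mul_inv_rev, ← mul_inv_rev, ← mul_assoc, ← mul_assoc,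
      h.braid i h1]
  dcomm i h1 h2 := by
    rw [← mul_inv_rev, ← mul_inv_rev, h.dcomm i h1 h2]
  four h1 := by
    have e := h.four h1
    rw [← mul_inv_rev, ← mul_inv_rev, ← mul_inv_rev, ← mul_inv_rev, ← mul_inv_rev,
      ← mul_inv_rev, ← mul_assoc, ← mul_assoc, ← mul_assoc, ← mul_assoc, e]

/-- piece `BN-RL2` -/
theorem inv_relA (h : RelA m a b d) : RelA m (fun j => (a j)⁻¹) b⁻¹ d⁻¹ where
  toRelB := inv_relB h.toRelB
  ba := by
    rw [← mul_inv_rev, ← mul_inv_rev, h.ba]
  bb := by
    rw [← mul_inv_rev, ← mul_inv_rev, ← mul_inv_rev, ← mul_inv_rev, ← mul_assoc, ← mul_assoc,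
      h.bb]
  bc i hi := by
    rw [← mul_inv_rev, ← mul_inv_rev, h.bc i hi]
  bd := by
    rw [← mul_inv_rev, ← mul_inv_rev, h.bd]

private lemma tr_two {x y w v : K} (h : Commute w y) : x * w * (y * v) = x * y * (w * v) :=
  h.mul_mul_mul_comm x v

/-- piece `BN-RL2`: twist with powers of an element `z` that commutes with all generators. -/
theorem tr_rel (h : RelB k a d) {z : K} (hza : ∀ j, j < k → z * a j = a j * z)
    (hzd : z * d = d * z) (p q : ℤ) :
    RelB k (fun j => a j * z ^ p) (d * z ^ q) where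
  comm i j h1 h2 := by
    have ci : Commute (z ^ p) (a i) := (show Commute z (a i) from hza i (by omega)).zpow_left p
    have cj : Commute (z ^ p) (a j) := (show Commute z (a j) from hza j h2).zpow_left p
    change a i * z ^ p * (a j * z ^ p) = a j * z ^ p * (a i * z ^ p)
    rw [tr_two cj, tr_two ci, h.comm i j h1 h2]
  braid i h1 := by
    have ci : Commute (z ^ p) (a i) := (show Commute z (a i) from hza i (by omega)).zpow_left p
    have cj : Commute (z ^ p) (a (i + 1)) :=
      (show Commute z (a (i + 1)) from hza (i + 1) h1).zpow_left p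
    change a i * z ^ p * (a (i + 1) * z ^ p) * (a i * z ^ p) =
      a (i + 1) * z ^ p * (a i * z ^ p) * (a (i + 1) * z ^ p)
    rw [tr_two cj, tr_two ci, tr_two (ci.mul_left ci), tr_two (cj.mul_left cj), h.braid i h1]
  dcomm i h1 h2 := by
    have ci : Commute (z ^ q) (a i) := (show Commute z (a i) from hza i h2).zpow_left q
    have cd : Commute (z ^ p) d := (show Commute z d from hzd).zpow_left p
    have cz : Commute (z ^ p) (z ^ q) := (Commute.refl z).zpow_zpow p q
    change a i * z ^ p * (d * z ^ q) = d * z ^ q * (a i * z ^ p)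
    rw [tr_two cd, tr_two ci, h.dcomm i h1 h2, cz.eq]
  four h1 := by
    have ca : Commute (z ^ p) (a 0) := (show Commute z (a 0) from hza 0 h1).zpow_left p
    have ca' : Commute (z ^ q) (a 0) := (show Commute z (a 0) from hza 0 h1).zpow_left q
    have cd : Commute (z ^ p) d := (show Commute z d from hzd).zpow_left p
    have cd' : Commute (z ^ q) d := (show Commute z d from hzd).zpow_left q
    have cz : Commute (z ^ p) (z ^ q) := (Commute.refl z).zpow_zpow p q
    change a 0 * z ^ p * (d * z ^ q) * (a 0 * z ^ p) * (d * z ^ q) =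
      d * z ^ q * (a 0 * z ^ p) * (d * z ^ q) * (a 0 * z ^ p)
    rw [tr_two cd, tr_two ca', tr_two (ca.mul_left ca'), tr_two (cd'.mul_left cd),
      tr_two ((cd.mul_left cd').mul_left cd), tr_two ((ca'.mul_left ca).mul_left ca'), h.four h1]
    congr 1
    rw [cz.eq, mul_assoc (z ^ q * z ^ p), cz.eq, ← mul_assoc]

private lemma sp_kap_op (a : ℕ → K) : ∀ p : ℕ,
    kap (fun j => MulOpposite.op (a j)) p = MulOpposite.op (krev a p)
  | 0 => rfl
  | p + 1 => by
    rw [kap, sp_kap_op a p, ← MulOpposite.op_mul, krev]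

private lemma sp_krev_shift (h : RelBr k a) {p j : ℕ} (hp : p ≤ k) (hj : j + 1 < p) :
    krev a p * a (j + 1) = a j * krev a p := by
  have h' : RelBr k (fun j => MulOpposite.op (a j)) :=
    { comm := fun i j h1 h2 => by
        rw [← MulOpposite.op_mul, ← MulOpposite.op_mul, h.comm i j h1 h2]
      braid := fun i h1 => by
        rw [← MulOpposite.op_mul, ← MulOpposite.op_mul, ← MulOpposite.op_mul,
          ← MulOpposite.op_mul, ← mul_assoc, ← mul_assoc, h.braid i h1] }
  have h1 := kap_shift h' hp hj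
  rw [sp_kap_op, ← MulOpposite.op_mul, ← MulOpposite.op_mul] at h1
  exact (MulOpposite.op_injective h1).symm

private lemma sp_kap_front (a : ℕ → K) : ∀ p : ℕ,
    kap a (p + 1) = a 0 * kap (fun j => a (j + 1)) p
  | 0 => by simp [kap]
  | p + 1 => by rw [kap, sp_kap_front a p, kap, mul_assoc]

private lemma sp_krev_back (a : ℕ → K) : ∀ p : ℕ,
    krev a (p + 1) = krev (fun j => a (j + 1)) p * a 0
  | 0 => by simp [krev]
  | p + 1 => by rw [krev, sp_krev_back a p, krev, mul_assoc]

private lemma sp_comm_kap {x : K} (a : ℕ → K) : ∀ p : ℕ, (∀ j, j < p → Commute x (a j)) →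
    Commute x (kap a p) ∧ Commute x (krev a p)
  | 0, _ => ⟨Commute.one_right x, Commute.one_right x⟩
  | p + 1, h => by
    have h1 := sp_comm_kap a p fun j hj => h j (by omega)
    exact ⟨h1.1.mul_right (h p (by omega)), (h p (by omega)).mul_right h1.2⟩

/-- `κ κ'` commutes with `a_i`, `i ≥ 1` -/
private lemma sp_V (h : RelBr k a) {i : ℕ} (h0 : 0 < i) (hi : i < k) :
    Commute (a i) (kap a k * krev a k) := by
  obtain ⟨j, rfl⟩ : ∃ j, i = j + 1 := ⟨i - 1, by omega⟩
  have h1 := kap_shift h le_rfl hi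
  have h2 := sp_krev_shift h le_rfl hi
  change a (j + 1) * (kap a k * krev a k) = kap a k * krev a k * a (j + 1)
  rw [← mul_assoc, ← h1, mul_assoc, mul_assoc, h2]

/-- piece `BN-RL3`: the homomorphism `S`: `a_j ↦ a_j⁻¹`, `d ↦ D = d κ κ'`, `κ = a_0 ⋯ a_{k-1}`,
`κ' = a_{k-1} ⋯ a_0`.
Proof. `a_j` (`j ≥ 1`) commutes with `κ κ'`: `κ a_{j-1} = a_j κ` (`kap_shift`) and, by the same
argument for the reversed product, `κ' a_j = a_{j-1} κ'`; and with `d`. For `four`:
`D a_0⁻¹ D a_0⁻¹ = a_0⁻¹ D a_0⁻¹ D`, that is, `D a_0⁻¹ D` commutes with `a_0`. Write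
`κ = a_0 s`, `κ' = s' a_0`, `D = d a_0 s s' a_0` where `s s'` commutes with `d` and
`V = a_0 s s' a_0` commutes with `s s'` (it commutes with every `a_j`, `j ≥ 1`, see above). Then
`D a_0⁻¹ D = d a_0 (s s') d V = d a_0 d (s s') V = d a_0 d V (s s') = d a_0 d a_0 (s s') a_0 (s s')`.
Now `d a_0 d a_0` commutes with `a_0`, and so does `(s s') a_0 (s s') a_0 = (s s') a_0 (s s') a_0`:
`V = a_0 (s s') a_0` commutes with `s s'`, so `a_0 · (ss') a_0 (ss') a_0 = V (ss') a_0 = (ss') V a_0
= (ss') a_0 (ss') a_0 a_0`. Hence `a_0` commutes with `D a_0⁻¹ D` after multiplying with `a_0`: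
`X := (s s') a_0 (s s') a_0` commutes with `a_0`, so `(s s') a_0 (s s') = X a_0⁻¹` also does. -/
theorem sp_rel (h : RelB k a d) : RelB k (fun j => (a j)⁻¹) (Dd k a d) where
  comm i j h1 h2 := by
    have e := h.comm i j h1 h2
    rw [← mul_inv_rev, ← mul_inv_rev, e]
  braid i h1 := by
    have e := h.braid i h1
    rw [← mul_inv_rev, ← mul_inv_rev, ← mul_inv_rev, ← mul_inv_rev, ← mul_assoc, ← mul_assoc, e]
  dcomm i h1 h2 := by
    have e1 : Commute (a i) d := h.dcomm i h1 h2
    have e2 := sp_V h.toRelBr h1 h2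
    have e3 : Commute (a i) (Dd k a d) := by
      unfold Dd
      rw [mul_assoc]
      exact e1.mul_right e2
    exact e3.inv_left.eq
  four h1 := by
    obtain ⟨p, rfl⟩ : ∃ p, k = p + 1 := ⟨k - 1, by omega⟩
    obtain ⟨t, ht⟩ : ∃ t, t = kap (fun j => a (j + 1)) p * krev (fun j => a (j + 1)) p := ⟨_, rfl⟩
    have hV : kap a (p + 1) * krev a (p + 1) = a 0 * t * a 0 := by
      rw [sp_kap_front, sp_krev_back, ht]; simp only [mul_assoc]
    have htd : Commute d t := by
      rw [ht]
      have := sp_comm_kap (x := d) (fun j => a (j + 1)) p fun j hj =>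
        (show Commute d (a (j + 1)) from (h.dcomm (j + 1) (by omega) (by omega)).symm)
      exact this.1.mul_right this.2
    have htV : Commute (a 0 * t * a 0) t := by
      rw [← hV, ht]
      have := sp_comm_kap (x := kap a (p + 1) * krev a (p + 1)) (fun j => a (j + 1)) p
        fun j hj => (sp_V h.toRelBr (Nat.succ_pos j) (by omega)).symm
      exact this.1.mul_right this.2
    have hD : Dd (p + 1) a d = d * (a 0 * t * a 0) := by
      unfold Dd; rw [mul_assoc, hV]
    have hY : Dd (p + 1) a d * (a 0)⁻¹ * Dd (p + 1) a d =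
        (d * a 0 * d * a 0) * (t * a 0 * t) := by
      calc Dd (p + 1) a d * (a 0)⁻¹ * Dd (p + 1) a d = d * a 0 * (t * d) * (a 0 * t * a 0) := by
            rw [hD]; group
        _ = d * a 0 * d * (t * (a 0 * t * a 0)) := by rw [← htd.eq]; simp only [mul_assoc]
        _ = d * a 0 * d * ((a 0 * t * a 0) * t) := by rw [htV.eq]
        _ = (d * a 0 * d * a 0) * (t * a 0 * t) := by simp only [mul_assoc]
    have hc1 : Commute (a 0) (d * a 0 * d * a 0) := by
      have e := h.four h1
      change a 0 * (d * a 0 * d * a 0) = d * a 0 * d * a 0 * a 0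
      calc a 0 * (d * a 0 * d * a 0) = (a 0 * d * a 0 * d) * a 0 := by simp only [mul_assoc]
        _ = d * a 0 * d * a 0 * a 0 := by rw [e]
    have hc2 : Commute (a 0) (t * a 0 * t) := by
      change a 0 * (t * a 0 * t) = t * a 0 * t * a 0
      calc a 0 * (t * a 0 * t) = (a 0 * t * a 0) * t := by simp only [mul_assoc]
        _ = t * (a 0 * t * a 0) := htV.eq
        _ = t * a 0 * t * a 0 := by simp only [mul_assoc]
    have hc3 : Commute (a 0)⁻¹ (Dd (p + 1) a d * (a 0)⁻¹ * Dd (p + 1) a d) := by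
      rw [hY]
      exact (hc1.mul_right hc2).inv_left
    calc (a 0)⁻¹ * Dd (p + 1) a d * (a 0)⁻¹ * Dd (p + 1) a d =
        (a 0)⁻¹ * (Dd (p + 1) a d * (a 0)⁻¹ * Dd (p + 1) a d) := by simp only [mul_assoc]
      _ = (Dd (p + 1) a d * (a 0)⁻¹ * Dd (p + 1) a d) * (a 0)⁻¹ := hc3.eq
      _ = Dd (p + 1) a d * (a 0)⁻¹ * Dd (p + 1) a d * (a 0)⁻¹ := rfl

private lemma chiA_self {k j : ℕ} (hj : j < k) :
    chiA j (zF j : F k) = (zF j)⁻¹ * zF (j + 1) * zF j := by
  rw [chiA_z hj (by omega)]
  simp [chiC]

private lemma chiA_succ {k j : ℕ} (hj : j < k) : chiA j (zF (j + 1) : F k) = zF j := by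
  rw [chiA_z hj (by omega)]
  simp [chiC]

private lemma chiA_ne {k j i : ℕ} (hj : j < k) (h1 : i ≠ j) (h2 : i ≠ j + 1) :
    chiA j (zF i : F k) = zF i := by
  rcases Nat.lt_or_ge k i with h | h
  · rw [zF_ge (by omega), map_one]
  · rw [chiA_z hj h]
    simp [chiC, h1, h2]

private lemma mulAut_conj {H : Type*} [Group H] (f : MulAut H) (g : H) :
    f * MulAut.conj g = MulAut.conj (f g) * f := by
  ext x
  simp [MulAut.mul_apply, MulAut.conj_apply]

/-- piece `BN-RL4`: the Artin action on the free group `F k`.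
Proof. `autF_ext`; each relation is checked on `z_i` for all `i ≤ k`, with case distinctions on the
position of `i` (`chiA_z`, unfold `chiC`); for `dcomm`: `chiA i` fixes `z_0` for `i > 0`; for
`four`: `(α_0 δ)²` and `(δ α_0)²` both are conjugation with `z_1 z_0` on `z_0, z_1`, and conjugation
with `z_0 · α_0(z_0)`... on the others: note `δ = conj z_0`, so `α_0 δ α_0 δ = conj (α_0 z_0)
conj (α_0² z_0) α_0²` and `δ α_0 δ α_0 = conj (z_0) conj (α_0 z_0) α_0²`; thus it is enough that
`α_0(z_0) α_0²(z_0) = z_0 α_0(z_0)`, i.e. that `α_0` fixes `z_0 α_0(z_0) = z_1 z_0`. -/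
theorem chi_rel (k : ℕ) : RelB k (chiA : ℕ → MulAut (F k)) chiD where
  comm := by
    intro i j hij hj
    refine autF_ext fun l hl => ?_
    rw [MulAut.mul_apply, MulAut.mul_apply]
    by_cases h1 : l = i
    · subst h1
      rw [chiA_ne hj (by omega) (by omega), chiA_self (by omega), map_mul, map_mul, map_inv,
        chiA_ne hj (by omega) (by omega), chiA_ne hj (by omega) (by omega)]
    by_cases h2 : l = i + 1
    · subst h2
      rw [chiA_ne hj (by omega) (by omega), chiA_succ (by omega),
        chiA_ne hj (by omega) (by omega)]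
    by_cases h3 : l = j
    · subst h3
      rw [chiA_ne (j := i) (by omega) (by omega) (by omega), chiA_self hj, map_mul, map_mul,
        map_inv, chiA_ne (j := i) (by omega) (by omega) (by omega),
        chiA_ne (j := i) (by omega) (by omega) (by omega)]
    by_cases h4 : l = j + 1
    · subst h4
      rw [chiA_ne (j := i) (by omega) (by omega) (by omega), chiA_succ hj,
        chiA_ne (j := i) (by omega) (by omega) (by omega)]
    rw [chiA_ne hj h3 h4, chiA_ne (j := i) (by omega) h1 h2, chiA_ne hj h3 h4]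
  braid := by
    intro i hi
    refine autF_ext fun l hl => ?_
    have hi0 : i < k := by omega
    rw [MulAut.mul_apply, MulAut.mul_apply, MulAut.mul_apply, MulAut.mul_apply]
    have a0 := chiA_self hi0
    have a1 := chiA_succ hi0
    have a2 : chiA i (zF (i + 2) : F k) = zF (i + 2) := chiA_ne hi0 (by omega) (by omega)
    have b0 : chiA (i + 1) (zF i : F k) = zF i := chiA_ne hi (by omega) (by omega)
    have b1 : chiA (i + 1) (zF (i + 1) : F k) =
        (zF (i + 1))⁻¹ * zF (i + 2) * zF (i + 1) := chiA_self hi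
    have b2 : chiA (i + 1) (zF (i + 2) : F k) = zF (i + 1) := chiA_succ hi
    by_cases h1 : l = i
    · subst h1
      simp only [a0, a1, a2, b0, b1, b2, map_mul, map_inv]
      group
    by_cases h2 : l = i + 1
    · subst h2
      simp only [a0, a1, a2, b0, b1, b2, map_mul, map_inv]
    by_cases h3 : l = i + 2
    · subst h3
      simp only [a0, a1, a2, b0, b1, b2, map_mul, map_inv]
    rw [chiA_ne hi0 h1 h2, chiA_ne hi (by omega) (by omega), chiA_ne hi0 h1 h2,
      chiA_ne hi (by omega) (by omega)]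
  dcomm := by
    intro i h0 hi
    unfold chiD
    rw [mulAut_conj, chiA_ne hi (by omega) (by omega)]
  four := by
    intro h0
    unfold chiD
    have e1 : (chiA 0 : MulAut (F k)) * MulAut.conj (zF 0) =
        MulAut.conj (chiA 0 (zF 0)) * chiA 0 := mulAut_conj _ _
    have e2 : (chiA 0 : MulAut (F k)) * MulAut.conj (chiA 0 (zF 0)) =
        MulAut.conj (chiA 0 (chiA 0 (zF 0))) * chiA 0 := mulAut_conj _ _
    have e3 : (chiA 0 (zF 0) : F k) * chiA 0 (chiA 0 (zF 0)) = zF 0 * chiA 0 (zF 0) := by
      rw [chiA_self h0]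
      simp only [map_mul, map_inv, chiA_self h0, chiA_succ h0]
      group
    calc (chiA 0 : MulAut (F k)) * MulAut.conj (zF 0) * chiA 0 * MulAut.conj (zF 0)
        = (chiA 0 * MulAut.conj (zF 0)) * (chiA 0 * MulAut.conj (zF 0)) := by
          simp only [mul_assoc]
      _ = MulAut.conj (chiA 0 (zF 0)) * (chiA 0 * MulAut.conj (chiA 0 (zF 0))) * chiA 0 := by
          rw [e1]; simp only [mul_assoc]
      _ = MulAut.conj (chiA 0 (zF 0) * chiA 0 (chiA 0 (zF 0))) * chiA 0 * chiA 0 := by
          rw [e2, map_mul]; simp only [mul_assoc]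
      _ = MulAut.conj (zF 0) * (MulAut.conj (chiA 0 (zF 0)) * chiA 0) * chiA 0 := by
          rw [e3, map_mul]; simp only [mul_assoc]
      _ = MulAut.conj (zF 0) * chiA 0 * MulAut.conj (zF 0) * chiA 0 := by
          rw [← e1]; simp only [mul_assoc]

private lemma grel_self {j : ℕ} (hj : j < k) :
    gA j (xG j : G k) = xG j * xG (j + 1) * xG j := by
  rw [gA_x hj (by omega)]; simp [gC]

private lemma grel_succ {j : ℕ} (hj : j < k) : gA j (xG (j + 1) : G k) = xG j := by
  rw [gA_x hj (by omega)]; simp [gC]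

private lemma grel_ne {j i : ℕ} (hj : j < k) (h1 : i ≠ j) (h2 : i ≠ j + 1) :
    gA j (xG i : G k) = xG i := by
  rcases Nat.lt_or_ge k i with h | h
  · rw [xG_ge (by omega), map_one]
  · rw [gA_x hj h]; simp [gC, h1, h2]

private lemma grel_d0 : gD (xG 0 : G k) = yG * xG 0 * yG⁻¹ := by
  rw [gD_x (by omega)]; simp [gDC]

private lemma grel_dne {i : ℕ} (h : i ≠ 0) : gD (xG i : G k) = xG i := by
  rcases Nat.lt_or_ge k i with h' | h'
  · rw [xG_ge (by omega), map_one]
  · rw [gD_x h']; simp [gDC, h]

/-- piece `BN-RL5`: the action on `G k`, relations of type `B`. Proof. `autG_ext`, case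
distinctions. -/
theorem g_rel (k : ℕ) : RelB k (gA : ℕ → MulAut (G k)) gD where
  comm := by
    intro i j hij hj
    apply autG_ext
    · intro l hl
      simp only [MulAut.mul_apply]
      by_cases h1 : l = i
      · subst h1
        rw [grel_ne hj (by omega) (by omega), grel_self (by omega), map_mul, map_mul,
          grel_ne hj (by omega) (by omega), grel_ne hj (by omega) (by omega)]
      by_cases h2 : l = i + 1
      · subst h2
        rw [grel_ne hj (by omega) (by omega), grel_succ (by omega), grel_ne hj (by omega) (by omega)]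
      by_cases h3 : l = j
      · subst h3
        rw [grel_self hj, grel_ne (by omega) (by omega) (by omega), grel_self hj, map_mul, map_mul,
          grel_ne (by omega) (by omega) (by omega), grel_ne (by omega) (by omega) (by omega)]
      by_cases h4 : l = j + 1
      · subst h4
        rw [grel_succ hj, grel_ne (by omega) (by omega) (by omega),
          grel_ne (by omega) (by omega) (by omega), grel_succ hj]
      rw [grel_ne hj h3 h4, grel_ne (by omega) h1 h2, grel_ne hj h3 h4]
    · simp only [MulAut.mul_apply, gA_y]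
  braid := by
    intro i hi
    have hi' : i < k := by omega
    apply autG_ext
    · intro l hl
      simp only [MulAut.mul_apply]
      by_cases h1 : l = i
      · subst h1
        simp only [grel_self hi', grel_self hi, grel_succ hi, grel_succ hi', map_mul,
          grel_ne hi (show l ≠ l + 1 by omega) (show l ≠ l + 1 + 1 by omega)]
        simp only [grel_self hi', grel_self hi, grel_succ hi, grel_succ hi', map_mul,
          grel_ne hi' (show l + 1 + 1 ≠ l by omega) (show l + 1 + 1 ≠ l + 1 by omega),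
          grel_ne hi (show l ≠ l + 1 by omega) (show l ≠ l + 1 + 1 by omega), mul_assoc, xG_sq',
          xG_sq, mul_one]
      by_cases h2 : l = i + 1
      · subst h2
        simp only [grel_self hi', grel_self hi, grel_succ hi, grel_succ hi', map_mul,
          grel_ne hi (show i ≠ i + 1 by omega) (show i ≠ i + 1 + 1 by omega),
          grel_ne hi' (show i + 1 + 1 ≠ i by omega) (show i + 1 + 1 ≠ i + 1 by omega), mul_assoc,
          xG_sq', xG_sq, mul_one]
      by_cases h3 : l = i + 1 + 1
      · subst h3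
        simp only [grel_succ hi, grel_succ hi',
          grel_ne hi (show i ≠ i + 1 by omega) (show i ≠ i + 1 + 1 by omega),
          grel_ne hi' (show i + 1 + 1 ≠ i by omega) (show i + 1 + 1 ≠ i + 1 by omega)]
      rw [grel_ne hi' h1 h2, grel_ne hi h2 h3, grel_ne hi' h1 h2, grel_ne hi h2 h3]
    · simp only [MulAut.mul_apply, gA_y]
  dcomm := by
    intro i h0 hi
    apply autG_ext
    · intro l hl
      simp only [MulAut.mul_apply]
      by_cases h1 : l = 0
      · subst h1
        rw [grel_ne hi (by omega) (by omega), grel_d0, map_mul, map_mul, map_inv, gA_y,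
          grel_ne hi (by omega) (by omega)]
      by_cases h2 : l = i
      · subst h2
        rw [grel_dne h1, grel_self hi, map_mul, map_mul, grel_dne h1, grel_dne (by omega)]
      by_cases h3 : l = i + 1
      · subst h3
        rw [grel_dne h1, grel_succ hi, grel_dne (by omega)]
      rw [grel_dne h1, grel_ne hi h2 h3, grel_dne h1]
    · simp only [MulAut.mul_apply, gA_y, gD_y, map_mul, map_inv,
        grel_ne hi (show 0 ≠ i by omega) (show 0 ≠ i + 1 by omega)]
  four := by
    intro h0
    have hs : gA 0 (xG 1 : G k) = xG 0 := grel_succ h0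
    have h10 : gD (xG 1 : G k) = xG 1 := grel_dne (by omega)
    have hz : gA 0 (xG 0 : G k) = xG 0 * xG 1 * xG 0 := grel_self h0
    apply autG_ext
    · intro l hl
      simp only [MulAut.mul_apply]
      by_cases h1 : l = 0
      · subst h1
        simp only [grel_d0, hz, hs, h10, gA_y, gD_y, map_mul, map_inv, mul_assoc, mul_inv_rev,
          inv_inv, xG_inv, xG_sq', xG_sq, mul_one, inv_mul_cancel_left, mul_inv_cancel_left]
      by_cases h2 : l = 1
      · subst h2
        simp only [grel_d0, hz, hs, h10, gA_y, gD_y, map_mul, map_inv, mul_assoc, mul_inv_rev,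
          inv_inv, xG_inv, xG_sq', xG_sq, mul_one, inv_mul_cancel_left, mul_inv_cancel_left]
      simp only [grel_dne h1, grel_ne h0 h1 h2]
    · simp only [MulAut.mul_apply, grel_d0, hz, hs, h10, gA_y, gD_y, map_mul, map_inv, mul_assoc,
        mul_inv_rev, inv_inv, xG_inv, xG_sq', xG_sq, mul_one, inv_mul_cancel_left,
        mul_inv_cancel_left]

/-- `φ conj(g) = conj(φ g) φ` -/
private lemma mul_conj_eq {G' : Type*} [Group G'] (φ : MulAut G') (g : G') :
    φ * MulAut.conj g = MulAut.conj (φ g) * φ := by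
  ext x
  simp [MulAut.mul_apply, MulAut.conj_apply]

/-- piece `BN-RL6`: the action on `G k`, `k = m + 2`, relations of type `B̃`.
Proof. `gB = conj (x_k) α_{k-1} conj (x_k) = conj (x_k α_{k-1}(x_k)) α_{k-1}
= conj (x_k x_{k-1}) α_{k-1}`. `ba`: `α_{k-1}` fixes `x_k x_{k-1}` and commutes with
`conj (x_k x_{k-1})`. The other relations: `conj (x_k)` commutes with `α_i` for `i + 1 < k` and
with `δ` (they fix `x_k`), so `gB`, `α_i`, `δ` satisfy the same relations as `α_{k-1}`, `α_i`,
`δ`. -/
theorem gB_rel (m : ℕ) : RelA m (gA : ℕ → MulAut (G (m + 2))) gB gD := by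
  have hR := g_rel (m + 2)
  obtain ⟨c, hc⟩ : ∃ c : MulAut (G (m + 2)), c = MulAut.conj (xG (m + 2)) := ⟨_, rfl⟩
  have hB : (gB : MulAut (G (m + 2))) = c * gA (m + 1) * c := by
    rw [hc]
    rfl
  have hcc : c * c = 1 := by
    rw [hc, ← map_mul]
    simp
  -- elements fixing the last generator commute with `c`
  have hfix : ∀ φ : MulAut (G (m + 2)), φ (xG (m + 2)) = xG (m + 2) → φ * c = c * φ := by
    intro φ h
    rw [hc, mul_conj_eq, h]
  have hcA : ∀ i, i ≤ m → gA i * c = c * gA i := by
    intro i hi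
    apply hfix
    rw [gA_x (by omega) le_rfl]
    unfold gC
    rw [if_neg (by omega), if_neg (by omega)]
  have hcD : gD * c = c * gD := by
    apply hfix
    rw [gD_x le_rfl]
    unfold gDC
    rw [if_neg (by omega)]
  refine ⟨hR, ?_, ?_, ?_, ?_⟩
  · -- `ba`
    obtain ⟨u, hu⟩ : ∃ u : MulAut (G (m + 2)), u = MulAut.conj (xG (m + 1)) := ⟨_, rfl⟩
    have huu : u * u = 1 := by
      rw [hu, ← map_mul]
      simp
    have h1 : gA (m + 1) * c = u * gA (m + 1) := by
      rw [hc, mul_conj_eq, gA_x (by omega) le_rfl]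
      unfold gC
      rw [if_neg (by omega), if_pos rfl, hu]
    have h2 : gA (m + 1) * u = u * c * u * gA (m + 1) := by
      rw [hu, mul_conj_eq, gA_x (by omega) (by omega)]
      unfold gC
      rw [if_pos rfl, map_mul, map_mul, hc]
    rw [hB]
    calc c * gA (m + 1) * c * gA (m + 1)
        = c * (gA (m + 1) * c) * gA (m + 1) := by simp only [mul_assoc]
      _ = c * u * (gA (m + 1) * gA (m + 1)) := by rw [h1]; simp only [mul_assoc]
      _ = (u * u) * (c * u * (gA (m + 1) * gA (m + 1))) := by rw [huu, one_mul]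
      _ = u * (u * c * u * gA (m + 1)) * gA (m + 1) := by simp only [mul_assoc]
      _ = u * (gA (m + 1) * u) * gA (m + 1) := by rw [h2]
      _ = u * gA (m + 1) * (u * gA (m + 1)) := by simp only [mul_assoc]
      _ = (gA (m + 1) * c) * (gA (m + 1) * c) := by rw [h1]
      _ = gA (m + 1) * (c * gA (m + 1) * c) := by simp only [mul_assoc]
  · -- `bb`
    have hb := hR.braid m (by omega)
    have hm := hcA m le_rfl
    rw [hB]
    calc c * gA (m + 1) * c * gA m * (c * gA (m + 1) * c)
        = c * gA (m + 1) * (c * gA m) * c * gA (m + 1) * c := by simp only [mul_assoc]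
      _ = c * gA (m + 1) * gA m * (c * c) * gA (m + 1) * c := by
          rw [← hm]; simp only [mul_assoc]
      _ = c * (gA (m + 1) * gA m * gA (m + 1)) * c := by
          rw [hcc, mul_one]; simp only [mul_assoc]
      _ = c * (gA m * gA (m + 1) * gA m) * c := by rw [hb]
      _ = (c * gA m) * gA (m + 1) * (gA m * c) := by simp only [mul_assoc]
      _ = (gA m * c) * gA (m + 1) * (c * gA m) := by rw [hm]
      _ = gA m * (c * gA (m + 1) * c) * gA m := by simp only [mul_assoc]
  · -- `bc`
    intro i hi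
    have h1 := hcA i (by omega)
    have h2 := hR.comm i (m + 1) (by omega) (by omega)
    rw [hB]
    calc c * gA (m + 1) * c * gA i
        = c * gA (m + 1) * (c * gA i) := by simp only [mul_assoc]
      _ = c * (gA (m + 1) * gA i) * c := by rw [← h1]; simp only [mul_assoc]
      _ = (c * gA i) * gA (m + 1) * c := by rw [← h2]; simp only [mul_assoc]
      _ = gA i * (c * gA (m + 1) * c) := by rw [← h1]; simp only [mul_assoc]
  · -- `bd`
    have h2 := hR.dcomm (m + 1) (by omega) (by omega)
    rw [hB]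
    calc c * gA (m + 1) * c * gD
        = c * gA (m + 1) * (c * gD) := by simp only [mul_assoc]
      _ = c * (gA (m + 1) * gD) * c := by rw [← hcD]; simp only [mul_assoc]
      _ = (c * gD) * gA (m + 1) * c := by rw [h2]; simp only [mul_assoc]
      _ = gD * (c * gA (m + 1) * c) := by rw [← hcD]; simp only [mul_assoc]

private lemma permR_comm {a b c d : ℕ} (h1 : a ≠ c) (h2 : a ≠ d) (h3 : b ≠ c) (h4 : b ≠ d) :
    (Equiv.swap a b * Equiv.swap c d : Equiv.Perm ℕ) = Equiv.swap c d * Equiv.swap a b := by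
  apply Equiv.ext
  intro x
  simp only [Equiv.Perm.mul_apply, Equiv.swap_apply_def]
  split_ifs <;> omega

private lemma permR_braid {a b c : ℕ} (h1 : a ≠ b) (h2 : b ≠ c) (h3 : a ≠ c) :
    (Equiv.swap a b * Equiv.swap b c * Equiv.swap a b : Equiv.Perm ℕ) =
      Equiv.swap b c * Equiv.swap a b * Equiv.swap b c := by
  apply Equiv.ext
  intro x
  simp only [Equiv.Perm.mul_apply, Equiv.swap_apply_def]
  split_ifs <;> omega

private lemma permR_B (k : ℕ) :
    RelB k (fun j => Equiv.swap j (j + 1) : ℕ → Equiv.Perm ℕ) 1 where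
  comm i j h1 h2 := permR_comm (by omega) (by omega) (by omega) (by omega)
  braid i h1 := permR_braid (by omega) (by omega) (by omega)
  dcomm i h1 h2 := by rw [mul_one, one_mul]
  four h1 := by simp only [mul_one, one_mul]

/-- piece `BN-RL7`: the permutations of the strands. -/
theorem perm_relA (m : ℕ) :
    RelA m (fun j => Equiv.swap j (j + 1) : ℕ → Equiv.Perm ℕ) (Equiv.swap (m + 1) (m + 2)) 1 where
  toRelB := permR_B (m + 2)
  ba := rfl
  bb := (permR_braid (a := m) (b := m + 1) (c := m + 2) (by omega) (by omega) (by omega)).symm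
  bc i h1 := permR_comm (by omega) (by omega) (by omega) (by omega)
  bd := by rw [mul_one, one_mul]

/-- piece `BN-RL7` -/
theorem perm_relB (k : ℕ) :
    RelB k (fun j => Equiv.swap j (j + 1) : ℕ → Equiv.Perm ℕ) 1 := permR_B k

/-- piece `BN-RL8`: folding: `b ↦ a_{k-1}`. -/
theorem fold_rel (h : RelB (m + 2) a d) : RelA m a (a (m + 1)) d where
  comm := h.comm
  braid := h.braid
  dcomm := h.dcomm
  four := h.four
  ba := rfl
  bb := (h.braid m (by omega)).symm
  bc i hi := (h.comm i (m + 1) (by omega) (by omega)).symm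
  bd := h.dcomm (m + 1) (by omega) (by omega)

/-- piece `BN-RL8`: the exchange of the two leaves. In `A m`: `a_{m+1} ↔ b`. -/
theorem tau_rel (h : RelA m a b d) :
    RelA m (fun j => if j = m + 1 then b else a j) (a (m + 1)) d where
  comm i j hij hj := by
    rw [if_neg (show i ≠ m + 1 by omega)]
    by_cases h1 : j = m + 1
    · rw [if_pos h1]
      exact (h.bc i (by omega)).symm
    · rw [if_neg h1]
      exact h.comm i j hij hj
  braid i hi := by
    rw [if_neg (show i ≠ m + 1 by omega)]
    by_cases h1 : i = m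
    · subst h1
      rw [if_pos rfl]
      exact h.bb.symm
    · rw [if_neg (show i + 1 ≠ m + 1 by omega)]
      exact h.braid i hi
  dcomm i h0 hi := by
    by_cases h1 : i = m + 1
    · rw [if_pos h1]
      exact h.bd
    · rw [if_neg h1]
      exact h.dcomm i h0 hi
  four _ := by
    rw [if_neg (show 0 ≠ m + 1 by omega)]
    exact h.four (by omega)
  ba := by
    rw [if_pos rfl]
    exact h.ba.symm
  bb := by
    rw [if_neg (show m ≠ m + 1 by omega)]
    exact (h.braid m (by omega)).symm
  bc i hi := by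
    rw [if_neg (show i ≠ m + 1 by omega)]
    exact (h.comm i (m + 1) (by omega) (by omega)).symm
  bd := h.dcomm (m + 1) (by omega) (by omega)

/-- piece `BN-RL8`: the homomorphism to `ℤ²`. -/
theorem ab_rel (m : ℕ) : RelA m (fun _ => Multiplicative.ofAdd ((1, 0) : ℤ × ℤ))
    (Multiplicative.ofAdd (1, 0)) (Multiplicative.ofAdd (0, 1)) where
  comm _ _ _ _ := rfl
  braid _ _ := rfl
  dcomm _ _ _ := mul_comm _ _
  four _ := by
    rw [mul_assoc, mul_assoc, mul_comm _ (_ * (_ * _))]
    simp only [mul_assoc]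
  ba := rfl
  bb := rfl
  bc _ _ := rfl
  bd := mul_comm _ _

end Pool.Agent.Helper38.BN
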