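import Pool.Agent.Helper38.BN.FG

/-!
# Project BN: words
-/

namespace Pool.Agent.Helper38.BN

section
variable {K : Type*} [Group K]

/-- the product `a_0 a_1 ⋯ a_{j-1}` -/
def kap (a : ℕ → K) : ℕ → K
  | 0 => 1
  | j + 1 => kap a j * a j

/-- the product `a_{j-1} ⋯ a_1 a_0` -/
def krev (a : ℕ → K) : ℕ → K
  | 0 => 1
  | j + 1 => a j * krev a j

/-- the elements `z_0 = d`, `z_{j+1} = a_j⁻¹ z_j a_j` -/
def zz (a : ℕ → K) (d : K) : ℕ → K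
  | 0 => d
  | j + 1 => (a j)⁻¹ * zz a d j * a j

/-- the product `z_j ⋯ z_0` -/
def wz (a : ℕ → K) (d : K) : ℕ → K
  | 0 => zz a d 0
  | j + 1 => zz a d (j + 1) * wz a d j

/-- the element `ρ = d a_0 ⋯ a_{k-1}` -/
def rho (k : ℕ) (a : ℕ → K) (d : K) : K := d * kap a k

/-- the element `ζ = ρ^(k+1)` -/
def zeta (k : ℕ) (a : ℕ → K) (d : K) : K := rho k a d ^ (k + 1)

/-- the element `Ω = κ^(k+1)`, `κ = a_0 ⋯ a_{k-1}` -/
def Om (k : ℕ) (a : ℕ → K) : K := kap a k ^ (k + 1)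

/-- the element `D = d a_0 ⋯ a_{k-1} a_{k-1} ⋯ a_0` -/
def Dd (k : ℕ) (a : ℕ → K) (d : K) : K := d * kap a k * krev a k

end

/-- `ζ` in `HB k` -/
def zeH (k : ℕ) : HB k := zeta k aH dH
/-- `ζ` in `A m` -/
def zeA (m : ℕ) : A m := zeta (m + 2) aA dA
/-- the element `u = b a_{k-1}⁻¹` of `A m` -/
def uA {m : ℕ} : A m := bA * (aA (m + 1))⁻¹

end Pool.Agent.Helper38.BN
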